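import Pool.Agent.Lib.MP_6e5bed_ag.SOp

set_option autoImplicit false
set_option linter.unusedSectionVars false

/-!
# MP_6e5bed_ag (project SYM): functors with a split lax tensor structure preserve Kimura-finiteness
-/

namespace Pool.Agent.MP_6e5bed_ag_SY

open CategoryTheory MonoidalCategory Equiv Pool.Agent.MP_6e5bed_ag

universe v u v' u'

variable {C : Type u} [Category.{v} C] [MonoidalCategory C] [SymmetricCategory C]
  {D : Type u'} [Category.{v'} D] [MonoidalCategory D] [SymmetricCategory D]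

/-- A natural, associative and symmetric family of split monomorphisms `F X ⊗ F Y ⟶ F (X ⊗ Y)`
(nothing is asked for the units). -/
structure LaxT (F : C ⥤ D) where
  μ : ∀ X Y : C, F.obj X ⊗ F.obj Y ⟶ F.obj (X ⊗ Y)
  nat : ∀ {X Y X' Y' : C} (f : X ⟶ X') (g : Y ⟶ Y'),
    (F.map f ⊗ₘ F.map g) ≫ μ X' Y' = μ X Y ≫ F.map (f ⊗ₘ g)
  assoc : ∀ X Y Z : C, (μ X Y ▷ F.obj Z) ≫ μ (X ⊗ Y) Z ≫ F.map (α_ X Y Z).hom =
    (α_ (F.obj X) (F.obj Y) (F.obj Z)).hom ≫ (F.obj X ◁ μ Y Z) ≫ μ X (Y ⊗ Z)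
  symm : ∀ X Y : C, μ X Y ≫ F.map (β_ X Y).hom = (β_ (F.obj X) (F.obj Y)).hom ≫ μ Y X
  ν : ∀ X Y : C, F.obj (X ⊗ Y) ⟶ F.obj X ⊗ F.obj Y
  split : ∀ X Y : C, μ X Y ≫ ν X Y = 𝟙 _

/-- The structure map of the tensor power with `n + 1` factors. -/
def LaxT.pw {F : C ⥤ D} (h : LaxT F) (X : C) :
    (n : ℕ) → (tpow (F.obj X) (n + 1) ⟶ F.obj (tpow X (n + 1)))
  | 0 => (ρ_ (F.obj X)).hom ≫ F.map (ρ_ X).inv
  | n + 1 => (F.obj X ◁ LaxT.pw h X n) ≫ h.μ X (tpow X (n + 1))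

variable {F : C ⥤ D} (h : LaxT F)

theorem LaxT.pw_zero (X : C) : h.pw X 0 = (ρ_ (F.obj X)).hom ≫ F.map (ρ_ X).inv := rfl

theorem LaxT.pw_succ (X : C) (n : ℕ) :
    h.pw X (n + 1) = (F.obj X ◁ h.pw X n) ≫ h.μ X (tpow X (n + 1)) := rfl

private theorem Abs_natR (X : C) {Y Y' : C} (g : Y ⟶ Y') :
    (F.obj X ◁ F.map g) ≫ h.μ X Y' = h.μ X Y ≫ F.map (X ◁ g) := by
  have h1 := h.nat (𝟙 X) g
  rw [F.map_id, id_tensorHom, id_tensorHom] at h1
  exact h1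

private theorem Abs_natL {X X' : C} (f : X ⟶ X') (Y : C) :
    (F.map f ▷ F.obj Y) ≫ h.μ X' Y = h.μ X Y ≫ F.map (f ▷ Y) := by
  have h1 := h.nat f (𝟙 Y)
  rw [F.map_id, tensorHom_id, tensorHom_id] at h1
  exact h1

private theorem Abs_assoc' (X Y Z : C) : (F.obj X ◁ h.μ Y Z) ≫ h.μ X (Y ⊗ Z) =
    (α_ (F.obj X) (F.obj Y) (F.obj Z)).inv ≫ (h.μ X Y ▷ F.obj Z) ≫ h.μ (X ⊗ Y) Z ≫
      F.map (α_ X Y Z).hom := by
  rw [h.assoc, Iso.inv_hom_id_assoc]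

/-- Proof. From `assoc`, `symm`, `nat` (compare `fun_sw` in `Lib/MP_6e5bed_ag/Fun.lean`). -/
theorem LaxT.sw (X T : C) : (F.obj X ◁ h.μ X T) ≫ h.μ X (X ⊗ T) ≫ F.map (sw X T) =
    Pool.Agent.MP_6e5bed_ag.sw (F.obj X) (F.obj T) ≫ (F.obj X ◁ h.μ X T) ≫ h.μ X (X ⊗ T) := by
  rw [← Category.assoc, Abs_assoc' h X X T]
  unfold Pool.Agent.MP_6e5bed_ag.sw
  simp only [Category.assoc, ← Functor.map_comp]
  rw [Iso.hom_inv_id_assoc, Functor.map_comp, ← Category.assoc (h.μ (X ⊗ X) T),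
    ← Abs_natL h (β_ X X).hom T, Category.assoc, ← Category.assoc (h.μ X X ▷ F.obj T),
    ← comp_whiskerRight, h.symm, comp_whiskerRight, Category.assoc, Iso.hom_inv_id_assoc]

private theorem Abs_sw_unit {E : Type u'} [Category.{v'} E] [MonoidalCategory E]
    [SymmetricCategory E] (X : E) : Pool.Agent.MP_6e5bed_ag.sw X (𝟙_ E) =
      (X ◁ (ρ_ X).hom) ≫ (β_ X X).hom ≫ (X ◁ (ρ_ X).inv) := by
  unfold Pool.Agent.MP_6e5bed_ag.sw
  have h1 : (α_ X X (𝟙_ E)).hom = (ρ_ (X ⊗ X)).hom ≫ (X ◁ (ρ_ X).inv) := by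
    rw [rightUnitor_tensor_hom, Category.assoc, ← MonoidalCategory.whiskerLeft_comp,
      Iso.hom_inv_id, MonoidalCategory.whiskerLeft_id, Category.comp_id]
  have h2 : (α_ X X (𝟙_ E)).inv = (X ◁ (ρ_ X).hom) ≫ (ρ_ (X ⊗ X)).inv := by
    rw [rightUnitor_tensor_inv, ← Category.assoc, ← MonoidalCategory.whiskerLeft_comp,
      Iso.hom_inv_id, MonoidalCategory.whiskerLeft_id, Category.id_comp]
  rw [h1, h2, Category.assoc, ← Category.assoc ((β_ X X).hom ▷ 𝟙_ E),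
    rightUnitor_naturality, Category.assoc, Iso.inv_hom_id_assoc]

private theorem Abs_sw1 (X : C) :
    ((F.obj X ◁ ((ρ_ (F.obj X)).hom ≫ F.map (ρ_ X).inv)) ≫ h.μ X (X ⊗ 𝟙_ C)) ≫
      F.map (sw X (𝟙_ C)) = Pool.Agent.MP_6e5bed_ag.sw (F.obj X) (𝟙_ D) ≫
        (F.obj X ◁ ((ρ_ (F.obj X)).hom ≫ F.map (ρ_ X).inv)) ≫ h.μ X (X ⊗ 𝟙_ C) := by
  have h0 : (F.obj X ◁ ((ρ_ (F.obj X)).hom ≫ F.map (ρ_ X).inv)) ≫ h.μ X (X ⊗ 𝟙_ C) =
      (F.obj X ◁ (ρ_ (F.obj X)).hom) ≫ h.μ X X ≫ F.map (X ◁ (ρ_ X).inv) := by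
    rw [MonoidalCategory.whiskerLeft_comp, Category.assoc, Abs_natR]
  have h3 : F.map (X ◁ (ρ_ X).inv) ≫ F.map (X ◁ (ρ_ X).hom) = 𝟙 _ := by
    rw [← Functor.map_comp, ← MonoidalCategory.whiskerLeft_comp, Iso.inv_hom_id,
      MonoidalCategory.whiskerLeft_id, F.map_id]
  have h4 : (F.obj X ◁ (ρ_ (F.obj X)).inv) ≫ (F.obj X ◁ (ρ_ (F.obj X)).hom) = 𝟙 _ := by
    rw [← MonoidalCategory.whiskerLeft_comp, Iso.inv_hom_id, MonoidalCategory.whiskerLeft_id]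
  rw [h0, Abs_sw_unit, Abs_sw_unit, Functor.map_comp, Functor.map_comp]
  simp only [Category.assoc]
  rw [← Category.assoc (F.map (X ◁ (ρ_ X).inv)) (F.map (X ◁ (ρ_ X).hom)), h3,
    Category.id_comp, ← Category.assoc (F.obj X ◁ (ρ_ (F.obj X)).inv), h4, Category.id_comp,
    ← Category.assoc (h.μ X X), h.symm, Category.assoc]

private theorem Abs_sw2 (X T : C) {T' : D} (j : T' ⟶ F.obj T) :
    ((F.obj X ◁ ((F.obj X ◁ j) ≫ h.μ X T)) ≫ h.μ X (X ⊗ T)) ≫ F.map (sw X T) =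
      Pool.Agent.MP_6e5bed_ag.sw (F.obj X) T' ≫
        (F.obj X ◁ ((F.obj X ◁ j) ≫ h.μ X T)) ≫ h.μ X (X ⊗ T) := by
  simp only [MonoidalCategory.whiskerLeft_comp, Category.assoc]
  rw [LaxT.sw, ← Category.assoc, ← Category.assoc, ← sw_comm]
  simp only [Category.assoc]

private theorem Abs_wl (X : C) {T : C} (a : T ⟶ T) {T' : D} (j : T' ⟶ F.obj T) (a' : T' ⟶ T')
    (ha : j ≫ F.map a = a' ≫ j) : ((F.obj X ◁ j) ≫ h.μ X T) ≫ F.map (X ◁ a) =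
      (F.obj X ◁ a') ≫ (F.obj X ◁ j) ≫ h.μ X T := by
  rw [Category.assoc, ← Abs_natR, ← Category.assoc, ← MonoidalCategory.whiskerLeft_comp, ha,
    MonoidalCategory.whiskerLeft_comp, Category.assoc]

private theorem Abs_tm {X Y T S : C} (f : X ⟶ Y) (g : T ⟶ S) {T' S' : D}
    (j : T' ⟶ F.obj T) (l : S' ⟶ F.obj S) (g' : T' ⟶ S') (hg : j ≫ F.map g = g' ≫ l) :
    ((F.obj X ◁ j) ≫ h.μ X T) ≫ F.map (f ⊗ₘ g) =
      (F.map f ⊗ₘ g') ≫ (F.obj Y ◁ l) ≫ h.μ Y S := by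
  rw [Category.assoc, ← h.nat, ← id_tensorHom, ← id_tensorHom, ← Category.assoc,
    ← Category.assoc, tensorHom_comp_tensorHom, tensorHom_comp_tensorHom, hg,
    Category.id_comp, Category.comp_id]

private theorem Abs_sp (X T : C) {T' : D} (j : T' ⟶ F.obj T) (r : F.obj T ⟶ T')
    (hj : j ≫ r = 𝟙 T') : ((F.obj X ◁ j) ≫ h.μ X T) ≫ h.ν X T ≫ (F.obj X ◁ r) = 𝟙 _ := by
  rw [Category.assoc, ← Category.assoc (h.μ X T), h.split, Category.id_comp,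
    ← MonoidalCategory.whiskerLeft_comp, hj, MonoidalCategory.whiskerLeft_id]

omit [SymmetricCategory C] [SymmetricCategory D] in
private theorem Abs_tm0 (F : C ⥤ D) {X Y : C} (f : X ⟶ Y) :
    ((ρ_ (F.obj X)).hom ≫ F.map (ρ_ X).inv) ≫ F.map (f ⊗ₘ 𝟙 (𝟙_ C)) =
      (F.map f ⊗ₘ 𝟙 (𝟙_ D)) ≫ (ρ_ (F.obj Y)).hom ≫ F.map (ρ_ Y).inv := by
  rw [tensorHom_id, tensorHom_id, Category.assoc, ← Functor.map_comp,
    ← rightUnitor_inv_naturality, Functor.map_comp, ← Category.assoc, ← Category.assoc,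
    rightUnitor_naturality]

/-- Proof. Induction on `n` and `i`, as `powIso_adj` in `Lib/MP_6e5bed_ag/Fun.lean`. For two factors
(`n = 1`, `i = 0`) one has `sw X (𝟙_ C) = (X ◁ (ρ_ X).hom) ≫ (β_ X X).hom ≫ (X ◁ (ρ_ X).inv)`, and
`h.pw X 1 = (F.obj X ◁ (ρ_ (F.obj X)).hom) ≫ μ X X ≫ F.map (X ◁ (ρ_ X).inv)` by `nat`. -/
theorem LaxT.pw_adj (X : C) (n i : ℕ) : h.pw X n ≫ F.map (adj X (n + 1) i) =
    adj (F.obj X) (n + 1) i ≫ h.pw X n := by
  induction n generalizing i with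
  | zero =>
    have h1 : F.map (adj X 1 i) = 𝟙 _ := F.map_id _
    exact (congrArg (fun z => h.pw X 0 ≫ z) h1).trans
      ((Category.comp_id _).trans (Category.id_comp _).symm)
  | succ n ih =>
    cases i with
    | zero =>
      cases n with
      | zero => exact Abs_sw1 h X
      | succ n => exact Abs_sw2 h X (tpow X (n + 1)) (h.pw X n)
    | succ i =>
      exact Abs_wl h X (adj X (n + 1) i) (h.pw X n) (adj (F.obj X) (n + 1) i) (ih i)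

theorem LaxT.pw_perm (X : C) (n : ℕ) (σ : Perm (Fin (n + 1))) :
    h.pw X n ≫ F.map (perm X (n + 1) σ : tpow X (n + 1) ⟶ tpow X (n + 1)) =
      (perm (F.obj X) (n + 1) σ : tpow (F.obj X) (n + 1) ⟶ tpow (F.obj X) (n + 1)) ≫
        h.pw X n := by
  refine perm_induction (P := fun σ => h.pw X n ≫
      F.map (perm X (n + 1) σ : tpow X (n + 1) ⟶ tpow X (n + 1)) =
        (perm (F.obj X) (n + 1) σ : tpow (F.obj X) (n + 1) ⟶ tpow (F.obj X) (n + 1)) ≫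
          h.pw X n) ?_ ?_ ?_ σ
  · rw [map_one, map_one]
    have h1 : F.map (𝟙 (tpow X (n + 1))) = 𝟙 _ := F.map_id _
    exact (congrArg (fun z => h.pw X n ≫ z) h1).trans
      ((Category.comp_id _).trans (Category.id_comp _).symm)
  · intro i hi
    rw [perm_adj X (n + 1) i hi, perm_adj (F.obj X) (n + 1) i hi]
    exact LaxT.pw_adj h X n i
  · intro a b ha hb
    rw [map_mul, map_mul, End.mul_def, End.mul_def, Functor.map_comp, ← Category.assoc, hb,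
      Category.assoc, ha, ← Category.assoc]

theorem LaxT.pw_tmap {X Y : C} (f : X ⟶ Y) (n : ℕ) :
    h.pw X n ≫ F.map (tmap f (n + 1)) = tmap (F.map f) (n + 1) ≫ h.pw Y n := by
  induction n with
  | zero => exact Abs_tm0 F f
  | succ n ih =>
    exact Abs_tm h f (tmap f (n + 1)) (h.pw X n) (h.pw Y n) (tmap (F.map f) (n + 1)) ih

theorem LaxT.pw_split (X : C) (n : ℕ) :
    ∃ r : F.obj (tpow X (n + 1)) ⟶ tpow (F.obj X) (n + 1), h.pw X n ≫ r = 𝟙 _ := by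
  induction n with
  | zero =>
    refine ⟨F.map (ρ_ X).hom ≫ (ρ_ (F.obj X)).inv, ?_⟩
    have h1 : ((ρ_ (F.obj X)).hom ≫ F.map (ρ_ X).inv) ≫ F.map (ρ_ X).hom ≫
        (ρ_ (F.obj X)).inv = 𝟙 _ := by
      rw [Category.assoc, ← Category.assoc (F.map (ρ_ X).inv), ← Functor.map_comp,
        Iso.inv_hom_id, F.map_id, Category.id_comp, Iso.hom_inv_id]
    exact h1
  | succ n ih =>
    obtain ⟨r, hr⟩ := ih
    exact ⟨h.ν X (tpow X (n + 1)) ≫ (F.obj X ◁ r), Abs_sp h X (tpow X (n + 1)) (h.pw X n) r hr⟩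

omit [SymmetricCategory D] in
private theorem Abs_pos [Preadditive C] [MonoidalPreadditive C] (χ : ℤˣ →* ℤ) {X : C}
    {e : X ⟶ X} {r : ℕ} (hr : gSum χ X r ≫ tmap e r = 0) :
    ∃ n, gSum χ X (n + 1) ≫ tmap e (n + 1) = 0 := by
  cases r with
  | zero =>
    have h1 : 𝟙 (𝟙_ C) = 0 := by
      rw [gSum_zero, tmap_zero'] at hr
      exact (Category.comp_id _).symm.trans hr
    refine ⟨0, ?_⟩
    have h2 : tmap e 1 = 0 := by
      have h3 : e ⊗ₘ 𝟙 (𝟙_ C) = 0 := by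
        rw [h1, MonoidalPreadditive.tensor_zero]
      exact h3
    exact (congrArg (fun z => gSum χ X 1 ≫ z) h2).trans Limits.comp_zero
  | succ n => exact ⟨n, hr⟩

private theorem Abs_gSum [Preadditive C] [Preadditive D] [F.Additive] (χ : ℤˣ →* ℤ) (X : C)
    (n : ℕ) : h.pw X n ≫ F.map (gSum χ X (n + 1)) = gSum χ (F.obj X) (n + 1) ≫ h.pw X n := by
  unfold gSum
  rw [Functor.map_sum, Preadditive.sum_comp, Preadditive.comp_sum]
  refine Finset.sum_congr rfl fun σ _ => ?_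
  rw [Functor.map_zsmul, Preadditive.zsmul_comp, Preadditive.comp_zsmul]
  exact congrArg _ (LaxT.pw_perm h X n σ)

include h in
private theorem Abs_kill [Preadditive C] [Preadditive D] [F.Additive] (χ : ℤˣ →* ℤ) {X : C}
    {e : X ⟶ X} {n : ℕ} (hn : gSum χ X (n + 1) ≫ tmap e (n + 1) = 0) :
    gSum χ (F.obj X) (n + 1) ≫ tmap (F.map e) (n + 1) = 0 := by
  obtain ⟨r, hr⟩ := LaxT.pw_split h X n
  have h1 : (gSum χ (F.obj X) (n + 1) ≫ tmap (F.map e) (n + 1)) ≫ h.pw X n = 0 := by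
    rw [Category.assoc, ← LaxT.pw_tmap, ← Category.assoc, ← Abs_gSum, Category.assoc,
      ← Functor.map_comp, hn, Functor.map_zero, Limits.comp_zero]
  calc gSum χ (F.obj X) (n + 1) ≫ tmap (F.map e) (n + 1)
      = (gSum χ (F.obj X) (n + 1) ≫ tmap (F.map e) (n + 1)) ≫ h.pw X n ≫ r := by
        rw [hr, Category.comp_id]
    _ = 0 := by
        rw [← Category.assoc, h1, Limits.zero_comp]

include h in
/-- Proof. Let `e` be the idempotent of `X`. Then `F e` works for `F X`: with `f = altSum X r ≫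
tmap e r = 0`, `r = n + 1 ≥ 1` (by `gSum_kill_add`, as in `altSum_kill_add`, one can pass from `r` to
`r + 1`: `altSum X 1 ≫ tmap 0 1 = 0`), `altSum (F X) r ≫ tmap (F e) r ≫ pw = pw ≫ F f = 0` by
`pw_perm` and `pw_tmap`; now use `pw_split`. The same for `symSum`. -/
theorem LaxT.opKF [Preadditive C] [MonoidalPreadditive C] [Preadditive D] [MonoidalPreadditive D]
    [F.Additive] {X : C} (hX : OpKF X) : OpKF (F.obj X) := by
  obtain ⟨e, he, ⟨r, hr⟩, s, hs⟩ := hX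
  rw [← gSum_coe] at hr
  rw [← gSum_one] at hs
  obtain ⟨n, hn⟩ := Abs_pos (Units.coeHom ℤ) hr
  obtain ⟨m, hm⟩ := Abs_pos 1 hs
  refine ⟨F.map e, ?_, ⟨n + 1, ?_⟩, m + 1, ?_⟩
  · rw [← Functor.map_comp, he]
  · rw [← gSum_coe]
    exact Abs_kill h (Units.coeHom ℤ) hn
  · have h1 : 𝟙 (F.obj X) - F.map e = F.map (𝟙 X - e) := by
      rw [Functor.map_sub, F.map_id]
    rw [← gSum_one, h1]
    exact Abs_kill h 1 hm

end Pool.Agent.MP_6e5bed_ag_SY
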