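import Pool.Agent.Lib.MP_6e5bed_ag_SY.Abs
import Pool.Agent.Lib.MP_6e5bed_ag_CV.FinalA

set_option autoImplicit false
set_option linter.unusedSectionVars false

/-!
# MP_6e5bed_ag (project SYM): functors to the idempotent completion
-/

namespace Pool.Agent.MP_6e5bed_ag_SY

open CategoryTheory MonoidalCategory Idempotents Equiv Pool.Agent.MP_6e5bed_ag
open Pool.Agent.MP_6e5bed_ag_NC

universe v u

/-- Data which give an additive functor from `C` to its idempotent completion, `X ↦ (S X, e X)`,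
with a split lax tensor structure. -/
structure KData (C : Type u) [Category.{v} C] [MonoidalCategory C] [SymmetricCategory C]
    [Preadditive C] where
  S : C → C
  e : ∀ X : C, S X ⟶ S X
  map : ∀ {X Y : C}, (X ⟶ Y) → (S X ⟶ S Y)
  map_add : ∀ {X Y : C} (f g : X ⟶ Y), map (f + g) = map f + map g
  map_id : ∀ X : C, map (𝟙 X) = e X
  map_comp : ∀ {X Y Z : C} (f : X ⟶ Y) (g : Y ⟶ Z), map (f ≫ g) = map f ≫ map g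
  μ : ∀ X Y : C, S X ⊗ S Y ⟶ S (X ⊗ Y)
  e_μ : ∀ X Y : C, (e X ⊗ₘ e Y) ≫ μ X Y = μ X Y ≫ e (X ⊗ Y)
  nat : ∀ {X Y X' Y' : C} (f : X ⟶ X') (g : Y ⟶ Y'),
    (map f ⊗ₘ map g) ≫ μ X' Y' = μ X Y ≫ map (f ⊗ₘ g)
  assoc : ∀ X Y Z : C, (μ X Y ▷ S Z) ≫ μ (X ⊗ Y) Z ≫ map (α_ X Y Z).hom =
    (α_ (S X) (S Y) (S Z)).hom ≫ (S X ◁ μ Y Z) ≫ μ X (Y ⊗ Z) ≫ e (X ⊗ (Y ⊗ Z))
  symm : ∀ X Y : C, μ X Y ≫ map (β_ X Y).hom = (β_ (S X) (S Y)).hom ≫ μ Y X ≫ e (Y ⊗ X)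
  ν : ∀ X Y : C, S (X ⊗ Y) ⟶ S X ⊗ S Y
  split : ∀ X Y : C, (e X ⊗ₘ e Y) ≫ μ X Y ≫ ν X Y = e X ⊗ₘ e Y

section

variable {C : Type u} [Category.{v} C] [MonoidalCategory C] [SymmetricCategory C] [Preadditive C]
  (h : KData C)

theorem KData.ee (X : C) : h.e X ≫ h.e X = h.e X := by
  rw [← h.map_id, ← h.map_comp, Category.comp_id]

theorem KData.e_map {X Y : C} (f : X ⟶ Y) : h.e X ≫ h.map f = h.map f := by
  rw [← h.map_id, ← h.map_comp, Category.id_comp]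

theorem KData.map_e {X Y : C} (f : X ⟶ Y) : h.map f ≫ h.e Y = h.map f := by
  rw [← h.map_id, ← h.map_comp, Category.comp_id]

private theorem AbsB_mu (X Y : C) :
    (h.e X ⊗ₘ h.e Y) ≫ (h.μ X Y ≫ h.e (X ⊗ Y)) ≫ h.e (X ⊗ Y) = h.μ X Y ≫ h.e (X ⊗ Y) := by
  rw [Category.assoc, h.ee, ← Category.assoc, h.e_μ, Category.assoc, h.ee]

private theorem AbsB_nat {X Y X' Y' : C} (f : X ⟶ X') (g : Y ⟶ Y') :
    (h.map f ⊗ₘ h.map g) ≫ (h.μ X' Y' ≫ h.e (X' ⊗ Y')) =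
      (h.μ X Y ≫ h.e (X ⊗ Y)) ≫ h.map (f ⊗ₘ g) := by
  rw [← Category.assoc, h.nat, Category.assoc, h.map_e, Category.assoc, h.e_map]

private theorem AbsB_assoc (X Y Z : C) :
    ((h.μ X Y ≫ h.e (X ⊗ Y)) ⊗ₘ h.e Z) ≫ (h.μ (X ⊗ Y) Z ≫ h.e ((X ⊗ Y) ⊗ Z)) ≫
        h.map (α_ X Y Z).hom =
      (((h.e X ⊗ₘ h.e Y) ⊗ₘ h.e Z) ≫ (α_ (h.S X) (h.S Y) (h.S Z)).hom) ≫
        (h.e X ⊗ₘ (h.μ Y Z ≫ h.e (Y ⊗ Z))) ≫ (h.μ X (Y ⊗ Z) ≫ h.e (X ⊗ (Y ⊗ Z))) := by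
  have e1 : (h.μ X Y ≫ h.e (X ⊗ Y)) ⊗ₘ h.e Z =
      (h.μ X Y ▷ h.S Z) ≫ (h.e (X ⊗ Y) ⊗ₘ h.e Z) := by
    rw [← tensorHom_id, tensorHom_comp_tensorHom, Category.id_comp]
  have e2 : (h.e X ⊗ₘ (h.e Y ⊗ₘ h.e Z)) ≫ (h.e X ⊗ₘ (h.μ Y Z ≫ h.e (Y ⊗ Z))) =
      (h.S X ◁ h.μ Y Z) ≫ (h.e X ⊗ₘ h.e (Y ⊗ Z)) := by
    rw [← id_tensorHom, tensorHom_comp_tensorHom, tensorHom_comp_tensorHom, h.ee,
      Category.id_comp, ← Category.assoc, h.e_μ, Category.assoc, h.ee]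
  have e3 : (h.e X ⊗ₘ h.e (Y ⊗ Z)) ≫ h.μ X (Y ⊗ Z) ≫ h.e (X ⊗ (Y ⊗ Z)) =
      h.μ X (Y ⊗ Z) ≫ h.e (X ⊗ (Y ⊗ Z)) := by
    rw [← Category.assoc, h.e_μ, Category.assoc, h.ee]
  have e4 : (h.e (X ⊗ Y) ⊗ₘ h.e Z) ≫ h.μ (X ⊗ Y) Z ≫ h.e ((X ⊗ Y) ⊗ Z) ≫
      h.map (α_ X Y Z).hom = h.μ (X ⊗ Y) Z ≫ h.map (α_ X Y Z).hom := by
    rw [h.e_map, ← Category.assoc, h.e_μ, Category.assoc, h.e_map]
  rw [associator_naturality]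
  simp only [Category.assoc]
  rw [reassoc_of% e2, e3, ← h.assoc, e1, Category.assoc, e4]

private theorem AbsB_symm (X Y : C) :
    (h.μ X Y ≫ h.e (X ⊗ Y)) ≫ h.map (β_ X Y).hom =
      ((h.e X ⊗ₘ h.e Y) ≫ (β_ (h.S X) (h.S Y)).hom) ≫ (h.μ Y X ≫ h.e (Y ⊗ X)) := by
  have e3 : (h.e Y ⊗ₘ h.e X) ≫ h.μ Y X ≫ h.e (Y ⊗ X) = h.μ Y X ≫ h.e (Y ⊗ X) := by
    rw [← Category.assoc, h.e_μ, Category.assoc, h.ee]
  rw [Category.assoc, h.e_map, h.symm, BraidedCategory.braiding_naturality, Category.assoc, e3]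

private theorem AbsB_eet (X Y : C) :
    (h.e X ⊗ₘ h.e Y) ≫ (h.e X ⊗ₘ h.e Y) = h.e X ⊗ₘ h.e Y := by
  rw [tensorHom_comp_tensorHom, h.ee, h.ee]

private theorem AbsB_nu (X Y : C) :
    h.e (X ⊗ Y) ≫ (h.e (X ⊗ Y) ≫ h.ν X Y ≫ (h.e X ⊗ₘ h.e Y)) ≫ (h.e X ⊗ₘ h.e Y) =
      h.e (X ⊗ Y) ≫ h.ν X Y ≫ (h.e X ⊗ₘ h.e Y) := by
  simp only [Category.assoc]
  rw [AbsB_eet, ← Category.assoc, h.ee]

private theorem AbsB_split (X Y : C) :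
    (h.μ X Y ≫ h.e (X ⊗ Y)) ≫ (h.e (X ⊗ Y) ≫ h.ν X Y ≫ (h.e X ⊗ₘ h.e Y)) =
      h.e X ⊗ₘ h.e Y := by
  have e1 : h.μ X Y ≫ h.e (X ⊗ Y) ≫ h.e (X ⊗ Y) ≫ h.ν X Y ≫ (h.e X ⊗ₘ h.e Y) =
      ((h.e X ⊗ₘ h.e Y) ≫ h.μ X Y ≫ h.ν X Y) ≫ (h.e X ⊗ₘ h.e Y) := by
    rw [← Category.assoc (h.e (X ⊗ Y)), h.ee, ← Category.assoc (h.μ X Y), ← h.e_μ]
    simp only [Category.assoc]
  rw [Category.assoc, e1, h.split, AbsB_eet]

/-- The functor `X ↦ (S X, e X)`. -/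
def KData.F : C ⥤ Karoubi C where
  obj := fun X => ⟨h.S X, h.e X, h.ee X⟩
  map := fun {X Y} f => ⟨h.map f, by
    rw [h.map_e, h.e_map]⟩
  map_id := fun X => by
    exact Karoubi.hom_ext _ _ (h.map_id X)
  map_comp := fun f g => by
    exact Karoubi.hom_ext _ _ (h.map_comp f g)

/-- The split lax tensor structure of `h.F`: `μ' X Y = μ X Y ≫ e (X ⊗ Y)`, `ν' X Y = e (X ⊗ Y) ≫
ν X Y ≫ (e X ⊗ e Y)`. -/
def KData.lax : LaxT h.F where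
  μ := fun X Y => ⟨h.μ X Y ≫ h.e (X ⊗ Y), by
    exact AbsB_mu h X Y⟩
  nat := fun {X Y X' Y'} f g => by
    exact Karoubi.hom_ext _ _ (AbsB_nat h f g)
  assoc := fun X Y Z => by
    exact Karoubi.hom_ext _ _ (AbsB_assoc h X Y Z)
  symm := fun X Y => by
    exact Karoubi.hom_ext _ _ (AbsB_symm h X Y)
  ν := fun X Y => ⟨h.e (X ⊗ Y) ≫ h.ν X Y ≫ (h.e X ⊗ₘ h.e Y), by
    exact AbsB_nu h X Y⟩
  split := fun X Y => by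
    exact Karoubi.hom_ext _ _ (AbsB_split h X Y)

/-- Proof. `h.F` is additive, and `LaxT.opKF`. -/
theorem KData.opKF [MonoidalPreadditive C] {X : C} (hX : OpKF X) :
    OpKF (⟨h.S X, h.e X, h.ee X⟩ : Karoubi C) := by
  have hF : h.F.Additive := ⟨fun {X Y f g} => Karoubi.hom_ext _ _ (h.map_add f g)⟩
  exact h.lax.opKF hX

end

section

variable {k : Type u} [Field k]

/-- Proof. As `kf_of_sum` in `CV/FinalA.lean`, in `Karoubi (SP k)`, with the family of `n + 1`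
objects `(T, e)`, `U (X i)`, and `kimuraFinite_U_iff`, `spKF_karoubi` to pass between `OpKF T` and
`OpKF` of the object of `Karoubi (SP k)`. -/
theorem opKF_pieces (T : SP k) (e : T ⟶ T) (he : e ≫ e = e)
    (h0 : OpKF (⟨T, e, he⟩ : Karoubi (SP k))) {n : ℕ} (X : Fin n → SP k) (f : ∀ i, T ⟶ X i)
    (g : ∀ i, X i ⟶ T) (h : 𝟙 T = e + ∑ i, f i ≫ g i) (hX : ∀ i, OpKF (X i)) : OpKF T := by
  obtain ⟨M', ⟨hM⟩⟩ := U_dual T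
  let P : Karoubi (SP k) := ⟨T, e, he⟩
  let X' : Fin (n + 1) → Karoubi (SP k) := Fin.cons P fun i => (toKaroubi (SP k)).obj (X i)
  let f0 : (toKaroubi (SP k)).obj T ⟶ P := ⟨e, by
    change 𝟙 T ≫ e ≫ e = e
    rw [he, Category.id_comp]⟩
  let g0 : P ⟶ (toKaroubi (SP k)).obj T := ⟨e, by
    change e ≫ e ≫ 𝟙 T = e
    rw [Category.comp_id, he]⟩
  let f' : ∀ i, (toKaroubi (SP k)).obj T ⟶ X' i :=
    Fin.cases f0 fun i => (toKaroubi (SP k)).map (f i)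
  let g' : ∀ i, X' i ⟶ (toKaroubi (SP k)).obj T :=
    Fin.cases g0 fun i => (toKaroubi (SP k)).map (g i)
  have h1 : OpKF ((toKaroubi (SP k)).obj T) := by
    refine opKF_of_sum (M' := M') X' ?_ f' g' ?_
    · intro i
      refine Fin.cases ?_ (fun j => ?_) i
      · exact h0
      · exact (spKF_karoubi (X j)).2 (hX j)
    · rw [Fin.sum_univ_succ]
      have h2 : f' 0 ≫ g' 0 = (toKaroubi (SP k)).map e := Karoubi.hom_ext _ _ he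
      have h3 : ∀ i : Fin n, f' i.succ ≫ g' i.succ = (toKaroubi (SP k)).map (f i ≫ g i) :=
        fun i => ((toKaroubi (SP k)).map_comp (f i) (g i)).symm
      rw [h2, Finset.sum_congr rfl fun i _ => h3 i, ← Functor.map_sum, ← Functor.map_add, ← h,
        (toKaroubi (SP k)).map_id]
  exact (spKF_karoubi T).1 h1

end

end Pool.Agent.MP_6e5bed_ag_SY
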