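import Pool.Agent.Lib.MP_6e5bed_ag_SY.Gr
import Pool.Agent.Lib.MP_6e5bed_ag_NC.Res

set_option autoImplicit false
set_option linter.unusedSectionVars false

/-!
# MP_6e5bed_ag (project SYM): crossed products with a finite group

`cr α` is the crossed product `D ⋊ G`: the families `G → D`, `x ↔ ∑ g, x(g) u_g`, with
`u_g d = α_g(d) u_g`. `crM β` is the `cr α`-`cr α'`-bimodule `N ⋊ G` of an equivariant bimodule `N`.
-/

namespace Pool.Agent.MP_6e5bed_ag_SY

open Pool.Agent.MP_6e5bed_ag_NC

universe u

variable {k : Type u} [CommRing k] {G : Type} [Group G] [Fintype G]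

/-- An action of the group `G` on the dg algebra `D`. -/
structure Act (G : Type) [Group G] (D : DGA k) where
  a : G → DHom D D
  a_one : ∀ x, (a 1).f x = x
  a_mul : ∀ g h x, (a (g * h)).f x = (a g).f ((a h).f x)

/-- An action of `G` on the `D`-`D'`-bimodule `N`, compatible with actions on `D` and `D'`. -/
structure EqB {D D' : DGA k} (α : Act G D) (α' : Act G D') (N : Bim D D') where
  b : G → N.M →ₗ[k] N.M
  b_one : ∀ x, b 1 x = x
  b_mul : ∀ g h x, b (g * h) x = b g (b h x)
  b_deg : ∀ g {i : ℤ} {x : N.M}, N.dg.IsDeg i x → N.dg.IsDeg i (b g x)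
  b_d : ∀ g x, N.dg.d (b g x) = b g (N.dg.d x)
  b_l : ∀ g d x, b g (N.l d x) = N.l ((α.a g).f d) (b g x)
  b_r : ∀ g d x, b g (N.r d x) = N.r ((α'.a g).f d) (b g x)

variable {D D' D'' : DGA k} (α : Act G D) {α' : Act G D'} {α'' : Act G D''} {N : Bim D D'}

/-- The multiplication of the crossed product. -/
noncomputable def crMul : (G → D.A) →ₗ[k] (G → D.A) →ₗ[k] (G → D.A) where
  toFun := fun x => LinearMap.pi fun g => ∑ h, (D.mul (x h)).comp
    ((α.a h).f.comp (LinearMap.proj (h⁻¹ * g)))
  map_add' := fun x x' => by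
    ext y g
    simp [Finset.sum_add_distrib]
  map_smul' := fun c x => by
    ext y g
    simp [Finset.smul_sum]

theorem crMul_apply (x y : G → D.A) (g : G) :
    crMul α x y g = ∑ h, D.mul (x h) ((α.a h).f (y (h⁻¹ * g))) := by
  simp [crMul]

/-- The unit element of the crossed product. -/
noncomputable def crOne (G : Type) [Group G] (D : DGA k) : G → D.A := by
  classical
  exact Pi.single 1 D.one

private theorem Act_one_same : crOne G D 1 = D.one := by
  classical
  unfold crOne
  exact Pi.single_eq_same _ _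

private theorem Act_one_ne {h : G} (hh : h ≠ 1) : crOne G D h = 0 := by
  classical
  unfold crOne
  exact Pi.single_eq_of_ne hh _

private theorem Act_sum_deg {n : ℤ} (s : Finset G) (f : G → D.A)
    (h : ∀ g, D.dg.IsDeg n (f g)) : D.dg.IsDeg n (∑ g ∈ s, f g) := by
  classical
  induction s using Finset.induction_on with
  | empty =>
    rw [Finset.sum_empty]
    exact Dg.IsDeg.zero n
  | insert a s ha ih =>
    rw [Finset.sum_insert ha]
    exact (h a).add ih

private theorem Act_one_mul (a : G → D.A) : crMul α (crOne G D) a = a := by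
  funext g
  rw [crMul_apply, Finset.sum_eq_single (1 : G)]
  · rw [Act_one_same, D.one_mul, α.a_one, inv_one, one_mul]
  · intro h _ hh
    rw [Act_one_ne hh, map_zero, LinearMap.zero_apply]
  · intro h
    exact absurd (Finset.mem_univ _) h

private theorem Act_mul_one (a : G → D.A) : crMul α a (crOne G D) = a := by
  funext g
  rw [crMul_apply, Finset.sum_eq_single g]
  · rw [inv_mul_cancel, Act_one_same, (α.a g).one, D.mul_one]
  · intro h _ hh
    have h1 : h⁻¹ * g ≠ 1 := fun h2 => hh (inv_mul_eq_one.1 h2)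
    rw [Act_one_ne h1, map_zero, map_zero]
  · intro h
    exact absurd (Finset.mem_univ _) h

private theorem Act_mul_assoc (a b c : G → D.A) :
    crMul α (crMul α a b) c = crMul α a (crMul α b c) := by
  funext g
  rw [crMul_apply, crMul_apply]
  have h1 : ∀ h, D.mul (crMul α a b h) ((α.a h).f (c (h⁻¹ * g))) =
      ∑ l, D.mul (D.mul (a l) ((α.a l).f (b (l⁻¹ * h)))) ((α.a h).f (c (h⁻¹ * g))) := by
    intro h
    rw [crMul_apply, map_sum, LinearMap.sum_apply]
  rw [Finset.sum_congr rfl fun h _ => h1 h, Finset.sum_comm]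
  refine Finset.sum_congr rfl fun l _ => ?_
  rw [crMul_apply, map_sum, map_sum]
  refine (Fintype.sum_equiv (Equiv.mulLeft l) _ _ fun m => ?_).symm
  rw [Equiv.coe_mulLeft, D.mul_assoc, (α.a l).mul, inv_mul_cancel_left, α.a_mul, mul_inv_rev,
    mul_assoc]

private theorem Act_one_deg : (dgPi D.dg G).IsDeg 0 (crOne G D) := by
  classical
  rw [dgPi_deg]
  intro y
  by_cases hy : y = 1
  · subst hy
    rw [Act_one_same]
    exact D.one_deg
  · rw [Act_one_ne hy]
    exact Dg.IsDeg.zero 0

private theorem Act_mul_deg {i j : ℤ} {a b : G → D.A} (ha : (dgPi D.dg G).IsDeg i a)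
    (hb : (dgPi D.dg G).IsDeg j b) : (dgPi D.dg G).IsDeg (i + j) (crMul α a b) := by
  rw [dgPi_deg] at ha hb ⊢
  intro y
  rw [crMul_apply]
  exact Act_sum_deg _ _ fun h => D.mul_deg (ha h) ((α.a h).deg (hb _))

private theorem Act_leibniz (a b : G → D.A) : (dgPi D.dg G).d (crMul α a b) =
    crMul α ((dgPi D.dg G).d a) b + crMul α ((dgPi D.dg G).s a) ((dgPi D.dg G).d b) := by
  funext g
  rw [dgPi_d, Pi.add_apply, crMul_apply, crMul_apply, crMul_apply, map_sum,
    ← Finset.sum_add_distrib]
  refine Finset.sum_congr rfl fun h _ => ?_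
  rw [D.leibniz, dgPi_d, dgPi_s, dgPi_d, (α.a h).d]

/-- The crossed product `D ⋊ G`. -/
noncomputable def cr : DGA k where
  A := G → D.A
  dg := dgPi D.dg G
  mul := crMul α
  one := crOne G D
  one_mul := fun a => Act_one_mul α a
  mul_one := fun a => Act_mul_one α a
  mul_assoc := fun a b c => Act_mul_assoc α a b c
  one_deg := Act_one_deg
  mul_deg := fun ha hb => Act_mul_deg α ha hb
  leibniz := fun a b => Act_leibniz α a b

theorem cr_mul (x y : G → D.A) (g : G) :
    (cr α).mul x y g = ∑ h, D.mul (x h) ((α.a h).f (y (h⁻¹ * g))) := crMul_apply α x y g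

theorem cr_d (x : G → D.A) (g : G) : (cr α).dg.d x g = D.dg.d (x g) := rfl

end Pool.Agent.MP_6e5bed_ag_SY
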