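import Pool.Agent.Lib.MP_6e5bed_ag_SY.ActM

set_option autoImplicit false
set_option linter.unusedSectionVars false

/-!
# MP_6e5bed_ag (project SYM): the gradings of crossed products
-/

namespace Pool.Agent.MP_6e5bed_ag_SY

open Pool.Agent.MP_6e5bed_ag_NC

universe u

variable {k : Type u} [CommRing k] {G : Type} [Group G] [Fintype G]

variable {D D' D'' : DGA k} {α : Act G D} {α' : Act G D'} {α'' : Act G D''} {N : Bim D D'}

section aux

variable {V : Type u} [AddCommGroup V] [Module k V] [DecidableEq G]

private theorem ActG_single (g : G) (x : G → V) (t : G) :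
    ((LinearMap.single k (fun _ : G => V) g).comp (LinearMap.proj g)) x t
      = if t = g then x g else 0 := by
  simp [Pi.single_apply]

private theorem ActG_same (g : G) (x : G → V) :
    ((LinearMap.single k (fun _ : G => V) g).comp (LinearMap.proj g))
      (((LinearMap.single k (fun _ : G => V) g).comp (LinearMap.proj g)) x)
    = ((LinearMap.single k (fun _ : G => V) g).comp (LinearMap.proj g)) x := by
  funext t
  rw [ActG_single, ActG_single, ActG_single, if_pos rfl]

private theorem ActG_ne (g h : G) (x : G → V) (hg : g ≠ h) :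
    ((LinearMap.single k (fun _ : G => V) g).comp (LinearMap.proj g))
      (((LinearMap.single k (fun _ : G => V) h).comp (LinearMap.proj h)) x) = 0 := by
  funext t
  rw [ActG_single, ActG_single, if_neg hg, ite_self]
  rfl

private theorem ActG_sum (x : G → V) :
    ∑ g : G, ((LinearMap.single k (fun _ : G => V) g).comp (LinearMap.proj g)) x = x := by
  funext t
  rw [Finset.sum_apply, Finset.sum_eq_single t]
  · rw [ActG_single, if_pos rfl]
  · intro b _ hb
    rw [ActG_single, if_neg (Ne.symm hb)]
  · exact fun h => absurd (Finset.mem_univ _) h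

private theorem ActG_deg (X : Dg k V) (g : G) {i : ℤ} {x : G → V} (hx : (dgPi X G).IsDeg i x) :
    (dgPi X G).IsDeg i (((LinearMap.single k (fun _ : G => V) g).comp (LinearMap.proj g)) x) := by
  refine dgPi_deg.2 (fun t => ?_)
  rw [ActG_single]
  split_ifs with h
  · exact dgPi_deg.1 hx g
  · exact Dg.IsDeg.zero i

private theorem ActG_d (X : Dg k V) (g : G) (x : G → V) :
    (dgPi X G).d (((LinearMap.single k (fun _ : G => V) g).comp (LinearMap.proj g)) x)
      = ((LinearMap.single k (fun _ : G => V) g).comp (LinearMap.proj g)) ((dgPi X G).d x) := by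
  funext t
  rw [dgPi_d, ActG_single, ActG_single, dgPi_d]
  split_ifs with h
  · rfl
  · exact map_zero _

private theorem ActG_mul (α : Act G D) (x y : G → D.A) (g h : G)
    (hx : ∀ t, t ≠ g → x t = 0) (hy : ∀ t, t ≠ h → y t = 0) (t : G) :
    crMul α x y t = if t = g * h then D.mul (x g) ((α.a g).f (y h)) else 0 := by
  rw [crMul_apply, Finset.sum_eq_single g]
  · by_cases ht : t = g * h
    · subst ht
      rw [if_pos rfl, inv_mul_cancel_left]
    · rw [if_neg ht, hy _ (fun e => ht (by rw [← e, mul_inv_cancel_left])), map_zero, map_zero]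
  · intro b _ hb
    rw [hx b hb, map_zero, LinearMap.zero_apply]
  · exact fun h => absurd (Finset.mem_univ _) h

private theorem ActG_pmul (α : Act G D) (g h : G) (x y : G → D.A) :
    ((LinearMap.single k (fun _ : G => D.A) (g * h)).comp (LinearMap.proj (g * h)))
      (crMul α (((LinearMap.single k (fun _ : G => D.A) g).comp (LinearMap.proj g)) x)
        (((LinearMap.single k (fun _ : G => D.A) h).comp (LinearMap.proj h)) y))
    = crMul α (((LinearMap.single k (fun _ : G => D.A) g).comp (LinearMap.proj g)) x)
        (((LinearMap.single k (fun _ : G => D.A) h).comp (LinearMap.proj h)) y) := by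
  funext t
  rw [ActG_single]
  by_cases ht : t = g * h
  · rw [if_pos ht, ht]
  · rw [if_neg ht, ActG_mul α _ _ g h (fun t ht => by rw [ActG_single, if_neg ht])
      (fun t ht => by rw [ActG_single, if_neg ht]), if_neg ht]

private theorem ActG_umul (α : Act G D) (g h : G) :
    crMul α (Pi.single g D.one) (Pi.single h D.one) = Pi.single (g * h) D.one := by
  funext t
  rw [ActG_mul α _ _ g h (fun t ht => Pi.single_eq_of_ne ht _)
    (fun t ht => Pi.single_eq_of_ne ht _), Pi.single_eq_same, Pi.single_eq_same,
    (α.a g).one, D.mul_one, Pi.single_apply]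

private theorem ActG_udeg (X : Dg k V) (g : G) (v : V) (hv : X.IsDeg 0 v) :
    (dgPi X G).IsDeg 0 (Pi.single g v : G → V) := by
  refine dgPi_deg.2 (fun t => ?_)
  rw [Pi.single_apply]
  split_ifs with h
  · exact hv
  · exact Dg.IsDeg.zero 0

private theorem ActG_ud (X : Dg k V) (g : G) (v : V) (hv : X.d v = 0) :
    (dgPi X G).d (Pi.single g v : G → V) = 0 := by
  funext t
  rw [dgPi_d, Pi.single_apply]
  split_ifs with h
  · exact hv
  · exact map_zero _

private theorem ActG_pu (g : G) (v : V) :
    ((LinearMap.single k (fun _ : G => V) g).comp (LinearMap.proj g)) (Pi.single g v : G → V)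
      = (Pi.single g v : G → V) := by
  funext t
  rw [ActG_single, Pi.single_apply, Pi.single_apply, if_pos rfl]

private theorem ActG_l (β : EqB α α' N) (x : G → D.A) (n : G → N.M) (g : G)
    (hx : ∀ t, t ≠ g → x t = 0) (t : G) :
    crL β x n t = N.l (x g) (β.b g (n (g⁻¹ * t))) := by
  rw [crL_apply, Finset.sum_eq_single g]
  · intro b _ hb
    rw [hx b hb, map_zero, LinearMap.zero_apply]
  · exact fun h => absurd (Finset.mem_univ _) h

private theorem ActG_r (β : EqB α α' N) (y : G → D'.A) (n : G → N.M) (h : G)
    (hy : ∀ t, t ≠ h → y t = 0) (t : G) :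
    crR β y n t = N.r ((α'.a (t * h⁻¹)).f (y h)) (n (t * h⁻¹)) := by
  rw [crR_apply, Finset.sum_eq_single (t * h⁻¹)]
  · rw [mul_inv_rev, inv_inv, inv_mul_cancel_right]
  · intro b _ hb
    rw [hy _ (fun e => hb (by rw [← e, mul_inv_rev, inv_inv, mul_inv_cancel_left])), map_zero,
      map_zero, LinearMap.zero_apply]
  · exact fun h => absurd (Finset.mem_univ _) h

private theorem ActG_ql (β : EqB α α' N) (g h : G) (e : G → D.A) (m : G → N.M)
    (he : ∀ t, t ≠ g → e t = 0) :
    ((LinearMap.single k (fun _ : G => N.M) (g * h)).comp (LinearMap.proj (g * h))) (crL β e m)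
      = crL β e (((LinearMap.single k (fun _ : G => N.M) h).comp (LinearMap.proj h)) m) := by
  funext t
  rw [ActG_single, ActG_l β _ _ g he, ActG_l β _ _ g he, inv_mul_cancel_left, ActG_single]
  by_cases ht : t = g * h
  · rw [if_pos ht, if_pos (by rw [ht, inv_mul_cancel_left])]
  · rw [if_neg ht, if_neg (fun e => ht (by rw [← e, mul_inv_cancel_left])), map_zero, map_zero]

private theorem ActG_qr (β : EqB α α' N) (g h : G) (b : G → D'.A) (m : G → N.M)
    (hb : ∀ t, t ≠ h → b t = 0) :
    ((LinearMap.single k (fun _ : G => N.M) (g * h)).comp (LinearMap.proj (g * h))) (crR β b m)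
      = crR β b (((LinearMap.single k (fun _ : G => N.M) g).comp (LinearMap.proj g)) m) := by
  funext t
  rw [ActG_single, ActG_r β _ _ h hb, ActG_r β _ _ h hb, mul_inv_cancel_right, ActG_single]
  by_cases ht : t = g * h
  · rw [if_pos ht, if_pos (by rw [ht, mul_inv_cancel_right]), ht, mul_inv_cancel_right]
  · rw [if_neg ht, if_neg (fun e => ht (by rw [← e, inv_mul_cancel_right])), map_zero]

end aux

/-- The grading of the crossed product by `G`. -/
noncomputable def crGr (α : Act G D) : GrA G (cr α) := by
  classical
  exact {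
  p := fun g => (LinearMap.single k (fun _ : G => D.A) g).comp (LinearMap.proj g)
  p_same := fun g x => ActG_same g x
  p_ne := fun g h x hg => ActG_ne g h x hg
  sum_p := fun x => ActG_sum x
  p_deg := fun g {i x} hx => ActG_deg D.dg g hx
  p_d := fun g x => ActG_d D.dg g x
  p_mul := fun g h x y => ActG_pmul α g h x y
  u := fun g => Pi.single g D.one
  u_deg := fun g => ActG_udeg D.dg g D.one D.one_deg
  u_d := fun g => ActG_ud D.dg g D.one D.d_one
  u_one := by
    change (Pi.single 1 D.one : G → D.A) = crOne G D
    rfl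
  u_mul := fun g h => ActG_umul α g h
  p_u := fun g => ActG_pu g D.one }

open Classical in
theorem crGr_p (α : Act G D) (g : G) (x : G → D.A) (h : G) :
    ((crGr α).p g x : G → D.A) h = if h = g then x g else 0 :=
  ActG_single g x h

open Classical in
theorem crGr_u (α : Act G D) (g h : G) :
    ((crGr α).u g : G → D.A) h = if h = g then D.one else 0 := by
  have e : ((crGr α).u g : G → D.A) = Pi.single g D.one := rfl
  rw [e, Pi.single_apply]

/-- The grading of `N ⋊ G` by the group `G`. -/
noncomputable def crGrB (β : EqB α α' N) : GrB (crGr α) (crGr α') (crM β) := by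
  classical
  exact {
  q := fun g => (LinearMap.single k (fun _ : G => N.M) g).comp (LinearMap.proj g)
  q_same := fun g x => ActG_same g x
  q_ne := fun g h x hg => ActG_ne g h x hg
  sum_q := fun x => ActG_sum x
  q_deg := fun g {i x} hx => ActG_deg N.dg g hx
  q_d := fun g x => ActG_d N.dg g x
  q_l := fun g h e m => ActG_ql β g h _ m (fun t ht => (crGr_p α g e t).trans (if_neg ht))
  q_r := fun g h b m => ActG_qr β g h _ m (fun t ht => (crGr_p α' h b t).trans (if_neg ht)) }

end Pool.Agent.MP_6e5bed_ag_SY
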