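import Pool.Agent.Lib.MP_6e5bed_ag_SY.Act

set_option autoImplicit false
set_option linter.unusedSectionVars false

/-!
# MP_6e5bed_ag (project SYM): crossed bimodules
-/

namespace Pool.Agent.MP_6e5bed_ag_SY

open Pool.Agent.MP_6e5bed_ag_NC

universe u

variable {k : Type u} [CommRing k] {G : Type} [Group G] [Fintype G]

variable {D D' D'' : DGA k} {α : Act G D} {α' : Act G D'} {α'' : Act G D''} {N : Bim D D'}

/-- The left action on `N ⋊ G`. -/
noncomputable def crL (β : EqB α α' N) : (G → D.A) →ₗ[k] (G → N.M) →ₗ[k] (G → N.M) where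
  toFun := fun x => LinearMap.pi fun g => ∑ h, (N.l (x h)).comp
    ((β.b h).comp (LinearMap.proj (h⁻¹ * g)))
  map_add' := fun x x' => by
    ext y g
    simp [Finset.sum_add_distrib]
  map_smul' := fun c x => by
    ext y g
    simp [Finset.smul_sum]

/-- The right action on `N ⋊ G`. -/
noncomputable def crR (_ : EqB α α' N) : (G → D'.A) →ₗ[k] (G → N.M) →ₗ[k] (G → N.M) where
  toFun := fun y => LinearMap.pi fun g => ∑ h, (N.r ((α'.a h).f (y (h⁻¹ * g)))).comp
    (LinearMap.proj h)
  map_add' := fun x x' => by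
    ext y g
    simp [Finset.sum_add_distrib]
  map_smul' := fun c x => by
    ext y g
    simp [Finset.smul_sum]

theorem crL_apply (β : EqB α α' N) (x : G → D.A) (n : G → N.M) (g : G) :
    crL β x n g = ∑ h, N.l (x h) (β.b h (n (h⁻¹ * g))) := by
  simp [crL]

theorem crR_apply (β : EqB α α' N) (y : G → D'.A) (n : G → N.M) (g : G) :
    crR β y n g = ∑ h, N.r ((α'.a h).f (y (h⁻¹ * g))) (n h) := by
  simp [crR]

private theorem ActM_crOne_one (G : Type) [Group G] (D : DGA k) : crOne G D 1 = D.one := by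
  classical
  unfold crOne
  exact Pi.single_eq_same _ _

private theorem ActM_crOne_ne (G : Type) [Group G] (D : DGA k) {h : G} (hh : h ≠ 1) :
    crOne G D h = 0 := by
  classical
  unfold crOne
  exact Pi.single_eq_of_ne hh _

private theorem ActM_sum_deg {V : Type u} [AddCommGroup V] [Module k V] {X : Dg k V}
    {ι : Type*} (s : Finset ι) (f : ι → V) {n : ℤ} (h : ∀ i ∈ s, X.IsDeg n (f i)) :
    X.IsDeg n (∑ i ∈ s, f i) := by
  classical
  induction s using Finset.induction_on with
  | empty =>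
    rw [Finset.sum_empty]
    exact Dg.IsDeg.zero n
  | insert a s ha ih =>
    rw [Finset.sum_insert ha]
    exact (h a (Finset.mem_insert_self _ _)).add
      (ih fun i hi => h i (Finset.mem_insert_of_mem hi))

private theorem ActM_l_one (β : EqB α α' N) (m : G → N.M) : crL β (crOne G D) m = m := by
  funext g
  rw [crL_apply, Finset.sum_eq_single 1]
  · rw [ActM_crOne_one, N.l_one, β.b_one, inv_one, one_mul]
  · intro h _ hh
    rw [ActM_crOne_ne G D hh, map_zero, LinearMap.zero_apply]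
  · intro h
    exact absurd (Finset.mem_univ _) h

private theorem ActM_r_one (β : EqB α α' N) (m : G → N.M) : crR β (crOne G D') m = m := by
  funext g
  rw [crR_apply, Finset.sum_eq_single g]
  · rw [inv_mul_cancel, ActM_crOne_one, DHom.one, N.r_one]
  · intro h _ hh
    have h1 : h⁻¹ * g ≠ 1 := fun e => hh (inv_mul_eq_one.mp e)
    rw [ActM_crOne_ne G D' h1, map_zero, map_zero, LinearMap.zero_apply]
  · intro h
    exact absurd (Finset.mem_univ _) h

private theorem ActM_l_mul (β : EqB α α' N) (a a' : G → D.A) (m : G → N.M) :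
    crL β (crMul α a a') m = crL β a (crL β a' m) := by
  funext g
  have e1 : ∀ h, N.l (crMul α a a' h) (β.b h (m (h⁻¹ * g))) =
      ∑ j, N.l (a j) (N.l ((α.a j).f (a' (j⁻¹ * h))) (β.b h (m (h⁻¹ * g)))) := by
    intro h
    rw [crMul_apply, map_sum, LinearMap.sum_apply]
    exact Finset.sum_congr rfl fun j _ => N.l_mul _ _ _
  have e2 : ∀ j, N.l (a j) (β.b j (crL β a' m (j⁻¹ * g))) =
      ∑ i, N.l (a j) (N.l ((α.a j).f (a' i)) (β.b (j * i) (m ((j * i)⁻¹ * g)))) := by
    intro j
    rw [crL_apply, map_sum, map_sum]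
    refine Finset.sum_congr rfl fun i _ => ?_
    rw [β.b_l, β.b_mul, mul_inv_rev, mul_assoc]
  rw [crL_apply, crL_apply, Finset.sum_congr rfl fun h _ => e1 h,
    Finset.sum_congr rfl fun j _ => e2 j, Finset.sum_comm]
  refine Finset.sum_congr rfl fun j _ => ?_
  refine (Equiv.sum_comp (Equiv.mulLeft j) _).symm.trans ?_
  refine Finset.sum_congr rfl fun i _ => ?_
  rw [Equiv.coe_mulLeft, inv_mul_cancel_left]

private theorem ActM_r_mul (β : EqB α α' N) (b b' : G → D'.A) (m : G → N.M) :
    crR β (crMul α' b b') m = crR β b' (crR β b m) := by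
  funext g
  have e1 : ∀ h, N.r ((α'.a h).f (crMul α' b b' (h⁻¹ * g))) (m h) =
      ∑ j, N.r ((α'.a (h * j)).f (b' ((h * j)⁻¹ * g))) (N.r ((α'.a h).f (b j)) (m h)) := by
    intro h
    rw [crMul_apply, map_sum, map_sum, LinearMap.sum_apply]
    refine Finset.sum_congr rfl fun j _ => ?_
    rw [DHom.mul, N.r_mul, α'.a_mul, mul_inv_rev, mul_assoc]
  have e2 : ∀ i, N.r ((α'.a i).f (b' (i⁻¹ * g))) (crR β b m i) =
      ∑ h, N.r ((α'.a i).f (b' (i⁻¹ * g))) (N.r ((α'.a h).f (b (h⁻¹ * i))) (m h)) := by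
    intro i
    rw [crR_apply, map_sum]
  rw [crR_apply, crR_apply, Finset.sum_congr rfl fun h _ => e1 h,
    Finset.sum_congr rfl fun j _ => e2 j, Finset.sum_comm (s := Finset.univ (α := G))
      (f := fun i h => N.r ((α'.a i).f (b' (i⁻¹ * g))) (N.r ((α'.a h).f (b (h⁻¹ * i))) (m h)))]
  refine Finset.sum_congr rfl fun h _ => ?_
  refine Eq.trans ?_ (Equiv.sum_comp (Equiv.mulLeft h) _)
  refine Finset.sum_congr rfl fun i _ => ?_
  rw [Equiv.coe_mulLeft, inv_mul_cancel_left]

private theorem ActM_l_r (β : EqB α α' N) (a : G → D.A) (b : G → D'.A) (m : G → N.M) :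
    crL β a (crR β b m) = crR β b (crL β a m) := by
  funext g
  have e1 : ∀ h, N.l (a h) (β.b h (crR β b m (h⁻¹ * g))) =
      ∑ i, N.r ((α'.a (h * i)).f (b ((h * i)⁻¹ * g))) (N.l (a h) (β.b h (m i))) := by
    intro h
    rw [crR_apply, map_sum, map_sum]
    refine Finset.sum_congr rfl fun i _ => ?_
    rw [β.b_r, N.l_r, α'.a_mul, mul_inv_rev, mul_assoc]
  have e2 : ∀ j, N.r ((α'.a j).f (b (j⁻¹ * g))) (crL β a m j) =
      ∑ h, N.r ((α'.a j).f (b (j⁻¹ * g))) (N.l (a h) (β.b h (m (h⁻¹ * j)))) := by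
    intro j
    rw [crL_apply, map_sum]
  rw [crL_apply, crR_apply, Finset.sum_congr rfl fun h _ => e1 h,
    Finset.sum_congr rfl fun j _ => e2 j, Finset.sum_comm (s := Finset.univ (α := G))
      (f := fun j h => N.r ((α'.a j).f (b (j⁻¹ * g))) (N.l (a h) (β.b h (m (h⁻¹ * j)))))]
  refine Finset.sum_congr rfl fun h _ => ?_
  refine Eq.trans ?_ (Equiv.sum_comp (Equiv.mulLeft h) _)
  refine Finset.sum_congr rfl fun i _ => ?_
  rw [Equiv.coe_mulLeft, inv_mul_cancel_left]

private theorem ActM_l_deg (β : EqB α α' N) {i j : ℤ} {a : G → D.A} {m : G → N.M}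
    (ha : (dgPi D.dg G).IsDeg i a) (hm : (dgPi N.dg G).IsDeg j m) :
    (dgPi N.dg G).IsDeg (i + j) (crL β a m) := by
  rw [dgPi_deg] at ha hm ⊢
  intro g
  rw [crL_apply]
  exact ActM_sum_deg _ _ fun h _ => N.l_deg (ha h) (β.b_deg h (hm _))

private theorem ActM_r_deg (β : EqB α α' N) {i j : ℤ} {b : G → D'.A} {m : G → N.M}
    (hm : (dgPi N.dg G).IsDeg i m) (hb : (dgPi D'.dg G).IsDeg j b) :
    (dgPi N.dg G).IsDeg (i + j) (crR β b m) := by
  rw [dgPi_deg] at hb hm ⊢
  intro g
  rw [crR_apply]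
  exact ActM_sum_deg _ _ fun h _ => N.r_deg (hm h) ((α'.a h).deg (hb _))

private theorem ActM_d_l (β : EqB α α' N) (a : G → D.A) (m : G → N.M) :
    (dgPi N.dg G).d (crL β a m) = crL β ((dgPi D.dg G).d a) m +
      crL β ((dgPi D.dg G).s a) ((dgPi N.dg G).d m) := by
  funext g
  rw [Pi.add_apply, dgPi_d, crL_apply, crL_apply, crL_apply, map_sum, ← Finset.sum_add_distrib]
  refine Finset.sum_congr rfl fun h _ => ?_
  rw [N.d_l, dgPi_s, dgPi_d, dgPi_d, β.b_d]

private theorem ActM_d_r (β : EqB α α' N) (b : G → D'.A) (m : G → N.M) :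
    (dgPi N.dg G).d (crR β b m) = crR β b ((dgPi N.dg G).d m) +
      crR β ((dgPi D'.dg G).d b) ((dgPi N.dg G).s m) := by
  funext g
  rw [Pi.add_apply, dgPi_d, crR_apply, crR_apply, crR_apply, map_sum, ← Finset.sum_add_distrib]
  refine Finset.sum_congr rfl fun h _ => ?_
  rw [N.d_r, dgPi_s, dgPi_d, dgPi_d, (α'.a h).d]

/-- The bimodule `N ⋊ G`: the families `G → N`, `n ↔ ∑ g, n(g) u_g`, with `u_g n = β_g(n) u_g`. -/
noncomputable def crM (β : EqB α α' N) : Bim (cr α) (cr α') where
  M := G → N.M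
  dg := dgPi N.dg G
  l := crL β
  r := crR β
  l_one := fun m => ActM_l_one β m
  r_one := fun m => ActM_r_one β m
  l_mul := fun a a' m => ActM_l_mul β a a' m
  r_mul := fun b b' m => ActM_r_mul β b b' m
  l_r := fun a b m => ActM_l_r β a b m
  l_deg := fun ha hm => ActM_l_deg β ha hm
  r_deg := fun hm hb => ActM_r_deg β hm hb
  d_l := fun a m => ActM_d_l β a m
  d_r := fun b m => ActM_d_r β b m

theorem crM_l (β : EqB α α' N) (x : G → D.A) (n : G → N.M) (g : G) :
    (crM β).l x n g = ∑ h, N.l (x h) (β.b h (n (h⁻¹ * g))) := crL_apply β x n g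

theorem crM_r (β : EqB α α' N) (y : G → D'.A) (n : G → N.M) (g : G) :
    (crM β).r y n g = ∑ h, N.r ((α'.a h).f (y (h⁻¹ * g))) (n h) := crR_apply β y n g

theorem crM_d (β : EqB α α' N) (n : G → N.M) (g : G) : (crM β).dg.d n g = N.dg.d (n g) := rfl

/-- An equivariant graded map gives a graded map of the crossed bimodules. -/
noncomputable def crMap {N' : Bim D D'} (β : EqB α α' N) (β' : EqB α α' N') {m : ℤ}
    (φ : GMap m N N') (h : ∀ g x, φ.f (β.b g x) = β'.b g (φ.f x)) :
    GMap m (crM β) (crM β') where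
  f := LinearMap.pi fun g => φ.f.comp (LinearMap.proj g)
  deg := fun {i x} hx => by
    have h1 : (dgPi N.dg G).IsDeg i x := hx
    have h2 : (dgPi N'.dg G).IsDeg (i + m)
        ((LinearMap.pi fun g => φ.f.comp (LinearMap.proj g)) x : G → N'.M) := by
      rw [dgPi_deg] at h1 ⊢
      exact fun g => φ.deg (h1 g)
    exact h2
  map_l := fun a x => by
    have h1 : ((LinearMap.pi fun g => φ.f.comp (LinearMap.proj g)) (crL β a x) : G → N'.M) =
        crL β' ((dgPi D.dg G).sp m a)
          ((LinearMap.pi fun g => φ.f.comp (LinearMap.proj g)) x : G → N'.M) := by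
      funext g
      rw [crL_apply]
      change φ.f (crL β a x g) = _
      rw [crL_apply, map_sum]
      refine Finset.sum_congr rfl fun j _ => ?_
      rw [φ.map_l, h, dgPi_sp]
      rfl
    exact h1
  map_r := fun b x => by
    have h1 : ((LinearMap.pi fun g => φ.f.comp (LinearMap.proj g)) (crR β b x) : G → N'.M) =
        crR β' b ((LinearMap.pi fun g => φ.f.comp (LinearMap.proj g)) x : G → N'.M) := by
      funext g
      rw [crR_apply]
      change φ.f (crR β b x g) = _
      rw [crR_apply, map_sum]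
      refine Finset.sum_congr rfl fun j _ => ?_
      rw [φ.map_r]
      rfl
    exact h1

theorem crMap_f {N' : Bim D D'} (β : EqB α α' N) (β' : EqB α α' N') {m : ℤ}
    (φ : GMap m N N') (h : ∀ g x, φ.f (β.b g x) = β'.b g (φ.f x)) (n : G → N.M) (g : G) :
    (crMap β β' φ h).f n g = φ.f (n g) := rfl

/-- The diagonal bimodule is equivariant. -/
def EqB.diag (α : Act G D) : EqB α α (diag D) where
  b := fun g => (α.a g).f
  b_one := α.a_one
  b_mul := α.a_mul
  b_deg := fun g {_ _} hx => (α.a g).deg hx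
  b_d := fun g x => (α.a g).d x
  b_l := fun g d x => (α.a g).mul d x
  b_r := fun g d x => (α.a g).mul x d

/-- Proof. The two bimodules have the same actions; use the identity map and `BIso.of_bij`. -/
theorem crM_diag (α : Act G D) : BIso (crM (EqB.diag α)) (diag (cr α)) := by
  have hl : ∀ a x : G → D.A, crL (EqB.diag α) a x = crMul α a x := by
    intro a x
    funext g
    rw [crL_apply, crMul_apply]
    rfl
  have hr : ∀ b x : G → D.A, crR (EqB.diag α) b x = crMul α x b := by
    intro b x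
    funext g
    rw [crR_apply, crMul_apply]
    rfl
  obtain ⟨φ, hφ⟩ : ∃ φ : GMap 0 (crM (EqB.diag α)) (diag (cr α)),
      ∀ x : G → D.A, φ.f x = x := by
    refine ⟨⟨(LinearMap.id : (G → D.A) →ₗ[k] (G → D.A)), fun {i m} hm => ?_, fun a m => ?_,
      fun b m => ?_⟩, fun x => rfl⟩
    · rw [add_zero]
      exact hm
    · rw [Dg.sp_zero]
      exact hl a m
    · exact hr b m
  refine BIso.of_bij φ ?_ ?_
  · refine LinearMap.ext fun x => ?_
    rw [GMap.dd_apply, sg_zero, one_smul, LinearMap.zero_apply, sub_eq_zero]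
    exact ((congrArg (diag (cr α)).dg.d (hφ x)).trans (hφ _).symm)
  · have h1 : (φ.f : (G → D.A) → (G → D.A)) = id := funext hφ
    exact (congrArg Function.Bijective h1).mpr Function.bijective_id

end Pool.Agent.MP_6e5bed_ag_SY
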