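import Pool.Agent.Lib.MP_6e5bed_ag_SY.ActG
import Pool.Agent.Lib.MP_6e5bed_ag_NC.Box

set_option autoImplicit false
set_option linter.unusedSectionVars false

/-!
# MP_6e5bed_ag (project SYM): actions on tensor products and the diagonal of crossed products
-/

namespace Pool.Agent.MP_6e5bed_ag_SY

open Pool.Agent.MP_6e5bed_ag_NC
open scoped TensorProduct

universe u

section aux

variable {k : Type u} [CommRing k] {V V' V'' W W' W'' : Type u}
  [AddCommGroup V] [Module k V] [AddCommGroup V'] [Module k V']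
  [AddCommGroup V''] [Module k V''] [AddCommGroup W] [Module k W] [AddCommGroup W']
  [Module k W'] [AddCommGroup W''] [Module k W'']

private theorem ActT_o {X : Dg k V} {f : V →ₗ[k] V}
    (hf : ∀ {i : ℤ} {v : V}, X.IsDeg i v → X.IsDeg i (f v)) (v : V) : X.o (f v) = f (X.o v) :=
  Dg.o_degMap_even (n := 0) Even.zero f (fun h => by rw [add_zero]; exact hf h) v

private theorem ActT_s {X : Dg k V} {f : V →ₗ[k] V}
    (hf : ∀ {i : ℤ} {v : V}, X.IsDeg i v → X.IsDeg i (f v)) (v : V) : X.s (f v) = f (X.s v) :=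
  Dg.s_degMap_even (n := 0) Even.zero f (fun h => by rw [add_zero]; exact hf h) v

private theorem ActT_map_one {f : V →ₗ[k] V} {f' : V' →ₗ[k] V'} (hf : ∀ v, f v = v)
    (hf' : ∀ v, f' v = v) (x : V ⊗[k] V') : TensorProduct.map f f' x = x := by
  have h1 : f = LinearMap.id := LinearMap.ext hf
  have h2 : f' = LinearMap.id := LinearMap.ext hf'
  rw [h1, h2, TensorProduct.map_id, LinearMap.id_apply]

private theorem ActT_map_mul {f g h : V →ₗ[k] V} {f' g' h' : V' →ₗ[k] V'}
    (hf : ∀ v, f v = g (h v)) (hf' : ∀ v, f' v = g' (h' v)) (x : V ⊗[k] V') :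
    TensorProduct.map f f' x = TensorProduct.map g g' (TensorProduct.map h h' x) := by
  have h1 : f = g.comp h := LinearMap.ext hf
  have h2 : f' = g'.comp h' := LinearMap.ext hf'
  rw [h1, h2, TensorProduct.map_comp, LinearMap.comp_apply]

private theorem ActT_map_deg' {X : Dg k V} {Y : Dg k W} {X' : Dg k V'} {Y' : Dg k W'}
    {f : V →ₗ[k] V'} {g : W →ₗ[k] W'}
    (hf : ∀ {i : ℤ} {v : V}, X.IsDeg i v → X'.IsDeg i (f v))
    (hg : ∀ {i : ℤ} {w : W}, Y.IsDeg i w → Y'.IsDeg i (g w)) {j : ℤ} {x : V ⊗[k] W}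
    (hx : (X.tensor Y).IsDeg j x) :
    (X'.tensor Y').IsDeg j (TensorProduct.map f g x) := by
  have h := Dg.tensor_degMap (X := X) (Y := Y) (Z := X'.tensor Y') (n := 0)
      (TensorProduct.map f g) (fun i j v w hv hw => by
        rw [add_zero, TensorProduct.map_tmul]
        exact Dg.tensor_deg (hf hv) (hg hw)) hx
  rwa [add_zero] at h

private theorem ActT_map_deg {X : Dg k V} {Y : Dg k W} {f : V →ₗ[k] V} {g : W →ₗ[k] W}
    (hf : ∀ {i : ℤ} {v : V}, X.IsDeg i v → X.IsDeg i (f v))
    (hg : ∀ {i : ℤ} {w : W}, Y.IsDeg i w → Y.IsDeg i (g w)) {j : ℤ} {x : V ⊗[k] W}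
    (hx : (X.tensor Y).IsDeg j x) :
    (X.tensor Y).IsDeg j (TensorProduct.map f g x) := ActT_map_deg' hf hg hx

private theorem ActT_map_d' {X : Dg k V} {Y : Dg k W} {X' : Dg k V'} {Y' : Dg k W'}
    {f : V →ₗ[k] V'} {g : W →ₗ[k] W'} (hs : ∀ v, X'.s (f v) = f (X.s v))
    (hf : ∀ v, X'.d (f v) = f (X.d v)) (hg : ∀ w, Y'.d (g w) = g (Y.d w)) (x : V ⊗[k] W) :
    (X'.tensor Y').d (TensorProduct.map f g x) =
      TensorProduct.map f g ((X.tensor Y).d x) := by
  induction x using TensorProduct.induction_on with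
  | zero => simp
  | add x y hx hy => simp only [map_add, hx, hy]
  | tmul a b =>
    simp only [TensorProduct.map_tmul, Dg.tensor_d, map_add, hs, hf, hg]

private theorem ActT_map_d {X : Dg k V} {Y : Dg k W} {f : V →ₗ[k] V} {g : W →ₗ[k] W}
    (hs : ∀ v, X.s (f v) = f (X.s v)) (hf : ∀ v, X.d (f v) = f (X.d v))
    (hg : ∀ w, Y.d (g w) = g (Y.d w)) (x : V ⊗[k] W) :
    (X.tensor Y).d (TensorProduct.map f g x) =
      TensorProduct.map f g ((X.tensor Y).d x) := ActT_map_d' hs hf hg x

private theorem ActT_kz {X : Dg k V'} {Y : Dg k W} {α : V →ₗ[k] V' →ₗ[k] V''}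
    {β : W →ₗ[k] W' →ₗ[k] W''} {f : V →ₗ[k] V} {f' : V' →ₗ[k] V'} {f'' : V'' →ₗ[k] V''}
    {g : W →ₗ[k] W} {g' : W' →ₗ[k] W'} {g'' : W'' →ₗ[k] W''}
    (hg : ∀ w, Y.o (g w) = g (Y.o w)) (hf : ∀ v, X.o (f' v) = f' (X.o v))
    (hα : ∀ v v', f'' (α v v') = α (f v) (f' v')) (hβ : ∀ w w', g'' (β w w') = β (g w) (g' w'))
    (x : V ⊗[k] W) (y : V' ⊗[k] W') :
    TensorProduct.map f'' g'' (kz X Y α β x y) =
      kz X Y α β (TensorProduct.map f g x) (TensorProduct.map f' g' y) := by
  induction x using TensorProduct.induction_on with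
  | zero => simp
  | add x x' hx hx' => simp only [map_add, LinearMap.add_apply, hx, hx']
  | tmul v w =>
    induction y using TensorProduct.induction_on with
    | zero => simp
    | add y y' hy hy' => simp only [map_add, hy, hy']
    | tmul v' w' =>
      rw [kz_tmul, TensorProduct.map_tmul, TensorProduct.map_tmul, kz_tmul, map_sub, map_smul,
        TensorProduct.map_tmul, TensorProduct.map_tmul, hα, hβ, hα, hβ, hg, hf]

private theorem ActT_sum_deg {ι : Type} {X : Dg k V} {n : ℤ} (s : Finset ι) (f : ι → V)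
    (h : ∀ g, X.IsDeg n (f g)) : X.IsDeg n (∑ g ∈ s, f g) := by
  classical
  induction s using Finset.induction_on with
  | empty =>
    rw [Finset.sum_empty]
    exact Dg.IsDeg.zero n
  | insert a s ha ih =>
    rw [Finset.sum_insert ha]
    exact (h a).add ih

variable {G : Type} [Fintype G] [DecidableEq G]

private theorem ActT_single_deg {X : Dg k V} (g : G) {i : ℤ} {v : V} (hv : X.IsDeg i v) :
    (dgPi X G).IsDeg i (LinearMap.single k (fun _ : G => V) g v) := by
  rw [dgPi_deg]
  intro y
  rw [LinearMap.single_apply, Pi.single_apply]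
  split_ifs with h
  · exact hv
  · exact Dg.IsDeg.zero i

private theorem ActT_single_d {X : Dg k V} (g : G) (v : V) :
    (dgPi X G).d (LinearMap.single k (fun _ : G => V) g v) =
      LinearMap.single k (fun _ : G => V) g (X.d v) := by
  funext y
  rw [dgPi_d, LinearMap.single_apply, LinearMap.single_apply, Pi.single_apply, Pi.single_apply]
  split_ifs with h
  · rfl
  · exact map_zero _

private theorem ActT_single_o {X : Dg k V} (g : G) (v : V) :
    (dgPi X G).o (LinearMap.single k (fun _ : G => V) g v) =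
      LinearMap.single k (fun _ : G => V) g (X.o v) := by
  funext y
  rw [dgPi_o, LinearMap.single_apply, LinearMap.single_apply, Pi.single_apply, Pi.single_apply]
  split_ifs with h
  · rfl
  · exact map_zero _

private theorem ActT_single_s {X : Dg k V} (g : G) (v : V) :
    (dgPi X G).s (LinearMap.single k (fun _ : G => V) g v) =
      LinearMap.single k (fun _ : G => V) g (X.s v) := by
  funext y
  rw [dgPi_s, LinearMap.single_apply, LinearMap.single_apply, Pi.single_apply, Pi.single_apply]
  split_ifs with h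
  · rfl
  · exact map_zero _

end aux

variable {k : Type u} [CommRing k] {G : Type} [Group G] [Fintype G] {D D' C C' : DGA k}

/-- The diagonal action on the tensor product. -/
noncomputable def Act.tensor (α : Act G D) (β : Act G C) : Act G (D.tensor C) where
  a := fun g => (α.a g).tensor (β.a g)
  a_one := fun x => by
    exact ActT_map_one (α.a_one) (β.a_one) x
  a_mul := fun g h x => by
    exact ActT_map_mul (α.a_mul g h) (β.a_mul g h) x

theorem Act.tensor_f (α : Act G D) (β : Act G C) (g : G) (x : (D.tensor C).A) :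
    ((α.tensor β).a g).f x = TensorProduct.map (α.a g).f (β.a g).f x := rfl

/-- The diagonal action on the box product of two equivariant bimodules. -/
noncomputable def EqB.box {α : Act G D} {α' : Act G D'} {β : Act G C} {β' : Act G C'}
    {N : Bim D D'} {P : Bim C C'} (ν : EqB α α' N) (ρ : EqB β β' P) :
    EqB (α.tensor β) (α'.tensor β') (Pool.Agent.MP_6e5bed_ag_NC.box N P) where
  b := fun g => TensorProduct.map (ν.b g) (ρ.b g)
  b_one := fun x => by
    exact ActT_map_one (ν.b_one) (ρ.b_one) x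
  b_mul := fun g h x => by
    exact ActT_map_mul (ν.b_mul g h) (ρ.b_mul g h) x
  b_deg := fun g {i x} hx => by
    exact ActT_map_deg (X := N.dg) (Y := P.dg) (fun h => ν.b_deg g h) (fun h => ρ.b_deg g h) hx
  b_d := fun g x => by
    exact ActT_map_d (X := N.dg) (Y := P.dg) (fun y => ActT_s (fun h => ν.b_deg g h) y)
      (ν.b_d g) (ρ.b_d g) x
  b_l := fun g d x => by
    exact ActT_kz (X := N.dg) (Y := C.dg) (α := N.l) (β := P.l)
      (fun w => (β.a g).o w) (fun v => ActT_o (fun h => ν.b_deg g h) v)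
      (fun v v' => ν.b_l g v v') (fun w w' => ρ.b_l g w w') d x
  b_r := fun g d x => by
    exact ActT_kz (X := D'.dg) (Y := P.dg) (α := N.rr) (β := P.rr)
      (fun w => ActT_o (fun h => ρ.b_deg g h) w) (fun v => (α'.a g).o v)
      (fun v v' => ν.b_r g v' v) (fun w w' => ρ.b_r g w' w) x d

/-- The map `x ↦ ∑ g, x' g u_g ⊗ x'' g u_g` for a family `g ↦ x g = x' g ⊗ x'' g`. -/
noncomputable def dlM (G : Type) [Fintype G] (V V' : Type u) [AddCommGroup V] [Module k V]
    [AddCommGroup V'] [Module k V'] : (G → V ⊗[k] V') →ₗ[k] (G → V) ⊗[k] (G → V') := by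
  classical
  exact ∑ g : G, (TensorProduct.map (LinearMap.single k (fun _ : G => V) g)
    (LinearMap.single k (fun _ : G => V') g)).comp (LinearMap.proj g)

theorem dlM_apply [inst : DecidableEq G] (V V' : Type u) [AddCommGroup V] [Module k V]
    [AddCommGroup V'] [Module k V'] (x : G → V ⊗[k] V') :
    dlM G V V' x = ∑ g : G, TensorProduct.map (LinearMap.single k (fun _ : G => V) g)
      (LinearMap.single k (fun _ : G => V') g) (x g) := by
  have e : inst = fun a b => Classical.propDecidable (a = b) := Subsingleton.elim _ _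
  subst e
  unfold dlM
  rw [LinearMap.sum_apply]
  refine Finset.sum_congr rfl fun g _ => ?_
  rw [LinearMap.comp_apply, LinearMap.proj_apply]

theorem dlM_single [DecidableEq G] (V V' : Type u) [AddCommGroup V] [Module k V]
    [AddCommGroup V'] [Module k V'] (g : G) (v : V) (v' : V') :
    dlM G V V' (Pi.single g (v ⊗ₜ[k] v')) = Pi.single g v ⊗ₜ[k] Pi.single g v' := by
  rw [dlM_apply, Finset.sum_eq_single g]
  · rw [Pi.single_eq_same, TensorProduct.map_tmul]
    rfl
  · intro h _ hh
    rw [Pi.single_eq_of_ne hh, map_zero]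
  · intro h
    exact absurd (Finset.mem_univ _) h

private theorem ActT_left_inv [DecidableEq G] (V V' : Type u) [AddCommGroup V] [Module k V]
    [AddCommGroup V'] [Module k V'] (x : G → V ⊗[k] V') (g : G) :
    TensorProduct.map (LinearMap.proj (R := k) (φ := fun _ : G => V) g)
      (LinearMap.proj (R := k) (φ := fun _ : G => V') g) (dlM G V V' x) = x g := by
  rw [dlM_apply, map_sum, Finset.sum_eq_single g]
  · rw [← LinearMap.comp_apply, ← TensorProduct.map_comp]
    have h1 : ∀ (U : Type u) [AddCommGroup U] [Module k U],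
        (LinearMap.proj (R := k) (φ := fun _ : G => U) g).comp
          (LinearMap.single k (fun _ : G => U) g) = LinearMap.id := fun U _ _ =>
      LinearMap.ext fun v => by
        rw [LinearMap.comp_apply, LinearMap.proj_apply, LinearMap.single_apply,
          Pi.single_eq_same, LinearMap.id_apply]
    rw [h1, h1, TensorProduct.map_id, LinearMap.id_apply]
  · intro h _ hh
    rw [← LinearMap.comp_apply, ← TensorProduct.map_comp]
    have h1 : (LinearMap.proj (R := k) (φ := fun _ : G => V) g).comp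
        (LinearMap.single k (fun _ : G => V) h) = 0 :=
      LinearMap.ext fun v => by
        rw [LinearMap.comp_apply, LinearMap.proj_apply, LinearMap.single_apply,
          Pi.single_eq_of_ne hh.symm, LinearMap.zero_apply]
    rw [h1, TensorProduct.map_zero_left, LinearMap.zero_apply]
  · intro h
    exact absurd (Finset.mem_univ _) h

theorem dlM_injective (V V' : Type u) [AddCommGroup V] [Module k V]
    [AddCommGroup V'] [Module k V'] : Function.Injective (dlM (k := k) G V V') := by
  classical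
  intro x y hxy
  funext g
  rw [← ActT_left_inv V V' x g, ← ActT_left_inv V V' y g, hxy]

private theorem ActT_mul_single [DecidableEq G] (α : Act G D) (g h : G) (x y : D.A) :
    crMul α (Pi.single g x) (Pi.single h y) = Pi.single (g * h) (D.mul x ((α.a g).f y)) := by
  funext t
  rw [crMul_apply, Finset.sum_eq_single g]
  · rw [Pi.single_eq_same]
    by_cases ht : t = g * h
    · subst ht
      rw [inv_mul_cancel_left, Pi.single_eq_same, Pi.single_eq_same]
    · rw [Pi.single_eq_of_ne ht, Pi.single_eq_of_ne (fun e => ht (by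
        rw [← e, mul_inv_cancel_left])), map_zero, map_zero]
  · intro l _ hl
    rw [Pi.single_eq_of_ne hl, map_zero, LinearMap.zero_apply]
  · intro h
    exact absurd (Finset.mem_univ _) h

private theorem ActT_ext_single [DecidableEq G] {U V W : Type u} [AddCommGroup U] [Module k U]
    [AddCommGroup V] [Module k V] [AddCommGroup W] [Module k W]
    (L R : (G → V) →ₗ[k] (G → W) →ₗ[k] U)
    (h : ∀ g h v w, L (Pi.single g v) (Pi.single h w) = R (Pi.single g v) (Pi.single h w))
    (x : G → V) (y : G → W) : L x y = R x y := by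
  have hx : x = ∑ g, Pi.single g (x g) := (Finset.univ_sum_single x).symm
  have hy : y = ∑ g, Pi.single g (y g) := (Finset.univ_sum_single y).symm
  have e : ∀ T : (G → V) →ₗ[k] (G → W) →ₗ[k] U,
      T x y = ∑ g, ∑ h, T (Pi.single g (x g)) (Pi.single h (y h)) := by
    intro T
    conv_lhs => rw [hx, hy]
    rw [map_sum T, LinearMap.sum_apply]
    refine Finset.sum_congr rfl fun g _ => ?_
    rw [map_sum]
  rw [e L, e R]
  exact Finset.sum_congr rfl fun g _ => Finset.sum_congr rfl fun l _ => h g l _ _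

private theorem ActT_ext2 {U V W V' W' : Type u} [AddCommGroup U] [Module k U]
    [AddCommGroup V] [Module k V] [AddCommGroup W] [Module k W] [AddCommGroup V'] [Module k V']
    [AddCommGroup W'] [Module k W'] (L R : V ⊗[k] W →ₗ[k] V' ⊗[k] W' →ₗ[k] U)
    (h : ∀ v w v' w', L (v ⊗ₜ w) (v' ⊗ₜ w') = R (v ⊗ₜ w) (v' ⊗ₜ w')) (x : V ⊗[k] W)
    (y : V' ⊗[k] W') : L x y = R x y := by
  induction x using TensorProduct.induction_on with
  | zero => simp
  | add x x' hx hx' => simp only [map_add, LinearMap.add_apply, hx, hx']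
  | tmul v w =>
    induction y using TensorProduct.induction_on with
    | zero => simp
    | add y y' hy hy' => simp only [map_add, hy, hy']
    | tmul v' w' => exact h v w v' w'

private theorem ActT_mul_tmul [DecidableEq G] (α : Act G D) (β : Act G C) (g h : G)
    (v : D.A) (w : C.A) (v' : D.A) (w' : C.A) :
    dlM G D.A C.A (crMul (α.tensor β) (Pi.single g (v ⊗ₜ[k] w)) (Pi.single h (v' ⊗ₜ[k] w'))) =
      kz (dgPi D.dg G) (dgPi C.dg G) (crMul α) (crMul β)
        (dlM G D.A C.A (Pi.single g (v ⊗ₜ[k] w)))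
        (dlM G D.A C.A (Pi.single h (v' ⊗ₜ[k] w'))) := by
  have h1 := ActT_mul_single (α.tensor β) g h (v ⊗ₜ[k] w : (D.tensor C).A)
    (v' ⊗ₜ[k] w' : (D.tensor C).A)
  have h2 : (D.tensor C).mul (v ⊗ₜ[k] w) (((α.tensor β).a g).f (v' ⊗ₜ[k] w')) =
      D.mul v ((α.a g).f v') ⊗ₜ C.mul w ((β.a g).f w') -
        (2 : k) • D.mul v (D.dg.o ((α.a g).f v')) ⊗ₜ C.mul (C.dg.o w) ((β.a g).f w') := by
    rw [Act.tensor_f, TensorProduct.map_tmul]
    exact DGA.tensor_mul_tmul D C v _ w _
  have h3 : dlM G D.A C.A (Pi.single (g * h)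
      ((D.tensor C).mul (v ⊗ₜ[k] w) (((α.tensor β).a g).f (v' ⊗ₜ[k] w')))) =
      Pi.single (g * h) (D.mul v ((α.a g).f v')) ⊗ₜ[k]
        Pi.single (g * h) (C.mul w ((β.a g).f w')) - (2 : k) •
        (Pi.single (g * h) (D.mul v (D.dg.o ((α.a g).f v'))) ⊗ₜ[k]
          Pi.single (g * h) (C.mul (C.dg.o w) ((β.a g).f w'))) := by
    rw [h2]
    have e1 : ∀ (a b : D.A ⊗[k] C.A), (Pi.single (g * h) (a - (2 : k) • b) :
        G → D.A ⊗[k] C.A) = (Pi.single (g * h) a : G → D.A ⊗[k] C.A) -
        (2 : k) • (Pi.single (g * h) b : G → D.A ⊗[k] C.A) := by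
      intro a b
      have e2 := map_sub (LinearMap.single k (fun _ : G => D.A ⊗[k] C.A) (g * h)) a ((2 : k) • b)
      rw [map_smul] at e2
      exact e2
    refine (congrArg (dlM G D.A C.A) (e1 _ _)).trans ?_
    rw [map_sub, map_smul, dlM_single, dlM_single]
  refine (congrArg _ h1).trans (h3.trans ?_)
  rw [dlM_single, dlM_single, kz_tmul, ActT_mul_single, ActT_mul_single]
  have h4 : (dgPi D.dg G).o (Pi.single h v' : G → D.A) = Pi.single h (D.dg.o v') :=
    ActT_single_o h v'
  have h5 : (dgPi C.dg G).o (Pi.single g w : G → C.A) = Pi.single g (C.dg.o w) :=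
    ActT_single_o g w
  rw [h4, h5, ActT_mul_single, ActT_mul_single, (α.a g).o]

private theorem ActT_mul [DecidableEq G] (α : Act G D) (β : Act G C) (g h : G)
    (x y : D.A ⊗[k] C.A) :
    dlM G D.A C.A (crMul (α.tensor β) (Pi.single g x) (Pi.single h y)) =
      kz (dgPi D.dg G) (dgPi C.dg G) (crMul α) (crMul β) (dlM G D.A C.A (Pi.single g x))
        (dlM G D.A C.A (Pi.single h y)) := by
  exact ActT_ext2 (((crMul (α.tensor β)).compl₁₂
      (LinearMap.single k (fun _ : G => (D.tensor C).A) g)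
      (LinearMap.single k (fun _ : G => (D.tensor C).A) h)).compr₂ (dlM G D.A C.A))
    ((kz (dgPi D.dg G) (dgPi C.dg G) (crMul α) (crMul β)).compl₁₂
      ((dlM G D.A C.A).comp (LinearMap.single k (fun _ : G => D.A ⊗[k] C.A) g))
      ((dlM G D.A C.A).comp (LinearMap.single k (fun _ : G => D.A ⊗[k] C.A) h)))
    (fun v w v' w' => ActT_mul_tmul α β g h v w v' w') x y

/-- The diagonal homomorphism `(D ⊗ C) ⋊ G → (D ⋊ G) ⊗ (C ⋊ G)`, `(d ⊗ c) u_g ↦ d u_g ⊗ c u_g`.

Proof of the fields: by linearity check them on the elements `Pi.single g (v ⊗ v')` with homogeneous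
`v`, `v'`; in the product of `v u_g ⊗ v' u_g` and `w u_h ⊗ w' u_h` the sign is the same as in
`(v ⊗ v') (α_g w ⊗ β_g w')`, since `α_g` has degree `0`. -/
noncomputable def crDl (α : Act G D) (β : Act G C) :
    DHom (cr (α.tensor β)) ((cr α).tensor (cr β)) where
  f := dlM G D.A C.A
  deg := fun {i a} ha => by
    classical
    have ha' : ∀ g, (D.dg.tensor C.dg).IsDeg i (a g) := dgPi_deg.1 ha
    change ((dgPi D.dg G).tensor (dgPi C.dg G)).IsDeg i (dlM G D.A C.A a)
    rw [dlM_apply]
    exact ActT_sum_deg _ _ fun g => ActT_map_deg' (X := D.dg) (Y := C.dg)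
      (X' := dgPi D.dg G) (Y' := dgPi C.dg G) (fun h => ActT_single_deg g h)
      (fun h => ActT_single_deg g h) (ha' g)
  d := fun a => by
    classical
    change ((dgPi D.dg G).tensor (dgPi C.dg G)).d (dlM G D.A C.A a) =
      dlM G D.A C.A ((dgPi (D.dg.tensor C.dg) G).d a)
    rw [dlM_apply, dlM_apply, map_sum]
    refine Finset.sum_congr rfl fun g _ => ?_
    rw [dgPi_d]
    exact ActT_map_d' (X := D.dg) (Y := C.dg) (X' := dgPi D.dg G) (Y' := dgPi C.dg G)
      (fun v => ActT_single_s g v) (fun v => ActT_single_d g v) (fun v => ActT_single_d g v) _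
  one := by
    classical
    have h1 : ∀ E : DGA k, crOne G E = Pi.single 1 E.one := fun E => rfl
    change dlM G D.A C.A (crOne G (D.tensor C)) = crOne G D ⊗ₜ crOne G C
    rw [h1, h1, h1]
    exact dlM_single D.A C.A 1 D.one C.one
  mul := fun a b => by
    classical
    change dlM G D.A C.A (crMul (α.tensor β) a b) = kz (dgPi D.dg G) (dgPi C.dg G)
      (crMul α) (crMul β) (dlM G D.A C.A a) (dlM G D.A C.A b)
    exact ActT_ext_single
      ((crMul (α.tensor β)).compr₂ (dlM G D.A C.A))
      ((kz (dgPi D.dg G) (dgPi C.dg G) (crMul α) (crMul β)).compl₁₂ (dlM G D.A C.A)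
        (dlM G D.A C.A)) (fun g h x y => ActT_mul α β g h x y) a b

theorem crDl_f (α : Act G D) (β : Act G C) : (crDl α β).f = dlM G D.A C.A := rfl

end Pool.Agent.MP_6e5bed_ag_SY
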