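import Pool.Agent.Lib.MP_6e5bed_ag_SY.Sb

set_option autoImplicit false
set_option linter.unusedSectionVars false

/-!
# MP_6e5bed_ag (project SYM): block permutations
-/

namespace Pool.Agent.MP_6e5bed_ag_SY

open Equiv

private theorem Blk_card (a b : ℕ) :
    (Finset.univ.filter fun s : Fin (a + b) => decide ((s : ℕ) < a) = true).card = a := by
  have h : (Finset.univ.filter fun s : Fin (a + b) => decide ((s : ℕ) < a) = true) =
      (Finset.univ : Finset (Fin a)).map (Fin.castAddEmb b) := by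
    ext s
    simp only [Finset.mem_filter, Finset.mem_univ, true_and, Finset.mem_map, decide_eq_true_eq]
    constructor
    · intro hs
      exact ⟨⟨s, hs⟩, Fin.ext rfl⟩
    · rintro ⟨t, rfl⟩
      exact t.2
  rw [h, Finset.card_map, Finset.card_univ, Fintype.card_fin]

/-- The set of the first `a` elements of `Fin (a + b)`. -/
def Sb0 (a b : ℕ) : SbI (a + b) a := ⟨fun s => decide ((s : ℕ) < a), by
  exact Blk_card a b⟩

/-- The embedding of `S_a × S_b` in `S_{a + b}`. -/
def blk (a b : ℕ) : Perm (Fin a) × Perm (Fin b) →* Perm (Fin (a + b)) where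
  toFun := fun p => (finSumFinEquiv.permCongr (Perm.sumCongr p.1 p.2) : Perm (Fin (a + b)))
  map_one' := by
    ext s
    simp [Equiv.permCongr_apply]
  map_mul' := fun p q => by
    ext s
    simp only [Equiv.permCongr_apply, Perm.mul_apply, Equiv.symm_apply_apply, Prod.fst_mul,
      Prod.snd_mul]
    rcases finSumFinEquiv.symm s with t | t <;> rfl

theorem blk_castAdd (a b : ℕ) (p : Perm (Fin a) × Perm (Fin b)) (s : Fin a) :
    blk a b p (Fin.castAdd b s) = Fin.castAdd b (p.1 s) := by
  change finSumFinEquiv (Perm.sumCongr p.1 p.2 (finSumFinEquiv.symm (Fin.castAdd b s))) = _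
  rw [finSumFinEquiv_symm_apply_castAdd]
  exact finSumFinEquiv_apply_left _

theorem blk_natAdd (a b : ℕ) (p : Perm (Fin a) × Perm (Fin b)) (s : Fin b) :
    blk a b p (Fin.natAdd a s) = Fin.natAdd a (p.2 s) := by
  change finSumFinEquiv (Perm.sumCongr p.1 p.2 (finSumFinEquiv.symm (Fin.natAdd a s))) = _
  rw [finSumFinEquiv_symm_apply_natAdd]
  exact finSumFinEquiv_apply_right _

theorem blk_injective (a b : ℕ) : Function.Injective (blk a b) := by
  intro p q h
  refine Prod.ext (Equiv.ext fun s => ?_) (Equiv.ext fun s => ?_)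
  · apply Fin.castAdd_injective a b
    rw [← blk_castAdd, ← blk_castAdd, h]
  · apply Fin.natAdd_injective b a
    rw [← blk_natAdd, ← blk_natAdd, h]

/-- The stabilizer of the set of the first `a` elements is the image of `S_a × S_b`. -/
theorem stabilizer_Sb0 (a b : ℕ) (σ : Perm (Fin (a + b))) :
    σ • Sb0 a b = Sb0 a b ↔ ∃ p, blk a b p = σ := by
  have key : σ • Sb0 a b = Sb0 a b ↔
      ∀ s : Fin (a + b), (((σ⁻¹ s : Fin (a + b)) : ℕ) < a ↔ (s : ℕ) < a) := by
    constructor
    · intro h s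
      have h1 : (σ • Sb0 a b).1.m s = (Sb0 a b).1.m s := by rw [h]
      exact decide_eq_decide.1 h1
    · intro h
      exact Subtype.ext (Sb.ext fun s => decide_eq_decide.2 (h s))
  rw [key]
  constructor
  · intro h
    have hm : Set.MapsTo ((finSumFinEquiv (m := a) (n := b)).symm.permCongr σ)
        (Set.range Sum.inl) (Set.range Sum.inl) := by
      rintro _ ⟨s, rfl⟩
      have h1 := (h (σ (Fin.castAdd b s))).1 (by
        rw [← Perm.mul_apply, inv_mul_cancel, Perm.one_apply]
        exact s.2)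
      refine ⟨⟨_, h1⟩, ?_⟩
      rw [Equiv.permCongr_apply, Equiv.symm_symm, finSumFinEquiv_apply_left]
      apply (finSumFinEquiv (m := a) (n := b)).injective
      rw [finSumFinEquiv_apply_left, Equiv.apply_symm_apply]
      exact Fin.ext rfl
    obtain ⟨p, hp⟩ := Perm.mem_sumCongrHom_range_of_perm_mapsTo_inl hm
    refine ⟨p, ?_⟩
    have h2 : Perm.sumCongr p.1 p.2 = (finSumFinEquiv (m := a) (n := b)).symm.permCongr σ := hp
    change finSumFinEquiv.permCongr (Perm.sumCongr p.1 p.2) = σ
    rw [h2]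
    ext s
    simp [Equiv.permCongr_apply]
  · rintro ⟨p, rfl⟩ s
    obtain ⟨t, rfl⟩ : ∃ t, blk a b p t = s := (blk a b p).surjective s
    rw [← Perm.mul_apply, inv_mul_cancel, Perm.one_apply]
    rcases lt_or_ge (t : ℕ) a with ht | ht
    · obtain ⟨u, rfl⟩ : ∃ u : Fin a, Fin.castAdd b u = t := ⟨⟨t, ht⟩, Fin.ext rfl⟩
      rw [blk_castAdd]
      exact ⟨fun _ => (p.1 u).2, fun _ => ht⟩
    · obtain ⟨u, rfl⟩ : ∃ u : Fin b, Fin.natAdd a u = t :=
        ⟨⟨t - a, by have := t.2; omega⟩, Fin.ext (by simp; omega)⟩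
      rw [blk_natAdd]
      simp

end Pool.Agent.MP_6e5bed_ag_SY
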