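import Pool.Agent.Lib.MP_6e5bed_ag_SY.PwE
import Pool.Agent.Lib.MP_6e5bed_ag_SY.Blk

set_option autoImplicit false
set_option linter.unusedSectionVars false

/-!
# MP_6e5bed_ag (project SYM): `A^{⊗a} ⊗ A^{⊗b} ≅ A^{⊗(a + b)}`
-/

namespace Pool.Agent.MP_6e5bed_ag_SY

open Pool.Agent.MP_6e5bed_ag_NC
open Equiv
open scoped TensorProduct

universe u

variable {k : Type u} [CommRing k]

private theorem CatP_bij {A B : DGA k} (e : DIso A B) : Function.Bijective e.hom.f :=
  ⟨Function.LeftInverse.injective (g := e.inv.f) e.hom_inv,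
    Function.RightInverse.surjective (g := e.inv.f) e.inv_hom⟩

/-- One step of the induction: `(A ⊗ P) ⊗ Q ≅ A ⊗ (P ⊗ Q) → A ⊗ R`. -/
private noncomputable def CatP_st (A : DGA k) {P Q R : DGA k} (φ : DHom (P.tensor Q) R) :
    DHom ((A.tensor P).tensor Q) (A.tensor R) :=
  (assocIso A P Q).hom.comp ((DHom.id A).tensor φ)

private theorem CatP_st_tmul (A : DGA k) {P Q R : DGA k} (φ : DHom (P.tensor Q) R) (a : A.A)
    (p : P.A) (q : Q.A) : (CatP_st A φ).f ((a ⊗ₜ[k] p) ⊗ₜ[k] q) = a ⊗ₜ[k] φ.f (p ⊗ₜ[k] q) := rfl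

private theorem CatP_st_bij (A : DGA k) {P Q R : DGA k} {φ : DHom (P.tensor Q) R}
    (h : Function.Bijective φ.f) : Function.Bijective (CatP_st A φ).f := by
  have h2 : Function.Bijective (LinearMap.lTensor A.A φ.f) :=
    ((LinearEquiv.ofBijective φ.f h).lTensor A.A).bijective
  exact h2.comp (CatP_bij (assocIso A P Q))

private noncomputable def CatP_step (A : DGA k) {a b m : ℕ}
    (φ : DHom ((pw A a).tensor (pw A b)) (pw A m)) :
    DHom ((pw A (a + 1)).tensor (pw A b)) (pw A (m + 1)) := CatP_st A φ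

private theorem CatP_step_bij (A : DGA k) {a b m : ℕ}
    {φ : DHom ((pw A a).tensor (pw A b)) (pw A m)} (h : Function.Bijective φ.f) :
    Function.Bijective (CatP_step A φ).f := CatP_st_bij A h

private theorem CatP_step_zero (A : DGA k) {a b m : ℕ}
    (φ : DHom ((pw A a).tensor (pw A b)) (pw A m)) (x : A.A) :
    (CatP_step A φ).f ((inj A (a + 1) 0).f x ⊗ₜ (pw A b).one) = (inj A (m + 1) 0).f x := by
  refine (CatP_st_tmul A φ x (pw A a).one (pw A b).one).trans ?_
  exact congrArg (fun z => x ⊗ₜ[k] z) φ.one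

private theorem CatP_step_succ (A : DGA k) {a b m : ℕ}
    (φ : DHom ((pw A a).tensor (pw A b)) (pw A m)) (s : Fin a) (t : Fin m)
    (h : ∀ x : A.A, φ.f ((inj A a s).f x ⊗ₜ (pw A b).one) = (inj A m t).f x) (x : A.A) :
    (CatP_step A φ).f ((inj A (a + 1) s.succ).f x ⊗ₜ (pw A b).one) =
      (inj A (m + 1) t.succ).f x := by
  refine (CatP_st_tmul A φ A.one ((inj A a s).f x) (pw A b).one).trans ?_
  exact congrArg (fun z => A.one ⊗ₜ[k] z) (h x)

private theorem CatP_step_right (A : DGA k) {a b m : ℕ}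
    (φ : DHom ((pw A a).tensor (pw A b)) (pw A m)) (s : Fin b) (t : Fin m)
    (h : ∀ x : A.A, φ.f ((pw A a).one ⊗ₜ (inj A b s).f x) = (inj A m t).f x) (x : A.A) :
    (CatP_step A φ).f ((pw A (a + 1)).one ⊗ₜ (inj A b s).f x) =
      (inj A (m + 1) t.succ).f x := by
  refine (CatP_st_tmul A φ A.one (pw A a).one ((inj A b s).f x)).trans ?_
  exact congrArg (fun z => A.one ⊗ₜ[k] z) (h x)

/-- Proof. Induction on `a`, for all `n`. For `a = 0` (`subst h`, `n = 0 + b`; `pw A n ≅ pw A b` by
transport, or `cases`/`omega` on the equation `0 + b = n` with `Nat.zero_add`) the map is `lunitIso`.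
For `a + 1` the number `n` is `n' + 1` with `a + b = n'`; the map is
`assocIso A (pw A a) (pw A b)`, followed by `id ⊗ φ'`, to `A.tensor (pw A n') = pw A (n' + 1)`. On
`inj`: `inj_zero`, `inj_succ`, `tinl_f`, `tinr_f`. -/
theorem exists_cat (A : DGA k) (a b n : ℕ) (h : a + b = n) :
    ∃ φ : DHom ((pw A a).tensor (pw A b)) (pw A n), Function.Bijective φ.f ∧
      (∀ (s : Fin a) (x : A.A), φ.f ((inj A a s).f x ⊗ₜ (pw A b).one) =
        (inj A n ⟨s, by omega⟩).f x) ∧
      ∀ (t : Fin b) (x : A.A), φ.f ((pw A a).one ⊗ₜ (inj A b t).f x) =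
        (inj A n ⟨a + t, by omega⟩).f x := by
  induction a generalizing n with
  | zero =>
    obtain rfl : b = n := by omega
    refine ⟨(lunitIso (pw A b)).hom, CatP_bij _, fun s => s.elim0, fun t x => ?_⟩
    have e : (⟨0 + (t : ℕ), by omega⟩ : Fin b) = t := Fin.ext (Nat.zero_add _)
    rw [e]
    exact one_smul k ((inj A b t).f x)
  | succ a ih =>
    obtain ⟨m, rfl⟩ : ∃ m, n = m + 1 := ⟨n - 1, by omega⟩
    obtain ⟨φ, hφ, hl, hr⟩ := ih m (by omega)
    refine ⟨CatP_step A φ, CatP_step_bij A hφ, fun s x => ?_, fun t x => ?_⟩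
    · induction s using Fin.cases with
      | zero => exact CatP_step_zero A φ x
      | succ s => exact CatP_step_succ A φ s _ (hl s) x
    · have e : (⟨a + 1 + (t : ℕ), by omega⟩ : Fin (m + 1)) =
          Fin.succ ⟨a + (t : ℕ), by omega⟩ := Fin.ext (by simp only [Fin.val_succ]; omega)
      rw [e]
      exact CatP_step_right A φ t _ (hr t) x

/-- The isomorphism `A^{⊗a} ⊗ A^{⊗b} → A^{⊗(a + b)}`. -/
noncomputable def catD (A : DGA k) (a b : ℕ) : DHom ((pw A a).tensor (pw A b)) (pw A (a + b)) :=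
  (exists_cat A a b (a + b) rfl).choose

theorem catD_bij (A : DGA k) (a b : ℕ) : Function.Bijective (catD A a b).f :=
  (exists_cat A a b (a + b) rfl).choose_spec.1

theorem catD_left (A : DGA k) (a b : ℕ) (s : Fin a) (x : A.A) :
    (catD A a b).f ((inj A a s).f x ⊗ₜ (pw A b).one) =
      (inj A (a + b) (Fin.castAdd b s)).f x :=
  (exists_cat A a b (a + b) rfl).choose_spec.2.1 s x

theorem catD_right (A : DGA k) (a b : ℕ) (t : Fin b) (x : A.A) :
    (catD A a b).f ((pw A a).one ⊗ₜ (inj A b t).f x) =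
      (inj A (a + b) (Fin.natAdd a t)).f x :=
  (exists_cat A a b (a + b) rfl).choose_spec.2.2 t x

/-- The isomorphism is compatible with the block permutations.

Proof. Both sides are multiplicative in `x`. By `tensor_ext` and `pw_ext` it is enough to take
`x = inj s a ⊗ 1` and `x = 1 ⊗ inj t a` (and units): `pwP_inj`, `catD_left`, `catD_right`,
`blk_castAdd`, `blk_natAdd`. -/
theorem catD_perm (A : DGA k) (a b : ℕ) (p : Perm (Fin a) × Perm (Fin b))
    (x : ((pw A a).tensor (pw A b)).A) :
    pwP A (a + b) (blk a b p) ((catD A a b).f x) =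
      (catD A a b).f (TensorProduct.map (pwP A a p.1) (pwP A b p.2) x) := by
  have hm : ∀ (n : ℕ) (σ : Perm (Fin n)) (x y : (pw A n).A),
      pwP A n σ ((pw A n).mul x y) = (pw A n).mul (pwP A n σ x) (pwP A n σ y) :=
    fun n σ x y => ((pwAct A n).a σ).mul x y
  have h1 : ∀ (n : ℕ) (σ : Perm (Fin n)), pwP A n σ (pw A n).one = (pw A n).one :=
    fun n σ => ((pwAct A n).a σ).one
  have hT : ∀ x, TensorProduct.map (pwP A a p.1) (pwP A b p.2) x =
      (DHom.tensor ((pwAct A a).a p.1) ((pwAct A b).a p.2)).f x := fun x => rfl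
  have key : pwP A (a + b) (blk a b p) ∘ₗ (catD A a b).f =
      (catD A a b).f ∘ₗ (DHom.tensor ((pwAct A a).a p.1) ((pwAct A b).a p.2)).f := by
    refine tensor_ext ?_ ?_ ?_ ?_
    · intro x y
      rw [LinearMap.comp_apply, LinearMap.comp_apply, LinearMap.comp_apply, (catD A a b).mul, hm]
    · intro x y
      rw [LinearMap.comp_apply, LinearMap.comp_apply, LinearMap.comp_apply,
        (DHom.tensor ((pwAct A a).a p.1) ((pwAct A b).a p.2)).mul, (catD A a b).mul]
    · have h : (pwP A (a + b) (blk a b p) ∘ₗ (catD A a b).f) ∘ₗ (tinl (pw A a) (pw A b)).f =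
          ((catD A a b).f ∘ₗ (DHom.tensor ((pwAct A a).a p.1) ((pwAct A b).a p.2)).f) ∘ₗ
            (tinl (pw A a) (pw A b)).f := by
        refine pw_ext ?_ ?_ ?_ ?_
        · intro x y
          rw [LinearMap.comp_apply, LinearMap.comp_apply, LinearMap.comp_apply,
            LinearMap.comp_apply, LinearMap.comp_apply, LinearMap.comp_apply,
            (tinl (pw A a) (pw A b)).mul, (catD A a b).mul, hm]
        · intro x y
          rw [LinearMap.comp_apply, LinearMap.comp_apply, LinearMap.comp_apply,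
            LinearMap.comp_apply, LinearMap.comp_apply, LinearMap.comp_apply,
            (tinl (pw A a) (pw A b)).mul,
            (DHom.tensor ((pwAct A a).a p.1) ((pwAct A b).a p.2)).mul, (catD A a b).mul]
        · rw [LinearMap.comp_apply, LinearMap.comp_apply, LinearMap.comp_apply,
            LinearMap.comp_apply, (tinl (pw A a) (pw A b)).one,
            (DHom.tensor ((pwAct A a).a p.1) ((pwAct A b).a p.2)).one, (catD A a b).one, h1]
        · intro s y
          rw [LinearMap.comp_apply, LinearMap.comp_apply, LinearMap.comp_apply,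
            LinearMap.comp_apply]
          change pwP A (a + b) (blk a b p) ((catD A a b).f ((inj A a s).f y ⊗ₜ (pw A b).one)) =
            (catD A a b).f (pwP A a p.1 ((inj A a s).f y) ⊗ₜ pwP A b p.2 (pw A b).one)
          rw [catD_left, pwP_inj, blk_castAdd, h1, pwP_inj, catD_left]
      exact fun y => LinearMap.congr_fun h y
    · have h : (pwP A (a + b) (blk a b p) ∘ₗ (catD A a b).f) ∘ₗ (tinr (pw A a) (pw A b)).f =
          ((catD A a b).f ∘ₗ (DHom.tensor ((pwAct A a).a p.1) ((pwAct A b).a p.2)).f) ∘ₗ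
            (tinr (pw A a) (pw A b)).f := by
        refine pw_ext ?_ ?_ ?_ ?_
        · intro x y
          rw [LinearMap.comp_apply, LinearMap.comp_apply, LinearMap.comp_apply,
            LinearMap.comp_apply, LinearMap.comp_apply, LinearMap.comp_apply,
            (tinr (pw A a) (pw A b)).mul, (catD A a b).mul, hm]
        · intro x y
          rw [LinearMap.comp_apply, LinearMap.comp_apply, LinearMap.comp_apply,
            LinearMap.comp_apply, LinearMap.comp_apply, LinearMap.comp_apply,
            (tinr (pw A a) (pw A b)).mul,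
            (DHom.tensor ((pwAct A a).a p.1) ((pwAct A b).a p.2)).mul, (catD A a b).mul]
        · rw [LinearMap.comp_apply, LinearMap.comp_apply, LinearMap.comp_apply,
            LinearMap.comp_apply, (tinr (pw A a) (pw A b)).one,
            (DHom.tensor ((pwAct A a).a p.1) ((pwAct A b).a p.2)).one, (catD A a b).one, h1]
        · intro s y
          rw [LinearMap.comp_apply, LinearMap.comp_apply, LinearMap.comp_apply,
            LinearMap.comp_apply]
          change pwP A (a + b) (blk a b p) ((catD A a b).f ((pw A a).one ⊗ₜ (inj A b s).f y)) =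
            (catD A a b).f (pwP A a p.1 (pw A a).one ⊗ₜ pwP A b p.2 ((inj A b s).f y))
          rw [catD_right, pwP_inj, blk_natAdd, h1, pwP_inj, catD_right]
      exact fun y => LinearMap.congr_fun h y
  rw [hT]
  exact LinearMap.congr_fun key x

end Pool.Agent.MP_6e5bed_ag_SY
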