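import Pool.Agent.Lib.MP_6e5bed_ag_SY.CharA

set_option autoImplicit false
set_option linter.unusedSectionVars false

/-!
# MP_6e5bed_ag (project SYM): permutation representations with equal characters
-/

namespace Pool.Agent.MP_6e5bed_ag_SY

universe u v

variable {k : Type u} [Field k] [CharZero k] {H : Type} [Group H] [Fintype H]

/-- The number of fixed points of `g` on `Y`. -/
noncomputable def fxn (Y : Type) [MulAction H Y] (g : H) : ℕ := Nat.card {y : Y // g • y = y}

/-- The permutation representation on functions. -/
private def charRep (k : Type u) [Field k] {H : Type} [Group H] (Y : Type) [MulAction H Y] :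
    Representation k H (Y → k) where
  toFun g :=
    { toFun := fun f y => f (g⁻¹ • y)
      map_add' := fun _ _ => rfl
      map_smul' := fun _ _ => rfl }
  map_one' := by
    ext f y
    simp
  map_mul' g g' := by
    ext f y
    simp [mul_smul]

private theorem charRep_apply (Y : Type) [MulAction H Y] (g : H) (f : Y → k) (y : Y) :
    charRep k Y g f y = f (g⁻¹ • y) := rfl

private theorem charRep_trace (Y : Type) [Fintype Y] [MulAction H Y] (g : H) :
    LinearMap.trace k (Y → k) (charRep k Y g) = (fxn Y g : k) := by
  classical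
  rw [LinearMap.trace_eq_matrix_trace k (Pi.basisFun k Y), Matrix.trace]
  simp only [Matrix.diag_apply, LinearMap.toMatrix_apply, Pi.basisFun_apply, Pi.basisFun_repr,
    charRep_apply, Pi.single_apply]
  rw [Finset.sum_boole, fxn, Nat.card_eq_fintype_card, Fintype.card_subtype]
  congr 2
  ext y
  simp only [Finset.mem_filter, Finset.mem_univ, true_and]
  rw [inv_smul_eq_iff]
  exact eq_comm

/-- Finite `H`-sets with the same numbers of fixed points have isomorphic permutation modules.

Proof. Apply `char_iso` to the representations `(g f)(y) = f(g⁻¹ y)` on `Y → k` and `Y' → k` (lifted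
to a common universe if necessary: they are both in `Type u`); the trace of `g` is the number of
fixed points (`LinearMap.trace_eq_matrix_trace` for the basis `Pi.basisFun`). -/
theorem perm_iso (Y Y' : Type) [Fintype Y] [MulAction H Y] [Fintype Y'] [MulAction H Y']
    (h : ∀ g : H, fxn Y g = fxn Y' g) :
    ∃ e : (Y → k) ≃ₗ[k] (Y' → k), ∀ (g : H) (f : Y → k) (y' : Y'),
      e (fun y => f (g⁻¹ • y)) y' = e f (g⁻¹ • y') := by
  obtain ⟨e, he⟩ := char_iso (charRep k Y (H := H)) (charRep k Y' (H := H)) (fun g => by
    rw [charRep_trace, charRep_trace, h g])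
  exact ⟨e, fun g f y' => congrFun (he g f) y'⟩

private theorem char_single (Y : Type) [MulAction H Y] [DecidableEq Y] (g : H) (y : Y) :
    (fun z => (Pi.single y 1 : Y → k) (g⁻¹ • z)) = Pi.single (g • y) 1 := by
  ext z
  simp only [Pi.single_apply, inv_smul_eq_iff]

private theorem char_sum (Y : Type) [Fintype Y] [DecidableEq Y] (f : Y → k) :
    f = ∑ y, f y • (Pi.single y 1 : Y → k) := by
  ext z
  simp [Finset.sum_apply, Pi.single_apply]

/-- The same in terms of matrices: `T : Y' → Y → k` is `H`-invariant, with inverse `S`.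

Proof. `T y' y = e (Pi.single y 1) y'`, `S y y' = e.symm (Pi.single y' 1) y`. -/
theorem perm_matrix (Y Y' : Type) [Fintype Y] [MulAction H Y] [Fintype Y'] [MulAction H Y']
    (h : ∀ g : H, fxn Y g = fxn Y' g) :
    ∃ (T : Y' → Y → k) (S : Y → Y' → k), (∀ (g : H) y' y, T (g • y') (g • y) = T y' y) ∧
      (∀ (g : H) y y', S (g • y) (g • y') = S y y') ∧
      (∀ y' z', ∑ y, T y' y * S y z' = open Classical in if y' = z' then 1 else 0) ∧
      ∀ y z, ∑ y', S y y' * T y' z = open Classical in if y = z then 1 else 0 := by
  classical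
  obtain ⟨e, he⟩ := perm_iso (k := k) Y Y' h
  have he' : ∀ (g : H) (f : Y' → k) (y : Y), e.symm (fun y' => f (g⁻¹ • y')) y =
      e.symm f (g⁻¹ • y) := by
    intro g f y
    have h1 : (fun y' => f (g⁻¹ • y')) = e (fun y => e.symm f (g⁻¹ • y)) := by
      ext y'
      rw [he, LinearEquiv.apply_symm_apply]
    rw [h1, LinearEquiv.symm_apply_apply]
  refine ⟨fun y' y => e (Pi.single y 1) y', fun y y' => e.symm (Pi.single y' 1) y, ?_, ?_, ?_, ?_⟩
  · intro g y' y
    show e (Pi.single (g • y) 1) (g • y') = e (Pi.single y 1) y'
    rw [← char_single Y g y, he, inv_smul_smul]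
  · intro g y y'
    show e.symm (Pi.single (g • y') 1) (g • y) = e.symm (Pi.single y' 1) y
    rw [← char_single Y' g y', he', inv_smul_smul]
  · intro y' z'
    have h1 := congrArg e (char_sum Y (e.symm (Pi.single z' 1)))
    rw [LinearEquiv.apply_symm_apply, map_sum] at h1
    have h2 := congrFun h1 y'
    rw [Finset.sum_apply, Pi.single_apply] at h2
    rw [h2]
    exact Finset.sum_congr rfl fun y _ => by
      rw [map_smul, Pi.smul_apply, smul_eq_mul, mul_comm]
  · intro y z
    have h1 := congrArg e.symm (char_sum Y' (e (Pi.single z 1)))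
    rw [LinearEquiv.symm_apply_apply, map_sum] at h1
    have h2 := congrFun h1 y
    rw [Finset.sum_apply, Pi.single_apply] at h2
    rw [h2]
    exact Finset.sum_congr rfl fun y' _ => by
      rw [map_smul, Pi.smul_apply, smul_eq_mul, mul_comm]

end Pool.Agent.MP_6e5bed_ag_SY
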