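import Mathlib

set_option autoImplicit false
set_option linter.unusedSectionVars false

/-!
# MP_6e5bed_ag (project SYM): representations with equal characters
-/

namespace Pool.Agent.MP_6e5bed_ag_SY

universe u v

variable {k : Type u} [Field k] [CharZero k] {H : Type} [Group H] [Fintype H]

/-- the trace of an endomorphism with two complementary stable subspaces -/
private theorem CharA_trace {V : Type v} [AddCommGroup V] [Module k V] [FiniteDimensional k V]
    (p q : Submodule k V) (hpq : IsCompl p q) (T : V →ₗ[k] V) (hp : ∀ x ∈ p, T x ∈ p)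
    (hq : ∀ x ∈ q, T x ∈ q) :
    LinearMap.trace k V T =
      LinearMap.trace k p (T.restrict hp) + LinearMap.trace k q (T.restrict hq) := by
  have h1 := LinearMap.trace_conj' ((T.restrict hp).prodMap (T.restrict hq))
    (Submodule.prodEquivOfIsCompl p q hpq)
  rw [LinearMap.trace_prodMap'] at h1
  rw [← h1]
  congr 1
  ext x
  obtain ⟨y, rfl⟩ := (Submodule.prodEquivOfIsCompl p q hpq).surjective x
  rw [LinearEquiv.conj_apply_apply, LinearEquiv.symm_apply_apply]
  rw [Submodule.coe_prodEquivOfIsCompl', Submodule.coe_prodEquivOfIsCompl', map_add]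
  rfl

/-- a stable complement -/
private theorem CharA_compl {V : Type v} [AddCommGroup V] [Module k V]
    (ρ : Representation k H V) (p : Submodule k V) (hp : ∀ g, ∀ x ∈ p, ρ g x ∈ p) :
    ∃ q : Submodule k V, IsCompl p q ∧ ∀ g, ∀ x ∈ q, ρ g x ∈ q := by
  have : NeZero (Nat.card H : k) := by
    refine ⟨?_⟩
    rw [Nat.card_eq_fintype_card]
    exact Nat.cast_ne_zero.2 Fintype.card_ne_zero
  obtain ⟨q, hq⟩ := ComplementedLattice.exists_isCompl
    (⟨p, fun g x hx => hp g x hx⟩ : Subrepresentation ρ)
  refine ⟨q.toSubmodule, ?_, fun g x hx => q.apply_mem_toSubmodule g hx⟩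
  rw [isCompl_iff, disjoint_iff, codisjoint_iff] at hq ⊢
  constructor
  · have h1 := congrArg Subrepresentation.toSubmodule hq.1
    exact h1
  · have h1 := congrArg Subrepresentation.toSubmodule hq.2
    exact h1

/-- a nonzero equivariant map -/
private theorem CharA_hom {V W : Type v} [AddCommGroup V] [Module k V] [FiniteDimensional k V]
    [AddCommGroup W] [Module k W] [FiniteDimensional k W] (ρ : Representation k H V)
    (σ : Representation k H W)
    (h : ∀ g, LinearMap.trace k V (ρ g) = LinearMap.trace k W (σ g)) (hV : Nontrivial V) :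
    ∃ f : V →ₗ[k] W, f ≠ 0 ∧ ∀ g v, f (ρ g v) = σ g (f v) := by
  have hcard : (Nat.card H : k) ≠ 0 := by
    rw [Nat.card_eq_fintype_card]
    exact Nat.cast_ne_zero.2 Fintype.card_ne_zero
  let _ : Invertible (Nat.card H : k) := invertibleOfNonzero hcard
  have h1 := Representation.card_inv_mul_sum_char_mul_char_eq_finrank ρ σ
  have h2 := Representation.card_inv_mul_sum_char_mul_char_eq_finrank ρ ρ
  have h3 : ∀ g, σ.character g = ρ.character g := fun g => (h g).symm
  simp only [h3] at h1
  rw [h1, Nat.cast_inj] at h2
  have h4 : 0 < Module.finrank k (Representation.IntertwiningMap ρ ρ) := by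
    rw [Module.finrank_pos_iff]
    obtain ⟨v, hv⟩ := exists_ne (0 : V)
    refine ⟨⟨1, 0, fun h0 => hv ?_⟩⟩
    have h5 := congrArg (fun f : Representation.IntertwiningMap ρ ρ => f v) h0
    exact h5
  rw [← h2, Module.finrank_pos_iff] at h4
  obtain ⟨f, hf⟩ := exists_ne (0 : Representation.IntertwiningMap ρ σ)
  refine ⟨f.toLinearMap, ?_, ?_⟩
  · intro h0
    apply hf
    ext v
    exact LinearMap.congr_fun h0 v
  · intro g v
    exact LinearMap.congr_fun (f.isIntertwining' g) v

/-- the induction -/
private theorem CharA_main (n : ℕ) : ∀ (V W : Type v) [AddCommGroup V] [Module k V]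
    [FiniteDimensional k V] [AddCommGroup W] [Module k W] [FiniteDimensional k W]
    (ρ : Representation k H V) (σ : Representation k H W), Module.finrank k V = n →
    (∀ g, LinearMap.trace k V (ρ g) = LinearMap.trace k W (σ g)) →
    ∃ e : V ≃ₗ[k] W, ∀ g v, e (ρ g v) = σ g (e v) := by
  induction n using Nat.strong_induction_on with
  | _ n ih =>
    intro V W _ _ _ _ _ _ ρ σ hn h
    have hdim : Module.finrank k V = Module.finrank k W := by
      have h1 := h 1
      rw [map_one ρ, map_one σ, LinearMap.trace_one, LinearMap.trace_one] at h1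
      exact_mod_cast h1
    by_cases hV : Nontrivial V
    · obtain ⟨f, hf0, hf⟩ := CharA_hom ρ σ h hV
      have hkst : ∀ g, ∀ x ∈ LinearMap.ker f, ρ g x ∈ LinearMap.ker f := by
        intro g x hx
        rw [LinearMap.mem_ker] at hx ⊢
        rw [hf, hx, map_zero]
      have hrst : ∀ g, ∀ y ∈ LinearMap.range f, σ g y ∈ LinearMap.range f := by
        rintro g y ⟨x, rfl⟩
        exact ⟨ρ g x, hf g x⟩
      obtain ⟨C, hC, hCst⟩ := CharA_compl ρ (LinearMap.ker f) hkst
      obtain ⟨D, hD, hDst⟩ := CharA_compl σ (LinearMap.range f) hrst
      -- the representations on the four subspaces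
      let ρK : Representation k H (LinearMap.ker f) :=
        (⟨LinearMap.ker f, fun g x hx => hkst g x hx⟩ : Subrepresentation ρ).toRepresentation
      let σD : Representation k H D :=
        (⟨D, fun g x hx => hDst g x hx⟩ : Subrepresentation σ).toRepresentation
      let e₂ : C ≃ₗ[k] LinearMap.range f := f.kerComplementEquivRange hC.symm
      have he₂ : ∀ x : C, ((e₂ x : LinearMap.range f) : W) = f x := fun x => rfl
      have htr : ∀ g, LinearMap.trace k (LinearMap.ker f) (ρK g) = LinearMap.trace k D (σD g) := by
        intro g
        have h1 := h g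
        rw [CharA_trace (LinearMap.ker f) C hC (ρ g) (hkst g) (hCst g),
          CharA_trace (LinearMap.range f) D hD (σ g) (hrst g) (hDst g)] at h1
        have h2 := LinearMap.trace_conj' ((ρ g).restrict (hCst g)) e₂
        have h3 : e₂.conj ((ρ g).restrict (hCst g)) = (σ g).restrict (hrst g) := by
          ext y
          obtain ⟨x, rfl⟩ := e₂.surjective y
          rw [LinearEquiv.conj_apply_apply, LinearEquiv.symm_apply_apply, he₂,
            LinearMap.coe_restrict_apply, LinearMap.coe_restrict_apply, he₂, hf]
        rw [h3] at h2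
        rw [h2, add_comm] at h1
        exact add_left_cancel h1
      have hlt : Module.finrank k (LinearMap.ker f) < n := by
        rw [← hn]
        apply Submodule.finrank_lt
        intro h0
        exact hf0 (LinearMap.ker_eq_top.1 h0)
      obtain ⟨e₁, he₁⟩ := ih _ hlt (LinearMap.ker f) D ρK σD rfl htr
      let e : V ≃ₗ[k] W := ((Submodule.prodEquivOfIsCompl (LinearMap.ker f) C hC).symm.trans
        (e₁.prodCongr e₂)).trans (Submodule.prodEquivOfIsCompl D (LinearMap.range f) hD.symm)
      have he : ∀ (x : LinearMap.ker f) (y : C), e ((x : V) + y) = (e₁ x : W) + f y := by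
        intro x y
        have h1 : (Submodule.prodEquivOfIsCompl (LinearMap.ker f) C hC).symm ((x : V) + y) =
            (x, y) := by
          rw [LinearEquiv.symm_apply_eq, Submodule.coe_prodEquivOfIsCompl']
        change Submodule.prodEquivOfIsCompl D (LinearMap.range f) hD.symm (e₁.prodCongr e₂
          ((Submodule.prodEquivOfIsCompl (LinearMap.ker f) C hC).symm ((x : V) + y))) = _
        rw [h1, Submodule.coe_prodEquivOfIsCompl', LinearEquiv.prodCongr_apply]
        rfl
      refine ⟨e, ?_⟩
      intro g v
      obtain ⟨⟨x, y⟩, rfl⟩ := (Submodule.prodEquivOfIsCompl (LinearMap.ker f) C hC).surjective v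
      rw [Submodule.coe_prodEquivOfIsCompl']
      have h1 : ρ g ((x : V) + y) = ((ρK g x : LinearMap.ker f) : V) +
          ((⟨ρ g y, hCst g y y.2⟩ : C) : V) := by
        rw [map_add]
        rfl
      change e (ρ g ((x : V) + y)) = σ g (e ((x : V) + y))
      rw [h1, he, he, he₁, map_add, ← hf]
      rfl
    · have hV' : Subsingleton V := not_nontrivial_iff_subsingleton.1 hV
      have hW' : Subsingleton W := by
        rw [← Module.finrank_zero_iff (R := k), ← hdim, Module.finrank_zero_iff]
        exact hV'
      refine ⟨LinearEquiv.ofFinrankEq V W hdim, fun g v => Subsingleton.elim _ _⟩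

/-- Finite-dimensional representations of a finite group over a field of characteristic zero with
equal characters are isomorphic.

Proof. Induction on `dim V + dim W`, for all `V` and `W`. If `V = 0` then `dim W = σ 1 = 0` (trace
of
the identity; characteristic zero). Let `V ≠ 0`. The dimension of the space of equivariant maps
`V → W'` is the average of `χ_V(g⁻¹) χ_W'(g)` (Mathlib: `Representation.linHom`,
`Representation.averageMap`, the trace of the projection `averageMap` is the dimension of the
invariants, `Representation.average_char_eq_finrank_invariants`, `Representation.char_linHom`), so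
it is the same for `W' = V` and for `W' = W`; for `W' = V` it is positive (identity). So there is an
equivariant `f : V → W`, `f ≠ 0`. By Maschke (average a linear section; or `Representation` as a
module over `MonoidAlgebra k H` and `MonoidAlgebra.Submodule.exists_isCompl`) `V = ker f ⊕ V₁`,
`W = range f ⊕ W₁` with `f : V₁ ≅ range f`, all stable. The characters of `ker f` and of `W₁` are
equal, and by induction `ker f ≅ W₁`. -/
theorem char_iso {V W : Type v} [AddCommGroup V] [Module k V] [FiniteDimensional k V]
    [AddCommGroup W] [Module k W] [FiniteDimensional k W] (ρ : Representation k H V)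
    (σ : Representation k H W)
    (h : ∀ g, LinearMap.trace k V (ρ g) = LinearMap.trace k W (σ g)) :
    ∃ e : V ≃ₗ[k] W, ∀ g v, e (ρ g v) = σ g (e v) := by
  exact CharA_main (Module.finrank k V) V W ρ σ rfl h

end Pool.Agent.MP_6e5bed_ag_SY
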