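import Mathlib

set_option autoImplicit false
set_option linter.unusedSectionVars false

/-!
# MP_6e5bed_ag (project SYM): representations with the same ranks of idempotents
-/

namespace Pool.Agent.MP_6e5bed_ag_SY

universe u v

variable {k : Type u} [Field k] {H : Type} [Group H] [Fintype H]

/-- The rank of `e` is the same on isomorphic modules. -/
private theorem CharB_rk_equiv {k : Type*} [Field k] {A : Type*} [Ring A] [Algebra k A]
    {M N : Type*} [AddCommGroup M] [Module k M] [Module A M] [IsScalarTower k A M]
    [AddCommGroup N] [Module k N] [Module A N] [IsScalarTower k A N] (f : M ≃ₗ[A] N) (e : A) :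
    Module.finrank k (LinearMap.range (Algebra.lsmul k k M e)) =
      Module.finrank k (LinearMap.range (Algebra.lsmul k k N e)) := by
  have h : LinearMap.range (Algebra.lsmul k k N e) =
      (LinearMap.range (Algebra.lsmul k k M e)).map ((f.restrictScalars k : M ≃ₗ[k] N) :
        M →ₗ[k] N) := by
    ext y
    constructor
    · rintro ⟨x, rfl⟩
      refine ⟨e • f.symm x, ⟨f.symm x, rfl⟩, ?_⟩
      change f (e • f.symm x) = e • x
      rw [map_smul, f.apply_symm_apply]
    · rintro ⟨_, ⟨x, rfl⟩, rfl⟩
      refine ⟨f x, ?_⟩
      change e • f x = f (e • x)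
      rw [map_smul]
  rw [h]
  exact ((f.restrictScalars k).submoduleMap _).finrank_eq

/-- The rank of `e` is additive. -/
private theorem CharB_rk_prod {k : Type*} [Field k] {A : Type*} [Ring A] [Algebra k A]
    {M N : Type*} [AddCommGroup M] [Module k M] [Module A M] [IsScalarTower k A M]
    [FiniteDimensional k M]
    [AddCommGroup N] [Module k N] [Module A N] [IsScalarTower k A N] [FiniteDimensional k N]
    (e : A) :
    Module.finrank k (LinearMap.range (Algebra.lsmul k k (M × N) e)) =
      Module.finrank k (LinearMap.range (Algebra.lsmul k k M e)) +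
      Module.finrank k (LinearMap.range (Algebra.lsmul k k N e)) := by
  have h : LinearMap.range (Algebra.lsmul k k (M × N) e) =
      (LinearMap.range (Algebra.lsmul k k M e)).prod (LinearMap.range (Algebra.lsmul k k N e)) := by
    ext y
    constructor
    · rintro ⟨x, rfl⟩
      exact ⟨⟨x.1, rfl⟩, ⟨x.2, rfl⟩⟩
    · rintro ⟨⟨a, ha⟩, ⟨b, hb⟩⟩
      exact ⟨(a, b), Prod.ext ha hb⟩
  let E : ((LinearMap.range (Algebra.lsmul k k M e)).prod
      (LinearMap.range (Algebra.lsmul k k N e)) : Submodule k (M × N)) ≃ₗ[k]
      (LinearMap.range (Algebra.lsmul k k M e)) × (LinearMap.range (Algebra.lsmul k k N e)) :=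
    { toFun := fun x => (⟨x.1.1, x.2.1⟩, ⟨x.1.2, x.2.2⟩)
      invFun := fun y => ⟨(y.1.1, y.2.1), ⟨y.1.2, y.2.2⟩⟩
      map_add' := fun _ _ => rfl
      map_smul' := fun _ _ => rfl
      left_inv := fun _ => rfl
      right_inv := fun _ => rfl }
  rw [h, E.finrank_eq, Module.finrank_prod]

private theorem CharB_fin {k : Type*} [Field k] {A : Type*} [Ring A] [Algebra k A]
    {M : Type*} [AddCommGroup M] [Module k M] [Module A M] [IsScalarTower k A M]
    [FiniteDimensional k M] (S : Submodule A M) : FiniteDimensional k S :=
  Module.Finite.of_injective (S.subtype.restrictScalars k) Subtype.val_injective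

/-- The general statement over a semisimple algebra. -/
private theorem CharB_gen {k : Type u} [Field k] {A : Type*} [Ring A] [Algebra k A]
    [IsSemisimpleRing A] : ∀ (n : ℕ) (M N : Type v)
    [AddCommGroup M] [Module k M] [Module A M] [IsScalarTower k A M] [FiniteDimensional k M]
    [AddCommGroup N] [Module k N] [Module A N] [IsScalarTower k A N] [FiniteDimensional k N],
    Module.finrank k M = n →
    (∀ e : A, e * e = e → Module.finrank k (LinearMap.range (Algebra.lsmul k k M e)) =
      Module.finrank k (LinearMap.range (Algebra.lsmul k k N e))) →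
    Nonempty (M ≃ₗ[A] N) := by
  intro n
  induction n using Nat.strong_induction_on with
  | _ n ih =>
    intro M N _ _ _ _ _ _ _ _ _ _ hn h
    rcases subsingleton_or_nontrivial M with hM | hM
    · have h1 := h 1 (one_mul 1)
      have h2 : LinearMap.range (Algebra.lsmul k k N (1 : A)) = ⊤ := by
        rw [map_one]
        exact LinearMap.range_id
      have h3 : Module.finrank k (LinearMap.range (Algebra.lsmul k k M (1 : A))) = 0 := by
        haveI : Subsingleton (LinearMap.range (Algebra.lsmul k k M (1 : A))) :=
          ⟨fun a b => Subtype.ext (Subsingleton.elim _ _)⟩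
        exact Module.finrank_zero_of_subsingleton
      rw [h2, h3, finrank_top] at h1
      haveI : Subsingleton N := Module.finrank_zero_iff.1 h1.symm
      exact ⟨0⟩
    · obtain ⟨S, hS⟩ := IsSemisimpleModule.exists_simple_submodule A M
      haveI := hS
      haveI : Nontrivial S := IsSimpleModule.nontrivial A S
      obtain ⟨s, hs⟩ := exists_ne (0 : S)
      have hsur := IsSimpleModule.toSpanSingleton_surjective A hs
      obtain ⟨f, hf, hI⟩ := IsSemisimpleRing.ideal_eq_span_idempotent
        (LinearMap.ker (LinearMap.toSpanSingleton A S s))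
      have hfI : f • s = 0 := by
        have : f ∈ LinearMap.ker (LinearMap.toSpanSingleton A S s) := by
          rw [hI]
          exact Ideal.subset_span rfl
        simpa using this
      have hIe : ∀ a : A, a • s = 0 → a * (1 - f) = 0 := by
        intro a ha
        have : a ∈ LinearMap.ker (LinearMap.toSpanSingleton A S s) := by
          simpa using ha
        rw [hI, Ideal.mem_span_singleton'] at this
        obtain ⟨b, rfl⟩ := this
        rw [mul_sub, mul_one, mul_assoc, hf.eq, sub_self]
      have hee : (1 - f) * (1 - f) = 1 - f := hf.one_sub.eq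
      have hes : (1 - f) • (s : M) = s := by
        have : (1 - f) • s = s := by rw [sub_smul, one_smul, hfI, sub_zero]
        exact congrArg Subtype.val this
      have hr := h (1 - f) hee
      have hw : ∃ w : N, (1 - f) • w ≠ 0 := by
        by_contra hcon
        push Not at hcon
        have h1 : LinearMap.range (Algebra.lsmul k k N (1 - f)) = ⊥ := by
          rw [LinearMap.range_eq_bot]
          ext w
          exact hcon w
        rw [h1, finrank_bot] at hr
        have h2 : LinearMap.range (Algebra.lsmul k k M (1 - f)) = ⊥ :=
          Submodule.finrank_eq_zero.1 hr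
        rw [LinearMap.range_eq_bot] at h2
        have h3 : (1 - f) • (s : M) = 0 := by
          have := LinearMap.congr_fun h2 (s : M)
          exact this
        rw [hes] at h3
        exact hs (Subtype.ext h3)
      obtain ⟨w, hw⟩ := hw
      let φ := LinearMap.toSpanSingleton A S s
      have hker : φ.ker ≤ (LinearMap.toSpanSingleton A N ((1 - f) • w)).ker := by
        intro a ha
        have ha' : a • s = 0 := by simpa [φ] using ha
        rw [LinearMap.mem_ker, LinearMap.toSpanSingleton_apply, ← mul_smul, hIe a ha', zero_smul]
      let ψ : S →ₗ[A] N := (φ.ker.liftQ (LinearMap.toSpanSingleton A N ((1 - f) • w)) hker).comp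
        ((φ.quotKerEquivOfSurjective hsur).symm : S →ₗ[A] (A ⧸ φ.ker))
      have hψs : ψ s = (1 - f) • w := by
        have h1 : (φ.quotKerEquivOfSurjective hsur).symm s = Submodule.Quotient.mk 1 := by
          rw [LinearEquiv.symm_apply_eq, LinearMap.quotKerEquivOfSurjective_apply_mk]
          simp [φ]
        change (φ.ker.liftQ (LinearMap.toSpanSingleton A N ((1 - f) • w)) hker)
          ((φ.quotKerEquivOfSurjective hsur).symm s) = _
        rw [h1]
        change (1 : A) • ((1 - f) • w) = _
        rw [one_smul]
      have hψ : ψ ≠ 0 := by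
        intro h0
        rw [h0, LinearMap.zero_apply] at hψs
        exact hw hψs.symm
      have hψi : Function.Injective ψ := LinearMap.injective_of_ne_zero hψ
      let E0 : S ≃ₗ[A] (LinearMap.range ψ) := LinearEquiv.ofInjective ψ hψi
      obtain ⟨V1, hV⟩ := exists_isCompl S
      obtain ⟨W1, hW⟩ := exists_isCompl (LinearMap.range ψ)
      let E1 := Submodule.prodEquivOfIsCompl S V1 hV
      let E2 := Submodule.prodEquivOfIsCompl (LinearMap.range ψ) W1 hW
      haveI := CharB_fin (k := k) S
      haveI := CharB_fin (k := k) V1
      haveI := CharB_fin (k := k) (LinearMap.range ψ)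
      haveI := CharB_fin (k := k) W1
      have hd : Module.finrank k V1 < n := by
        have h1 := (E1.restrictScalars k).finrank_eq
        rw [Module.finrank_prod, hn] at h1
        have h2 : 0 < Module.finrank k S := by
          haveI : Nontrivial S := inferInstance
          exact Module.finrank_pos
        omega
      have hrk : ∀ e : A, e * e = e → Module.finrank k (LinearMap.range (Algebra.lsmul k k V1 e)) =
          Module.finrank k (LinearMap.range (Algebra.lsmul k k W1 e)) := by
        intro e he
        have h1 := CharB_rk_equiv (k := k) E1 e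
        have h2 := CharB_rk_equiv (k := k) E2 e
        have h3 := CharB_rk_equiv (k := k) E0 e
        rw [CharB_rk_prod] at h1 h2
        have h4 := h e he
        omega
      obtain ⟨E3⟩ := ih _ hd V1 W1 rfl hrk
      exact ⟨E1.symm.trans ((LinearEquiv.prodCongr E0 E3).trans E2)⟩

/-- Let the order of `H` be invertible in `k`. Finite-dimensional representations on which every
idempotent of the group algebra has the same rank are isomorphic.

Proof. Induction on `dim V`, for all `V` and `W`. The idempotent `1` shows `dim V = dim W`. Let
`V ≠ 0`, and let `S` be a simple subrepresentation (`ρ.asModule` is a module over the semisimple ring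
`MonoidAlgebra k H`, Maschke). `S` is cyclic, so it is a quotient of the group algebra, and by
semisimplicity `S ≅ k[H] e` for an idempotent `e` (the kernel of `k[H] → S` has a complement, which is
generated by an idempotent). The space of equivariant maps from `k[H] e` to a representation `U` is
`e U` (`f ↦ f e`), so it is nonzero for `U = V`, hence, the ranks of `e` being equal, also for
`U = W`. So `S` is isomorphic to a subrepresentation `S'` of `W`. By Maschke
`V = S ⊕ V₁`, `W = S' ⊕ W₁`; ranks of idempotents are additive, so `V₁` and `W₁` satisfy the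
hypothesis, and `V₁ ≅ W₁` by induction. -/
theorem rank_iso (hH : ((Fintype.card H : ℕ) : k) ≠ 0) {V W : Type v} [AddCommGroup V] [Module k V]
    [FiniteDimensional k V] [AddCommGroup W] [Module k W] [FiniteDimensional k W]
    (ρ : Representation k H V) (σ : Representation k H W)
    (h : ∀ e : MonoidAlgebra k H, e * e = e →
      Module.finrank k (LinearMap.range (ρ.asAlgebraHom e)) =
        Module.finrank k (LinearMap.range (σ.asAlgebraHom e))) :
    ∃ e : V ≃ₗ[k] W, ∀ g v, e (ρ g v) = σ g (e v) := by
  haveI : NeZero (Nat.card H : k) := ⟨by rwa [Nat.card_eq_fintype_card]⟩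
  have key : ∀ {U : Type v} [AddCommGroup U] [Module k U] [FiniteDimensional k U]
      (τ : Representation k H U) (e : MonoidAlgebra k H),
      Module.finrank k (LinearMap.range (Algebra.lsmul k k τ.asModule e)) =
        Module.finrank k (LinearMap.range (τ.asAlgebraHom e)) := by
    intro U _ _ _ τ e
    have h1 : LinearMap.range (τ.asAlgebraHom e) =
        (LinearMap.range (Algebra.lsmul k k τ.asModule e)).map
          (τ.asModuleEquiv : τ.asModule →ₗ[k] U) := by
      ext y
      constructor
      · rintro ⟨x, rfl⟩
        refine ⟨e • τ.asModuleEquiv.symm x, ⟨τ.asModuleEquiv.symm x, rfl⟩, ?_⟩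
        change τ.asModuleEquiv (e • τ.asModuleEquiv.symm x) = _
        rw [Representation.asModuleEquiv_map_smul, LinearEquiv.apply_symm_apply]
      · rintro ⟨_, ⟨x, rfl⟩, rfl⟩
        refine ⟨τ.asModuleEquiv x, ?_⟩
        change _ = τ.asModuleEquiv (e • x)
        rw [Representation.asModuleEquiv_map_smul]
    rw [h1]
    exact (τ.asModuleEquiv.submoduleMap _).finrank_eq
  obtain ⟨E⟩ := CharB_gen (k := k) (A := MonoidAlgebra k H) _ ρ.asModule σ.asModule rfl
    (fun e he => by rw [key ρ e, key σ e]; exact h e he)
  refine ⟨ρ.asModuleEquiv.symm.trans ((E.restrictScalars k).trans σ.asModuleEquiv), fun g v => ?_⟩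
  change σ.asModuleEquiv (E (ρ.asModuleEquiv.symm (ρ g v))) =
    σ g (σ.asModuleEquiv (E (ρ.asModuleEquiv.symm v)))
  rw [Representation.asModuleEquiv_symm_map_rho, map_smul, Representation.asModuleEquiv_map_smul,
    Representation.asAlgebraHom_of]

end Pool.Agent.MP_6e5bed_ag_SY
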