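import Pool.Agent.Lib.MP_6e5bed_ag_SY.Char

set_option autoImplicit false
set_option linter.unusedSectionVars false

/-!
# MP_6e5bed_ag (project SYM): lifting idempotents
-/

namespace Pool.Agent.MP_6e5bed_ag_SY

universe u v

variable {H : Type} [Group H] [Fintype H]

/-- The permutation representation on `Y → R`, `(g f)(y) = f(g⁻¹ y)`. -/
def permRep (R : Type u) [CommRing R] (H : Type) [Group H] (Y : Type) [MulAction H Y] :
    Representation R H (Y → R) where
  toFun := fun g =>
    { toFun := fun f y => f (g⁻¹ • y)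
      map_add' := fun _ _ => rfl
      map_smul' := fun _ _ => rfl }
  map_one' := by
    ext f y
    simp
  map_mul' := fun g h => by
    ext f y
    simp [mul_smul]

theorem permRep_apply (R : Type u) [CommRing R] (Y : Type) [MulAction H Y] (g : H) (f : Y → R)
    (y : Y) : permRep R H Y g f y = f (g⁻¹ • y) := rfl

private theorem CharL_ker (p N : ℕ) [Fact p.Prime] (hN : 0 < N) (a : ZMod (p ^ N))
    (ha : ZMod.castHom (dvd_pow_self p hN.ne') (ZMod p) a = 0) :
    ∃ b : ZMod (p ^ N), (p : ZMod (p ^ N)) * b = a := by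
  have : NeZero (p ^ N) := ⟨pow_ne_zero N (Fact.out : p.Prime).ne_zero⟩
  have h1 : ((a.val : ℕ) : ZMod (p ^ N)) = a := ZMod.natCast_zmod_val a
  rw [← h1, map_natCast] at ha
  obtain ⟨c, hc⟩ := (ZMod.natCast_eq_zero_iff _ _).1 ha
  refine ⟨c, ?_⟩
  rw [← h1, hc, Nat.cast_mul]

/-- Idempotents of the group algebra over `ℤ/p` lift to idempotents over `ℤ/p^N`.

Proof. The kernel of the surjective ring homomorphism `MonoidAlgebra.mapRangeRingHom` of
`ZMod.castHom` is nil of bounded index (its elements are `p` times an element, or have all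
coefficients nilpotent and the ideal of `ℤ/p^N` is nilpotent). Mathlib:
`exists_isIdempotentElem_eq_of_ker_isNilpotent`. -/
theorem exists_idem_lift (p N : ℕ) [Fact p.Prime] (hN : 0 < N)
    (e : MonoidAlgebra (ZMod p) H) (he : e * e = e) :
    ∃ f : MonoidAlgebra (ZMod (p ^ N)) H, f * f = f ∧ ∀ g : H,
      (ZMod.castHom (dvd_pow_self p hN.ne') (ZMod p)) (f.coeff g) = e.coeff g := by
  classical
  set φ : ZMod (p ^ N) →+* ZMod p := ZMod.castHom (dvd_pow_self p hN.ne') (ZMod p) with hφ
  have hker : ∀ x ∈ RingHom.ker (MonoidAlgebra.mapRingHom H φ), IsNilpotent x := by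
    intro x hx
    rw [RingHom.mem_ker] at hx
    have h1 : ∀ h : H, ∃ b : ZMod (p ^ N), (p : ZMod (p ^ N)) * b = x.coeff h := by
      intro h
      apply CharL_ker p N hN
      have h2 := congrArg (fun z : MonoidAlgebra (ZMod p) H => z.coeff h) hx
      simp only [MonoidAlgebra.coeff_mapRingHom] at h2
      exact h2
    choose b hb using h1
    have h3 : x = (p : MonoidAlgebra (ZMod (p ^ N)) H) *
        MonoidAlgebra.ofCoeff (Finsupp.equivFunOnFinite.symm b) := by
      apply MonoidAlgebra.coeff_injective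
      ext h
      rw [← nsmul_eq_mul, ← hb h, ← nsmul_eq_mul]
      rfl
    refine ⟨N, ?_⟩
    rw [h3, (Nat.cast_commute p _).mul_pow, ← Nat.cast_pow]
    have h4 : ((p ^ N : ℕ) : MonoidAlgebra (ZMod (p ^ N)) H) = 0 := by
      have h5 : ((p ^ N : ℕ) : MonoidAlgebra (ZMod (p ^ N)) H) =
          algebraMap (ZMod (p ^ N)) _ ((p ^ N : ℕ) : ZMod (p ^ N)) := by
        rw [map_natCast]
      rw [h5, ZMod.natCast_self, map_zero]
    rw [h4, zero_mul]
  have hrange : e ∈ (MonoidAlgebra.mapRingHom H φ).range := by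
    have h1 : ∀ h : H, ∃ a : ZMod (p ^ N), φ a = e.coeff h := fun h =>
      ZMod.castHom_surjective (dvd_pow_self p hN.ne') _
    choose a ha using h1
    refine ⟨MonoidAlgebra.ofCoeff (Finsupp.equivFunOnFinite.symm a), ?_⟩
    apply MonoidAlgebra.coeff_injective
    ext h
    rw [MonoidAlgebra.coeff_mapRingHom]
    exact ha h
  obtain ⟨f, hf, hfe⟩ := exists_isIdempotentElem_eq_of_ker_isNilpotent
    (MonoidAlgebra.mapRingHom H φ) hker e hrange he
  refine ⟨f, hf, fun g => ?_⟩
  rw [← hfe, MonoidAlgebra.coeff_mapRingHom]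

end Pool.Agent.MP_6e5bed_ag_SY
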