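import Pool.Agent.Lib.MP_6e5bed_ag_SY.CharL

set_option autoImplicit false
set_option linter.unusedSectionVars false

/-!
# MP_6e5bed_ag (project SYM): ranks of idempotents on permutation modules
-/

namespace Pool.Agent.MP_6e5bed_ag_SY

universe u v

variable {H : Type} [Group H] [Fintype H]

private theorem CharP_span {R k Y : Type} [CommRing R] [Nontrivial R] [Field k] [Fintype Y]
    (π : R →+* k) (P : Submodule R (Y → R)) [Module.Free R P] [Module.Finite R P]
    (P' : Submodule k (Y → k)) (h : ∀ g ∈ P', ∃ f ∈ P, g = fun y => π (f y)) :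
    Module.finrank k P' ≤ Module.finrank R P := by
  classical
  let b := Module.Free.chooseBasis R P
  let v : Module.Free.ChooseBasisIndex R P → (Y → k) := fun i y => π ((b i : Y → R) y)
  have h1 : P' ≤ Submodule.span k (Set.range v) := by
    intro g hg
    obtain ⟨f, hf, rfl⟩ := h g hg
    have h2 : f = ∑ i, b.repr ⟨f, hf⟩ i • (b i : Y → R) := by
      have h3 := congrArg P.subtype (b.sum_repr ⟨f, hf⟩)
      rw [map_sum] at h3
      refine h3.symm.trans (Finset.sum_congr rfl fun i _ => ?_)
      exact map_smul P.subtype _ _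
    have h4 : (fun y => π (f y)) = ∑ i, π (b.repr ⟨f, hf⟩ i) • v i := by
      funext y
      have h5 := congrFun h2 y
      rw [Finset.sum_apply] at h5
      rw [Finset.sum_apply, h5, map_sum]
      refine Finset.sum_congr rfl fun i _ => ?_
      rw [Pi.smul_apply, smul_eq_mul, map_mul, Pi.smul_apply, smul_eq_mul]
    rw [h4]
    exact Submodule.sum_mem _ fun i _ =>
      Submodule.smul_mem _ _ (Submodule.subset_span ⟨i, rfl⟩)
  refine (Submodule.finrank_mono h1).trans ?_
  refine (finrank_range_le_card (R := k) v).trans (le_of_eq ?_)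
  exact (Module.finrank_eq_card_chooseBasisIndex R P).symm

private theorem CharP_rank {R k Y : Type} [CommRing R] [IsLocalRing R] [Field k] [Fintype Y]
    (π : R →+* k) (hπ : Function.Surjective π) (F : Module.End R (Y → R)) (hF : F * F = F)
    (E : Module.End k (Y → k)) (hE : E * E = E)
    (hc : ∀ f : Y → R, E (fun y => π (f y)) = fun y => π (F f y)) :
    LinearMap.trace R (Y → R) F = (Module.finrank k (LinearMap.range E) : R) := by
  classical
  have hF' : ∀ x, F (F x) = F x := fun x => LinearMap.congr_fun hF x
  have hE' : ∀ x, E (E x) = E x := fun x => LinearMap.congr_fun hE x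
  have hP : LinearMap.IsProj (LinearMap.range F) F :=
    LinearMap.IsIdempotentElem.isProj_range F hF
  let s₁ : (Y → R) →ₗ[R] LinearMap.range F := LinearMap.rangeRestrict F
  let s₂ : (Y → R) →ₗ[R] LinearMap.ker F :=
    LinearMap.codRestrict (LinearMap.ker F) (LinearMap.id - F) fun x => by
      rw [LinearMap.mem_ker, LinearMap.sub_apply, LinearMap.id_apply, map_sub, hF', sub_self]
  have hs₁ : s₁.comp (LinearMap.range F).subtype = LinearMap.id := by
    ext1 ⟨x, hx⟩
    obtain ⟨y, rfl⟩ := hx
    exact Subtype.ext (hF' y)
  have hs₂ : s₂.comp (LinearMap.ker F).subtype = LinearMap.id := by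
    ext1 ⟨x, hx⟩
    refine Subtype.ext ?_
    change x - F x = x
    rw [LinearMap.mem_ker.1 hx, sub_zero]
  have hsurj₂ : Function.Surjective s₂ := fun x => ⟨x, LinearMap.congr_fun hs₂ x⟩
  have _ : Module.Projective R (LinearMap.range F) :=
    Module.Projective.of_split (LinearMap.range F).subtype s₁ hs₁
  have _ : Module.Projective R (LinearMap.ker F) :=
    Module.Projective.of_split (LinearMap.ker F).subtype s₂ hs₂
  have _ : Module.Finite R (LinearMap.range F) := inferInstance
  have _ : Module.Finite R (LinearMap.ker F) := Module.Finite.of_surjective s₂ hsurj₂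
  have _ : Module.Free R (LinearMap.range F) := Module.free_of_flat_of_isLocalRing
  have _ : Module.Free R (LinearMap.ker F) := Module.free_of_flat_of_isLocalRing
  rw [hP.trace]
  congr 1
  have hlift : ∀ g : Y → k, ∃ f : Y → R, g = fun y => π (f y) := by
    intro g
    choose f hf using fun y => hπ (g y)
    exact ⟨f, funext fun y => (hf y).symm⟩
  have h1 : Module.finrank k (LinearMap.range E) ≤ Module.finrank R (LinearMap.range F) := by
    refine CharP_span π _ _ ?_
    rintro g ⟨u, rfl⟩
    obtain ⟨f, rfl⟩ := hlift u
    exact ⟨F f, ⟨f, rfl⟩, hc f⟩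
  have h2 : Module.finrank k (LinearMap.ker E) ≤ Module.finrank R (LinearMap.ker F) := by
    refine CharP_span π _ _ ?_
    intro g hg
    obtain ⟨f, rfl⟩ := hlift g
    refine ⟨f - F f, ?_, ?_⟩
    · rw [LinearMap.mem_ker, map_sub, hF', sub_self]
    · funext y
      have h3 := congrFun ((hc f).symm.trans (LinearMap.mem_ker.1 hg)) y
      rw [Pi.sub_apply, map_sub]
      rw [show π (F f y) = 0 from h3, sub_zero]
  have h3 : Module.finrank R (LinearMap.range F) + Module.finrank R (LinearMap.ker F) =
      Fintype.card Y := by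
    rw [← Module.finrank_prod,
      (Submodule.prodEquivOfIsCompl _ _ hP.isCompl).finrank_eq, Module.finrank_fintype_fun_eq_card]
  have h4 : Module.finrank k (LinearMap.range E) + Module.finrank k (LinearMap.ker E) =
      Fintype.card Y := by
    rw [LinearMap.finrank_range_add_finrank_ker, Module.finrank_fintype_fun_eq_card]
  omega

private theorem CharP_asAlg {R : Type} [CommRing R] (Y : Type) [MulAction H Y]
    (x : MonoidAlgebra R H) :
    (permRep R H Y).asAlgebraHom x = ∑ g : H, x.coeff g • permRep R H Y g := by
  rw [Representation.asAlgebraHom_def, MonoidAlgebra.lift_apply]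
  exact Finsupp.sum_fintype _ _ fun g => zero_smul _ _

private theorem CharP_trace {R : Type} [CommRing R] (Y : Type) [Fintype Y] [MulAction H Y]
    (x : MonoidAlgebra R H) :
    LinearMap.trace R (Y → R) ((permRep R H Y).asAlgebraHom x) =
      ∑ g : H, x.coeff g * (fxn Y g : R) := by
  classical
  rw [CharP_asAlg, map_sum]
  refine Finset.sum_congr rfl fun g _ => ?_
  rw [map_smul, smul_eq_mul]
  congr 1
  rw [LinearMap.trace_eq_matrix_trace R (Pi.basisFun R Y), Matrix.trace]
  simp only [Matrix.diag_apply, LinearMap.toMatrix_apply, Pi.basisFun_apply, Pi.basisFun_repr,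
    permRep_apply, Pi.single_apply]
  rw [Finset.sum_boole, fxn, Nat.card_eq_fintype_card, Fintype.card_subtype]
  congr 2
  ext y
  simp only [Finset.mem_filter, Finset.mem_univ, true_and]
  rw [inv_smul_eq_iff]
  exact eq_comm

/-- The rank of an idempotent on a permutation module over `ℤ/p` depends only on the numbers of
fixed points.

Proof. Choose `N ≥ 1` with `p ^ N > Fintype.card Y`; note that `Fintype.card Y = fxn Y 1 =
Fintype.card Y'`. Let `R = ZMod (p ^ N)`, a local ring, and let `f` be an idempotent of the group
algebra over `R` which lifts `e`. The image `P` of `f` on `Y → R` is a direct summand, so it is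
finite projective, hence free over the local ring `R`, and the same holds for the kernel. So the
trace of `f` is the rank of `P` (`LinearMap.IsProj.trace`), and modulo the maximal ideal `P` gives
the image of `e` on `Y → ZMod p`, so `rank P = finrank (range e)` (for example: a basis of `P` and a
basis of the kernel of `f` form a basis of `Y → R`; its reduction is a basis of `Y → ZMod p` which
consists of elements of the range and of the kernel of `e`). The trace of `f` is
`∑ g, f.coeff g * fxn Y g`, the same for `Y` and `Y'`. So the ranks are congruent modulo `p ^ N` and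
at most `Fintype.card Y < p ^ N`, hence equal. -/
theorem rank_perm (p : ℕ) [Fact p.Prime] (Y Y' : Type) [Fintype Y] [MulAction H Y] [Fintype Y']
    [MulAction H Y'] (h : ∀ g : H, fxn Y g = fxn Y' g) (e : MonoidAlgebra (ZMod p) H)
    (he : e * e = e) :
    Module.finrank (ZMod p) (LinearMap.range ((permRep (ZMod p) H Y).asAlgebraHom e)) =
      Module.finrank (ZMod p) (LinearMap.range ((permRep (ZMod p) H Y').asAlgebraHom e)) := by
  classical
  have hp := Fact.out (p := p.Prime)
  obtain ⟨N, hN⟩ : ∃ N, N = Fintype.card Y + 1 := ⟨_, rfl⟩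
  have hN0 : 0 < N := by omega
  have hlt : Fintype.card Y < p ^ N := by
    have h1 : N < p ^ N := Nat.lt_pow_self hp.one_lt
    omega
  have hone : 1 < p ^ N := Nat.one_lt_pow hN0.ne' hp.one_lt
  have _ : Fact (1 < p ^ N) := ⟨hone⟩
  have _ : IsLocalRing (ZMod (p ^ N)) :=
    IsLocalRing.of_surjective' (PadicInt.toZModPow (p := p) N) (ZMod.ringHom_surjective _)
  obtain ⟨f, hf, hfe⟩ := exists_idem_lift p N hN0 e he
  have key : ∀ (Y : Type) [Fintype Y] [MulAction H Y],
      ((Module.finrank (ZMod p) (LinearMap.range ((permRep (ZMod p) H Y).asAlgebraHom e)) : ℕ) :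
        ZMod (p ^ N)) = ∑ g : H, f.coeff g * (fxn Y g : ZMod (p ^ N)) := by
    intro Y _ _
    rw [← CharP_trace]
    symm
    refine CharP_rank (ZMod.castHom (dvd_pow_self p hN0.ne') (ZMod p))
      (ZMod.ringHom_surjective _) _ ?_ _ ?_ fun u => ?_
    · rw [← map_mul, hf]
    · rw [← map_mul, he]
    · funext y
      rw [CharP_asAlg, CharP_asAlg, LinearMap.sum_apply, Finset.sum_apply, LinearMap.sum_apply,
        Finset.sum_apply, map_sum]
      refine Finset.sum_congr rfl fun g _ => ?_
      rw [LinearMap.smul_apply, Pi.smul_apply, smul_eq_mul, LinearMap.smul_apply, Pi.smul_apply,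
        smul_eq_mul, map_mul, hfe]
      rfl
  have hcard : Fintype.card Y' = Fintype.card Y := by
    have h1 : ∀ (Z : Type) [Fintype Z] [MulAction H Z], fxn Z (1 : H) = Fintype.card Z := by
      intro Z _ _
      unfold fxn
      rw [Nat.card_congr (Equiv.subtypeUnivEquiv fun z : Z => one_smul H z),
        Nat.card_eq_fintype_card]
    rw [← h1 Y', ← h1 Y, h]
  have hle : ∀ (Y : Type) [Fintype Y] [MulAction H Y],
      Module.finrank (ZMod p) (LinearMap.range ((permRep (ZMod p) H Y).asAlgebraHom e)) ≤
        Fintype.card Y := by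
    intro Y _ _
    refine (Submodule.finrank_le _).trans (le_of_eq ?_)
    rw [Module.finrank_fintype_fun_eq_card]
  have h1 := (key Y).trans ((Finset.sum_congr rfl fun g _ => by rw [h g]).trans (key Y').symm)
  rw [ZMod.natCast_eq_natCast_iff'] at h1
  rwa [Nat.mod_eq_of_lt ((hle Y).trans_lt hlt),
    Nat.mod_eq_of_lt ((hle Y').trans_lt (by rw [hcard]; exact hlt))] at h1

end Pool.Agent.MP_6e5bed_ag_SY
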