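import Pool.Agent.Lib.MP_6e5bed_ag_SY.CharP
import Pool.Agent.Lib.MP_6e5bed_ag_SY.CharB

set_option autoImplicit false
set_option linter.unusedSectionVars false

/-!
# MP_6e5bed_ag (project SYM): permutation modules over fields in which the group order is invertible
-/

namespace Pool.Agent.MP_6e5bed_ag_SY

universe u v

variable {H : Type} [Group H] [Fintype H]

variable {k : Type u} [Field k]

private theorem CharQ_single {R : Type*} [Field R] (Y : Type) [MulAction H Y] [DecidableEq Y]
    (g : H) (y : Y) :
    (fun z => (Pi.single y 1 : Y → R) (g⁻¹ • z)) = Pi.single (g • y) 1 := by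
  ext z
  simp only [Pi.single_apply, inv_smul_eq_iff]

private theorem CharQ_sum {R : Type*} [Field R] (Y : Type) [Fintype Y] [DecidableEq Y]
    (f : Y → R) : f = ∑ y, f y • (Pi.single y 1 : Y → R) := by
  ext z
  simp [Finset.sum_apply, Pi.single_apply]

/-- From an equivariant isomorphism of permutation modules to matrices. -/
private theorem CharQ_mat {R : Type*} [Field R] (Y Y' : Type) [Fintype Y] [MulAction H Y]
    [Fintype Y'] [MulAction H Y'] (e : (Y → R) ≃ₗ[R] (Y' → R))
    (he : ∀ (g : H) (f : Y → R) (y' : Y'), e (fun y => f (g⁻¹ • y)) y' = e f (g⁻¹ • y')) :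
    ∃ (T : Y' → Y → R) (S : Y → Y' → R), (∀ (g : H) y' y, T (g • y') (g • y) = T y' y) ∧
      (∀ (g : H) y y', S (g • y) (g • y') = S y y') ∧
      (∀ y' z', ∑ y, T y' y * S y z' = open Classical in if y' = z' then 1 else 0) ∧
      ∀ y z, ∑ y', S y y' * T y' z = open Classical in if y = z then 1 else 0 := by
  classical
  have he' : ∀ (g : H) (f : Y' → R) (y : Y), e.symm (fun y' => f (g⁻¹ • y')) y =
      e.symm f (g⁻¹ • y) := by
    intro g f y
    have h1 : (fun y' => f (g⁻¹ • y')) = e (fun y => e.symm f (g⁻¹ • y)) := by
      ext y'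
      rw [he, LinearEquiv.apply_symm_apply]
    rw [h1, LinearEquiv.symm_apply_apply]
  refine ⟨fun y' y => e (Pi.single y 1) y', fun y y' => e.symm (Pi.single y' 1) y, ?_, ?_, ?_, ?_⟩
  · intro g y' y
    show e (Pi.single (g • y) 1) (g • y') = e (Pi.single y 1) y'
    rw [← CharQ_single Y g y, he, inv_smul_smul]
  · intro g y y'
    show e.symm (Pi.single (g • y') 1) (g • y) = e.symm (Pi.single y' 1) y
    rw [← CharQ_single Y' g y', he', inv_smul_smul]
  · intro y' z'
    have h1 := congrArg e (CharQ_sum Y (e.symm (Pi.single z' 1)))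
    rw [LinearEquiv.apply_symm_apply, map_sum] at h1
    have h2 := congrFun h1 y'
    rw [Finset.sum_apply, Pi.single_apply] at h2
    rw [h2]
    exact Finset.sum_congr rfl fun y _ => by
      rw [map_smul, Pi.smul_apply, smul_eq_mul, mul_comm]
  · intro y z
    have h1 := congrArg e.symm (CharQ_sum Y' (e (Pi.single z 1)))
    rw [LinearEquiv.symm_apply_apply, map_sum] at h1
    have h2 := congrFun h1 y
    rw [Finset.sum_apply, Pi.single_apply] at h2
    rw [h2]
    exact Finset.sum_congr rfl fun y' _ => by
      rw [map_smul, Pi.smul_apply, smul_eq_mul, mul_comm]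

/-- If the order of `H` is invertible in `k` then finite `H`-sets with the same numbers of fixed
points have isomorphic permutation modules over `k`, in terms of matrices.

Proof. In characteristic zero this is `perm_matrix`. In characteristic `p` the prime field is
`ZMod p` (`ZMod.algebra k p`, `CharP`), where the order of `H` is invertible too; `rank_iso` and
`rank_perm` give an isomorphism over `ZMod p`, hence matrices `T`, `S` over `ZMod p` as in
`perm_matrix`; take their images in `k`. -/
theorem perm_matrix' (hH : ((Fintype.card H : ℕ) : k) ≠ 0) (Y Y' : Type) [Fintype Y]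
    [MulAction H Y] [Fintype Y'] [MulAction H Y'] (h : ∀ g : H, fxn Y g = fxn Y' g) :
    ∃ (T : Y' → Y → k) (S : Y → Y' → k), (∀ (g : H) y' y, T (g • y') (g • y) = T y' y) ∧
      (∀ (g : H) y y', S (g • y) (g • y') = S y y') ∧
      (∀ y' z', ∑ y, T y' y * S y z' = open Classical in if y' = z' then 1 else 0) ∧
      ∀ y z, ∑ y', S y y' * T y' z = open Classical in if y = z then 1 else 0 := by
  classical
  rcases CharP.char_is_prime_or_zero k (ringChar k) with hp | hp
  · haveI : Fact (ringChar k).Prime := ⟨hp⟩
    set p := ringChar k with hpdef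
    have φ : ZMod p →+* k := ZMod.castHom (dvd_refl p) k
    have hH' : ((Fintype.card H : ℕ) : ZMod p) ≠ 0 := by
      intro h0
      apply hH
      have h1 := congrArg φ h0
      rwa [map_natCast, map_zero] at h1
    obtain ⟨e, he⟩ := rank_iso hH' (permRep (ZMod p) H Y) (permRep (ZMod p) H Y')
      (fun e he => rank_perm p Y Y' h e he)
    obtain ⟨T, S, h1, h2, h3, h4⟩ := CharQ_mat Y Y' e (fun g f y' => congrFun (he g f) y')
    refine ⟨fun y' y => φ (T y' y), fun y y' => φ (S y y'), fun g y' y => ?_, fun g y y' => ?_,
      fun y' z' => ?_, fun y z => ?_⟩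
    · exact congrArg φ (h1 g y' y)
    · exact congrArg φ (h2 g y y')
    · have h5 := congrArg φ (h3 y' z')
      rw [map_sum] at h5
      simp only [map_mul] at h5
      rw [h5]
      split_ifs
      · exact map_one φ
      · exact map_zero φ
    · have h5 := congrArg φ (h4 y z)
      rw [map_sum] at h5
      simp only [map_mul] at h5
      rw [h5]
      split_ifs
      · exact map_one φ
      · exact map_zero φ
  · haveI : CharP k 0 := by
      have h1 : CharP k (ringChar k) := ringChar.charP k
      rwa [hp] at h1
    haveI : CharZero k := CharP.charP_to_charZero k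
    exact perm_matrix Y Y' h

end Pool.Agent.MP_6e5bed_ag_SY
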