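import Pool.Agent.Lib.MP_6e5bed_ag_KC.BUa
import Pool.Agent.Lib.MP_6e5bed_ag_KC.HKun
import Pool.Agent.Lib.MP_6e5bed_ag_CV.FCRes
import Pool.Agent.Lib.MP_6e5bed_ag_NC.CatSym

set_option autoImplicit false
set_option linter.unusedSectionVars false

/-!
# MP_6e5bed_ag (project SYM): the morphism given by a bimodule with finite cohomology
-/

namespace Pool.Agent.MP_6e5bed_ag_SY

open Pool.Agent.MP_6e5bed_ag_NC
open CategoryTheory MonoidalCategory

universe u

variable {k : Type u} [Field k] {X Y Z X' Y' : SP k}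

/-- The morphism given by a bimodule (with finite-dimensional cohomology). -/
noncomputable def cl {X Y : SP k} (M : Bim X.alg Y.alg) : X ⟶ Y := ecl M

theorem hasRes_of_finCoh {M : Bim X.alg Y.alg} (h : M.dg.FinCoh) : HasRes M :=
  HasRes.of_finCoh X.smooth Y.smooth M h

/-- Proof. `ecl_eq`, `rcls_perf`. -/
theorem cl_perf {M : Bim X.alg Y.alg} (h : Perf M) : cl M = (cls M h : K0Q X.alg Y.alg) :=
  (ecl_eq h.hasRes).trans (rcls_perf h h.hasRes)

/-- Perfect bimodules over proper dg algebras have finite-dimensional cohomology. -/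
theorem perf_finCoh {M : Bim X.alg Y.alg} (h : Perf M) : M.dg.FinCoh := by
  induction h with
  | free =>
    have h1 : (X.alg.tensor Y.alg).dg.FinCoh :=
      (proper_iff (X.alg.tensor Y.alg)).1 (X.proper.tensor Y.proper)
    exact h1
  | contr h => exact FinCoh.of_acyc h.acyc
  | mid h _ _ h' h'' => exact FinCoh.mid h h' h''
  | left h _ _ h' h'' => exact FinCoh.left h h' h''
  | right h _ _ h' h'' => exact FinCoh.right h h' h''
  | summand h _ h' => exact FinCoh.summand h h'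

private theorem Cl_finCoh {M : Bim X.alg Y.alg} (h : HasRes M) : M.dg.FinCoh := by
  obtain ⟨P, φ, hP, hφ⟩ := h
  exact (QIso.finCoh φ hφ).1 (perf_finCoh hP)

theorem cl_iso {M N : Bim X.alg Y.alg} (h : BIso M N) : cl M = cl N := ecl_iso h

theorem cl_qiso {M N : Bim X.alg Y.alg} (φ : GMap 0 M N) (h : QIso φ) : cl M = cl N :=
  ecl_qiso φ h

theorem cl_diag : cl (diag X.alg) = 𝟙 X :=
  (ecl_eq X.smooth.hasRes_diag).trans (rcls_diag X.smooth X.proper X.smooth.hasRes_diag)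

theorem cl_comp {M : Bim X.alg Y.alg} {N : Bim Y.alg Z.alg} (hM : M.dg.FinCoh)
    (hN : N.dg.FinCoh) (hf : RFlat M) : (tb M N).dg.FinCoh ∧ cl M ≫ cl N = cl (tb M N) := by
  obtain ⟨h1, h2⟩ := ecl_tb Y.proper (hasRes_of_finCoh hM) (hasRes_of_finCoh hN) hf
  exact ⟨Cl_finCoh h1, h2⟩

theorem cl_comp' {M : Bim X.alg Y.alg} {N : Bim Y.alg Z.alg} (hM : M.dg.FinCoh)
    (hN : N.dg.FinCoh) (hf : LPerf N) : (tb M N).dg.FinCoh ∧ cl M ≫ cl N = cl (tb M N) := by
  obtain ⟨h1, h2⟩ := ecl_tb_lperf Y.proper (hasRes_of_finCoh hM) (hasRes_of_finCoh hN) hf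
  exact ⟨Cl_finCoh h1, h2⟩

theorem cl_ext {M' M M'' : Bim X.alg Y.alg} (h : IsExt M' M M'') (h' : M'.dg.FinCoh)
    (h'' : M''.dg.FinCoh) : cl M = cl M' + cl M'' :=
  ecl_ses h.isSes (hasRes_of_finCoh h') (hasRes_of_finCoh h'')

theorem cl_contr {M : Bim X.alg Y.alg} (h : Contr M) : cl M = 0 := ecl_acyc h.acyc

theorem box_finCoh {M : Bim X.alg Y.alg} {N : Bim X'.alg Y'.alg} (hM : M.dg.FinCoh)
    (hN : N.dg.FinCoh) : (box M N).dg.FinCoh :=
  finCoh_box hM hN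

theorem cl_box {M : Bim X.alg Y.alg} {N : Bim X'.alg Y'.alg} (hM : M.dg.FinCoh)
    (hN : N.dg.FinCoh) : cl (X := X ⊗ X') (Y := Y ⊗ Y') (box M N) = cl M ⊗ₘ cl N :=
  ecl_box (hasRes_of_finCoh hM) (hasRes_of_finCoh hN)

/-- Proof. `tb` of a perfect bimodule preserves acyclic bimodules (`clos_acycL`, `rac_iff`). -/
theorem perf_rflat {A B : DGA k} {M : Bim A B} (h : Perf M) : RFlat M :=
  fun _ _ hY => (clos_acycL h (rac_iff.2 hY)).acyc

/-- The composition with an isomorphism of dg algebras. -/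
theorem cl_ofIso {M : Bim X.alg Y.alg} (hM : M.dg.FinCoh) (φ : DIso Y.alg Z.alg) :
    cl M ≫ ofIso φ = cl (res (DHom.id X.alg) φ.inv M) := by
  have h1 : cl M ≫ ofIso φ = K0Q.res (DIso.refl X.alg) φ.symm (cl M) := comp_ofIso (cl M) φ
  rw [h1]
  exact (ecl_resIso (DIso.refl X.alg) φ.symm M).symm

theorem ofIso_cl {M : Bim Y.alg Z.alg} (hM : M.dg.FinCoh) (φ : DIso X.alg Y.alg) :
    ofIso φ ≫ cl M = cl (res φ.hom (DHom.id Z.alg) M) := by
  have h1 : ofIso φ ≫ cl M = K0Q.res φ (DIso.refl Z.alg) (cl M) := ofIso_comp φ (cl M)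
  rw [h1]
  exact (ecl_resIso φ (DIso.refl Z.alg) M).symm

end Pool.Agent.MP_6e5bed_ag_SY
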