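import Pool.Agent.Lib.MP_6e5bed_ag_CV.Corner
import Pool.Agent.Lib.MP_6e5bed_ag_SY.Cl

set_option autoImplicit false
set_option linter.unusedSectionVars false

/-!
# MP_6e5bed_ag (project SYM): corners of a bimodule and filtrations
-/

namespace Pool.Agent.MP_6e5bed_ag_SY

open Pool.Agent.MP_6e5bed_ag_NC
open CategoryTheory

universe u

section alg

variable {k : Type u} [CommRing k] {A B : DGA k} {Q N : Bim A B}

/-- An idempotent graded endomorphism `π` of `Q` such that `π d` is a differential on its image. -/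
structure Cnr (Q : Bim A B) where
  π : GMap 0 Q Q
  idem : ∀ x, π.f (π.f x) = π.f x
  sq : ∀ x, π.f (Q.dg.d (π.f (Q.dg.d (π.f x)))) = 0

variable (c : Cnr Q)

/-- The image of `π`. -/
def Cnr.S : Submodule k Q.M := LinearMap.range c.π.f

theorem Cnr.mem (x : Q.M) : x ∈ c.S ↔ c.π.f x = x := by
  constructor
  · rintro ⟨y, rfl⟩
    exact c.idem y
  · intro h
    exact ⟨x, h⟩

private theorem Cnr_pi_ρ (x : Q.M) (n : ℤ) : Q.dg.ρ (c.π.f x) n = c.π.f (Q.dg.ρ x n) := by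
  have h := (Dg.degMap_iff (X := Q.dg) (Y := Q.dg) (n := 0) c.π.f).1 (fun j v hv => c.π.deg hv)
    x n
  rwa [add_zero] at h

private theorem Cnr_pi_l (a : A.A) (x : Q.M) : c.π.f (Q.l a x) = Q.l a (c.π.f x) := by
  rw [c.π.map_l, Dg.sp_zero]

private theorem Cnr_pi_r (b : B.A) (x : Q.M) : c.π.f (Q.r b x) = Q.r b (c.π.f x) :=
  c.π.map_r b x

private theorem Cnr_fix (x : c.S) : c.π.f x.1 = x.1 := (c.mem x.1).1 x.2

private theorem Cnr_ρ_mem (x : Q.M) (hx : x ∈ c.S) (n : ℤ) : Q.dg.ρ x n ∈ c.S := by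
  rw [c.mem] at hx ⊢
  rw [← Cnr_pi_ρ, hx]

/-- The complex: the image of `π` with the differential `π d`.

Proof. As `Dg.sub` (`CV/Corner.lean`), with `d := (π ∘ d).restrict`. -/
noncomputable def Cnr.dg : Dg k c.S where
  ρ :=
    { toFun := fun v => Finsupp.onFinset (Q.dg.ρ v.1).support (fun n => ⟨Q.dg.ρ v.1 n, by
          exact Cnr_ρ_mem c v.1 v.2 n⟩)
        (fun n hn => by
          rw [Finsupp.mem_support_iff]
          intro h
          exact hn (Subtype.ext h))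
      map_add' := fun v w => by
        ext n
        simp
      map_smul' := fun a v => by
        ext n
        simp }
  sum_ρ := fun v => by
    apply Subtype.ext
    have h2 : ∀ (f : ℤ → c.S) (hf : ∀ n, f n ≠ 0 → n ∈ (Q.dg.ρ v.1).support),
        (Finsupp.onFinset (Q.dg.ρ v.1).support f hf).sum (fun _ w => w) =
          ∑ n ∈ (Q.dg.ρ v.1).support, f n := fun f hf => Finsupp.onFinset_sum hf (fun _ => rfl)
    refine (congrArg Subtype.val (h2 (fun n => ⟨Q.dg.ρ v.1 n, Cnr_ρ_mem c v.1 v.2 n⟩)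
      (fun n hn => by
        rw [Finsupp.mem_support_iff]
        intro h
        exact hn (Subtype.ext h)))).trans ?_
    rw [AddSubmonoidClass.coe_finsetSum]
    exact Q.dg.sum_ρ v.1
  ρ_ρ := fun v n => by
    ext m
    have h := DFunLike.congr_fun (Q.dg.ρ_ρ v.1 n) m
    change Q.dg.ρ (Q.dg.ρ v.1 n) m = _
    rw [h, Finsupp.single_apply, Finsupp.single_apply]
    split_ifs
    · rfl
    · rfl
  d := (c.π.f ∘ₗ Q.dg.d).restrict (fun v _ => ⟨_, rfl⟩)
  d_d := fun v => by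
    apply Subtype.ext
    change c.π.f (Q.dg.d (c.π.f (Q.dg.d v.1))) = 0
    rw [← Cnr_fix c v]
    exact c.sq v.1
  ρ_d := fun v n => by
    apply Subtype.ext
    change Q.dg.ρ (c.π.f (Q.dg.d v.1)) (n + 1) = c.π.f (Q.dg.d (Q.dg.ρ v.1 n))
    rw [Cnr_pi_ρ, Q.dg.ρ_d]

private theorem Cnr_dg_ρ (v : c.S) (n : ℤ) : (c.dg.ρ v n).1 = Q.dg.ρ v.1 n := rfl

theorem Cnr.dg_deg {i : ℤ} {x : c.S} : c.dg.IsDeg i x ↔ Q.dg.IsDeg i x.1 := by
  have key : ∀ m : ℤ, ((Finsupp.single i x : ℤ →₀ c.S) m).1 =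
      (Finsupp.single i x.1 : ℤ →₀ Q.M) m := by
    intro m
    rw [Finsupp.single_apply, Finsupp.single_apply]
    split_ifs
    · rfl
    · rfl
  constructor
  · intro h
    have h' : c.dg.ρ x = Finsupp.single i x := h
    change Q.dg.ρ x.1 = Finsupp.single i x.1
    ext m
    rw [← key m, ← h', Cnr_dg_ρ]
  · intro h
    have h' : Q.dg.ρ x.1 = Finsupp.single i x.1 := h
    change c.dg.ρ x = Finsupp.single i x
    ext m
    rw [Cnr_dg_ρ, key m, h']

theorem Cnr.dg_d (x : c.S) : (c.dg.d x).1 = c.π.f (Q.dg.d x.1) := rfl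

private theorem Cnr_dg_s (x : c.S) : (c.dg.s x).1 = Q.dg.s x.1 := by
  have h1 := Dg.s_degMap_even (X := c.dg) (Y := Q.dg) (n := 0) Even.zero c.S.subtype
    (fun {j v} h => by
      rw [add_zero]
      exact c.dg_deg.1 h) x
  exact h1.symm

private theorem Cnr_pi_s (x : Q.M) : c.π.f (Q.dg.s x) = Q.dg.s (c.π.f x) := by
  have h := c.π.s_f x
  rw [sg_zero, one_smul] at h
  exact h.symm

/-- The corner of `Q` given by `π`. -/
noncomputable def Cnr.bim : Bim A B where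
  M := c.S
  dg := c.dg
  l := LinearMap.mk₂ k (fun a y => ⟨Q.l a y.1, by
      rw [c.mem, Cnr_pi_l, Cnr_fix]⟩)
    (fun a a' y => Subtype.ext (by simp)) (fun c a y => Subtype.ext (by simp))
    (fun a y y' => Subtype.ext (by simp)) (fun c a y => Subtype.ext (by simp))
  r := LinearMap.mk₂ k (fun b y => ⟨Q.r b y.1, by
      rw [c.mem, Cnr_pi_r, Cnr_fix]⟩)
    (fun a a' y => Subtype.ext (by simp)) (fun c a y => Subtype.ext (by simp))
    (fun a y y' => Subtype.ext (by simp)) (fun c a y => Subtype.ext (by simp))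
  l_one := fun m => by
    exact Subtype.ext (Q.l_one m.1)
  r_one := fun m => by
    exact Subtype.ext (Q.r_one m.1)
  l_mul := fun a a' m => by
    exact Subtype.ext (Q.l_mul a a' m.1)
  r_mul := fun b b' m => by
    exact Subtype.ext (Q.r_mul b b' m.1)
  l_r := fun a b m => by
    exact Subtype.ext (Q.l_r a b m.1)
  l_deg := fun {i j a m} ha hm => by
    rw [c.dg_deg] at hm ⊢
    exact Q.l_deg ha hm
  r_deg := fun {i j b m} hm hb => by
    rw [c.dg_deg] at hm ⊢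
    exact Q.r_deg hm hb
  d_l := fun a m => by
    apply Subtype.ext
    change c.π.f (Q.dg.d (Q.l a m.1)) =
      Q.l (A.dg.d a) m.1 + Q.l (A.dg.s a) (c.π.f (Q.dg.d m.1))
    rw [Q.d_l, map_add, Cnr_pi_l, Cnr_pi_l, Cnr_fix]
  d_r := fun b m => by
    apply Subtype.ext
    change c.π.f (Q.dg.d (Q.r b m.1)) =
      Q.r b (c.π.f (Q.dg.d m.1)) + Q.r (B.dg.d b) (c.dg.s m).1
    rw [Q.d_r, map_add, Cnr_pi_r, Cnr_pi_r, Cnr_dg_s, Cnr_pi_s, Cnr_fix]

theorem Cnr.bim_l (a : A.A) (m : c.bim.M) : (c.bim.l a m : c.S).1 = Q.l a (m : c.S).1 := rfl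

theorem Cnr.bim_r (b : B.A) (m : c.bim.M) : (c.bim.r b m : c.S).1 = Q.r b (m : c.S).1 := rfl

theorem Cnr.bim_d (m : c.bim.M) : (c.bim.dg.d m : c.S).1 = c.π.f (Q.dg.d (m : c.S).1) := rfl

/-- the inclusion of the corner (a graded map) -/
private noncomputable def Cnr_inc : GMap 0 c.bim Q where
  f := c.S.subtype
  deg := fun {i m} hm => by
    rw [add_zero]
    exact c.dg_deg.1 hm
  map_l := fun a m => by
    rw [Dg.sp_zero]
    rfl
  map_r := fun b m => rfl

/-- the projection to the corner (a graded map) -/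
private noncomputable def Cnr_pr : GMap 0 Q c.bim where
  f := LinearMap.codRestrict c.S c.π.f (fun x => ⟨x, rfl⟩)
  deg := fun {i m} hm => c.dg_deg.2 (c.π.deg hm)
  map_l := fun a m => by
    apply Subtype.ext
    rw [Dg.sp_zero]
    exact Cnr_pi_l c a m
  map_r := fun b m => Subtype.ext (Cnr_pi_r c b m)

private theorem Cnr_inc_f (x : c.bim.M) : (Cnr_inc c).f x = (x : c.S).1 := rfl

private theorem Cnr_pr_f (x : Q.M) : ((Cnr_pr c).f x : c.S).1 = c.π.f x := rfl

/-- Proof. The restriction of `φ` to the image of `π`. -/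
theorem Cnr.to_biso (φ : GMap 0 Q N) (hi : ∀ x, c.π.f x = x → φ.f x = 0 → x = 0)
    (hs : ∀ n, ∃ x, c.π.f x = x ∧ φ.f x = n)
    (hd : ∀ x, c.π.f x = x → N.dg.d (φ.f x) = φ.f (c.π.f (Q.dg.d x))) : BIso c.bim N := by
  refine BIso.of_bij ((Cnr_inc c).comp φ (add_zero 0)) ?_ ?_
  · refine LinearMap.ext (fun x => ?_)
    rw [GMap.dd_apply, sg_zero, one_smul, LinearMap.zero_apply, sub_eq_zero, GMap.comp_f,
      GMap.comp_f]
    exact hd _ (Cnr_fix c x)
  · constructor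
    · intro x y hxy
      apply Subtype.ext
      rw [← sub_eq_zero]
      refine hi _ ?_ ?_
      · rw [map_sub]
        exact congrArg₂ (· - ·) (Cnr_fix c x) (Cnr_fix c y)
      · rw [map_sub, sub_eq_zero]
        exact hxy
    · intro n
      obtain ⟨x, hx, hn⟩ := hs n
      exact ⟨⟨x, (c.mem x).2 hx⟩, hn⟩

theorem Cnr.from_biso (φ : GMap 0 N Q) (hi : Function.Injective φ.f)
    (hs : ∀ x, (∃ n, φ.f n = x) ↔ c.π.f x = x)
    (hd : ∀ n, φ.f (N.dg.d n) = c.π.f (Q.dg.d (φ.f n))) : BIso N c.bim := by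
  have hfix : ∀ n, c.π.f (φ.f n) = φ.f n := fun n => (hs _).1 ⟨n, rfl⟩
  refine BIso.of_bij (φ.comp (Cnr_pr c) (add_zero 0)) ?_ ?_
  · refine LinearMap.ext (fun x => ?_)
    rw [GMap.dd_apply, sg_zero, one_smul, LinearMap.zero_apply, sub_eq_zero]
    apply Subtype.ext
    change c.π.f (Q.dg.d (c.π.f (φ.f x))) = c.π.f (φ.f (N.dg.d x))
    rw [hfix, hfix, hd]
  · constructor
    · intro x y hxy
      have h : c.π.f (φ.f x) = c.π.f (φ.f y) := congrArg Subtype.val hxy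
      rw [hfix, hfix] at h
      exact hi h
    · intro y
      obtain ⟨n, hn⟩ := (hs (y : c.S).1).2 (Cnr_fix c y)
      refine ⟨n, Subtype.ext ?_⟩
      change c.π.f (φ.f n) = (y : c.S).1
      rw [hfix, hn]

/-- Proof. The map of corners is `x ↦ φ x`. -/
theorem Cnr.biso_biso (c' : Cnr N) (φ : GMap 0 Q N) (hb : Function.Bijective φ.f)
    (hπ : ∀ x, φ.f (c.π.f x) = c'.π.f (φ.f x))
    (hd : ∀ x, φ.f (c.π.f (Q.dg.d (c.π.f x))) = c'.π.f (N.dg.d (c'.π.f (φ.f x)))) :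
    BIso c.bim c'.bim := by
  have hfix : ∀ x : c.S, c'.π.f (φ.f x.1) = φ.f x.1 := fun x => by
    rw [← hπ, Cnr_fix]
  refine c'.from_biso ((Cnr_inc c).comp φ (add_zero 0)) ?_ ?_ ?_
  · intro x y hxy
    exact Subtype.ext (hb.1 hxy)
  · intro y
    constructor
    · rintro ⟨x, rfl⟩
      exact hfix x
    · intro hy
      obtain ⟨x, rfl⟩ := hb.2 y
      rw [← hπ] at hy
      exact ⟨⟨x, (c.mem x).2 (hb.1 hy)⟩, rfl⟩
  · intro x
    have h := hd (x : c.S).1
    rw [Cnr_fix c x, hfix x] at h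
    exact h

theorem Cnr.one (h : ∀ x, c.π.f x = x) : BIso c.bim Q := by
  refine c.to_biso (GMap.id Q) (fun x _ hx => hx) (fun n => ⟨n, h n, rfl⟩) (fun x _ => ?_)
  rw [GMap.id_f, GMap.id_f, h]

/-- A closed idempotent defines a direct summand. -/
theorem Cnr.summand (h : c.π.dd = 0) : IsSummand c.bim Q := by
  have hd : ∀ x, Q.dg.d (c.π.f x) = c.π.f (Q.dg.d x) := fun x => GMap.d_f_zero h x
  refine ⟨Cnr_inc c, Cnr_pr c, ?_, ?_, ?_⟩
  · refine LinearMap.ext (fun x => ?_)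
    rw [GMap.dd_apply, sg_zero, one_smul, LinearMap.zero_apply, sub_eq_zero]
    change Q.dg.d (x : c.S).1 = c.π.f (Q.dg.d (x : c.S).1)
    rw [← hd, Cnr_fix c x]
  · refine LinearMap.ext (fun x => ?_)
    rw [GMap.dd_apply, sg_zero, one_smul, LinearMap.zero_apply, sub_eq_zero]
    apply Subtype.ext
    change c.π.f (Q.dg.d (c.π.f x)) = c.π.f (Q.dg.d x)
    rw [hd, c.idem]
  · intro x
    exact Subtype.ext (Cnr_fix c x)

/-- Two complementary corners of a corner form an extension.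

Proof. The maps are `i x = x`, `p x = π' x`, `r x = π x`, `σ x = x`. The map `i` is closed:
`(π + π') d x = π d x` for `x = π x`, since `π' d π = 0`; `p` is closed: for `x = π x + π' x`,
`π' (π + π') d x = π' d x = π' d π' x`. -/
theorem Cnr.ext (c' c'' : Cnr Q) (hs : ∀ x, c''.π.f x = c.π.f x + c'.π.f x)
    (h1 : ∀ x, c.π.f (c'.π.f x) = 0) (h2 : ∀ x, c'.π.f (c.π.f x) = 0)
    (h3 : ∀ x, c'.π.f (Q.dg.d (c.π.f x)) = 0) : IsExt c.bim c''.bim c'.bim := by
  have e1 : ∀ x, c''.π.f (c.π.f x) = c.π.f x := fun x => by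
    rw [hs, c.idem, h2, add_zero]
  have e2 : ∀ x, c''.π.f (c'.π.f x) = c'.π.f x := fun x => by
    rw [hs, h1, c'.idem, zero_add]
  have e3 : ∀ x, c.π.f (c''.π.f x) = c.π.f x := fun x => by
    rw [hs, map_add, c.idem, h1, add_zero]
  have e4 : ∀ x, c'.π.f (c''.π.f x) = c'.π.f x := fun x => by
    rw [hs, map_add, c'.idem, h2, zero_add]
  refine ⟨(Cnr_inc c).comp (Cnr_pr c'') (add_zero 0), (Cnr_inc c'').comp (Cnr_pr c') (add_zero 0),
    (Cnr_inc c'').comp (Cnr_pr c) (add_zero 0), (Cnr_inc c').comp (Cnr_pr c'') (add_zero 0),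
    ?_, ?_, ?_, ?_, ?_, ?_, ?_⟩
  · refine LinearMap.ext (fun x => ?_)
    rw [GMap.dd_apply, sg_zero, one_smul, LinearMap.zero_apply, sub_eq_zero]
    apply Subtype.ext
    change c''.π.f (Q.dg.d (c''.π.f (x : c.S).1)) = c''.π.f (c.π.f (Q.dg.d (x : c.S).1))
    rw [e1, ← Cnr_fix c x, e1, hs, h3, add_zero]
  · refine LinearMap.ext (fun x => ?_)
    rw [GMap.dd_apply, sg_zero, one_smul, LinearMap.zero_apply, sub_eq_zero]
    apply Subtype.ext
    change c'.π.f (Q.dg.d (c'.π.f (x : c''.S).1)) =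
      c'.π.f (c''.π.f (Q.dg.d (x : c''.S).1))
    have hx := Cnr_fix c'' x
    rw [hs] at hx
    rw [e4]
    conv_rhs => rw [← hx, map_add, map_add, h3, zero_add]
  · intro x
    apply Subtype.ext
    change c.π.f (c''.π.f (x : c.S).1) = (x : c.S).1
    rw [e3]
    exact Cnr_fix c x
  · intro x
    apply Subtype.ext
    change c'.π.f (c''.π.f (x : c'.S).1) = (x : c'.S).1
    rw [e4]
    exact Cnr_fix c' x
  · intro x
    apply Subtype.ext
    change c'.π.f (c''.π.f (x : c.S).1) = 0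
    rw [e4, ← Cnr_fix c x, h2]
  · intro x
    apply Subtype.ext
    change c.π.f (c''.π.f (x : c'.S).1) = 0
    rw [e3, ← Cnr_fix c' x, h1]
  · intro x
    apply Subtype.ext
    change c''.π.f (c.π.f (x : c''.S).1) + c''.π.f (c'.π.f (x : c''.S).1) = (x : c''.S).1
    rw [e1, e2, ← hs]
    exact Cnr_fix c'' x

end alg

end Pool.Agent.MP_6e5bed_ag_SY
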