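import Pool.Agent.Lib.MP_6e5bed_ag_SY.TwA

set_option autoImplicit false
set_option linter.unusedSectionVars false

/-!
# MP_6e5bed_ag (project SYM): the operators given by finite `G`-sets
-/

namespace Pool.Agent.MP_6e5bed_ag_SY

open Pool.Agent.MP_6e5bed_ag_NC
open CategoryTheory MonoidalCategory

universe u

variable {k : Type u} [Field k] {G : Type} [Group G] [Fintype G] {E F : SP k}
  (Γ : GrA G E.alg) (Y Y' : Type) [Fintype Y] [MulAction G Y] [Fintype Y'] [MulAction G Y']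

/-- The endomorphism of `E` given by the finite `G`-set `Y`: the class of `k[Y] ⊗ E`. -/
noncomputable def TT (Γ : GrA G E.alg) (Y : Type) [Fintype Y] [MulAction G Y] : E ⟶ E :=
  cl (tws Γ Y (diag E.alg))

private theorem TwC_fin (E : SP k) : (diag E.alg).dg.FinCoh := (proper_iff E.alg).1 E.proper

/-- Proof. `cl_comp` with `tws_rperf` (`RPerf.rflat`) and `tws_diag_tb`. -/
theorem TT_cl {M : Bim E.alg F.alg} (hM : M.dg.FinCoh) :
    TT Γ Y ≫ cl M = cl (tws Γ Y M) :=
  (cl_comp (tws_finCoh Γ Y _ (TwC_fin E)) hM (tws_rperf Γ Y).rflat).2.trans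
    (cl_iso (tws_diag_tb Γ Y M))

theorem TT_prod : TT Γ Y ≫ TT Γ Y' = TT Γ (Y × Y') :=
  (TT_cl Γ Y (tws_finCoh Γ Y' _ (TwC_fin E))).trans (cl_iso (tws_prod Γ Y Y' _))

theorem TT_unit : TT Γ Unit = 𝟙 E :=
  (cl_iso (tws_unit Γ _)).trans cl_diag

theorem TT_equiv (e : Y ≃ Y') (he : ∀ (g : G) y, e (g • y) = g • e y) :
    TT Γ Y = TT Γ Y' :=
  cl_iso (tws_equiv Γ Y Y' e he _)

theorem TT_sum : TT Γ (Y ⊕ Y') = TT Γ Y + TT Γ Y' :=
  cl_ext (tws_sum Γ Y Y' _) (tws_finCoh Γ Y _ (TwC_fin E)) (tws_finCoh Γ Y' _ (TwC_fin E))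

section comm

private theorem TwC_s {E F : DGA k} {Γ : GrA G E} {Δ : GrA G F} {M : Bim E F} (q : GrB Γ Δ M)
    (g : G) (x : M.M) : M.dg.s (q.q g x) = q.q g (M.dg.s x) :=
  Dg.s_degMap_even (n := 0) Even.zero (q.q g) (fun h => by
    rw [add_zero]
    exact q.q_deg g h) x

private theorem TwC_sum {V : Type u} [AddCommGroup V] [Module k V] {X : Dg k V} {i : ℤ}
    (f : G → V) (h : ∀ g, X.IsDeg i (f g)) : X.IsDeg i (∑ g, f g) := by
  classical
  refine Finset.sum_induction f (X.IsDeg i) (fun _ _ => Dg.IsDeg.add) (Dg.IsDeg.zero _)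
    fun g _ => h g

private theorem TwC_ql {E F : DGA k} {Γ : GrA G E} {Δ : GrA G F} {M : Bim E F} (q : GrB Γ Δ M)
    (g : G) (e : E.A) (m : M.M) :
    q.q g (M.l e m) = ∑ h, M.l (Γ.p h e) (q.q (h⁻¹ * g) m) := by
  conv_lhs => rw [← Γ.sum_p e, map_sum, LinearMap.sum_apply, map_sum]
  refine Finset.sum_congr rfl fun h _ => ?_
  have h1 := q.q_l h (h⁻¹ * g) e m
  rwa [mul_inv_cancel_left] at h1

private theorem TwC_qr {E F : DGA k} {Γ : GrA G E} {Δ : GrA G F} {M : Bim E F} (q : GrB Γ Δ M)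
    (g : G) (b : F.A) (m : M.M) :
    q.q g (M.r b m) = ∑ h, M.r (Δ.p h b) (q.q (g * h⁻¹) m) := by
  conv_lhs => rw [← Δ.sum_p b, map_sum, LinearMap.sum_apply, map_sum]
  refine Finset.sum_congr rfl fun h _ => ?_
  have h1 := q.q_r (g * h⁻¹) h b m
  rwa [inv_mul_cancel_right] at h1

/-- The bilinear map `m, f ↦ (y ↦ ∑ g, (q g m) f(g⁻¹ y))`. -/
private noncomputable def TwC_B0 {E F : DGA k} {Γ : GrA G E} {Δ : GrA G F} {M : Bim E F}
    (q : GrB Γ Δ M) (Y : Type) [Fintype Y] [MulAction G Y] :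
    M.M →ₗ[k] (Y → F.A) →ₗ[k] (Y → M.M) :=
  LinearMap.mk₂ k (fun m f y => ∑ g, M.r (f (g⁻¹ • y)) (q.q g m))
    (fun m m' f => by
      ext y
      simp [Finset.sum_add_distrib])
    (fun c m f => by
      ext y
      simp [Finset.smul_sum])
    (fun m f f' => by
      ext y
      simp [Finset.sum_add_distrib])
    (fun c m f => by
      ext y
      simp [Finset.smul_sum])

/-- The same map with the types of the bimodules. -/
private noncomputable def TwC_B {E F : DGA k} {Γ : GrA G E} {Δ : GrA G F} {M : Bim E F}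
    (q : GrB Γ Δ M) (Y : Type) [Fintype Y] [MulAction G Y] :
    M.M →ₗ[k] (tws Δ Y (diag F)).M →ₗ[k] (tws Γ Y M).M :=
  TwC_B0 q Y

private theorem TwC_B_apply {E F : DGA k} {Γ : GrA G E} {Δ : GrA G F} {M : Bim E F}
    (q : GrB Γ Δ M) (Y : Type) [Fintype Y] [MulAction G Y] (m : M.M) (f : Y → F.A) (y : Y) :
    (show Y → M.M from TwC_B q Y m (show (tws Δ Y (diag F)).M from f)) y =
      ∑ g, M.r (f (g⁻¹ • y)) (q.q g m) := rfl

private theorem TwC_l {F : DGA k} (Δ : GrA G F) (Y : Type) [Fintype Y] [MulAction G Y] (b : F.A)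
    (f : Y → F.A) (y : Y) :
    (show Y → F.A from (tws Δ Y (diag F)).l b (show (tws Δ Y (diag F)).M from f)) y =
      ∑ h, F.mul (Δ.p h b) (f (h⁻¹ • y)) := tws_l Δ Y (diag F) b f y

private theorem TwC_B_bal {E F : DGA k} {Γ : GrA G E} {Δ : GrA G F} {M : Bim E F}
    (q : GrB Γ Δ M) (Y : Type) [Fintype Y] [MulAction G Y] (m : M.M) (b : F.A)
    (f : (tws Δ Y (diag F)).M) :
    TwC_B q Y (M.r b m) f = TwC_B q Y m ((tws Δ Y (diag F)).l b f) := by
  funext y
  refine (TwC_B_apply q Y _ _ y).trans (Eq.trans ?_ (TwC_B_apply q Y m _ y).symm)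
  have h1 : ∀ g, M.r ((show Y → F.A from f) (g⁻¹ • y)) (q.q g (M.r b m)) =
      ∑ h, M.r (F.mul (Δ.p h b) ((show Y → F.A from f) (g⁻¹ • y))) (q.q (g * h⁻¹) m) := by
    intro g
    rw [TwC_qr, map_sum]
    exact Finset.sum_congr rfl fun h _ => (M.r_mul _ _ _).symm
  have h2 : ∀ g, M.r ((show Y → F.A from (tws Δ Y (diag F)).l b f) (g⁻¹ • y)) (q.q g m) =
      ∑ h, M.r (F.mul (Δ.p h b) ((show Y → F.A from f) (h⁻¹ • g⁻¹ • y))) (q.q g m) := by
    intro g
    refine (congrArg (fun z : F.A => M.r z (q.q g m)) (TwC_l Δ Y b f (g⁻¹ • y))).trans ?_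
    change M.r (∑ h, F.mul (Δ.p h b) ((show Y → F.A from f) (h⁻¹ • g⁻¹ • y))) (q.q g m) = _
    rw [map_sum, LinearMap.sum_apply]
  refine (Finset.sum_congr rfl fun g _ => h1 g).trans
    (Eq.trans ?_ (Finset.sum_congr rfl fun g _ => (h2 g).symm))
  rw [Finset.sum_comm, Finset.sum_comm (s := Finset.univ) (t := Finset.univ)
      (f := fun g h => M.r (F.mul (Δ.p h b) ((show Y → F.A from f) (h⁻¹ • g⁻¹ • y))) (q.q g m))]
  refine Finset.sum_congr rfl fun h _ => ?_
  refine Fintype.sum_equiv (Equiv.mulRight h⁻¹) _ _ fun g => ?_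
  rw [Equiv.coe_mulRight, mul_inv_rev, inv_inv, mul_smul, inv_smul_smul]

/-- The inverse map. -/
private noncomputable def TwC_I0 {E F : DGA k} {Γ : GrA G E} {Δ : GrA G F} {M : Bim E F}
    (q : GrB Γ Δ M) (Y : Type) [Fintype Y] [MulAction G Y] :
    (Y → M.M) →ₗ[k] (tb M (tws Δ Y (diag F))).M := by
  classical
  exact ∑ y : Y, ∑ g : G, (((tmB M (tws Δ Y (diag F))).flip
    (Pi.single (g⁻¹ • y) F.one : Y → F.A)).comp (q.q g)).comp (LinearMap.proj y)

/-- The inverse map with the type of the bimodule. -/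
private noncomputable def TwC_I {E F : DGA k} {Γ : GrA G E} {Δ : GrA G F} {M : Bim E F}
    (q : GrB Γ Δ M) (Y : Type) [Fintype Y] [MulAction G Y] :
    (tws Γ Y M).M →ₗ[k] (tb M (tws Δ Y (diag F))).M := TwC_I0 q Y

open Classical in
private theorem TwC_I0_single {E F : DGA k} {Γ : GrA G E} {Δ : GrA G F} {M : Bim E F}
    (q : GrB Γ Δ M) (Y : Type) [Fintype Y] [MulAction G Y] (y : Y) (x : M.M) :
    TwC_I0 q Y (Pi.single y x) = ∑ g : G, tm (M := M) (N := tws Δ Y (diag F)) (q.q g x)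
      (Pi.single (g⁻¹ • y) F.one : Y → F.A) := by
  rw [TwC_I0, LinearMap.sum_apply, Finset.sum_eq_single y]
  · rw [LinearMap.sum_apply]
    refine Finset.sum_congr rfl fun g _ => ?_
    rw [LinearMap.comp_apply, LinearMap.comp_apply, LinearMap.proj_apply, Pi.single_eq_same]
    rfl
  · intro z _ hz
    rw [LinearMap.sum_apply]
    refine Finset.sum_eq_zero fun g _ => ?_
    rw [LinearMap.comp_apply, LinearMap.proj_apply, Pi.single_eq_of_ne hz, map_zero]
  · intro h
    exact absurd (Finset.mem_univ y) h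

open Classical in
private theorem TwC_I_single {E F : DGA k} {Γ : GrA G E} {Δ : GrA G F} {M : Bim E F}
    (q : GrB Γ Δ M) (Y : Type) [Fintype Y] [MulAction G Y] (y : Y) (x : M.M) :
    TwC_I q Y (Pi.single y x : Y → M.M) =
      ∑ g : G, tm (M := M) (N := tws Δ Y (diag F)) (q.q g x)
      (Pi.single (g⁻¹ • y) F.one : Y → F.A) := TwC_I0_single q Y y x

/-- The map, as a graded map. -/
private noncomputable def TwC_φ {E F : DGA k} {Γ : GrA G E} {Δ : GrA G F} {M : Bim E F}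
    (q : GrB Γ Δ M) (Y : Type) [Fintype Y] [MulAction G Y] :
    GMap 0 (tb M (tws Δ Y (diag F))) (tws Γ Y M) where
  f := tlift (TwC_B q Y) (TwC_B_bal q Y)
  deg := fun {i x} hx => by
    refine tb_degMap (M := M) (N := tws Δ Y (diag F)) (Z := (tws Γ Y M).dg) (n := 0) _
      (fun {i j v w} hv hw => ?_) hx
    rw [tlift_tm]
    refine dgPi_deg.2 fun y => ?_
    rw [add_zero]
    have h1 : M.dg.IsDeg (i + j) (∑ g, M.r ((show Y → F.A from w) (g⁻¹ • y)) (q.q g v)) :=
      TwC_sum _ fun g => M.r_deg (q.q_deg g hv) (dgPi_deg.1 hw (g⁻¹ • y))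
    exact h1
  map_l := fun a => tb_ind (by simp only [map_zero]) (fun x y hx hy => by
      rw [map_add, map_add, hx, hy, map_add, map_add]) (fun m f => by
    rw [tb_l, tlift_tm, tlift_tm, Dg.sp_zero]
    funext y
    refine (TwC_B_apply q Y _ _ y).trans ?_
    refine Eq.trans ?_ (tws_l Γ Y M a _ y).symm
    have h1 : ∀ g, M.r ((show Y → F.A from f) (g⁻¹ • y)) (q.q g (M.l a m)) =
        ∑ h, M.r ((show Y → F.A from f) (g⁻¹ • y)) (M.l (Γ.p h a) (q.q (h⁻¹ * g) m)) := by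
      intro g
      rw [TwC_ql, map_sum]
    have h2 : ∀ h, M.l (Γ.p h a) ((show Y → M.M from TwC_B q Y m f) (h⁻¹ • y)) =
        ∑ g, M.r ((show Y → F.A from f) (g⁻¹ • h⁻¹ • y)) (M.l (Γ.p h a) (q.q g m)) := by
      intro h
      refine (congrArg (M.l (Γ.p h a)) (TwC_B_apply q Y m f (h⁻¹ • y))).trans ?_
      rw [map_sum]
      exact Finset.sum_congr rfl fun g _ => M.l_r _ _ _
    refine (Finset.sum_congr rfl fun g _ => h1 g).trans
      (Eq.trans ?_ (Finset.sum_congr rfl fun g _ => (h2 g).symm))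
    rw [Finset.sum_comm]
    refine Finset.sum_congr rfl fun h _ => ?_
    refine Fintype.sum_equiv (Equiv.mulLeft h⁻¹) _ _ fun g => ?_
    rw [Equiv.coe_mulLeft, mul_inv_rev, inv_inv, mul_smul, smul_inv_smul])
  map_r := fun b => tb_ind (by simp only [map_zero]) (fun x y hx hy => by
      rw [map_add, map_add, hx, hy, map_add, map_add]) (fun m f => by
    rw [tb_r, tlift_tm, tlift_tm]
    funext y
    refine (TwC_B_apply q Y _ _ y).trans ?_
    refine Eq.trans ?_ (tws_r Γ Y M b _ y).symm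
    refine Eq.trans ?_ (congrArg (M.r b) (TwC_B_apply q Y m f y)).symm
    rw [map_sum]
    refine Finset.sum_congr rfl fun g _ => ?_
    exact M.r_mul _ _ _)

open Classical in
private theorem TwC_B_single {E F : DGA k} {Γ : GrA G E} {Δ : GrA G F} {M : Bim E F}
    (q : GrB Γ Δ M) (Y : Type) [Fintype Y] [MulAction G Y] (m : M.M) (h : G) (z : Y) (b : F.A) :
    TwC_B q Y (q.q h m) (Pi.single z b : Y → F.A) =
      (Pi.single (h • z) (M.r b (q.q h m)) : Y → M.M) := by
  funext y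
  refine (TwC_B_apply q Y _ _ y).trans ?_
  rw [Finset.sum_eq_single h]
  · rw [q.q_same]
    by_cases hy : y = h • z
    · subst hy
      rw [inv_smul_smul, Pi.single_eq_same, Pi.single_eq_same]
    · rw [Pi.single_eq_of_ne hy, Pi.single_eq_of_ne, map_zero, LinearMap.zero_apply]
      rintro h0
      apply hy
      rw [← h0, smul_inv_smul]
  · intro g _ hg
    rw [q.q_ne g h m hg, map_zero]
  · intro h0
    exact absurd (Finset.mem_univ h) h0

open Classical in
private theorem TwC_l_single {F : DGA k} (Δ : GrA G F) (Y : Type) [Fintype Y] [MulAction G Y]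
    (c : G) (b : F.A) (z : Y) :
    (tws Δ Y (diag F)).l (Δ.p c b) (Pi.single (c⁻¹ • z) F.one : Y → F.A) =
      (Pi.single z (Δ.p c b) : Y → F.A) := by
  funext y
  refine (TwC_l Δ Y _ _ y).trans ?_
  rw [Finset.sum_eq_single c]
  · rw [Δ.p_same]
    by_cases hy : y = z
    · subst hy
      rw [Pi.single_eq_same, Pi.single_eq_same, F.mul_one]
    · rw [Pi.single_eq_of_ne hy, Pi.single_eq_of_ne, map_zero]
      rintro h0
      exact hy (smul_left_cancel _ h0)
  · intro g _ hg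
    rw [Δ.p_ne g c b hg, map_zero, LinearMap.zero_apply]
  · intro h0
    exact absurd (Finset.mem_univ c) h0

open Classical in
private theorem TwC_left {E F : DGA k} {Γ : GrA G E} {Δ : GrA G F} {M : Bim E F}
    (q : GrB Γ Δ M) (Y : Type) [Fintype Y] [MulAction G Y] (m : M.M) (h c : G) (z : Y)
    (b : F.A) :
    TwC_I q Y (TwC_B q Y (q.q h m) (Pi.single z (Δ.p c b) : Y → F.A)) =
      tm (M := M) (N := tws Δ Y (diag F)) (q.q h m) (Pi.single z (Δ.p c b) : Y → F.A) := by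
  rw [TwC_B_single, TwC_I_single, Finset.sum_eq_single (h * c)]
  · have h1 : q.q (h * c) (M.r (Δ.p c b) (q.q h m)) = M.r (Δ.p c b) (q.q h m) := by
      rw [q.q_r, q.q_same]
    rw [h1, mul_inv_rev, mul_smul, inv_smul_smul]
    refine (tm_r_l (M := M) (N := tws Δ Y (diag F)) _ _ _).trans ?_
    exact congrArg (fun x => tm (M := M) (N := tws Δ Y (diag F)) (q.q h m) x)
      (TwC_l_single Δ Y c b z)
  · intro g _ hg
    have h1 : q.q g (M.r (Δ.p c b) (q.q h m)) = 0 := by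
      rw [← q.q_r, q.q_ne _ _ _ hg]
    rw [h1]
    exact tm_zero_left (M := M) (N := tws Δ Y (diag F)) _
  · intro h0
    exact absurd (Finset.mem_univ _) h0

open Classical in
private theorem TwC_ext {V W A : Type u} [AddCommGroup V] [Module k V] [AddCommGroup W]
    [Module k W] [AddCommGroup A] [Module k A] {q : G → V →ₗ[k] V} (hq : ∀ m, ∑ h, q h m = m)
    {p : G → A →ₗ[k] A} (hp : ∀ a, ∑ c, p c a = a) {Y : Type} [Fintype Y]
    (b b' : V →ₗ[k] (Y → A) →ₗ[k] W)
    (h : ∀ m h z c a, b (q h m) (Pi.single z (p c a)) = b' (q h m) (Pi.single z (p c a)))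
    (m : V) (f : Y → A) : b m f = b' m f := by
  have h1 : ∀ h, b (q h m) = b' (q h m) := fun g => LinearMap.pi_ext fun z a => by
    have h2 : (Pi.single z a : Y → A) = ∑ c, Pi.single z (p c a) := by
      conv_lhs => rw [← hp a]
      exact map_sum (LinearMap.single k (fun _ : Y => A) z) _ _
    rw [h2, map_sum, map_sum]
    exact Finset.sum_congr rfl fun c _ => h m g z c a
  rw [← hq m, map_sum, map_sum, Finset.sum_congr rfl fun g _ => h1 g]

end comm

/-- A bimodule graded on both sides by `G` commutes with the twists.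

Proof. The map `tb M (tws Δ Y (diag F)) → tws Γ Y M` is `m ⊗ f ↦ (y ↦ ∑ g, (q g m) f(g⁻¹ y))`
(right action), its inverse is `f ↦ ∑ y, ∑ g, q g (f(y)) ⊗ single (g⁻¹ y) 1`. -/
theorem tws_comm {E F : DGA k} {Γ : GrA G E} {Δ : GrA G F} {M : Bim E F} (q : GrB Γ Δ M) :
    BIso (tb M (tws Δ Y (diag F))) (tws Γ Y M) := by
  classical
  refine BIso.of_bij (TwC_φ q Y) ?_ ⟨Function.LeftInverse.injective (g := TwC_I q Y) ?_,
    Function.RightInverse.surjective (g := TwC_I q Y) ?_⟩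
  · refine tb_hom_ext fun m f => ?_
    rw [GMap.dd_apply, tb_d, sg_zero, one_smul, LinearMap.zero_apply, sub_eq_zero, map_add]
    change (tws Γ Y M).dg.d (tlift (TwC_B q Y) (TwC_B_bal q Y) (tm m f)) =
      tlift (TwC_B q Y) (TwC_B_bal q Y) (tm (M.dg.d m) f) +
      tlift (TwC_B q Y) (TwC_B_bal q Y) (tm (M.dg.s m) ((tws Δ Y (diag F)).dg.d f))
    rw [tlift_tm, tlift_tm, tlift_tm]
    funext y
    have h1 : (show Y → M.M from (tws Γ Y M).dg.d (TwC_B q Y m f)) y =
        ∑ g, M.dg.d (M.r ((show Y → F.A from f) (g⁻¹ • y)) (q.q g m)) := by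
      refine (congrArg M.dg.d (TwC_B_apply q Y m f y)).trans ?_
      rw [map_sum]
    refine h1.trans ?_
    refine Eq.trans ?_ (congrArg₂ (· + ·) (TwC_B_apply q Y (M.dg.d m) f y)
      (TwC_B_apply q Y (M.dg.s m) ((tws Δ Y (diag F)).dg.d f) y)).symm
    change _ = (∑ g, M.r ((show Y → F.A from f) (g⁻¹ • y)) (q.q g (M.dg.d m))) +
      ∑ g, M.r (F.dg.d ((show Y → F.A from f) (g⁻¹ • y))) (q.q g (M.dg.s m))
    rw [← Finset.sum_add_distrib]
    refine Finset.sum_congr rfl fun g _ => ?_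
    rw [M.d_r, q.q_d, TwC_s]
  · refine tb_ind ?_ ?_ ?_
    · rw [map_zero, map_zero]
    · intro x y hx hy
      rw [map_add, map_add, hx, hy]
    · intro m f
      have h1 := TwC_ext (q := q.q) q.sum_q (p := Δ.p) Δ.sum_p (Y := Y)
        ((TwC_B0 q Y).compr₂ (TwC_I0 q Y)) (tmB M (tws Δ Y (diag F)))
        (fun m h z c a => TwC_left q Y m h c z a) m f
      refine (congrArg (TwC_I q Y) (tlift_tm (TwC_B q Y) (TwC_B_bal q Y) m f)).trans ?_
      exact h1
  · intro f
    have h1 : (show (Y → M.M) →ₗ[k] (Y → M.M) from (TwC_φ q Y).f.comp (TwC_I q Y)) =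
        LinearMap.id := by
      refine LinearMap.pi_ext fun y x => ?_
      refine (congrArg (TwC_φ q Y).f (TwC_I_single q Y y x)).trans ?_
      rw [map_sum]
      have h2 : ∀ g, (TwC_φ q Y).f (tm (M := M) (N := tws Δ Y (diag F)) (q.q g x)
          (Pi.single (g⁻¹ • y) F.one : Y → F.A)) = (Pi.single y (q.q g x) : Y → M.M) := by
        intro g
        refine (tlift_tm (TwC_B q Y) (TwC_B_bal q Y) _ _).trans ?_
        refine (TwC_B_single q Y x g (g⁻¹ • y) F.one).trans ?_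
        rw [smul_inv_smul, M.r_one]
      refine (Finset.sum_congr rfl fun g _ => h2 g).trans ?_
      rw [LinearMap.id_apply]
      conv_rhs => rw [← q.sum_q x]
      exact (map_sum (LinearMap.single k (fun _ : Y => M.M) y) _ _).symm
    exact LinearMap.congr_fun h1 f

/-- Proof. `cl_comp'` with `tws_lperf`, and `TT_cl`. -/
theorem TT_comm {Γ : GrA G E.alg} {Δ : GrA G F.alg} {M : Bim E.alg F.alg} (q : GrB Γ Δ M)
    (hM : M.dg.FinCoh) : TT Γ Y ≫ cl M = cl M ≫ TT Δ Y :=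
  (TT_cl Γ Y hM).trans ((cl_iso (tws_comm Y q)).symm.trans
    (cl_comp' hM (tws_finCoh Δ Y _ (TwC_fin F)) (tws_lperf Δ Y)).2.symm)

end Pool.Agent.MP_6e5bed_ag_SY
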