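import Pool.Agent.Lib.MP_6e5bed_ag_SY.IndG
import Pool.Agent.Lib.MP_6e5bed_ag_SY.TwC

set_option autoImplicit false
set_option linter.unusedSectionVars false

/-!
# MP_6e5bed_ag (project SYM): the morphisms given by a homomorphism of dg algebras
-/

namespace Pool.Agent.MP_6e5bed_ag_SY

open Pool.Agent.MP_6e5bed_ag_NC
open CategoryTheory MonoidalCategory

universe u

variable {k : Type u} [Field k] {B E : SP k}

/-- The restriction along `Φ`, a morphism `E ⟶ B`. -/
noncomputable def up (Φ : DHom B.alg E.alg) : E ⟶ B :=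
  cl (res (DHom.id E.alg) Φ (diag E.alg))

/-- The induction along `Φ`, a morphism `B ⟶ E`. -/
noncomputable def dn (Φ : DHom B.alg E.alg) : B ⟶ E :=
  cl (res Φ (DHom.id E.alg) (diag E.alg))

variable {X Y B' E' C : SP k}

theorem res_finCoh {A A' D D' : DGA k} (φ : DHom A A') (ψ : DHom D D') {M : Bim A' D'}
    (h : M.dg.FinCoh) : (res φ ψ M).dg.FinCoh := h

theorem diag_finCoh (X : SP k) : (diag X.alg).dg.FinCoh := (proper_iff X.alg).1 X.proper

private theorem UpDn_unit {A D : DGA k} (Φ : DHom A D) :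
    (DHom.unit A).comp Φ = DHom.unit D := by
  refine DHom.ext fun (c : k) => ?_
  change Φ.f (c • A.one) = c • D.one
  rw [map_smul, Φ.one]

private theorem UpDn_idc {A D : DGA k} (φ : DHom A D) : (DHom.id A).comp φ = φ :=
  DHom.ext fun _ => rfl

private theorem UpDn_lperf {A D : DGA k} (Φ : DHom A D) :
    LPerf (res (DHom.id D) Φ (diag D)) := by
  have h : fgR (res (DHom.id D) Φ (diag D)) = fgR (diag D) := by
    change res ((DHom.id D).comp (DHom.id D)) ((DHom.unit A).comp Φ) (diag D) =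
      res (DHom.id D) (DHom.unit D) (diag D)
    rw [UpDn_unit, UpDn_idc]
  change Perf (fgR (res (DHom.id D) Φ (diag D)))
  rw [h]
  exact perf_fgR_diag D

private theorem UpDn_rperf {A D : DGA k} (Φ : DHom A D) :
    RPerf (res Φ (DHom.id D) (diag D)) := by
  have h : fgL (res Φ (DHom.id D) (diag D)) = fgL (diag D) := by
    change res ((DHom.unit A).comp Φ) ((DHom.id D).comp (DHom.id D)) (diag D) =
      res (DHom.unit D) (DHom.id D) (diag D)
    rw [UpDn_unit, UpDn_idc]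
  change Perf (fgL (res Φ (DHom.id D) (diag D)))
  rw [h]
  exact perf_fgL_diag D

/-- Proof. As a left module `res id Φ (diag E)` is `E`, so it is `LPerf`; use `cl_comp'` and
`M ⊗_E E ≅ M` (`tb_diag_right`, for the restricted bimodules; the map is `m ⊗ e ↦ m e`). -/
theorem cl_up {M : Bim X.alg E.alg} (hM : M.dg.FinCoh) (Φ : DHom B.alg E.alg) :
    cl M ≫ up Φ = cl (res (DHom.id X.alg) Φ M) := by
  have h1 : cl M ≫ up Φ = cl (tb M (res (DHom.id E.alg) Φ (diag E.alg))) :=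
    (cl_comp' hM (res_finCoh _ _ (diag_finCoh E)) (UpDn_lperf Φ)).2
  rw [h1]
  have h2 : BIso (res (DHom.id X.alg) Φ (tb M (diag E.alg)))
      (tb (res (DHom.id X.alg) (DHom.id E.alg) M) (res (DHom.id E.alg) Φ (diag E.alg))) :=
    res_tb (DHom.id X.alg) Φ M (diag E.alg)
  have h3 : BIso (res (DHom.id X.alg) Φ (tb M (diag E.alg))) (res (DHom.id X.alg) Φ M) :=
    (resF (DHom.id X.alg) Φ).biso (tb_diag_right M)
  exact cl_iso (h2.symm.trans h3)

/-- Proof. As a right module `res Φ id (diag E)` is `E`, so it is `RPerf`; use `cl_comp`. -/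
theorem dn_cl {N : Bim E.alg X.alg} (hN : N.dg.FinCoh) (Φ : DHom B.alg E.alg) :
    dn Φ ≫ cl N = cl (res Φ (DHom.id X.alg) N) := by
  have h1 : dn Φ ≫ cl N = cl (tb (res Φ (DHom.id E.alg) (diag E.alg)) N) :=
    (cl_comp (res_finCoh _ _ (diag_finCoh E)) hN (UpDn_rperf Φ).rflat).2
  rw [h1]
  have h2 : BIso (res Φ (DHom.id X.alg) (tb (diag E.alg) N))
      (tb (res Φ (DHom.id E.alg) (diag E.alg)) (res (DHom.id E.alg) (DHom.id X.alg) N)) :=
    res_tb Φ (DHom.id X.alg) (diag E.alg) N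
  have h3 : BIso (res Φ (DHom.id X.alg) (tb (diag E.alg) N)) (res Φ (DHom.id X.alg) N) :=
    (resF Φ (DHom.id X.alg)).biso (tb_diag_left N)
  exact cl_iso (h2.symm.trans h3)

theorem up_id : up (DHom.id E.alg) = 𝟙 E := by
  have h : up (DHom.id E.alg) = cl (diag E.alg) := rfl
  rw [h]
  exact cl_diag

/-- Proof. `cl_up`. -/
theorem up_comp (Φ : DHom B.alg E.alg) (Ψ : DHom C.alg B.alg) :
    up Φ ≫ up Ψ = up (Ψ.comp Φ) :=
  cl_up (res_finCoh _ _ (diag_finCoh E)) Ψ

/-- Proof. `cl_ofIso` and `cl_diag`. -/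
theorem up_inv (φ : DIso E.alg B.alg) : up φ.inv = ofIso φ := by
  have h1 : cl (diag E.alg) ≫ ofIso φ = up φ.inv := cl_ofIso (diag_finCoh E) φ
  rw [← h1, cl_diag]
  exact Category.id_comp (ofIso φ)

private theorem UpDn_idt {A A' : DGA k} :
    (DHom.id A).tensor (DHom.id A') = DHom.id (A.tensor A') :=
  DHom.ext fun x => by
    change TensorProduct.map LinearMap.id LinearMap.id x = x
    rw [TensorProduct.map_id]
    rfl

/-- Proof. `cl_box`, and `box (diag E) (diag E')` is isomorphic to `diag (E ⊗ E')` (`box_diag` in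
`NC/SmProp.lean`, or the identity map). -/
theorem up_tensor (Φ : DHom B.alg E.alg) (Φ' : DHom B'.alg E'.alg) :
    up Φ ⊗ₘ up Φ' = up (B := B ⊗ B') (E := E ⊗ E') (Φ.tensor Φ') := by
  have h1 : cl (X := E ⊗ E') (Y := B ⊗ B') (box (res (DHom.id E.alg) Φ (diag E.alg))
      (res (DHom.id E'.alg) Φ' (diag E'.alg))) = up Φ ⊗ₘ up Φ' :=
    cl_box (res_finCoh _ _ (diag_finCoh E)) (res_finCoh _ _ (diag_finCoh E'))
  rw [← h1]
  have h2 : BIso (res ((DHom.id E.alg).tensor (DHom.id E'.alg)) (Φ.tensor Φ')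
      (box (diag E.alg) (diag E'.alg)))
      (box (res (DHom.id E.alg) Φ (diag E.alg)) (res (DHom.id E'.alg) Φ' (diag E'.alg))) :=
    res_box (DHom.id E.alg) Φ (DHom.id E'.alg) Φ' (diag E.alg) (diag E'.alg)
  rw [UpDn_idt] at h2
  have h3 : BIso (res (DHom.id (E.alg.tensor E'.alg)) (Φ.tensor Φ')
      (box (diag E.alg) (diag E'.alg)))
      (res (DHom.id (E.alg.tensor E'.alg)) (Φ.tensor Φ') (diag (E.alg.tensor E'.alg))) :=
    (resF (DHom.id (E.alg.tensor E'.alg)) (Φ.tensor Φ')).biso (box_diag E.alg E'.alg)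
  exact cl_iso (X := E ⊗ E') (Y := B ⊗ B') (h2.symm.trans h3)

variable {G : Type} [Group G] [Fintype G] {Γ : GrA G E.alg} {T : Type} [Fintype T]
  [MulAction G T] {x₀ : T} {Φ : DHom B.alg E.alg}

/-- Proof. `cl_comp` with `sta_rperf` and `RPerf.acyc`. -/
theorem up_cl (hΦ : IsSta Γ x₀ Φ) (hX : ∀ x : T, ∃ g : G, g • x₀ = x) {N : Bim B.alg X.alg}
    (hN : N.dg.FinCoh) :
    up Φ ≫ cl N = cl (tb (res (DHom.id E.alg) Φ (diag E.alg)) N) :=
  (cl_comp (res_finCoh _ _ (diag_finCoh E)) hN (sta_rperf hΦ hX).rflat).2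

/-- Restriction and then induction is the twist by the set `T`. Proof. `up_cl` and `ind_tws`. -/
theorem up_dn (hΦ : IsSta Γ x₀ Φ) (hX : ∀ x : T, ∃ g : G, g • x₀ = x) :
    up Φ ≫ dn Φ = TT Γ T :=
  (up_cl hΦ hX (res_finCoh _ _ (diag_finCoh E))).trans (cl_iso (ind_tws hΦ hX))

end Pool.Agent.MP_6e5bed_ag_SY
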