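import Pool.Agent.Lib.MP_6e5bed_ag_SY.Flt
import Pool.Agent.Lib.MP_6e5bed_ag_SY.UpDn
import Pool.Agent.Lib.MP_6e5bed_ag_KC.BTpow

set_option autoImplicit false
set_option linter.unusedSectionVars false

/-!
# MP_6e5bed_ag (project SYM): induction to the symmetric power and restriction
-/

namespace Pool.Agent.MP_6e5bed_ag_SY

open Pool.Agent.MP_6e5bed_ag_NC
open CategoryTheory MonoidalCategory Equiv Pool.Agent.MP_6e5bed_ag

universe u

variable {k : Type u} [Field k]

open Classical in
/-- the projection to the component `g` -/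
private noncomputable def ConA_f {G : Type} [Fintype G] (V : Type u) [AddCommGroup V]
    [Module k V] (g : G) : (G → V) →ₗ[k] (G → V) :=
  (LinearMap.single k (fun _ : G => V) g).comp (LinearMap.proj g)

open Classical in
private theorem ConA_f_apply {G : Type} [Fintype G] {V : Type u} [AddCommGroup V] [Module k V]
    (g : G) (x : G → V) (t : G) : ConA_f (k := k) V g x t = if t = g then x g else 0 := by
  simp [ConA_f, Pi.single_apply]

private theorem ConA_l {G : Type} [Group G] [Fintype G] {D : DGA k} (α : Act G D) (d : D.A)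
    (x : G → D.A) (t : G) :
    crMul α ((crI α).f d) x t = D.mul d (x t) := by
  rw [crMul_apply, Finset.sum_eq_single (1 : G)]
  · rw [crI_f, if_pos rfl, α.a_one, inv_one, one_mul]
  · intro b _ hb
    rw [crI_f, if_neg hb, map_zero, LinearMap.zero_apply]
  · exact fun h => absurd (Finset.mem_univ _) h

private theorem ConA_r {G : Type} [Group G] [Fintype G] {D : DGA k} (α : Act G D) (d : D.A)
    (x : G → D.A) (t : G) :
    crMul α x ((crI α).f d) t = D.mul (x t) ((α.a t).f d) := by
  rw [crMul_apply, Finset.sum_eq_single t]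
  · rw [crI_f, if_pos (inv_mul_cancel t)]
  · intro b _ hb
    rw [crI_f, if_neg, map_zero, map_zero]
    intro h
    exact hb (inv_mul_eq_one.1 h)
  · exact fun h => absurd (Finset.mem_univ _) h

private theorem ConA_fl {G : Type} [Group G] [Fintype G] {D : DGA k} (α : Act G D) (g : G)
    (d : D.A) (x : G → D.A) : ConA_f (k := k) D.A g (crMul α ((crI α).f d) x) =
      crMul α ((crI α).f d) (ConA_f (k := k) D.A g x) := by
  funext t
  rw [ConA_l, ConA_f_apply, ConA_f_apply, ConA_l]
  split_ifs with h
  · rfl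
  · rw [map_zero]

private theorem ConA_fr {G : Type} [Group G] [Fintype G] {D : DGA k} (α : Act G D) (g : G)
    (d : D.A) (x : G → D.A) : ConA_f (k := k) D.A g (crMul α x ((crI α).f d)) =
      crMul α (ConA_f (k := k) D.A g x) ((crI α).f d) := by
  funext t
  rw [ConA_r, ConA_f_apply, ConA_f_apply, ConA_r]
  split_ifs with h
  · rw [h]
  · rw [map_zero, LinearMap.zero_apply]

private theorem ConA_fdeg {G : Type} [Fintype G] {V : Type u} [AddCommGroup V] [Module k V]
    (X : Dg k V) (g : G) {i : ℤ} {x : G → V} (hx : (dgPi X G).IsDeg i x) :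
    (dgPi X G).IsDeg i (ConA_f (k := k) V g x) := by
  classical
  rw [dgPi_deg] at hx ⊢
  intro t
  rw [ConA_f_apply]
  split_ifs with h
  · exact hx g
  · exact Dg.IsDeg.zero i

private theorem ConA_fd {G : Type} [Fintype G] {V : Type u} [AddCommGroup V] [Module k V]
    (X : Dg k V) (g : G) (x : G → V) :
    (dgPi X G).d (ConA_f (k := k) V g x) = ConA_f (k := k) V g ((dgPi X G).d x) := by
  classical
  funext t
  rw [dgPi_d, ConA_f_apply, ConA_f_apply, dgPi_d]
  split_ifs with h
  · rfl
  · exact map_zero _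

open Classical in
private theorem ConA_fsingle {G : Type} [Fintype G] {V : Type u} [AddCommGroup V] [Module k V]
    (g : G) (n : V) : ConA_f (k := k) V g (Pi.single g n) = Pi.single g n := by
  funext t
  simp [ConA_f_apply, Pi.single_apply]

private theorem ConA_ff {G : Type} [Fintype G] {V : Type u} [AddCommGroup V] [Module k V]
    (g : G) (x : G → V) : ConA_f (k := k) V g (ConA_f (k := k) V g x) = ConA_f (k := k) V g x := by
  classical
  funext t
  rw [ConA_f_apply, ConA_f_apply, ConA_f_apply, if_pos rfl]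

private theorem ConA_fo {G : Type} [Fintype G] {V : Type u} [AddCommGroup V] [Module k V]
    {g h : G} (hgh : g ≠ h) (x : G → V) : ConA_f (k := k) V g (ConA_f (k := k) V h x) = 0 := by
  classical
  funext t
  rw [ConA_f_apply, ConA_f_apply, if_neg hgh, ite_self]
  rfl

private theorem ConA_fs {G : Type} [Fintype G] {V : Type u} [AddCommGroup V] [Module k V]
    (x : G → V) : ∑ g : G, ConA_f (k := k) V g x = x := by
  classical
  funext t
  rw [Finset.sum_apply, Finset.sum_eq_single t]
  · rw [ConA_f_apply, if_pos rfl]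
  · intro b _ hb
    rw [ConA_f_apply, if_neg (Ne.symm hb)]
  · exact fun h => absurd (Finset.mem_univ _) h

/-- the bimodule `D ⋊ G` over `D` -/
private noncomputable abbrev ConA_Q {G : Type} [Group G] [Fintype G] {D : DGA k}
    (α : Act G D) : Bim D D := res (crI α) (crI α) (diag (cr α))

/-- the projection to the part number `g` -/
private noncomputable def ConA_P {G : Type} [Group G] [Fintype G] {D : DGA k} (α : Act G D)
    (g : G) : GMap 0 (ConA_Q α) (ConA_Q α) where
  f := ConA_f D.A g
  deg := fun {i m} hm => by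
    rw [add_zero]
    exact ConA_fdeg D.dg g hm
  map_l := fun a m => by
    rw [Dg.sp_zero]
    exact ConA_fl α g a m
  map_r := fun b m => ConA_fr α g b m

private theorem ConA_P_idem {G : Type} [Group G] [Fintype G] {D : DGA k} (α : Act G D) (g : G)
    (x : (ConA_Q α).M) : (ConA_P α g).f ((ConA_P α g).f x) = (ConA_P α g).f x := ConA_ff g x

private theorem ConA_P_orth {G : Type} [Group G] [Fintype G] {D : DGA k} (α : Act G D)
    {g h : G} (hgh : g ≠ h) (x : (ConA_Q α).M) : (ConA_P α g).f ((ConA_P α h).f x) = 0 :=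
  ConA_fo hgh x

private theorem ConA_P_d {G : Type} [Group G] [Fintype G] {D : DGA k} (α : Act G D)
    (g : G) (x : (ConA_Q α).M) :
    (ConA_Q α).dg.d ((ConA_P α g).f x) = (ConA_P α g).f ((ConA_Q α).dg.d x) :=
  ConA_fd D.dg g x

private theorem ConA_P_sum {G : Type} [Group G] [Fintype G] {D : DGA k} (α : Act G D)
    (x : (ConA_Q α).M) : ∑ g : G, (ConA_P α g).f x = x := ConA_fs (k := k) (V := D.A) x

private theorem ConA_zero {D : DGA k} {M N : Bim D D} (x : M.M) :
    (0 : GMap 0 M N).f x = 0 := rfl

/-- the filtration -/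
private noncomputable def ConA_F {G : Type} [Group G] [Fintype G] {D : DGA k} (α : Act G D)
    {m : ℕ} (e : G ≃ Fin m) : Flt (ConA_Q α) m where
  P := fun i => if h : i < m then ConA_P α (e.symm ⟨i, h⟩) else 0
  idem := fun i x => by
    split_ifs with h
    · exact ConA_P_idem α _ x
    · rfl
  orth := fun i j x hij => by
    split_ifs with h1 h2 h2
    · refine ConA_P_orth α ?_ x
      intro h3
      have h4 := congrArg Fin.val (e.symm.injective h3)
      exact hij h4
    · exact map_zero _
    · rfl
    · rfl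
  sum := fun x => by
    rw [Finset.sum_range]
    refine Eq.trans ?_ (ConA_P_sum α x)
    refine (Fintype.sum_equiv e _ _ fun g => ?_).symm
    rw [dif_pos (e g).2, Fin.eta, Equiv.symm_apply_apply]
  low := fun i j x hij => by
    split_ifs with h1 h2 h2
    · rw [ConA_P_d]
      refine ConA_P_orth α ?_ _
      intro h3
      have h4 := congrArg Fin.val (e.symm.injective h3)
      exact absurd h4 (by simp only; omega)
    · rw [ConA_zero, map_zero, map_zero]
    · rfl
    · rfl

private theorem ConA_piece {G : Type} [Group G] [Fintype G] {D : DGA k} (α : Act G D)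
    {m : ℕ} (e : G ≃ Fin m) (i : ℕ) (hi : i < m) :
    BIso ((ConA_F α e).pc i).bim
      (res (DHom.id D) (α.a (e.symm ⟨i, hi⟩)) (diag D)) := by
  classical
  obtain ⟨g, hg⟩ : ∃ g, g = e.symm ⟨i, hi⟩ := ⟨_, rfl⟩
  rw [← hg]
  have hπ : ∀ x : (ConA_Q α).M, ((ConA_F α e).pc i).π.f x = ConA_f (k := k) D.A g x := by
    intro x
    change (if h : i < m then ConA_P α (e.symm ⟨i, h⟩) else 0 : GMap 0 (ConA_Q α) (ConA_Q α)).f x
      = _
    rw [dif_pos hi, ← hg]
    rfl
  let φ : GMap 0 (ConA_Q α) (res (DHom.id D) (α.a g) (diag D)) :=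
    { f := LinearMap.proj (R := k) (φ := fun _ : G => D.A) g
      deg := fun {i m} hm => by
        rw [add_zero]
        exact dgPi_deg.1 hm g
      map_l := fun a m => by
        rw [Dg.sp_zero]
        exact ConA_l α a m g
      map_r := fun b m => ConA_r α b m g }
  refine Cnr.to_biso _ φ ?_ ?_ ?_
  · intro x hx h0
    rw [← hx, hπ]
    funext t
    rw [ConA_f_apply]
    have h1 : (x : G → D.A) g = 0 := h0
    rw [h1, ite_self]
    rfl
  · intro (n : D.A)
    refine ⟨(Pi.single g n : G → D.A), ?_, ?_⟩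
    · rw [hπ]
      exact ConA_fsingle (k := k) g n
    · exact Pi.single_eq_same (M := fun _ : G => D.A) g n
  · intro x _
    rw [hπ]
    change D.dg.d ((x : G → D.A) g) = ConA_f (k := k) D.A g ((dgPi D.dg G).d x) g
    rw [ConA_f_apply, if_pos rfl, dgPi_d]

/-- The crossed product as a bimodule over `D`: a direct sum of the bimodules `D u_g`, with
`(x u_g) d = x g(d) u_g`.

Proof. Let `m = Fintype.card G` and `e : G ≃ Fin m`. Use `Flt.cl_eq` for the filtration of
`res crI crI (diag (cr α))` with `P i = 0` for `i ≥ m` and `P i x = Pi.single g (x g)`, `g = e⁻¹ i`, for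
`i < m` (these are closed bimodule endomorphisms). The piece number `i` is isomorphic to
`res id (α.a g) (diag D)` by `Cnr.to_biso` with `x ↦ x g`. All bimodules here have finite-dimensional
cohomology since `D` is proper (`diag_finCoh`, and a bijection of complexes). -/
theorem cl_crI {G : Type} [Group G] [Fintype G] {B : SP k} (α : Act G B.alg) :
    cl (X := B) (Y := B) (res (crI α) (crI α) (diag (cr α))) =
      ∑ g : G, up (B := B) (E := B) (α.a g) := by
  obtain ⟨m, e⟩ : ∃ m : ℕ, Nonempty (G ≃ Fin m) := ⟨_, ⟨Fintype.equivFin G⟩⟩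
  obtain ⟨e⟩ := e
  have h1 : ∀ i, i < m → ((ConA_F α e).pc i).bim.dg.FinCoh := fun i hi =>
    (ConA_piece α e i hi).symm.finCoh (res_finCoh _ _ (diag_finCoh B))
  have h2 := (ConA_F α e).cl_eq (X := B) (Y := B) h1
  refine h2.trans ?_
  rw [Finset.sum_range]
  refine (Fintype.sum_equiv e _ _ fun g => ?_).symm
  refine Eq.trans ?_ (cl_iso (X := B) (Y := B) (ConA_piece α e (e g) (e g).2)).symm
  rw [Fin.eta, Equiv.symm_apply_apply]
  rfl

/-- Proof. `dn_cl` (for the bimodule `res id crI (diag ..)` which defines `up`), and `cl_crI`. -/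
theorem dn_up_crI (X : SP k) (n : ℕ) [InvG k (Perm (Fin n))] :
    dn (B := pwS X n) (E := symS X n) (crI (pwAct X.alg n)) ≫
        up (B := pwS X n) (E := symS X n) (crI (pwAct X.alg n)) =
      ∑ σ : Perm (Fin n), up (B := pwS X n) (E := pwS X n) ((pwAct X.alg n).a σ) := by
  rw [← cl_crI]
  exact dn_cl (B := pwS X n) (E := symS X n) (X := pwS X n)
    (res_finCoh _ _ (diag_finCoh (symS X n))) (crI (pwAct X.alg n))

/-- Proof. `perm_induction`: `up_comp`, `permS_mul`; for neighbouring transpositions `permS_adj`,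
`pwP_swap`, `up_inv` (the isomorphism `adjD` is its own inverse, `adjD_adjD`); for `1` `permS_one`,
`up_id`. -/
theorem up_pwAct (X : SP k) (n : ℕ) (σ : Perm (Fin n)) :
    up (B := pwS X n) (E := pwS X n) ((pwAct X.alg n).a σ) = permS X n σ⁻¹ := by
  refine perm_induction (P := fun σ => up (B := pwS X n) (E := pwS X n)
    ((pwAct X.alg n).a σ) = permS X n σ⁻¹) ?_ ?_ ?_ σ
  · rw [inv_one, permS_one]
    have h1 : (pwAct X.alg n).a 1 = DHom.id (pw X.alg n) :=
      DHom.ext fun x => (pwAct X.alg n).a_one x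
    rw [h1]
    exact up_id (E := pwS X n)
  · intro i h
    rw [swap_inv, permS_adj X n i h]
    have h1 : (pwAct X.alg n).a (swap ⟨i, (Nat.lt_succ_self i).trans h⟩ ⟨i + 1, h⟩) =
        (adjD X.alg n i).inv := by
      refine DHom.ext fun x => ?_
      rw [pwAct_f, pwP_swap]
      have h2 := (adjD X.alg n i).hom_inv ((adjD X.alg n i).hom.f x)
      rw [adjD_adjD] at h2
      exact h2.symm
    rw [h1]
    exact up_inv (B := pwS X n) (E := pwS X n) (adjD X.alg n i)
  · intro a b ha hb
    rw [mul_inv_rev, permS_mul, ← ha, ← hb]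
    refine Eq.trans ?_ (up_comp (B := pwS X n) (E := pwS X n) (C := pwS X n)
      ((pwAct X.alg n).a a) ((pwAct X.alg n).a b)).symm
    congr 1
    exact DHom.ext fun x => (pwAct X.alg n).a_mul a b x

/-- The symmetrizer of the tensor power factors through the symmetric power.

Proof. `f = (tpowIso X n).hom ≫ dn ..`, `g = up .. ≫ (tpowIso X n).inv`; `dn_up_crI`, `up_pwAct`, the
definition of `permS`, and the substitution `σ ↦ σ⁻¹` in the sum. -/
theorem symSum_factor (X : SP k) (n : ℕ) [InvG k (Perm (Fin n))] :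
    ∃ (f : tpow X n ⟶ symS X n) (g : symS X n ⟶ tpow X n), f ≫ g = symSum X n := by
  refine ⟨(tpowIso X n).hom ≫ dn (B := pwS X n) (E := symS X n) (crI (pwAct X.alg n)),
    up (B := pwS X n) (E := symS X n) (crI (pwAct X.alg n)) ≫ (tpowIso X n).inv, ?_⟩
  have h1 : ((tpowIso X n).hom ≫ dn (B := pwS X n) (E := symS X n) (crI (pwAct X.alg n))) ≫
      (up (B := pwS X n) (E := symS X n) (crI (pwAct X.alg n)) ≫ (tpowIso X n).inv) =
      (tpowIso X n).hom ≫ (dn (B := pwS X n) (E := symS X n) (crI (pwAct X.alg n)) ≫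
        up (B := pwS X n) (E := symS X n) (crI (pwAct X.alg n))) ≫ (tpowIso X n).inv := by
    simp only [Category.assoc]
  rw [h1, dn_up_crI, Preadditive.sum_comp, Preadditive.comp_sum]
  unfold symSum
  refine Fintype.sum_equiv (Equiv.inv (Perm (Fin n))) _ _ fun σ => ?_
  rw [up_pwAct]
  unfold permS
  simp only [Category.assoc, Iso.hom_inv_id, Category.comp_id, Iso.hom_inv_id_assoc,
    Equiv.inv_apply]

end Pool.Agent.MP_6e5bed_ag_SY
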