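import Pool.Agent.Lib.MP_6e5bed_ag_SY.AbsB
import Pool.Agent.Lib.MP_6e5bed_ag.SDualRetract

set_option autoImplicit false
set_option linter.unusedSectionVars false

/-!
# MP_6e5bed_ag (project SYM): an object is Kimura-finite if its symmetrizer factors through one
-/

namespace Pool.Agent.MP_6e5bed_ag_SY

open Pool.Agent.MP_6e5bed_ag_NC
open CategoryTheory MonoidalCategory Idempotents Equiv Pool.Agent.MP_6e5bed_ag

universe u

variable {k : Type u} [Field k]

section ConB_abs

universe v₁ u₁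

variable {C : Type u₁} [Category.{v₁} C] [MonoidalCategory C] [SymmetricCategory C]
  [Preadditive C] [Linear ℚ C]

omit [Linear ℚ C] in
private theorem ConB_perm_symSum (M : C) (n : ℕ) (σ : Perm (Fin n)) :
    (perm M n σ : tpow M n ⟶ tpow M n) ≫ symSum M n = symSum M n := by
  unfold symSum
  rw [Preadditive.comp_sum]
  refine Fintype.sum_equiv (Equiv.mulRight σ) _ _ fun τ => ?_
  rw [Equiv.coe_mulRight, map_mul, End.mul_def]

omit [Linear ℚ C] in
private theorem ConB_sq (M : C) (n : ℕ) :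
    symSum M n ≫ symSum M n = n.factorial • symSum M n := by
  have h : symSum M n ≫ symSum M n =
      ∑ σ : Perm (Fin n), (perm M n σ : tpow M n ⟶ tpow M n) ≫ symSum M n := by
    rw [← Preadditive.sum_comp]
    rfl
  rw [h, Finset.sum_congr rfl fun σ _ => ConB_perm_symSum M n σ, Finset.sum_const,
    Finset.card_univ, Fintype.card_perm, Fintype.card_fin]

private theorem ConB_idem (M : C) (n : ℕ) : symIdem M n ≫ symIdem M n = symIdem M n := by
  have h0 : (n.factorial : ℚ) ≠ 0 := Nat.cast_ne_zero.2 n.factorial_ne_zero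
  unfold symIdem
  rw [Linear.smul_comp, Linear.comp_smul, ConB_sq, ← Nat.cast_smul_eq_nsmul ℚ,
    inv_smul_smul₀ h0]

private theorem ConB_za (M : C) (n : ℕ) :
    ∃ z : MonoidAlgebra ℚ (Perm (Fin n)), za M z = symIdem M n := by
  refine ⟨((n.factorial : ℚ)⁻¹) • ∑ σ : Perm (Fin n), MonoidAlgebra.single σ 1, ?_⟩
  rw [za_smul, za_sum]
  simp only [za_single, one_smul]
  rfl

private theorem ConB_split [MonoidalPreadditive C] [IsIdempotentComplete C] {M S : C}
    [HasLeftDual M] {n : ℕ} (f : tpow M n ⟶ S) (g : S ⟶ tpow M n) (h : f ≫ g = symSum M n)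
    (hS : OpKF S) : ∃ (B : C) (i : B ⟶ tpow M n) (r : tpow M n ⟶ B), i ≫ r = 𝟙 B ∧
      r ≫ i = symIdem M n ∧ OpKF B := by
  obtain ⟨B, i, r, hir, hri⟩ :=
    IsIdempotentComplete.idempotents_split (tpow M n) (symIdem M n) (ConB_idem M n)
  refine ⟨B, i, r, hir, hri, ?_⟩
  obtain ⟨dB⟩ := @exists_dual_retract C _ _ _ (tpow M n) B (tpowDual M n) i r hir
  have h1 : 𝟙 B = i ≫ symIdem M n ≫ r := by
    rw [← hri, Category.assoc, hir, Category.comp_id, hir]
  have h2 : 𝟙 B = ∑ _j : Fin 1, (((n.factorial : ℚ)⁻¹) • (i ≫ f)) ≫ (g ≫ r) := by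
    rw [Fin.sum_univ_one, Linear.smul_comp, Category.assoc, ← Category.assoc f, h, h1]
    unfold symIdem
    rw [Linear.smul_comp, Linear.comp_smul]
  exact opKF_of_sum (M' := dB.leftDual) (fun _ : Fin 1 => S) (fun _ => hS)
    (fun _ => ((n.factorial : ℚ)⁻¹) • (i ≫ f)) (fun _ => g ≫ r) h2

private theorem ConB_odd [MonoidalPreadditive C] {M : C} {n : ℕ} (h : symIdem M n = 0) :
    OpKF M := by
  have h0 : (n.factorial : ℚ)⁻¹ ≠ 0 := inv_ne_zero (Nat.cast_ne_zero.2 n.factorial_ne_zero)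
  have h1 : symSum M n = 0 := by
    unfold symIdem at h
    exact (smul_eq_zero.1 h).resolve_left h0
  refine ⟨0, Limits.comp_zero, ⟨1, ?_⟩, n, ?_⟩
  · have h2 : tmap (0 : M ⟶ M) 1 = 0 := MonoidalPreadditive.zero_tensor _
    rw [h2, Limits.comp_zero]
  · rw [h1, Limits.zero_comp]

end ConB_abs

/-- If the symmetrizer of `X^{⊗n}` factors through an object with Kimura-finite motive then the
motive of `X` is Kimura-finite.

Proof. The functor `U = toKaroubi` is braided (`spKF_brd`), so with `powIso` (`powIso_symSum` in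
`Lib/MP_6e5bed_ag/Fun.lean`) there are `f : tpow (U X) n ⟶ U S` and `g : U S ⟶ tpow (U X) n` with
`f ≫ g = symSum (U X) n`. Split the idempotent `symIdem (U X) n = (n!)⁻¹ • symSum (U X) n` of
`NChow k`: `i : B ⟶ tpow (U X) n`, `r`, `i ≫ r = 𝟙 B`, `r ≫ i = symIdem (U X) n = za (U X) z` with
`z = (n!)⁻¹ ∑ σ` in the group algebra (`MonoidAlgebra.lift`). Then `𝟙 B = i ≫ symIdem ≫ r = (n!)⁻¹
• (i ≫ f) ≫ (g ≫ r)`, and `B` has a dual (`exists_dual_retract`, `tpowDual`, `U_dual`), so `B` is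
Kimura-finite by `opKF_of_sum` (one summand), `opKF_of_kimuraFinite` and `kimuraFinite_of_opKF`.
If `B` is a zero object then `symIdem (U X) n = 0`, so `U X` is odd, and Kimura-finite (take `P =
0`; or show `OpKF` with `e = 0`). Otherwise use `kimuraFinite_U_of_schur`. -/
theorem kimuraFinite_of_factor (X S : SP k) {n : ℕ} (hn : 0 < n) (f : tpow X n ⟶ S)
    (g : S ⟶ tpow X n) (h : f ≫ g = symSum X n) (hS : KimuraFinite (U S)) :
    KimuraFinite (U X) := by
  let _ : (toKaroubi (SP k)).Braided := spKF_brd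
  obtain ⟨M', ⟨hM⟩⟩ := U_dual X
  let _ : HasLeftDual (U X) := ⟨M'⟩
  have hfg : ((powIso (toKaroubi (SP k)) X n).inv ≫ (toKaroubi (SP k)).map f) ≫
      ((toKaroubi (SP k)).map g ≫ (powIso (toKaroubi (SP k)) X n).hom) = symSum (U X) n := by
    rw [Category.assoc, ← Category.assoc ((toKaroubi (SP k)).map f),
      ← (toKaroubi (SP k)).map_comp, h, powIso_symSum, Iso.inv_hom_id_assoc]
  obtain ⟨B, i, r, hir, hri, hB⟩ := ConB_split _ _ hfg (opKF_of_kimuraFinite hS)
  by_cases h0 : Limits.IsZero B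
  · refine kimuraFinite_of_opKF (ConB_odd (n := n) ?_)
    rw [← hri, h0.eq_of_src i 0, Limits.comp_zero]
  · obtain ⟨z, hz⟩ := ConB_za (U X) n
    exact kimuraFinite_U_of_schur X hn z i r hir (hri.trans hz.symm) h0 (kimuraFinite_of_opKF hB)

end Pool.Agent.MP_6e5bed_ag_SY
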