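import Pool.Agent.Lib.MP_6e5bed_ag_SY.ActM
import Pool.Agent.Lib.MP_6e5bed_ag_KC.BUa
import Pool.Agent.Lib.MP_6e5bed_ag_CV.CorPerf

set_option autoImplicit false
set_option linter.unusedSectionVars false

/-!
# MP_6e5bed_ag (project SYM): crossed bimodules are summands of induced ones
-/

namespace Pool.Agent.MP_6e5bed_ag_SY

open Pool.Agent.MP_6e5bed_ag_NC

universe u

variable {k : Type u} [Field k] {G : Type} [Group G] [Fintype G] {D D' : DGA k}

private theorem Ind_single_same (x : D.A) [DecidableEq G] :
    (LinearMap.single k (fun _ : G => D.A) 1 x : G → D.A) 1 = x := by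
  rw [LinearMap.single_apply, Pi.single_eq_same]

private theorem Ind_single_ne (x : D.A) [DecidableEq G] {g : G} (hg : g ≠ 1) :
    (LinearMap.single k (fun _ : G => D.A) 1 x : G → D.A) g = 0 := by
  rw [LinearMap.single_apply, Pi.single_eq_of_ne hg]

private theorem Ind_deg [DecidableEq G] {i : ℤ} {a : D.A} (ha : D.dg.IsDeg i a) :
    (dgPi D.dg G).IsDeg i (LinearMap.single k (fun _ : G => D.A) 1 a) := by
  refine dgPi_deg.2 fun g => ?_
  by_cases hg : g = 1
  · subst hg
    rw [Ind_single_same]
    exact ha
  · rw [Ind_single_ne a hg]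
    exact Dg.IsDeg.zero i

private theorem Ind_d [DecidableEq G] (a : D.A) :
    (dgPi D.dg G).d (LinearMap.single k (fun _ : G => D.A) 1 a) =
      LinearMap.single k (fun _ : G => D.A) 1 (D.dg.d a) := by
  funext g
  rw [dgPi_d]
  by_cases hg : g = 1
  · subst hg
    rw [Ind_single_same, Ind_single_same]
  · rw [Ind_single_ne a hg, Ind_single_ne _ hg, map_zero]

private theorem Ind_mul [DecidableEq G] (α : Act G D) (a b : D.A) :
    (LinearMap.single k (fun _ : G => D.A) 1 (D.mul a b) : G → D.A) =
      crMul α (LinearMap.single k (fun _ : G => D.A) 1 a)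
        (LinearMap.single k (fun _ : G => D.A) 1 b) := by
  funext g
  rw [crMul_apply, Finset.sum_eq_single (1 : G)]
  · rw [Ind_single_same, α.a_one, inv_one, _root_.one_mul]
    by_cases hg : g = 1
    · subst hg
      rw [Ind_single_same, Ind_single_same]
    · rw [Ind_single_ne _ hg, Ind_single_ne _ hg, map_zero]
  · intro h _ hh
    rw [Ind_single_ne a hh, map_zero, LinearMap.zero_apply]
  · intro h
    exact absurd (Finset.mem_univ _) h

/-- The inclusion `D → D ⋊ G`. -/
noncomputable def crI (α : Act G D) : DHom D (cr α) where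
  f := by
    classical
    exact LinearMap.single k (fun _ : G => D.A) 1
  deg := fun {i a} ha => by
    classical
    exact Ind_deg ha
  d := fun a => by
    classical
    exact Ind_d a
  one := rfl
  mul := fun a b => by
    classical
    exact Ind_mul α a b

open Classical in
theorem crI_f (α : Act G D) (x : D.A) (g : G) :
    ((crI α).f x : G → D.A) g = if g = 1 then x else 0 := by
  by_cases hg : g = 1
  · subst hg
    rw [if_pos rfl]
    exact Ind_single_same x
  · rw [if_neg hg]
    exact Ind_single_ne x hg

private theorem Ind_unit (α : Act G D) : (DHom.unit D).comp (crI α) = DHom.unit (cr α) := by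
  refine DHom.ext fun (c : k) => ?_
  change (crI α).f (c • D.one) = c • (cr α).one
  rw [map_smul, (crI α).one]

private theorem Ind_idc {A B : DGA k} (φ : DHom A B) : (DHom.id A).comp φ = φ :=
  DHom.ext fun _ => rfl

private theorem Ind_fgL (α : Act G D) :
    fgL (res (crI α) (DHom.id (cr α)) (diag (cr α))) = fgL (diag (cr α)) := by
  change res ((DHom.unit D).comp (crI α)) ((DHom.id (cr α)).comp (DHom.id (cr α)))
    (diag (cr α)) = res (DHom.unit (cr α)) (DHom.id (cr α)) (diag (cr α))
  rw [Ind_unit, Ind_idc]

private theorem Ind_fgR (α : Act G D) :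
    fgR (res (DHom.id (cr α)) (crI α) (diag (cr α))) = fgR (diag (cr α)) := by
  change res ((DHom.id (cr α)).comp (DHom.id (cr α))) ((DHom.unit D).comp (crI α))
    (diag (cr α)) = res (DHom.id (cr α)) (DHom.unit (cr α)) (diag (cr α))
  rw [Ind_unit, Ind_idc]

/-- The functor `indB`. -/
private noncomputable def IndF (α : Act G D) (α' : Act G D') :
    DGFun D D' (cr α) (cr α') :=
  (tbR D (res (crI α') (DHom.id (cr α')) (diag (cr α')))).comp
    (tbL (res (DHom.id (cr α)) (crI α) (diag (cr α))) (cr α'))

/-- `X ⊗_B (B ⊗ C)` is perfect if the left module `X` is. -/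
private theorem Ind_right {A B C : DGA k} {X : Bim A B} (hX : Perf (fgR X)) :
    Perf (tb X (free B C)) :=
  (tb_free_right X C).symm.perf
    ((tbR A (free (base k) C)).perf ((tb_free_free A C).symm.perf Perf.free) hX)

/-- `X ⊗_B (B ⊗ B') ⊗_B' Y` is perfect if the left module `X` and the right module `Y` are. -/
private theorem Ind_both {A B B' C : DGA k} {X : Bim A B} {Y : Bim B' C}
    (hX : Perf (fgR X)) (hY : Perf (fgL Y)) : Perf (tb X (tb (free B B') Y)) := by
  have h1 : BIso (tb X (tb (free B B') Y)) (tb X (tb (free B (base k)) (fgL Y))) :=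
    (tbL X C).biso (tb_free_left B Y)
  have h2 : BIso (tb X (tb (free B (base k)) (free (base k) C))) (tb X (free B C)) :=
    (tbL X C).biso (tb_free_free B C)
  have h3 : Perf (tb X (tb (free B (base k)) (free (base k) C))) :=
    h2.symm.perf (Ind_right hX)
  exact h1.symm.perf (((tbL (free B (base k)) C).comp (tbL X C)).perf h3 hY)

/-- The bimodule `(D ⋊ G) ⊗_D N ⊗_D' (D' ⋊ G)`. -/
noncomputable def indB (α : Act G D) (α' : Act G D') (N : Bim D D') : Bim (cr α) (cr α') :=
  tb (res (DHom.id (cr α)) (crI α) (diag (cr α)))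
    (tb N (res (crI α') (DHom.id (cr α')) (diag (cr α'))))

/-- Proof. `indB` is the composition of the dg functors `tbR` and `tbL`; it maps the free bimodule
`D ⊗ D'` to the free bimodule (`tb_free_free`, `tb_free_right`, `tb_free_left`, …). Use
`DGFun.perf`. -/
theorem indB_perf (α : Act G D) (α' : Act G D') {N : Bim D D'} (h : Perf N) :
    Perf (indB α α' N) := by
  refine (IndF α α').perf ?_ h
  change Perf (tb (res (DHom.id (cr α)) (crI α) (diag (cr α)))
    (tb (free D D') (res (crI α') (DHom.id (cr α')) (diag (cr α')))))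
  refine Ind_both ?_ ?_
  · rw [Ind_fgR]
    exact perf_fgR_diag (cr α)
  · rw [Ind_fgL]
    exact perf_fgL_diag (cr α')

theorem indB_contr (α : Act G D) (α' : Act G D') {N : Bim D D'} (h : Contr N) :
    Contr (indB α α' N) :=
  (IndF α α').contr h

end Pool.Agent.MP_6e5bed_ag_SY
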