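import Pool.Agent.Lib.MP_6e5bed_ag_SY.PwS
import Pool.Agent.Lib.MP_6e5bed_ag_SY.ActT
import Pool.Agent.Lib.MP_6e5bed_ag_SY.Ind

set_option autoImplicit false
set_option linter.unusedSectionVars false

/-!
# MP_6e5bed_ag (project SYM): homomorphisms of crossed products, generators of symmetric powers
-/

namespace Pool.Agent.MP_6e5bed_ag_SY

open Pool.Agent.MP_6e5bed_ag_NC
open Equiv
open scoped TensorProduct

universe u

section gen

variable {k : Type u} [CommRing k] {G : Type} [Group G] [Fintype G] {D D' : DGA k}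
  {α : Act G D} {α' : Act G D'}

open Classical in
private theorem CrH_one (D : DGA k) (g : G) :
    crOne G D g = if g = 1 then D.one else 0 := by
  unfold crOne
  rw [Pi.single_apply]

private theorem CrH_mul (φ : DHom D D') (h : ∀ g x, φ.f ((α.a g).f x) = (α'.a g).f (φ.f x))
    (a b : G → D.A) (g : G) :
    φ.f (crMul α a b g) = crMul α' (fun t => φ.f (a t)) (fun t => φ.f (b t)) g := by
  rw [crMul_apply, crMul_apply, map_sum]
  refine Finset.sum_congr rfl fun t _ => ?_
  rw [φ.mul, h]

/-- The homomorphism of crossed products given by an equivariant homomorphism. -/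
noncomputable def crH (α : Act G D) (α' : Act G D') (φ : DHom D D')
    (h : ∀ g x, φ.f ((α.a g).f x) = (α'.a g).f (φ.f x)) : DHom (cr α) (cr α') where
  f := LinearMap.pi fun g => φ.f.comp (LinearMap.proj g)
  deg := fun {i a} ha => by
    exact dgPi_deg.2 fun g => φ.deg (dgPi_deg.1 ha g)
  d := fun a => by
    funext g
    exact φ.d _
  one := by
    classical
    funext g
    change φ.f (crOne G D g) = crOne G D' g
    rw [CrH_one, CrH_one]
    split_ifs with h1
    · exact φ.one
    · exact map_zero _
  mul := fun a b => by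
    funext g
    exact CrH_mul φ h a b g

theorem crH_f (φ : DHom D D') (h : ∀ g x, φ.f ((α.a g).f x) = (α'.a g).f (φ.f x))
    (x : G → D.A) (g : G) : ((crH α α' φ h).f x : G → D'.A) g = φ.f (x g) := rfl

/-- The isomorphism of crossed products given by an equivariant isomorphism. -/
noncomputable def crHI (α : Act G D) (α' : Act G D') (φ : DIso D D')
    (h : ∀ g x, φ.hom.f ((α.a g).f x) = (α'.a g).f (φ.hom.f x)) : DIso (cr α) (cr α') where
  hom := crH α α' φ.hom h
  inv := crH α' α φ.inv (fun g x => by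
    have h1 := h g (φ.inv.f x)
    rw [φ.inv_hom] at h1
    rw [← h1, φ.hom_inv])
  hom_inv := fun a => by
    funext g
    exact φ.hom_inv _
  inv_hom := fun a => by
    funext g
    exact φ.inv_hom _

theorem crHI_u (φ : DIso D D') (h : ∀ g x, φ.hom.f ((α.a g).f x) = (α'.a g).f (φ.hom.f x))
    (g : G) : (crHI α α' φ h).hom.f ((crGr α).u g) = (crGr α').u g := by
  classical
  funext t
  change φ.hom.f (((crGr α).u g : G → D.A) t) = ((crGr α').u g : G → D'.A) t
  rw [crGr_u, crGr_u]
  split_ifs with h1
  · exact φ.hom.one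
  · exact map_zero _

end gen

section gen'

variable {k : Type u} [Field k] {G : Type} [Group G] [Fintype G] {D D' : DGA k}
  {α : Act G D} {α' : Act G D'}

/-- The homomorphism `crH` on the image of `D`. -/
private theorem CrH_crI (φ : DHom D D') (h : ∀ g x, φ.f ((α.a g).f x) = (α'.a g).f (φ.f x))
    (x : D.A) : (crH α α' φ h).f ((crI α).f x) = (crI α').f (φ.f x) := by
  classical
  funext t
  change φ.f (((crI α).f x : G → D.A) t) = ((crI α').f (φ.f x) : G → D'.A) t
  rw [crI_f, crI_f]
  split_ifs with h1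
  · rfl
  · exact map_zero _

open Classical in
private theorem CrH_mul_u (α : Act G D) (x : D.A) (g t : G) :
    crMul α ((crI α).f x) ((crGr α).u g) t = if t = g then x else 0 := by
  rw [crMul_apply, Finset.sum_eq_single (1 : G)]
  · rw [crI_f, if_pos rfl, α.a_one, inv_one, _root_.one_mul, crGr_u]
    split_ifs with h1
    · exact D.mul_one x
    · exact map_zero _
  · intro h _ hh
    rw [crI_f, if_neg hh, map_zero, LinearMap.zero_apply]
  · intro h
    exact absurd (Finset.mem_univ _) h

open Classical in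
private theorem CrH_u_mul (α : Act G D) (x : D.A) (g t : G) :
    crMul α ((crGr α).u g) ((crI α).f x) t = if t = g then (α.a g).f x else 0 := by
  rw [crMul_apply, Finset.sum_eq_single g]
  · rw [crGr_u, if_pos rfl, D.one_mul, crI_f]
    by_cases h1 : t = g
    · rw [if_pos h1, h1, if_pos (inv_mul_cancel g)]
    · rw [if_neg h1, if_neg (fun h2 => h1 (inv_mul_eq_one.1 h2).symm), map_zero]
  · intro h _ hh
    rw [crGr_u, if_neg hh, map_zero, LinearMap.zero_apply]
  · intro h
    exact absurd (Finset.mem_univ _) h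

private theorem CrH_comm (α : Act G D) (x : D.A) (g : G) :
    (cr α).mul ((crGr α).u g) ((crI α).f x) =
      (cr α).mul ((crI α).f ((α.a g).f x)) ((crGr α).u g) := by
  classical
  funext t
  exact (CrH_u_mul α x g t).trans (CrH_mul_u α ((α.a g).f x) g t).symm

private theorem CrH_sum (α : Act G D) (x : G → D.A) :
    x = ∑ g, crMul α ((crI α).f (x g)) ((crGr α).u g) := by
  classical
  funext t
  rw [Finset.sum_apply, Finset.sum_eq_single t]
  · rw [CrH_mul_u, if_pos rfl]
  · intro b _ hb
    rw [CrH_mul_u, if_neg (Ne.symm hb)]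
  · intro h
    exact absurd (Finset.mem_univ _) h

end gen'

section sym

variable {k : Type u} [Field k] {A B C : DGA k} {n : ℕ}

private theorem CrH_pw {A B : DGA k} (φ : DHom A B) (ψ : DHom B A)
    (h : ∀ a, ψ.f (φ.f a) = a) (n : ℕ) (a : (pw A n).A) :
    (pwMap ψ n).f ((pwMap φ n).f a) = a := by
  have h1 : φ.comp ψ = DHom.id A := DHom.ext h
  have h2 : (pwMap φ n).comp (pwMap ψ n) = DHom.id (pw A n) := by
    rw [← pwMap_comp, h1, pwMap_id]
  exact LinearMap.congr_fun (congrArg DHom.f h2) a

/-- The isomorphism of tensor powers. -/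
noncomputable def pwI (φ : DIso A B) (n : ℕ) : DIso (pw A n) (pw B n) where
  hom := pwMap φ.hom n
  inv := pwMap φ.inv n
  hom_inv := fun a => by
    exact CrH_pw φ.hom φ.inv φ.hom_inv n a
  inv_hom := fun a => by
    exact CrH_pw φ.inv φ.hom φ.inv_hom n a

/-- The isomorphism of symmetric powers. -/
noncomputable def symI (φ : DIso A B) (n : ℕ) : DIso (symP A n) (symP B n) :=
  crHI (pwAct A n) (pwAct B n) (pwI φ n) (fun g x => pwMap_perm φ.hom n g x)

/-- The homomorphism `shH` as an isomorphism. -/
noncomputable def shI (A B : DGA k) (n : ℕ) : DIso ((pw A n).tensor (pw B n)) (pw (A.tensor B) n) :=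
  DIso.mk' (shH A B n) (LinearEquiv.ofBijective (shH A B n).f (shH_bij A B n)).symm.toLinearMap
    (fun a => by
      exact (LinearEquiv.ofBijective (shH A B n).f (shH_bij A B n)).symm_apply_apply a)
    (fun a => by
      exact (LinearEquiv.ofBijective (shH A B n).f (shH_bij A B n)).apply_symm_apply a)

theorem shI_hom (A B : DGA k) (n : ℕ) : (shI A B n).hom = shH A B n := rfl

private theorem CrH_shS (A B : DGA k) (n : ℕ) (g : Perm (Fin n))
    (x : (pw A n).A ⊗[k] (pw B n).A) :
    (shH A B n).f (TensorProduct.map (pwP A n g) (pwP B n g) x) =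
      pwP (A.tensor B) n g ((shH A B n).f x) := by
  induction x using TensorProduct.induction_on with
  | zero =>
    rw [map_zero]
    exact (map_zero (shH A B n).f).trans ((congrArg (pwP (A.tensor B) n g)
      (map_zero (shH A B n).f)).trans (map_zero _)).symm
  | add x y hx hy =>
    rw [map_add]
    exact (map_add (shH A B n).f _ _).trans ((congrArg₂ (· + ·) hx hy).trans
      ((congrArg (pwP (A.tensor B) n g) (map_add (shH A B n).f x y)).trans
        (map_add _ _ _)).symm)
  | tmul a b =>
    rw [TensorProduct.map_tmul]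
    exact (shH_perm A B n g a b).symm

/-- The isomorphism `(A^{⊗n} ⊗ B^{⊗n}) ⋊ S_n ≅ S^n (A ⊗ B)`. -/
noncomputable def shS (A B : DGA k) (n : ℕ) :
    DIso (cr ((pwAct A n).tensor (pwAct B n))) (symP (A.tensor B) n) :=
  crHI ((pwAct A n).tensor (pwAct B n)) (pwAct (A.tensor B) n) (shI A B n) (fun g x => by
    exact CrH_shS A B n g x)

theorem shS_hom_f (A B : DGA k) (n : ℕ) (x : Perm (Fin n) → ((pw A n).tensor (pw B n)).A)
    (g : Perm (Fin n)) : ((shS A B n).hom.f x : Perm (Fin n) → (pw (A.tensor B) n).A) g =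
      (shH A B n).f (x g) := rfl

/-- The homomorphism `A → S^n A` to the factor number `s`. -/
noncomputable def iota (A : DGA k) (n : ℕ) (s : Fin n) : DHom A (symP A n) :=
  (inj A n s).comp (crI (pwAct A n))

/-- Every element of the crossed product is `∑ g, x g u_g`. -/
theorem sym_sum (x : (symP A n).A) : x = ∑ g, (symP A n).mul
    ((crI (pwAct A n)).f ((x : Perm (Fin n) → (pw A n).A) g)) ((symG A n).u g) :=
  CrH_sum (pwAct A n) x

/-- The elements `iota s a` and `u σ` generate the symmetric power. Proof. `sym_sum`, `pw_ext`. -/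
theorem sym_ext {f g : DHom (symP A n) C}
    (h : ∀ s a, f.f ((iota A n s).f a) = g.f ((iota A n s).f a))
    (hu : ∀ σ, f.f ((symG A n).u σ) = g.f ((symG A n).u σ)) : f = g := by
  have h1 : ((crI (pwAct A n)).comp f).f = ((crI (pwAct A n)).comp g).f :=
    pw_ext ((crI (pwAct A n)).comp f).mul ((crI (pwAct A n)).comp g).mul
      (((crI (pwAct A n)).comp f).one.trans ((crI (pwAct A n)).comp g).one.symm) h
  refine DHom.ext fun x => ?_
  rw [sym_sum x, map_sum, map_sum]
  refine Finset.sum_congr rfl fun σ _ => ?_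
  rw [f.mul, g.mul, hu σ]
  exact congrArg (fun z => C.mul z (g.f ((symG A n).u σ))) (LinearMap.congr_fun h1 _)

/-- `u_σ a = σ(a) u_σ`. -/
theorem u_iota (σ : Perm (Fin n)) (s : Fin n) (a : A.A) :
    (symP A n).mul ((symG A n).u σ) ((iota A n s).f a) =
      (symP A n).mul ((iota A n (σ s)).f a) ((symG A n).u σ) := by
  have h := CrH_comm (pwAct A n) ((inj A n s).f a) σ
  rw [pwAct_f, pwP_inj] at h
  exact h

theorem symI_iota (φ : DIso A B) (s : Fin n) (a : A.A) :
    (symI φ n).hom.f ((iota A n s).f a) = (iota B n s).f (φ.hom.f a) := by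
  have h := CrH_crI (α := pwAct A n) (α' := pwAct B n) (pwMap φ.hom n)
    (fun g x => pwMap_perm φ.hom n g x) ((inj A n s).f a)
  rw [pwMap_inj] at h
  exact h

theorem symI_inv_iota (φ : DIso A B) (s : Fin n) (b : B.A) :
    (symI φ n).inv.f ((iota B n s).f b) = (iota A n s).f (φ.inv.f b) := by
  have h := congrArg (symI φ n).inv.f (symI_iota (n := n) φ s (φ.inv.f b))
  rw [φ.inv_hom, (symI φ n).hom_inv] at h
  exact h.symm

theorem symI_u (φ : DIso A B) (σ : Perm (Fin n)) :
    (symI φ n).hom.f ((symG A n).u σ) = (symG B n).u σ :=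
  crHI_u (α := pwAct A n) (α' := pwAct B n) (pwI φ n)
    (fun g x => pwMap_perm φ.hom n g x) σ

theorem symI_inv_u (φ : DIso A B) (σ : Perm (Fin n)) :
    (symI φ n).inv.f ((symG B n).u σ) = (symG A n).u σ := by
  rw [← symI_u φ σ, (symI φ n).hom_inv]

end sym

end Pool.Agent.MP_6e5bed_ag_SY
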