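import Pool.Agent.Lib.MP_6e5bed_ag_SY.CrH

set_option autoImplicit false
set_option linter.unusedSectionVars false

/-!
# MP_6e5bed_ag (project SYM): tensor products of crossed products, restriction to a subgroup
-/

namespace Pool.Agent.MP_6e5bed_ag_SY

open Pool.Agent.MP_6e5bed_ag_NC
open scoped TensorProduct

universe u

variable {k : Type u} [CommRing k] {G G' : Type} [Group G] [Fintype G] [Group G'] [Fintype G']
  {D D' : DGA k}

private theorem CrPr_id {V W : Type u} [AddCommGroup V] [Module k V] [AddCommGroup W]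
    [Module k W] {f : V →ₗ[k] V} {g : W →ₗ[k] W} (hf : ∀ x, f x = x) (hg : ∀ x, g x = x)
    (x : V ⊗[k] W) : TensorProduct.map f g x = x := by
  induction x using TensorProduct.induction_on with
  | zero => exact map_zero _
  | add x y hx hy => rw [map_add, hx, hy]
  | tmul a b => rw [TensorProduct.map_tmul, hf, hg]

private theorem CrPr_comp {V V' V'' W W' W'' : Type u} [AddCommGroup V] [Module k V]
    [AddCommGroup V'] [Module k V'] [AddCommGroup V''] [Module k V''] [AddCommGroup W]
    [Module k W] [AddCommGroup W'] [Module k W'] [AddCommGroup W''] [Module k W'']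
    {f : V →ₗ[k] V'} {f' : V' →ₗ[k] V''} {f'' : V →ₗ[k] V''}
    {g : W →ₗ[k] W'} {g' : W' →ₗ[k] W''} {g'' : W →ₗ[k] W''}
    (hf : ∀ x, f'' x = f' (f x)) (hg : ∀ x, g'' x = g' (g x))
    (x : V ⊗[k] W) :
    TensorProduct.map f'' g'' x = TensorProduct.map f' g' (TensorProduct.map f g x) := by
  induction x using TensorProduct.induction_on with
  | zero => rw [map_zero, map_zero, map_zero]
  | add x y hx hy => rw [map_add, map_add, map_add, hx, hy]
  | tmul a b =>
    rw [TensorProduct.map_tmul, TensorProduct.map_tmul, TensorProduct.map_tmul, hf, hg]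

/-- The action of `G × G'` on `D ⊗ D'`. -/
noncomputable def Act.prod (α : Act G D) (β : Act G' D') : Act (G × G') (D.tensor D') where
  a := fun g => (α.a g.1).tensor (β.a g.2)
  a_one := fun x => by
    exact CrPr_id (f := (α.a 1).f) (g := (β.a 1).f) α.a_one β.a_one x
  a_mul := fun g h x => by
    exact CrPr_comp (α.a_mul g.1 h.1) (β.a_mul g.2 h.2) x

theorem Act.prod_f (α : Act G D) (β : Act G' D') (g : G × G') (x : (D.tensor D').A) :
    ((α.prod β).a g).f x = TensorProduct.map (α.a g.1).f (β.a g.2).f x := rfl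

/-- The map `x ⊗ y ↦ ((g, h) ↦ x g ⊗ y h)`. -/
noncomputable def prM (G G' : Type) [Fintype G] [Fintype G'] (V V' : Type u) [AddCommGroup V]
    [Module k V] [AddCommGroup V'] [Module k V'] :
    (G → V) ⊗[k] (G' → V') →ₗ[k] (G × G' → V ⊗[k] V') :=
  LinearMap.pi fun g => TensorProduct.map (LinearMap.proj g.1) (LinearMap.proj g.2)

theorem prM_tmul (V V' : Type u) [AddCommGroup V] [Module k V] [AddCommGroup V'] [Module k V']
    (x : G → V) (y : G' → V') (g : G × G') :
    prM (k := k) G G' V V' (x ⊗ₜ y) g = x g.1 ⊗ₜ y g.2 := rfl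

theorem prM_bij (V V' : Type u) [AddCommGroup V] [Module k V] [AddCommGroup V'] [Module k V'] :
    Function.Bijective (prM (k := k) G G' V V') := by
  classical
  refine Function.bijective_iff_has_inverse.2 ⟨fun z => ∑ g : G × G', TensorProduct.map
    (LinearMap.single k (fun _ : G => V) g.1) (LinearMap.single k (fun _ : G' => V') g.2) (z g),
    fun z => ?_, fun z => ?_⟩
  · induction z using TensorProduct.induction_on with
    | zero =>
      refine Finset.sum_eq_zero fun g _ => ?_
      rw [map_zero, Pi.zero_apply, map_zero]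
    | add x y hx hy =>
      conv_rhs => rw [← hx, ← hy]
      rw [← Finset.sum_add_distrib]
      refine Finset.sum_congr rfl fun g _ => ?_
      rw [map_add, Pi.add_apply, map_add]
    | tmul x y =>
      have h1 : ∀ g : G × G', TensorProduct.map (LinearMap.single k (fun _ : G => V) g.1)
          (LinearMap.single k (fun _ : G' => V') g.2) (prM (k := k) G G' V V' (x ⊗ₜ y) g) =
          (Pi.single g.1 (x g.1) : G → V) ⊗ₜ[k] (Pi.single g.2 (y g.2) : G' → V') := fun g => by
        rw [prM_tmul, TensorProduct.map_tmul]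
        rfl
      change ∑ g : G × G', _ = _
      rw [Finset.sum_congr rfl fun g _ => h1 g, Fintype.sum_prod_type]
      have h2 : ∀ g : G, ∑ g' : G', (Pi.single g (x g) : G → V) ⊗ₜ[k]
          (Pi.single g' (y g') : G' → V') = (Pi.single g (x g) : G → V) ⊗ₜ[k] y := fun g => by
        rw [← TensorProduct.tmul_sum, Finset.univ_sum_single]
      rw [Finset.sum_congr rfl fun g _ => h2 g, ← TensorProduct.sum_tmul,
        Finset.univ_sum_single]
  · funext t
    change TensorProduct.map (LinearMap.proj t.1 : (G → V) →ₗ[k] V)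
      (LinearMap.proj t.2 : (G' → V') →ₗ[k] V') (∑ g : G × G', _) = z t
    rw [map_sum, Finset.sum_eq_single t]
    · refine (CrPr_comp (f := LinearMap.single k (fun _ : G => V) t.1)
        (f' := (LinearMap.proj t.1 : (G → V) →ₗ[k] V)) (f'' := LinearMap.id)
        (g := LinearMap.single k (fun _ : G' => V') t.2)
        (g' := (LinearMap.proj t.2 : (G' → V') →ₗ[k] V')) (g'' := LinearMap.id)
        (fun v => ?_) (fun v => ?_) (z t)).symm.trans ?_
      · exact (Pi.single_eq_same (M := fun _ : G => V) t.1 v).symm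
      · exact (Pi.single_eq_same (M := fun _ : G' => V') t.2 v).symm
      · exact CrPr_id (fun _ => rfl) (fun _ => rfl) _
    · intro g _ hg
      by_cases h1 : t.1 = g.1
      · have h2 : t.2 ≠ g.2 := fun h => hg (Prod.ext h1 h).symm
        refine (CrPr_comp (f := LinearMap.single k (fun _ : G => V) g.1)
          (f' := (LinearMap.proj t.1 : (G → V) →ₗ[k] V)) (f'' := (LinearMap.proj t.1).comp
          (LinearMap.single k (fun _ : G => V) g.1))
          (g := LinearMap.single k (fun _ : G' => V') g.2)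
          (g' := (LinearMap.proj t.2 : (G' → V') →ₗ[k] V')) (g'' := 0)
          (fun v => rfl) (fun v => ?_) (z g)).symm.trans ?_
        · exact (Pi.single_eq_of_ne (M := fun _ : G' => V') h2 v).symm
        · rw [TensorProduct.map_zero_right, LinearMap.zero_apply]
      · refine (CrPr_comp (f := LinearMap.single k (fun _ : G => V) g.1)
          (f' := (LinearMap.proj t.1 : (G → V) →ₗ[k] V)) (f'' := 0)
          (g := LinearMap.single k (fun _ : G' => V') g.2)
          (g' := (LinearMap.proj t.2 : (G' → V') →ₗ[k] V')) (g'' := (LinearMap.proj t.2).comp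
          (LinearMap.single k (fun _ : G' => V') g.2))
          (fun v => ?_) (fun v => rfl) (z g)).symm.trans ?_
        · exact (Pi.single_eq_of_ne (M := fun _ : G => V) h1 v).symm
        · rw [TensorProduct.map_zero_left, LinearMap.zero_apply]
    · intro h
      exact absurd (Finset.mem_univ t) h

private theorem CrPr_one_same : crOne G D 1 = D.one := by
  classical
  unfold crOne
  exact Pi.single_eq_same _ _

private theorem CrPr_one_ne {h : G} (hh : h ≠ 1) : crOne G D h = 0 := by
  classical
  unfold crOne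
  exact Pi.single_eq_of_ne hh _

private theorem CrPr_deg {X : Dg k D.A} {X' : Dg k D'.A} {i : ℤ}
    {a : (G → D.A) ⊗[k] (G' → D'.A)} (ha : ((dgPi X G).tensor (dgPi X' G')).IsDeg i a) :
    (dgPi (X.tensor X') (G × G')).IsDeg i (prM G G' D.A D'.A a) := by
  have h := Dg.tensor_degMap (X := dgPi X G) (Y := dgPi X' G')
    (Z := dgPi (X.tensor X') (G × G')) (n := 0) (prM G G' D.A D'.A)
    (fun i j v w hv hw => by
      rw [add_zero]
      refine dgPi_deg.2 fun g => ?_
      rw [prM_tmul]
      exact Dg.tensor_deg (dgPi_deg.1 hv g.1) (dgPi_deg.1 hw g.2)) ha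
  rwa [add_zero] at h

private theorem CrPr_d (X : Dg k D.A) (X' : Dg k D'.A) (a : (G → D.A) ⊗[k] (G' → D'.A)) :
    (dgPi (X.tensor X') (G × G')).d (prM G G' D.A D'.A a) =
      prM G G' D.A D'.A (((dgPi X G).tensor (dgPi X' G')).d a) := by
  induction a using TensorProduct.induction_on with
  | zero => simp only [map_zero]
  | add x y hx hy => simp only [map_add, hx, hy]
  | tmul x y =>
    funext g
    rw [dgPi_d, prM_tmul, Dg.tensor_d, Dg.tensor_d, map_add, Pi.add_apply, prM_tmul, prM_tmul,
      dgPi_d, dgPi_s, dgPi_d]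

private theorem CrPr_one : prM (k := k) G G' D.A D'.A (crOne G D ⊗ₜ crOne G' D') =
    crOne (G × G') (D.tensor D') := by
  funext g
  rw [prM_tmul]
  by_cases hg : g = 1
  · subst hg
    rw [CrPr_one_same]
    change crOne G D 1 ⊗ₜ[k] crOne G' D' 1 = D.one ⊗ₜ[k] D'.one
    rw [CrPr_one_same, CrPr_one_same]
  · rw [CrPr_one_ne hg]
    by_cases h1 : g.1 = 1
    · have h2 : g.2 ≠ 1 := fun h => hg (Prod.ext h1 h)
      rw [CrPr_one_ne h2, TensorProduct.tmul_zero]
      rfl
    · rw [CrPr_one_ne h1, TensorProduct.zero_tmul]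
      rfl

private theorem CrPr_mul_apply (α : Act G D) (β : Act G' D')
    (a b : (G → D.A) ⊗[k] (G' → D'.A)) (g : G × G') :
    prM G G' D.A D'.A (kz (dgPi D.dg G) (dgPi D'.dg G') (crMul α) (crMul β) a b) g =
      ∑ h : G × G', kz D.dg D'.dg D.mul D'.mul (prM G G' D.A D'.A a h)
        (TensorProduct.map (α.a h.1).f (β.a h.2).f (prM G G' D.A D'.A b (h⁻¹ * g))) := by
  induction a using TensorProduct.induction_on with
  | zero => simp only [map_zero, LinearMap.zero_apply, Pi.zero_apply, Finset.sum_const_zero]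
  | add x y hx hy =>
    simp only [map_add, LinearMap.add_apply, Pi.add_apply, Finset.sum_add_distrib, hx, hy]
  | tmul x x' =>
    induction b using TensorProduct.induction_on with
    | zero => simp only [map_zero, Pi.zero_apply, Finset.sum_const_zero]
    | add x y hx hy => simp only [map_add, Pi.add_apply, Finset.sum_add_distrib, hx, hy]
    | tmul y y' =>
      have h1 : ∀ h : G × G', kz D.dg D'.dg D.mul D'.mul
          (prM G G' D.A D'.A (x ⊗ₜ[k] x') h) (TensorProduct.map (α.a h.1).f (β.a h.2).f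
            (prM G G' D.A D'.A (y ⊗ₜ[k] y') (h⁻¹ * g))) =
          D.mul (x h.1) ((α.a h.1).f (y (h.1⁻¹ * g.1))) ⊗ₜ[k]
            D'.mul (x' h.2) ((β.a h.2).f (y' (h.2⁻¹ * g.2))) -
          (2 : k) • D.mul (x h.1) ((α.a h.1).f ((dgPi D.dg G).o y (h.1⁻¹ * g.1))) ⊗ₜ[k]
            D'.mul ((dgPi D'.dg G').o x' h.2) ((β.a h.2).f (y' (h.2⁻¹ * g.2))) := fun h => by
        have h2 : D.dg.o ((α.a h.1).f (y (h.1⁻¹ * g.1))) =
            (α.a h.1).f (D.dg.o (y (h.1⁻¹ * g.1))) := by
          refine Dg.o_degMap_even (n := 0) (by simp) (α.a h.1).f (fun {j v} hv => ?_) _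
          rw [add_zero]
          exact (α.a h.1).deg hv
        rw [dgPi_o, dgPi_o, ← h2, prM_tmul, prM_tmul, TensorProduct.map_tmul, kz_tmul]
        rfl
      rw [kz_tmul, map_sub, map_smul, Pi.sub_apply, Pi.smul_apply, prM_tmul, prM_tmul,
        crMul_apply, crMul_apply, crMul_apply, crMul_apply,
        Finset.sum_congr rfl fun h _ => h1 h, Finset.sum_sub_distrib, ← Finset.smul_sum,
        Fintype.sum_prod_type, Fintype.sum_prod_type, TensorProduct.sum_tmul,
        TensorProduct.sum_tmul]
      simp only [TensorProduct.tmul_sum]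

private theorem CrPr_mul (α : Act G D) (β : Act G' D') (a b : (G → D.A) ⊗[k] (G' → D'.A)) :
    prM G G' D.A D'.A (kz (dgPi D.dg G) (dgPi D'.dg G') (crMul α) (crMul β) a b) =
      crMul (α.prod β) (prM G G' D.A D'.A a) (prM G G' D.A D'.A b) := by
  funext g
  exact (CrPr_mul_apply α β a b g).trans (crMul_apply (α.prod β) _ _ g).symm

/-- The homomorphism `(D ⋊ G) ⊗ (D' ⋊ G') → (D ⊗ D') ⋊ (G × G')`.

Proof of the fields: check them on the elements `x u_g ⊗ y u_h` with homogeneous `x`, `y` (that is on
`Pi.single g x ⊗ Pi.single h y`); the signs are the same since the groups act in degree `0`. -/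
noncomputable def crPr (α : Act G D) (β : Act G' D') :
    DHom ((cr α).tensor (cr β)) (cr (α.prod β)) where
  f := prM G G' D.A D'.A
  deg := fun {i a} ha => by
    exact CrPr_deg ha
  d := fun a => by
    exact CrPr_d D.dg D'.dg a
  one := by
    exact CrPr_one
  mul := fun a b => by
    exact CrPr_mul α β a b

theorem crPr_f (α : Act G D) (β : Act G' D') : (crPr α β).f = prM G G' D.A D'.A := rfl

/-- The restriction of an action along a homomorphism of groups. -/
def Act.comap (α : Act G D) (ε : G' →* G) : Act G' D where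
  a := fun g => α.a (ε g)
  a_one := fun x => by
    rw [map_one]
    exact α.a_one x
  a_mul := fun g h x => by
    rw [map_mul]
    exact α.a_mul _ _ x

theorem Act.comap_a (α : Act G D) (ε : G' →* G) (g : G') : (α.comap ε).a g = α.a (ε g) := rfl

/-- The map `x ↦ ∑ h, x h u_{ε h}`. -/
noncomputable def reM (ε : G' → G) (V : Type u) [AddCommGroup V] [Module k V] :
    (G' → V) →ₗ[k] (G → V) := by
  classical
  exact ∑ h : G', (LinearMap.single k (fun _ : G => V) (ε h)).comp (LinearMap.proj h)

theorem reM_apply [DecidableEq G] (ε : G' → G) (V : Type u) [AddCommGroup V] [Module k V]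
    (x : G' → V) : reM (k := k) ε V x = ∑ h : G', Pi.single (ε h) (x h) := by
  obtain rfl : ‹DecidableEq G› = fun a b => Classical.propDecidable (a = b) :=
    Subsingleton.elim _ _
  unfold reM
  rw [LinearMap.sum_apply]
  rfl

private theorem CrPr_re (ε : G' →* G) (hε : Function.Injective ε) {V : Type u} [AddCommGroup V]
    [Module k V] (x : G' → V) (h : G') : reM (k := k) ε V x (ε h) = x h := by
  classical
  rw [reM_apply, Finset.sum_apply, Finset.sum_eq_single h]
  · exact Pi.single_eq_same _ _
  · intro b _ hb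
    exact Pi.single_eq_of_ne (fun e => hb (hε e).symm) _
  · intro h'
    exact absurd (Finset.mem_univ h) h'

private theorem CrPr_re_ne (ε : G' →* G) {V : Type u} [AddCommGroup V]
    [Module k V] (x : G' → V) {t : G} (ht : ¬ ∃ h, ε h = t) : reM (k := k) ε V x t = 0 := by
  classical
  rw [reM_apply, Finset.sum_apply]
  refine Finset.sum_eq_zero fun h _ => ?_
  exact Pi.single_eq_of_ne (fun e => ht ⟨h, e.symm⟩) _

private theorem CrPr_re_deg (ε : G' →* G) (hε : Function.Injective ε) {V : Type u}
    [AddCommGroup V] [Module k V] {X : Dg k V} {i : ℤ} {a : G' → V}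
    (ha : (dgPi X G').IsDeg i a) : (dgPi X G).IsDeg i (reM (k := k) ε V a) := by
  refine dgPi_deg.2 fun t => ?_
  by_cases ht : ∃ h, ε h = t
  · obtain ⟨h, rfl⟩ := ht
    rw [CrPr_re ε hε]
    exact dgPi_deg.1 ha h
  · rw [CrPr_re_ne ε _ ht]
    exact Dg.IsDeg.zero i

private theorem CrPr_re_d (ε : G' →* G) (hε : Function.Injective ε) {V : Type u}
    [AddCommGroup V] [Module k V] (X : Dg k V) (a : G' → V) :
    (dgPi X G).d (reM (k := k) ε V a) = reM (k := k) ε V ((dgPi X G').d a) := by
  funext t
  rw [dgPi_d]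
  by_cases ht : ∃ h, ε h = t
  · obtain ⟨h, rfl⟩ := ht
    rw [CrPr_re ε hε, CrPr_re ε hε, dgPi_d]
  · rw [CrPr_re_ne ε _ ht, CrPr_re_ne ε _ ht, map_zero]

private theorem CrPr_re_one (ε : G' →* G) (hε : Function.Injective ε) :
    reM (k := k) ε D.A (crOne G' D) = crOne G D := by
  funext t
  by_cases ht : ∃ h, ε h = t
  · obtain ⟨h, rfl⟩ := ht
    rw [CrPr_re ε hε]
    by_cases hh : h = 1
    · subst hh
      rw [map_one, CrPr_one_same, CrPr_one_same]
    · rw [CrPr_one_ne hh, CrPr_one_ne (fun e => hh (hε (e.trans (map_one ε).symm)))]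
  · rw [CrPr_re_ne ε _ ht, CrPr_one_ne (fun e => ht ⟨1, by rw [map_one, e]⟩)]

private theorem CrPr_re_mul (α : Act G D) (ε : G' →* G) (hε : Function.Injective ε)
    (a b : G' → D.A) :
    reM (k := k) ε D.A (crMul (α.comap ε) a b) =
      crMul α (reM (k := k) ε D.A a) (reM (k := k) ε D.A b) := by
  funext t
  have h0 : crMul α (reM (k := k) ε D.A a) (reM (k := k) ε D.A b) t =
      ∑ h : G', D.mul (a h) ((α.a (ε h)).f (reM (k := k) ε D.A b ((ε h)⁻¹ * t))) := by
    rw [crMul_apply]
    refine (Fintype.sum_of_injective ε hε _ _ (fun s hs => ?_) (fun h => ?_)).symm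
    · rw [CrPr_re_ne ε _ (fun h => hs h), map_zero, LinearMap.zero_apply]
    · rw [CrPr_re ε hε]
  rw [h0]
  by_cases ht : ∃ h, ε h = t
  · obtain ⟨g, rfl⟩ := ht
    rw [CrPr_re ε hε, crMul_apply]
    refine Finset.sum_congr rfl fun h _ => ?_
    rw [← map_inv, ← map_mul, CrPr_re ε hε]
    rfl
  · rw [CrPr_re_ne ε _ ht]
    refine (Finset.sum_eq_zero fun h _ => ?_).symm
    rw [CrPr_re_ne ε _ (t := (ε h)⁻¹ * t) (fun ⟨g, hg⟩ => ht ⟨h * g, by
      rw [map_mul, hg, mul_inv_cancel_left]⟩), map_zero, map_zero]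

/-- The homomorphism `D ⋊ G' → D ⋊ G` given by an injective homomorphism of groups. -/
noncomputable def crRe (α : Act G D) (ε : G' →* G) (hε : Function.Injective ε) :
    DHom (cr (α.comap ε)) (cr α) where
  f := reM ε D.A
  deg := fun {i a} ha => by
    exact CrPr_re_deg ε hε ha
  d := fun a => by
    exact CrPr_re_d ε hε D.dg a
  one := by
    exact CrPr_re_one ε hε
  mul := fun a b => by
    exact CrPr_re_mul α ε hε a b

theorem crRe_inj (α : Act G D) (ε : G' →* G) (hε : Function.Injective ε) :
    Function.Injective (crRe α ε hε).f := by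
  intro x y hxy
  funext h
  have h1 : reM (k := k) ε D.A x (ε h) = reM (k := k) ε D.A y (ε h) := congrFun hxy (ε h)
  exact (CrPr_re ε hε (V := D.A) x h).symm.trans (h1.trans (CrPr_re ε hε (V := D.A) y h))

theorem crRe_range (α : Act G D) (ε : G' →* G) (hε : Function.Injective ε) (e : (cr α).A) :
    (∃ b, (crRe α ε hε).f b = e) ↔ ∀ g : G, (¬ ∃ h, ε h = g) → (crGr α).p g e = 0 := by
  constructor
  · rintro ⟨b, rfl⟩ g hg
    funext h
    refine (crGr_p α g _ h).trans ?_
    have h1 : ((crRe α ε hε).f b : G → D.A) g = 0 := CrPr_re_ne ε b hg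
    rw [h1, ite_self]
    rfl
  · intro h
    refine ⟨fun g => (e : G → D.A) (ε g), ?_⟩
    funext t
    change reM (k := k) ε D.A (fun g => (e : G → D.A) (ε g)) t = (e : G → D.A) t
    by_cases ht : ∃ h, ε h = t
    · obtain ⟨g, rfl⟩ := ht
      rw [CrPr_re ε hε]
    · rw [CrPr_re_ne ε _ ht]
      have h1 := (crGr_p α t e t).symm.trans (congrFun (h t ht) t)
      rw [if_pos rfl] at h1
      exact h1.symm

end Pool.Agent.MP_6e5bed_ag_SY
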