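import Pool.Agent.Lib.MP_6e5bed_ag_SY.ActM
import Pool.Agent.Lib.MP_6e5bed_ag_NC.TB

set_option autoImplicit false
set_option linter.unusedSectionVars false

/-!
# MP_6e5bed_ag (project SYM): tensor products of crossed bimodules
-/

namespace Pool.Agent.MP_6e5bed_ag_SY

open Pool.Agent.MP_6e5bed_ag_NC

universe u

variable {k : Type u} [CommRing k] {G : Type} [Group G] [Fintype G] {D D' D'' : DGA k}
  {α : Act G D} {α' : Act G D'} {α'' : Act G D''} {N N' : Bim D D'} {M : Bim D' D''}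

/-- Isomorphic equivariant bimodules have isomorphic crossed bimodules. -/
theorem crM_biso (β : EqB α α' N) (β' : EqB α α' N') (φ : GMap 0 N N') (hφ : φ.dd = 0)
    (hb : Function.Bijective φ.f) (h : ∀ g x, φ.f (β.b g x) = β'.b g (φ.f x)) :
    BIso (crM β) (crM β') := by
  refine BIso.of_bij (crMap β β' φ h) ?_ ⟨?_, ?_⟩
  · refine LinearMap.ext fun n => funext fun g => ?_
    change N'.dg.d (φ.f (n g)) - (sg 0 • (fun g => φ.f (N.dg.d (n g)))) g = 0
    rw [sg_zero, one_smul, GMap.d_f_zero hφ, sub_self]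
  · intro x y hxy
    funext g
    exact hb.1 (congrFun hxy g)
  · intro y
    choose x hx using fun g => hb.2 (y g)
    exact ⟨x, funext hx⟩

private theorem CrTb_s (β : EqB α α' N) (g : G) (x : N.M) :
    β.b g (N.dg.s x) = N.dg.s (β.b g x) :=
  (Dg.s_degMap_even (n := 0) Even.zero (β.b g) (fun h => by
    rw [add_zero]
    exact β.b_deg g h) x).symm

private theorem CrTb_balance (β : EqB α α' N) (γ : EqB α' α'' M) (g : G) (m : N.M) (b : D'.A)
    (n : M.M) : ((tmB N M).compl₁₂ (β.b g) (γ.b g)) (N.r b m) n =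
      ((tmB N M).compl₁₂ (β.b g) (γ.b g)) m (M.l b n) := by
  change tm (M := N) (N := M) (β.b g (N.r b m)) (γ.b g n) = tm (β.b g m) (γ.b g (M.l b n))
  rw [β.b_r, tm_r_l, γ.b_l]

private noncomputable def CrTb_act (β : EqB α α' N) (γ : EqB α' α'' M) (g : G) :
    (tb N M).M →ₗ[k] (tb N M).M :=
  tlift ((tmB N M).compl₁₂ (β.b g) (γ.b g)) (CrTb_balance β γ g)

private theorem CrTb_act_tm (β : EqB α α' N) (γ : EqB α' α'' M) (g : G) (x : N.M) (y : M.M) :
    CrTb_act β γ g (tm x y) = tm (β.b g x) (γ.b g y) := by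
  rw [CrTb_act, tlift_tm]
  rfl

private theorem CrTb_act_one (β : EqB α α' N) (γ : EqB α' α'' M) (x : (tb N M).M) :
    CrTb_act β γ 1 x = x := by
  refine LinearMap.congr_fun (f := CrTb_act β γ 1) (g := LinearMap.id)
    (tb_hom_ext fun m n => ?_) x
  rw [CrTb_act_tm, β.b_one, γ.b_one, LinearMap.id_apply]

private theorem CrTb_act_mul (β : EqB α α' N) (γ : EqB α' α'' M) (g h : G) (x : (tb N M).M) :
    CrTb_act β γ (g * h) x = CrTb_act β γ g (CrTb_act β γ h x) := by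
  refine LinearMap.congr_fun (f := CrTb_act β γ (g * h))
    (g := (CrTb_act β γ g).comp (CrTb_act β γ h)) (tb_hom_ext fun m n => ?_) x
  rw [LinearMap.comp_apply, CrTb_act_tm, CrTb_act_tm, CrTb_act_tm, β.b_mul, γ.b_mul]

private theorem CrTb_act_deg (β : EqB α α' N) (γ : EqB α' α'' M) (g : G) {i : ℤ}
    {x : (tb N M).M} (hx : (tb N M).dg.IsDeg i x) : (tb N M).dg.IsDeg i (CrTb_act β γ g x) := by
  have h := tb_degMap (M := N) (N := M) (Z := (tb N M).dg) (n := 0)
    (CrTb_act β γ g) (fun {i' j' v w} hv hw => by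
      rw [CrTb_act_tm, add_zero]
      exact tb_deg (β.b_deg g hv) (γ.b_deg g hw)) hx
  rw [add_zero] at h
  exact h

private theorem CrTb_act_d (β : EqB α α' N) (γ : EqB α' α'' M) (g : G) (x : (tb N M).M) :
    (tb N M).dg.d (CrTb_act β γ g x) = CrTb_act β γ g ((tb N M).dg.d x) := by
  refine LinearMap.congr_fun (f := (tb N M).dg.d.comp (CrTb_act β γ g))
    (g := (CrTb_act β γ g).comp (tb N M).dg.d) (tb_hom_ext fun m n => ?_) x
  rw [LinearMap.comp_apply, LinearMap.comp_apply, CrTb_act_tm, tb_d, tb_d, map_add, CrTb_act_tm,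
    CrTb_act_tm, β.b_d, CrTb_s, γ.b_d]

private theorem CrTb_act_l (β : EqB α α' N) (γ : EqB α' α'' M) (g : G) (d : D.A)
    (x : (tb N M).M) : CrTb_act β γ g ((tb N M).l d x) =
      (tb N M).l ((α.a g).f d) (CrTb_act β γ g x) := by
  refine LinearMap.congr_fun (f := (CrTb_act β γ g).comp ((tb N M).l d))
    (g := ((tb N M).l ((α.a g).f d)).comp (CrTb_act β γ g)) (tb_hom_ext fun m n => ?_) x
  rw [LinearMap.comp_apply, LinearMap.comp_apply, tb_l, CrTb_act_tm, CrTb_act_tm, tb_l, β.b_l]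

private theorem CrTb_act_r (β : EqB α α' N) (γ : EqB α' α'' M) (g : G) (d : D''.A)
    (x : (tb N M).M) : CrTb_act β γ g ((tb N M).r d x) =
      (tb N M).r ((α''.a g).f d) (CrTb_act β γ g x) := by
  refine LinearMap.congr_fun (f := (CrTb_act β γ g).comp ((tb N M).r d))
    (g := ((tb N M).r ((α''.a g).f d)).comp (CrTb_act β γ g)) (tb_hom_ext fun m n => ?_) x
  rw [LinearMap.comp_apply, LinearMap.comp_apply, tb_r, CrTb_act_tm, CrTb_act_tm, tb_r, γ.b_r]

/-- The action on `N ⊗ M` over `D'`, `g (n ⊗ m) = g n ⊗ g m`. -/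
noncomputable def EqB.tb (β : EqB α α' N) (γ : EqB α' α'' M) : EqB α α'' (tb N M) where
  b := fun g => tlift ((tmB N M).compl₁₂ (β.b g) (γ.b g)) (fun m b n => by
    exact CrTb_balance β γ g m b n)
  b_one := fun x => by
    exact CrTb_act_one β γ x
  b_mul := fun g h x => by
    exact CrTb_act_mul β γ g h x
  b_deg := fun g {i x} hx => by
    exact CrTb_act_deg β γ g hx
  b_d := fun g x => by
    exact CrTb_act_d β γ g x
  b_l := fun g d x => by
    exact CrTb_act_l β γ g d x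
  b_r := fun g d x => by
    exact CrTb_act_r β γ g d x

theorem EqB.tb_tm (β : EqB α α' N) (γ : EqB α' α'' M) (g : G) (x : N.M) (y : M.M) :
    (β.tb γ).b g (tm (M := N) (N := M) x y) = tm (M := N) (N := M) (β.b g x) (γ.b g y) := by
  exact CrTb_act_tm β γ g x y

/-- The family with the value `v` at `g`. -/
private noncomputable def CrTb_1 {V : Type u} [AddCommGroup V] [Module k V] (g : G) :
    V →ₗ[k] (G → V) := by
  classical
  exact LinearMap.single k (fun _ : G => V) g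

private theorem CrTb_1_same {V : Type u} [AddCommGroup V] [Module k V] (g : G) (v : V) :
    CrTb_1 (k := k) g v g = v := by
  classical
  exact Pi.single_eq_same (M := fun _ : G => V) g v

private theorem CrTb_1_ne {V : Type u} [AddCommGroup V] [Module k V] {g h : G} (hh : h ≠ g)
    (v : V) : CrTb_1 (k := k) g v h = 0 := by
  classical
  exact Pi.single_eq_of_ne (M := fun _ : G => V) hh v

private theorem CrTb_1_sum {V : Type u} [AddCommGroup V] [Module k V] (f : G → V) :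
    ∑ g, CrTb_1 (k := k) g (f g) = f := by
  funext a
  rw [Finset.sum_apply, Finset.sum_eq_single a, CrTb_1_same]
  · exact fun b _ hb => CrTb_1_ne (Ne.symm hb) _
  · exact fun h => absurd (Finset.mem_univ a) h

private theorem CrTb_1_map {V W : Type u} [AddCommGroup V] [Module k V] [AddCommGroup W]
    [Module k W] (f : V →ₗ[k] W) (g a b : G) (v : V) (hab : a = g ↔ b = g) :
    f (CrTb_1 (k := k) g v a) = CrTb_1 (k := k) g (f v) b := by
  by_cases ha : a = g
  · rw [ha, hab.1 ha, CrTb_1_same, CrTb_1_same]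
  · rw [CrTb_1_ne ha, CrTb_1_ne (fun h => ha (hab.2 h)), map_zero]

private theorem CrTb_degsum {V : Type u} [AddCommGroup V] [Module k V] {X : Dg k V} {n : ℤ}
    (f : G → V) (h : ∀ g, X.IsDeg n (f g)) : X.IsDeg n (∑ g, f g) := by
  classical
  have : ∀ s : Finset G, X.IsDeg n (∑ g ∈ s, f g) := by
    intro s
    induction s using Finset.induction_on with
    | empty => exact Dg.IsDeg.zero n
    | insert a t ha ih =>
      rw [Finset.sum_insert ha]
      exact (h a).add ih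
  exact this _

private theorem CrTb_tms {ι : Type} (s : Finset ι) (f : ι → N.M) (m : M.M) :
    (tm (M := N) (N := M) (∑ i ∈ s, f i) m) = ∑ i ∈ s, tm (f i) m := by
  have h := map_sum ((tmB N M).flip m) f s
  exact h

private theorem CrTb_tms' {ι : Type} (s : Finset ι) (n : N.M) (f : ι → M.M) :
    (tm (M := N) (N := M) n (∑ i ∈ s, f i)) = ∑ i ∈ s, tm n (f i) := by
  have h := map_sum (tmB N M n) f s
  exact h

/-- The bilinear map `(x, y) ↦ (a ↦ ∑ g, x(g) ⊗ γ_g(y(g⁻¹ a)))`. -/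
private noncomputable def CrTb_B (_ : EqB α α' N) (γ : EqB α' α'' M) :
    (G → N.M) →ₗ[k] (G → M.M) →ₗ[k] (G → (tb N M).M) :=
  LinearMap.mk₂ k (fun x y a => ∑ g, tm (x g) (γ.b g (y (g⁻¹ * a))))
    (fun x x' y => by
      funext a
      simp only [Pi.add_apply, tm_add_left, Finset.sum_add_distrib])
    (fun c x y => by
      funext a
      simp only [Pi.smul_apply, tm_smul_left, Finset.smul_sum])
    (fun x y y' => by
      funext a
      simp only [Pi.add_apply, map_add, tm_add_right, Finset.sum_add_distrib])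
    (fun c x y => by
      funext a
      simp only [Pi.smul_apply, map_smul, tm_smul_right, Finset.smul_sum])

private theorem CrTb_B_apply (β : EqB α α' N) (γ : EqB α' α'' M) (x : G → N.M) (y : G → M.M)
    (a : G) : CrTb_B β γ x y a = ∑ g, tm (x g) (γ.b g (y (g⁻¹ * a))) := rfl

private theorem CrTb_bal (β : EqB α α' N) (γ : EqB α' α'' M) (x : G → N.M) (d : G → D'.A)
    (y : G → M.M) : CrTb_B β γ (crR β d x) y = CrTb_B β γ x (crL γ d y) := by
  funext a
  rw [CrTb_B_apply, CrTb_B_apply]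
  simp only [crR_apply, crL_apply, map_sum, CrTb_tms, CrTb_tms', tm_r_l, γ.b_l]
  rw [Finset.sum_comm]
  refine Finset.sum_congr rfl fun h _ => ?_
  refine (Fintype.sum_equiv (Equiv.mulLeft h) _ _ fun g => ?_).symm
  rw [Equiv.coe_mulLeft, inv_mul_cancel_left, mul_inv_rev, γ.b_mul, mul_assoc]

/-- The map `(N ⋊ G) ⊗ (M ⋊ G) → (N ⊗ M) ⋊ G`. -/
private noncomputable def CrTb_F (β : EqB α α' N) (γ : EqB α' α'' M) :
    (tb (crM β) (crM γ)).M →ₗ[k] (crM (β.tb γ)).M :=
  tlift (M := crM β) (N := crM γ) (U := (crM (β.tb γ)).M) (CrTb_B β γ)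
    (fun x d y => CrTb_bal β γ x d y)

private theorem CrTb_F_tm (β : EqB α α' N) (γ : EqB α' α'' M) (x : (crM β).M) (y : (crM γ).M) :
    CrTb_F β γ (tm x y) = CrTb_B β γ x y := tlift_tm _ _ _ _

private theorem CrTb_map_l (β : EqB α α' N) (γ : EqB α' α'' M) (a : G → D.A) (m : G → N.M)
    (n : G → M.M) : CrTb_B β γ (crL β a m) n = crL (β.tb γ) a (CrTb_B β γ m n) := by
  funext c
  rw [crL_apply, CrTb_B_apply]
  simp only [crL_apply, CrTb_B_apply, map_sum, CrTb_tms, EqB.tb_tm, tb_l]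
  rw [Finset.sum_comm]
  refine Finset.sum_congr rfl fun h _ => ?_
  refine (Fintype.sum_equiv (Equiv.mulLeft h) _ _ fun g => ?_).symm
  rw [Equiv.coe_mulLeft, inv_mul_cancel_left, mul_inv_rev, γ.b_mul, mul_assoc]

private theorem CrTb_map_r (β : EqB α α' N) (γ : EqB α' α'' M) (b : G → D''.A) (m : G → N.M)
    (n : G → M.M) : CrTb_B β γ m (crR γ b n) = crR (β.tb γ) b (CrTb_B β γ m n) := by
  funext c
  rw [crR_apply, CrTb_B_apply]
  simp only [crR_apply, CrTb_B_apply, map_sum, CrTb_tms', tb_r, γ.b_r]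
  rw [Finset.sum_comm (s := Finset.univ (α := G)) (t := Finset.univ (α := G))
    (f := fun x y => tm (m y) (M.r ((α''.a x).f (b (x⁻¹ * c))) (γ.b y (n (y⁻¹ * x)))))]
  refine Finset.sum_congr rfl fun g _ => ?_
  refine Fintype.sum_equiv (Equiv.mulLeft g) _ _ fun h => ?_
  rw [Equiv.coe_mulLeft, inv_mul_cancel_left, mul_inv_rev, α''.a_mul, mul_assoc]

private theorem CrTb_d (β : EqB α α' N) (γ : EqB α' α'' M) (m : G → N.M) (n : G → M.M) :
    (dgPi (tb N M).dg G).d (CrTb_B β γ m n) = CrTb_B β γ ((dgPi N.dg G).d m) n +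
      CrTb_B β γ ((dgPi N.dg G).s m) ((dgPi M.dg G).d n) := by
  funext c
  rw [Pi.add_apply, dgPi_d, CrTb_B_apply, CrTb_B_apply, CrTb_B_apply, map_sum,
    ← Finset.sum_add_distrib]
  refine Finset.sum_congr rfl fun g _ => ?_
  rw [tb_d, dgPi_d, dgPi_s, dgPi_d, γ.b_d]

private theorem CrTb_r1 (β : EqB α α' N) (g h : G) (x : N.M) (d : D'.A) :
    crR β (CrTb_1 (k := k) h d) (CrTb_1 (k := k) g x) =
      CrTb_1 (k := k) (g * h) (N.r ((α'.a g).f d) x) := by
  funext c
  rw [crR_apply, Finset.sum_eq_single g]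
  · rw [CrTb_1_same]
    by_cases hc : c = g * h
    · rw [hc, inv_mul_cancel_left, CrTb_1_same, CrTb_1_same]
    · rw [CrTb_1_ne hc, CrTb_1_ne (fun h' => hc (by rw [← h', mul_inv_cancel_left])), map_zero,
        map_zero, LinearMap.zero_apply]
  · intro b _ hb
    rw [CrTb_1_ne hb, map_zero]
  · exact fun h => absurd (Finset.mem_univ g) h

private theorem CrTb_l1 (γ : EqB α' α'' M) (g h : G) (y : M.M) (d : D'.A) :
    crL γ (CrTb_1 (k := k) g d) (CrTb_1 (k := k) h y) =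
      CrTb_1 (k := k) (g * h) (M.l d (γ.b g y)) := by
  funext c
  rw [crL_apply, Finset.sum_eq_single g]
  · rw [CrTb_1_same]
    by_cases hc : c = g * h
    · rw [hc, inv_mul_cancel_left, CrTb_1_same, CrTb_1_same]
    · rw [CrTb_1_ne hc, CrTb_1_ne (fun h' => hc (by rw [← h', mul_inv_cancel_left])), map_zero,
        map_zero]
  · intro b _ hb
    rw [CrTb_1_ne hb, map_zero, LinearMap.zero_apply]
  · exact fun h => absurd (Finset.mem_univ g) h

/-- The element `x u_g ⊗ y u_h`. -/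
private noncomputable def CrTb_t (β : EqB α α' N) (γ : EqB α' α'' M) (g h : G) :
    N.M →ₗ[k] M.M →ₗ[k] (tb (crM β) (crM γ)).M :=
  (show (G → N.M) →ₗ[k] (G → M.M) →ₗ[k] (tb (crM β) (crM γ)).M from
    tmB (crM β) (crM γ)).compl₁₂ (CrTb_1 (k := k) g) (CrTb_1 (k := k) h)

private theorem CrTb_t_apply (β : EqB α α' N) (γ : EqB α' α'' M) (g h : G) (x : N.M) (y : M.M) :
    CrTb_t β γ g h x y = tm (M := crM β) (N := crM γ) (CrTb_1 (k := k) g x)
      (CrTb_1 (k := k) h y) := rfl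

private theorem CrTb_rl (β : EqB α α' N) (γ : EqB α' α'' M) (x : G → N.M) (d : G → D'.A)
    (y : G → M.M) : tm (M := crM β) (N := crM γ) (crR β d x) y = tm x (crL γ d y) :=
  tm_r_l (M := crM β) (N := crM γ) x d y

private theorem CrTb_key (β : EqB α α' N) (γ : EqB α' α'' M) (g h : G) (x : N.M) (y : M.M) :
    CrTb_t β γ g h x y = CrTb_t β γ 1 (g * h) x (γ.b g y) := by
  have h1 : CrTb_1 (k := k) g x = crR β (CrTb_1 (k := k) g D'.one) (CrTb_1 (k := k) 1 x) := by
    rw [CrTb_r1, one_mul, α'.a_one, N.r_one]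
  have h2 : CrTb_1 (k := k) (g * h) (γ.b g y) =
      crL γ (CrTb_1 (k := k) g D'.one) (CrTb_1 (k := k) h y) := by
    rw [CrTb_l1, M.l_one]
  rw [CrTb_t_apply, CrTb_t_apply, h1, h2, CrTb_rl]

private theorem CrTb_tbal (β : EqB α α' N) (γ : EqB α' α'' M) (g : G) (x : N.M) (d : D'.A)
    (y : M.M) : CrTb_t β γ 1 g (N.r d x) y = CrTb_t β γ 1 g x (M.l d y) := by
  have h1 : CrTb_1 (k := k) 1 (N.r d x) = crR β (CrTb_1 (k := k) 1 d) (CrTb_1 (k := k) 1 x) := by
    rw [CrTb_r1, one_mul, α'.a_one]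
  have h2 : CrTb_1 (k := k) g (M.l d y) =
      crL γ (CrTb_1 (k := k) 1 d) (CrTb_1 (k := k) g y) := by
    rw [CrTb_l1, one_mul, γ.b_one]
  rw [CrTb_t_apply, CrTb_t_apply, h1, h2, CrTb_rl]

/-- The inverse map. -/
private noncomputable def CrTb_G' (β : EqB α α' N) (γ : EqB α' α'' M) :
    (G → (tb N M).M) →ₗ[k] (tb (crM β) (crM γ)).M :=
  ∑ g : G, (tlift (CrTb_t β γ 1 g) (fun x d y => CrTb_tbal β γ g x d y)).comp
    (LinearMap.proj g)

private noncomputable def CrTb_G (β : EqB α α' N) (γ : EqB α' α'' M) :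
    (crM (β.tb γ)).M →ₗ[k] (tb (crM β) (crM γ)).M := CrTb_G' β γ

private theorem CrTb_G'_apply (β : EqB α α' N) (γ : EqB α' α'' M) (z : G → (tb N M).M) :
    CrTb_G' β γ z =
      ∑ g : G, tlift (CrTb_t β γ 1 g) (fun x d y => CrTb_tbal β γ g x d y) (z g) := by
  rw [CrTb_G', LinearMap.sum_apply]
  rfl

private theorem CrTb_GF' (β : EqB α α' N) (γ : EqB α' α'' M) (m : G → N.M) (n : G → M.M) :
    CrTb_G' β γ (CrTb_B β γ m n) = tm (M := crM β) (N := crM γ) m n := by
  rw [CrTb_G'_apply]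
  have h1 : ∀ g : G, tlift (CrTb_t β γ 1 g) (fun x d y => CrTb_tbal β γ g x d y)
      (CrTb_B β γ m n g) = ∑ h : G, CrTb_t β γ h (h⁻¹ * g) (m h) (n (h⁻¹ * g)) := by
    intro g
    rw [CrTb_B_apply, map_sum]
    refine Finset.sum_congr rfl fun h _ => ?_
    rw [tlift_tm, CrTb_key β γ h, mul_inv_cancel_left]
  have h2 : tm (M := crM β) (N := crM γ) m n =
      ∑ h : G, ∑ g : G, CrTb_t β γ h g (m h) (n g) := by
    refine (congrArg₂ (fun (a : G → N.M) (b : G → M.M) =>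
      tm (M := crM β) (N := crM γ) a b) (CrTb_1_sum (k := k) m).symm
        (CrTb_1_sum (k := k) n).symm).trans ?_
    refine (CrTb_tms (N := crM β) (M := crM γ) _ _ _).trans ?_
    refine Finset.sum_congr rfl fun h _ => ?_
    exact CrTb_tms' (N := crM β) (M := crM γ) Finset.univ (CrTb_1 (k := k) h (m h))
      (fun g => CrTb_1 (k := k) g (n g))
  rw [h2, Finset.sum_congr rfl fun g _ => h1 g, Finset.sum_comm]
  refine Finset.sum_congr rfl fun h _ => ?_
  exact Fintype.sum_equiv (Equiv.mulLeft h⁻¹) _ _ fun g => rfl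

private theorem CrTb_GF (β : EqB α α' N) (γ : EqB α' α'' M) (x : (tb (crM β) (crM γ)).M) :
    CrTb_G β γ (CrTb_F β γ x) = x := by
  refine LinearMap.congr_fun (f := (CrTb_G β γ).comp (CrTb_F β γ)) (g := LinearMap.id)
    (tb_hom_ext fun m n => ?_) x
  rw [LinearMap.comp_apply, CrTb_F_tm]
  exact CrTb_GF' β γ m n

private theorem CrTb_B1 (β : EqB α α' N) (γ : EqB α' α'' M) (g : G) (m : N.M) (n : M.M) :
    CrTb_B β γ (CrTb_1 (k := k) 1 m) (CrTb_1 (k := k) g n) =
      CrTb_1 (k := k) g (tm (M := N) (N := M) m n) := by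
  funext c
  rw [CrTb_B_apply, Finset.sum_eq_single 1, CrTb_1_same, γ.b_one, inv_one, one_mul]
  · exact CrTb_1_map (tmB N M m) g c c n Iff.rfl
  · intro b _ hb
    rw [CrTb_1_ne hb, tm_zero_left]
  · exact fun h => absurd (Finset.mem_univ 1) h

private theorem CrTb_FG1 (β : EqB α α' N) (γ : EqB α' α'' M) (g : G) (z : (tb N M).M) :
    CrTb_F β γ (tlift (CrTb_t β γ 1 g)
      (fun x d y => CrTb_tbal β γ g x d y) z) = CrTb_1 (k := k) g z := by
  refine LinearMap.congr_fun (f := (CrTb_F β γ).comp (tlift (CrTb_t β γ 1 g)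
    (fun x d y => CrTb_tbal β γ g x d y))) (g := CrTb_1 (k := k) g)
    (tb_hom_ext fun m n => ?_) z
  rw [LinearMap.comp_apply, tlift_tm, CrTb_t_apply]
  exact (CrTb_F_tm β γ _ _).trans (CrTb_B1 β γ g m n)

private theorem CrTb_FG' (β : EqB α α' N) (γ : EqB α' α'' M) (x : G → (tb N M).M) :
    CrTb_F β γ (CrTb_G' β γ x) = x := by
  rw [CrTb_G'_apply, map_sum]
  refine (Finset.sum_congr rfl fun g _ => CrTb_FG1 β γ g (x g)).trans ?_
  exact CrTb_1_sum x

private theorem CrTb_FG (β : EqB α α' N) (γ : EqB α' α'' M) (x : (crM (β.tb γ)).M) :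
    CrTb_F β γ (CrTb_G β γ x) = x := CrTb_FG' β γ x

/-- `(N ⋊ G) ⊗ (M ⋊ G) ≅ (N ⊗ M) ⋊ G`.

Proof. The map is `n u_g ⊗ m u_h ↦ n ⊗ g(m) u_{gh}`, that is
`x ⊗ y ↦ (a ↦ ∑ g, x(g) ⊗ γ_g(y(g⁻¹ a)))`; the inverse is `(n ⊗ m) u_g ↦ n u_1 ⊗ m u_g`, that is
`z ↦ ∑ g, (the image of z(g) under n ⊗ m ↦ single 1 n ⊗ single g m)`. -/
theorem crM_tb (β : EqB α α' N) (γ : EqB α' α'' M) :
    BIso (Pool.Agent.MP_6e5bed_ag_NC.tb (crM β) (crM γ)) (crM (β.tb γ)) := by
  refine BIso.of_bij (M := Pool.Agent.MP_6e5bed_ag_NC.tb (crM β) (crM γ)) (N := crM (β.tb γ))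
    ⟨CrTb_F β γ, fun {i x} hx => ?_, fun a x => ?_, fun b x => ?_⟩ ?_ ⟨?_, ?_⟩
  · refine tb_degMap (M := crM β) (N := crM γ) (Z := (crM (β.tb γ)).dg) (n := 0)
      (CrTb_F β γ) (fun {i' j' v w} hv hw => ?_) hx
    rw [CrTb_F_tm, add_zero]
    refine dgPi_deg.2 fun a => ?_
    refine CrTb_degsum _ fun g => ?_
    exact tb_deg (dgPi_deg.1 hv g) (γ.b_deg g (dgPi_deg.1 hw _))
  · rw [Dg.sp_zero]
    refine LinearMap.congr_fun
      (f := (CrTb_F β γ).comp ((Pool.Agent.MP_6e5bed_ag_NC.tb (crM β) (crM γ)).l a))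
      (g := ((crM (β.tb γ)).l a).comp (CrTb_F β γ))
      (tb_hom_ext fun m n => ?_) x
    rw [LinearMap.comp_apply, LinearMap.comp_apply, tb_l, CrTb_F_tm, CrTb_F_tm]
    exact CrTb_map_l β γ a m n
  · refine LinearMap.congr_fun
      (f := (CrTb_F β γ).comp ((Pool.Agent.MP_6e5bed_ag_NC.tb (crM β) (crM γ)).r b))
      (g := ((crM (β.tb γ)).r b).comp (CrTb_F β γ))
      (tb_hom_ext fun m n => ?_) x
    rw [LinearMap.comp_apply, LinearMap.comp_apply, tb_r, CrTb_F_tm, CrTb_F_tm]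
    exact CrTb_map_r β γ b m n
  · refine tb_hom_ext fun m n => ?_
    rw [GMap.dd_apply, sg_zero, one_smul, LinearMap.zero_apply, sub_eq_zero]
    change (crM (β.tb γ)).dg.d (CrTb_F β γ (tm m n)) =
      CrTb_F β γ ((Pool.Agent.MP_6e5bed_ag_NC.tb (crM β) (crM γ)).dg.d (tm m n))
    rw [tb_d, map_add, CrTb_F_tm, CrTb_F_tm, CrTb_F_tm]
    exact CrTb_d β γ m n
  · exact Function.LeftInverse.injective (g := CrTb_G β γ) (CrTb_GF β γ)
  · exact Function.RightInverse.surjective (g := CrTb_G β γ) (CrTb_FG β γ)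

end Pool.Agent.MP_6e5bed_ag_SY
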