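import Pool.Agent.Lib.MP_6e5bed_ag_SY.SmCr
import Pool.Agent.Lib.MP_6e5bed_ag_CV.CorPerf

set_option autoImplicit false
set_option linter.unusedSectionVars false

/-!
# MP_6e5bed_ag (project SYM): twists and tensor products of bimodules
-/

namespace Pool.Agent.MP_6e5bed_ag_SY

open Pool.Agent.MP_6e5bed_ag_NC
open CategoryTheory MonoidalCategory

universe u

variable {k : Type u} [Field k] {G : Type} [Group G] [Fintype G] {E F H : DGA k}
  (Γ : GrA G E) (Y Y' : Type) [Fintype Y] [MulAction G Y] [Fintype Y'] [MulAction G Y']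

section helpers

variable {A B : DGA k} {M N : Bim A B}

/-- The graded map of degree zero given by a linear map. -/
private def TwAMk (f : M.M →ₗ[k] N.M) (hdeg : ∀ {i : ℤ} {m : M.M}, M.dg.IsDeg i m →
    N.dg.IsDeg i (f m)) (hl : ∀ a m, f (M.l a m) = N.l a (f m))
    (hr : ∀ b m, f (M.r b m) = N.r b (f m)) : GMap 0 M N where
  f := f
  deg := fun {i m} hm => by
    rw [add_zero]
    exact hdeg hm
  map_l := fun a m => by
    rw [Dg.sp_zero]
    exact hl a m
  map_r := hr

private theorem TwAMk_dd (f : M.M →ₗ[k] N.M) (hdeg : ∀ {i : ℤ} {m : M.M}, M.dg.IsDeg i m →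
    N.dg.IsDeg i (f m)) (hl : ∀ a m, f (M.l a m) = N.l a (f m))
    (hr : ∀ b m, f (M.r b m) = N.r b (f m)) (hd : ∀ m, N.dg.d (f m) = f (M.dg.d m)) :
    (TwAMk f hdeg hl hr).dd = 0 := by
  refine LinearMap.ext fun m => ?_
  rw [GMap.dd_apply, sg_zero, one_smul, LinearMap.zero_apply, sub_eq_zero]
  exact hd m

private theorem TwA_biso (f : M.M →ₗ[k] N.M) (hb : Function.Bijective f)
    (hdeg : ∀ {i : ℤ} {m : M.M}, M.dg.IsDeg i m → N.dg.IsDeg i (f m))
    (hl : ∀ a m, f (M.l a m) = N.l a (f m)) (hr : ∀ b m, f (M.r b m) = N.r b (f m))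
    (hd : ∀ m, N.dg.d (f m) = f (M.dg.d m)) : BIso M N :=
  BIso.of_bij (TwAMk f hdeg hl hr) (TwAMk_dd f hdeg hl hr hd) hb

end helpers

section tb

variable (M : Bim E F) (N : Bim F H)

/-- The bilinear map `(f, n) ↦ (y ↦ f(y) ⊗ n)`. -/
private noncomputable def TwAβ : (tws Γ Y M).M →ₗ[k] N.M →ₗ[k] (tws Γ Y (tb M N)).M :=
  LinearMap.mk₂ k (fun (f : Y → M.M) n (y : Y) => (tm (f y) n : (tb M N).M))
    (fun _ _ _ => funext fun _ => tm_add_left _ _ _)
    (fun _ _ _ => funext fun _ => tm_smul_left _ _ _)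
    (fun _ _ _ => funext fun _ => tm_add_right _ _ _)
    (fun _ _ _ => funext fun _ => tm_smul_right _ _ _)

/-- The map `f ⊗ n ↦ (y ↦ f(y) ⊗ n)`. -/
private noncomputable def TwAφ : (tb (tws Γ Y M) N).M →ₗ[k] (tws Γ Y (tb M N)).M :=
  tlift (M := tws Γ Y M) (N := N) (TwAβ Γ Y M N)
    (fun f b n => funext fun y => tm_r_l (M := M) (N := N) (f y) b n)

private theorem TwAφ_tm (f : (tws Γ Y M).M) (n : N.M) (y : Y) :
    TwAφ Γ Y M N (tm (M := tws Γ Y M) (N := N) f n) y = (tm (f y) n : (tb M N).M) :=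
  congrFun (tlift_tm (M := tws Γ Y M) (N := N) (TwAβ Γ Y M N) _ f n) y

open Classical in
/-- The map `m ⊗ n ↦ (single y m) ⊗ n`. -/
private noncomputable def TwAι (y : Y) : (tb M N).M →ₗ[k] (tb (tws Γ Y M) N).M :=
  tlift (M := M) (N := N) ((tmB (tws Γ Y M) N).comp (LinearMap.single k (fun _ : Y => M.M) y))
    (fun m b n => by
      have h : (Pi.single y (M.r b m) : Y → M.M) = (tws Γ Y M).r b (Pi.single y m) := by
        funext z
        change _ = M.r b ((Pi.single y m : Y → M.M) z)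
        by_cases hz : z = y
        · subst hz
          rw [Pi.single_eq_same, Pi.single_eq_same]
        · rw [Pi.single_eq_of_ne hz, Pi.single_eq_of_ne hz, map_zero]
      change tm (M := tws Γ Y M) (N := N) (Pi.single y (M.r b m) : Y → M.M) n =
        tm (M := tws Γ Y M) (N := N) (Pi.single y m : Y → M.M) (N.l b n)
      rw [h]
      exact tm_r_l (M := tws Γ Y M) (N := N) _ b n)

open Classical in
private theorem TwAι_tm (y : Y) (m : M.M) (n : N.M) :
    TwAι Γ Y M N y (tm m n) = tm (M := tws Γ Y M) (N := N) (Pi.single y m : Y → M.M) n :=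
  tlift_tm (M := M) (N := N) _ _ m n

private theorem TwAφι (y : Y) (v : (tb M N).M) :
    TwAφ Γ Y M N (TwAι Γ Y M N y v) y = v := by
  classical
  have h : ((LinearMap.proj y : (Y → (tb M N).M) →ₗ[k] (tb M N).M).comp (TwAφ Γ Y M N)).comp
      (TwAι Γ Y M N y) = LinearMap.id := by
    refine tb_hom_ext fun m n => ?_
    change TwAφ Γ Y M N (TwAι Γ Y M N y (tm m n)) y = tm m n
    rw [TwAι_tm, TwAφ_tm, Pi.single_eq_same]
  exact LinearMap.congr_fun h v

private theorem TwAφι_ne (y z : Y) (hz : z ≠ y) (v : (tb M N).M) :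
    TwAφ Γ Y M N (TwAι Γ Y M N y v) z = 0 := by
  classical
  have h : ((LinearMap.proj z : (Y → (tb M N).M) →ₗ[k] (tb M N).M).comp (TwAφ Γ Y M N)).comp
      (TwAι Γ Y M N y) = 0 := by
    refine tb_hom_ext fun m n => ?_
    change TwAφ Γ Y M N (TwAι Γ Y M N y (tm m n)) z = 0
    rw [TwAι_tm, TwAφ_tm, Pi.single_eq_of_ne hz, tm_zero_left]
  exact LinearMap.congr_fun h v

private theorem TwAιφ (v : (tb (tws Γ Y M) N).M) :
    ∑ y, TwAι Γ Y M N y (TwAφ Γ Y M N v y) = v := by
  classical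
  have h : ∑ y, (TwAι Γ Y M N y).comp
      ((LinearMap.proj y : (Y → (tb M N).M) →ₗ[k] (tb M N).M).comp (TwAφ Γ Y M N)) =
      LinearMap.id := by
    refine tb_hom_ext (M := tws Γ Y M) (N := N) fun f n => ?_
    rw [LinearMap.sum_apply, LinearMap.id_apply]
    have h1 : ∀ y, ((TwAι Γ Y M N y).comp ((LinearMap.proj y :
        (Y → (tb M N).M) →ₗ[k] (tb M N).M).comp (TwAφ Γ Y M N)))
        (tm (M := tws Γ Y M) (N := N) f n) =
        (tmB (tws Γ Y M) N).flip n (Pi.single y ((f : Y → M.M) y) : Y → M.M) := fun y => by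
      change TwAι Γ Y M N y (TwAφ Γ Y M N (tm (M := tws Γ Y M) (N := N) f n) y) = _
      rw [TwAφ_tm, TwAι_tm]
      rfl
    rw [Finset.sum_congr rfl fun y _ => h1 y]
    refine (map_sum ((tmB (tws Γ Y M) N).flip n)
      (fun y => (Pi.single y ((f : Y → M.M) y) : Y → M.M)) Finset.univ).symm.trans ?_
    have h2 : (∑ y, (Pi.single y ((f : Y → M.M) y) : Y → M.M)) = (f : Y → M.M) :=
      Finset.univ_sum_single _
    exact congrArg _ h2
  have h3 := LinearMap.congr_fun h v
  rw [LinearMap.sum_apply] at h3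
  exact h3

private theorem TwAφ_bij : Function.Bijective (TwAφ Γ Y M N) := by
  classical
  constructor
  · intro v w hvw
    rw [← TwAιφ Γ Y M N v, ← TwAιφ Γ Y M N w, hvw]
  · intro h
    refine ⟨∑ y, TwAι Γ Y M N y ((h : Y → (tb M N).M) y), ?_⟩
    rw [map_sum]
    refine funext fun z => ?_
    refine (Finset.sum_apply z Finset.univ
      (fun y => (TwAφ Γ Y M N (TwAι Γ Y M N y ((h : Y → (tb M N).M) y)) :
        Y → (tb M N).M))).trans ?_
    rw [Finset.sum_eq_single z]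
    · exact TwAφι Γ Y M N z _
    · intro y _ hy
      exact TwAφι_ne Γ Y M N y z (Ne.symm hy) _
    · intro hz
      exact absurd (Finset.mem_univ z) hz

end tb

/-- Proof. The map is `f ⊗ n ↦ (y ↦ f(y) ⊗ n)`, the inverse `f ↦ ∑ y, (single y f₁(y)) ⊗ …`; both
bimodules are the families `Y → M ⊗_F N`. -/
theorem tws_tb (M : Bim E F) (N : Bim F H) :
    BIso (tb (tws Γ Y M) N) (tws Γ Y (tb M N)) := by
  refine TwA_biso (TwAφ Γ Y M N) (TwAφ_bij Γ Y M N) (fun {i v} hv => ?_) (fun a v => ?_)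
    (fun b v => ?_) (fun v => ?_)
  · have h := tb_degMap (M := tws Γ Y M) (N := N) (Z := (tws Γ Y (tb M N)).dg) (n := 0)
      (TwAφ Γ Y M N) (fun {p q f n} hf hn => ?_) hv
    · rwa [add_zero] at h
    · rw [add_zero]
      refine dgPi_deg.2 fun y => ?_
      rw [TwAφ_tm]
      exact tb_deg (dgPi_deg.1 hf y) hn
  · have h : (TwAφ Γ Y M N).comp ((tb (tws Γ Y M) N).l a) =
        ((tws Γ Y (tb M N)).l a).comp (TwAφ Γ Y M N) := by
      refine tb_hom_ext (M := tws Γ Y M) (N := N) fun f n => funext fun y => ?_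
      rw [LinearMap.comp_apply, LinearMap.comp_apply, tb_l, TwAφ_tm, tws_l, tws_l]
      have h1 : ∀ m : M.M, (tm m n : (tb M N).M) = (tmB M N).flip n m := fun m => rfl
      rw [h1, map_sum]
      refine Finset.sum_congr rfl fun g _ => ?_
      rw [← h1, TwAφ_tm, tb_l]
    exact LinearMap.congr_fun h v
  · have h : (TwAφ Γ Y M N).comp ((tb (tws Γ Y M) N).r b) =
        ((tws Γ Y (tb M N)).r b).comp (TwAφ Γ Y M N) := by
      refine tb_hom_ext (M := tws Γ Y M) (N := N) fun f n => funext fun y => ?_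
      rw [LinearMap.comp_apply, LinearMap.comp_apply, tb_r, TwAφ_tm, tws_r, TwAφ_tm, tb_r]
    exact LinearMap.congr_fun h v
  · have h : (tws Γ Y (tb M N)).dg.d.comp (TwAφ Γ Y M N) =
        (TwAφ Γ Y M N).comp (tb (tws Γ Y M) N).dg.d := by
      refine tb_hom_ext (M := tws Γ Y M) (N := N) fun f n => funext fun y => ?_
      rw [LinearMap.comp_apply, LinearMap.comp_apply, tb_d, tws_d, TwAφ_tm, tb_d, map_add]
      change _ = TwAφ Γ Y M N (tm (M := tws Γ Y M) (N := N) ((tws Γ Y M).dg.d f) n) y +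
        TwAφ Γ Y M N (tm (M := tws Γ Y M) (N := N) ((tws Γ Y M).dg.s f) (N.dg.d n)) y
      rw [TwAφ_tm, TwAφ_tm, tws_d]
      have h1 : (tws Γ Y M).dg.s f y = M.dg.s (f y) := dgPi_s f y
      rw [h1]
    exact LinearMap.congr_fun h v

/-- Proof. `tws_tb` and `tb_diag_left`. -/
theorem tws_diag_tb (M : Bim E F) : BIso (tb (tws Γ Y (diag E)) M) (tws Γ Y M) :=
  (tws_tb Γ Y (diag E) M).trans ((twF Γ Y F).biso (tb_diag_left M))

theorem tws_prod (M : Bim E F) : BIso (tws Γ Y (tws Γ Y' M)) (tws Γ (Y × Y') M) := by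
  classical
  refine TwA_biso (M := tws Γ Y (tws Γ Y' M)) (N := tws Γ (Y × Y') M)
    (LinearMap.pi (R := k) (φ := fun _ : Y × Y' => M.M) (M₂ := Y → Y' → M.M) fun p =>
      (LinearMap.proj (R := k) (φ := fun _ : Y' => M.M) p.2).comp
        (LinearMap.proj (R := k) (φ := fun _ : Y => (Y' → M.M)) p.1)) ⟨?_, ?_⟩
    (fun {i f} hf => ?_) (fun a f => ?_) (fun b f => ?_) (fun f => ?_)
  · intro f f' h
    funext y y'
    exact congrFun h (y, y')
  · intro f
    exact ⟨fun y y' => f (y, y'), rfl⟩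
  · exact dgPi_deg.2 fun p => dgPi_deg.1 (dgPi_deg.1 hf p.1) p.2
  · refine funext fun p => ?_
    refine Eq.trans ?_ (tws_l Γ (Y × Y') M a _ p).symm
    change (tws Γ Y (tws Γ Y' M)).l a f p.1 p.2 = ∑ g, M.l (Γ.p g a) (f (g⁻¹ • p.1) (g⁻¹ • p.2))
    rw [tws_l]
    refine (Finset.sum_apply p.2 Finset.univ (fun g =>
      ((tws Γ Y' M).l (Γ.p g a) (f (g⁻¹ • p.1)) : Y' → M.M))).trans ?_
    refine Finset.sum_congr rfl fun g _ => ?_
    rw [tws_l, Finset.sum_eq_single g]
    · rw [Γ.p_same]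
    · intro h _ hh
      rw [Γ.p_ne h g a hh, map_zero, LinearMap.zero_apply]
    · intro h
      exact absurd (Finset.mem_univ g) h
  · exact funext fun p => rfl
  · exact funext fun p => rfl

theorem tws_unit (M : Bim E F) : BIso (tws Γ Unit M) M := by
  refine TwA_biso (M := tws Γ Unit M) (N := M)
    (LinearMap.proj (R := k) (φ := fun _ : Unit => M.M) ()) ⟨?_, ?_⟩
    (fun {i f} hf => ?_) (fun a f => ?_) (fun b f => ?_) (fun f => ?_)
  · intro f f' h
    funext y
    exact h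
  · intro m
    exact ⟨fun _ => m, rfl⟩
  · exact dgPi_deg.1 hf ()
  · refine (tws_l Γ Unit M a f ()).trans ?_
    change ∑ g, M.l (Γ.p g a) (f ()) = M.l a (f ())
    rw [← LinearMap.sum_apply, ← map_sum, Γ.sum_p]
  · rfl
  · rfl

theorem tws_equiv (e : Y ≃ Y') (he : ∀ (g : G) y, e (g • y) = g • e y) (M : Bim E F) :
    BIso (tws Γ Y M) (tws Γ Y' M) := by
  refine TwA_biso (M := tws Γ Y M) (N := tws Γ Y' M)
    (LinearMap.funLeft k M.M e.symm) ⟨?_, ?_⟩
    (fun {i f} hf => ?_) (fun a f => ?_) (fun b f => ?_) (fun f => ?_)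
  · intro f f' h
    funext y
    have h1 := congrFun h (e y)
    change f (e.symm (e y)) = f' (e.symm (e y)) at h1
    rwa [e.symm_apply_apply] at h1
  · intro f
    refine ⟨fun y => f (e y), ?_⟩
    funext y
    change f (e (e.symm y)) = f y
    rw [e.apply_symm_apply]
  · exact dgPi_deg.2 fun y => dgPi_deg.1 hf (e.symm y)
  · refine funext fun y => ?_
    refine Eq.trans ?_ (tws_l Γ Y' M a _ y).symm
    change (tws Γ Y M).l a f (e.symm y) = ∑ g, M.l (Γ.p g a) (f (e.symm (g⁻¹ • y)))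
    rw [tws_l]
    refine Finset.sum_congr rfl fun g _ => ?_
    have h : g⁻¹ • e.symm y = e.symm (g⁻¹ • y) := by
      rw [e.eq_symm_apply, he, e.apply_symm_apply]
    rw [h]
  · exact funext fun p => rfl
  · exact funext fun p => rfl

private noncomputable def TwAInl (M : Bim E F) : GMap 0 (tws Γ Y M) (tws Γ (Y ⊕ Y') M) :=
  TwAMk (M := tws Γ Y M) (N := tws Γ (Y ⊕ Y') M)
    (LinearMap.pi (R := k) (φ := fun _ : Y ⊕ Y' => M.M) (M₂ := Y → M.M)
      (Sum.elim (fun y => LinearMap.proj y) (fun _ => 0)))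
    (fun {i f} hf => dgPi_deg.2 fun y => by
      rcases y with y | y
      · exact dgPi_deg.1 hf y
      · exact Dg.IsDeg.zero i)
    (fun a f => funext fun y => by
      refine Eq.trans ?_ (tws_l Γ (Y ⊕ Y') M a _ y).symm
      rcases y with y | y
      · exact tws_l Γ Y M a f y
      · exact (Finset.sum_eq_zero fun g _ => map_zero (M.l (Γ.p g a))).symm)
    (fun b f => funext fun y => by
      rcases y with y | y
      · rfl
      · exact (map_zero (M.r b)).symm)

private noncomputable def TwAInr (M : Bim E F) : GMap 0 (tws Γ Y' M) (tws Γ (Y ⊕ Y') M) :=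
  TwAMk (M := tws Γ Y' M) (N := tws Γ (Y ⊕ Y') M)
    (LinearMap.pi (R := k) (φ := fun _ : Y ⊕ Y' => M.M) (M₂ := Y' → M.M)
      (Sum.elim (fun _ => 0) (fun y => LinearMap.proj y)))
    (fun {i f} hf => dgPi_deg.2 fun y => by
      rcases y with y | y
      · exact Dg.IsDeg.zero i
      · exact dgPi_deg.1 hf y)
    (fun a f => funext fun y => by
      refine Eq.trans ?_ (tws_l Γ (Y ⊕ Y') M a _ y).symm
      rcases y with y | y
      · exact (Finset.sum_eq_zero fun g _ => map_zero (M.l (Γ.p g a))).symm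
      · exact tws_l Γ Y' M a f y)
    (fun b f => funext fun y => by
      rcases y with y | y
      · exact (map_zero (M.r b)).symm
      · rfl)

private noncomputable def TwAPl (M : Bim E F) : GMap 0 (tws Γ (Y ⊕ Y') M) (tws Γ Y M) :=
  TwAMk (M := tws Γ (Y ⊕ Y') M) (N := tws Γ Y M) (LinearMap.funLeft k M.M Sum.inl)
    (fun {i f} hf => dgPi_deg.2 fun y => dgPi_deg.1 hf (Sum.inl y))
    (fun a f => funext fun y => by
      refine Eq.trans ?_ (tws_l Γ Y M a _ y).symm
      exact tws_l Γ (Y ⊕ Y') M a f (Sum.inl y))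
    (fun b f => rfl)

private noncomputable def TwAPr (M : Bim E F) : GMap 0 (tws Γ (Y ⊕ Y') M) (tws Γ Y' M) :=
  TwAMk (M := tws Γ (Y ⊕ Y') M) (N := tws Γ Y' M) (LinearMap.funLeft k M.M Sum.inr)
    (fun {i f} hf => dgPi_deg.2 fun y => dgPi_deg.1 hf (Sum.inr y))
    (fun a f => funext fun y => by
      refine Eq.trans ?_ (tws_l Γ Y' M a _ y).symm
      exact tws_l Γ (Y ⊕ Y') M a f (Sum.inr y))
    (fun b f => rfl)

theorem tws_sum (M : Bim E F) : IsExt (tws Γ Y M) (tws Γ (Y ⊕ Y') M) (tws Γ Y' M) := by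
  refine ⟨TwAInl Γ Y Y' M, TwAPr Γ Y Y' M, TwAPl Γ Y Y' M, TwAInr Γ Y Y' M, ?_, ?_, fun f => rfl,
    fun f => rfl, fun f => rfl, fun f => rfl, fun f => ?_⟩
  · refine LinearMap.ext fun f => ?_
    rw [GMap.dd_apply, sg_zero, one_smul, LinearMap.zero_apply, sub_eq_zero]
    refine funext fun y => ?_
    rcases y with y | y
    · rfl
    · exact map_zero M.dg.d
  · refine LinearMap.ext fun f => ?_
    rw [GMap.dd_apply, sg_zero, one_smul, LinearMap.zero_apply, sub_eq_zero]
    rfl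
  · refine funext fun y => ?_
    rcases y with y | y
    · exact add_zero (f (Sum.inl y))
    · exact zero_add (f (Sum.inr y))

theorem tws_finCoh (M : Bim E F) (h : M.dg.FinCoh) : (tws Γ Y M).dg.FinCoh :=
  dgPi_finCoh M.dg Y h

/-- The trivial grading. -/
private noncomputable def TwATriv (A : DGA k) : GrA Unit A where
  p := fun _ => LinearMap.id
  p_same := fun _ _ => rfl
  p_ne := fun g h _ hne => absurd (Subsingleton.elim g h) hne
  sum_p := fun x => by simp
  p_deg := fun _ {_ _} h => h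
  p_d := fun _ _ => rfl
  p_mul := fun _ _ _ _ => rfl
  u := fun _ => A.one
  u_deg := fun _ => A.one_deg
  u_d := fun _ => A.d_one
  u_one := rfl
  u_mul := fun _ _ => A.one_mul _
  p_u := fun _ => rfl

/-- The direct sum of copies of a bimodule. -/
private noncomputable def TwACop {A B : DGA k} (Y : Type) [Fintype Y] (M : Bim A B) : Bim A B :=
  @tws k _ Unit _ _ A B (TwATriv A) Y _ PUnit.instMulAction M

private theorem TwACop_l {A B : DGA k} (Y : Type) [Fintype Y] (M : Bim A B) (a : A.A)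
    (f : Y → M.M) (y : Y) : (TwACop Y M).l a f y = M.l a (f y) := by
  refine (@tws_l k _ Unit _ _ A B (TwATriv A) Y _ PUnit.instMulAction M a f y).trans ?_
  rw [Fintype.sum_unique]
  rfl

private theorem TwACop_fin {A B : DGA k} {M : Bim A B} (hM : Perf M) (n : ℕ) :
    Perf (TwACop (Fin n) M) := by
  induction n with
  | zero =>
    refine Perf.contr ⟨0, LinearMap.ext fun f => funext fun y => y.elim0⟩
  | succ n ih =>
    have h1 : BIso M (TwACop (Fin 1) M) := by
      refine (@tws_unit k _ Unit _ _ A B (TwATriv A) M).symm.trans ?_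
      exact @tws_equiv k _ Unit _ _ A B (TwATriv A) Unit (Fin 1) _ _ _ PUnit.instMulAction
        (Equiv.ofUnique Unit (Fin 1)) (fun _ _ => Subsingleton.elim _ _) M
    have h2 := @tws_sum k _ Unit _ _ A B (TwATriv A) (Fin n) (Fin 1) _ PUnit.instMulAction _
      PUnit.instMulAction M
    have h3 := Perf.mid h2 ih (h1.perf hM)
    refine BIso.perf ?_ h3
    exact @tws_equiv k _ Unit _ _ A B (TwATriv A) (Fin n ⊕ Fin 1) (Fin (n + 1)) _
      Sum.instMulAction _ PUnit.instMulAction finSumFinEquiv (fun _ y => by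
        rcases y with y | y
        · rfl
        · rfl) M

private theorem TwACop_perf {A B : DGA k} (Y : Type) [Fintype Y] {M : Bim A B} (hM : Perf M) :
    Perf (TwACop Y M) := by
  refine BIso.perf ?_ (TwACop_fin hM (Fintype.card Y))
  exact @tws_equiv k _ Unit _ _ A B (TwATriv A) (Fin (Fintype.card Y)) Y _
    PUnit.instMulAction _ PUnit.instMulAction (Fintype.equivFin Y).symm (fun _ _ => rfl) M

/-- As a right module the twist of `diag E` is a direct sum of copies of `E`. -/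
theorem tws_rperf : RPerf (tws Γ Y (diag E)) := by
  refine BIso.perf ?_ (TwACop_perf Y (perf_fgL_diag E))
  refine TwA_biso (M := TwACop Y (fgL (diag E))) (N := fgL (tws Γ Y (diag E)))
    (LinearMap.id (R := k) (M := Y → E.A)) Function.bijective_id
    (fun {i f} hf => hf) (fun a f => ?_) (fun b f => rfl) (fun f => rfl)
  refine (base_l (TwACop Y (fgL (diag E))) a f).trans ?_
  exact (base_l (fgL (tws Γ Y (diag E))) a f).symm

private theorem TwA_deg_sum {V : Type u} [AddCommGroup V] [Module k V] {X : Dg k V} {n : ℤ}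
    {ι : Type} (t : Finset ι) (f : ι → V) (h : ∀ i, X.IsDeg n (f i)) :
    X.IsDeg n (∑ i ∈ t, f i) := by
  classical
  induction t using Finset.induction_on with
  | empty =>
    rw [Finset.sum_empty]
    exact Dg.IsDeg.zero n
  | insert a s ha ih =>
    rw [Finset.sum_insert ha]
    exact (h a).add ih

private theorem TwA_p_sum (g : G) (x : G → E.A) : Γ.p g (∑ h, Γ.p h (x h)) = Γ.p g (x g) := by
  classical
  rw [map_sum, Finset.sum_eq_single g]
  · exact Γ.p_same g _
  · intro h _ hh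
    exact Γ.p_ne g h _ (Ne.symm hh)
  · intro h
    exact absurd (Finset.mem_univ g) h

private theorem TwA_p_mul (g a : G) (e x : E.A) :
    Γ.p g (E.mul (Γ.p a e) x) = E.mul (Γ.p a e) (Γ.p (a⁻¹ * g) x) := by
  classical
  rw [Γ.p_mul', Finset.sum_eq_single a]
  · rw [Γ.p_same]
  · intro b _ hb
    rw [Γ.p_ne b a e hb, map_zero, LinearMap.zero_apply]
  · intro h
    exact absurd (Finset.mem_univ a) h

/-- The untwisting map. -/
private noncomputable def TwAΦ : (Y → E.A) →ₗ[k] (Y → E.A) :=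
  LinearMap.pi fun y => ∑ g, (Γ.p g).comp (LinearMap.proj (g • y))

private theorem TwAΦ_apply (f : Y → E.A) (y : Y) :
    TwAΦ Γ Y f y = ∑ g, Γ.p g (f (g • y)) := by
  simp [TwAΦ]

private noncomputable def TwAΨ : (Y → E.A) →ₗ[k] (Y → E.A) :=
  LinearMap.pi fun y => ∑ g, (Γ.p g).comp (LinearMap.proj (g⁻¹ • y))

private theorem TwAΨ_apply (f : Y → E.A) (y : Y) :
    TwAΨ Γ Y f y = ∑ g, Γ.p g (f (g⁻¹ • y)) := by
  simp [TwAΨ]

private theorem TwAΨΦ (f : Y → E.A) : TwAΨ Γ Y (TwAΦ Γ Y f) = f := by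
  funext y
  rw [TwAΨ_apply]
  refine Eq.trans ?_ (Γ.sum_p (f y))
  refine Finset.sum_congr rfl fun g _ => ?_
  rw [TwAΦ_apply, TwA_p_sum Γ g (fun h => f (h • g⁻¹ • y)), smul_inv_smul]

private theorem TwAΦΨ (f : Y → E.A) : TwAΦ Γ Y (TwAΨ Γ Y f) = f := by
  funext y
  rw [TwAΦ_apply]
  refine Eq.trans ?_ (Γ.sum_p (f y))
  refine Finset.sum_congr rfl fun g _ => ?_
  rw [TwAΨ_apply, TwA_p_sum Γ g (fun h => f (h⁻¹ • g • y)), inv_smul_smul]

private theorem TwAΦ_bij : Function.Bijective (TwAΦ Γ Y) :=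
  ⟨Function.LeftInverse.injective (TwAΨΦ Γ Y), Function.RightInverse.surjective (TwAΦΨ Γ Y)⟩

private theorem TwAΦ_l (e : E.A) (f : Y → E.A) (y : Y) :
    TwAΦ Γ Y ((tws Γ Y (diag E)).l e f) y = E.mul e (TwAΦ Γ Y f y) := by
  classical
  rw [TwAΦ_apply, TwAΦ_apply]
  have h1 : ∀ g, Γ.p g ((tws Γ Y (diag E)).l e f (g • y)) =
      ∑ a, E.mul (Γ.p a e) (Γ.p (a⁻¹ * g) (f ((a⁻¹ * g) • y))) := fun g => by
    have h2 : (tws Γ Y (diag E)).l e f (g • y) =
        ∑ a, E.mul (Γ.p a e) (f (a⁻¹ • g • y)) := tws_l Γ Y (diag E) e f (g • y)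
    rw [h2, map_sum]
    refine Finset.sum_congr rfl fun a _ => ?_
    rw [TwA_p_mul, mul_smul]
  rw [Finset.sum_congr rfl fun g _ => h1 g, Finset.sum_comm]
  have h3 : ∀ a, ∑ g, E.mul (Γ.p a e) (Γ.p (a⁻¹ * g) (f ((a⁻¹ * g) • y))) =
      E.mul (Γ.p a e) (∑ g, Γ.p g (f (g • y))) := fun a => by
    rw [map_sum]
    exact Fintype.sum_equiv (Equiv.mulLeft a⁻¹) _ _ fun g => rfl
  rw [Finset.sum_congr rfl fun a _ => h3 a]
  rw [← LinearMap.sum_apply, ← map_sum, Γ.sum_p]

/-- As a left module the twist of `diag E` is a direct sum of copies of `E`.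

Proof. `f ↦ (y ↦ ∑ g, p g (f(g y)))` is an isomorphism of left modules from the twist to the
families `Y → E` with the usual left action; its inverse is `f ↦ (y ↦ ∑ g, p g (f(g⁻¹ y)))`. A
finite direct sum of copies of the perfect module `E` is perfect (`Perf.mid`). -/
theorem tws_lperf : LPerf (tws Γ Y (diag E)) := by
  refine BIso.perf ?_ (TwACop_perf Y (perf_fgR_diag E))
  refine BIso.symm ?_
  refine TwA_biso (M := fgR (tws Γ Y (diag E))) (N := TwACop Y (fgR (diag E)))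
    (TwAΦ Γ Y) (TwAΦ_bij Γ Y) (fun {i f} hf => ?_) (fun a f => ?_) (fun b f => ?_) (fun f => ?_)
  · refine dgPi_deg.2 fun y => ?_
    change E.dg.IsDeg i (TwAΦ Γ Y f y)
    rw [TwAΦ_apply]
    exact TwA_deg_sum _ _ fun g => Γ.p_deg g (dgPi_deg.1 hf (g • y))
  · refine funext fun y => ?_
    refine Eq.trans ?_ (TwACop_l Y (fgR (diag E)) a _ y).symm
    exact TwAΦ_l Γ Y a f y
  · refine Eq.trans ?_ (base_r (TwACop Y (fgR (diag E))) b _).symm
    refine Eq.trans (congrArg (TwAΦ Γ Y) (base_r (fgR (tws Γ Y (diag E))) b f)) ?_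
    exact map_smul (TwAΦ Γ Y) b f
  · refine funext fun y => ?_
    change E.dg.d (TwAΦ Γ Y f y) = TwAΦ Γ Y (fun z => E.dg.d (f z)) y
    rw [TwAΦ_apply, TwAΦ_apply, map_sum]
    exact Finset.sum_congr rfl fun g _ => Γ.p_d g _

end Pool.Agent.MP_6e5bed_ag_SY
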