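import Pool.Agent.Lib.MP_6e5bed_ag_SY.Gr
import Pool.Agent.Lib.MP_6e5bed_ag_SY.TwA
import Pool.Agent.Lib.MP_6e5bed_ag_KC.BFlat

set_option autoImplicit false
set_option linter.unusedSectionVars false

/-!
# MP_6e5bed_ag (project SYM): induction from the subalgebra of the elements with degrees in `H`
-/

namespace Pool.Agent.MP_6e5bed_ag_SY

open Pool.Agent.MP_6e5bed_ag_NC

universe u

variable {k : Type u} [Field k] {G : Type} [Group G] [Fintype G] {B E F : DGA k}

/-- The homomorphism `Φ` identifies `B` with the elements of `E` with degrees in the stabilizer of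
the point `x₀` of the `G`-set `X`. -/
structure IsSta (Γ : GrA G E) {X : Type} [MulAction G X] (x₀ : X) (Φ : DHom B E) : Prop where
  inj : Function.Injective Φ.f
  range : ∀ e : E.A, (∃ b, Φ.f b = e) ↔ ∀ g : G, g • x₀ ≠ x₀ → Γ.p g e = 0

variable {Γ : GrA G E} {X : Type} [Fintype X] [MulAction G X] {x₀ : X} {Φ : DHom B E}

section helpers

variable {A C : DGA k} {M N : Bim A C}

private def IndGMk (f : M.M →ₗ[k] N.M) (hdeg : ∀ {i : ℤ} {m : M.M}, M.dg.IsDeg i m →
    N.dg.IsDeg i (f m)) (hl : ∀ a m, f (M.l a m) = N.l a (f m))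
    (hr : ∀ b m, f (M.r b m) = N.r b (f m)) : GMap 0 M N where
  f := f
  deg := fun {i m} hm => by
    rw [add_zero]
    exact hdeg hm
  map_l := fun a m => by
    rw [Dg.sp_zero]
    exact hl a m
  map_r := hr

private theorem IndGMk_dd (f : M.M →ₗ[k] N.M) (hdeg : ∀ {i : ℤ} {m : M.M}, M.dg.IsDeg i m →
    N.dg.IsDeg i (f m)) (hl : ∀ a m, f (M.l a m) = N.l a (f m))
    (hr : ∀ b m, f (M.r b m) = N.r b (f m)) (hd : ∀ m, N.dg.d (f m) = f (M.dg.d m)) :
    (IndGMk f hdeg hl hr).dd = 0 := by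
  refine LinearMap.ext fun m => ?_
  rw [GMap.dd_apply, sg_zero, one_smul, LinearMap.zero_apply, sub_eq_zero]
  exact hd m

private theorem IndG_biso (f : M.M →ₗ[k] N.M) (hb : Function.Bijective f)
    (hdeg : ∀ {i : ℤ} {m : M.M}, M.dg.IsDeg i m → N.dg.IsDeg i (f m))
    (hl : ∀ a m, f (M.l a m) = N.l a (f m)) (hr : ∀ b m, f (M.r b m) = N.r b (f m))
    (hd : ∀ m, N.dg.d (f m) = f (M.dg.d m)) : BIso M N :=
  BIso.of_bij (IndGMk f hdeg hl hr) (IndGMk_dd f hdeg hl hr hd) hb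

end helpers

private theorem IndG_p_mul (Γ : GrA G E) (g a : G) (x : E.A) :
    Γ.p g (E.mul (Γ.u a) x) = E.mul (Γ.u a) (Γ.p (a⁻¹ * g) x) := by
  classical
  rw [Γ.p_mul', Finset.sum_eq_single a]
  · rw [Γ.p_u]
  · intro b _ hb
    rw [← Γ.p_u a, Γ.p_ne b a _ hb, map_zero, LinearMap.zero_apply]
  · intro h
    exact absurd (Finset.mem_univ a) h

private theorem IndG_u_inv (Γ : GrA G E) (a : G) (x : E.A) :
    E.mul (Γ.u a) (E.mul (Γ.u a⁻¹) x) = x := by
  rw [← E.mul_assoc, Γ.u_mul, mul_inv_cancel, Γ.u_one, E.one_mul]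

private theorem IndG_inv_u (Γ : GrA G E) (a : G) (x : E.A) :
    E.mul (Γ.u a⁻¹) (E.mul (Γ.u a) x) = x := by
  rw [← E.mul_assoc, Γ.u_mul, inv_mul_cancel, Γ.u_one, E.one_mul]

open Classical in
/-- The part of `e` with degrees that map `x₀` to `x`. -/
private noncomputable def IndGP (Γ : GrA G E) (x₀ : X) (x : X) : E.A →ₗ[k] E.A :=
  ∑ g ∈ Finset.univ.filter (fun g : G => g • x₀ = x), Γ.p g

open Classical in
private theorem IndGP_apply (Γ : GrA G E) (x₀ : X) (x : X) (e : E.A) :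
    IndGP Γ x₀ x e = ∑ g ∈ Finset.univ.filter (fun g : G => g • x₀ = x), Γ.p g e := by
  rw [IndGP, LinearMap.sum_apply]

private theorem IndGP_sum (Γ : GrA G E) (x₀ : X) (e : E.A) : ∑ x, IndGP Γ x₀ x e = e := by
  classical
  refine Eq.trans ?_ (Γ.sum_p e)
  rw [← Finset.sum_fiberwise Finset.univ (fun g : G => g • x₀) (fun g => Γ.p g e)]
  exact Finset.sum_congr rfl fun x _ => IndGP_apply Γ x₀ x e

private theorem IndG_p_P (Γ : GrA G E) (x₀ x : X) (g : G) (e : E.A) (h : g • x₀ = x) :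
    Γ.p g (IndGP Γ x₀ x e) = Γ.p g e := by
  classical
  rw [IndGP_apply, map_sum, Finset.sum_eq_single g]
  · exact Γ.p_same g e
  · intro b _ hb
    exact Γ.p_ne g b e (Ne.symm hb)
  · intro hh
    exact absurd (Finset.mem_filter.2 ⟨Finset.mem_univ g, h⟩) hh

private theorem IndG_p_P_ne (Γ : GrA G E) (x₀ x : X) (g : G) (e : E.A) (h : g • x₀ ≠ x) :
    Γ.p g (IndGP Γ x₀ x e) = 0 := by
  classical
  rw [IndGP_apply, map_sum]
  refine Finset.sum_eq_zero fun b hb => ?_
  have hb' := (Finset.mem_filter.1 hb).2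
  refine Γ.p_ne g b e ?_
  rintro rfl
  exact h hb'

/-- `u(c)⁻¹ e_x` is in the image of `Φ`. -/
private theorem IndG_mem (hΦ : IsSta Γ x₀ Φ) (x : X) (c : G) (hc : c • x₀ = x) (e : E.A) :
    ∃ b, Φ.f b = E.mul (Γ.u c⁻¹) (IndGP Γ x₀ x e) := by
  refine (hΦ.range _).2 fun g hg => ?_
  rw [IndG_p_mul, inv_inv, IndG_p_P_ne, map_zero]
  intro h
  apply hg
  rw [mul_smul, ← hc] at h
  exact smul_left_cancel c h

private theorem IndG_l_P {N : Bim E F} (q : GrM Γ X N) (x : X) (e : E.A) (m : N.M)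
    (hm : q.q x₀ m = m) : q.q x (N.l e m) = N.l (IndGP Γ x₀ x e) m := by
  classical
  have h1 : ∀ g : G, q.q (g • x₀) (N.l (Γ.p g e) m) = N.l (Γ.p g e) m := fun g => by
    rw [q.q_l, hm]
  have h2 : N.l e m = ∑ g, N.l (Γ.p g e) m := by
    rw [← LinearMap.sum_apply, ← map_sum, Γ.sum_p]
  have h3 : N.l (IndGP Γ x₀ x e) m =
      ∑ g ∈ Finset.univ.filter (fun g : G => g • x₀ = x), N.l (Γ.p g e) m := by
    rw [IndGP_apply, map_sum, LinearMap.sum_apply]
  rw [h2, map_sum, h3, Finset.sum_filter]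
  refine Finset.sum_congr rfl fun g _ => ?_
  split_ifs with h
  · rw [← h]
    exact h1 g
  · rw [← h1 g]
    exact q.q_ne x (g • x₀) _ (Ne.symm h)

/-- Let the group act transitively on `X` and let `N` be an `X`-graded bimodule whose part of degree
`x₀` is (the image of) the `B`-`F`-bimodule `N₀`. Then `N` is the induced bimodule `E ⊗_B N₀`.

Proof. Choose `c x : G` with `c x • x₀ = x`. The map is `F₁ : e ⊗ n ↦ N.l e (j n)` (`tlift`), the
inverse `m ↦ ∑ x, tm (Γ.u (c x)) (j⁻¹ (Γ.u (c x)⁻¹ q x m))`, where `Γ.u (c x)⁻¹ q x m` has degree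
`x₀`, so it is in the image of `j`. One composition: `∑ x, Γ.u (c x) Γ.u (c x)⁻¹ q x m = m`. The
other: `q x (e (j n)) = ∑ g with g x₀ = x, (p g e) (j n)`, and `Γ.u (c x)⁻¹ (p g e)` has degree
`(c x)⁻¹ g`, in the stabilizer of `x₀`, so it is `Φ b`, and `j⁻¹ (Φ b (j n)) = b n`,
`tm (Γ.u (c x)) (b n) = tm (Γ.u (c x) Φ b) n = tm (p g e) n`. -/
theorem ind_biso (hΦ : IsSta Γ x₀ Φ) (hX : ∀ x : X, ∃ g : G, g • x₀ = x) {N : Bim E F}
    (q : GrM Γ X N) {N₀ : Bim B F} (j : N₀.M →ₗ[k] N.M) (hj : Function.Injective j)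
    (hj' : ∀ m : N.M, (∃ n, j n = m) ↔ q.q x₀ m = m)
    (hd : ∀ {i : ℤ} {n : N₀.M}, N₀.dg.IsDeg i n → N.dg.IsDeg i (j n))
    (hjd : ∀ n, N.dg.d (j n) = j (N₀.dg.d n)) (hl : ∀ b n, j (N₀.l b n) = N.l (Φ.f b) (j n))
    (hr : ∀ c n, j (N₀.r c n) = N.r c (j n)) :
    BIso (tb (res (DHom.id E) Φ (diag E)) N₀) N := by
  classical
  choose c hc using hX
  -- the map
  set β : (res (DHom.id E) Φ (diag E)).M →ₗ[k] N₀.M →ₗ[k] N.M := N.l.compl₂ j with hβ
  have hβa : ∀ (e : E.A) (n : N₀.M), β e n = N.l e (j n) := fun e n => rfl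
  have hbal : ∀ (m : (res (DHom.id E) Φ (diag E)).M) (b : B.A) (n : N₀.M),
      β ((res (DHom.id E) Φ (diag E)).r b m) n = β m (N₀.l b n) := by
    have h0 : ∀ (m : E.A) (b : B.A) (n : N₀.M),
        N.l (E.mul m (Φ.f b)) (j n) = N.l m (j (N₀.l b n)) := fun m b n => by
      rw [N.l_mul, hl]
    exact fun m b n => h0 m b n
  set F₁ : (tb (res (DHom.id E) Φ (diag E)) N₀).M →ₗ[k] N.M := tlift β hbal with hF
  have hF₁ : ∀ (e : E.A) (n : N₀.M),
      F₁ (tm (M := res (DHom.id E) Φ (diag E)) (N := N₀) e n) = N.l e (j n) :=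
    fun e n => tlift_tm (M := res (DHom.id E) Φ (diag E)) (N := N₀) β hbal e n
  -- the part of degree `x`, moved to `x₀`
  have hmem : ∀ x m, N.l (Γ.u (c x)⁻¹) (q.q x m) ∈ LinearMap.range j := fun x m => by
    have h1 : q.q x₀ (N.l (Γ.u (c x)⁻¹) (q.q x m)) = N.l (Γ.u (c x)⁻¹) (q.q x m) := by
      have h2 := q.q_l (c x)⁻¹ x (Γ.u (c x)⁻¹) (q.q x m)
      rw [Γ.p_u, q.q_same] at h2
      have h3 : (c x)⁻¹ • x = x₀ := inv_smul_eq_iff.2 (hc x).symm
      rwa [h3] at h2
    obtain ⟨n, hn⟩ := (hj' _).2 h1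
    exact ⟨n, hn⟩
  set θ : X → N.M →ₗ[k] N₀.M := fun x =>
    (LinearEquiv.ofInjective j hj).symm.toLinearMap.comp
      (LinearMap.codRestrict (LinearMap.range j) ((N.l (Γ.u (c x)⁻¹)).comp (q.q x))
        (hmem x)) with hθ
  have hjθ : ∀ x m, j (θ x m) = N.l (Γ.u (c x)⁻¹) (q.q x m) := fun x m => by
    have h1 := LinearEquiv.apply_symm_apply (LinearEquiv.ofInjective j hj)
      (LinearMap.codRestrict (LinearMap.range j) ((N.l (Γ.u (c x)⁻¹)).comp (q.q x))
        (hmem x) m)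
    have h2 := congrArg Subtype.val h1
    rw [LinearEquiv.ofInjective_apply] at h2
    exact h2
  have hqj : ∀ n, q.q x₀ (j n) = j n := fun n => (hj' _).1 ⟨n, rfl⟩
  -- left inverse
  set G₁ : N.M →ₗ[k] (tb (res (DHom.id E) Φ (diag E)) N₀).M :=
    ∑ x, (tmB (res (DHom.id E) Φ (diag E)) N₀ (Γ.u (c x))).comp (θ x) with hG
  have hG₁ : ∀ m, G₁ m = ∑ x, tm (M := res (DHom.id E) Φ (diag E)) (N := N₀) (Γ.u (c x))
      (θ x m) := fun m => by
    rw [hG, LinearMap.sum_apply]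
    rfl
  have key : ∀ (e : E.A) (n : N₀.M), G₁ (N.l e (j n)) =
      tm (M := res (DHom.id E) Φ (diag E)) (N := N₀) e n := fun e n => by
    rw [hG₁]
    have h1 : ∀ x, tm (M := res (DHom.id E) Φ (diag E)) (N := N₀) (Γ.u (c x))
        (θ x (N.l e (j n))) =
        (tmB (res (DHom.id E) Φ (diag E)) N₀).flip n (IndGP Γ x₀ x e) := fun x => by
      obtain ⟨b, hb⟩ := IndG_mem hΦ x (c x) (hc x) e
      have h2 : θ x (N.l e (j n)) = N₀.l b n := by
        apply hj
        rw [hjθ, IndG_l_P q x e (j n) (hqj n), ← N.l_mul, ← hb, ← hl]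
      have h3 : (res (DHom.id E) Φ (diag E)).r b (Γ.u (c x)) = IndGP Γ x₀ x e := by
        have h4 : E.mul (Γ.u (c x)) (Φ.f b) = IndGP Γ x₀ x e := by
          rw [hb, IndG_u_inv]
        exact h4
      rw [h2]
      refine (tm_r_l (M := res (DHom.id E) Φ (diag E)) (N := N₀) (Γ.u (c x)) b n).symm.trans ?_
      exact congrArg (fun z => tm (M := res (DHom.id E) Φ (diag E)) (N := N₀) z n) h3
    rw [Finset.sum_congr rfl fun x _ => h1 x]
    refine (map_sum ((tmB (res (DHom.id E) Φ (diag E)) N₀).flip n)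
      (fun x => IndGP Γ x₀ x e) Finset.univ).symm.trans ?_
    exact congrArg ((tmB (res (DHom.id E) Φ (diag E)) N₀).flip n) (IndGP_sum Γ x₀ e)
  have hGF : ∀ t, G₁ (F₁ t) = t := by
    have h : G₁.comp F₁ = LinearMap.id := by
      refine tb_hom_ext (M := res (DHom.id E) Φ (diag E)) (N := N₀) fun e n => ?_
      exact (congrArg G₁ (hF₁ e n)).trans (key e n)
    exact fun t => LinearMap.congr_fun h t
  have hbij : Function.Bijective F₁ := by
    refine ⟨Function.LeftInverse.injective hGF, fun m => ⟨G₁ m, ?_⟩⟩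
    rw [hG₁, map_sum]
    refine Eq.trans ?_ (q.sum_q m)
    refine Finset.sum_congr rfl fun x _ => ?_
    rw [hF₁, hjθ, ← N.l_mul, Γ.u_mul, mul_inv_cancel, Γ.u_one, N.l_one]
  refine IndG_biso F₁ hbij (fun {i v} hv => ?_) (fun a v => ?_) (fun b v => ?_) (fun v => ?_)
  · have h := tb_degMap (M := res (DHom.id E) Φ (diag E)) (N := N₀) (Z := N.dg) (n := 0)
      F₁ (fun {p r e n} he hn => ?_) hv
    · rwa [add_zero] at h
    · rw [add_zero]
      have h1 : N.dg.IsDeg (p + r) (N.l e (j n)) := N.l_deg he (hd hn)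
      exact (hF₁ e n).symm ▸ h1
  · have h : F₁.comp ((tb (res (DHom.id E) Φ (diag E)) N₀).l a) = (N.l a).comp F₁ := by
      refine tb_hom_ext (M := res (DHom.id E) Φ (diag E)) (N := N₀) fun e n => ?_
      have h1 : F₁ ((tb (res (DHom.id E) Φ (diag E)) N₀).l a (tm e n)) =
          F₁ (tm (M := res (DHom.id E) Φ (diag E)) (N := N₀) (E.mul a e) n) :=
        congrArg F₁ (tb_l (M := res (DHom.id E) Φ (diag E)) (N := N₀) a e n)
      refine h1.trans ((hF₁ (E.mul a e) n).trans ?_)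
      refine Eq.trans ?_ (congrArg (N.l a) (hF₁ e n)).symm
      exact N.l_mul a e (j n)
    exact LinearMap.congr_fun h v
  · have h : F₁.comp ((tb (res (DHom.id E) Φ (diag E)) N₀).r b) = (N.r b).comp F₁ := by
      refine tb_hom_ext (M := res (DHom.id E) Φ (diag E)) (N := N₀) fun e n => ?_
      have h1 : F₁ ((tb (res (DHom.id E) Φ (diag E)) N₀).r b (tm e n)) =
          F₁ (tm (M := res (DHom.id E) Φ (diag E)) (N := N₀) e (N₀.r b n)) :=
        congrArg F₁ (tb_r (M := res (DHom.id E) Φ (diag E)) (N := N₀) b e n)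
      refine h1.trans ((hF₁ e (N₀.r b n)).trans ?_)
      refine Eq.trans ?_ (congrArg (N.r b) (hF₁ e n)).symm
      rw [hr]
      exact N.l_r e b (j n)
    exact LinearMap.congr_fun h v
  · have h : N.dg.d.comp F₁ = F₁.comp (tb (res (DHom.id E) Φ (diag E)) N₀).dg.d := by
      refine tb_hom_ext (M := res (DHom.id E) Φ (diag E)) (N := N₀) fun e n => ?_
      have h1 : F₁ ((tb (res (DHom.id E) Φ (diag E)) N₀).dg.d (tm e n)) =
          F₁ (tm (M := res (DHom.id E) Φ (diag E)) (N := N₀) (E.dg.d e) n) +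
            F₁ (tm (M := res (DHom.id E) Φ (diag E)) (N := N₀) (E.dg.s e) (N₀.dg.d n)) :=
        (congrArg F₁ (tb_d (M := res (DHom.id E) Φ (diag E)) (N := N₀) e n)).trans
          (map_add F₁ _ _)
      refine (congrArg N.dg.d (hF₁ e n)).trans ?_
      refine Eq.trans ?_ h1.symm
      rw [hF₁, hF₁]
      refine (N.d_l e (j n)).trans ?_
      rw [hjd]
    exact LinearMap.congr_fun h v

/-- The trivial grading. -/
private noncomputable def IndGTriv (A : DGA k) : GrA Unit A where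
  p := fun _ => LinearMap.id
  p_same := fun _ _ => rfl
  p_ne := fun g h _ hne => absurd (Subsingleton.elim g h) hne
  sum_p := fun x => by simp
  p_deg := fun _ {_ _} h => h
  p_d := fun _ _ => rfl
  p_mul := fun _ _ _ _ => rfl
  u := fun _ => A.one
  u_deg := fun _ => A.one_deg
  u_d := fun _ => A.d_one
  u_one := rfl
  u_mul := fun _ _ => A.one_mul _
  p_u := fun _ => rfl

/-- As a right `B`-module `E` is a direct sum of copies of `B`.

Proof. `E = ⊕ x, Γ.u (c x) Φ(B)`, with `c x` as above: the element `e` is `∑ x, Γ.u (c x) Φ(b x)`,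
where `Φ(b x) = ∑ g with g x₀ = x, Γ.u (c x)⁻¹ (p g e)`. So the bimodule `fgL (res id Φ (diag E))`
over `base k` and `B` is a finite direct sum of copies of `fgL (diag B)`, hence perfect (induction
on the number of summands with `Perf.mid`, as for `tws_rperf`). -/
theorem sta_rperf (hΦ : IsSta Γ x₀ Φ) (hX : ∀ x : X, ∃ g : G, g • x₀ = x) :
    RPerf (res (DHom.id E) Φ (diag E)) := by
  classical
  choose c hc using hX
  let actX : MulAction Unit X := PUnit.instMulAction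
  have hperf := @tws_rperf k _ Unit _ _ B (IndGTriv B) X _ actX
  -- the map
  set Ψ : (X → B.A) →ₗ[k] E.A :=
    ∑ x, ((E.mul (Γ.u (c x))).comp Φ.f).comp (LinearMap.proj x) with hΨ
  have hΨa : ∀ f : X → B.A, Ψ f = ∑ x, E.mul (Γ.u (c x)) (Φ.f (f x)) := fun f => by
    rw [hΨ, LinearMap.sum_apply]
    rfl
  have hdegsum : ∀ {i : ℤ} (t : Finset X) (f : X → E.A), (∀ x, E.dg.IsDeg i (f x)) →
      E.dg.IsDeg i (∑ x ∈ t, f x) := by
    intro i t f h
    induction t using Finset.induction_on with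
    | empty =>
      rw [Finset.sum_empty]
      exact Dg.IsDeg.zero i
    | insert a s ha ih =>
      rw [Finset.sum_insert ha]
      exact (h a).add ih
  -- the parts of `u (c y) Φ b`
  have hp0 : ∀ (b : B.A) (g : G), g • x₀ ≠ x₀ → Γ.p g (Φ.f b) = 0 := fun b g hg =>
    (hΦ.range (Φ.f b)).1 ⟨b, rfl⟩ g hg
  have hPne : ∀ (x y : X) (b : B.A), x ≠ y →
      IndGP Γ x₀ x (E.mul (Γ.u (c y)) (Φ.f b)) = 0 := fun x y b hxy => by
    rw [IndGP_apply]
    refine Finset.sum_eq_zero fun g hg => ?_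
    have hg' := (Finset.mem_filter.1 hg).2
    rw [IndG_p_mul, hp0, map_zero]
    rw [mul_smul, hg']
    intro h
    apply hxy
    rw [← hc y, ← h, smul_inv_smul]
  have hPeq : ∀ (x : X) (b : B.A),
      IndGP Γ x₀ x (E.mul (Γ.u (c x)) (Φ.f b)) = E.mul (Γ.u (c x)) (Φ.f b) := fun x b => by
    have h1 := IndGP_sum Γ x₀ (E.mul (Γ.u (c x)) (Φ.f b))
    rw [Finset.sum_eq_single x] at h1
    · exact h1
    · intro y _ hy
      exact hPne y x b hy
    · intro h
      exact absurd (Finset.mem_univ x) h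
  have hPΨ : ∀ (x : X) (f : X → B.A), IndGP Γ x₀ x (Ψ f) = E.mul (Γ.u (c x)) (Φ.f (f x)) :=
    fun x f => by
    rw [hΨa, map_sum, Finset.sum_eq_single x]
    · exact hPeq x (f x)
    · intro y _ hy
      exact hPne x y (f y) (Ne.symm hy)
    · intro h
      exact absurd (Finset.mem_univ x) h
  have hbij : Function.Bijective Ψ := by
    constructor
    · intro f f' h
      funext x
      apply hΦ.inj
      have h1 : E.mul (Γ.u (c x)) (Φ.f (f x)) = E.mul (Γ.u (c x)) (Φ.f (f' x)) := by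
        rw [← hPΨ, ← hPΨ, h]
      rw [← IndG_inv_u Γ (c x) (Φ.f (f x)), h1, IndG_inv_u]
    · intro e
      choose b hb using fun x => IndG_mem hΦ x (c x) (hc x) e
      refine ⟨b, ?_⟩
      rw [hΨa]
      refine Eq.trans ?_ (IndGP_sum Γ x₀ e)
      refine Finset.sum_congr rfl fun x _ => ?_
      rw [hb, IndG_u_inv]
  have hr' : ∀ (b : B.A) (f : X → B.A),
      Ψ (fun x => B.mul (f x) b) = E.mul (Ψ f) (Φ.f b) := fun b f => by
    rw [hΨa, hΨa, map_sum, LinearMap.sum_apply]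
    refine Finset.sum_congr rfl fun x _ => ?_
    rw [Φ.mul, ← E.mul_assoc]
  have hd' : ∀ f : X → B.A, E.dg.d (Ψ f) = Ψ (fun x => B.dg.d (f x)) := fun f => by
    rw [hΨa, hΨa, map_sum]
    refine Finset.sum_congr rfl fun x _ => ?_
    have h1 : E.dg.s (Γ.u (c x)) = Γ.u (c x) :=
      Dg.s_of_even (Dg.o_of_even (Γ.u_deg (c x)) Even.zero)
    rw [E.leibniz, Γ.u_d, map_zero, LinearMap.zero_apply, zero_add, Φ.d, h1]
  have hdeg' : ∀ {i : ℤ} {f : X → B.A}, (∀ x, B.dg.IsDeg i (f x)) → E.dg.IsDeg i (Ψ f) := by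
    intro i f hf
    rw [hΨa]
    refine hdegsum _ _ fun x => ?_
    have h1 := E.mul_deg (Γ.u_deg (c x)) (Φ.deg (hf x))
    rwa [zero_add] at h1
  have hsm : ∀ (a : k) (f : X → B.A), Ψ (a • f) = a • Ψ f := fun a f => map_smul Ψ a f
  refine BIso.perf ?_ hperf
  refine IndG_biso
    (M := fgL (@tws k _ Unit _ _ B B (IndGTriv B) X _ actX (diag B)))
    (N := fgL (res (DHom.id E) Φ (diag E))) Ψ hbij
    (fun {i f} hf => ?_) (fun a f => ?_) (fun b f => hr' b f) (fun f => hd' f)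
  · exact hdeg' (dgPi_deg.1 hf)
  · refine (congrArg Ψ (base_l (fgL (@tws k _ Unit _ _ B B (IndGTriv B) X _ actX (diag B)))
      a f)).trans ?_
    refine Eq.trans ?_ (base_l (fgL (res (DHom.id E) Φ (diag E))) a (Ψ f)).symm
    exact hsm a f

/-- The restriction along `Φ` on the right of a twist by `X` is the same as induced from `B`:
`E ⊗_B E ≅ k[X] ⊗ E`.

Proof. `ind_biso` for `N = tws Γ X (diag E)` with the grading `q x f = Pi.single x (f x)` and
`N₀ = res Φ id (diag E)`, `j e = Pi.single x₀ e`. -/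
theorem ind_tws (hΦ : IsSta Γ x₀ Φ) (hX : ∀ x : X, ∃ g : G, g • x₀ = x) :
    BIso (tb (res (DHom.id E) Φ (diag E)) (res Φ (DHom.id E) (diag E)))
      (tws Γ X (diag E)) := by
  classical
  have hsl : ∀ (x : X) (e : E.A) (y : X), (Pi.single x e : X → E.A) y = if y = x then e else 0 :=
    fun x e y => by rw [Pi.single_apply]
  have htw : ∀ (e : E.A) (f : X → E.A) (y : X), (tws Γ X (diag E)).l e f y =
      ∑ g, E.mul (Γ.p g e) (f (g⁻¹ • y)) := fun e f y => tws_l Γ X (diag E) e f y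
  have htp : ∀ (h : G) (e : E.A) (f : X → E.A) (y : X), (tws Γ X (diag E)).l (Γ.p h e) f y =
      E.mul (Γ.p h e) (f (h⁻¹ • y)) := fun h e f y => by
    rw [htw, Finset.sum_eq_single h]
    · rw [Γ.p_same]
    · intro g _ hg
      rw [Γ.p_ne g h e hg, map_zero, LinearMap.zero_apply]
    · intro hh
      exact absurd (Finset.mem_univ h) hh
  have hs1 : ∀ (x : X) (f : X → E.A), (Pi.single x ((Pi.single x (f x) : X → E.A) x) : X → E.A) =
      Pi.single x (f x) := fun x f => by rw [Pi.single_eq_same]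
  have hs2 : ∀ (x y : X) (f : X → E.A), x ≠ y →
      (Pi.single x ((Pi.single y (f y) : X → E.A) x) : X → E.A) = 0 := fun x y f hxy => by
    rw [Pi.single_eq_of_ne hxy, Pi.single_zero]
  have hs3 : ∀ {i : ℤ} (x : X) (e : E.A), E.dg.IsDeg i e → ∀ y,
      E.dg.IsDeg i ((Pi.single x e : X → E.A) y) := fun {i} x e he y => by
    rw [hsl]
    split_ifs
    · exact he
    · exact Dg.IsDeg.zero i
  have hs4 : ∀ (x : X) (e : E.A) (y : X), E.dg.d ((Pi.single x e : X → E.A) y) =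
      (Pi.single x (E.dg.d e) : X → E.A) y := fun x e y => by
    rw [hsl, hsl]
    split_ifs
    · rfl
    · exact map_zero E.dg.d
  have hs5 : ∀ (g : G) (x : X) (e : E.A) (f : X → E.A) (y : X),
      (Pi.single (g • x) ((tws Γ X (diag E)).l (Γ.p g e) f (g • x)) : X → E.A) y =
      (tws Γ X (diag E)).l (Γ.p g e) (Pi.single x (f x) : X → E.A) y := fun g x e f y => by
    rw [htp, htp, hsl, hsl, inv_smul_smul]
    by_cases h : y = g • x
    · rw [if_pos h, if_pos (by rw [h, inv_smul_smul])]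
    · rw [if_neg h, if_neg, map_zero]
      intro hh
      apply h
      rw [← hh, smul_inv_smul]
  have hs6 : ∀ (x : X) (b e : E.A) (y : X), (Pi.single x (E.mul e b) : X → E.A) y =
      E.mul ((Pi.single x e : X → E.A) y) b := fun x b e y => by
    rw [hsl, hsl]
    split_ifs
    · rfl
    · rw [map_zero, LinearMap.zero_apply]
  have hs7 : ∀ (b : B.A) (n : E.A) (y : X), (Pi.single x₀ (E.mul (Φ.f b) n) : X → E.A) y =
      (tws Γ X (diag E)).l (Φ.f b) (Pi.single x₀ n : X → E.A) y := fun b n y => by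
    rw [htw, hsl]
    have hp0 : ∀ g : G, g • x₀ ≠ x₀ → Γ.p g (Φ.f b) = 0 := fun g hg =>
      (hΦ.range (Φ.f b)).1 ⟨b, rfl⟩ g hg
    split_ifs with h
    · rw [h]
      have h1 : ∀ g, E.mul (Γ.p g (Φ.f b)) ((Pi.single x₀ n : X → E.A) (g⁻¹ • x₀)) =
          E.mul (Γ.p g (Φ.f b)) n := fun g => by
        by_cases hg : g • x₀ = x₀
        · have h2 : g⁻¹ • x₀ = x₀ := inv_smul_eq_iff.2 hg.symm
          rw [h2, Pi.single_eq_same]
        · rw [hp0 g hg, map_zero, LinearMap.zero_apply, LinearMap.zero_apply]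
      rw [Finset.sum_congr rfl fun g _ => h1 g, ← LinearMap.sum_apply, ← map_sum, Γ.sum_p]
    · refine (Finset.sum_eq_zero fun g _ => ?_).symm
      by_cases hg : g • x₀ = x₀
      · have h2 : g⁻¹ • y ≠ x₀ := by
          intro hh
          apply h
          rw [← hg, ← hh, smul_inv_smul]
        rw [Pi.single_eq_of_ne h2, map_zero]
      · rw [hp0 g hg, map_zero, LinearMap.zero_apply]
  let q : GrM Γ X (tws Γ X (diag E)) :=
    { q := fun x => (LinearMap.single k (fun _ : X => E.A) x).comp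
        (LinearMap.proj (R := k) (φ := fun _ : X => E.A) x)
      q_same := fun x f => hs1 x f
      q_ne := fun x y f hxy => hs2 x y f hxy
      sum_q := fun f => Finset.univ_sum_single (f : X → E.A)
      q_deg := fun x {i f} hf => dgPi_deg.2 fun y => hs3 x _ (dgPi_deg.1 hf x) y
      q_d := fun x f => funext fun y => hs4 x _ y
      q_l := fun g x e f => funext fun y => hs5 g x e f y
      q_r := fun x b f => funext fun y => hs6 x b _ y }
  refine ind_biso hΦ hX q (N₀ := res Φ (DHom.id E) (diag E))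
    (LinearMap.single k (fun _ : X => E.A) x₀) (fun a b h => Pi.single_injective x₀ h)
    (fun f => ⟨?_, fun h => ⟨(f : X → E.A) x₀, h⟩⟩)
    (fun {i n} hn => dgPi_deg.2 fun y => hs3 x₀ n hn y)
    (fun n => funext fun y => hs4 x₀ n y) (fun b n => funext fun y => hs7 b n y)
    (fun b n => funext fun y => hs6 x₀ b n y)
  rintro ⟨n, rfl⟩
  exact congrArg (fun z : E.A => (Pi.single x₀ z : X → E.A))
    (Pi.single_eq_same (M := fun _ : X => E.A) x₀ (n : E.A))

end Pool.Agent.MP_6e5bed_ag_SY
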