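import Pool.Agent.Lib.MP_6e5bed_ag_SY.TwA
import Pool.Agent.Lib.MP_6e5bed_ag_NC.BoxTb

set_option autoImplicit false
set_option linter.unusedSectionVars false

/-!
# MP_6e5bed_ag (project SYM): gradings of tensor products of dg algebras
-/

namespace Pool.Agent.MP_6e5bed_ag_SY

open Pool.Agent.MP_6e5bed_ag_NC
open scoped TensorProduct

universe u

variable {k : Type u} [Field k] {G G' : Type} [Group G] [Fintype G] [Group G'] [Fintype G']
  {E E' F F' : DGA k}

section aux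

variable {V W : Type u} [AddCommGroup V] [Module k V] [AddCommGroup W] [Module k W]

private theorem PrG_deg {X : Dg k V} {Y : Dg k W} {P : V →ₗ[k] V} {Q : W →ₗ[k] W}
    (hP : ∀ {i : ℤ} {v : V}, X.IsDeg i v → X.IsDeg i (P v))
    (hQ : ∀ {i : ℤ} {w : W}, Y.IsDeg i w → Y.IsDeg i (Q w)) {j : ℤ} {x : V ⊗[k] W}
    (hx : (X.tensor Y).IsDeg j x) : (X.tensor Y).IsDeg j (TensorProduct.map P Q x) := by
  have h := Dg.tensor_degMap (X := X) (Y := Y) (Z := X.tensor Y) (n := 0)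
      (TensorProduct.map P Q) (fun i j v w hv hw => by
        rw [add_zero, TensorProduct.map_tmul]
        exact Dg.tensor_deg (hP hv) (hQ hw)) hx
  rwa [add_zero] at h

private theorem PrG_o {X : Dg k V} {P : V →ₗ[k] V}
    (hP : ∀ {i : ℤ} {v : V}, X.IsDeg i v → X.IsDeg i (P v)) (v : V) :
    X.o (P v) = P (X.o v) :=
  Dg.o_degMap_even (n := 0) Even.zero P (fun h => by
    rw [add_zero]
    exact hP h) v

private theorem PrG_s {X : Dg k V} {P : V →ₗ[k] V}
    (hP : ∀ {i : ℤ} {v : V}, X.IsDeg i v → X.IsDeg i (P v)) (v : V) :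
    X.s (P v) = P (X.s v) :=
  Dg.s_degMap_even (n := 0) Even.zero P (fun h => by
    rw [add_zero]
    exact hP h) v

private theorem PrG_d {X : Dg k V} {Y : Dg k W} {P : V →ₗ[k] V} {Q : W →ₗ[k] W}
    (hP : ∀ {i : ℤ} {v : V}, X.IsDeg i v → X.IsDeg i (P v))
    (hPd : ∀ v : V, X.d (P v) = P (X.d v)) (hQd : ∀ w : W, Y.d (Q w) = Q (Y.d w))
    (x : V ⊗[k] W) :
    (X.tensor Y).d (TensorProduct.map P Q x) = TensorProduct.map P Q ((X.tensor Y).d x) := by
  induction x using TensorProduct.induction_on with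
  | zero => simp
  | add x y hx hy => simp only [map_add, hx, hy]
  | tmul a b =>
    rw [TensorProduct.map_tmul, Dg.tensor_d, Dg.tensor_d, map_add, TensorProduct.map_tmul,
      TensorProduct.map_tmul, hPd, hQd, PrG_s hP]

private theorem PrG_same {P : V →ₗ[k] V} {Q : W →ₗ[k] W} (hP : ∀ v, P (P v) = P v)
    (hQ : ∀ w, Q (Q w) = Q w) (x : V ⊗[k] W) :
    TensorProduct.map P Q (TensorProduct.map P Q x) = TensorProduct.map P Q x := by
  induction x using TensorProduct.induction_on with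
  | zero => simp
  | add x y hx hy => simp only [map_add, hx, hy]
  | tmul a b => rw [TensorProduct.map_tmul, TensorProduct.map_tmul, hP, hQ]

private theorem PrG_ne {P P' : V →ₗ[k] V} {Q Q' : W →ₗ[k] W}
    (h : (∀ v, P (P' v) = 0) ∨ (∀ w, Q (Q' w) = 0)) (x : V ⊗[k] W) :
    TensorProduct.map P Q (TensorProduct.map P' Q' x) = 0 := by
  induction x using TensorProduct.induction_on with
  | zero => simp
  | add x y hx hy => simp only [map_add, hx, hy, add_zero]
  | tmul a b =>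
    rw [TensorProduct.map_tmul, TensorProduct.map_tmul]
    rcases h with h | h
    · rw [h, TensorProduct.zero_tmul]
    · rw [h, TensorProduct.tmul_zero]

private theorem PrG_kz {X : Dg k V} {Y : Dg k W} {α : V →ₗ[k] V →ₗ[k] V}
    {β : W →ₗ[k] W →ₗ[k] W} {P P' P'' : V →ₗ[k] V} {Q Q' Q'' : W →ₗ[k] W}
    (hP : ∀ v w, P'' (α (P v) (P' w)) = α (P v) (P' w))
    (hQ : ∀ v w, Q'' (β (Q v) (Q' w)) = β (Q v) (Q' w))
    (hPo : ∀ v, X.o (P' v) = P' (X.o v)) (hQo : ∀ w, Y.o (Q w) = Q (Y.o w))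
    (x y : V ⊗[k] W) :
    TensorProduct.map P'' Q'' (kz X Y α β (TensorProduct.map P Q x) (TensorProduct.map P' Q' y)) =
      kz X Y α β (TensorProduct.map P Q x) (TensorProduct.map P' Q' y) := by
  induction x using TensorProduct.induction_on with
  | zero => simp
  | add x x' hx hx' => simp only [map_add, LinearMap.add_apply, hx, hx']
  | tmul a b =>
    induction y using TensorProduct.induction_on with
    | zero => simp
    | add y y' hy hy' => simp only [map_add, hy, hy']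
    | tmul a' b' =>
      rw [TensorProduct.map_tmul, TensorProduct.map_tmul, kz_tmul, map_sub, map_smul,
        TensorProduct.map_tmul, TensorProduct.map_tmul, hPo, hQo, hP, hQ, hP, hQ]

private theorem PrG_kzl {X : Dg k V} {Y : Dg k W} {α : V →ₗ[k] V →ₗ[k] V}
    {β : W →ₗ[k] W →ₗ[k] W} {P P' P'' : V →ₗ[k] V}
    (hP : ∀ v w, P'' (α (P v) (P' w)) = α (P v) (P' w))
    (hPo : ∀ v, X.o (P' v) = P' (X.o v)) (x y : V ⊗[k] W) :
    TensorProduct.map P'' LinearMap.id (kz X Y α β (TensorProduct.map P LinearMap.id x)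
      (TensorProduct.map P' LinearMap.id y)) =
      kz X Y α β (TensorProduct.map P LinearMap.id x) (TensorProduct.map P' LinearMap.id y) :=
  PrG_kz (Q := LinearMap.id) (Q' := LinearMap.id) (Q'' := LinearMap.id) hP
    (fun _ _ => LinearMap.id_apply _) hPo (fun _ => by simp only [LinearMap.id_apply]) x y

private theorem PrG_kzr {X : Dg k V} {Y : Dg k W} {α : V →ₗ[k] V →ₗ[k] V}
    {β : W →ₗ[k] W →ₗ[k] W} {Q Q' Q'' : W →ₗ[k] W}
    (hQ : ∀ v w, Q'' (β (Q v) (Q' w)) = β (Q v) (Q' w))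
    (hQo : ∀ w, Y.o (Q w) = Q (Y.o w)) (x y : V ⊗[k] W) :
    TensorProduct.map LinearMap.id Q'' (kz X Y α β (TensorProduct.map LinearMap.id Q x)
      (TensorProduct.map LinearMap.id Q' y)) =
      kz X Y α β (TensorProduct.map LinearMap.id Q x) (TensorProduct.map LinearMap.id Q' y) :=
  PrG_kz (P := LinearMap.id) (P' := LinearMap.id) (P'' := LinearMap.id)
    (fun _ _ => LinearMap.id_apply _) hQ (fun _ => by simp only [LinearMap.id_apply]) hQo x y

private theorem PrG_dl {X : Dg k V} {Y : Dg k W} {P : V →ₗ[k] V}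
    (hP : ∀ {i : ℤ} {v : V}, X.IsDeg i v → X.IsDeg i (P v))
    (hPd : ∀ v : V, X.d (P v) = P (X.d v)) (x : V ⊗[k] W) :
    (X.tensor Y).d (TensorProduct.map P LinearMap.id x) =
      TensorProduct.map P LinearMap.id ((X.tensor Y).d x) :=
  PrG_d hP hPd (fun _ => by simp only [LinearMap.id_apply]) x

private theorem PrG_dr {X : Dg k V} {Y : Dg k W} {Q : W →ₗ[k] W}
    (hQd : ∀ w : W, Y.d (Q w) = Q (Y.d w)) (x : V ⊗[k] W) :
    (X.tensor Y).d (TensorProduct.map LinearMap.id Q x) =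
      TensorProduct.map LinearMap.id Q ((X.tensor Y).d x) :=
  PrG_d (fun h => h) (fun _ => by simp only [LinearMap.id_apply]) hQd x

private theorem PrG_sum {ι κ : Type} [Fintype ι] [Fintype κ] {P : ι → V →ₗ[k] V}
    {Q : κ → W →ₗ[k] W} (hP : ∀ v, ∑ g, P g v = v) (hQ : ∀ w, ∑ g, Q g w = w) (x : V ⊗[k] W) :
    ∑ g : ι × κ, TensorProduct.map (P g.1) (Q g.2) x = x := by
  induction x using TensorProduct.induction_on with
  | zero => simp
  | add x y hx hy => simp only [map_add, Finset.sum_add_distrib, hx, hy]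
  | tmul a b =>
    rw [Fintype.sum_prod_type]
    simp only [TensorProduct.map_tmul, ← TensorProduct.tmul_sum, ← TensorProduct.sum_tmul, hP, hQ]

private theorem PrG_suml {ι : Type} [Fintype ι] {P : ι → V →ₗ[k] V}
    (hP : ∀ v, ∑ g, P g v = v) (x : V ⊗[k] W) :
    ∑ g : ι, TensorProduct.map (P g) (LinearMap.id : W →ₗ[k] W) x = x := by
  induction x using TensorProduct.induction_on with
  | zero => simp
  | add x y hx hy => simp only [map_add, Finset.sum_add_distrib, hx, hy]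
  | tmul a b =>
    simp only [TensorProduct.map_tmul, ← TensorProduct.sum_tmul, hP, LinearMap.id_coe, id_eq]

private theorem PrG_sumr {ι : Type} [Fintype ι] {Q : ι → W →ₗ[k] W}
    (hQ : ∀ v, ∑ g, Q g v = v) (x : V ⊗[k] W) :
    ∑ g : ι, TensorProduct.map (LinearMap.id : V →ₗ[k] V) (Q g) x = x := by
  induction x using TensorProduct.induction_on with
  | zero => simp
  | add x y hx hy => simp only [map_add, Finset.sum_add_distrib, hx, hy]
  | tmul a b =>
    simp only [TensorProduct.map_tmul, ← TensorProduct.tmul_sum, hQ, LinearMap.id_coe, id_eq]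

private theorem PrG_ud {X : Dg k V} {Y : Dg k W} {v : V} {w : W} (hv : X.d v = 0)
    (hw : Y.d w = 0) : (X.tensor Y).d (v ⊗ₜ[k] w) = 0 := by
  rw [Dg.tensor_d, hv, hw, TensorProduct.zero_tmul, TensorProduct.tmul_zero, add_zero]

private theorem PrG_udeg {X : Dg k V} {Y : Dg k W} {v : V} {w : W} (hv : X.IsDeg 0 v)
    (hw : Y.IsDeg 0 w) : (X.tensor Y).IsDeg 0 (v ⊗ₜ[k] w) := by
  have h := Dg.tensor_deg hv hw
  rwa [add_zero] at h

private theorem PrG_umul {X : Dg k V} {Y : Dg k W} {α : V →ₗ[k] V →ₗ[k] V}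
    {β : W →ₗ[k] W →ₗ[k] W} {v v' v'' : V} {w w' w'' : W} (hv : X.IsDeg 0 v')
    (h : α v v' = v'') (h' : β w w' = w'') :
    kz X Y α β (v ⊗ₜ w) (v' ⊗ₜ w') = v'' ⊗ₜ[k] w'' := by
  rw [kz_even' (Dg.o_of_even hv Even.zero), h, h']

private theorem PrG_pu {P : V →ₗ[k] V} {Q : W →ₗ[k] W} {v : V} {w : W} (hv : P v = v)
    (hw : Q w = w) : TensorProduct.map P Q (v ⊗ₜ[k] w) = v ⊗ₜ[k] w := by
  rw [TensorProduct.map_tmul, hv, hw]

private theorem PrG_congr {v v' : V} {w w' : W} (hv : v = v') (hw : w = w') :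
    v ⊗ₜ[k] w = v' ⊗ₜ[k] w' := by
  rw [hv, hw]

end aux

/-- The `G × G'`-grading of `E ⊗ E'`. -/
noncomputable def GrA.prod (Γ : GrA G E) (Δ : GrA G' E') : GrA (G × G') (E.tensor E') where
  p := fun g => TensorProduct.map (Γ.p g.1) (Δ.p g.2)
  p_same := fun g x => PrG_same (Γ.p_same g.1) (Δ.p_same g.2) x
  p_ne := fun g h x hg => by
    refine PrG_ne ?_ x
    by_cases h1 : g.1 = h.1
    · exact Or.inr fun w => Δ.p_ne g.2 h.2 w fun h2 => hg (Prod.ext h1 h2)
    · exact Or.inl fun v => Γ.p_ne g.1 h.1 v h1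
  sum_p := fun x => PrG_sum Γ.sum_p Δ.sum_p x
  p_deg := fun g {i x} hx => PrG_deg (Γ.p_deg g.1) (Δ.p_deg g.2) hx
  p_d := fun g x => PrG_d (Γ.p_deg g.1) (Γ.p_d g.1) (Δ.p_d g.2) x
  p_mul := fun g h x y => PrG_kz (Γ.p_mul g.1 h.1) (Δ.p_mul g.2 h.2) (PrG_o (Γ.p_deg h.1))
    (PrG_o (Δ.p_deg g.2)) x y
  u := fun g => Γ.u g.1 ⊗ₜ[k] Δ.u g.2
  u_deg := fun g => PrG_udeg (Γ.u_deg g.1) (Δ.u_deg g.2)
  u_d := fun g => PrG_ud (Γ.u_d g.1) (Δ.u_d g.2)
  u_one := PrG_congr Γ.u_one Δ.u_one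
  u_mul := fun g h => PrG_umul (Γ.u_deg h.1) (Γ.u_mul g.1 h.1) (Δ.u_mul g.2 h.2)
  p_u := fun g => PrG_pu (Γ.p_u g.1) (Δ.p_u g.2)

theorem GrA.prod_p (Γ : GrA G E) (Δ : GrA G' E') (g : G × G') :
    (Γ.prod Δ).p g = TensorProduct.map (Γ.p g.1) (Δ.p g.2) := rfl

theorem GrA.prod_u (Γ : GrA G E) (Δ : GrA G' E') (g : G × G') :
    (Γ.prod Δ).u g = Γ.u g.1 ⊗ₜ[k] Δ.u g.2 := rfl

/-- The `G`-grading of `E ⊗ E'` given by the grading of `E`. -/
noncomputable def GrA.fst (Γ : GrA G E) (E' : DGA k) : GrA G (E.tensor E') where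
  p := fun g => TensorProduct.map (Γ.p g) LinearMap.id
  p_same := fun g x => PrG_same (Γ.p_same g) (fun _ => rfl) x
  p_ne := fun g h x hg => PrG_ne (Or.inl fun v => Γ.p_ne g h v hg) x
  sum_p := fun x => PrG_suml Γ.sum_p x
  p_deg := fun g {i x} hx => PrG_deg (Γ.p_deg g) (fun h => h) hx
  p_d := fun g x => PrG_dl (Γ.p_deg g) (Γ.p_d g) x
  p_mul := fun g h x y => PrG_kzl (Γ.p_mul g h) (PrG_o (Γ.p_deg h)) x y
  u := fun g => Γ.u g ⊗ₜ[k] E'.one
  u_deg := fun g => PrG_udeg (Γ.u_deg g) E'.one_deg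
  u_d := fun g => PrG_ud (Γ.u_d g) E'.d_one
  u_one := PrG_congr Γ.u_one rfl
  u_mul := fun g h => PrG_umul (Γ.u_deg h) (Γ.u_mul g h) (E'.one_mul _)
  p_u := fun g => PrG_pu (Γ.p_u g) rfl

/-- The `G'`-grading of `E ⊗ E'` given by the grading of `E'`. -/
noncomputable def GrA.snd (E : DGA k) (Δ : GrA G' E') : GrA G' (E.tensor E') where
  p := fun g => TensorProduct.map LinearMap.id (Δ.p g)
  p_same := fun g x => PrG_same (fun _ => rfl) (Δ.p_same g) x
  p_ne := fun g h x hg => PrG_ne (Or.inr fun v => Δ.p_ne g h v hg) x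
  sum_p := fun x => PrG_sumr Δ.sum_p x
  p_deg := fun g {i x} hx => PrG_deg (fun h => h) (Δ.p_deg g) hx
  p_d := fun g x => PrG_dr (Δ.p_d g) x
  p_mul := fun g h x y => PrG_kzr (Δ.p_mul g h) (PrG_o (Δ.p_deg g)) x y
  u := fun g => E.one ⊗ₜ[k] Δ.u g
  u_deg := fun g => PrG_udeg E.one_deg (Δ.u_deg g)
  u_d := fun g => PrG_ud E.d_one (Δ.u_d g)
  u_one := PrG_congr rfl Δ.u_one
  u_mul := fun g h => PrG_umul E.one_deg (E.one_mul _) (Δ.u_mul g h)
  p_u := fun g => PrG_pu rfl (Δ.p_u g)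

theorem GrA.fst_p (Γ : GrA G E) (E' : DGA k) (g : G) :
    (Γ.fst E').p g = TensorProduct.map (Γ.p g) LinearMap.id := rfl

theorem GrA.snd_p (E : DGA k) (Δ : GrA G' E') (g : G') :
    (GrA.snd E Δ).p g = TensorProduct.map LinearMap.id (Δ.p g) := rfl

end Pool.Agent.MP_6e5bed_ag_SY
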