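import Pool.Agent.Lib.MP_6e5bed_ag_SY.ActT
import Pool.Agent.Lib.MP_6e5bed_ag_SY.PrG
import Pool.Agent.Lib.MP_6e5bed_ag_SY.IndG

set_option autoImplicit false
set_option linter.unusedSectionVars false

/-!
# MP_6e5bed_ag (project SYM): the diagonal of crossed products is induced
-/

namespace Pool.Agent.MP_6e5bed_ag_SY

open Pool.Agent.MP_6e5bed_ag_NC
open scoped TensorProduct

universe u

/-- The group `G` as a `G × G`-set, `(g, h) x = g x h⁻¹`. -/
def TwG (G : Type) : Type := G

instance (G : Type) [Fintype G] : Fintype (TwG G) := inferInstanceAs (Fintype G)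

instance (G : Type) [Group G] : MulAction (G × G) (TwG G) where
  smul := fun g (x : G) => (g.1 * x * g.2⁻¹ : G)
  one_smul := fun (x : G) => by
    change (1 : G) * x * (1 : G)⁻¹ = x
    simp
  mul_smul := fun g h (x : G) => by
    change (g.1 * h.1) * x * (g.2 * h.2)⁻¹ = g.1 * (h.1 * x * h.2⁻¹) * g.2⁻¹
    group

/-- A group element as an element of the `G × G`-set. -/
def TwG.of {G : Type} (x : G) : TwG G := x

theorem TwG.smul_of {G : Type} [Group G] (g : G × G) (x : G) :
    g • TwG.of x = TwG.of (g.1 * x * g.2⁻¹) := rfl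

/-- The base point. -/
def tw1 (G : Type) [Group G] : TwG G := TwG.of (1 : G)

theorem TwG.trans {G : Type} [Group G] (x : TwG G) : ∃ g : G × G, g • tw1 G = x := by
  have h : ∀ y : G, ∃ g : G × G, g • tw1 G = TwG.of y := fun y => by
    refine ⟨(y, 1), (TwG.smul_of _ _).trans ?_⟩
    rw [inv_one, mul_one, mul_one]
  exact h x

theorem TwG.sta {G : Type} [Group G] (g : G × G) : g • tw1 G = tw1 G ↔ g.1 = g.2 := by
  change (g.1 * 1 * g.2⁻¹ : G) = 1 ↔ g.1 = g.2
  rw [mul_one, mul_inv_eq_one]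

variable {k : Type u} [Field k] {G : Type} [Group G] [Fintype G] {D D' C C' : DGA k}

section aux

section kz

variable {R : Type u} [CommRing R] {V V' V'' W W' W'' : Type u} [AddCommGroup V] [Module R V]
  [AddCommGroup V'] [Module R V'] [AddCommGroup V''] [Module R V''] [AddCommGroup W]
  [Module R W] [AddCommGroup W'] [Module R W'] [AddCommGroup W''] [Module R W'']

private theorem DlN_kz {X : Dg R V'} {Y : Dg R W} {α : V →ₗ[R] V' →ₗ[R] V''}
    {β : W →ₗ[R] W' →ₗ[R] W''} (p : V →ₗ[R] V) (p' : W →ₗ[R] W) (q₁ : V'' →ₗ[R] V'')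
    (q₁' : W'' →ₗ[R] W'') (q₂ : V' →ₗ[R] V') (q₂' : W' →ₗ[R] W')
    (h : ∀ a n, q₁ (α (p a) n) = α (p a) (q₂ n))
    (h' : ∀ a n, q₁' (β (p' a) n) = β (p' a) (q₂' n))
    (ho : ∀ b, Y.o (p' b) = p' (Y.o b)) (ho' : ∀ n, X.o (q₂ n) = q₂ (X.o n))
    (e : V ⊗[R] W) (m : V' ⊗[R] W') :
    TensorProduct.map q₁ q₁' (kz X Y α β (TensorProduct.map p p' e) m) =
      kz X Y α β (TensorProduct.map p p' e) (TensorProduct.map q₂ q₂' m) := by
  induction e using TensorProduct.induction_on with
  | zero => simp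
  | add x y hx hy => simp only [map_add, LinearMap.add_apply, hx, hy]
  | tmul a a' =>
    induction m using TensorProduct.induction_on with
    | zero => simp
    | add x y hx hy => simp only [map_add, hx, hy]
    | tmul n n' =>
      rw [TensorProduct.map_tmul, TensorProduct.map_tmul, kz_tmul, kz_tmul, map_sub, map_smul,
        TensorProduct.map_tmul, TensorProduct.map_tmul, ho, ho', h, h', h, h']

private theorem DlN_kz' {X : Dg R V'} {Y : Dg R W} {α : V →ₗ[R] V' →ₗ[R] V''}
    {β : W →ₗ[R] W' →ₗ[R] W''} (p : V' →ₗ[R] V') (p' : W' →ₗ[R] W') (q₁ : V'' →ₗ[R] V'')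
    (q₁' : W'' →ₗ[R] W'') (q₂ : V →ₗ[R] V) (q₂' : W →ₗ[R] W)
    (h : ∀ a n, q₁ (α n (p a)) = α (q₂ n) (p a))
    (h' : ∀ a n, q₁' (β n (p' a)) = β (q₂' n) (p' a))
    (ho : ∀ b, X.o (p b) = p (X.o b)) (ho' : ∀ n, Y.o (q₂' n) = q₂' (Y.o n))
    (e : V' ⊗[R] W') (m : V ⊗[R] W) :
    TensorProduct.map q₁ q₁' (kz X Y α β m (TensorProduct.map p p' e)) =
      kz X Y α β (TensorProduct.map q₂ q₂' m) (TensorProduct.map p p' e) := by
  induction e using TensorProduct.induction_on with
  | zero => simp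
  | add x y hx hy => simp only [map_add, hx, hy]
  | tmul a a' =>
    induction m using TensorProduct.induction_on with
    | zero => simp
    | add x y hx hy => simp only [map_add, LinearMap.add_apply, hx, hy]
    | tmul n n' =>
      rw [TensorProduct.map_tmul, TensorProduct.map_tmul, kz_tmul, kz_tmul, map_sub, map_smul,
        TensorProduct.map_tmul, TensorProduct.map_tmul, ho, ho', h, h', h, h']

end kz

section fam

variable {R : Type u} [CommRing R] {V V' : Type u} [AddCommGroup V] [Module R V]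
  [AddCommGroup V'] [Module R V'] {I J X : Type}

private theorem DlN_map_same {p : I → V →ₗ[R] V} {p' : J → V' →ₗ[R] V'}
    (h : ∀ i x, p i (p i x) = p i x) (h' : ∀ i x, p' i (p' i x) = p' i x) (i : I) (j : J)
    (x : V ⊗[R] V') : TensorProduct.map (p i) (p' j) (TensorProduct.map (p i) (p' j) x) =
      TensorProduct.map (p i) (p' j) x := by
  induction x using TensorProduct.induction_on with
  | zero => simp
  | add x y hx hy => rw [map_add, map_add, hx, hy]
  | tmul a b => rw [TensorProduct.map_tmul, TensorProduct.map_tmul, h, h']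

private theorem DlN_map_ne {p : I → V →ₗ[R] V} {p' : J → V' →ₗ[R] V'}
    (h : ∀ i j x, i ≠ j → p i (p j x) = 0) (h' : ∀ i j x, i ≠ j → p' i (p' j x) = 0)
    (i i' : I × J) (hi : i ≠ i') (x : V ⊗[R] V') :
    TensorProduct.map (p i.1) (p' i.2) (TensorProduct.map (p i'.1) (p' i'.2) x) = 0 := by
  induction x using TensorProduct.induction_on with
  | zero => simp
  | add x y hx hy => rw [map_add, map_add, hx, hy, add_zero]
  | tmul a b =>
    rw [TensorProduct.map_tmul, TensorProduct.map_tmul]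
    by_cases h1 : i.1 = i'.1
    · rw [h' _ _ _ (fun h2 => hi (Prod.ext h1 h2)), TensorProduct.tmul_zero]
    · rw [h _ _ _ h1, TensorProduct.zero_tmul]

private theorem DlN_map_sum [Fintype I] [Fintype J] {p : I → V →ₗ[R] V}
    {p' : J → V' →ₗ[R] V'} (h : ∀ x, ∑ i, p i x = x) (h' : ∀ x, ∑ i, p' i x = x)
    (x : V ⊗[R] V') : ∑ i : I × J, TensorProduct.map (p i.1) (p' i.2) x = x := by
  induction x using TensorProduct.induction_on with
  | zero => simp
  | add x y hx hy =>
    simp only [map_add, Finset.sum_add_distrib]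
    rw [hx, hy]
  | tmul a b =>
    conv_rhs => rw [← h a, ← h' b]
    rw [Fintype.sum_prod_type, TensorProduct.sum_tmul]
    refine Finset.sum_congr rfl fun i _ => ?_
    rw [TensorProduct.tmul_sum]
    rfl

open Classical in
private noncomputable def DlNq [Fintype I] (Q : I → V →ₗ[R] V) (π : I → X) (x : X) :
    V →ₗ[R] V := ∑ i ∈ Finset.univ.filter (fun i => π i = x), Q i

open Classical in
private theorem DlNq_apply [Fintype I] (Q : I → V →ₗ[R] V) (π : I → X) (x : X) (m : V) :
    DlNq Q π x m = ∑ i ∈ Finset.univ.filter (fun i => π i = x), Q i m := by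
  rw [DlNq, LinearMap.sum_apply]

open Classical in
private theorem DlNq_Q [Fintype I] {Q : I → V →ₗ[R] V} (π : I → X)
    (h1 : ∀ i m, Q i (Q i m) = Q i m) (h2 : ∀ i j m, i ≠ j → Q i (Q j m) = 0) (x : X) (i : I)
    (m : V) : Q i (DlNq Q π x m) = if π i = x then Q i m else 0 := by
  rw [DlNq_apply, map_sum]
  split_ifs with h
  · rw [Finset.sum_eq_single i]
    · exact h1 i m
    · intro j _ hj
      exact h2 i j m (Ne.symm hj)
    · intro h3
      exact absurd (Finset.mem_filter.2 ⟨Finset.mem_univ i, h⟩) h3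
  · refine Finset.sum_eq_zero fun j hj => h2 i j m ?_
    rintro rfl
    exact h (Finset.mem_filter.1 hj).2

private theorem DlNq_same [Fintype I] {Q : I → V →ₗ[R] V} (π : I → X)
    (h1 : ∀ i m, Q i (Q i m) = Q i m) (h2 : ∀ i j m, i ≠ j → Q i (Q j m) = 0) (x : X)
    (m : V) : DlNq Q π x (DlNq Q π x m) = DlNq Q π x m := by
  classical
  rw [DlNq_apply Q π x (DlNq Q π x m), DlNq_apply Q π x m]
  refine Finset.sum_congr rfl fun i hi => ?_
  rw [← DlNq_apply, DlNq_Q π h1 h2, if_pos (Finset.mem_filter.1 hi).2]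

private theorem DlNq_ne [Fintype I] {Q : I → V →ₗ[R] V} (π : I → X)
    (h1 : ∀ i m, Q i (Q i m) = Q i m) (h2 : ∀ i j m, i ≠ j → Q i (Q j m) = 0) (x y : X)
    (m : V) (hxy : x ≠ y) : DlNq Q π x (DlNq Q π y m) = 0 := by
  classical
  rw [DlNq_apply Q π x]
  refine Finset.sum_eq_zero fun i hi => ?_
  rw [DlNq_Q π h1 h2, if_neg]
  rw [(Finset.mem_filter.1 hi).2]
  exact hxy

private theorem DlNq_sum [Fintype I] [Fintype X] {Q : I → V →ₗ[R] V} (π : I → X)
    (h : ∀ m, ∑ i, Q i m = m) (m : V) : ∑ x, DlNq Q π x m = m := by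
  classical
  refine Eq.trans ?_ (h m)
  rw [← Finset.sum_fiberwise Finset.univ π (fun i => Q i m)]
  exact Finset.sum_congr rfl fun x _ => DlNq_apply Q π x m

private theorem DlN_sumdeg {Z : Dg R V} {n : ℤ} (t : Finset I) (f : I → V)
    (h : ∀ i, Z.IsDeg n (f i)) : Z.IsDeg n (∑ i ∈ t, f i) := by
  classical
  induction t using Finset.induction_on with
  | empty =>
    rw [Finset.sum_empty]
    exact Dg.IsDeg.zero n
  | insert a s ha ih =>
    rw [Finset.sum_insert ha]
    exact (h a).add ih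

private theorem DlN_mapdeg {W W' : Type u} [AddCommGroup W] [Module R W] [AddCommGroup W']
    [Module R W'] {Z : Dg R V} {Z' : Dg R V'} {Y : Dg R W} {Y' : Dg R W'} {f : V →ₗ[R] W}
    {f' : V' →ₗ[R] W'} (h : ∀ {i : ℤ} {x : V}, Z.IsDeg i x → Y.IsDeg i (f x))
    (h' : ∀ {i : ℤ} {x : V'}, Z'.IsDeg i x → Y'.IsDeg i (f' x)) {i : ℤ} {x : V ⊗[R] V'}
    (hx : (Z.tensor Z').IsDeg i x) : (Y.tensor Y').IsDeg i (TensorProduct.map f f' x) := by
  have h1 := Dg.tensor_degMap (X := Z) (Y := Z') (Z := Y.tensor Y') (n := 0)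
    (TensorProduct.map f f') (fun i j v w hv hw => by
      rw [add_zero, TensorProduct.map_tmul]
      exact Dg.tensor_deg (h hv) (h' hw)) hx
  rwa [add_zero] at h1

private theorem DlN_mapd {W W' : Type u} [AddCommGroup W] [Module R W] [AddCommGroup W']
    [Module R W'] {Z : Dg R V} {Z' : Dg R V'} {Y : Dg R W} {Y' : Dg R W'} {f : V →ₗ[R] W}
    {f' : V' →ₗ[R] W'} (h : ∀ x, Y.d (f x) = f (Z.d x)) (h' : ∀ x, Y'.d (f' x) = f' (Z'.d x))
    (hs : ∀ x, Y.s (f x) = f (Z.s x)) (x : V ⊗[R] V') :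
    (Y.tensor Y').d (TensorProduct.map f f' x) =
      TensorProduct.map f f' ((Z.tensor Z').d x) := by
  induction x using TensorProduct.induction_on with
  | zero => simp
  | add x y hx hy => rw [map_add, map_add, map_add, map_add, hx, hy]
  | tmul a b =>
    rw [TensorProduct.map_tmul, Dg.tensor_d, Dg.tensor_d, map_add, TensorProduct.map_tmul,
      TensorProduct.map_tmul, h, h', hs]

private theorem DlN_o {Z : Dg R V} {Y : Dg R V'} {f : V →ₗ[R] V'}
    (h : ∀ {i : ℤ} {x : V}, Z.IsDeg i x → Y.IsDeg i (f x)) (x : V) :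
    Y.o (f x) = f (Z.o x) :=
  Dg.o_degMap_even (n := 0) Even.zero f (fun h1 => by
    rw [add_zero]
    exact h h1) x

private theorem DlN_s {Z : Dg R V} {Y : Dg R V'} {f : V →ₗ[R] V'}
    (h : ∀ {i : ℤ} {x : V}, Z.IsDeg i x → Y.IsDeg i (f x)) (x : V) :
    Y.s (f x) = f (Z.s x) :=
  Dg.s_degMap_even (n := 0) Even.zero f (fun h1 => by
    rw [add_zero]
    exact h h1) x

end fam

section pi

variable {V V' : Type u} [AddCommGroup V] [Module k V] [AddCommGroup V'] [Module k V']
  [DecidableEq G]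

/-- The projection to the member with the index `g`. -/
private noncomputable abbrev DlNP (V : Type u) [AddCommGroup V] [Module k V] (g : G) :
    (G → V) →ₗ[k] (G → V) :=
  (LinearMap.single k (fun _ : G => V) g).comp (LinearMap.proj g)

private theorem DlNP_apply (g : G) (x : G → V) : DlNP (k := k) V g x = Pi.single g (x g) := rfl

private theorem DlNP_same (g : G) (x : G → V) :
    DlNP (k := k) V g (DlNP (k := k) V g x) = DlNP (k := k) V g x := by
  rw [DlNP_apply, DlNP_apply, Pi.single_eq_same]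

private theorem DlNP_ne (g h : G) (x : G → V) (hg : g ≠ h) :
    DlNP (k := k) V g (DlNP (k := k) V h x) = 0 := by
  rw [DlNP_apply, DlNP_apply, Pi.single_eq_of_ne hg, Pi.single_zero]

private theorem DlNP_sum (x : G → V) : ∑ g, DlNP (k := k) V g x = x :=
  Finset.univ_sum_single x

/-- The projections of the image of the diagonal. -/
private theorem DlN_pp (s t : G) (x : G → V ⊗[k] V') :
    TensorProduct.map (DlNP (k := k) V s) (DlNP (k := k) V' t) (dlM G V V' x) =
      if s = t then TensorProduct.map (LinearMap.single k (fun _ : G => V) s)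
        (LinearMap.single k (fun _ : G => V') s) (x s) else 0 := by
  have h1 : ∀ (g : G) (y : V ⊗[k] V'),
      TensorProduct.map (DlNP (k := k) V s) (DlNP (k := k) V' t)
        (TensorProduct.map (LinearMap.single k (fun _ : G => V) g)
          (LinearMap.single k (fun _ : G => V') g) y) =
      if s = g ∧ t = g then TensorProduct.map (LinearMap.single k (fun _ : G => V) g)
        (LinearMap.single k (fun _ : G => V') g) y else 0 := by
    intro g y
    induction y using TensorProduct.induction_on with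
    | zero => simp
    | add x y hx hy =>
      rw [map_add, map_add, hx, hy]
      split_ifs
      · rfl
      · rw [add_zero]
    | tmul a b =>
      have h2 : ∀ (U : Type u) [AddCommGroup U] [Module k U] (u : U) (r : G), r ≠ g →
          DlNP (k := k) U r (Pi.single g u : G → U) = 0 := by
        intro U _ _ u r hr
        rw [DlNP_apply, Pi.single_eq_of_ne hr, Pi.single_zero]
      have h3 : ∀ (U : Type u) [AddCommGroup U] [Module k U] (u : U),
          DlNP (k := k) U g (Pi.single g u : G → U) = Pi.single g u := by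
        intro U _ _ u
        rw [DlNP_apply, Pi.single_eq_same]
      rw [TensorProduct.map_tmul, LinearMap.single_apply, LinearMap.single_apply,
        TensorProduct.map_tmul]
      split_ifs with h
      · rw [h.1, h.2, h3, h3]
      · by_cases h4 : s = g
        · rw [h2 V' b t (fun h5 => h ⟨h4, h5⟩), TensorProduct.tmul_zero]
        · rw [h2 V a s h4, TensorProduct.zero_tmul]
  rw [dlM_apply, map_sum]
  split_ifs with h
  · rw [Finset.sum_eq_single s]
    · rw [h1, if_pos ⟨rfl, h.symm⟩]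
    · intro g _ hg
      rw [h1, if_neg]
      exact fun h2 => hg h2.1.symm
    · intro h2
      exact absurd (Finset.mem_univ s) h2
  · refine Finset.sum_eq_zero fun g _ => ?_
    rw [h1, if_neg]
    exact fun h2 => h (h2.1.trans h2.2.symm)

private theorem DlN_pp_same (x : G → V ⊗[k] V') :
    ∑ s, TensorProduct.map (DlNP (k := k) V s) (DlNP (k := k) V' s) (dlM G V V' x) =
      dlM G V V' x := by
  rw [dlM_apply]
  refine Finset.sum_congr rfl fun s _ => ?_
  rw [← dlM_apply, DlN_pp, if_pos rfl]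

/-- The image of the diagonal. -/
private theorem DlN_im (e : (G → V) ⊗[k] (G → V')) :
    (∃ b, dlM G V V' b = e) ↔
      ∑ s, TensorProduct.map (DlNP (k := k) V s) (DlNP (k := k) V' s) e = e := by
  constructor
  · rintro ⟨b, rfl⟩
    exact DlN_pp_same b
  · intro h
    refine ⟨fun s => TensorProduct.map (LinearMap.proj s) (LinearMap.proj s) e, ?_⟩
    rw [dlM_apply]
    refine Eq.trans ?_ h
    refine Finset.sum_congr rfl fun s _ => ?_
    rw [← LinearMap.comp_apply, ← TensorProduct.map_comp]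

private theorem DlN_ext {U : Type u} [AddCommGroup U] [Module k U]
    {f f' : (G → V ⊗[k] V') →ₗ[k] U}
    (h : ∀ (g : G) (v : V) (v' : V'), f (Pi.single g (v ⊗ₜ[k] v')) =
      f' (Pi.single g (v ⊗ₜ[k] v'))) (x : G → V ⊗[k] V') : f x = f' x := by
  have h1 : f = f' := LinearMap.pi_ext' fun g => TensorProduct.ext' fun v v' => h g v v'
  rw [h1]

private theorem DlN_sdeg {Z : Dg k V} (g : G) {i : ℤ} {v : V} (hv : Z.IsDeg i v) :
    (dgPi Z G).IsDeg i (Pi.single g v : G → V) := by
  refine dgPi_deg.2 fun t => ?_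
  rw [Pi.single_apply]
  split_ifs
  · exact hv
  · exact Dg.IsDeg.zero i

private theorem DlN_sd (Z : Dg k V) (g : G) (v : V) :
    (dgPi Z G).d (Pi.single g v : G → V) = Pi.single g (Z.d v) := by
  funext t
  rw [dgPi_d, Pi.single_apply, Pi.single_apply]
  split_ifs
  · rfl
  · exact map_zero _

private theorem DlN_so (Z : Dg k V) (g : G) (v : V) :
    (dgPi Z G).o (Pi.single g v : G → V) = Pi.single g (Z.o v) := by
  funext t
  rw [dgPi_o, Pi.single_apply, Pi.single_apply]
  split_ifs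
  · rfl
  · exact map_zero _

private theorem DlN_ss (Z : Dg k V) (g : G) (v : V) :
    (dgPi Z G).s (Pi.single g v : G → V) = Pi.single g (Z.s v) := by
  funext t
  rw [dgPi_s, Pi.single_apply, Pi.single_apply]
  split_ifs
  · rfl
  · exact map_zero _

end pi

section so

variable {R : Type u} [CommRing R] {V : Type u} [AddCommGroup V] [Module R V] [DecidableEq G]

private theorem DlN_so' (Z : Dg R V) (g : G) (v : V) :
    (dgPi Z G).o (Pi.single g v : G → V) = Pi.single g (Z.o v) := by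
  funext t
  rw [dgPi_o, Pi.single_apply, Pi.single_apply]
  split_ifs
  · rfl
  · exact map_zero _

end so

section abs

variable {R : Type u} [CommRing R] {V1 V2 V3 W1 W2 W3 : Type u} [AddCommGroup V1] [Module R V1]
  [AddCommGroup V2] [Module R V2] [AddCommGroup V3] [Module R V3] [AddCommGroup W1]
  [Module R W1] [AddCommGroup W2] [Module R W2] [AddCommGroup W3] [Module R W3]
  [DecidableEq G]

private theorem DlN_ind {p : (G → V1 ⊗[R] W1) → Prop} (h0 : p 0)
    (ha : ∀ x y, p x → p y → p (x + y))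
    (hs : ∀ (g : G) (v : V1) (w : W1), p (Pi.single g (v ⊗ₜ[R] w))) (x : G → V1 ⊗[R] W1) :
    p x := by
  have h1 : ∀ (g : G) (y : V1 ⊗[R] W1), p (Pi.single g y) := by
    intro g y
    induction y using TensorProduct.induction_on with
    | zero =>
      rw [Pi.single_zero]
      exact h0
    | add x y hx hy =>
      rw [Pi.single_add]
      exact ha _ _ hx hy
    | tmul v w => exact hs g v w
  rw [← Finset.univ_sum_single x]
  exact Finset.sum_induction _ p ha h0 fun g _ => h1 g (x g)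

private theorem DlN_absL {X : Dg R V2} {Y : Dg R W1} {α : V1 →ₗ[R] V2 →ₗ[R] V3}
    {β : W1 →ₗ[R] W2 →ₗ[R] W3} (a : G → V2 →ₗ[R] V2) (a' : G → W2 →ₗ[R] W2)
    (ho : ∀ g x, X.o (a g x) = a g (X.o x))
    (L : (G → V1 ⊗[R] W1) →ₗ[R] (G → V2 ⊗[R] W2) →ₗ[R] (G → V3 ⊗[R] W3))
    (L1 : (G → V1) →ₗ[R] (G → V2) →ₗ[R] (G → V3))
    (L2 : (G → W1) →ₗ[R] (G → W2) →ₗ[R] (G → W3))
    (h1 : ∀ (g h : G) (v : V1) (v' : V2), L1 (Pi.single g v) (Pi.single h v') =
      Pi.single (g * h) (α v (a g v')))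
    (h2 : ∀ (g h : G) (w : W1) (w' : W2), L2 (Pi.single g w) (Pi.single h w') =
      Pi.single (g * h) (β w (a' g w')))
    (hL : ∀ (g h : G) (v : V1) (w : W1) (v' : V2) (w' : W2),
      L (Pi.single g (v ⊗ₜ[R] w)) (Pi.single h (v' ⊗ₜ[R] w')) =
        Pi.single (g * h) (kz X Y α β (v ⊗ₜ[R] w) (a g v' ⊗ₜ[R] a' g w')))
    (b : G → V1 ⊗[R] W1) (n : G → V2 ⊗[R] W2) :
    dlM G V3 W3 (L b n) =
      kz (dgPi X G) (dgPi Y G) L1 L2 (dlM G V1 W1 b) (dlM G V2 W2 n) := by
  refine DlN_ind (p := fun b => dlM G V3 W3 (L b n) =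
      kz (dgPi X G) (dgPi Y G) L1 L2 (dlM G V1 W1 b) (dlM G V2 W2 n)) ?_ ?_ ?_ b
  · simp
  · intro x y hx hy
    simp only [map_add, LinearMap.add_apply, hx, hy]
  intro g v w
  refine DlN_ind (p := fun n => dlM G V3 W3 (L (Pi.single g (v ⊗ₜ[R] w)) n) =
      kz (dgPi X G) (dgPi Y G) L1 L2 (dlM G V1 W1 (Pi.single g (v ⊗ₜ[R] w)))
        (dlM G V2 W2 n)) ?_ ?_ ?_ n
  · simp
  · intro x y hx hy
    simp only [map_add, hx, hy]
  intro h v' w'
  have e : ∀ (t : G) (x y : V3 ⊗[R] W3), dlM G V3 W3 (Pi.single t (x - (2 : R) • y)) =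
      dlM G V3 W3 (Pi.single t x) - (2 : R) • dlM G V3 W3 (Pi.single t y) := by
    intro t x y
    have e1 := map_sub ((dlM G V3 W3).comp (LinearMap.single R (fun _ : G => V3 ⊗[R] W3) t)) x
      ((2 : R) • y)
    rw [map_smul] at e1
    exact e1
  rw [hL, dlM_single, dlM_single, kz_tmul, kz_tmul, e, dlM_single, dlM_single, h1, h2,
    DlN_so', DlN_so', h1, h2, ho]

end abs

section cm

variable {R : Type u} [CommRing R] [DecidableEq G]

variable {E E' : DGA R} {F F' : DGA R} {α : Act G E} {α' : Act G E'} {M : Bim E E'}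

private theorem DlN_crl (ν : EqB α α' M) (g h : G) (d : E.A) (x : M.M) :
    crL ν (Pi.single g d) (Pi.single h x) = Pi.single (g * h) (M.l d (ν.b g x)) := by
  funext t
  rw [crL_apply, Finset.sum_eq_single g]
  · rw [Pi.single_eq_same]
    by_cases ht : t = g * h
    · subst ht
      rw [inv_mul_cancel_left, Pi.single_eq_same, Pi.single_eq_same]
    · rw [Pi.single_eq_of_ne ht, Pi.single_eq_of_ne, map_zero, map_zero]
      intro h1
      apply ht
      rw [← h1, mul_inv_cancel_left]
  · intro s _ hs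
    rw [Pi.single_eq_of_ne hs, map_zero, LinearMap.zero_apply]
  · intro h1
    exact absurd (Finset.mem_univ _) h1

private theorem DlN_crr (ν : EqB α α' M) (g h : G) (d : E'.A) (x : M.M) :
    crR ν (Pi.single h d) (Pi.single g x) = Pi.single (g * h) (M.r ((α'.a g).f d) x) := by
  funext t
  rw [crR_apply, Finset.sum_eq_single g]
  · rw [Pi.single_eq_same]
    by_cases ht : t = g * h
    · subst ht
      rw [inv_mul_cancel_left, Pi.single_eq_same, Pi.single_eq_same]
    · rw [Pi.single_eq_of_ne ht, Pi.single_eq_of_ne, map_zero, map_zero, LinearMap.zero_apply]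
      intro h1
      apply ht
      rw [← h1, mul_inv_cancel_left]
  · intro s _ hs
    rw [Pi.single_eq_of_ne hs, map_zero]
  · intro h1
    exact absurd (Finset.mem_univ _) h1

variable {β : Act G F} {β' : Act G F'} {P : Bim F F'}

private theorem DlN_hl (ν : EqB α α' M) (ρ : EqB β β' P) (b : G → E.A ⊗[R] F.A)
    (n : G → M.M ⊗[R] P.M) : dlM G M.M P.M (crL (ν.box ρ) b n) =
      kz (dgPi M.dg G) (dgPi F.dg G) (crL ν) (crL ρ) (dlM G E.A F.A b) (dlM G M.M P.M n) :=
  DlN_absL (X := M.dg) (Y := F.dg) (α := M.l) (β := P.l) ν.b ρ.b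
    (fun g x => DlN_o (fun h => ν.b_deg g h) x) (crL (ν.box ρ)) (crL ν) (crL ρ)
    (fun g h v v' => DlN_crl ν g h v v') (fun g h w w' => DlN_crl ρ g h w w')
    (fun g h v w v' w' => DlN_crl (ν.box ρ) g h (v ⊗ₜ[R] w) (v' ⊗ₜ[R] w')) b n

private theorem DlN_hr (ν : EqB α α' M) (ρ : EqB β β' P) (b : G → E'.A ⊗[R] F'.A)
    (n : G → M.M ⊗[R] P.M) : dlM G M.M P.M (crR (ν.box ρ) b n) =
      kz (dgPi E'.dg G) (dgPi P.dg G) (crR ν).flip (crR ρ).flip (dlM G M.M P.M n)
        (dlM G E'.A F'.A b) :=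
  DlN_absL (X := E'.dg) (Y := P.dg) (α := M.rr) (β := P.rr) (fun g => (α'.a g).f)
    (fun g => (β'.a g).f) (fun g x => (α'.a g).o x) (crR (ν.box ρ)).flip (crR ν).flip
    (crR ρ).flip (fun g h v v' => DlN_crr ν g h v' v) (fun g h w w' => DlN_crr ρ g h w' w)
    (fun g h v w v' w' => DlN_crr (ν.box ρ) g h (v' ⊗ₜ[R] w') (v ⊗ₜ[R] w)) n b

end cm

end aux

/-- Proof. `dlM_injective`; if `(p g ⊗ p h) e = 0` for all `g ≠ h` then `e = ∑ g, (p g ⊗ p g) e`,
and `(p g ⊗ p g) e = dlM (Pi.single g (TensorProduct.map (proj g) (proj g) e))`. Conversely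
`(p g ⊗ p h) (dlM x) = 0` for `g ≠ h`. -/
theorem crDl_sta (α : Act G D) (β : Act G C) :
    IsSta ((crGr α).prod (crGr β)) (tw1 G) (crDl α β) := by
  classical
  refine ⟨dlM_injective D.A C.A, fun e => ?_⟩
  have h1 : (∃ b, (crDl α β).f b = e) ↔
      ∑ s, TensorProduct.map (DlNP (k := k) D.A s) (DlNP (k := k) C.A s) e = e := DlN_im e
  have h2 : ∀ g : G × G, ((crGr α).prod (crGr β)).p g e =
      TensorProduct.map (DlNP (k := k) D.A g.1) (DlNP (k := k) C.A g.2) e := fun g => rfl
  have h3 : ∑ i : G × G, TensorProduct.map (DlNP (k := k) D.A i.1) (DlNP (k := k) C.A i.2) e =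
      e := DlN_map_sum (fun x => DlNP_sum x) (fun x => DlNP_sum x) e
  rw [h1]
  constructor
  · intro h g hg
    rw [Ne, TwG.sta] at hg
    rw [h2, ← h, map_sum]
    refine Finset.sum_eq_zero fun s _ => ?_
    refine DlN_map_ne (fun i j x hij => DlNP_ne i j x hij) (fun i j x hij => DlNP_ne i j x hij)
      g (s, s) ?_ e
    intro h4
    rw [h4] at hg
    exact hg rfl
  · intro h
    refine Eq.trans ?_ h3
    rw [Fintype.sum_prod_type]
    refine Finset.sum_congr rfl fun s _ => ?_
    rw [Finset.sum_eq_single s]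
    · intro t _ ht
      have h4 := h (s, t) (by
        rw [Ne, TwG.sta]
        exact fun h5 => ht h5.symm)
      rw [h2] at h4
      exact h4
    · intro h4
      exact absurd (Finset.mem_univ s) h4

section nat

variable {α : Act G D} {α' : Act G D'} {β : Act G C} {β' : Act G C'} {N : Bim D D'}
  {P : Bim C C'}

/-- the projections of the box product -/
private noncomputable abbrev DlN_Q (ν : EqB α α' N) (ρ : EqB β β' P) (p : G × G) :
    (box (crM ν) (crM ρ)).M →ₗ[k] (box (crM ν) (crM ρ)).M :=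
  TensorProduct.map ((crGrB ν).q p.1) ((crGrB ρ).q p.2)

private theorem DlN_ql (ν : EqB α α' N) (ρ : EqB β β' P) (p p' : G × G)
    (e : ((cr α).tensor (cr β)).A) (m : (box (crM ν) (crM ρ)).M) :
    DlN_Q ν ρ (p * p') ((box (crM ν) (crM ρ)).l (((crGr α).prod (crGr β)).p p e) m) =
      (box (crM ν) (crM ρ)).l (((crGr α).prod (crGr β)).p p e) (DlN_Q ν ρ p' m) :=
  DlN_kz ((crGr α).p p.1) ((crGr β).p p.2) ((crGrB ν).q (p.1 * p'.1))
    ((crGrB ρ).q (p.2 * p'.2)) ((crGrB ν).q p'.1) ((crGrB ρ).q p'.2)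
    (fun a n => (crGrB ν).q_l p.1 p'.1 a n) (fun a n => (crGrB ρ).q_l p.2 p'.2 a n)
    (DlN_o fun h => (crGr β).p_deg p.2 h) (DlN_o fun h => (crGrB ν).q_deg p'.1 h) e m

private theorem DlN_qr (ν : EqB α α' N) (ρ : EqB β β' P) (p p' : G × G)
    (e : ((cr α').tensor (cr β')).A) (m : (box (crM ν) (crM ρ)).M) :
    DlN_Q ν ρ (p' * p) ((box (crM ν) (crM ρ)).r (((crGr α').prod (crGr β')).p p e) m) =
      (box (crM ν) (crM ρ)).r (((crGr α').prod (crGr β')).p p e) (DlN_Q ν ρ p' m) :=
  DlN_kz' ((crGr α').p p.1) ((crGr β').p p.2) ((crGrB ν).q (p'.1 * p.1))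
    ((crGrB ρ).q (p'.2 * p.2)) ((crGrB ν).q p'.1) ((crGrB ρ).q p'.2)
    (fun a n => (crGrB ν).q_r p'.1 p.1 a n) (fun a n => (crGrB ρ).q_r p'.2 p.2 a n)
    (DlN_o fun h => (crGr α').p_deg p.1 h) (DlN_o fun h => (crGrB ρ).q_deg p'.2 h) e m

end nat

/-- The diagonal homomorphism and equivariant bimodules: induction of `(N ⊗ P) ⋊ G` gives
`(N ⋊ G) ⊗ (P ⋊ G)`, restricted on the right.

Proof. `ind_biso` for the base point `tw1 G`, with `q x = ∑ over (g, h) with g h⁻¹ = x` of
`TensorProduct.map (single g ∘ proj g) (single h ∘ proj h)` and `j = dlM G N.M P.M`. -/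
theorem cr_nat {α : Act G D} {α' : Act G D'} {β : Act G C} {β' : Act G C'}
    {N : Bim D D'} {P : Bim C C'} (ν : EqB α α' N) (ρ : EqB β β' P) :
    BIso (tb (res (DHom.id ((cr α).tensor (cr β))) (crDl α β) (diag ((cr α).tensor (cr β))))
        (crM (ν.box ρ)))
      (res (DHom.id ((cr α).tensor (cr β))) (crDl α' β') (box (crM ν) (crM ρ))) := by
  classical
  set M₀ : Bim ((cr α).tensor (cr β)) ((cr α').tensor (cr β')) := box (crM ν) (crM ρ) with hM₀
  let Q : G × G → M₀.M →ₗ[k] M₀.M := DlN_Q ν ρ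
  let π : G × G → TwG G := fun p => TwG.of (p.1 * p.2⁻¹)
  have hπl : ∀ g p, π (g * p) = g • π p := fun g p => by
    refine Eq.trans ?_ (TwG.smul_of g _).symm
    change TwG.of (g.1 * p.1 * (g.2 * p.2)⁻¹) = _
    rw [mul_inv_rev, mul_assoc, mul_assoc, mul_assoc]
  have hπr : ∀ (p : G × G) (h : G), π (p * (h, h)) = π p := fun p h => by
    change TwG.of (p.1 * h * (p.2 * h)⁻¹) = TwG.of (p.1 * p.2⁻¹)
    rw [mul_inv_rev, mul_assoc, mul_inv_cancel_left]
  have h1 : ∀ i m, Q i (Q i m) = Q i m := fun i m =>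
    DlN_map_same (crGrB ν).q_same (crGrB ρ).q_same i.1 i.2 m
  have h2 : ∀ i j m, i ≠ j → Q i (Q j m) = 0 := fun i j m hij =>
    DlN_map_ne (crGrB ν).q_ne (crGrB ρ).q_ne i j hij m
  have h3 : ∀ m, ∑ i, Q i m = m := fun m =>
    DlN_map_sum (crGrB ν).sum_q (crGrB ρ).sum_q m
  have hQdeg : ∀ (i : G × G) {n : ℤ} {m : M₀.M}, M₀.dg.IsDeg n m → M₀.dg.IsDeg n (Q i m) :=
    fun i {n m} hm => DlN_mapdeg (fun h => (crGrB ν).q_deg i.1 h)
      (fun h => (crGrB ρ).q_deg i.2 h) hm
  have hQd : ∀ i m, M₀.dg.d (Q i m) = Q i (M₀.dg.d m) := fun i m =>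
    DlN_mapd ((crGrB ν).q_d i.1) ((crGrB ρ).q_d i.2)
      (DlN_s fun h => (crGrB ν).q_deg i.1 h) m
  have hqa : ∀ x m, DlNq Q π x m = ∑ i, if π i = x then Q i m else 0 := fun x m => by
    rw [DlNq_apply, Finset.sum_filter]
  have hql : ∀ (g : G × G) x e m, DlNq Q π (g • x) (M₀.l (((crGr α).prod (crGr β)).p g e) m) =
      M₀.l (((crGr α).prod (crGr β)).p g e) (DlNq Q π x m) := fun g x e m => by
    rw [hqa, hqa, map_sum]
    refine (Fintype.sum_equiv (Equiv.mulLeft g) _ _ fun i => ?_).symm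
    rw [Equiv.coe_mulLeft, hπl]
    by_cases hx : π i = x
    · rw [if_pos hx, if_pos (by rw [hx])]
      exact (DlN_ql ν ρ g i e m).symm
    · rw [if_neg hx, if_neg (fun h => hx (smul_left_cancel g h)), map_zero]
  have hqr : ∀ x b m, DlNq Q π x (M₀.r ((crDl α' β').f b) m) =
      M₀.r ((crDl α' β').f b) (DlNq Q π x m) := fun x b m => by
    have hy : (crDl α' β').f b =
        ∑ h : G, ((crGr α').prod (crGr β')).p (h, h) ((crDl α' β').f b) :=
      (DlN_pp_same (k := k) (V := D'.A) (V' := C'.A) b).symm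
    have h4 : ∀ (h : G) (y : ((cr α').tensor (cr β')).A),
        DlNq Q π x (M₀.r (((crGr α').prod (crGr β')).p (h, h) y) m) =
          M₀.r (((crGr α').prod (crGr β')).p (h, h) y) (DlNq Q π x m) := fun h y => by
      rw [hqa, hqa, map_sum]
      refine (Fintype.sum_equiv (Equiv.mulRight (h, h)) _ _ fun i => ?_).symm
      rw [Equiv.coe_mulRight, hπr]
      by_cases hx : π i = x
      · rw [if_pos hx, if_pos hx]
        exact (DlN_qr ν ρ (h, h) i y m).symm
      · rw [if_neg hx, if_neg hx, map_zero]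
    rw [hy, map_sum, LinearMap.sum_apply, LinearMap.sum_apply, map_sum]
    exact Finset.sum_congr rfl fun h _ => h4 h _
  let q : GrM ((crGr α).prod (crGr β)) (TwG G)
      (res (DHom.id ((cr α).tensor (cr β))) (crDl α' β') (box (crM ν) (crM ρ))) :=
    { q := DlNq Q π
      q_same := fun x m => DlNq_same π h1 h2 x m
      q_ne := fun x y m hxy => DlNq_ne π h1 h2 x y m hxy
      sum_q := fun m => DlNq_sum π h3 m
      q_deg := fun x {i m} hm => by
        rw [DlNq_apply]
        exact DlN_sumdeg _ _ fun i => hQdeg i hm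
      q_d := fun x m => by
        have h4 : M₀.dg.d (DlNq Q π x m) = DlNq Q π x (M₀.dg.d m) := by
          rw [DlNq_apply, DlNq_apply, map_sum]
          exact Finset.sum_congr rfl fun i _ => hQd i m
        exact h4
      q_l := fun g x e m => hql g x e m
      q_r := fun x b m => hqr x b m }
  refine ind_biso (crDl_sta α β) TwG.trans q (N₀ := crM (ν.box ρ)) (dlM G N.M P.M)
    (dlM_injective N.M P.M) (fun m => ?_) (fun {i n} hn => ?_) (fun n => ?_)
    (fun b n => DlN_hl ν ρ b n) (fun b n => DlN_hr ν ρ b n)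
  · have h4 : q.q (tw1 G) m = ∑ s, TensorProduct.map (DlNP (k := k) N.M s)
        (DlNP (k := k) P.M s) m := by
      refine (hqa (tw1 G) m).trans ?_
      rw [Fintype.sum_prod_type]
      refine Finset.sum_congr rfl fun s _ => ?_
      rw [Finset.sum_eq_single s]
      · rw [if_pos]
        · rfl
        · change TwG.of (s * s⁻¹) = TwG.of 1
          rw [mul_inv_cancel]
      · intro t _ ht
        rw [if_neg]
        intro h5
        have h6 : s * t⁻¹ = 1 := h5
        exact ht (mul_inv_eq_one.1 h6).symm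
      · intro h5
        exact absurd (Finset.mem_univ s) h5
    rw [h4]
    exact DlN_im m
  · have h4 : ∀ g, (N.dg.tensor P.dg).IsDeg i (n g) := dgPi_deg.1 hn
    have h5 : ((dgPi N.dg G).tensor (dgPi P.dg G)).IsDeg i (dlM G N.M P.M n) := by
      rw [dlM_apply]
      exact DlN_sumdeg _ _ fun g => DlN_mapdeg (fun h => DlN_sdeg g h)
        (fun h => DlN_sdeg g h) (h4 g)
    exact h5
  · have h5 : ((dgPi N.dg G).tensor (dgPi P.dg G)).d (dlM G N.M P.M n) =
        dlM G N.M P.M ((dgPi (N.dg.tensor P.dg) G).d n) := by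
      rw [dlM_apply, dlM_apply, map_sum]
      refine Finset.sum_congr rfl fun g _ => ?_
      rw [dgPi_d]
      exact DlN_mapd (fun x => DlN_sd N.dg g x) (fun x => DlN_sd P.dg g x)
        (fun x => DlN_ss N.dg g x) (n g)
    exact h5

private theorem DlN_pl {E : DGA k} (Γ : GrA G E) (g h : G) (x m : E.A) :
    Γ.p (g * h) (E.mul (Γ.p g x) m) = E.mul (Γ.p g x) (Γ.p h m) := by
  rw [Γ.p_mul', Finset.sum_eq_single g]
  · rw [Γ.p_same, inv_mul_cancel_left]
  · intro a _ ha
    rw [Γ.p_ne a g x ha, map_zero, LinearMap.zero_apply]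
  · intro h1
    exact absurd (Finset.mem_univ g) h1

private theorem DlN_pr {E : DGA k} (Γ : GrA G E) (g h : G) (y m : E.A) (hy : Γ.p h y = y) :
    Γ.p (g * h) (E.mul m y) = E.mul (Γ.p g m) y := by
  rw [Γ.p_mul', Finset.sum_eq_single g]
  · rw [inv_mul_cancel_left, hy]
  · intro a _ ha
    rw [← hy, Γ.p_ne, map_zero]
    intro h1
    exact ha (mul_right_cancel (inv_mul_eq_iff_eq_mul.1 h1)).symm
  · intro h1
    exact absurd (Finset.mem_univ g) h1

private theorem DlN_dp {V V' : Type u} [AddCommGroup V] [Module k V] [AddCommGroup V']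
    [Module k V'] [DecidableEq G] (h : G) (b : G → V ⊗[k] V') :
    dlM G V V' (DlNP (k := k) (V ⊗[k] V') h b) =
      TensorProduct.map (LinearMap.single k (fun _ : G => V) h)
        (LinearMap.single k (fun _ : G => V') h) (b h) := by
  rw [dlM_apply, Finset.sum_eq_single h]
  · rw [DlNP_apply, Pi.single_eq_same]
  · intro g _ hg
    rw [DlNP_apply, Pi.single_eq_of_ne hg, map_zero]
  · intro h1
    exact absurd (Finset.mem_univ h) h1

private theorem DlN_f1 {V V' : Type u} [AddCommGroup V] [Module k V] [AddCommGroup V']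
    [Module k V'] [DecidableEq G] (h : G) (y : V ⊗[k] V') :
    TensorProduct.map (DlNP (k := k) V h) LinearMap.id
      (TensorProduct.map (LinearMap.single k (fun _ : G => V) h)
        (LinearMap.single k (fun _ : G => V') h) y) =
      TensorProduct.map (LinearMap.single k (fun _ : G => V) h)
        (LinearMap.single k (fun _ : G => V') h) y := by
  induction y using TensorProduct.induction_on with
  | zero => simp
  | add x y hx hy => rw [map_add, map_add, hx, hy]
  | tmul a b =>
    rw [TensorProduct.map_tmul, TensorProduct.map_tmul, LinearMap.id_apply,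
      LinearMap.single_apply, DlNP_apply, Pi.single_eq_same]

private theorem DlN_f2 {V V' : Type u} [AddCommGroup V] [Module k V] [AddCommGroup V']
    [Module k V'] [DecidableEq G] (h : G) (y : V ⊗[k] V') :
    TensorProduct.map LinearMap.id (DlNP (k := k) V' h)
      (TensorProduct.map (LinearMap.single k (fun _ : G => V) h)
        (LinearMap.single k (fun _ : G => V') h) y) =
      TensorProduct.map (LinearMap.single k (fun _ : G => V) h)
        (LinearMap.single k (fun _ : G => V') h) y := by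
  induction y using TensorProduct.induction_on with
  | zero => simp
  | add x y hx hy => rw [map_add, map_add, hx, hy]
  | tmul a b =>
    rw [TensorProduct.map_tmul, TensorProduct.map_tmul, LinearMap.id_apply,
      LinearMap.single_apply, LinearMap.single_apply, DlNP_apply, Pi.single_eq_same]

/-- The diagonal homomorphism is compatible with the gradings by the first factor. -/
theorem crDl_fst (α : Act G D) (β : Act G C) :
    Nonempty (GrB ((crGr α).fst (cr β)) (crGr (α.tensor β))
      (res (DHom.id ((cr α).tensor (cr β))) (crDl α β) (diag ((cr α).tensor (cr β))))) := by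
  classical
  have hy : ∀ (h : G) (b : (cr (α.tensor β)).A), ((crGr α).fst (cr β)).p h
      ((crDl α β).f ((crGr (α.tensor β)).p h b)) =
      (crDl α β).f ((crGr (α.tensor β)).p h b) := fun h b =>
    (congrArg (((crGr α).fst (cr β)).p h) (DlN_dp (k := k) (V := D.A) (V' := C.A) h b)).trans
      ((DlN_f1 (k := k) (V := D.A) (V' := C.A) h (b h)).trans
        (DlN_dp (k := k) (V := D.A) (V' := C.A) h b).symm)
  exact ⟨{
    q := ((crGr α).fst (cr β)).p
    q_same := ((crGr α).fst (cr β)).p_same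
    q_ne := ((crGr α).fst (cr β)).p_ne
    sum_q := ((crGr α).fst (cr β)).sum_p
    q_deg := fun x {i m} hm => ((crGr α).fst (cr β)).p_deg x hm
    q_d := ((crGr α).fst (cr β)).p_d
    q_l := fun g h e m => DlN_pl ((crGr α).fst (cr β)) g h e m
    q_r := fun g h b m => DlN_pr ((crGr α).fst (cr β)) g h _ m (hy h b) }⟩

/-- The diagonal homomorphism is compatible with the gradings by the second factor. -/
theorem crDl_snd (α : Act G D) (β : Act G C) :
    Nonempty (GrB (GrA.snd (cr α) (crGr β)) (crGr (α.tensor β))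
      (res (DHom.id ((cr α).tensor (cr β))) (crDl α β) (diag ((cr α).tensor (cr β))))) := by
  classical
  have hy : ∀ (h : G) (b : (cr (α.tensor β)).A), (GrA.snd (cr α) (crGr β)).p h
      ((crDl α β).f ((crGr (α.tensor β)).p h b)) =
      (crDl α β).f ((crGr (α.tensor β)).p h b) := fun h b =>
    (congrArg ((GrA.snd (cr α) (crGr β)).p h) (DlN_dp (k := k) (V := D.A) (V' := C.A) h b)).trans
      ((DlN_f2 (k := k) (V := D.A) (V' := C.A) h (b h)).trans
        (DlN_dp (k := k) (V := D.A) (V' := C.A) h b).symm)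
  exact ⟨{
    q := (GrA.snd (cr α) (crGr β)).p
    q_same := (GrA.snd (cr α) (crGr β)).p_same
    q_ne := (GrA.snd (cr α) (crGr β)).p_ne
    sum_q := (GrA.snd (cr α) (crGr β)).sum_p
    q_deg := fun x {i m} hm => (GrA.snd (cr α) (crGr β)).p_deg x hm
    q_d := (GrA.snd (cr α) (crGr β)).p_d
    q_l := fun g h e m => DlN_pl (GrA.snd (cr α) (crGr β)) g h e m
    q_r := fun g h b m => DlN_pr (GrA.snd (cr α) (crGr β)) g h _ m (hy h b) }⟩

end Pool.Agent.MP_6e5bed_ag_SY
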