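import Pool.Agent.Lib.MP_6e5bed_ag_SY.CrH
import Pool.Agent.Lib.MP_6e5bed_ag_SY.DlN

set_option autoImplicit false
set_option linter.unusedSectionVars false

/-!
# MP_6e5bed_ag (project SYM): the homomorphism `S^n (A ⊗ B) → S^n A ⊗ S^n B`
-/

namespace Pool.Agent.MP_6e5bed_ag_SY

open Pool.Agent.MP_6e5bed_ag_NC
open Equiv
open scoped TensorProduct

universe u

variable {k : Type u} [Field k] {A B C : DGA k} {n : ℕ}

/-- The diagonal homomorphism `S^n (A ⊗ B) → S^n A ⊗ S^n B`. -/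
noncomputable def dgl (A B : DGA k) (n : ℕ) :
    DHom (symP (A.tensor B) n) ((symP A n).tensor (symP B n)) :=
  (shS A B n).inv.comp (crDl (pwAct A n) (pwAct B n))

private theorem Dgl_f (x : (symP (A.tensor B) n).A) :
    (dgl A B n).f x = (crDl (pwAct A n) (pwAct B n)).f ((shS A B n).inv.f x) := rfl

private theorem Dgl_crI {G : Type} [Group G] [Fintype G] [DecidableEq G] {D : DGA k}
    (α : Act G D) (x : D.A) : ((crI α).f x : G → D.A) = Pi.single 1 x := by
  funext g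
  by_cases hg : g = 1
  · subst hg
    rw [crI_f, if_pos rfl, Pi.single_eq_same]
  · rw [crI_f, if_neg hg, Pi.single_eq_of_ne hg]

private theorem Dgl_single {G : Type} [DecidableEq G] {V V' : Type u}
    [AddCommGroup V] [Module k V] [AddCommGroup V'] [Module k V'] (f : V →ₗ[k] V') (v : V)
    (w : V') (h : f v = w) (c g : G) :
    f ((Pi.single c v : G → V) g) = (Pi.single c w : G → V') g := by
  by_cases hg : g = c
  · subst hg
    rw [Pi.single_eq_same, Pi.single_eq_same, h]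
  · rw [Pi.single_eq_of_ne hg, Pi.single_eq_of_ne hg, map_zero]

private theorem Dgl_ext {D : DGA k} {f g : DHom (symP (A.tensor B) n) D}
    (h : ∀ s a b, f.f ((iota (A.tensor B) n s).f (a ⊗ₜ[k] b)) =
      g.f ((iota (A.tensor B) n s).f (a ⊗ₜ[k] b)))
    (hu : ∀ σ, f.f ((symG (A.tensor B) n).u σ) = g.f ((symG (A.tensor B) n).u σ)) : f = g := by
  refine sym_ext (fun s x => ?_) hu
  have h1 : (f.f.comp (iota (A.tensor B) n s).f : A.A ⊗[k] B.A →ₗ[k] D.A) =
      (g.f.comp (iota (A.tensor B) n s).f : A.A ⊗[k] B.A →ₗ[k] D.A) :=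
    TensorProduct.ext' fun a b => h s a b
  exact LinearMap.congr_fun h1 x

private theorem Dgl_ext3 {D : DGA k} {f g : DHom (symP (A.tensor (B.tensor C)) n) D}
    (h : ∀ s a b c, f.f ((iota (A.tensor (B.tensor C)) n s).f (a ⊗ₜ[k] (b ⊗ₜ[k] c))) =
      g.f ((iota (A.tensor (B.tensor C)) n s).f (a ⊗ₜ[k] (b ⊗ₜ[k] c))))
    (hu : ∀ σ, f.f ((symG (A.tensor (B.tensor C)) n).u σ) =
      g.f ((symG (A.tensor (B.tensor C)) n).u σ)) : f = g := by
  refine Dgl_ext (fun s a y => ?_) hu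
  have h1 : ((f.f.comp (iota (A.tensor (B.tensor C)) n s).f : A.A ⊗[k] (B.A ⊗[k] C.A) →ₗ[k]
      D.A).comp (TensorProduct.mk k A.A (B.A ⊗[k] C.A) a)) =
      ((g.f.comp (iota (A.tensor (B.tensor C)) n s).f : A.A ⊗[k] (B.A ⊗[k] C.A) →ₗ[k]
      D.A).comp (TensorProduct.mk k A.A (B.A ⊗[k] C.A) a)) :=
    TensorProduct.ext' fun b c => h s a b c
  exact LinearMap.congr_fun h1 y

private theorem Dgl_u {G : Type} [Group G] [Fintype G] [DecidableEq G] {D : DGA k}
    (α : Act G D) (g : G) : ((crGr α).u g : G → D.A) = Pi.single g D.one := by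
  funext h
  by_cases hg : h = g
  · subst hg
    rw [crGr_u, if_pos rfl, Pi.single_eq_same]
  · rw [crGr_u, if_neg hg, Pi.single_eq_of_ne hg]

/-- Proof. `(shS A B n).inv (iota s (a ⊗ b))` is the element `Pi.single 1 (inj s a ⊗ inj s b)` by
`shH_inj`; then `dlM_single`. -/
theorem dgl_iota (s : Fin n) (a : A.A) (b : B.A) :
    (dgl A B n).f ((iota (A.tensor B) n s).f (a ⊗ₜ b)) =
      (iota A n s).f a ⊗ₜ[k] (iota B n s).f b := by
  classical
  have h1 : (shS A B n).inv.f ((iota (A.tensor B) n s).f (a ⊗ₜ b)) =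
      (Pi.single 1 ((inj A n s).f a ⊗ₜ[k] (inj B n s).f b) :
        Perm (Fin n) → ((pw A n).tensor (pw B n)).A) := by
    have h2 : (shS A B n).hom.f (Pi.single 1 ((inj A n s).f a ⊗ₜ[k] (inj B n s).f b) :
        Perm (Fin n) → ((pw A n).tensor (pw B n)).A) =
        (iota (A.tensor B) n s).f (a ⊗ₜ b) := by
      refine funext fun g => ?_
      refine (shS_hom_f A B n _ g).trans ?_
      refine Eq.trans ?_ (congrFun (Dgl_crI (pwAct (A.tensor B) n)
        ((inj (A.tensor B) n s).f (a ⊗ₜ b))) g).symm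
      exact Dgl_single (shH A B n).f ((inj A n s).f a ⊗ₜ[k] (inj B n s).f b)
        ((inj (A.tensor B) n s).f (a ⊗ₜ b)) ((shH_f A B n _ _).trans (shH_inj A B n s a b)) 1 g
    rw [← h2]
    exact (shS A B n).hom_inv _
  rw [Dgl_f, h1, crDl_f]
  refine (dlM_single (k := k) (G := Perm (Fin n)) (pw A n).A (pw B n).A 1
    ((inj A n s).f a) ((inj B n s).f b)).trans ?_
  rw [← Dgl_crI (pwAct A n), ← Dgl_crI (pwAct B n)]
  rfl

theorem dgl_u (σ : Perm (Fin n)) :
    (dgl A B n).f ((symG (A.tensor B) n).u σ) = (symG A n).u σ ⊗ₜ[k] (symG B n).u σ := by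
  classical
  have h1 : (shS A B n).inv.f ((symG (A.tensor B) n).u σ) =
      (crGr ((pwAct A n).tensor (pwAct B n))).u σ := by
    have h2 : (shS A B n).hom.f ((crGr ((pwAct A n).tensor (pwAct B n))).u σ) =
        (symG (A.tensor B) n).u σ := by
      refine funext fun g => ?_
      refine (shS_hom_f A B n _ g).trans ?_
      refine Eq.trans ?_ (congrFun (Dgl_u (pwAct (A.tensor B) n) σ) g).symm
      rw [Dgl_u ((pwAct A n).tensor (pwAct B n)) σ]
      exact Dgl_single (shH A B n).f ((pw A n).tensor (pw B n)).one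
        (pw (A.tensor B) n).one (shH A B n).one σ g
    rw [← h2]
    exact (shS A B n).hom_inv _
  rw [Dgl_f, h1, crDl_f]
  have h3 : ((crGr ((pwAct A n).tensor (pwAct B n))).u σ :
      Perm (Fin n) → ((pw A n).tensor (pw B n)).A) =
      Pi.single σ ((pw A n).one ⊗ₜ[k] (pw B n).one) :=
    Dgl_u ((pwAct A n).tensor (pwAct B n)) σ
  refine (congrArg (dlM (k := k) (Perm (Fin n)) (pw A n).A (pw B n).A) h3).trans ?_
  refine (dlM_single (k := k) (G := Perm (Fin n)) (pw A n).A (pw B n).A σ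
    (pw A n).one (pw B n).one).trans ?_
  rw [← Dgl_u (pwAct A n), ← Dgl_u (pwAct B n)]
  rfl

/-- Proof. `crDl_sta` and the bijectivity of `shS`. -/
theorem dgl_sta (A B : DGA k) (n : ℕ) :
    IsSta ((symG A n).prod (symG B n)) (tw1 (Perm (Fin n))) (dgl A B n) := by
  have h0 : IsSta ((symG A n).prod (symG B n)) (tw1 (Perm (Fin n)))
      (crDl (pwAct A n) (pwAct B n)) := crDl_sta (pwAct A n) (pwAct B n)
  refine ⟨fun x y hxy => ?_, fun e => ?_⟩
  · rw [Dgl_f, Dgl_f] at hxy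
    have h1 := h0.inj hxy
    rw [← (shS A B n).inv_hom x, h1, (shS A B n).inv_hom]
  · refine Iff.trans ?_ (h0.range e)
    constructor
    · rintro ⟨b, hb⟩
      exact ⟨(shS A B n).inv.f b, hb⟩
    · rintro ⟨b, hb⟩
      refine ⟨(shS A B n).hom.f b, ?_⟩
      rw [Dgl_f, (shS A B n).hom_inv]
      exact hb

private theorem Dgl_p (σ : Perm (Fin n)) (x : (symP (A.tensor B) n).A) :
    (shS A B n).inv.f ((symG (A.tensor B) n).p σ x) =
      (crGr ((pwAct A n).tensor (pwAct B n))).p σ ((shS A B n).inv.f x) := by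
  classical
  refine funext fun g => ?_
  have h1 : ∀ y : Perm (Fin n) → (pw (A.tensor B) n).A,
      ((shS A B n).inv.f y : Perm (Fin n) → ((pw A n).tensor (pw B n)).A) g =
        (shI A B n).inv.f (y g) := fun y => rfl
  refine (h1 _).trans ?_
  refine Eq.trans ?_ (crGr_p ((pwAct A n).tensor (pwAct B n)) σ ((shS A B n).inv.f x) g).symm
  have h2 : ((symG (A.tensor B) n).p σ x : Perm (Fin n) → (pw (A.tensor B) n).A) g =
      if g = σ then (x : Perm (Fin n) → (pw (A.tensor B) n).A) σ else 0 := by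
    refine (crGr_p (pwAct (A.tensor B) n) σ x g).trans ?_
    by_cases hg : g = σ
    · rw [if_pos hg, if_pos hg]
    · rw [if_neg hg, if_neg hg]
  by_cases hg : g = σ
  · rw [if_pos hg]
    exact congrArg _ (h2.trans (if_pos hg))
  · rw [if_neg hg]
    exact (congrArg _ (h2.trans (if_neg hg))).trans (map_zero _)

/-- Proof. `crDl_fst`; `shS` respects the gradings. -/
theorem dgl_fst (A B : DGA k) (n : ℕ) :
    Nonempty (GrB ((symG A n).fst (symP B n)) (symG (A.tensor B) n)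
      (res (DHom.id ((symP A n).tensor (symP B n))) (dgl A B n)
        (diag ((symP A n).tensor (symP B n))))) := by
  obtain ⟨Q⟩ := crDl_fst (pwAct A n) (pwAct B n)
  exact ⟨{
    q := Q.q
    q_same := Q.q_same
    q_ne := Q.q_ne
    sum_q := Q.sum_q
    q_deg := Q.q_deg
    q_d := Q.q_d
    q_l := Q.q_l
    q_r := fun g h b m => by
      have h1 := Q.q_r g h ((shS A B n).inv.f b) m
      rw [← Dgl_p] at h1
      exact h1 }⟩

theorem dgl_snd (A B : DGA k) (n : ℕ) :
    Nonempty (GrB (GrA.snd (symP A n) (symG B n)) (symG (A.tensor B) n)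
      (res (DHom.id ((symP A n).tensor (symP B n))) (dgl A B n)
        (diag ((symP A n).tensor (symP B n))))) := by
  obtain ⟨Q⟩ := crDl_snd (pwAct A n) (pwAct B n)
  exact ⟨{
    q := Q.q
    q_same := Q.q_same
    q_ne := Q.q_ne
    sum_q := Q.sum_q
    q_deg := Q.q_deg
    q_d := Q.q_d
    q_l := Q.q_l
    q_r := fun g h b m => by
      have h1 := Q.q_r g h ((shS A B n).inv.f b) m
      rw [← Dgl_p] at h1
      exact h1 }⟩

/-- Associativity. Proof. `sym_ext`: on `iota s (a ⊗ (b ⊗ c))` both sides are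
`(iota s a ⊗ iota s b) ⊗ iota s c`, on `u σ` they are `(u σ ⊗ u σ) ⊗ u σ`. -/
theorem dgl_assoc (A B C : DGA k) (n : ℕ) :
    (symI (assocIso A B C) n).inv.comp
        ((dgl (A.tensor B) C n).comp ((dgl A B n).tensor (DHom.id (symP C n)))) =
      (dgl A (B.tensor C) n).comp (((DHom.id (symP A n)).tensor (dgl B C n)).comp
        (assocIso (symP A n) (symP B n) (symP C n)).inv) := by
  refine Dgl_ext3 (fun s a b c => ?_) (fun σ => ?_)
  · have h1 : (symI (assocIso A B C) n).inv.f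
        ((iota (A.tensor (B.tensor C)) n s).f (a ⊗ₜ[k] (b ⊗ₜ[k] c))) =
        (iota ((A.tensor B).tensor C) n s).f ((a ⊗ₜ[k] b) ⊗ₜ[k] c) :=
      symI_inv_iota (assocIso A B C) s (a ⊗ₜ[k] (b ⊗ₜ[k] c))
    have h2 : (dgl (A.tensor B) C n).f
        ((iota ((A.tensor B).tensor C) n s).f ((a ⊗ₜ[k] b) ⊗ₜ[k] c)) =
        (iota (A.tensor B) n s).f (a ⊗ₜ[k] b) ⊗ₜ[k] (iota C n s).f c :=
      dgl_iota (A := A.tensor B) (B := C) s (a ⊗ₜ[k] b) c
    have h3 : (dgl A (B.tensor C) n).f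
        ((iota (A.tensor (B.tensor C)) n s).f (a ⊗ₜ[k] (b ⊗ₜ[k] c))) =
        (iota A n s).f a ⊗ₜ[k] (iota (B.tensor C) n s).f (b ⊗ₜ[k] c) :=
      dgl_iota (A := A) (B := B.tensor C) s a (b ⊗ₜ[k] c)
    have h4 : ((dgl A B n).tensor (DHom.id (symP C n))).f
        ((iota (A.tensor B) n s).f (a ⊗ₜ[k] b) ⊗ₜ[k] (iota C n s).f c) =
        ((iota A n s).f a ⊗ₜ[k] (iota B n s).f b) ⊗ₜ[k] (iota C n s).f c :=
      congrArg (fun z : (symP A n).A ⊗[k] (symP B n).A => z ⊗ₜ[k] (iota C n s).f c)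
        (dgl_iota s a b)
    have h5 : ((DHom.id (symP A n)).tensor (dgl B C n)).f
        ((iota A n s).f a ⊗ₜ[k] (iota (B.tensor C) n s).f (b ⊗ₜ[k] c)) =
        (iota A n s).f a ⊗ₜ[k] ((iota B n s).f b ⊗ₜ[k] (iota C n s).f c) :=
      congrArg (fun z : (symP B n).A ⊗[k] (symP C n).A => (iota A n s).f a ⊗ₜ[k] z)
        (dgl_iota s b c)
    have h6 := ((congrArg ((dgl A B n).tensor (DHom.id (symP C n))).f
      ((congrArg (dgl (A.tensor B) C n).f h1).trans h2)).trans h4)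
    have h7 := congrArg (assocIso (symP A n) (symP B n) (symP C n)).inv.f
      ((congrArg ((DHom.id (symP A n)).tensor (dgl B C n)).f h3).trans h5)
    exact h6.trans h7.symm
  · have h1 : (symI (assocIso A B C) n).inv.f ((symG (A.tensor (B.tensor C)) n).u σ) =
        (symG ((A.tensor B).tensor C) n).u σ := symI_inv_u (assocIso A B C) σ
    have h2 : (dgl (A.tensor B) C n).f ((symG ((A.tensor B).tensor C) n).u σ) =
        (symG (A.tensor B) n).u σ ⊗ₜ[k] (symG C n).u σ := dgl_u (A := A.tensor B) (B := C) σ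
    have h3 : (dgl A (B.tensor C) n).f ((symG (A.tensor (B.tensor C)) n).u σ) =
        (symG A n).u σ ⊗ₜ[k] (symG (B.tensor C) n).u σ := dgl_u (A := A) (B := B.tensor C) σ
    have h4 : ((dgl A B n).tensor (DHom.id (symP C n))).f
        ((symG (A.tensor B) n).u σ ⊗ₜ[k] (symG C n).u σ) =
        ((symG A n).u σ ⊗ₜ[k] (symG B n).u σ) ⊗ₜ[k] (symG C n).u σ :=
      congrArg (fun z : (symP A n).A ⊗[k] (symP B n).A => z ⊗ₜ[k] (symG C n).u σ) (dgl_u σ)
    have h5 : ((DHom.id (symP A n)).tensor (dgl B C n)).f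
        ((symG A n).u σ ⊗ₜ[k] (symG (B.tensor C) n).u σ) =
        (symG A n).u σ ⊗ₜ[k] ((symG B n).u σ ⊗ₜ[k] (symG C n).u σ) :=
      congrArg (fun z : (symP B n).A ⊗[k] (symP C n).A => (symG A n).u σ ⊗ₜ[k] z) (dgl_u σ)
    have h6 := ((congrArg ((dgl A B n).tensor (DHom.id (symP C n))).f
      ((congrArg (dgl (A.tensor B) C n).f h1).trans h2)).trans h4)
    have h7 := congrArg (assocIso (symP A n) (symP B n) (symP C n)).inv.f
      ((congrArg ((DHom.id (symP A n)).tensor (dgl B C n)).f h3).trans h5)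
    exact h6.trans h7.symm

/-- Symmetry. Proof. `sym_ext`; on `iota s (b ⊗ a)` with homogeneous `a`, `b` both sides are
`± iota s a ⊗ iota s b` with the same sign (`ksw_tmul`, `ksw_sg`). -/
theorem dgl_symm (A B : DGA k) (n : ℕ) :
    (symI (swapIso A B) n).inv.comp (dgl A B n) =
      (dgl B A n).comp (swapIso (symP A n) (symP B n)).inv := by
  have hsw : ∀ {V W : DGA k} (v : V.A) (w : W.A), (swapIso W V).inv.f (v ⊗ₜ[k] w) =
      w ⊗ₜ[k] v - (2 : k) • W.dg.o w ⊗ₜ[k] V.dg.o v := fun {V W} v w => ksw_tmul V.dg W.dg v w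
  refine Dgl_ext (fun s b a => ?_) (fun σ => ?_)
  · change (dgl A B n).f ((symI (swapIso A B) n).inv.f ((iota (B.tensor A) n s).f (b ⊗ₜ[k] a))) =
      (swapIso (symP A n) (symP B n)).inv.f
        ((dgl B A n).f ((iota (B.tensor A) n s).f (b ⊗ₜ[k] a)))
    have h1 : (symI (swapIso A B) n).inv.f ((iota (B.tensor A) n s).f (b ⊗ₜ[k] a)) =
        (iota (A.tensor B) n s).f (a ⊗ₜ[k] b) -
          (2 : k) • (iota (A.tensor B) n s).f (A.dg.o a ⊗ₜ[k] B.dg.o b) := by
      refine (symI_inv_iota (swapIso A B) s (b ⊗ₜ[k] a)).trans ?_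
      rw [hsw]
      refine (map_sub (iota (A.tensor B) n s).f _ _).trans ?_
      exact congrArg (fun z => (iota (A.tensor B) n s).f (a ⊗ₜ[k] b) - z)
        (map_smul (iota (A.tensor B) n s).f (2 : k) (A.dg.o a ⊗ₜ[k] B.dg.o b))
    rw [h1, map_sub, map_smul, dgl_iota, dgl_iota, dgl_iota, hsw, DHom.o, DHom.o]
    rfl
  · change (dgl A B n).f ((symI (swapIso A B) n).inv.f ((symG (B.tensor A) n).u σ)) =
      (swapIso (symP A n) (symP B n)).inv.f ((dgl B A n).f ((symG (B.tensor A) n).u σ))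
    rw [symI_inv_u, dgl_u, dgl_u, hsw,
      Dg.o_of_even ((symG A n).u_deg σ) Even.zero, TensorProduct.zero_tmul, smul_zero, sub_zero]

end Pool.Agent.MP_6e5bed_ag_SY
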