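import Pool.Agent.Lib.MP_6e5bed_ag_SY.Pw
import Pool.Agent.Lib.MP_6e5bed_ag_SY.ActG

set_option autoImplicit false
set_option linter.unusedSectionVars false

/-!
# MP_6e5bed_ag (project SYM): the tensor powers of a bimodule are equivariant
-/

namespace Pool.Agent.MP_6e5bed_ag_SY

open Pool.Agent.MP_6e5bed_ag_NC
open Equiv
open scoped TensorProduct

universe u

variable {k : Type u} [CommRing k] {A B : DGA k}

section aux

variable {V V' V'' W W' W'' : Type u} [AddCommGroup V] [Module k V] [AddCommGroup V']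
  [Module k V'] [AddCommGroup V''] [Module k V''] [AddCommGroup W] [Module k W]
  [AddCommGroup W'] [Module k W'] [AddCommGroup W''] [Module k W'']

private theorem PwM_map_deg {X : Dg k V} {Y : Dg k W} {f : W →ₗ[k] W}
    (hf : ∀ {i : ℤ} {w : W}, Y.IsDeg i w → Y.IsDeg i (f w)) {j : ℤ} {x : V ⊗[k] W}
    (hx : (X.tensor Y).IsDeg j x) :
    (X.tensor Y).IsDeg j (TensorProduct.map LinearMap.id f x) := by
  have h := Dg.tensor_degMap (X := X) (Y := Y) (Z := X.tensor Y) (n := 0)
      (TensorProduct.map LinearMap.id f) (fun i j v w hv hw => by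
        rw [add_zero, TensorProduct.map_tmul]
        exact Dg.tensor_deg hv (hf hw)) hx
  rwa [add_zero] at h

private theorem PwM_map_d {X : Dg k V} {Y : Dg k W} {f : W →ₗ[k] W}
    (hf : ∀ w : W, Y.d (f w) = f (Y.d w)) (x : V ⊗[k] W) :
    (X.tensor Y).d (TensorProduct.map LinearMap.id f x) =
      TensorProduct.map LinearMap.id f ((X.tensor Y).d x) := by
  induction x using TensorProduct.induction_on with
  | zero => simp
  | add x y hx hy => simp only [map_add, hx, hy]
  | tmul a b =>
    simp only [TensorProduct.map_tmul, Dg.tensor_d, map_add, LinearMap.id_coe, id_eq, hf]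

private theorem PwM_kz {X : Dg k V'} {Y : Dg k W} {α : V →ₗ[k] V' →ₗ[k] V''}
    {β : W →ₗ[k] W' →ₗ[k] W''} {f : W →ₗ[k] W} {g : W' →ₗ[k] W'} {h : W'' →ₗ[k] W''}
    (hf : ∀ w, Y.o (f w) = f (Y.o w)) (hβ : ∀ w w', h (β w w') = β (f w) (g w'))
    (x : V ⊗[k] W) (y : V' ⊗[k] W') :
    TensorProduct.map LinearMap.id h (kz X Y α β x y) =
      kz X Y α β (TensorProduct.map LinearMap.id f x) (TensorProduct.map LinearMap.id g y) := by
  induction x using TensorProduct.induction_on with
  | zero => simp
  | add x x' hx hx' => simp only [map_add, LinearMap.add_apply, hx, hx']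
  | tmul v w =>
    induction y using TensorProduct.induction_on with
    | zero => simp
    | add y y' hy hy' => simp only [map_add, hy, hy']
    | tmul v' w' =>
      rw [kz_tmul, TensorProduct.map_tmul, TensorProduct.map_tmul, kz_tmul, map_sub, map_smul,
        TensorProduct.map_tmul, TensorProduct.map_tmul, hβ, hβ, hf]
      rfl

end aux

theorem swM_deg (M : Bim A B) (n i : ℕ) {j : ℤ} {x : (bx M n).M} (hx : (bx M n).dg.IsDeg j x) :
    (bx M n).dg.IsDeg j (swM M n i x) := by
  induction n, i using swM.induct generalizing j with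
  | case1 i => exact hx
  | case2 i => exact hx
  | case3 n => exact SW_deg M.dg (bx M n).dg hx
  | case4 n i ih =>
    rw [swM_succ]
    exact PwM_map_deg (X := M.dg) (Y := (bx M (n + 1)).dg) (fun h => ih h) hx

theorem swM_d (M : Bim A B) (n i : ℕ) (x : (bx M n).M) :
    (bx M n).dg.d (swM M n i x) = swM M n i ((bx M n).dg.d x) := by
  induction n, i using swM.induct with
  | case1 i => rfl
  | case2 i => rfl
  | case3 n => exact SW_d M.dg (bx M n).dg x
  | case4 n i ih =>
    rw [swM_succ]
    exact PwM_map_d (X := M.dg) (Y := (bx M (n + 1)).dg) ih x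

/-- Proof. Induction on `n` and `i`. For `n + 2` and `i = 0` this is `SW_kz` (`box_l`,
`(bx M (n + 1)).l = kz M.dg (pw A n).dg M.l (bx M n).l` by definition) with `adjD_zero_f`. -/
theorem swM_l (M : Bim A B) (n i : ℕ) (a : (pw A n).A) (x : (bx M n).M) :
    swM M n i ((bx M n).l a x) = (bx M n).l ((adjD A n i).hom.f a) (swM M n i x) := by
  induction n, i using swM.induct with
  | case1 i => rfl
  | case2 i => rfl
  | case3 n =>
    rw [adjD_zero_f, swM_zero]
    exact SW_kz (X := A.dg) (X' := M.dg) (X'' := M.dg) (Z := (pw A n).dg) (α := M.l)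
      (γ := (bx M n).l) (fun h h' => M.l_deg h h') a x
  | case4 n i ih =>
    rw [adjD_succ_f, swM_succ]
    exact PwM_kz (X := M.dg) (Y := (pw A (n + 1)).dg) (α := M.l) (β := (bx M (n + 1)).l)
      (fun w => (adjD A (n + 1) i).hom.o w) ih a x

/-- Proof. As `swM_l`, with `(bx M (n + 1)).r = (kz B.dg (bx M n).dg M.rr (bx M n).rr).flip`. -/
theorem swM_r (M : Bim A B) (n i : ℕ) (b : (pw B n).A) (x : (bx M n).M) :
    swM M n i ((bx M n).r b x) = (bx M n).r ((adjD B n i).hom.f b) (swM M n i x) := by
  induction n, i using swM.induct with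
  | case1 i => rfl
  | case2 i => rfl
  | case3 n =>
    rw [adjD_zero_f, swM_zero]
    have e : (bx M (n + 1)).rr = kz B.dg (bx M n).dg M.rr (bx M n).rr :=
      LinearMap.ext₂ fun _ _ => rfl
    have h := SW_kz (X := M.dg) (X' := B.dg) (X'' := M.dg) (Z := (bx M n).dg) (α := M.rr)
      (γ := (bx M n).rr) (fun h h' => M.rr_deg h h') x b
    rw [← e] at h
    exact h
  | case4 n i ih =>
    rw [adjD_succ_f, swM_succ]
    have ho : ∀ w, (bx M (n + 1)).dg.o (swM M (n + 1) i w) =
        swM M (n + 1) i ((bx M (n + 1)).dg.o w) := fun w =>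
      Dg.o_degMap_even (n := 0) (by simp) (swM M (n + 1) i) (fun {j v} hv => by
        rw [add_zero]
        exact swM_deg M (n + 1) i hv) w
    exact PwM_kz (X := B.dg) (Y := (bx M (n + 1)).dg) (α := M.rr) (β := (bx M (n + 1)).rr)
      ho (fun w w' => ih w' w) x b

/-- The tensor power `bx M n` is an equivariant bimodule.

Proof of the fields: `perm_induction` with the lemmas above. -/
noncomputable def bxE (M : Bim A B) (n : ℕ) : EqB (pwAct A n) (pwAct B n) (bx M n) where
  b := fun σ => bxP M n σ
  b_one := fun x => by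
    rw [map_one]
    rfl
  b_mul := fun g h x => by
    rw [map_mul]
    rfl
  b_deg := fun g {i x} hx => by
    refine Pool.Agent.MP_6e5bed_ag.perm_induction
      (P := fun σ => ∀ x, (bx M n).dg.IsDeg i x → (bx M n).dg.IsDeg i (bxP M n σ x))
      ?_ ?_ ?_ g x hx
    · intro x hx
      rw [map_one]
      exact hx
    · intro j hj x hx
      rw [bxP_swap]
      exact swM_deg M n j hx
    · intro a b ha hb x hx
      rw [map_mul]
      exact ha _ (hb _ hx)
  b_d := fun g x => by
    refine Pool.Agent.MP_6e5bed_ag.perm_induction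
      (P := fun σ => ∀ x, (bx M n).dg.d (bxP M n σ x) = bxP M n σ ((bx M n).dg.d x))
      ?_ ?_ ?_ g x
    · intro x
      rw [map_one]
      rfl
    · intro j hj x
      rw [bxP_swap]
      exact swM_d M n j x
    · intro a b ha hb x
      rw [map_mul]
      exact (ha _).trans (congrArg (bxP M n a) (hb x))
  b_l := fun g d x => by
    refine Pool.Agent.MP_6e5bed_ag.perm_induction
      (P := fun σ => ∀ d x, bxP M n σ ((bx M n).l d x) =
        (bx M n).l (pwP A n σ d) (bxP M n σ x)) ?_ ?_ ?_ g d x
    · intro d x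
      rw [map_one, map_one]
      rfl
    · intro j hj d x
      rw [bxP_swap, pwP_swap]
      exact swM_l M n j d x
    · intro a b ha hb d x
      rw [map_mul, map_mul]
      exact (congrArg (bxP M n a) (hb d x)).trans (ha _ _)
  b_r := fun g d x => by
    refine Pool.Agent.MP_6e5bed_ag.perm_induction
      (P := fun σ => ∀ d x, bxP M n σ ((bx M n).r d x) =
        (bx M n).r (pwP B n σ d) (bxP M n σ x)) ?_ ?_ ?_ g d x
    · intro d x
      rw [map_one, map_one]
      rfl
    · intro j hj d x
      rw [bxP_swap, pwP_swap]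
      exact swM_r M n j d x
    · intro a b ha hb d x
      rw [map_mul, map_mul]
      exact (congrArg (bxP M n a) (hb d x)).trans (ha _ _)

theorem bxE_b (M : Bim A B) (n : ℕ) (σ : Perm (Fin n)) : (bxE M n).b σ = bxP M n σ := rfl

/-- The symmetric power `S^n A = A^{⊗n} ⋊ S_n`. -/
noncomputable def symP (A : DGA k) (n : ℕ) : DGA k := cr (pwAct A n)

/-- The bimodule `M^{⊗n} ⋊ S_n`. -/
noncomputable def symM (M : Bim A B) (n : ℕ) : Bim (symP A n) (symP B n) := crM (bxE M n)

/-- The grading of `S^n A` by the symmetric group. -/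
noncomputable def symG (A : DGA k) (n : ℕ) : GrA (Perm (Fin n)) (symP A n) := crGr (pwAct A n)

/-- The grading of `M^{⊗n} ⋊ S_n`. -/
noncomputable def symGB (M : Bim A B) (n : ℕ) : GrB (symG A n) (symG B n) (symM M n) :=
  crGrB (bxE M n)

end Pool.Agent.MP_6e5bed_ag_SY
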