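import Pool.Agent.Lib.MP_6e5bed_ag_SY.Char

set_option autoImplicit false
set_option linter.unusedSectionVars false

/-!
# MP_6e5bed_ag (project SYM): the subsets of `{0, …, n - 1}` as sets with an action of `S_n`
-/

namespace Pool.Agent.MP_6e5bed_ag_SY

open Equiv

/-- The subsets of `Fin n`, given by their characteristic functions. -/
def Sb (n : ℕ) : Type := Fin n → Bool

instance (n : ℕ) : DecidableEq (Sb n) := inferInstanceAs (DecidableEq (Fin n → Bool))

instance (n : ℕ) : Fintype (Sb n) := inferInstanceAs (Fintype (Fin n → Bool))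

instance (n : ℕ) : MulAction (Perm (Fin n)) (Sb n) where
  smul := fun σ S => fun s => S (σ⁻¹ s)
  one_smul := fun _ => rfl
  mul_smul := fun σ τ S => by
    funext s
    change S ((σ * τ)⁻¹ s) = S (τ⁻¹ (σ⁻¹ s))
    rw [mul_inv_rev, Perm.mul_apply]

/-- Membership. -/
def Sb.m {n : ℕ} (S : Sb n) (s : Fin n) : Bool := S s

theorem Sb.ext {n : ℕ} {S T : Sb n} (h : ∀ s, S.m s = T.m s) : S = T := funext h

theorem Sb.smul_m {n : ℕ} (σ : Perm (Fin n)) (S : Sb n) (s : Fin n) :
    (σ • S).m s = S.m (σ⁻¹ s) := rfl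

/-- The number of elements. -/
def Sb.card {n : ℕ} (S : Sb n) : ℕ := (Finset.univ.filter fun s => S.m s = true).card

theorem Sb.card_smul {n : ℕ} (σ : Perm (Fin n)) (S : Sb n) : (σ • S).card = S.card := by
  have h : (Finset.univ.filter fun s => (σ • S).m s = true) =
      (Finset.univ.filter fun s => S.m s = true).map σ.toEmbedding := by
    ext s
    simp only [Finset.mem_filter, Finset.mem_univ, true_and, Finset.mem_map,
      Equiv.toEmbedding_apply]
    constructor
    · intro hs
      exact ⟨σ⁻¹ s, hs, σ.apply_symm_apply s⟩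
    · rintro ⟨t, ht, rfl⟩
      change S.m (σ.symm (σ t)) = true
      rw [Equiv.symm_apply_apply]
      exact ht
  unfold Sb.card
  rw [h, Finset.card_map]

/-- The subsets with `i` elements. -/
def SbI (n i : ℕ) : Type := {S : Sb n // S.card = i}

instance (n i : ℕ) : DecidableEq (SbI n i) := inferInstanceAs (DecidableEq {S : Sb n // S.card = i})

instance (n i : ℕ) : Fintype (SbI n i) := inferInstanceAs (Fintype {S : Sb n // S.card = i})

instance (n i : ℕ) : MulAction (Perm (Fin n)) (SbI n i) where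
  smul := fun σ S => ⟨σ • S.1, (S.1.card_smul σ).trans S.2⟩
  one_smul := fun S => Subtype.ext (one_smul _ S.1)
  mul_smul := fun σ τ S => Subtype.ext (mul_smul σ τ S.1)

theorem SbI.smul_val {n i : ℕ} (σ : Perm (Fin n)) (S : SbI n i) : (σ • S).1 = σ • S.1 := rfl

/-- The nonempty proper subsets. -/
def KS (n : ℕ) : Type := {S : Sb n // 0 < S.card ∧ S.card < n}

instance (n : ℕ) : DecidableEq (KS n) :=
  inferInstanceAs (DecidableEq {S : Sb n // 0 < S.card ∧ S.card < n})

instance (n : ℕ) : Fintype (KS n) :=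
  inferInstanceAs (Fintype {S : Sb n // 0 < S.card ∧ S.card < n})

instance (n : ℕ) : MulAction (Perm (Fin n)) (KS n) where
  smul := fun σ S => ⟨σ • S.1, by
    rw [S.1.card_smul]
    exact S.2⟩
  one_smul := fun S => Subtype.ext (one_smul _ S.1)
  mul_smul := fun σ τ S => Subtype.ext (mul_smul σ τ S.1)

theorem KS.smul_val {n : ℕ} (σ : Perm (Fin n)) (S : KS n) : (σ • S).1 = σ • S.1 := rfl

theorem card_KS_le (n : ℕ) : Fintype.card (KS n) ≤ 2 ^ n := by
  have h : Fintype.card (Sb n) = 2 ^ n := by
    change Fintype.card (Fin n → Bool) = 2 ^ n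
    simp
  rw [← h]
  exact Fintype.card_subtype_le _

/-- A permutation with a fixed point on the subsets with `i` elements, `0 < i < n`, has a fixed
point on the proper nonempty subsets. -/
theorem fxn_KS_ne {n i : ℕ} (h0 : 0 < i) (hi : i < n) (σ : Perm (Fin n)) (S : SbI n i)
    (h : σ • S = S) : fxn (KS n) σ ≠ 0 := by
  have hf : Finite {y : KS n // σ • y = y} := inferInstance
  have hne : Nonempty {y : KS n // σ • y = y} :=
    ⟨⟨⟨S.1, by rw [S.2]; exact ⟨h0, hi⟩⟩, Subtype.ext
      (show σ • S.1 = S.1 from congrArg Subtype.val h)⟩⟩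
  exact Nat.card_ne_zero.mpr ⟨hne, hf⟩

/-- The group `S_n` acts transitively on the subsets with `i` elements. -/
theorem SbI.transitive (n i : ℕ) (S T : SbI n i) : ∃ σ : Perm (Fin n), σ • S = T := by
  classical
  have hc : Fintype.card {s : Fin n // S.1.m s = true} =
      Fintype.card {s : Fin n // T.1.m s = true} := by
    rw [Fintype.card_subtype, Fintype.card_subtype]
    exact S.2.trans T.2.symm
  let e : {s : Fin n // S.1.m s = true} ≃ {s : Fin n // T.1.m s = true} :=
    Fintype.equivOfCardEq hc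
  refine ⟨e.extendSubtype, Subtype.ext (Sb.ext fun s => ?_)⟩
  obtain ⟨t, rfl⟩ : ∃ t, e.extendSubtype t = s := e.extendSubtype.surjective s
  change S.1.m (e.extendSubtype.symm (e.extendSubtype t)) = T.1.m (e.extendSubtype t)
  rw [Equiv.symm_apply_apply]
  by_cases ht : S.1.m t = true
  · rw [ht]
    exact (e.extendSubtype_mem t ht).symm
  · have h2 := e.extendSubtype_not_mem t ht
    rw [Bool.not_eq_true] at ht h2
    rw [ht, h2]

/-- The proper nonempty subsets, sorted by their numbers of elements. -/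
theorem KS_sum (n : ℕ) : ∃ e : KS (n + 1) ≃ (Σ i : Fin n, SbI (n + 1) (i + 1)),
    ∀ (σ : Perm (Fin (n + 1))) (S : KS (n + 1)), e (σ • S) = σ • e S := by
  let e : KS (n + 1) ≃ (Σ i : Fin n, SbI (n + 1) (i + 1)) :=
    { toFun := fun S => ⟨⟨S.1.card - 1, by have := S.2; omega⟩, ⟨S.1, by
        have := S.2
        show S.1.card = S.1.card - 1 + 1
        omega⟩⟩
      invFun := fun x => ⟨x.2.1, by
        have h1 := x.2.2
        have h2 := x.1.2
        omega⟩
      left_inv := fun S => Subtype.ext rfl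
      right_inv := by
        rintro ⟨⟨i, hi⟩, ⟨S, hS⟩⟩
        obtain rfl : i = S.card - 1 := by
          have hS' : S.card = i + 1 := hS
          omega
        rfl }
  refine ⟨e, fun σ S => e.symm.injective ?_⟩
  rw [Equiv.symm_apply_apply]
  exact Subtype.ext rfl

end Pool.Agent.MP_6e5bed_ag_SY
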