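import Pool.Agent.Lib.MP_6e5bed_ag_SY.Vir
import Pool.Agent.Lib.MP_6e5bed_ag_SY.Sb
import Pool.Agent.Lib.MP_6e5bed_ag_SY.PwM

set_option autoImplicit false
set_option linter.unusedSectionVars false

/-!
# MP_6e5bed_ag (project SYM): the idempotent of the cyclic permutations of all points
-/

namespace Pool.Agent.MP_6e5bed_ag_SY

open Pool.Agent.MP_6e5bed_ag_NC
open CategoryTheory MonoidalCategory Equiv

universe u

section poly

variable {C : Type*} [Category C] [Preadditive C] [Linear ℚ C]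

/-- The product of the endomorphisms `1 - T / m`, `1 ≤ m ≤ N`. -/
noncomputable def dlp {E : C} (T : E ⟶ E) : ℕ → (E ⟶ E)
  | 0 => 𝟙 E
  | N + 1 => dlp T N ≫ (𝟙 E - ((N + 1 : ℕ) : ℚ)⁻¹ • T)

theorem dlp_split {E : C} (T : E ⟶ E) (N : ℕ) : ∃ s : E ⟶ E, dlp T N = 𝟙 E - T ≫ s := by
  induction N with
  | zero =>
    refine ⟨0, ?_⟩
    rw [Limits.comp_zero, sub_zero]
    rfl
  | succ N ih =>
    obtain ⟨s, hs⟩ := ih
    refine ⟨((N + 1 : ℕ) : ℚ)⁻¹ • 𝟙 E + s - s ≫ (((N + 1 : ℕ) : ℚ)⁻¹ • T), ?_⟩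
    change dlp T N ≫ (𝟙 E - ((N + 1 : ℕ) : ℚ)⁻¹ • T) = _
    rw [hs]
    simp only [Preadditive.sub_comp, Preadditive.comp_sub, Preadditive.comp_add,
      Linear.comp_smul, Category.comp_id, Category.id_comp, Category.assoc, smul_sub]
    abel

theorem dlp_comm {E F : C} (T : E ⟶ E) (S : F ⟶ F) (a : E ⟶ F) (h : T ≫ a = a ≫ S) (N : ℕ) :
    dlp T N ≫ a = a ≫ dlp S N := by
  induction N with
  | zero =>
    change 𝟙 E ≫ a = a ≫ 𝟙 F
    rw [Category.id_comp, Category.comp_id]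
  | succ N ih =>
    change (dlp T N ≫ (𝟙 E - ((N + 1 : ℕ) : ℚ)⁻¹ • T)) ≫ a =
      a ≫ (dlp S N ≫ (𝟙 F - ((N + 1 : ℕ) : ℚ)⁻¹ • S))
    rw [Category.assoc, ← Category.assoc a, ← ih, Category.assoc, Preadditive.sub_comp,
      Preadditive.comp_sub a, Linear.smul_comp, Linear.comp_smul, h, Category.id_comp,
      Category.comp_id]

end poly

variable {k : Type u} [Field k] {G : Type} [Group G] [Fintype G] {E F : SP k}

/-- Proof. Induction on `N`: `IsVir Γ (∏ m ∈ Finset.range N, (1 - fxn K g / (m + 1))) (dlp .. N)` by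
`IsVir.one`, `IsVir.sub`, `IsVir.smul`, `IsVir.mul`. The product is `1` if `fxn K g = 0` and `0` if
`0 < fxn K g ≤ card K ≤ N`. -/
theorem dlp_vir (Γ : GrA G E.alg) (K : Type) [Fintype K] [MulAction G K] (N : ℕ)
    (hN : Fintype.card K ≤ N) :
    IsVir Γ (fun g => if fxn K g = 0 then 1 else 0) (dlp (TT Γ K) N) := by
  have h1 : ∀ N : ℕ, IsVir Γ
      (fun g => ∏ m ∈ Finset.range N, (1 - ((m + 1 : ℕ) : ℚ)⁻¹ * (fxn K g : ℚ)))
      (dlp (TT Γ K) N) := by
    intro N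
    induction N with
    | zero =>
      simp only [Finset.range_zero, Finset.prod_empty]
      exact IsVir.one Γ
    | succ N ih =>
      simp only [Finset.prod_range_succ]
      exact IsVir.mul ih (IsVir.sub (IsVir.one Γ) (IsVir.smul (IsVir.set Γ K) _))
  have h2 := h1 N
  have h3 : (fun g : G => ∏ m ∈ Finset.range N, (1 - ((m + 1 : ℕ) : ℚ)⁻¹ * (fxn K g : ℚ))) =
      fun g => if fxn K g = 0 then 1 else 0 := by
    funext g
    by_cases hg : fxn K g = 0
    · rw [if_pos hg, hg]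
      refine Finset.prod_eq_one fun m _ => ?_
      rw [Nat.cast_zero, mul_zero, sub_zero]
    · rw [if_neg hg]
      have h4 : fxn K g ≤ N := by
        refine le_trans ?_ hN
        unfold fxn
        rw [← Nat.card_eq_fintype_card]
        exact Nat.card_le_card_of_injective Subtype.val Subtype.val_injective
      refine Finset.prod_eq_zero (i := fxn K g - 1) (Finset.mem_range.2 (by omega)) ?_
      have h5 : fxn K g - 1 + 1 = fxn K g := by omega
      rw [h5, inv_mul_cancel₀ (Nat.cast_ne_zero.2 hg), sub_self]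
  rw [h3] at h2
  exact h2

variable {n : ℕ}

/-- The idempotent which belongs to the cyclic permutations of all `n` points. -/
noncomputable def td (Γ : GrA (Perm (Fin n)) E.alg) : E ⟶ E := dlp (TT Γ (KS n)) (2 ^ n)

theorem td_vir (Γ : GrA (Perm (Fin n)) E.alg) :
    IsVir Γ (fun g => if fxn (KS n) g = 0 then 1 else 0) (td Γ) :=
  dlp_vir Γ (KS n) (2 ^ n) (card_KS_le n)

theorem td_split (Γ : GrA (Perm (Fin n)) E.alg) :
    ∃ s : E ⟶ E, 𝟙 E = td Γ + TT Γ (KS n) ≫ s := by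
  obtain ⟨s, hs⟩ := dlp_split (TT Γ (KS n)) (2 ^ n)
  refine ⟨s, ?_⟩
  have h1 : td Γ = 𝟙 E - TT Γ (KS n) ≫ s := hs
  rw [h1, sub_add_cancel]

theorem td_td [InvG k (Perm (Fin n))] (Γ : GrA (Perm (Fin n)) E.alg) : td Γ ≫ td Γ = td Γ := by
  refine IsVir.congr (IsVir.mul (td_vir Γ) (td_vir Γ)) (td_vir Γ) fun g => ?_
  by_cases hg : fxn (KS n) g = 0
  · simp only [if_pos hg, mul_one]
  · simp only [if_neg hg, mul_zero]

theorem td_comm {Γ : GrA (Perm (Fin n)) E.alg} {Δ : GrA (Perm (Fin n)) F.alg}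
    {M : Bim E.alg F.alg} (q : GrB Γ Δ M) (hM : M.dg.FinCoh) : td Γ ≫ cl M = cl M ≫ td Δ := by
  exact dlp_comm (TT Γ (KS n)) (TT Δ (KS n)) (cl M) (TT_comm (KS n) q hM) (2 ^ n)

/-- The idempotent kills the bimodules which are graded by the subsets with `i` elements,
`0 < i < n`. Proof. `IsVir.kill` and `fxn_KS_ne`. -/
theorem td_kill [InvG k (Perm (Fin n))] (Γ : GrA (Perm (Fin n)) E.alg) {i : ℕ} (h0 : 0 < i) (hi : i < n)
    {M : Bim E.alg F.alg} (q : GrM Γ (SbI n i) M) (hM : M.dg.FinCoh) : td Γ ≫ cl M = 0 := by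
  exact IsVir.kill (td_vir Γ) q hM fun g S hS => if_neg (fxn_KS_ne h0 hi g S hS)

end Pool.Agent.MP_6e5bed_ag_SY
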