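import Pool.Agent.Lib.MP_6e5bed_ag_SY.Cnr

set_option autoImplicit false
set_option linter.unusedSectionVars false

/-!
# MP_6e5bed_ag (project SYM): filtrations of a bimodule
-/

namespace Pool.Agent.MP_6e5bed_ag_SY

open Pool.Agent.MP_6e5bed_ag_NC
open CategoryTheory

universe u

section alg

variable {k : Type u} [CommRing k] {A B : DGA k} {Q N : Bim A B}

/-- A finite filtration of a bimodule which is split as a filtration of graded bimodules: the `P i`,
`i < n`, are orthogonal idempotents with sum `1`, and `d` maps the image of `P i` to the sum of the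
images of `P j`, `j ≤ i`. -/
structure Flt (Q : Bim A B) (n : ℕ) where
  P : ℕ → GMap 0 Q Q
  idem : ∀ i x, (P i).f ((P i).f x) = (P i).f x
  orth : ∀ i j x, i ≠ j → (P i).f ((P j).f x) = 0
  sum : ∀ x, ∑ i ∈ Finset.range n, (P i).f x = x
  low : ∀ i j x, i < j → (P j).f (Q.dg.d ((P i).f x)) = 0

private theorem Flt_out {n : ℕ} (f : Flt Q n) {i : ℕ} (hi : n ≤ i) (x : Q.M) :
    (f.P i).f x = 0 := by
  rw [← f.sum x, map_sum]
  refine Finset.sum_eq_zero fun j hj => ?_
  have h1 := Finset.mem_range.1 hj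
  exact f.orth i j x (by omega)

private theorem Flt_sq {n : ℕ} (f : Flt Q n) (i : ℕ) (x : Q.M) :
    (f.P i).f (Q.dg.d ((f.P i).f (Q.dg.d ((f.P i).f x)))) = 0 := by
  rcases le_or_gt n i with h | h
  · exact Flt_out f h _
  · have h1 : (f.P i).f (Q.dg.d (∑ j ∈ Finset.range n,
        (f.P j).f (Q.dg.d ((f.P i).f x)))) = 0 := by
      rw [f.sum, Q.dg.d_d, map_zero]
    rw [map_sum, map_sum, Finset.sum_eq_single i] at h1
    · exact h1
    · intro j _ hji
      rcases lt_or_gt_of_ne hji with h2 | h2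
      · exact f.low j i _ h2
      · rw [f.low i j _ h2, map_zero, map_zero]
    · intro h2
      exact absurd (Finset.mem_range.2 h) h2

/-- The initial sums of the idempotents. -/
private def FltS {n : ℕ} (f : Flt Q n) : ℕ → GMap 0 Q Q
  | 0 => 0
  | m + 1 => FltS f m + f.P m

private theorem FltS_f {n : ℕ} (f : Flt Q n) (m : ℕ) (x : Q.M) :
    (FltS f m).f x = ∑ i ∈ Finset.range m, (f.P i).f x := by
  induction m with
  | zero =>
    rw [Finset.range_zero, Finset.sum_empty]
    rfl
  | succ m ih =>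
    rw [Finset.sum_range_succ, ← ih]
    rfl

private theorem FltS_low {n : ℕ} (f : Flt Q n) {m j : ℕ} (h : m ≤ j) (x : Q.M) :
    (f.P j).f (Q.dg.d ((FltS f m).f x)) = 0 := by
  rw [FltS_f, map_sum, map_sum]
  refine Finset.sum_eq_zero fun i hi => ?_
  have h1 := Finset.mem_range.1 hi
  exact f.low i j x (by omega)

private theorem FltS_P {n : ℕ} (f : Flt Q n) {m j : ℕ} (h : m ≤ j) (x : Q.M) :
    (f.P j).f ((FltS f m).f x) = 0 := by
  rw [FltS_f, map_sum]
  refine Finset.sum_eq_zero fun i hi => ?_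
  have h1 := Finset.mem_range.1 hi
  exact f.orth j i x (by omega)

private theorem FltP_S {n : ℕ} (f : Flt Q n) {m j : ℕ} (h : m ≤ j) (x : Q.M) :
    (FltS f m).f ((f.P j).f x) = 0 := by
  rw [FltS_f]
  refine Finset.sum_eq_zero fun i hi => ?_
  have h1 := Finset.mem_range.1 hi
  exact f.orth i j x (by omega)

private theorem FltS_d {n : ℕ} (f : Flt Q n) (m : ℕ) (x : Q.M) :
    (FltS f m).f (Q.dg.d ((FltS f m).f x)) = Q.dg.d ((FltS f m).f x) := by
  have h1 : ∀ z : Q.M, ∑ j ∈ Finset.range (n + m), (f.P j).f z = z := by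
    intro z
    refine Eq.trans ?_ (f.sum z)
    refine (Finset.sum_subset (Finset.range_mono (Nat.le_add_right n m)) ?_).symm
    intro j _ hj
    exact Flt_out f (by simpa using hj) z
  refine Eq.trans ?_ (h1 _)
  rw [FltS_f f m (Q.dg.d _)]
  refine Finset.sum_subset (Finset.range_mono (Nat.le_add_left m n)) ?_
  intro j _ hj
  exact FltS_low f (by simpa using hj) x

private theorem FltS_idem {n : ℕ} (f : Flt Q n) (m : ℕ) (x : Q.M) :
    (FltS f m).f ((FltS f m).f x) = (FltS f m).f x := by
  induction m with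
  | zero => rfl
  | succ m ih =>
    have e : ∀ y, (FltS f (m + 1)).f y = (FltS f m).f y + (f.P m).f y := fun y => rfl
    rw [e, e, map_add, map_add, ih, FltP_S f le_rfl, FltS_P f le_rfl, f.idem, add_zero, zero_add]

/-- The corners of the initial sums. -/
private def FltC {n : ℕ} (f : Flt Q n) (m : ℕ) : Cnr Q where
  π := FltS f m
  idem := FltS_idem f m
  sq := fun x => by
    rw [FltS_d f m x, Q.dg.d_d, map_zero]

/-- The pieces of the filtration.

Proof of `sq`: `0 = P i d d P i = ∑ j, P i d P j d P i` and the summand is zero unless `j ≤ i` and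
`i ≤ j`. -/
def Flt.pc {n : ℕ} (f : Flt Q n) (i : ℕ) : Cnr Q where
  π := f.P i
  idem := f.idem i
  sq := fun x => Flt_sq f i x

theorem Flt.pc_π {n : ℕ} (f : Flt Q n) (i : ℕ) : (f.pc i).π = f.P i := rfl

end alg

/-- The class of a filtered bimodule.

Proof. Let `C m` be the corner of the idempotent `∑ i < m, P i` (`sq`: on its image `π d = d`, since
`P j d P i = 0` for `i < j`). By induction on `m ≤ n`, `C m` has finite-dimensional cohomology and
`cl (C m).bim = ∑ i < m, cl (f.pc i).bim`: `Cnr.ext` for `c = C m`, `c' = f.pc m`, `c'' = C (m + 1)`,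
then `cl_ext` and `FinCoh.mid`. Finally `Cnr.one` for `m = n`. -/
theorem Flt.cl_eq {k : Type u} [Field k] {X Y : SP k} {Q : Bim X.alg Y.alg} {n : ℕ} (f : Flt Q n)
    (h : ∀ i, i < n → (f.pc i).bim.dg.FinCoh) :
    cl Q = ∑ i ∈ Finset.range n, cl (f.pc i).bim := by
  have key : ∀ m, m ≤ n → (FltC f m).bim.dg.FinCoh ∧
      cl (FltC f m).bim = ∑ i ∈ Finset.range m, cl (f.pc i).bim := by
    intro m
    induction m with
    | zero =>
      intro _
      have hz : ∀ x : (FltC f 0).S, x = 0 := by
        intro x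
        have h1 := ((FltC f 0).mem x.1).1 x.2
        exact Subtype.ext h1.symm
      have hc : Contr (FltC f 0).bim :=
        ⟨0, LinearMap.ext fun x => (hz _).trans (hz _).symm⟩
      refine ⟨FinCoh.of_acyc hc.acyc, ?_⟩
      rw [Finset.range_zero, Finset.sum_empty]
      exact cl_contr hc
    | succ m ih =>
      intro hm
      obtain ⟨h1, h2⟩ := ih (by omega)
      have h3 : IsExt (FltC f m).bim (FltC f (m + 1)).bim (f.pc m).bim :=
        (FltC f m).ext (f.pc m) (FltC f (m + 1)) (fun x => rfl) (fun x => FltP_S f le_rfl x)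
          (fun x => FltS_P f le_rfl x) (fun x => FltS_low f le_rfl x)
      have h4 := h m (by omega)
      refine ⟨FinCoh.mid h3 h1 h4, ?_⟩
      rw [Finset.sum_range_succ, ← h2]
      exact cl_ext h3 h1 h4
  rw [← (key n le_rfl).2]
  refine (cl_iso ((FltC f n).one fun x => ?_)).symm
  exact (FltS_f f n x).trans (f.sum x)

end Pool.Agent.MP_6e5bed_ag_SY
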