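import Pool.Agent.Lib.MP_6e5bed_ag_SY.Pi
import Pool.Agent.Lib.MP_6e5bed_ag_NC.Fun

set_option autoImplicit false
set_option linter.unusedSectionVars false

/-!
# MP_6e5bed_ag (project SYM): gradings by a finite group and twists

`GrA G E` is a grading of the dg algebra `E` by the finite group `G` with homogeneous units; for a
finite `G`-set `Y` and an `E`-`F`-bimodule `M` the twist `tws Γ Y M` is the bimodule of the families
`Y → M` with `(e f)(y) = e f(g⁻¹ y)` for `e` of degree `g`, that is `k[Y] ⊗ M` with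
`e (y ⊗ m) = g y ⊗ e m`.
-/

namespace Pool.Agent.MP_6e5bed_ag_SY

open Pool.Agent.MP_6e5bed_ag_NC

universe u

variable {k : Type u} [CommRing k] {G : Type} [Group G] [Fintype G] {E F : DGA k}

/-- A grading of the dg algebra `E` by the finite group `G` (`p g` is the projection to the part of
degree `g`), with closed elements `u g` of degrees `g` and `0`, `u g * u h = u (g * h)`. -/
structure GrA (G : Type) [Group G] [Fintype G] (E : DGA k) where
  p : G → E.A →ₗ[k] E.A
  p_same : ∀ g x, p g (p g x) = p g x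
  p_ne : ∀ g h x, g ≠ h → p g (p h x) = 0
  sum_p : ∀ x, ∑ g, p g x = x
  p_deg : ∀ g {i : ℤ} {x : E.A}, E.dg.IsDeg i x → E.dg.IsDeg i (p g x)
  p_d : ∀ g x, E.dg.d (p g x) = p g (E.dg.d x)
  p_mul : ∀ g h x y, p (g * h) (E.mul (p g x) (p h y)) = E.mul (p g x) (p h y)
  u : G → E.A
  u_deg : ∀ g, E.dg.IsDeg 0 (u g)
  u_d : ∀ g, E.dg.d (u g) = 0
  u_one : u 1 = E.one
  u_mul : ∀ g h, E.mul (u g) (u h) = u (g * h)
  p_u : ∀ g, p g (u g) = u g

/-- A grading of the `E`-`F`-bimodule `M` by the finite `G`-set `X`: elements of degree `g` of `E`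
map the part of degree `x` to the part of degree `g x`, and `F` respects the parts. -/
structure GrM (Γ : GrA G E) (X : Type) [Fintype X] [MulAction G X] (M : Bim E F) where
  q : X → M.M →ₗ[k] M.M
  q_same : ∀ x m, q x (q x m) = q x m
  q_ne : ∀ x y m, x ≠ y → q x (q y m) = 0
  sum_q : ∀ m, ∑ x, q x m = m
  q_deg : ∀ x {i : ℤ} {m : M.M}, M.dg.IsDeg i m → M.dg.IsDeg i (q x m)
  q_d : ∀ x m, M.dg.d (q x m) = q x (M.dg.d m)
  q_l : ∀ g x e m, q (g • x) (M.l (Γ.p g e) m) = M.l (Γ.p g e) (q x m)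
  q_r : ∀ x b m, q x (M.r b m) = M.r b (q x m)

/-- A grading of the `E`-`F`-bimodule `M` by the group `G`, compatible with both actions. -/
structure GrB (Γ : GrA G E) (Δ : GrA G F) (M : Bim E F) where
  q : G → M.M →ₗ[k] M.M
  q_same : ∀ x m, q x (q x m) = q x m
  q_ne : ∀ x y m, x ≠ y → q x (q y m) = 0
  sum_q : ∀ m, ∑ x, q x m = m
  q_deg : ∀ x {i : ℤ} {m : M.M}, M.dg.IsDeg i m → M.dg.IsDeg i (q x m)
  q_d : ∀ x m, M.dg.d (q x m) = q x (M.dg.d m)
  q_l : ∀ g h e m, q (g * h) (M.l (Γ.p g e) m) = M.l (Γ.p g e) (q h m)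
  q_r : ∀ g h b m, q (g * h) (M.r (Δ.p h b) m) = M.r (Δ.p h b) (q g m)

section api

variable (Γ : GrA G E)

/-- Proof. `p g (x y) = ∑ a b, p g (p a x p b y)`, and the summand is `p a x p b y` if `a b = g`
(`p_mul`) and `0` otherwise (`p_mul` and `p_ne`). -/
theorem GrA.p_mul' (g : G) (x y : E.A) :
    Γ.p g (E.mul x y) = ∑ a, E.mul (Γ.p a x) (Γ.p (a⁻¹ * g) y) := by
  classical
  conv_lhs => rw [← Γ.sum_p x, ← Γ.sum_p y]
  rw [map_sum E.mul, LinearMap.sum_apply, map_sum]
  refine Finset.sum_congr rfl fun a _ => ?_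
  rw [map_sum, map_sum, Finset.sum_eq_single (a⁻¹ * g)]
  · have h := Γ.p_mul a (a⁻¹ * g) x y
    rwa [mul_inv_cancel_left] at h
  · intro b _ hb
    rw [← Γ.p_mul a b x y, Γ.p_ne]
    intro h
    apply hb
    rw [h, inv_mul_cancel_left]
  · intro h
    exact absurd (Finset.mem_univ _) h

theorem GrA.p_one : Γ.p 1 E.one = E.one := by
  rw [← Γ.u_one, Γ.p_u]

theorem GrA.p_one_ne (g : G) (h : g ≠ 1) : Γ.p g E.one = 0 := by
  rw [← Γ.u_one, ← Γ.p_u 1, Γ.p_ne g 1 _ h]

theorem GrA.p_s (g : G) (x : E.A) : E.dg.s (Γ.p g x) = Γ.p g (E.dg.s x) :=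
  Dg.s_degMap_even (n := 0) Even.zero (Γ.p g) (fun h => by
    rw [add_zero]
    exact Γ.p_deg g h) x

theorem GrA.p_sp (g : G) (n : ℤ) (x : E.A) : E.dg.sp n (Γ.p g x) = Γ.p g (E.dg.sp n x) := by
  rcases Int.even_or_odd n with h | h
  · rw [Dg.sp_even h, Dg.sp_even h]
  · rw [Dg.sp_odd h, Dg.sp_odd h, Γ.p_s]

end api

private theorem GrIsDeg_sum {V : Type u} [AddCommGroup V] [Module k V] {X : Dg k V} {n : ℤ}
    {ι : Type} (t : Finset ι) (f : ι → V) (h : ∀ i, X.IsDeg n (f i)) :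
    X.IsDeg n (∑ i ∈ t, f i) := by
  classical
  induction t using Finset.induction_on with
  | empty =>
    rw [Finset.sum_empty]
    exact Dg.IsDeg.zero n
  | insert a s ha ih =>
    rw [Finset.sum_insert ha]
    exact (h a).add ih

variable (Γ : GrA G E) (Y : Type) [Fintype Y] [MulAction G Y]

/-- The left action on a twist. -/
noncomputable def twL (M : Bim E F) : E.A →ₗ[k] (Y → M.M) →ₗ[k] (Y → M.M) where
  toFun := fun e => LinearMap.pi fun y => ∑ g, (M.l (Γ.p g e)).comp (LinearMap.proj (g⁻¹ • y))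
  map_add' := fun e e' => by
    ext f y
    simp [Finset.sum_add_distrib]
  map_smul' := fun c e => by
    ext f y
    simp [Finset.smul_sum]

theorem twL_apply (M : Bim E F) (e : E.A) (f : Y → M.M) (y : Y) :
    twL Γ Y M e f y = ∑ g, M.l (Γ.p g e) (f (g⁻¹ • y)) := by
  simp [twL]

/-- The twist `k[Y] ⊗ M`: the families `Y → M` with `(e f)(y) = ∑ g, (p g e) f(g⁻¹ y)` and
`(f b)(y) = f(y) b`. -/
noncomputable def tws (M : Bim E F) : Bim E F where
  M := Y → M.M
  dg := dgPi M.dg Y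
  l := twL Γ Y M
  r := LinearMap.mk₂ k (fun b f y => M.r b (f y)) (fun b b' f => by ext y; simp)
    (fun c b f => by ext y; simp) (fun b f f' => by ext y; simp) (fun c b f => by ext y; simp)
  l_one := fun f => by
    classical
    funext y
    rw [twL_apply, Finset.sum_eq_single 1]
    · rw [Γ.p_one, M.l_one, inv_one, one_smul]
    · intro g _ hg
      rw [Γ.p_one_ne g hg, map_zero, LinearMap.zero_apply]
    · intro h
      exact absurd (Finset.mem_univ _) h
  r_one := fun f => by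
    funext y
    exact M.r_one (f y)
  l_mul := fun a a' f => by
    funext y
    rw [twL_apply, twL_apply]
    have h1 : ∀ g, M.l (Γ.p g (E.mul a a')) (f (g⁻¹ • y)) =
        ∑ h, M.l (Γ.p h a) (M.l (Γ.p (h⁻¹ * g) a') (f (g⁻¹ • y))) := fun g => by
      rw [Γ.p_mul', map_sum, LinearMap.sum_apply]
      exact Finset.sum_congr rfl fun h _ => M.l_mul _ _ _
    rw [Finset.sum_congr rfl fun g _ => h1 g, Finset.sum_comm]
    refine Finset.sum_congr rfl fun h _ => ?_
    rw [twL_apply, map_sum]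
    refine (Fintype.sum_equiv (Equiv.mulLeft h) _ _ fun g => ?_).symm
    rw [Equiv.coe_mulLeft, inv_mul_cancel_left, mul_inv_rev, mul_smul]
  r_mul := fun b b' f => by
    funext y
    exact M.r_mul b b' (f y)
  l_r := fun a b f => by
    funext y
    rw [twL_apply]
    change _ = M.r b (twL Γ Y M a f y)
    rw [twL_apply, map_sum]
    exact Finset.sum_congr rfl fun g _ => M.l_r _ _ _
  l_deg := fun {i j a f} ha hf => by
    rw [dgPi_deg]
    intro y
    rw [twL_apply]
    exact GrIsDeg_sum _ _ fun g => M.l_deg (Γ.p_deg g ha) (dgPi_deg.1 hf _)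
  r_deg := fun {i j b f} hf hb => by
    rw [dgPi_deg]
    intro y
    exact M.r_deg (dgPi_deg.1 hf y) hb
  d_l := fun a f => by
    funext y
    rw [dgPi_d, Pi.add_apply, twL_apply, twL_apply, twL_apply, map_sum, ← Finset.sum_add_distrib]
    refine Finset.sum_congr rfl fun g _ => ?_
    rw [M.d_l, Γ.p_d, Γ.p_s, dgPi_d]
  d_r := fun b f => by
    funext y
    have h := M.d_r b (f y)
    rw [← dgPi_s] at h
    exact h

theorem tws_l (M : Bim E F) (e : E.A) (f : Y → M.M) (y : Y) :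
    (tws Γ Y M).l e f y = ∑ g, M.l (Γ.p g e) (f (g⁻¹ • y)) := twL_apply Γ Y M e f y

theorem tws_r (M : Bim E F) (b : F.A) (f : Y → M.M) (y : Y) :
    (tws Γ Y M).r b f y = M.r b (f y) := rfl

theorem tws_d (M : Bim E F) (f : Y → M.M) (y : Y) :
    (tws Γ Y M).dg.d f y = M.dg.d (f y) := rfl

variable {M N : Bim E F}

/-- The twist of a graded map. -/
noncomputable def twMap {n : ℤ} (φ : GMap n M N) : GMap n (tws Γ Y M) (tws Γ Y N) where
  f := LinearMap.pi fun y => φ.f.comp (LinearMap.proj y)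
  deg := fun {i f} hf => by
    refine dgPi_deg.2 fun y => ?_
    exact φ.deg (dgPi_deg.1 hf y)
  map_l := fun e f => by
    funext y
    refine (congrArg φ.f (twL_apply Γ Y M e f y)).trans ?_
    refine Eq.trans ?_ (twL_apply Γ Y N (E.dg.sp n e) (fun z => φ.f (f z)) y).symm
    rw [map_sum]
    refine Finset.sum_congr rfl fun g _ => ?_
    rw [φ.map_l, Γ.p_sp]
  map_r := fun b f => by
    funext y
    exact φ.map_r b (f y)

theorem twMap_f {n : ℤ} (φ : GMap n M N) (f : Y → M.M) (y : Y) :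
    (twMap Γ Y φ).f f y = φ.f (f y) := rfl

/-- The twist, as a dg functor. -/
noncomputable def twF (F : DGA k) : DGFun E F E F where
  obj := fun M => tws Γ Y M
  map := fun φ => twMap Γ Y φ
  map_id := fun M x => by
    funext y
    rfl
  map_comp := fun φ ψ h x => by
    funext y
    rfl
  map_add := fun φ ψ x => by
    funext y
    rfl
  map_D := fun φ h x => by
    funext y
    rfl

theorem twF_obj (F : DGA k) (M : Bim E F) : (twF Γ Y F).obj M = tws Γ Y M := rfl

end Pool.Agent.MP_6e5bed_ag_SY
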