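import Pool.Agent.Lib.MP_6e5bed_ag_SY.Ind

set_option autoImplicit false
set_option linter.unusedSectionVars false

/-!
# MP_6e5bed_ag (project SYM): crossed bimodules are summands of induced ones
-/

namespace Pool.Agent.MP_6e5bed_ag_SY

open Pool.Agent.MP_6e5bed_ag_NC

universe u

variable {k : Type u} [Field k] {G : Type} [Group G] [Fintype G] {D D' : DGA k}

section aux

variable {V : Type u} [AddCommGroup V] [Module k V]

/-- The family with the value `v` at `h`. -/
noncomputable def IndS_sg (h : G) : V →ₗ[k] (G → V) := by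
  classical
  exact LinearMap.single k (fun _ : G => V) h

private theorem IndS_same (h : G) (v : V) : (IndS_sg (k := k) h v : G → V) h = v := by
  classical
  unfold IndS_sg
  rw [LinearMap.single_apply, Pi.single_eq_same]

private theorem IndS_ne {g h : G} (hgh : g ≠ h) (v : V) :
    (IndS_sg (k := k) h v : G → V) g = 0 := by
  classical
  unfold IndS_sg
  rw [LinearMap.single_apply, Pi.single_eq_of_ne hgh]

private theorem IndS_dec (x : G → V) : ∑ g, (IndS_sg (k := k) g (x g) : G → V) = x := by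
  funext h
  rw [Finset.sum_apply, Finset.sum_eq_single h]
  · exact IndS_same h _
  · intro g _ hg
    exact IndS_ne (Ne.symm hg) _
  · intro hh
    exact absurd (Finset.mem_univ _) hh

private theorem IndS_ind {P : (G → V) → Prop} (h0 : P 0) (hadd : ∀ x y, P x → P y → P (x + y))
    (hs : ∀ g v, P (IndS_sg (k := k) g v)) (x : G → V) : P x := by
  classical
  have h1 : ∀ s : Finset G, P (∑ g ∈ s, (IndS_sg (k := k) g (x g) : G → V)) := by
    intro s
    induction s using Finset.induction_on with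
    | empty =>
      rw [Finset.sum_empty]
      exact h0
    | insert a s ha ih =>
      rw [Finset.sum_insert ha]
      exact hadd _ _ (hs _ _) ih
  have h2 := h1 Finset.univ
  rwa [IndS_dec] at h2

private theorem IndS_ext2 {W U : Type u} [AddCommGroup W] [Module k W] [AddCommGroup U]
    [Module k U] (F F' : (G → V) →ₗ[k] (G → W) →ₗ[k] U)
    (h : ∀ (g : G) (v : V) (l : G) (w : W), F (IndS_sg (k := k) g v) (IndS_sg (k := k) l w) =
      F' (IndS_sg (k := k) g v) (IndS_sg (k := k) l w)) (x : G → V) (y : G → W) :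
    F x y = F' x y := by
  refine IndS_ind (k := k) (P := fun x : G → V => F x y = F' x y) ?_ ?_ ?_ x
  · rw [map_zero, map_zero]
  · intro a b ha hb
    rw [map_add, map_add, LinearMap.add_apply, LinearMap.add_apply, ha, hb]
  · intro g v
    refine IndS_ind (k := k) (P := fun y : G → W => F (IndS_sg (k := k) g v) y =
      F' (IndS_sg (k := k) g v) y) ?_ ?_ ?_ y
    · rw [map_zero, map_zero]
    · intro a b ha hb
      rw [map_add, map_add, ha, hb]
    · exact fun l w => h g v l w

private theorem IndS_sg_deg {X : Dg k V} (h : G) {i : ℤ} {v : V} (hv : X.IsDeg i v) :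
    (dgPi X G).IsDeg i (IndS_sg (k := k) h v) := by
  rw [dgPi_deg]
  intro g
  by_cases hg : g = h
  · subst hg
    rw [IndS_same]
    exact hv
  · rw [IndS_ne hg]
    exact Dg.IsDeg.zero _

private theorem IndS_sg_d (X : Dg k V) (h : G) (v : V) :
    (dgPi X G).d (IndS_sg (k := k) h v) = IndS_sg (k := k) h (X.d v) := by
  funext g
  rw [dgPi_d]
  by_cases hg : g = h
  · subst hg
    rw [IndS_same, IndS_same]
  · rw [IndS_ne hg, IndS_ne hg, map_zero]

private theorem IndS_sum_deg {W : Type u} [AddCommGroup W] [Module k W] {X : Dg k W}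
    {n : ℤ} (s : Finset G) (f : G → W) (h : ∀ g, X.IsDeg n (f g)) :
    X.IsDeg n (∑ g ∈ s, f g) := by
  classical
  induction s using Finset.induction_on with
  | empty =>
    rw [Finset.sum_empty]
    exact Dg.IsDeg.zero n
  | insert a s ha ih =>
    rw [Finset.sum_insert ha]
    exact (h a).add ih

end aux

section mulAux

variable (α : Act G D)

/-- `(x u_h) (y u_l) = x α_h(y) u_(hl)` -/
private theorem IndS_mul (h l : G) (x y : D.A) :
    (cr α).mul (IndS_sg (k := k) h x) (IndS_sg (k := k) l y) =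
      IndS_sg (k := k) (h * l) (D.mul x ((α.a h).f y)) := by
  funext g
  rw [cr_mul, Finset.sum_eq_single h]
  · rw [IndS_same]
    by_cases hg : g = h * l
    · subst hg
      rw [inv_mul_cancel_left, IndS_same, IndS_same]
    · have h1 : h⁻¹ * g ≠ l := fun e => hg (by rw [← e, mul_inv_cancel_left])
      rw [IndS_ne h1, IndS_ne hg, map_zero, map_zero]
  · intro j _ hj
    rw [IndS_ne hj, map_zero, LinearMap.zero_apply]
  · intro hh
    exact absurd (Finset.mem_univ _) hh

private theorem IndS_crI (x : D.A) : (crI α).f x = (IndS_sg (k := k) (1 : G) x : G → D.A) := by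
  classical
  funext g
  rw [crI_f]
  by_cases hg : g = 1
  · subst hg
    rw [if_pos rfl, IndS_same]
  · rw [if_neg hg, IndS_ne hg]

private theorem IndS_one_deg (h : G) : (cr α).dg.IsDeg 0 (IndS_sg (k := k) h D.one) :=
  IndS_sg_deg h D.one_deg

private theorem IndS_one_d (h : G) : (cr α).dg.d (IndS_sg (k := k) h D.one : G → D.A) = 0 := by
  have h1 : (IndS_sg (k := k) h (D.dg.d D.one) : G → D.A) = 0 := by rw [D.d_one, map_zero]
  exact (IndS_sg_d D.dg h D.one).trans h1

private theorem IndS_one_s (h : G) :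
    (cr α).dg.s (IndS_sg (k := k) h D.one : G → D.A) = (IndS_sg (k := k) h D.one : G → D.A) :=
  Dg.s_of_even (Dg.o_of_even (IndS_one_deg α h) Even.zero)

end mulAux

variable {α : Act G D} {α' : Act G D'} {N : Bim D D'} (β : EqB α α' N)

private theorem IndS_l (h l : G) (x : D.A) (n : N.M) :
    (crM β).l (IndS_sg (k := k) h x) (IndS_sg (k := k) l n : G → N.M) =
      (IndS_sg (k := k) (h * l) (N.l x (β.b h n)) : G → N.M) := by
  funext g
  refine (crM_l β _ _ g).trans ?_
  rw [Finset.sum_eq_single h]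
  · rw [IndS_same]
    by_cases hg : g = h * l
    · subst hg
      rw [inv_mul_cancel_left, IndS_same, IndS_same]
    · have h1 : h⁻¹ * g ≠ l := fun e => hg (by rw [← e, mul_inv_cancel_left])
      rw [IndS_ne h1, IndS_ne hg, map_zero, map_zero]
  · intro j _ hj
    rw [IndS_ne hj, map_zero, LinearMap.zero_apply]
  · intro hh
    exact absurd (Finset.mem_univ _) hh

private theorem IndS_r (h l : G) (y : D'.A) (n : N.M) :
    (crM β).r (IndS_sg (k := k) l y) (IndS_sg (k := k) h n : G → N.M) =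
      (IndS_sg (k := k) (h * l) (N.r ((α'.a h).f y) n) : G → N.M) := by
  funext g
  refine (crM_r β _ _ g).trans ?_
  rw [Finset.sum_eq_single h]
  · rw [IndS_same]
    by_cases hg : g = h * l
    · subst hg
      rw [inv_mul_cancel_left, IndS_same, IndS_same]
    · have h1 : h⁻¹ * g ≠ l := fun e => hg (by rw [← e, mul_inv_cancel_left])
      rw [IndS_ne h1, IndS_ne hg, map_zero, map_zero, LinearMap.zero_apply]
  · intro j _ hj
    rw [IndS_ne hj, map_zero]
  · intro hh
    exact absurd (Finset.mem_univ _) hh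

/-- the inner bimodule `N ⊗_D' (D' ⋊ G)` -/
private noncomputable abbrev IndS_Y (α' : Act G D') : Bim D' (cr α') :=
  res (crI α') (DHom.id (cr α')) (diag (cr α'))

/-- the bimodule `D ⋊ G` over `D ⋊ G` and `D` -/
private noncomputable abbrev IndS_X (α : Act G D) : Bim (cr α) D :=
  res (DHom.id (cr α)) (crI α) (diag (cr α))

/-- the element `x ⊗ n ⊗ y` -/
private noncomputable def IndS_t (α : Act G D) (α' : Act G D') (N : Bim D D') (x : G → D.A)
    (n : N.M) (y : G → D'.A) : (indB α α' N).M :=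
  tm (M := IndS_X α) (N := tb N (IndS_Y α')) x (tm (M := N) (N := IndS_Y α') n y)

section tApi

variable (α α' N)

private theorem IndS_t_l (a x : G → D.A) (n : N.M) (y : G → D'.A) :
    (indB α α' N).l a (IndS_t α α' N x n y) = IndS_t α α' N ((cr α).mul a x) n y :=
  tb_l (M := IndS_X α) (N := tb N (IndS_Y α')) a x _

private theorem IndS_t_r (b : G → D'.A) (x : G → D.A) (n : N.M) (y : G → D'.A) :
    (indB α α' N).r b (IndS_t α α' N x n y) = IndS_t α α' N x n ((cr α').mul y b) := by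
  refine (tb_r (M := IndS_X α) (N := tb N (IndS_Y α')) b x _).trans ?_
  exact congrArg (fun w => tm (M := IndS_X α) (N := tb N (IndS_Y α')) x w)
    (tb_r (M := N) (N := IndS_Y α') b n y)

private theorem IndS_t_bal (x : G → D.A) (d : D.A) (n : N.M) (y : G → D'.A) :
    IndS_t α α' N ((cr α).mul x ((crI α).f d)) n y = IndS_t α α' N x (N.l d n) y := by
  refine (tm_r_l (M := IndS_X α) (N := tb N (IndS_Y α')) x d _).trans ?_
  exact congrArg (fun w => tm (M := IndS_X α) (N := tb N (IndS_Y α')) x w)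
    (tb_l (M := N) (N := IndS_Y α') d n y)

private theorem IndS_t_bal' (x : G → D.A) (d : D'.A) (n : N.M) (y : G → D'.A) :
    IndS_t α α' N x (N.r d n) y = IndS_t α α' N x n ((cr α').mul ((crI α').f d) y) :=
  congrArg (fun w => tm (M := IndS_X α) (N := tb N (IndS_Y α')) x w)
    (tm_r_l (M := N) (N := IndS_Y α') n d y)

private theorem IndS_t_add_m (x : G → D.A) (n n' : N.M) (y : G → D'.A) :
    IndS_t α α' N x (n + n') y = IndS_t α α' N x n y + IndS_t α α' N x n' y := by
  refine (congrArg (fun w => tm (M := IndS_X α) (N := tb N (IndS_Y α')) x w)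
    (tm_add_left (M := N) (N := IndS_Y α') n n' y)).trans ?_
  exact tm_add_right (M := IndS_X α) (N := tb N (IndS_Y α')) x _ _

private theorem IndS_t_zero_m (x : G → D.A) (y : G → D'.A) :
    IndS_t α α' N x 0 y = 0 := by
  refine (congrArg (fun w => tm (M := IndS_X α) (N := tb N (IndS_Y α')) x w)
    (tm_zero_left (M := N) (N := IndS_Y α') y)).trans ?_
  exact tm_zero_right (M := IndS_X α) (N := tb N (IndS_Y α')) x

private theorem IndS_t_smul_m (c : k) (x : G → D.A) (n : N.M) (y : G → D'.A) :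
    IndS_t α α' N x (c • n) y = c • IndS_t α α' N x n y := by
  refine (congrArg (fun w => tm (M := IndS_X α) (N := tb N (IndS_Y α')) x w)
    (tm_smul_left (M := N) (N := IndS_Y α') c n y)).trans ?_
  exact tm_smul_right (M := IndS_X α) (N := tb N (IndS_Y α')) c x _

private theorem IndS_t_deg {i : ℤ} {n : N.M} (hn : N.dg.IsDeg i n) (h l : G) :
    (indB α α' N).dg.IsDeg i
      (IndS_t α α' N (IndS_sg (k := k) h D.one) n (IndS_sg (k := k) l D'.one)) := by
  have h1 : (IndS_X α).dg.IsDeg 0 (IndS_sg (k := k) h D.one : G → D.A) := IndS_one_deg α h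
  have h2 : (IndS_Y α').dg.IsDeg 0 (IndS_sg (k := k) l D'.one : G → D'.A) := IndS_one_deg α' l
  have h3 := tb_deg (M := IndS_X α) (N := tb N (IndS_Y α')) h1
    (tb_deg (M := N) (N := IndS_Y α') hn h2)
  rw [zero_add, add_zero] at h3
  exact h3

private theorem IndS_t_d (n : N.M) (h l : G) :
    (indB α α' N).dg.d
      (IndS_t α α' N (IndS_sg (k := k) h D.one) n (IndS_sg (k := k) l D'.one)) =
      IndS_t α α' N (IndS_sg (k := k) h D.one) (N.dg.d n) (IndS_sg (k := k) l D'.one) := by
  refine (tb_d (M := IndS_X α) (N := tb N (IndS_Y α')) _ _).trans ?_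
  have h1 : (IndS_X α).dg.d (IndS_sg (k := k) h D.one : G → D.A) = 0 := IndS_one_d α h
  have h2 : (IndS_X α).dg.s (IndS_sg (k := k) h D.one : G → D.A) =
      (IndS_sg (k := k) h D.one : G → D.A) := IndS_one_s α h
  have h3 : (IndS_Y α').dg.d (IndS_sg (k := k) l D'.one : G → D'.A) = 0 := IndS_one_d α' l
  rw [h1, h2, tm_zero_left, zero_add]
  refine congrArg (fun w => tm (M := IndS_X α) (N := tb N (IndS_Y α'))
    (IndS_sg (k := k) h D.one) w) ?_
  refine (tb_d (M := N) (N := IndS_Y α') n _).trans ?_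
  rw [h3, tm_zero_right, add_zero]

private theorem IndS_t_ind {P : (indB α α' N).M → Prop} (h0 : P 0)
    (hadd : ∀ x y, P x → P y → P (x + y)) (h : ∀ x n y, P (IndS_t α α' N x n y))
    (v : (indB α α' N).M) : P v := by
  refine tb_ind (M := IndS_X α) (N := tb N (IndS_Y α')) h0 hadd (fun x w => ?_) v
  refine tb_ind (M := N) (N := IndS_Y α')
    (P := fun w => P (tm (M := IndS_X α) (N := tb N (IndS_Y α')) x w)) ?_ ?_ ?_ w
  · have h1 := tm_zero_right (M := IndS_X α) (N := tb N (IndS_Y α')) x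
    rw [h1]
    exact h0
  · intro w w' hw hw'
    have h1 := tm_add_right (M := IndS_X α) (N := tb N (IndS_Y α')) x w w'
    rw [h1]
    exact hadd _ _ hw hw'
  · intro n y
    exact h x n y

end tApi

/-- `n ↦ u_h ⊗ n ⊗ u_l` -/
private noncomputable def IndS_T (α : Act G D) (α' : Act G D') (N : Bim D D') (h l : G) :
    N.M →ₗ[k] (indB α α' N).M where
  toFun := fun n => IndS_t α α' N (IndS_sg (k := k) h D.one) n (IndS_sg (k := k) l D'.one)
  map_add' := fun n n' => IndS_t_add_m α α' N _ n n' _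
  map_smul' := fun c n => IndS_t_smul_m α α' N c _ n _

/-- the section -/
private noncomputable def IndS_iL : (G → N.M) →ₗ[k] (indB α α' N).M :=
  ((Fintype.card G : ℕ) : k)⁻¹ • ∑ g, ∑ h, (IndS_T α α' N h (h⁻¹ * g)).comp
    ((β.b h⁻¹).comp (LinearMap.proj g))

private theorem IndS_iL_apply (m : G → N.M) : IndS_iL β m = ((Fintype.card G : ℕ) : k)⁻¹ •
    ∑ g, ∑ h, IndS_t α α' N (IndS_sg (k := k) h D.one) (β.b h⁻¹ (m g))
      (IndS_sg (k := k) (h⁻¹ * g) D'.one) := by
  unfold IndS_iL
  rw [LinearMap.smul_apply, LinearMap.sum_apply]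
  congr 1
  refine Finset.sum_congr rfl fun g _ => ?_
  rw [LinearMap.sum_apply]
  rfl

private theorem IndS_iL_sg (g : G) (n : N.M) : IndS_iL β (IndS_sg (k := k) g n) =
    ((Fintype.card G : ℕ) : k)⁻¹ • ∑ h, IndS_t α α' N (IndS_sg (k := k) h D.one) (β.b h⁻¹ n)
      (IndS_sg (k := k) (h⁻¹ * g) D'.one) := by
  rw [IndS_iL_apply]
  congr 1
  rw [Finset.sum_eq_single g]
  · refine Finset.sum_congr rfl fun h _ => ?_
    rw [IndS_same]
  · intro j _ hj
    refine Finset.sum_eq_zero fun h _ => ?_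
    rw [IndS_ne hj, map_zero, IndS_t_zero_m]
  · intro hh
    exact absurd (Finset.mem_univ _) hh

private theorem IndS_iL_l (a : G → D.A) (m : G → N.M) :
    IndS_iL β ((crM β).l a m) = (indB α α' N).l a (IndS_iL β m) := by
  refine IndS_ext2 (k := k) ((crM β).l.compr₂ (IndS_iL β)) ((indB α α' N).l.compl₂ (IndS_iL β))
    (fun j x g n => ?_) a m
  change IndS_iL β ((crM β).l (IndS_sg (k := k) j x) (IndS_sg (k := k) g n : G → N.M)) =
    (indB α α' N).l (IndS_sg (k := k) j x) (IndS_iL β (IndS_sg (k := k) g n))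
  refine (congrArg (IndS_iL β) (IndS_l β j g x n)).trans ?_
  rw [IndS_iL_sg, IndS_iL_sg]
  refine Eq.trans ?_ (map_smul ((indB α α' N).l (IndS_sg (k := k) j x : G → D.A)) _ _).symm
  refine congrArg (fun z => ((Fintype.card G : ℕ) : k)⁻¹ • z) ?_
  refine Eq.trans ?_ (map_sum ((indB α α' N).l (IndS_sg (k := k) j x : G → D.A)) _ _).symm
  refine (Fintype.sum_equiv (Equiv.mulLeft j) _ _ fun h => ?_).symm
  refine (IndS_t_l α α' N _ _ _ _).trans ?_
  rw [IndS_mul, (α.a j).one, D.mul_one, Equiv.coe_mulLeft, β.b_l, ← β.b_mul]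
  refine Eq.trans ?_ (IndS_t_bal α α' N _ _ _ _)
  rw [IndS_crI, IndS_mul, D.one_mul, ← α.a_mul, mul_inv_cancel, α.a_one, mul_one]
  have e1 : (j * h)⁻¹ * j = h⁻¹ := by
    rw [mul_inv_rev, mul_assoc, inv_mul_cancel, mul_one]
  have e2 : (j * h)⁻¹ * (j * g) = h⁻¹ * g := by
    rw [mul_inv_rev, mul_assoc, inv_mul_cancel_left]
  rw [e1, e2]

private theorem IndS_iL_r (b : G → D'.A) (m : G → N.M) :
    IndS_iL β ((crM β).r b m) = (indB α α' N).r b (IndS_iL β m) := by
  refine IndS_ext2 (k := k) ((crM β).r.compr₂ (IndS_iL β)) ((indB α α' N).r.compl₂ (IndS_iL β))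
    (fun l y g n => ?_) b m
  change IndS_iL β ((crM β).r (IndS_sg (k := k) l y) (IndS_sg (k := k) g n : G → N.M)) =
    (indB α α' N).r (IndS_sg (k := k) l y) (IndS_iL β (IndS_sg (k := k) g n))
  refine (congrArg (IndS_iL β) (IndS_r β g l y n)).trans ?_
  rw [IndS_iL_sg, IndS_iL_sg]
  refine Eq.trans ?_ (map_smul ((indB α α' N).r (IndS_sg (k := k) l y : G → D'.A)) _ _).symm
  refine congrArg (fun z => ((Fintype.card G : ℕ) : k)⁻¹ • z) ?_
  refine Eq.trans ?_ (map_sum ((indB α α' N).r (IndS_sg (k := k) l y : G → D'.A)) _ _).symm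
  refine Finset.sum_congr rfl fun h _ => ?_
  rw [β.b_r]
  refine (IndS_t_bal' α α' N _ _ _ _).trans ?_
  refine Eq.trans ?_ (IndS_t_r α α' N _ _ _ _).symm
  rw [IndS_crI, IndS_mul, IndS_mul, D'.one_mul, α'.a_one, D'.mul_one, ← α'.a_mul, one_mul,
    mul_assoc]

private theorem IndS_sg_s (X : Dg k N.M) (h : G) (v : N.M) :
    (dgPi X G).s (IndS_sg (k := k) h v) = IndS_sg (k := k) h (X.s v) := by
  funext g
  rw [dgPi_s]
  by_cases hg : g = h
  · subst hg
    rw [IndS_same, IndS_same]
  · rw [IndS_ne hg, IndS_ne hg, map_zero]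

private noncomputable def IndS_i : GMap 0 (crM β) (indB α α' N) where
  f := IndS_iL β
  deg := fun {i m} hm => by
    rw [add_zero]
    have h1 := (dgPi_deg (X := N.dg) (Y := G)).1 hm
    have h2 := IndS_iL_apply β m
    refine (congrArg ((indB α α' N).dg.IsDeg i) h2).mpr ?_
    refine Dg.IsDeg.smul _ (IndS_sum_deg _ _ fun g => IndS_sum_deg _ _ fun h => ?_)
    exact IndS_t_deg α α' N (β.b_deg _ (h1 g)) _ _
  map_l := fun a m => by
    rw [Dg.sp_zero]
    exact IndS_iL_l β a m
  map_r := fun b m => IndS_iL_r β b m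

private theorem IndS_i_dd : (IndS_i β).dd = 0 := by
  refine LinearMap.ext fun m => ?_
  rw [GMap.dd_apply, sg_zero, one_smul, LinearMap.zero_apply, sub_eq_zero]
  change (indB α α' N).dg.d (IndS_iL β m) = IndS_iL β ((crM β).dg.d m)
  refine (congrArg (indB α α' N).dg.d (IndS_iL_apply β m)).trans ?_
  refine Eq.trans ?_ (IndS_iL_apply β ((crM β).dg.d m)).symm
  refine (map_smul _ _ _).trans ?_
  refine congrArg (fun z => ((Fintype.card G : ℕ) : k)⁻¹ • z) ?_
  refine (map_sum _ _ _).trans ?_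
  refine Finset.sum_congr rfl fun g _ => ?_
  refine (map_sum _ _ _).trans ?_
  refine Finset.sum_congr rfl fun h _ => ?_
  refine (IndS_t_d α α' N _ _ _).trans ?_
  exact congrArg (fun z => IndS_t α α' N (IndS_sg (k := k) h D.one) z
    (IndS_sg (k := k) (h⁻¹ * g) D'.one)) (β.b_d h⁻¹ (m g))

/-- `(n, y) ↦ x n y` -/
private noncomputable def IndS_B (x : G → D.A) : N.M →ₗ[k] (G → D'.A) →ₗ[k] (G → N.M) :=
  ((crM β).r.flip.comp ((crM β).l x)).comp (IndS_sg (k := k) (1 : G))

private theorem IndS_B_apply (x : G → D.A) (n : N.M) (y : G → D'.A) : IndS_B β x n y =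
    (crM β).r y ((crM β).l x (IndS_sg (k := k) (1 : G) n : G → N.M)) := rfl

private noncomputable def IndS_RI (x : G → D.A) : (tb N (IndS_Y α')).M →ₗ[k] (G → N.M) :=
  tlift (M := N) (N := IndS_Y α') (IndS_B β x) (fun n d y => by
    refine (IndS_B_apply β x _ y).trans ?_
    refine Eq.trans ?_ (IndS_B_apply β x n _).symm
    have h1 : (IndS_sg (k := k) (1 : G) (N.r d n) : G → N.M) =
        (crM β).r ((crI α').f d) (IndS_sg (k := k) (1 : G) n : G → N.M) := by
      rw [IndS_crI, IndS_r, α'.a_one, mul_one]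
    exact ((congrArg (fun z => (crM β).r y ((crM β).l x z)) h1).trans
      (congrArg ((crM β).r y) ((crM β).l_r x ((crI α').f d) _))).trans
      ((crM β).r_mul ((crI α').f d) y _).symm)

private theorem IndS_RI_tm (x : G → D.A) (n : N.M) (y : G → D'.A) :
    IndS_RI β x (tm (M := N) (N := IndS_Y α') n y) =
      (crM β).r y ((crM β).l x (IndS_sg (k := k) (1 : G) n : G → N.M)) :=
  tlift_tm (M := N) (N := IndS_Y α') _ _ n y

private noncomputable def IndS_RO : (G → D.A) →ₗ[k] (tb N (IndS_Y α')).M →ₗ[k] (G → N.M) where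
  toFun := fun x => IndS_RI β x
  map_add' := fun x x' => by
    refine tb_hom_ext (M := N) (N := IndS_Y α') fun n y => ?_
    refine (IndS_RI_tm β _ n y).trans ?_
    refine Eq.trans ?_ (congrArg₂ (· + ·) (IndS_RI_tm β x n y) (IndS_RI_tm β x' n y)).symm
    exact (congrArg ((crM β).r y) (LinearMap.map_add₂ (crM β).l x x' _)).trans
      (map_add ((crM β).r y) _ _)
  map_smul' := fun c x => by
    refine tb_hom_ext (M := N) (N := IndS_Y α') fun n y => ?_
    refine (IndS_RI_tm β _ n y).trans ?_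
    refine Eq.trans ?_ (congrArg (fun z => c • z) (IndS_RI_tm β x n y)).symm
    exact (congrArg ((crM β).r y) (LinearMap.map_smul₂ (crM β).l c x _)).trans
      (map_smul ((crM β).r y) _ _)

private noncomputable def IndS_rL : (indB α α' N).M →ₗ[k] (G → N.M) :=
  tlift (M := IndS_X α) (N := tb N (IndS_Y α')) (IndS_RO β) (fun x d w => by
    refine LinearMap.congr_fun (tb_hom_ext (M := N) (N := IndS_Y α')
      (f := IndS_RO β ((IndS_X α).r d x))
      (g := (IndS_RO β x).comp ((tb N (IndS_Y α')).l d)) fun n y => ?_) w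
    refine (IndS_RI_tm β _ n y).trans ?_
    have h0 : IndS_RO β x ((tb N (IndS_Y α')).l d (tm (M := N) (N := IndS_Y α') n y)) =
        (crM β).r y ((crM β).l x (IndS_sg (k := k) (1 : G) (N.l d n) : G → N.M)) :=
      (congrArg (IndS_RO β x) (tb_l (M := N) (N := IndS_Y α') d n y)).trans
        (IndS_RI_tm β x (N.l d n) y)
    refine Eq.trans ?_ h0.symm
    have h1 : (IndS_sg (k := k) (1 : G) (N.l d n) : G → N.M) =
        (crM β).l ((crI α).f d) (IndS_sg (k := k) (1 : G) n : G → N.M) := by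
      rw [IndS_crI, IndS_l, β.b_one, mul_one]
    exact (congrArg ((crM β).r y) ((crM β).l_mul x ((crI α).f d) _)).trans
      (congrArg (fun z => (crM β).r y ((crM β).l x z)) h1).symm)

private theorem IndS_rL_tm (x : G → D.A) (w : (tb N (IndS_Y α')).M) :
    IndS_rL β (tm (M := IndS_X α) (N := tb N (IndS_Y α')) x w) = IndS_RI β x w :=
  tlift_tm (M := IndS_X α) (N := tb N (IndS_Y α')) _ _ x w

private theorem IndS_rL_t (x : G → D.A) (n : N.M) (y : G → D'.A) :
    IndS_rL β (IndS_t α α' N x n y) =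
      (crM β).r y ((crM β).l x (IndS_sg (k := k) (1 : G) n : G → N.M)) :=
  (IndS_rL_tm β x _).trans (IndS_RI_tm β x n y)

private theorem IndS_t_ext {U : Type u} [AddCommGroup U] [Module k U]
    {F F' : (indB α α' N).M →ₗ[k] U}
    (h : ∀ x n y, F (IndS_t α α' N x n y) = F' (IndS_t α α' N x n y)) : F = F' :=
  LinearMap.ext (IndS_t_ind α α' N (by rw [map_zero, map_zero])
    (fun x y hx hy => by rw [map_add, map_add, hx, hy]) h)

private theorem IndS_rL_deg {i : ℤ} {v : (indB α α' N).M} (hv : (indB α α' N).dg.IsDeg i v) :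
    (crM β).dg.IsDeg (i + 0) (IndS_rL β v) := by
  refine tb_degMap (M := IndS_X α) (N := tb N (IndS_Y α')) (Z := (crM β).dg) (IndS_rL β)
    (fun {p q x w} hx hw => ?_) hv
  have h3 : (crM β).dg.IsDeg (q + p) (IndS_RI β x w) :=
    tb_degMap (M := N) (N := IndS_Y α') (Z := (crM β).dg) (IndS_RI β x)
      (fun {s t n y} hn hy => by
        have h4 : (crM β).dg.IsDeg s (IndS_sg (k := k) (1 : G) n : G → N.M) := IndS_sg_deg 1 hn
        have h5 : (crM β).dg.IsDeg (p + s + t) ((crM β).r y ((crM β).l x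
          (IndS_sg (k := k) (1 : G) n : G → N.M))) := (crM β).r_deg ((crM β).l_deg hx h4) hy
        have h6 : p + s + t = s + t + p := by ring
        rw [h6] at h5
        exact (congrArg ((crM β).dg.IsDeg (s + t + p)) (IndS_RI_tm β x n y)).mpr h5) hw
  have h4 : q + p = p + q + 0 := by ring
  rw [h4] at h3
  exact (congrArg ((crM β).dg.IsDeg (p + q + 0)) (IndS_rL_tm β x w)).mpr h3

private theorem IndS_rL_l (a : (cr α).A) (v : (indB α α' N).M) :
    IndS_rL β ((indB α α' N).l a v) = (crM β).l a (IndS_rL β v) := by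
  refine LinearMap.congr_fun (IndS_t_ext (F := (IndS_rL β).comp ((indB α α' N).l a))
    (F' := ((crM β).l a).comp (IndS_rL β)) fun x n y => ?_) v
  refine ((congrArg (IndS_rL β) (IndS_t_l α α' N a x n y)).trans (IndS_rL_t β _ n y)).trans ?_
  refine Eq.trans ?_ (congrArg ((crM β).l a) (IndS_rL_t β x n y)).symm
  exact (congrArg ((crM β).r y) ((crM β).l_mul a x _)).trans ((crM β).l_r a y _).symm

private theorem IndS_rL_r (b : (cr α').A) (v : (indB α α' N).M) :
    IndS_rL β ((indB α α' N).r b v) = (crM β).r b (IndS_rL β v) := by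
  refine LinearMap.congr_fun (IndS_t_ext (F := (IndS_rL β).comp ((indB α α' N).r b))
    (F' := ((crM β).r b).comp (IndS_rL β)) fun x n y => ?_) v
  refine ((congrArg (IndS_rL β) (IndS_t_r α α' N b x n y)).trans (IndS_rL_t β _ n _)).trans ?_
  refine Eq.trans ?_ (congrArg ((crM β).r b) (IndS_rL_t β x n y)).symm
  exact (crM β).r_mul y b _

private theorem IndS_rL_d (v : (indB α α' N).M) :
    (crM β).dg.d (IndS_rL β v) = IndS_rL β ((indB α α' N).dg.d v) := by
  refine LinearMap.congr_fun (IndS_t_ext (F := (crM β).dg.d.comp (IndS_rL β))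
    (F' := (IndS_rL β).comp (indB α α' N).dg.d) fun x n y => ?_) v
  have h1 : (indB α α' N).dg.d (IndS_t α α' N x n y) =
      IndS_t α α' N ((cr α).dg.d x) n y + (IndS_t α α' N ((cr α).dg.s x) (N.dg.d n) y +
        IndS_t α α' N ((cr α).dg.s x) (N.dg.s n) ((cr α').dg.d y)) := by
    refine (tb_d (M := IndS_X α) (N := tb N (IndS_Y α')) _ _).trans ?_
    refine congrArg (fun z => IndS_t α α' N ((cr α).dg.d x) n y + z) ?_
    exact (congrArg (fun w => tm (M := IndS_X α) (N := tb N (IndS_Y α')) ((cr α).dg.s x) w)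
      (tb_d (M := N) (N := IndS_Y α') n y)).trans
      (tm_add_right (M := IndS_X α) (N := tb N (IndS_Y α')) _ _ _)
  have h2 : IndS_rL β ((indB α α' N).dg.d (IndS_t α α' N x n y)) =
      (crM β).r y ((crM β).l ((cr α).dg.d x) (IndS_sg (k := k) (1 : G) n : G → N.M)) +
      ((crM β).r y ((crM β).l ((cr α).dg.s x) (IndS_sg (k := k) (1 : G) (N.dg.d n) : G → N.M)) +
      (crM β).r ((cr α').dg.d y) ((crM β).l ((cr α).dg.s x)
        (IndS_sg (k := k) (1 : G) (N.dg.s n) : G → N.M))) := by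
    refine (congrArg (IndS_rL β) h1).trans ?_
    refine (map_add (IndS_rL β) _ _).trans ?_
    refine congrArg₂ (· + ·) (IndS_rL_t β _ n y) ?_
    refine (map_add (IndS_rL β) _ _).trans ?_
    exact congrArg₂ (· + ·) (IndS_rL_t β _ _ y) (IndS_rL_t β _ _ _)
  refine Eq.trans ?_ h2.symm
  refine (congrArg (crM β).dg.d (IndS_rL_t β x n y)).trans ?_
  have h3 : (crM β).dg.d (IndS_sg (k := k) (1 : G) n : G → N.M) =
      (IndS_sg (k := k) (1 : G) (N.dg.d n) : G → N.M) := IndS_sg_d N.dg 1 n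
  have h4 : (crM β).dg.s (IndS_sg (k := k) (1 : G) n : G → N.M) =
      (IndS_sg (k := k) (1 : G) (N.dg.s n) : G → N.M) := IndS_sg_s N.dg 1 n
  refine ((crM β).d_r y _).trans ?_
  have h5 : (crM β).dg.d ((crM β).l x (IndS_sg (k := k) (1 : G) n : G → N.M)) =
      (crM β).l ((cr α).dg.d x) (IndS_sg (k := k) (1 : G) n : G → N.M) +
      (crM β).l ((cr α).dg.s x) (IndS_sg (k := k) (1 : G) (N.dg.d n) : G → N.M) :=
    ((crM β).d_l x _).trans (congrArg (fun z => (crM β).l ((cr α).dg.d x)
      (IndS_sg (k := k) (1 : G) n : G → N.M) + (crM β).l ((cr α).dg.s x) z) h3)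
  have h6 : (crM β).dg.s ((crM β).l x (IndS_sg (k := k) (1 : G) n : G → N.M)) =
      (crM β).l ((cr α).dg.s x) (IndS_sg (k := k) (1 : G) (N.dg.s n) : G → N.M) :=
    ((crM β).s_l x _).trans (congrArg ((crM β).l ((cr α).dg.s x)) h4)
  refine (congrArg₂ (fun z w => (crM β).r y z + (crM β).r ((cr α').dg.d y) w) h5 h6).trans ?_
  refine (congrArg (fun z => z + (crM β).r ((cr α').dg.d y) ((crM β).l ((cr α).dg.s x)
      (IndS_sg (k := k) (1 : G) (N.dg.s n) : G → N.M))) (map_add ((crM β).r y) _ _)).trans ?_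
  exact add_assoc _ _ _

private noncomputable def IndS_rM : GMap 0 (indB α α' N) (crM β) where
  f := IndS_rL β
  deg := fun hv => IndS_rL_deg β hv
  map_l := fun a v => by
    rw [Dg.sp_zero]
    exact IndS_rL_l β a v
  map_r := fun b v => IndS_rL_r β b v

private theorem IndS_rM_dd : (IndS_rM β).dd = 0 := by
  refine LinearMap.ext fun v => ?_
  rw [GMap.dd_apply, sg_zero, one_smul, LinearMap.zero_apply, sub_eq_zero]
  exact IndS_rL_d β v

/-- If `|G|` is invertible then `N ⋊ G` is a direct summand of `(D ⋊ G) ⊗_D N ⊗_D' (D' ⋊ G)`.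

Proof. Let `r` be the map `x ⊗ n ⊗ y ↦ x n y`, where `n ∈ N` is the family with value `n` at `1`,
and `i : n u_g ↦ (1 / |G|) ∑ h, u_h ⊗ β_{h⁻¹}(n) ⊗ u_{h⁻¹ g}`, that is `i(n) = (1 / |G|) ∑ g, ∑ h,
single h 1 ⊗ β_{h⁻¹}(n g) ⊗ single (h⁻¹ g) 1`. Then `r i = 1`; `i` is linear on both sides: for
`x = u_a` substitute `h = a h'`, for `x = d ∈ D` use `u_h α_{h⁻¹}(d) = d u_h`. Both maps are closed
of degree `0`. -/
theorem crM_summand {α : Act G D} {α' : Act G D'} {N : Bim D D'} (β : EqB α α' N)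
    (hG : ((Fintype.card G : ℕ) : k) ≠ 0) : IsSummand (crM β) (indB α α' N) := by
  refine ⟨IndS_i β, IndS_rM β, IndS_i_dd β, IndS_rM_dd β, fun m => ?_⟩
  change IndS_rL β (IndS_iL β m) = m
  refine (congrArg (IndS_rL β) (IndS_iL_apply β m)).trans ?_
  refine (map_smul (IndS_rL β) _ _).trans ?_
  refine (congrArg (fun z => ((Fintype.card G : ℕ) : k)⁻¹ • z)
    (map_sum (IndS_rL β) _ _)).trans ?_
  have h1 : ∀ g : G, IndS_rL β (∑ h, IndS_t α α' N (IndS_sg (k := k) h D.one) (β.b h⁻¹ (m g))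
      (IndS_sg (k := k) (h⁻¹ * g) D'.one)) =
      ((Fintype.card G : ℕ) : k) • (IndS_sg (k := k) g (m g) : G → N.M) := by
    intro g
    rw [map_sum]
    have h2 : ∀ h : G, IndS_rL β (IndS_t α α' N (IndS_sg (k := k) h D.one) (β.b h⁻¹ (m g))
      (IndS_sg (k := k) (h⁻¹ * g) D'.one)) = (IndS_sg (k := k) g (m g) : G → N.M) := by
      intro h
      rw [IndS_rL_t, IndS_l, IndS_r, mul_one, mul_inv_cancel_left, (α'.a h).one, N.l_one, N.r_one,
        ← β.b_mul, mul_inv_cancel, β.b_one]
    rw [Finset.sum_congr rfl fun h _ => h2 h, Finset.sum_const, Finset.card_univ,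
      Nat.cast_smul_eq_nsmul]
  rw [Finset.sum_congr rfl fun g _ => h1 g, ← Finset.smul_sum, smul_smul, inv_mul_cancel₀ hG,
    one_smul]
  exact IndS_dec m

theorem crM_perf {α : Act G D} {α' : Act G D'} {N : Bim D D'} (β : EqB α α' N)
    (hG : ((Fintype.card G : ℕ) : k) ≠ 0) (h : Perf N) : Perf (crM β) :=
  Perf.summand (crM_summand β hG) (indB_perf α α' h)

theorem crM_contr {α : Act G D} {α' : Act G D'} {N : Bim D D'} (β : EqB α α' N)
    (hG : ((Fintype.card G : ℕ) : k) ≠ 0) (h : Contr N) : Contr (crM β) :=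
  Contr.summand (crM_summand β hG) (indB_contr α α' h)

end Pool.Agent.MP_6e5bed_ag_SY
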