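import Mathlib

set_option autoImplicit false
set_option linter.unusedSectionVars false

/-!
# MP_6e5bed_ag (project SYM): groups whose order is invertible in the field
-/

namespace Pool.Agent.MP_6e5bed_ag_SY

open Equiv

universe u

/-- The order of the finite group (or set) `G` is invertible in `k`. -/
class InvG (k : Type u) [Field k] (G : Type) [Fintype G] : Prop where
  out : ((Fintype.card G : ℕ) : k) ≠ 0

variable {k : Type u} [Field k]

instance instInvGProd (G G' : Type) [Fintype G] [Fintype G'] [InvG k G] [InvG k G'] :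
    InvG k (G × G') where
  out := by
    rw [Fintype.card_prod, Nat.cast_mul]
    exact mul_ne_zero InvG.out InvG.out

theorem InvG.subgroup {G : Type} [Group G] [Fintype G] [InvG k G] (H : Subgroup G) [Fintype H] :
    ((Fintype.card H : ℕ) : k) ≠ 0 := by
  intro h
  have h1 : Fintype.card H ∣ Fintype.card G := by
    rw [← Nat.card_eq_fintype_card, ← Nat.card_eq_fintype_card]
    exact Subgroup.card_subgroup_dvd_card H
  obtain ⟨m, hm⟩ := h1
  apply InvG.out (k := k) (G := G)
  rw [hm, Nat.cast_mul, h, zero_mul]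

theorem InvG.of_factorial {n : ℕ} (h : ((n.factorial : ℕ) : k) ≠ 0) : InvG k (Perm (Fin n)) := by
  refine ⟨?_⟩
  rw [Fintype.card_perm, Fintype.card_fin]
  exact h

theorem InvG.factorial (n : ℕ) [InvG k (Perm (Fin n))] : ((n.factorial : ℕ) : k) ≠ 0 := by
  have h := InvG.out (k := k) (G := Perm (Fin n))
  rw [Fintype.card_perm, Fintype.card_fin] at h
  exact h

theorem InvG.perm_le {a n : ℕ} (h : a ≤ n) [InvG k (Perm (Fin n))] : InvG k (Perm (Fin a)) := by
  refine InvG.of_factorial fun h0 => ?_
  obtain ⟨m, hm⟩ := Nat.factorial_dvd_factorial h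
  apply InvG.factorial (k := k) n
  rw [hm, Nat.cast_mul, h0, zero_mul]

instance instInvGPerm [CharZero k] (n : ℕ) : InvG k (Perm (Fin n)) :=
  InvG.of_factorial (Nat.cast_ne_zero.2 (Nat.factorial_ne_zero n))

end Pool.Agent.MP_6e5bed_ag_SY
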