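import Pool.Agent.Lib.MP_6e5bed_ag_SY.Theta
import Pool.Agent.Lib.MP_6e5bed_ag_SY.TwC

set_option autoImplicit false
set_option linter.unusedSectionVars false

/-!
# MP_6e5bed_ag (project SYM): the operators given by virtual `G`-sets depend only on the character
-/

namespace Pool.Agent.MP_6e5bed_ag_SY

open Pool.Agent.MP_6e5bed_ag_NC
open CategoryTheory MonoidalCategory

universe u

variable {k : Type u} [Field k] {G : Type} [Group G] [Fintype G] {E F : SP k}

/-- The endomorphism `t` of `E` is a linear combination `∑ i, c i • TT Γ (Y i)` of the operators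
given by finite `G`-sets, and `χ = ∑ i, c i • (the character of Y i)`. -/
def IsVir (Γ : GrA G E.alg) (χ : G → ℚ) (t : E ⟶ E) : Prop :=
  ∃ (ι : Type) (_ : Fintype ι) (Y : ι → Type) (_ : ∀ i, Fintype (Y i))
    (_ : ∀ i, MulAction G (Y i)) (c : ι → ℚ), t = ∑ i, c i • TT Γ (Y i) ∧
      ∀ g, χ g = ∑ i, c i * (fxn (Y i) g : ℚ)

variable {Γ : GrA G E.alg} {χ ψ : G → ℚ} {t s : E ⟶ E}

theorem IsVir.set (Γ : GrA G E.alg) (Y : Type) [Fintype Y] [MulAction G Y] :
    IsVir Γ (fun g => (fxn Y g : ℚ)) (TT Γ Y) := by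
  refine ⟨Unit, inferInstance, fun _ => Y, fun _ => inferInstance, fun _ => inferInstance,
    fun _ => 1, ?_, fun g => ?_⟩
  · rw [Fintype.sum_unique, one_smul]
  · rw [Fintype.sum_unique, one_mul]

theorem IsVir.one (Γ : GrA G E.alg) : IsVir Γ (fun _ => 1) (𝟙 E) := by
  have h := IsVir.set Γ Unit
  rw [TT_unit] at h
  have h1 : (fun g : G => (fxn Unit g : ℚ)) = fun _ => 1 := by
    funext g
    have h2 : fxn Unit g = 1 := by
      unfold fxn
      rw [Nat.card_eq_one_iff_unique]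
      exact ⟨⟨fun a b => Subtype.ext rfl⟩, ⟨⟨(), rfl⟩⟩⟩
    rw [h2, Nat.cast_one]
  rwa [h1] at h

theorem IsVir.add (h : IsVir Γ χ t) (h' : IsVir Γ ψ s) :
    IsVir Γ (fun g => χ g + ψ g) (t + s) := by
  obtain ⟨ι, hι, Y, hY, hG, c, h1, h2⟩ := h
  obtain ⟨ι', hι', Y', hY', hG', c', h1', h2'⟩ := h'
  refine ⟨ι ⊕ ι', inferInstance, Sum.elim Y Y',
    fun i => match i with
      | .inl i => hY i
      | .inr i => hY' i,
    fun i => match i with
      | .inl i => hG i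
      | .inr i => hG' i,
    Sum.elim c c', ?_, fun g => ?_⟩
  · rw [Fintype.sum_sum_type, h1, h1']
    rfl
  · change χ g + ψ g = _
    rw [Fintype.sum_sum_type, h2, h2']
    rfl

theorem IsVir.smul (h : IsVir Γ χ t) (c : ℚ) : IsVir Γ (fun g => c * χ g) (c • t) := by
  obtain ⟨ι, hι, Y, hY, hG, d, h1, h2⟩ := h
  refine ⟨ι, hι, Y, hY, hG, fun i => c * d i, ?_, fun g => ?_⟩
  · rw [h1, Finset.smul_sum]
    exact Finset.sum_congr rfl fun i _ => smul_smul _ _ _
  · change c * χ g = _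
    rw [h2, Finset.mul_sum]
    exact Finset.sum_congr rfl fun i _ => (mul_assoc _ _ _).symm

theorem IsVir.sub (h : IsVir Γ χ t) (h' : IsVir Γ ψ s) :
    IsVir Γ (fun g => χ g - ψ g) (t - s) := by
  have h1 := h.add (h'.smul (-1))
  have h2 : t + (-1 : ℚ) • s = t - s := by
    rw [neg_smul, one_smul, sub_eq_add_neg]
  have h3 : (fun g => χ g + -1 * ψ g) = fun g => χ g - ψ g := by
    funext g
    ring
  rwa [h2, h3] at h1

private theorem vir_fxn_prod (Y Y' : Type) [MulAction G Y] [MulAction G Y'] (g : G) :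
    fxn (Y × Y') g = fxn Y g * fxn Y' g := by
  unfold fxn
  rw [← Nat.card_prod]
  refine Nat.card_congr
    { toFun := fun y => (⟨y.1.1, congrArg Prod.fst y.2⟩, ⟨y.1.2, congrArg Prod.snd y.2⟩)
      invFun := fun y => ⟨(y.1.1, y.2.1), Prod.ext y.1.2 y.2.2⟩
      left_inv := fun _ => rfl
      right_inv := fun _ => rfl }

/-- Proof. `TT_prod`; the fixed points on a product are the products of the fixed points. -/
theorem IsVir.mul (h : IsVir Γ χ t) (h' : IsVir Γ ψ s) :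
    IsVir Γ (fun g => χ g * ψ g) (t ≫ s) := by
  obtain ⟨ι, hι, Y, hY, hG, c, h1, h2⟩ := h
  obtain ⟨ι', hι', Y', hY', hG', c', h1', h2'⟩ := h'
  refine ⟨ι × ι', inferInstance, fun p => Y p.1 × Y' p.2, fun p => inferInstance,
    fun p => inferInstance, fun p => c p.1 * c' p.2, ?_, fun g => ?_⟩
  · rw [h1, h1', Preadditive.sum_comp, Fintype.sum_prod_type]
    refine Finset.sum_congr rfl fun i _ => ?_
    rw [Preadditive.comp_sum]
    refine Finset.sum_congr rfl fun j _ => ?_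
    rw [Linear.smul_comp, Linear.comp_smul, smul_smul, TT_prod]
  · change χ g * ψ g = _
    rw [h2, h2', Finset.sum_mul_sum, Fintype.sum_prod_type]
    refine Finset.sum_congr rfl fun i _ => Finset.sum_congr rfl fun j _ => ?_
    rw [vir_fxn_prod, Nat.cast_mul]
    ring

theorem TT_empty (Γ : GrA G E.alg) (Y : Type) [Fintype Y] [MulAction G Y] [IsEmpty Y] :
    TT Γ Y = 0 := by
  have h1 : TT Γ (Y ⊕ Y) = TT Γ Y := TT_equiv Γ (Y ⊕ Y) Y (Equiv.equivOfIsEmpty _ _)
    fun g y => isEmptyElim y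
  rw [TT_sum] at h1
  exact left_eq_add.1 h1.symm

private theorem vir_sigma_fin (Γ : GrA G E.alg) (n : ℕ) : ∀ (Y : Fin n → Type)
    [∀ i, Fintype (Y i)] [∀ i, MulAction G (Y i)],
    TT Γ (Σ i, Y i) = ∑ i, TT Γ (Y i) := by
  induction n with
  | zero =>
    intro Y _ _
    rw [TT_empty, Finset.univ_eq_empty, Finset.sum_empty]
  | succ n ih =>
    intro Y _ _
    rw [Fin.sum_univ_succ, ← ih fun i => Y i.succ, ← TT_sum]
    refine TT_equiv Γ _ _
      { toFun := fun y => Fin.cases (motive := fun i => Y i → Y 0 ⊕ Σ i : Fin n, Y i.succ)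
          (fun y => Sum.inl y) (fun i y => Sum.inr ⟨i, y⟩) y.1 y.2
        invFun := fun y => match y with
          | .inl y => ⟨0, y⟩
          | .inr y => ⟨y.1.succ, y.2⟩
        left_inv := ?_
        right_inv := ?_ } ?_
    · rintro ⟨i, y⟩
      refine Fin.cases ?_ (fun i => ?_) i y
      · intro y
        rfl
      · intro y
        rfl
    · rintro (y | ⟨i, y⟩)
      · rfl
      · rfl
    · rintro g ⟨i, y⟩
      refine Fin.cases ?_ (fun i => ?_) i y
      · intro y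
        rfl
      · intro y
        rfl

/-- Proof. Induction over finite types or over `Fin n`, with `TT_sum`, `TT_equiv`, `TT_empty`. -/
theorem TT_sigma (Γ : GrA G E.alg) {ι : Type} [Fintype ι] (Y : ι → Type) [∀ i, Fintype (Y i)]
    [∀ i, MulAction G (Y i)] : TT Γ (Σ i, Y i) = ∑ i, TT Γ (Y i) := by
  have e := (Fintype.equivFin ι).symm
  rw [← Equiv.sum_comp e fun i => TT Γ (Y i), ← vir_sigma_fin Γ _ fun i => Y (e i)]
  refine (TT_equiv Γ _ _ (Equiv.sigmaCongrLeft e) ?_).symm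
  rintro g ⟨i, y⟩
  rfl

theorem fxn_sigma {ι : Type} [Fintype ι] (Y : ι → Type) [∀ i, Fintype (Y i)]
    [∀ i, MulAction G (Y i)] (g : G) : fxn (Σ i, Y i) g = ∑ i, fxn (Y i) g := by
  unfold fxn
  rw [← Nat.card_sigma]
  refine Nat.card_congr
    { toFun := fun y => ⟨y.1.1, y.1.2, ?_⟩
      invFun := fun y => ⟨⟨y.1, y.2.1⟩, ?_⟩
      left_inv := fun _ => rfl
      right_inv := fun _ => rfl }
  · obtain ⟨⟨i, z⟩, hz⟩ := y
    exact eq_of_heq (Sigma.mk.inj hz).2
  · obtain ⟨i, z, hz⟩ := y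
    exact congrArg (Sigma.mk i) hz

private theorem vir_denom {ι : Type} [Fintype ι] (c : ι → ℚ) :
    ∃ N : ℕ, N ≠ 0 ∧ ∃ z : ι → ℤ, ∀ i, (N : ℚ) * c i = z i := by
  classical
  refine ⟨∏ i, (c i).den, Finset.prod_ne_zero_iff.2 fun i _ => (c i).den_nz, ?_⟩
  refine ⟨fun i => (∏ j ∈ Finset.univ.erase i, ((c j).den : ℤ)) * (c i).num, fun i => ?_⟩
  rw [← Finset.mul_prod_erase _ _ (Finset.mem_univ i)]
  push_cast
  have h := Rat.mul_den_eq_num (c i)
  rw [← h]
  ring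

private theorem vir_TT_mult (Γ : GrA G E.alg) {ι : Type} [Fintype ι] (Y : ι → Type)
    [∀ i, Fintype (Y i)] [∀ i, MulAction G (Y i)] (a : ι → ℕ) :
    TT Γ (Σ p : (Σ i, Fin (a i)), Y p.1) = ∑ i, (a i : ℚ) • TT Γ (Y i) := by
  rw [TT_sigma Γ fun p : (Σ i, Fin (a i)) => Y p.1, Fintype.sum_sigma]
  refine Finset.sum_congr rfl fun i _ => ?_
  change ∑ _x : Fin (a i), TT Γ (Y i) = _
  rw [Finset.sum_const, Finset.card_univ, Fintype.card_fin, Nat.cast_smul_eq_nsmul]

private theorem vir_fxn_mult {ι : Type} [Fintype ι] (Y : ι → Type)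
    [∀ i, Fintype (Y i)] [∀ i, MulAction G (Y i)] (a : ι → ℕ) (g : G) :
    (fxn (Σ p : (Σ i, Fin (a i)), Y p.1) g : ℚ) = ∑ i, (a i : ℚ) * (fxn (Y i) g : ℚ) := by
  rw [fxn_sigma (fun p : (Σ i, Fin (a i)) => Y p.1) g, Fintype.sum_sigma, Nat.cast_sum]
  refine Finset.sum_congr rfl fun i _ => ?_
  change ((∑ _x : Fin (a i), fxn (Y i) g : ℕ) : ℚ) = _
  rw [Finset.sum_const, Finset.card_univ, Fintype.card_fin, nsmul_eq_mul, Nat.cast_mul,
    Nat.cast_id]

/-- If the character vanishes on the elements with fixed points on `X` then the operator kills the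
`X`-graded bimodules.

Proof. Let `t = ∑ i, c i • TT Γ (Y i)`, and let `N > 0` be a common denominator, `N c i = a i - b i`
with natural numbers `a i`, `b i`. With `Y₊ = Σ p : (Σ i, Fin (a i)), Y p.1` and
`Y₋ = Σ p : (Σ i, Fin (b i)), Y p.1` one has `N • t = TT Γ Y₊ - TT Γ Y₋` (`TT_sigma`) and
`fxn Y₊ g - fxn Y₋ g = N χ g` (`fxn_sigma`). So `N • t ≫ cl M = cl (tws Γ Y₊ M) - cl (tws Γ Y₋ M)
= 0` by `TT_cl` and `tws_theta`. -/
theorem IsVir.kill [InvG k G] (h : IsVir Γ χ t) {X : Type} [Fintype X] [MulAction G X]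
    {M : Bim E.alg F.alg} (q : GrM Γ X M) (hM : M.dg.FinCoh)
    (hχ : ∀ (g : G) (x : X), g • x = x → χ g = 0) : t ≫ cl M = 0 := by
  obtain ⟨ι, hι, Y, hY, hG, c, h1, h2⟩ := h
  obtain ⟨N, hN, z, hz⟩ := vir_denom c
  have hz' : ∀ i, (N : ℚ) * c i = ((z i).toNat : ℚ) - ((-z i).toNat : ℚ) := by
    intro i
    rw [hz i]
    have h3 : z i = ((z i).toNat : ℤ) - ((-z i).toNat : ℤ) := by omega
    exact_mod_cast h3
  obtain ⟨a, ha⟩ : ∃ a : ι → ℕ, a = fun i => (z i).toNat := ⟨_, rfl⟩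
  obtain ⟨b, hb⟩ : ∃ b : ι → ℕ, b = fun i => (-z i).toNat := ⟨_, rfl⟩
  have hab : ∀ i, (N : ℚ) * c i = (a i : ℚ) - (b i : ℚ) := by
    intro i
    rw [hz' i, ha, hb]
  have hTT : (N : ℚ) • t = TT Γ (Σ p : (Σ i, Fin (a i)), Y p.1) -
      TT Γ (Σ p : (Σ i, Fin (b i)), Y p.1) := by
    rw [vir_TT_mult, vir_TT_mult, h1, Finset.smul_sum, ← Finset.sum_sub_distrib]
    refine Finset.sum_congr rfl fun i _ => ?_
    rw [smul_smul, hab i, sub_smul]
  have hfx : ∀ g : G, (fxn (Σ p : (Σ i, Fin (a i)), Y p.1) g : ℚ) -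
      (fxn (Σ p : (Σ i, Fin (b i)), Y p.1) g : ℚ) = N * χ g := by
    intro g
    rw [vir_fxn_mult, vir_fxn_mult, h2, Finset.mul_sum, ← Finset.sum_sub_distrib]
    refine Finset.sum_congr rfl fun i _ => ?_
    rw [← mul_assoc, hab i, sub_mul]
  have hiso : BIso (tws Γ (Σ p : (Σ i, Fin (a i)), Y p.1) M)
      (tws Γ (Σ p : (Σ i, Fin (b i)), Y p.1) M) := by
    refine tws_theta Γ q _ _ fun g x hx => ?_
    have h3 := hfx g
    rw [hχ g x hx, mul_zero, sub_eq_zero] at h3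
    exact_mod_cast h3
  have h4 : (N : ℚ) • (t ≫ cl M) = 0 := by
    rw [← Linear.smul_comp, hTT, Preadditive.sub_comp, TT_cl Γ _ hM, TT_cl Γ _ hM,
      cl_iso hiso, sub_self]
  rcases smul_eq_zero.1 h4 with h5 | h5
  · exact absurd h5 (Nat.cast_ne_zero.2 hN)
  · exact h5

/-- Proof. `IsVir.kill` for `X = Unit` and `M = diag E`, `q` the identity. -/
theorem IsVir.zero [InvG k G] (h : IsVir Γ χ t) (hχ : ∀ g, χ g = 0) : t = 0 := by
  have q : GrM Γ Unit (diag E.alg) :=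
    { q := fun _ => LinearMap.id
      q_same := fun _ _ => rfl
      q_ne := fun _ _ _ h => absurd rfl h
      sum_q := fun m => by rw [Fintype.sum_unique, LinearMap.id_apply]
      q_deg := fun _ _ _ h => h
      q_d := fun _ _ => rfl
      q_l := fun _ _ _ _ => rfl
      q_r := fun _ _ _ => rfl }
  have hM : (diag E.alg).dg.FinCoh := (proper_iff E.alg).1 E.proper
  have h1 := h.kill q hM fun g _ _ => hχ g
  rwa [cl_diag, Category.comp_id] at h1

theorem IsVir.congr [InvG k G] (h : IsVir Γ χ t) (h' : IsVir Γ ψ s) (hχ : ∀ g, χ g = ψ g) :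
    t = s := by
  refine sub_eq_zero.1 ((h.sub h').zero fun g => ?_)
  rw [hχ g, sub_self]

end Pool.Agent.MP_6e5bed_ag_SY
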