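import Pool.Agent.Lib.MP_6e5bed_ag_SY.PrG
import Pool.Agent.Lib.MP_6e5bed_ag_SY.Vir

set_option autoImplicit false
set_option linter.unusedSectionVars false

/-!
# MP_6e5bed_ag (project SYM): twists of tensor products
-/

namespace Pool.Agent.MP_6e5bed_ag_SY

open Pool.Agent.MP_6e5bed_ag_NC
open CategoryTheory MonoidalCategory
open scoped TensorProduct

universe u

/-- A `G`-set as a `G × G'`-set. -/
def FstS (_ : Type) (Y : Type) : Type := Y

/-- A `G'`-set as a `G × G'`-set. -/
def SndS (_ : Type) (Y : Type) : Type := Y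

instance (G' Y : Type) [Fintype Y] : Fintype (FstS G' Y) := inferInstanceAs (Fintype Y)

instance (G Y : Type) [Fintype Y] : Fintype (SndS G Y) := inferInstanceAs (Fintype Y)

instance (G G' Y : Type) [Group G] [Group G'] [MulAction G Y] : MulAction (G × G') (FstS G' Y) where
  smul := fun g (y : Y) => (g.1 • y : Y)
  one_smul := fun (y : Y) => one_smul G y
  mul_smul := fun g h (y : Y) => mul_smul g.1 h.1 y

instance (G G' Y : Type) [Group G] [Group G'] [MulAction G' Y] : MulAction (G × G') (SndS G Y) where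
  smul := fun g (y : Y) => (g.2 • y : Y)
  one_smul := fun (y : Y) => one_smul G' y
  mul_smul := fun g h (y : Y) => mul_smul g.2 h.2 y

section helpers

variable {k : Type u} [Field k] {G : Type} [Group G] [Fintype G] {E F : DGA k}

/-- The bimodule `P` is a twist of `M`. -/
private structure PrTIs (Γ : GrA G E) (Y : Type) [Fintype Y] [MulAction G Y]
    (M P : Bim E F) where
  pr : Y → P.M →ₗ[k] M.M
  io : Y → M.M →ₗ[k] P.M
  pr_same : ∀ y m, pr y (io y m) = m
  pr_ne : ∀ y z m, z ≠ y → pr y (io z m) = 0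
  sum_io : ∀ f, ∑ y, io y (pr y f) = f
  pr_deg : ∀ y {i : ℤ} {f : P.M}, P.dg.IsDeg i f → M.dg.IsDeg i (pr y f)
  io_deg : ∀ y {i : ℤ} {m : M.M}, M.dg.IsDeg i m → P.dg.IsDeg i (io y m)
  pr_l : ∀ y a f, pr y (P.l a f) = ∑ g, M.l (Γ.p g a) (pr (g⁻¹ • y) f)
  pr_r : ∀ y b f, pr y (P.r b f) = M.r b (pr y f)
  pr_d : ∀ y f, pr y (P.dg.d f) = M.dg.d (pr y f)

variable {Γ : GrA G E} {Y : Type} [Fintype Y] [MulAction G Y] {M P Q : Bim E F}

private theorem PrTIs.ext (hP : PrTIs Γ Y M P) {f f' : P.M} (h : ∀ y, hP.pr y f = hP.pr y f') :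
    f = f' := by
  rw [← hP.sum_io f, ← hP.sum_io f']
  exact Finset.sum_congr rfl fun y _ => by rw [h y]

private theorem PrTIs.pr_o (hP : PrTIs Γ Y M P) (y : Y) (f : P.M) :
    hP.pr y (P.dg.o f) = M.dg.o (hP.pr y f) :=
  (Dg.o_degMap_even (n := 0) Even.zero (hP.pr y) (fun h => by
    rw [add_zero]
    exact hP.pr_deg y h) f).symm

private theorem PrTIs.pr_s (hP : PrTIs Γ Y M P) (y : Y) (f : P.M) :
    hP.pr y (P.dg.s f) = M.dg.s (hP.pr y f) :=
  (Dg.s_degMap_even (n := 0) Even.zero (hP.pr y) (fun h => by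
    rw [add_zero]
    exact hP.pr_deg y h) f).symm

/-- The comparison of two twists. -/
private noncomputable def PrTcmp (hP : PrTIs Γ Y M P) (hQ : PrTIs Γ Y M Q) :
    P.M →ₗ[k] Q.M := ∑ y, (hQ.io y).comp (hP.pr y)

private theorem PrTcmp_pr (hP : PrTIs Γ Y M P) (hQ : PrTIs Γ Y M Q) (y : Y) (f : P.M) :
    hQ.pr y (PrTcmp hP hQ f) = hP.pr y f := by
  rw [PrTcmp, LinearMap.sum_apply, map_sum, Finset.sum_eq_single y]
  · exact hQ.pr_same y _
  · intro z _ hz
    exact hQ.pr_ne y z _ hz
  · intro h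
    exact absurd (Finset.mem_univ y) h

private theorem PrT_isDeg_sum {V : Type u} [AddCommGroup V] [Module k V] {X : Dg k V} {n : ℤ}
    (f : Y → V) (h : ∀ i, X.IsDeg n (f i)) : X.IsDeg n (∑ i, f i) := by
  classical
  exact Finset.sum_induction f (X.IsDeg n) (fun _ _ => Dg.IsDeg.add) (Dg.IsDeg.zero _)
    fun g _ => h g

/-- The comparison of two twists, as a graded map. -/
private noncomputable def PrTcg (hP : PrTIs Γ Y M P) (hQ : PrTIs Γ Y M Q) : GMap 0 P Q where
  f := PrTcmp hP hQ
  deg := fun {i f} hf => by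
    rw [add_zero, PrTcmp, LinearMap.sum_apply]
    exact PrT_isDeg_sum _ fun y => hQ.io_deg y (hP.pr_deg y hf)
  map_l := fun a f => by
    rw [Dg.sp_zero]
    refine hQ.ext fun y => ?_
    rw [PrTcmp_pr, hP.pr_l, hQ.pr_l]
    exact Finset.sum_congr rfl fun g _ => by rw [PrTcmp_pr]
  map_r := fun b f => by
    refine hQ.ext fun y => ?_
    rw [PrTcmp_pr, hP.pr_r, hQ.pr_r, PrTcmp_pr]

private theorem PrTcg_dd (hP : PrTIs Γ Y M P) (hQ : PrTIs Γ Y M Q) : (PrTcg hP hQ).dd = 0 := by
  refine LinearMap.ext fun f => ?_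
  rw [GMap.dd_apply, sg_zero, one_smul, LinearMap.zero_apply, sub_eq_zero]
  refine hQ.ext fun y => ?_
  change hQ.pr y (Q.dg.d (PrTcmp hP hQ f)) = hQ.pr y (PrTcmp hP hQ (P.dg.d f))
  rw [hQ.pr_d, PrTcmp_pr, PrTcmp_pr, hP.pr_d]

private theorem PrTIs.biso (hP : PrTIs Γ Y M P) (hQ : PrTIs Γ Y M Q) : BIso P Q := by
  refine ⟨PrTcg hP hQ, PrTcg hQ hP, PrTcg_dd hP hQ, fun f => ?_, fun f => ?_⟩
  · refine hP.ext fun y => ?_
    change hP.pr y (PrTcmp hQ hP (PrTcmp hP hQ f)) = _
    rw [PrTcmp_pr, PrTcmp_pr]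
  · refine hQ.ext fun y => ?_
    change hQ.pr y (PrTcmp hP hQ (PrTcmp hQ hP f)) = _
    rw [PrTcmp_pr, PrTcmp_pr]

/-- The twist is a twist. -/
private noncomputable def PrTtws (Γ : GrA G E) (Y : Type) [Fintype Y] [MulAction G Y]
    (M : Bim E F) : PrTIs Γ Y M (tws Γ Y M) := by
  classical
  exact {
    pr := fun y => LinearMap.proj (R := k) (φ := fun _ : Y => M.M) y
    io := fun y => LinearMap.single k (fun _ : Y => M.M) y
    pr_same := fun y m => Pi.single_eq_same (M := fun _ : Y => M.M) y m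
    pr_ne := fun y z m hz => Pi.single_eq_of_ne (M := fun _ : Y => M.M) (Ne.symm hz) m
    sum_io := fun f => Finset.univ_sum_single (M := fun _ : Y => M.M) f
    pr_deg := fun y {i f} hf => dgPi_deg.1 hf y
    io_deg := fun y {i m} hm => by
      refine dgPi_deg.2 fun z => ?_
      change M.dg.IsDeg i ((Pi.single y m : Y → M.M) z)
      by_cases hz : z = y
      · subst hz
        rw [Pi.single_eq_same]
        exact hm
      · rw [Pi.single_eq_of_ne hz]
        exact Dg.IsDeg.zero i
    pr_l := fun y a f => tws_l Γ Y M a f y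
    pr_r := fun y b f => rfl
    pr_d := fun y f => rfl }

end helpers

section box

variable {k : Type u} [Field k] {G G' : Type} [Group G] [Fintype G] [Group G'] [Fintype G']
  {E E' F F' : DGA k} {Y : Type} [Fintype Y]

private theorem PrT_bl [MulAction G Y] {Γ : GrA G E} {M P : Bim E F} (hP : PrTIs Γ Y M P)
    (M' : Bim E' F') (y : Y) (a : E.A ⊗[k] E'.A) (v : P.M ⊗[k] M'.M) :
    TensorProduct.map (hP.pr y) LinearMap.id (kz P.dg E'.dg P.l M'.l a v) =
      ∑ g, kz M.dg E'.dg M.l M'.l (TensorProduct.map (Γ.p g) LinearMap.id a)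
        (TensorProduct.map (hP.pr (g⁻¹ • y)) LinearMap.id v) := by
  induction a using TensorProduct.induction_on with
  | zero => simp
  | add a a' ha ha' =>
    rw [map_add, LinearMap.add_apply, map_add, ha, ha', ← Finset.sum_add_distrib]
    refine Finset.sum_congr rfl fun g _ => ?_
    rw [map_add, map_add, LinearMap.add_apply]
  | tmul e e' =>
    induction v using TensorProduct.induction_on with
    | zero => simp
    | add v v' hv hv' =>
      rw [map_add, map_add, hv, hv', ← Finset.sum_add_distrib]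
      refine Finset.sum_congr rfl fun g _ => ?_
      rw [map_add, map_add]
    | tmul f m =>
      rw [kz_tmul, map_sub, map_smul, TensorProduct.map_tmul, TensorProduct.map_tmul, hP.pr_l,
        hP.pr_l, TensorProduct.sum_tmul, TensorProduct.sum_tmul, Finset.smul_sum,
        ← Finset.sum_sub_distrib]
      refine Finset.sum_congr rfl fun g _ => ?_
      rw [TensorProduct.map_tmul, TensorProduct.map_tmul, kz_tmul, hP.pr_o, LinearMap.id_apply,
        LinearMap.id_apply, LinearMap.id_apply, LinearMap.id_apply]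

private theorem PrT_br [MulAction G Y] {Γ : GrA G E} {M P : Bim E F} (hP : PrTIs Γ Y M P)
    (M' : Bim E' F') (y : Y) (v : P.M ⊗[k] M'.M) (b : F.A ⊗[k] F'.A) :
    TensorProduct.map (hP.pr y) LinearMap.id (kz F.dg M'.dg P.rr M'.rr v b) =
      kz F.dg M'.dg M.rr M'.rr (TensorProduct.map (hP.pr y) LinearMap.id v) b := by
  induction v using TensorProduct.induction_on with
  | zero => simp
  | add v v' hv hv' =>
    rw [map_add, LinearMap.add_apply, map_add, hv, hv', map_add, map_add, LinearMap.add_apply]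
  | tmul f m =>
    induction b using TensorProduct.induction_on with
    | zero => simp
    | add b b' hb hb' => rw [map_add, map_add, hb, hb', map_add]
    | tmul b b' =>
      rw [kz_tmul, map_sub, map_smul, TensorProduct.map_tmul, TensorProduct.map_tmul,
        TensorProduct.map_tmul, kz_tmul, Bim.rr_apply, Bim.rr_apply, Bim.rr_apply,
        Bim.rr_apply, hP.pr_r, hP.pr_r]
      rfl

private theorem PrT_bd [MulAction G Y] {Γ : GrA G E} {M P : Bim E F} (hP : PrTIs Γ Y M P)
    (M' : Bim E' F') (y : Y) (v : P.M ⊗[k] M'.M) :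
    TensorProduct.map (hP.pr y) LinearMap.id ((P.dg.tensor M'.dg).d v) =
      (M.dg.tensor M'.dg).d (TensorProduct.map (hP.pr y) LinearMap.id v) := by
  induction v using TensorProduct.induction_on with
  | zero => simp
  | add v v' hv hv' => rw [map_add, map_add, hv, hv', map_add, map_add]
  | tmul f m =>
    rw [Dg.tensor_d, map_add, TensorProduct.map_tmul, TensorProduct.map_tmul,
      TensorProduct.map_tmul, Dg.tensor_d, hP.pr_d, hP.pr_s]
    rfl

private theorem PrT_map_deg {V V' W W' : Type u} [AddCommGroup V] [Module k V]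
    [AddCommGroup V'] [Module k V'] [AddCommGroup W] [Module k W] [AddCommGroup W'] [Module k W']
    {X : Dg k V} {X' : Dg k V'} {Z : Dg k W} {Z' : Dg k W'} (f : V →ₗ[k] V') (g : W →ₗ[k] W')
    (hf : ∀ {i : ℤ} {v : V}, X.IsDeg i v → X'.IsDeg i (f v))
    (hg : ∀ {i : ℤ} {v : W}, Z.IsDeg i v → Z'.IsDeg i (g v)) {i : ℤ} {v : V ⊗[k] W}
    (hv : (X.tensor Z).IsDeg i v) : (X'.tensor Z').IsDeg i (TensorProduct.map f g v) := by
  have h := Dg.tensor_degMap (X := X) (Y := Z) (Z := X'.tensor Z') (n := 0)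
    (TensorProduct.map f g) (fun i j v w hv hw => by
      rw [add_zero, TensorProduct.map_tmul]
      exact Dg.tensor_deg (hf hv) (hg hw)) hv
  rwa [add_zero] at h

/-- The external tensor product with a twist in the first variable. -/
private noncomputable def PrTfst [MulAction G Y] {Γ : GrA G E} {M P : Bim E F}
    (hP : PrTIs Γ Y M P) (M' : Bim E' F') : PrTIs (Γ.fst E') Y (box M M') (box P M') where
  pr := fun y => TensorProduct.map (hP.pr y) LinearMap.id
  io := fun y => TensorProduct.map (hP.io y) LinearMap.id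
  pr_same := fun y (m : M.M ⊗[k] M'.M) => by
    change TensorProduct.map (hP.pr y) LinearMap.id
      (TensorProduct.map (hP.io y) LinearMap.id m) = m
    induction m using TensorProduct.induction_on with
    | zero => simp
    | add m m' h h' => rw [map_add, map_add, h, h']
    | tmul m m' =>
      rw [TensorProduct.map_tmul, TensorProduct.map_tmul, hP.pr_same]
      rfl
  pr_ne := fun y z (m : M.M ⊗[k] M'.M) hz => by
    change TensorProduct.map (hP.pr y) LinearMap.id
      (TensorProduct.map (hP.io z) LinearMap.id m) = 0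
    induction m using TensorProduct.induction_on with
    | zero => simp
    | add m m' h h' => rw [map_add, map_add, h, h', add_zero]
    | tmul m m' =>
      rw [TensorProduct.map_tmul, TensorProduct.map_tmul, hP.pr_ne y z m hz,
        TensorProduct.zero_tmul]
  sum_io := fun (f : P.M ⊗[k] M'.M) => by
    change ∑ y, TensorProduct.map (hP.io y) LinearMap.id
      (TensorProduct.map (hP.pr y) LinearMap.id f) = f
    induction f using TensorProduct.induction_on with
    | zero => simp
    | add m m' h h' =>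
      conv_rhs => rw [← h, ← h']
      rw [← Finset.sum_add_distrib]
      exact Finset.sum_congr rfl fun y _ => by rw [map_add, map_add]
    | tmul m m' =>
      have h1 : ∀ y, TensorProduct.map (hP.io y) LinearMap.id
          (TensorProduct.map (hP.pr y) LinearMap.id (m ⊗ₜ[k] m')) =
          hP.io y (hP.pr y m) ⊗ₜ[k] m' := fun y => by
        rw [TensorProduct.map_tmul, TensorProduct.map_tmul]
        rfl
      rw [Finset.sum_congr rfl fun y _ => h1 y, ← TensorProduct.sum_tmul, hP.sum_io]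
  pr_deg := fun y {i f} hf => PrT_map_deg (hP.pr y) LinearMap.id (fun h => hP.pr_deg y h)
    (fun h => h) hf
  io_deg := fun y {i f} hf => PrT_map_deg (hP.io y) LinearMap.id (fun h => hP.io_deg y h)
    (fun h => h) hf
  pr_l := fun y a f => PrT_bl hP M' y a f
  pr_r := fun y b f => PrT_br hP M' y f b
  pr_d := fun y f => PrT_bd hP M' y f

private theorem PrT_cl [MulAction G' Y] {Δ : GrA G' E'} {M' P' : Bim E' F'}
    (hP : PrTIs Δ Y M' P') (M : Bim E F) (y : Y) (a : E.A ⊗[k] E'.A) (v : M.M ⊗[k] P'.M) :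
    TensorProduct.map LinearMap.id (hP.pr y) (kz M.dg E'.dg M.l P'.l a v) =
      ∑ g, kz M.dg E'.dg M.l M'.l (TensorProduct.map LinearMap.id (Δ.p g) a)
        (TensorProduct.map LinearMap.id (hP.pr (g⁻¹ • y)) v) := by
  induction a using TensorProduct.induction_on with
  | zero => simp
  | add a a' ha ha' =>
    rw [map_add, LinearMap.add_apply, map_add, ha, ha', ← Finset.sum_add_distrib]
    refine Finset.sum_congr rfl fun g _ => ?_
    rw [map_add, map_add, LinearMap.add_apply]
  | tmul e e' =>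
    induction v using TensorProduct.induction_on with
    | zero => simp
    | add v v' hv hv' =>
      rw [map_add, map_add, hv, hv', ← Finset.sum_add_distrib]
      refine Finset.sum_congr rfl fun g _ => ?_
      rw [map_add, map_add]
    | tmul m f =>
      have h2 : ∀ g, Δ.p g (E'.dg.o e') = E'.dg.o (Δ.p g e') := fun g =>
        (Dg.o_degMap_even (n := 0) Even.zero (Δ.p g) (fun h => by
          rw [add_zero]
          exact Δ.p_deg g h) e').symm
      rw [kz_tmul, map_sub, map_smul, TensorProduct.map_tmul, TensorProduct.map_tmul, hP.pr_l,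
        hP.pr_l, TensorProduct.tmul_sum, TensorProduct.tmul_sum, Finset.smul_sum,
        ← Finset.sum_sub_distrib]
      refine Finset.sum_congr rfl fun g _ => ?_
      rw [TensorProduct.map_tmul, TensorProduct.map_tmul, kz_tmul, h2, LinearMap.id_apply,
        LinearMap.id_apply, LinearMap.id_apply, LinearMap.id_apply]

private theorem PrT_cr [MulAction G' Y] {Δ : GrA G' E'} {M' P' : Bim E' F'}
    (hP : PrTIs Δ Y M' P') (M : Bim E F) (y : Y) (v : M.M ⊗[k] P'.M) (b : F.A ⊗[k] F'.A) :
    TensorProduct.map LinearMap.id (hP.pr y) (kz F.dg P'.dg M.rr P'.rr v b) =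
      kz F.dg M'.dg M.rr M'.rr (TensorProduct.map LinearMap.id (hP.pr y) v) b := by
  induction v using TensorProduct.induction_on with
  | zero => simp
  | add v v' hv hv' =>
    rw [map_add, LinearMap.add_apply, map_add, hv, hv', map_add, map_add, LinearMap.add_apply]
  | tmul m f =>
    induction b using TensorProduct.induction_on with
    | zero => simp
    | add b b' hb hb' => rw [map_add, map_add, hb, hb', map_add]
    | tmul b b' =>
      rw [kz_tmul, map_sub, map_smul, TensorProduct.map_tmul, TensorProduct.map_tmul,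
        TensorProduct.map_tmul, kz_tmul, Bim.rr_apply, Bim.rr_apply, Bim.rr_apply,
        Bim.rr_apply, hP.pr_r, hP.pr_r, hP.pr_o]
      rfl

private theorem PrT_cd [MulAction G' Y] {Δ : GrA G' E'} {M' P' : Bim E' F'}
    (hP : PrTIs Δ Y M' P') (M : Bim E F) (y : Y) (v : M.M ⊗[k] P'.M) :
    TensorProduct.map LinearMap.id (hP.pr y) ((M.dg.tensor P'.dg).d v) =
      (M.dg.tensor M'.dg).d (TensorProduct.map LinearMap.id (hP.pr y) v) := by
  induction v using TensorProduct.induction_on with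
  | zero => simp
  | add v v' hv hv' => rw [map_add, map_add, hv, hv', map_add, map_add]
  | tmul m f =>
    rw [Dg.tensor_d, map_add, TensorProduct.map_tmul, TensorProduct.map_tmul,
      TensorProduct.map_tmul, Dg.tensor_d, hP.pr_d]
    rfl

/-- The external tensor product with a twist in the second variable. -/
private noncomputable def PrTsnd [MulAction G' Y] {Δ : GrA G' E'} {M' P' : Bim E' F'}
    (hP : PrTIs Δ Y M' P') (M : Bim E F) :
    PrTIs (GrA.snd E Δ) Y (box M M') (box M P') where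
  pr := fun y => TensorProduct.map LinearMap.id (hP.pr y)
  io := fun y => TensorProduct.map LinearMap.id (hP.io y)
  pr_same := fun y (m : M.M ⊗[k] M'.M) => by
    change TensorProduct.map LinearMap.id (hP.pr y)
      (TensorProduct.map LinearMap.id (hP.io y) m) = m
    induction m using TensorProduct.induction_on with
    | zero => simp
    | add m m' h h' => rw [map_add, map_add, h, h']
    | tmul m m' =>
      rw [TensorProduct.map_tmul, TensorProduct.map_tmul, hP.pr_same]
      rfl
  pr_ne := fun y z (m : M.M ⊗[k] M'.M) hz => by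
    change TensorProduct.map LinearMap.id (hP.pr y)
      (TensorProduct.map LinearMap.id (hP.io z) m) = 0
    induction m using TensorProduct.induction_on with
    | zero => simp
    | add m m' h h' => rw [map_add, map_add, h, h', add_zero]
    | tmul m m' =>
      rw [TensorProduct.map_tmul, TensorProduct.map_tmul, hP.pr_ne y z m' hz,
        TensorProduct.tmul_zero]
  sum_io := fun (f : M.M ⊗[k] P'.M) => by
    change ∑ y, TensorProduct.map LinearMap.id (hP.io y)
      (TensorProduct.map LinearMap.id (hP.pr y) f) = f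
    induction f using TensorProduct.induction_on with
    | zero => simp
    | add m m' h h' =>
      conv_rhs => rw [← h, ← h']
      rw [← Finset.sum_add_distrib]
      exact Finset.sum_congr rfl fun y _ => by rw [map_add, map_add]
    | tmul m m' =>
      have h1 : ∀ y, TensorProduct.map LinearMap.id (hP.io y)
          (TensorProduct.map LinearMap.id (hP.pr y) (m ⊗ₜ[k] m')) =
          m ⊗ₜ[k] hP.io y (hP.pr y m') := fun y => by
        rw [TensorProduct.map_tmul, TensorProduct.map_tmul]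
        rfl
      rw [Finset.sum_congr rfl fun y _ => h1 y, ← TensorProduct.tmul_sum, hP.sum_io]
  pr_deg := fun y {i f} hf => PrT_map_deg LinearMap.id (hP.pr y) (fun h => h)
    (fun h => hP.pr_deg y h) hf
  io_deg := fun y {i f} hf => PrT_map_deg LinearMap.id (hP.io y) (fun h => h)
    (fun h => hP.io_deg y h) hf
  pr_l := fun y a f => PrT_cl hP M y a f
  pr_r := fun y b f => PrT_cr hP M y f b
  pr_d := fun y f => PrT_cd hP M y f

private theorem PrT_sum_fst {k : Type u} [Field k] {V W : Type u} [AddCommGroup V] [Module k V]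
    [AddCommGroup W] [Module k W] {p : V →ₗ[k] V} {q : G' → W →ₗ[k] W}
    (hq : ∀ x, ∑ h, q h x = x) (a : V ⊗[k] W) :
    ∑ h, TensorProduct.map p (q h) a = TensorProduct.map p LinearMap.id a := by
  induction a using TensorProduct.induction_on with
  | zero => simp
  | add a a' ha ha' =>
    rw [map_add, ← ha, ← ha', ← Finset.sum_add_distrib]
    exact Finset.sum_congr rfl fun h _ => map_add _ _ _
  | tmul e e' =>
    rw [TensorProduct.map_tmul, Finset.sum_congr rfl fun h _ => TensorProduct.map_tmul p (q h) e e',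
      ← TensorProduct.tmul_sum, hq]
    rfl

private theorem PrT_sum_snd {k : Type u} [Field k] {V W : Type u} [AddCommGroup V] [Module k V]
    [AddCommGroup W] [Module k W] {q : W →ₗ[k] W} {p : G → V →ₗ[k] V}
    (hp : ∀ x, ∑ h, p h x = x) (a : V ⊗[k] W) :
    ∑ h, TensorProduct.map (p h) q a = TensorProduct.map LinearMap.id q a := by
  induction a using TensorProduct.induction_on with
  | zero => simp
  | add a a' ha ha' =>
    rw [map_add, ← ha, ← ha', ← Finset.sum_add_distrib]
    exact Finset.sum_congr rfl fun h _ => map_add _ _ _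
  | tmul e e' =>
    rw [TensorProduct.map_tmul, Finset.sum_congr rfl fun h _ => TensorProduct.map_tmul (p h) q e e',
      ← TensorProduct.sum_tmul, hp]
    rfl

end box

section alg

variable {k : Type u} [Field k] {G G' : Type} [Group G] [Fintype G] [Group G'] [Fintype G']
  {E E' F F' : DGA k}

private theorem PrT_sm (g : G) (h : G') {Y : Type} [MulAction G Y] (y : Y) :
    (g, h)⁻¹ • (show FstS G' Y from y) = (show FstS G' Y from (g⁻¹ • y : Y)) := rfl

private theorem PrT_sm' (g : G) (h : G') {Y : Type} [MulAction G' Y] (y : Y) :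
    (g, h)⁻¹ • (show SndS G Y from y) = (show SndS G Y from (h⁻¹ • y : Y)) := rfl

private theorem PrT_lfst {Γ : GrA G E} {Δ : GrA G' E'} {Y : Type} [Fintype Y]
    [MulAction G Y] {M P : Bim (E.tensor E') F} (hP : PrTIs (Γ.prod Δ) (FstS G' Y) M P)
    (y : Y) (a : (E.tensor E').A) (f : P.M) :
    hP.pr (show FstS G' Y from y) (P.l a f) = ∑ g, M.l ((Γ.fst E').p g a)
      (hP.pr (show FstS G' Y from (g⁻¹ • y : Y)) f) := by
  refine (hP.pr_l _ a f).trans ?_
  rw [Fintype.sum_prod_type]
  refine Finset.sum_congr rfl fun g _ => ?_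
  have h1 : ∑ h, (Γ.prod Δ).p (g, h) a = (Γ.fst E').p g a :=
    PrT_sum_fst (V := E.A) (W := E'.A) (p := Γ.p g) (q := Δ.p) Δ.sum_p a
  refine (Finset.sum_congr rfl fun h _ => by rw [PrT_sm]).trans ?_
  rw [← LinearMap.sum_apply, ← map_sum, h1]

private theorem PrT_lsnd {Γ : GrA G E} {Δ : GrA G' E'} {Y : Type} [Fintype Y]
    [MulAction G' Y] {M P : Bim (E.tensor E') F} (hP : PrTIs (Γ.prod Δ) (SndS G Y) M P)
    (y : Y) (a : (E.tensor E').A) (f : P.M) :
    hP.pr (show SndS G Y from y) (P.l a f) = ∑ g, M.l ((GrA.snd E Δ).p g a)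
      (hP.pr (show SndS G Y from (g⁻¹ • y : Y)) f) := by
  refine (hP.pr_l _ a f).trans ?_
  rw [Fintype.sum_prod_type, Finset.sum_comm]
  refine Finset.sum_congr rfl fun h _ => ?_
  have h1 : ∑ g, (Γ.prod Δ).p (g, h) a = (GrA.snd E Δ).p h a :=
    PrT_sum_snd (V := E.A) (W := E'.A) (p := Γ.p) (q := Δ.p h) Γ.sum_p a
  refine (Finset.sum_congr rfl fun g _ => by rw [PrT_sm']).trans ?_
  rw [← LinearMap.sum_apply, ← map_sum, h1]

private noncomputable def PrTfS {Γ : GrA G E} {Δ : GrA G' E'} {Y : Type} [Fintype Y]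
    [MulAction G Y] {M P : Bim (E.tensor E') F} (hP : PrTIs (Γ.prod Δ) (FstS G' Y) M P) :
    PrTIs (Γ.fst E') Y M P where
  pr := fun y => hP.pr y
  io := fun y => hP.io y
  pr_same := fun y m => hP.pr_same y m
  pr_ne := fun y z m hz => hP.pr_ne y z m hz
  sum_io := fun f => hP.sum_io f
  pr_deg := fun y {_ _} hf => hP.pr_deg y hf
  io_deg := fun y {_ _} hf => hP.io_deg y hf
  pr_l := fun y a f => PrT_lfst hP y a f
  pr_r := fun y b f => hP.pr_r y b f
  pr_d := fun y f => hP.pr_d y f

private noncomputable def PrTsS {Γ : GrA G E} {Δ : GrA G' E'} {Y : Type} [Fintype Y]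
    [MulAction G' Y] {M P : Bim (E.tensor E') F} (hP : PrTIs (Γ.prod Δ) (SndS G Y) M P) :
    PrTIs (GrA.snd E Δ) Y M P where
  pr := fun y => hP.pr y
  io := fun y => hP.io y
  pr_same := fun y m => hP.pr_same y m
  pr_ne := fun y z m hz => hP.pr_ne y z m hz
  sum_io := fun f => hP.sum_io f
  pr_deg := fun y {_ _} hf => hP.pr_deg y hf
  io_deg := fun y {_ _} hf => hP.io_deg y hf
  pr_l := fun y a f => PrT_lsnd hP y a f
  pr_r := fun y b f => hP.pr_r y b f
  pr_d := fun y f => hP.pr_d y f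


/-- Proof. The maps `(Y → M) ⊗ M' ≅ (Y → M ⊗ M')`, `f ⊗ m ↦ (y ↦ f y ⊗ m)`. -/
theorem tws_fst (Γ : GrA G E) (Y : Type) [Fintype Y] [MulAction G Y] (M : Bim E F)
    (M' : Bim E' F') : BIso (tws (Γ.fst E') Y (box M M')) (box (tws Γ Y M) M') :=
  (PrTtws (Γ.fst E') Y (box M M')).biso (PrTfst (PrTtws Γ Y M) M')

theorem tws_snd (Δ : GrA G' E') (Y : Type) [Fintype Y] [MulAction G' Y] (M : Bim E F)
    (M' : Bim E' F') : BIso (tws (GrA.snd E Δ) Y (box M M')) (box M (tws Δ Y M')) :=
  (PrTtws (GrA.snd E Δ) Y (box M M')).biso (PrTsnd (PrTtws Δ Y M') M)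

/-- Proof. The actions are the same: `∑ (g, h), (p g ⊗ p h) e f(g⁻¹ y) = ∑ g, (p g ⊗ 1) e f(g⁻¹ y)`;
the identity map is an isomorphism. -/
theorem tws_fstS (Γ : GrA G E) (Δ : GrA G' E') (Y : Type) [Fintype Y] [MulAction G Y]
    (M : Bim (E.tensor E') F) :
    BIso (tws (Γ.prod Δ) (FstS G' Y) M) (tws (Γ.fst E') Y M) := by
  exact (PrTfS (PrTtws (Γ.prod Δ) (FstS G' Y) M)).biso (PrTtws (Γ.fst E') Y M)

theorem tws_sndS (Γ : GrA G E) (Δ : GrA G' E') (Y : Type) [Fintype Y] [MulAction G' Y]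
    (M : Bim (E.tensor E') F) :
    BIso (tws (Γ.prod Δ) (SndS G Y) M) (tws (GrA.snd E Δ) Y M) := by
  exact (PrTsS (PrTtws (Γ.prod Δ) (SndS G Y) M)).biso (PrTtws (GrA.snd E Δ) Y M)

end alg

variable {k : Type u} [Field k] {G G' : Type} [Group G] [Fintype G] [Group G'] [Fintype G']
  {E E' : SP k}

private theorem PrT_fin (E : SP k) : (diag E.alg).dg.FinCoh := (proper_iff E.alg).1 E.proper

/-- Proof. `tws_fst` for `M = diag E`, `M' = diag E'`, `cl_box`, `cl_diag` (`box (diag E) (diag E')`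
is isomorphic to `diag (E ⊗ E')`, `box_diag` in `NC/SmProp.lean`). -/
theorem TT_fst (Γ : GrA G E.alg) (Y : Type) [Fintype Y] [MulAction G Y] :
    TT (E := E ⊗ E') (Γ.fst E'.alg) Y = TT Γ Y ⊗ₘ 𝟙 E' := by
  have h1 : BIso (tws (Γ.fst E'.alg) Y (diag (E.alg.tensor E'.alg)))
      (box (tws Γ Y (diag E.alg)) (diag E'.alg)) :=
    ((twF (Γ.fst E'.alg) Y (E.alg.tensor E'.alg)).biso
      (box_diag E.alg E'.alg).symm).trans (tws_fst Γ Y (diag E.alg) (diag E'.alg))
  refine (cl_iso (X := E ⊗ E') (Y := E ⊗ E') h1).trans ?_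
  refine (cl_box (tws_finCoh Γ Y _ (PrT_fin E)) (PrT_fin E')).trans ?_
  rw [cl_diag]
  rfl

theorem TT_snd (Δ : GrA G' E'.alg) (Y : Type) [Fintype Y] [MulAction G' Y] :
    TT (E := E ⊗ E') (GrA.snd E.alg Δ) Y = 𝟙 E ⊗ₘ TT Δ Y := by
  have h1 : BIso (tws (GrA.snd E.alg Δ) Y (diag (E.alg.tensor E'.alg)))
      (box (diag E.alg) (tws Δ Y (diag E'.alg))) :=
    ((twF (GrA.snd E.alg Δ) Y (E.alg.tensor E'.alg)).biso
      (box_diag E.alg E'.alg).symm).trans (tws_snd Δ Y (diag E.alg) (diag E'.alg))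
  refine (cl_iso (X := E ⊗ E') (Y := E ⊗ E') h1).trans ?_
  refine (cl_box (PrT_fin E) (tws_finCoh Δ Y _ (PrT_fin E'))).trans ?_
  rw [cl_diag]
  rfl

/-- Proof. `t ⊗ₘ s = (t ⊗ₘ 𝟙) ≫ (𝟙 ⊗ₘ s)`; for the factors use `tws_fstS`, `TT_fst` and
`tws_sndS`, `TT_snd`, bilinearity of `⊗ₘ`, and then `IsVir.mul`. -/
theorem IsVir.prod {Γ : GrA G E.alg} {Δ : GrA G' E'.alg} {χ : G → ℚ} {ψ : G' → ℚ} {t : E ⟶ E}
    {s : E' ⟶ E'} (h : IsVir Γ χ t) (h' : IsVir Δ ψ s) :
    IsVir (E := E ⊗ E') (Γ.prod Δ) (fun g => χ g.1 * ψ g.2) (t ⊗ₘ s) := by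
  have h1 : IsVir (E := E ⊗ E') (Γ.prod Δ) (fun g => χ g.1) (t ⊗ₘ 𝟙 E') := by
    obtain ⟨ι, _, Y, _, _, c, ht, hχ⟩ := h
    refine ⟨ι, inferInstance, fun i => FstS G' (Y i), inferInstance, inferInstance, c, ?_,
      fun g => hχ g.1⟩
    let f : (E ⟶ E) →+ ((E ⊗ E' : SP k) ⟶ E ⊗ E') :=
      AddMonoidHom.mk' (fun x => x ⊗ₘ 𝟙 E') (fun x y => by
        rw [tensorHom_id, tensorHom_id, tensorHom_id, MonoidalPreadditive.add_whiskerRight])
    change f t = _
    rw [ht, map_sum]
    refine Finset.sum_congr rfl fun i _ => ?_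
    rw [map_rat_smul]
    congr 1
    refine (TT_fst Γ (Y i)).symm.trans ?_
    exact (cl_iso (X := E ⊗ E') (Y := E ⊗ E') (tws_fstS Γ Δ (Y i) _)).symm
  have h2 : IsVir (E := E ⊗ E') (Γ.prod Δ) (fun g => ψ g.2) (𝟙 E ⊗ₘ s) := by
    obtain ⟨ι, _, Y, _, _, c, hs, hψ⟩ := h'
    refine ⟨ι, inferInstance, fun i => SndS G (Y i), inferInstance, inferInstance, c, ?_,
      fun g => hψ g.2⟩
    let f : (E' ⟶ E') →+ ((E ⊗ E' : SP k) ⟶ E ⊗ E') :=
      AddMonoidHom.mk' (fun x => 𝟙 E ⊗ₘ x) (fun x y => by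
        rw [id_tensorHom, id_tensorHom, id_tensorHom, MonoidalPreadditive.whiskerLeft_add])
    change f s = _
    rw [hs, map_sum]
    refine Finset.sum_congr rfl fun i _ => ?_
    rw [map_rat_smul]
    congr 1
    refine (TT_snd Δ (Y i)).symm.trans ?_
    exact (cl_iso (X := E ⊗ E') (Y := E ⊗ E') (tws_sndS Γ Δ (Y i) _)).symm
  have h3 : t ⊗ₘ s = (t ⊗ₘ 𝟙 E') ≫ (𝟙 E ⊗ₘ s) := by
    rw [tensorHom_comp_tensorHom, Category.comp_id, Category.id_comp]
  rw [h3]
  exact IsVir.mul h1 h2

end Pool.Agent.MP_6e5bed_ag_SY
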