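import Pool.Agent.Lib.MP_6e5bed_ag_SY.Sb

set_option autoImplicit false
set_option linter.unusedSectionVars false

/-!
# MP_6e5bed_ag (project SYM): pairs of cyclic permutations
-/

namespace Pool.Agent.MP_6e5bed_ag_SY

open Equiv

/-- A permutation without stable nonempty proper subsets is transitive. -/
private theorem sbT_cycle {n : ℕ} (σ : Perm (Fin n)) (hσ : fxn (KS n) σ = 0) (y z : Fin n) :
    σ.SameCycle y z := by
  classical
  by_contra hyz
  let S : Sb n := fun s => decide (σ.SameCycle y s)
  have hm : ∀ s, S.m s = true ↔ σ.SameCycle y s := fun s => by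
    change decide (σ.SameCycle y s) = true ↔ _
    rw [decide_eq_true_iff]
  have h1 : 0 < S.card := by
    refine Finset.card_pos.2 ⟨y, ?_⟩
    rw [Finset.mem_filter]
    exact ⟨Finset.mem_univ _, (hm y).2 (Perm.SameCycle.refl σ y)⟩
  have h2 : S.card < n := by
    have h3 : S.card < (Finset.univ : Finset (Fin n)).card := by
      refine Finset.card_lt_card ?_
      rw [Finset.ssubset_univ_iff]
      intro h
      have h4 : z ∈ Finset.univ.filter fun s => S.m s = true := by
        rw [h]
        exact Finset.mem_univ _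
      rw [Finset.mem_filter] at h4
      exact hyz ((hm z).1 h4.2)
    rwa [Finset.card_univ, Fintype.card_fin] at h3
  obtain ⟨T, hT⟩ : ∃ T : KS n, T.1 = S := ⟨⟨S, h1, h2⟩, rfl⟩
  have h3 : σ • T = T := by
    apply Subtype.ext
    rw [KS.smul_val, hT]
    apply Sb.ext
    intro s
    change (σ • S).m s = S.m s
    rw [Sb.smul_m, Bool.eq_iff_iff, hm, hm]
    exact Perm.sameCycle_symm_apply_right
  have h4 : Nat.card {T : KS n // σ • T = T} = 0 := hσ
  rw [Nat.card_eq_fintype_card, Fintype.card_eq_zero_iff] at h4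
  exact h4.false ⟨_, h3⟩

/-- If `σ` and `τ` are cyclic permutations of all `n` points then `σ x = x τ` has `n` solutions.

Proof. The map `x ↦ x 0` is a bijection to `Fin n`. The orbits of `0` under the powers of `τ`, and
of each point under the powers of `σ`, are nonempty stable subsets, so they are everything
(`Sb.card S = n` iff `S` is everything). So `x (τ^j 0) = σ^j (x 0)` shows that it is injective. For
`y : Fin n`, `x (τ^j 0) = σ^j y` is well defined and injective since `τ^i 0 = τ^j 0` iff
`i ≡ j mod n` iff `σ^i y = σ^j y` (the orbits have `n` elements). (Or with Mathlib: `σ` and `τ` are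
`IsCycle` with full support, so conjugate, and `IsCycle` centralizers.) -/
theorem card_tw {n : ℕ} (hn : 0 < n) (σ τ : Perm (Fin n)) (hσ : fxn (KS n) σ = 0)
    (hτ : fxn (KS n) τ = 0) : Nat.card {x : Perm (Fin n) // σ * x * τ⁻¹ = x} = n := by
  classical
  have : NeZero n := ⟨hn.ne'⟩
  have hc : ∀ ρ : Perm (Fin n), fxn (KS n) ρ = 0 →
      ρ.IsCycleOn ((Finset.univ : Finset (Fin n)) : Set (Fin n)) := fun ρ hρ => by
    refine ⟨?_, fun y _ z _ => sbT_cycle ρ hρ y z⟩
    rw [Finset.coe_univ]
    exact Set.bijOn_univ.2 ρ.bijective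
  have hcσ := hc σ hσ
  have hcτ := hc τ hτ
  have hz : ∀ ρ : Perm (Fin n), fxn (KS n) ρ = 0 → ∀ (a : Fin n) (i j : ℤ),
      (ρ ^ i) a = (ρ ^ j) a ↔ i ≡ j [ZMOD n] := fun ρ hρ a i j => by
    have h1 := (hc ρ hρ).zpow_apply_eq_zpow_apply (Finset.mem_univ a) (m := i) (n := j)
    rwa [Finset.card_univ, Fintype.card_fin] at h1
  have hx : ∀ x : Perm (Fin n), σ * x * τ⁻¹ = x ↔ ∀ z, x (τ z) = σ (x z) := fun x => by
    rw [mul_inv_eq_iff_eq_mul, Perm.ext_iff]
    exact ⟨fun h z => (h z).symm, fun h z => (h z).symm⟩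
  have hpow : ∀ x : Perm (Fin n), (∀ z, x (τ z) = σ (x z)) → ∀ (j : ℤ) z,
      x ((τ ^ j) z) = (σ ^ j) (x z) := fun x h j z => by
    have h1 : σ * x = x * τ := Perm.ext fun z => (h z).symm
    have h2 : SemiconjBy x τ σ := h1.symm
    have h3 := h2.zpow_right j
    exact congrArg (fun p : Perm (Fin n) => p z) h3
  have hbij : Function.Bijective
      (fun x : {x : Perm (Fin n) // σ * x * τ⁻¹ = x} => x.1 0) := by
    constructor
    · rintro ⟨x, h1⟩ ⟨x', h2⟩ h
      rw [hx] at h1 h2
      apply Subtype.ext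
      apply Perm.ext
      intro z
      obtain ⟨j, hj⟩ := sbT_cycle τ hτ 0 z
      change x 0 = x' 0 at h
      change x z = x' z
      rw [← hj, hpow x h1, hpow x' h2, h]
    · intro y
      choose j hj using fun z => sbT_cycle τ hτ 0 z
      have hinj : Function.Injective fun z => (σ ^ j z) y := by
        intro z z' h
        have h1 := (hz σ hσ y (j z) (j z')).1 h
        rw [← hz τ hτ 0, hj, hj] at h1
        exact h1
      refine ⟨⟨Equiv.ofBijective _ (Finite.injective_iff_bijective.1 hinj), ?_⟩, ?_⟩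
      · rw [hx]
        intro z
        change (σ ^ j (τ z)) y = σ ((σ ^ j z) y)
        have h1 : σ ((σ ^ j z) y) = (σ ^ (1 + j z)) y := by
          rw [zpow_add, zpow_one, Perm.mul_apply]
        rw [h1, hz σ hσ, ← hz τ hτ 0, hj, zpow_add, zpow_one, Perm.mul_apply, hj]
      · change (σ ^ j 0) y = y
        have h1 := (hz σ hσ y (j 0) 0).2 (by
          rw [← hz τ hτ 0, hj, zpow_zero, Perm.one_apply])
        rw [h1, zpow_zero, Perm.one_apply]
  rw [Nat.card_eq_of_bijective _ hbij, Nat.card_eq_fintype_card, Fintype.card_fin]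

end Pool.Agent.MP_6e5bed_ag_SY
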