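import Pool.Agent.Lib.MP_6e5bed_ag_SY.PwS

set_option autoImplicit false
set_option linter.unusedSectionVars false

/-!
# MP_6e5bed_ag (project SYM): `M^{⊗n} ⊗ N^{⊗n} ≅ (M ⊗ N)^{⊗n}` for bimodules
-/

namespace Pool.Agent.MP_6e5bed_ag_SY

open Pool.Agent.MP_6e5bed_ag_NC
open Equiv
open scoped TensorProduct

universe u

section tools

variable {k : Type u} [CommRing k] {V V' V'' W W' W'' W₀ W₀' W₀'' : Type u}
  [AddCommGroup V] [Module k V] [AddCommGroup V'] [Module k V']
  [AddCommGroup V''] [Module k V''] [AddCommGroup W] [Module k W] [AddCommGroup W']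
  [Module k W'] [AddCommGroup W''] [Module k W''] [AddCommGroup W₀] [Module k W₀]
  [AddCommGroup W₀'] [Module k W₀'] [AddCommGroup W₀''] [Module k W₀'']

private theorem PwT_map_kz {X : Dg k V'} {Y : Dg k W} {Y₀ : Dg k W₀} {α : V →ₗ[k] V' →ₗ[k] V''}
    {β : W →ₗ[k] W' →ₗ[k] W''} {β₀ : W₀ →ₗ[k] W₀' →ₗ[k] W₀''} (f : W →ₗ[k] W₀)
    (g : W' →ₗ[k] W₀') (h : W'' →ₗ[k] W₀'') (hf : ∀ w, Y₀.o (f w) = f (Y.o w))
    (hβ : ∀ w w', h (β w w') = β₀ (f w) (g w')) (x : V ⊗[k] W) (y : V' ⊗[k] W') :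
    TensorProduct.map LinearMap.id h (kz X Y α β x y) =
      kz X Y₀ α β₀ (TensorProduct.map LinearMap.id f x) (TensorProduct.map LinearMap.id g y) := by
  induction x using TensorProduct.induction_on with
  | zero => simp
  | add x y hx hy => simp only [map_add, LinearMap.add_apply, hx, hy]
  | tmul v w =>
    induction y using TensorProduct.induction_on with
    | zero => simp
    | add x y hx hy => simp only [map_add, hx, hy]
    | tmul v' w' =>
      rw [kz_tmul, TensorProduct.map_tmul, TensorProduct.map_tmul, kz_tmul, map_sub, map_smul,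
        TensorProduct.map_tmul, TensorProduct.map_tmul, hβ, hβ, hf]
      rfl

private theorem PwT_kz_lift {X' : Dg k V'} {Y : Dg k W} (γ : W →ₗ[k] W' →ₗ[k] W'')
    (x : V ⊗[k] W) (y : V' ⊗[k] W') :
    kz X' Y (TensorProduct.mk k V V') γ x y =
      TensorProduct.map LinearMap.id (TensorProduct.lift γ) (md X' Y x y) := by
  have h := PwT_map_kz (X := X') (Y := Y) (Y₀ := Y) (α := TensorProduct.mk k V V')
    (β := TensorProduct.mk k W W') (β₀ := γ) LinearMap.id LinearMap.id (TensorProduct.lift γ)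
    (fun _ => rfl) (fun _ _ => TensorProduct.lift.tmul _ _) x y
  rw [TensorProduct.map_id, TensorProduct.map_id] at h
  exact h.symm

private theorem PwT_lift_kz {X' : Dg k V'} {Y : Dg k W} (γ : W →ₗ[k] W' →ₗ[k] W'')
    (x : (V ⊗[k] W) ⊗[k] (V' ⊗[k] W')) :
    TensorProduct.lift (kz X' Y (TensorProduct.mk k V V') γ) x =
      TensorProduct.map LinearMap.id (TensorProduct.lift γ) (TensorProduct.lift (md X' Y) x) := by
  induction x using TensorProduct.induction_on with
  | zero => simp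
  | add x y hx hy => simp only [map_add, hx, hy]
  | tmul v w =>
    rw [TensorProduct.lift.tmul, TensorProduct.lift.tmul, PwT_kz_lift]

private theorem PwT_map_bij {f : W →ₗ[k] W'} (hf : Function.Bijective f) :
    Function.Bijective (TensorProduct.map (LinearMap.id : V →ₗ[k] V) f) :=
  (TensorProduct.congr (LinearEquiv.refl k V) (LinearEquiv.ofBijective f hf)).bijective

end tools

section mid

variable {k : Type u} [CommRing k] {V₁ V₂ V₃ W₁ W₂ W₃ V₁' V₂' V₃' W₁' W₂' W₃' : Type u}
  [AddCommGroup V₁] [Module k V₁] [AddCommGroup V₂] [Module k V₂] [AddCommGroup V₃] [Module k V₃]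
  [AddCommGroup W₁] [Module k W₁] [AddCommGroup W₂] [Module k W₂] [AddCommGroup W₃] [Module k W₃]
  [AddCommGroup V₁'] [Module k V₁'] [AddCommGroup V₂'] [Module k V₂'] [AddCommGroup V₃']
  [Module k V₃'] [AddCommGroup W₁'] [Module k W₁'] [AddCommGroup W₂'] [Module k W₂']
  [AddCommGroup W₃'] [Module k W₃']

private theorem PwT_md_kz {X₂ : Dg k V₂} {X₂' : Dg k V₂'} {X₁' : Dg k V₁'} {Y₁ : Dg k W₁}
    {Y₁' : Dg k W₁'} {Y₂ : Dg k W₂} {X₃' : Dg k V₃'} {Y₃ : Dg k W₃}
    {α : V₁ →ₗ[k] V₂ →ₗ[k] V₃} {β : W₁ →ₗ[k] W₂ →ₗ[k] W₃}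
    {α' : V₁' →ₗ[k] V₂' →ₗ[k] V₃'} {β' : W₁' →ₗ[k] W₂' →ₗ[k] W₃'}
    (hβ : ∀ {i j : ℤ} {v : W₁} {w : W₂}, Y₁.IsDeg i v → Y₂.IsDeg j w → Y₃.IsDeg (i + j) (β v w))
    (hα' : ∀ {i j : ℤ} {v : V₁'} {w : V₂'}, X₁'.IsDeg i v → X₂'.IsDeg j w →
      X₃'.IsDeg (i + j) (α' v w))
    (x : (V₁ ⊗[k] W₁) ⊗[k] (V₁' ⊗[k] W₁')) (y : (V₂ ⊗[k] W₂) ⊗[k] (V₂' ⊗[k] W₂')) :
    TensorProduct.lift (md X₃' Y₃) (kz (X₂.tensor Y₂) (X₁'.tensor Y₁') (kz X₂ Y₁ α β)
        (kz X₂' Y₁' α' β') x y) =
      kz (X₂.tensor X₂') (Y₁.tensor Y₁') (kz X₂ X₁' α α') (kz Y₂ Y₁' β β')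
        (TensorProduct.lift (md X₁' Y₁) x) (TensorProduct.lift (md X₂' Y₂) y) := by
  induction x using TensorProduct.induction_on with
  | zero => simp
  | add x y hx hy => simp only [map_add, LinearMap.add_apply, hx, hy]
  | tmul v w =>
    induction y using TensorProduct.induction_on with
    | zero => simp
    | add x y hx hy => simp only [map_add, hx, hy]
    | tmul v' w' =>
      rw [TensorProduct.lift.tmul, TensorProduct.lift.tmul]
      exact (md_kz hβ hα' v w v' w').symm

end mid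

variable {k : Type u} [CommRing k] {A B A' B' : DGA k}

/-- The bilinear map `M^{⊗n} × N^{⊗n} → (M ⊗ N)^{⊗n}` of bimodules. -/
noncomputable def bxSh (M : Bim A B) (N : Bim A' B') (n : ℕ) :
    (bx M n).M →ₗ[k] (bx N n).M →ₗ[k] (bx (box M N) n).M :=
  bxBil M N (box M N) (TensorProduct.mk k M.M N.M) n

theorem bxSh_bij (M : Bim A B) (N : Bim A' B') (n : ℕ) :
    Function.Bijective (TensorProduct.lift (bxSh M N n)) := by
  induction n with
  | zero =>
    have h : TensorProduct.lift (LinearMap.mul k k) = (TensorProduct.lid k k).toLinearMap :=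
      TensorProduct.ext' fun x y => by simp
    have hb : Function.Bijective (TensorProduct.lift (LinearMap.mul k k)) := by
      rw [h]
      exact (TensorProduct.lid k k).bijective
    exact hb
  | succ n ih =>
    have hb := (PwT_map_bij (V := M.M ⊗[k] N.M) ih).comp
      (md_bij (V₁ := M.M) (W₁' := (bx N n).M) N.dg (bx M n).dg)
    have e : (TensorProduct.lift (bxSh M N (n + 1)) : _ → _) =
        (TensorProduct.map LinearMap.id (TensorProduct.lift (bxSh M N n))) ∘
          (TensorProduct.lift (md (V₁ := M.M) (W₁' := (bx N n).M) N.dg (bx M n).dg)) :=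
      funext fun x => PwT_lift_kz (X' := N.dg) (Y := (bx M n).dg) (bxSh M N n) x
    rw [e]
    exact hb

private theorem PwT_sh_succ (M : Bim A B) (N : Bim A' B') (n : ℕ)
    (x : (M.M ⊗[k] (bx M n).M) ⊗[k] (N.M ⊗[k] (bx N n).M)) :
    TensorProduct.lift (bxSh M N (n + 1)) x =
      TensorProduct.map (LinearMap.id : M.M ⊗[k] N.M →ₗ[k] M.M ⊗[k] N.M)
        (TensorProduct.lift (bxSh M N n)) (TensorProduct.lift (md N.dg (bx M n).dg) x) :=
  PwT_lift_kz (X' := N.dg) (Y := (bx M n).dg) (bxSh M N n) x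

private theorem PwT_pw_succ (A A' : DGA k) (n : ℕ)
    (x : (A.A ⊗[k] (pw A n).A) ⊗[k] (A'.A ⊗[k] (pw A' n).A)) :
    (shH A A' (n + 1)).f x =
      TensorProduct.map (LinearMap.id : A.A ⊗[k] A'.A →ₗ[k] A.A ⊗[k] A'.A)
        (shH A A' n).f (TensorProduct.lift (md A'.dg (pw A n).dg) x) :=
  PwT_lift_kz (X' := A'.dg) (Y := (pw A n).dg) (pwSh A A' n) x

private theorem PwT_kzb (X Y : Dg k k) (hY : ∀ c, Y.o c = 0) (a b : k ⊗[k] k) :
    TensorProduct.lift (LinearMap.mul k k)
        (kz X Y (LinearMap.mul k k) (LinearMap.mul k k) a b) =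
      TensorProduct.lift (LinearMap.mul k k) a * TensorProduct.lift (LinearMap.mul k k) b := by
  induction a using TensorProduct.induction_on with
  | zero => simp
  | add x y hx hy => simp only [map_add, LinearMap.add_apply, hx, hy, add_mul]
  | tmul v w =>
    induction b using TensorProduct.induction_on with
    | zero => simp
    | add x y hx hy => simp only [map_add, hx, hy, mul_add]
    | tmul v' w' =>
      rw [kz_even (hY w), TensorProduct.lift.tmul, TensorProduct.lift.tmul,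
        TensorProduct.lift.tmul, LinearMap.mul_apply', LinearMap.mul_apply', LinearMap.mul_apply',
        LinearMap.mul_apply', LinearMap.mul_apply']
      ring

/-- Proof. Induction on `n` with `md_kz`: `α = M.l`, `α' = N.l`, `β = (bx M n).l`,
`β' = (bx N n).l`. -/
theorem bxSh_l (M : Bim A B) (N : Bim A' B') (n : ℕ) (a : ((pw A n).tensor (pw A' n)).A)
    (x : (box (bx M n) (bx N n)).M) :
    TensorProduct.lift (bxSh M N n) ((box (bx M n) (bx N n)).l a x) =
      (bx (box M N) n).l ((shH A A' n).f a) (TensorProduct.lift (bxSh M N n) x) := by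
  induction n with
  | zero => exact PwT_kzb (k := k) (base k).dg (base k).dg base_o a x
  | succ n ih =>
    refine (PwT_sh_succ M N n _).trans ?_
    refine (congrArg (TensorProduct.map LinearMap.id (TensorProduct.lift (bxSh M N n)))
      (PwT_md_kz (X₂ := M.dg) (X₂' := N.dg) (X₁' := A'.dg) (Y₁ := (pw A n).dg)
        (Y₁' := (pw A' n).dg) (Y₂ := (bx M n).dg) (X₃' := N.dg) (Y₃ := (bx M n).dg)
        (α := M.l) (β := (bx M n).l) (α' := N.l) (β' := (bx N n).l)
        (fun h h' => (bx M n).l_deg h h') (fun h h' => N.l_deg h h') a x)).trans ?_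
    refine (PwT_map_kz (X := M.dg.tensor N.dg) (Y := (pw A n).dg.tensor (pw A' n).dg)
      (Y₀ := (pw (A.tensor A') n).dg) (α := (box M N).l) (β := (box (bx M n) (bx N n)).l)
      (β₀ := (bx (box M N) n).l) (shH A A' n).f (TensorProduct.lift (bxSh M N n))
      (TensorProduct.lift (bxSh M N n)) (fun w => (shH A A' n).o w) (fun w w' => ih w w')
      _ _).trans ?_
    refine congrArg₂ (fun p q => (bx (box M N) (n + 1)).l p q) (PwT_pw_succ A A' n a).symm
      (PwT_sh_succ M N n x).symm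

private theorem PwT_deg (M : Bim A B) (N : Bim A' B') (n : ℕ) (w : (box (bx M n) (bx N n)).M) :
    (bx (box M N) n).dg.o (TensorProduct.lift (bxSh M N n) w) =
      TensorProduct.lift (bxSh M N n) ((box (bx M n) (bx N n)).dg.o w) :=
  Dg.o_degMap_even (n := 0) Even.zero (TensorProduct.lift (bxSh M N n))
    (fun {j v} h => Dg.tensor_degMap (X := (bx M n).dg) (Y := (bx N n).dg)
      (Z := (bx (box M N) n).dg) (n := 0) (TensorProduct.lift (bxSh M N n))
      (fun i j v w hv hw => by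
        rw [add_zero, TensorProduct.lift.tmul]
        exact bxBil_deg M N (box M N) (TensorProduct.mk k M.M N.M)
          (fun hm hn => Dg.tensor_deg hm hn) n hv hw) h) w

/-- Proof. As `bxSh_l`, with the right multiplications `rr`. -/
theorem bxSh_r (M : Bim A B) (N : Bim A' B') (n : ℕ) (b : ((pw B n).tensor (pw B' n)).A)
    (x : (box (bx M n) (bx N n)).M) :
    TensorProduct.lift (bxSh M N n) ((box (bx M n) (bx N n)).r b x) =
      (bx (box M N) n).r ((shH B B' n).f b) (TensorProduct.lift (bxSh M N n) x) := by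
  induction n with
  | zero =>
    exact (PwT_kzb (k := k) (base k).dg (base k).dg base_o x b)
  | succ n ih =>
    refine (PwT_sh_succ M N n _).trans ?_
    refine (congrArg (TensorProduct.map LinearMap.id (TensorProduct.lift (bxSh M N n)))
      (PwT_md_kz (X₂ := B.dg) (X₂' := B'.dg) (X₁' := N.dg) (Y₁ := (bx M n).dg)
        (Y₁' := (bx N n).dg) (Y₂ := (pw B n).dg) (X₃' := N.dg) (Y₃ := (bx M n).dg)
        (α := M.rr) (β := (bx M n).rr) (α' := N.rr) (β' := (bx N n).rr)
        (fun h h' => (bx M n).rr_deg h h') (fun h h' => N.rr_deg h h') x b)).trans ?_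
    refine (PwT_map_kz (X := B.dg.tensor B'.dg) (Y := (bx M n).dg.tensor (bx N n).dg)
      (Y₀ := (bx (box M N) n).dg) (α := (box M N).rr) (β := (box (bx M n) (bx N n)).rr)
      (β₀ := (bx (box M N) n).rr) (TensorProduct.lift (bxSh M N n)) (shH B B' n).f
      (TensorProduct.lift (bxSh M N n)) (fun w => PwT_deg M N n w) (fun w w' => ih w' w)
      _ _).trans ?_
    refine congrArg₂ (fun p q => (bx (box M N) (n + 1)).r p q) (PwT_pw_succ B B' n b).symm
      (PwT_sh_succ M N n x).symm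

end Pool.Agent.MP_6e5bed_ag_SY
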