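import Pool.Agent.Lib.MP_6e5bed_ag_SY.PwF

set_option autoImplicit false
set_option linter.unusedSectionVars false

/-!
# MP_6e5bed_ag (project SYM): tensor powers of graded maps
-/

namespace Pool.Agent.MP_6e5bed_ag_SY

open Pool.Agent.MP_6e5bed_ag_NC
open Equiv
open scoped TensorProduct

universe u

variable {k : Type u} [CommRing k] {A B : DGA k}

private theorem PwG_deg {M N : Bim A B} (φ : GMap 0 M N) {i : ℤ} {m : M.M}
    (hm : M.dg.IsDeg i m) : N.dg.IsDeg i (φ.f m) := by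
  have h := φ.deg hm
  rwa [add_zero] at h

private theorem PwG_sg0 : sg 0 = 1 := by simp [sg]

private theorem PwG_dd {C D : DGA k} {P Q : Bim C D} (ψ : GMap 0 P Q) :
    ψ.dd = 0 ↔ ∀ m, Q.dg.d (ψ.f m) = ψ.f (P.dg.d m) := by
  constructor
  · intro h m
    have := congrArg (fun g : P.M →ₗ[k] Q.M => g m) h
    simpa [GMap.dd, sub_eq_zero, PwG_sg0] using this
  · intro h
    refine LinearMap.ext fun m => ?_
    simp [GMap.dd, PwG_sg0, h m]

/-- The tensor power of a graded map of degree `0`. -/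
noncomputable def bxMap {M N : Bim A B} (φ : GMap 0 M N) (n : ℕ) : GMap 0 (bx M n) (bx N n) where
  f := bxFam M N n fun _ => φ.f
  deg := fun {i m} hm => by
    rw [add_zero]
    exact bxFam_deg M N n _ (fun _ _ _ h => PwG_deg φ h) hm
  map_l := fun a m => by
    rw [Dg.sp_zero, bxFam_l (DHom.id A) M N n _ (fun _ _ _ h => PwG_deg φ h)
      (fun _ a m => by rw [φ.map_l, Dg.sp_zero]; rfl), pwMap_id]
    rfl
  map_r := fun b m => by
    rw [bxFam_r (DHom.id B) M N n _ (fun _ _ _ h => PwG_deg φ h)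
      (fun _ b m => by rw [φ.map_r]; rfl), pwMap_id]
    rfl

theorem bxMap_f {M N : Bim A B} (φ : GMap 0 M N) (n : ℕ) :
    (bxMap φ n).f = bxFam M N n fun _ => φ.f := rfl

theorem bxMap_perm {M N : Bim A B} (φ : GMap 0 M N) (n : ℕ) (σ : Perm (Fin n)) (x : (bx M n).M) :
    (bxMap φ n).f ((bxE M n).b σ x) = (bxE N n).b σ ((bxMap φ n).f x) := by
  rw [bxMap_f, bxE_b, bxE_b]
  exact (bxFam_perm M N n (fun _ => φ.f)
    (fun _ m => Dg.o_degMap_even (Even.zero) φ.f (fun h => φ.deg h) m) σ x).symm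

theorem bxMap_dd {M N : Bim A B} (φ : GMap 0 M N) (h : φ.dd = 0) (n : ℕ) :
    (bxMap φ n).dd = 0 := by
  rw [PwG_dd] at h ⊢
  exact fun x => bxFam_d M N n (fun _ => φ.f) (fun _ _ _ h => PwG_deg φ h) (fun _ m => h m) x

/-- The map of the bimodules `M^{⊗n} ⋊ S_n` given by a graded map of degree `0`. -/
noncomputable def symMap {M N : Bim A B} (φ : GMap 0 M N) (n : ℕ) :
    GMap 0 (symM M n) (symM N n) :=
  crMap (bxE M n) (bxE N n) (bxMap φ n) (bxMap_perm φ n)

theorem symMap_f {M N : Bim A B} (φ : GMap 0 M N) (n : ℕ) (x : Perm (Fin n) → (bx M n).M)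
    (g : Perm (Fin n)) : (symMap φ n).f x g = bxFam M N n (fun _ => φ.f) (x g) := rfl

theorem symMap_dd {M N : Bim A B} (φ : GMap 0 M N) (h : φ.dd = 0) (n : ℕ) :
    (symMap φ n).dd = 0 := by
  have h1 := bxMap_dd φ h n
  rw [PwG_dd] at h1 ⊢
  exact fun x => funext fun g => h1 (x g)

end Pool.Agent.MP_6e5bed_ag_SY
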