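import Pool.Agent.Lib.MP_6e5bed_ag_SY.IndS
import Pool.Agent.Lib.MP_6e5bed_ag_SY.PwG
import Pool.Agent.Lib.MP_6e5bed_ag_SY.Cl

set_option autoImplicit false
set_option linter.unusedSectionVars false

/-!
# MP_6e5bed_ag (project SYM): tensor powers of quasi-isomorphisms and of perfect bimodules
-/

namespace Pool.Agent.MP_6e5bed_ag_SY

open Pool.Agent.MP_6e5bed_ag_NC
open CategoryTheory MonoidalCategory Equiv
open scoped TensorProduct

universe u

variable {k : Type u} [Field k]

/-- The identification of the tensor power of the diagonal bimodule with the tensor power. -/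
private noncomputable def SmB_f (A : DGA k) : (n : ℕ) → (bx (diag A) n).M →ₗ[k] (pw A n).A
  | 0 => LinearMap.id
  | n + 1 => TensorProduct.map LinearMap.id (SmB_f A n)

private theorem SmB_f_succ (A : DGA k) (n : ℕ) :
    SmB_f A (n + 1) = TensorProduct.map LinearMap.id (SmB_f A n) := rfl

private theorem SmB_deg (A : DGA k) : ∀ (n : ℕ) {i : ℤ} {x : (bx (diag A) n).M},
    (bx (diag A) n).dg.IsDeg i x → (pw A n).dg.IsDeg i (SmB_f A n x)
  | 0, i, x, hx => hx
  | n + 1, i, x, hx => by
    have h := Dg.tensor_degMap (X := A.dg) (Y := (bx (diag A) n).dg)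
      (Z := A.dg.tensor (pw A n).dg) (n := 0) (TensorProduct.map LinearMap.id (SmB_f A n))
      (fun i j v w hv hw => by
        rw [add_zero, TensorProduct.map_tmul]
        exact Dg.tensor_deg hv (SmB_deg A n hw)) hx
    rw [add_zero] at h
    exact h

private theorem SmB_o (A : DGA k) (n : ℕ) (x : (bx (diag A) n).M) :
    (pw A n).dg.o (SmB_f A n x) = SmB_f A n ((bx (diag A) n).dg.o x) :=
  Dg.o_degMap_even (n := 0) Even.zero (SmB_f A n) (fun h => by
    rw [add_zero]
    exact SmB_deg A n h) x

section lin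

variable {V V' V'' R P Q : Type u} [AddCommGroup V] [Module k V] [AddCommGroup V'] [Module k V']
  [AddCommGroup V''] [Module k V''] [AddCommGroup R] [Module k R] [AddCommGroup P] [Module k P]
  [AddCommGroup Q] [Module k Q]

private theorem SmB_kzl (X : Dg k V') (Y : Dg k R) (α : V →ₗ[k] V' →ₗ[k] V'')
    (γ : R →ₗ[k] P →ₗ[k] P) (γ' : R →ₗ[k] Q →ₗ[k] Q) (f : P →ₗ[k] Q)
    (h : ∀ p x, f (γ p x) = γ' p (f x)) (a : V ⊗[k] R) (x : V' ⊗[k] P) :
    TensorProduct.map LinearMap.id f (kz X Y α γ a x) =
      kz X Y α γ' a (TensorProduct.map LinearMap.id f x) := by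
  induction a using TensorProduct.induction_on with
  | zero => simp only [map_zero, LinearMap.zero_apply]
  | add a b ha hb => simp only [map_add, LinearMap.add_apply, ha, hb]
  | tmul a p =>
    induction x using TensorProduct.induction_on with
    | zero => simp only [map_zero]
    | add x y hx hy => simp only [map_add, hx, hy]
    | tmul v x =>
      rw [kz_tmul, TensorProduct.map_tmul, kz_tmul, map_sub, map_smul, TensorProduct.map_tmul,
        TensorProduct.map_tmul, h, h]
      simp only [LinearMap.id_apply]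

private theorem SmB_kzr (X : Dg k V') (Y : Dg k P) (Z : Dg k Q) (α : V →ₗ[k] V' →ₗ[k] V'')
    (γ : P →ₗ[k] R →ₗ[k] P) (γ' : Q →ₗ[k] R →ₗ[k] Q) (f : P →ₗ[k] Q)
    (h : ∀ p x, f (γ p x) = γ' (f p) x) (ho : ∀ p, Z.o (f p) = f (Y.o p))
    (x : V ⊗[k] P) (a : V' ⊗[k] R) :
    TensorProduct.map LinearMap.id f (kz X Y α γ x a) =
      kz X Z α γ' (TensorProduct.map LinearMap.id f x) a := by
  induction a using TensorProduct.induction_on with
  | zero => simp only [map_zero]
  | add a b ha hb => simp only [map_add, ha, hb]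
  | tmul a p =>
    induction x using TensorProduct.induction_on with
    | zero => simp only [map_zero, LinearMap.zero_apply]
    | add x y hx hy => simp only [map_add, LinearMap.add_apply, hx, hy]
    | tmul v x =>
      rw [kz_tmul, TensorProduct.map_tmul, kz_tmul, map_sub, map_smul, TensorProduct.map_tmul,
        TensorProduct.map_tmul, h, h, ho]
      simp only [LinearMap.id_apply]

private theorem SmB_td (X : Dg k V) (Y : Dg k P) (Z : Dg k Q) (f : P →ₗ[k] Q)
    (h : ∀ p, Z.d (f p) = f (Y.d p)) (x : V ⊗[k] P) :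
    (X.tensor Z).d (TensorProduct.map LinearMap.id f x) =
      TensorProduct.map LinearMap.id f ((X.tensor Y).d x) := by
  induction x using TensorProduct.induction_on with
  | zero => simp only [map_zero]
  | add x y hx hy => simp only [map_add, hx, hy]
  | tmul v x =>
    rw [TensorProduct.map_tmul, Dg.tensor_d, Dg.tensor_d, map_add, TensorProduct.map_tmul,
      TensorProduct.map_tmul, h]
    simp only [LinearMap.id_apply]

end lin

private theorem SmB_l (A : DGA k) : ∀ (n : ℕ) (a : (pw A n).A) (x : (bx (diag A) n).M),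
    SmB_f A n ((bx (diag A) n).l a x) = (pw A n).mul a (SmB_f A n x)
  | 0, _, _ => rfl
  | n + 1, a, x => SmB_kzl A.dg (pw A n).dg A.mul (bx (diag A) n).l (pw A n).mul (SmB_f A n)
      (SmB_l A n) a x

private theorem SmB_r (A : DGA k) : ∀ (n : ℕ) (x : (bx (diag A) n).M) (a : (pw A n).A),
    SmB_f A n ((bx (diag A) n).rr x a) = (pw A n).mul (SmB_f A n x) a
  | 0, _, _ => rfl
  | n + 1, x, a => SmB_kzr A.dg (bx (diag A) n).dg (pw A n).dg A.mul (bx (diag A) n).rr
      (pw A n).mul (SmB_f A n) (SmB_r A n) (SmB_o A n) x a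

private theorem SmB_d (A : DGA k) : ∀ (n : ℕ) (x : (bx (diag A) n).M),
    (pw A n).dg.d (SmB_f A n x) = SmB_f A n ((bx (diag A) n).dg.d x)
  | 0, _ => rfl
  | n + 1, x => SmB_td A.dg (bx (diag A) n).dg (pw A n).dg (SmB_f A n) (SmB_d A n) x

private theorem SmB_bij (A : DGA k) : ∀ n : ℕ, Function.Bijective (SmB_f A n)
  | 0 => Function.bijective_id
  | n + 1 => by
    obtain ⟨e, he⟩ : ∃ e : (bx (diag A) n).M ≃ₗ[k] (pw A n).A, e.toLinearMap = SmB_f A n :=
      ⟨LinearEquiv.ofBijective (SmB_f A n) (SmB_bij A n), rfl⟩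
    have h := (TensorProduct.congr (LinearEquiv.refl k A.A) e).bijective
    rw [SmB_f_succ, ← he]
    exact h

private theorem SmB_swap (A : DGA k) (n i : ℕ) (x : (bx (diag A) n).M) :
    SmB_f A n (swM (diag A) n i x) = (adjD A n i).hom.f (SmB_f A n x) := by
  induction n, i using adjD.induct with
  | case1 i => rfl
  | case2 i => rfl
  | case3 n =>
    rw [adjD_zero_f, swM_zero]
    exact (SW_nat A.dg A.dg LinearMap.id LinearMap.id (fun _ => rfl) (fun _ => rfl)
      (SmB_f A n) x).symm
  | case4 n i ih =>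
    rw [adjD_succ_f, swM_succ]
    change TensorProduct.map LinearMap.id (SmB_f A (n + 1))
        (TensorProduct.map LinearMap.id (swM (diag A) (n + 1) i) x) =
      TensorProduct.map LinearMap.id (adjD A (n + 1) i).hom.f
        (TensorProduct.map LinearMap.id (SmB_f A (n + 1)) x)
    induction x using TensorProduct.induction_on with
    | zero => simp only [map_zero]
    | add x y hx hy => simp only [map_add, hx, hy]
    | tmul v x =>
      rw [TensorProduct.map_tmul, TensorProduct.map_tmul, TensorProduct.map_tmul,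
        TensorProduct.map_tmul, ih]

private theorem SmB_perm (A : DGA k) (n : ℕ) (σ : Perm (Fin n)) :
    ∀ x, SmB_f A n (bxP (diag A) n σ x) = pwP A n σ (SmB_f A n x) := by
  refine Pool.Agent.MP_6e5bed_ag.perm_induction (P := fun σ =>
    ∀ x, SmB_f A n (bxP (diag A) n σ x) = pwP A n σ (SmB_f A n x)) ?_ ?_ ?_ σ
  · intro x
    rw [map_one, map_one]
    rfl
  · intro i h x
    rw [bxP_swap, pwP_swap, SmB_swap]
  · intro a b ha hb x
    rw [map_mul, map_mul, Module.End.mul_apply, Module.End.mul_apply, ha, hb]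

/-- The tensor power of the diagonal bimodule is the diagonal bimodule of the tensor power.

Proof. The map is defined by recursion on `n`: the identity for `n = 0` and `id ⊗ φ_n` for `n + 1`
(`box_diag` in `NC/SmProp.lean` is similar). It is linear for both actions since
`(bx (diag A) (n + 1)).l = kz A.dg (pw A n).dg A.mul (bx (diag A) n).l`. -/
theorem exists_bxD (A : DGA k) (n : ℕ) : ∃ φ : GMap 0 (bx (diag A) n) (diag (pw A n)),
    φ.dd = 0 ∧ Function.Bijective φ.f ∧
      ∀ σ x, φ.f (bxP (diag A) n σ x) = pwP A n σ (φ.f x) := by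
  refine ⟨⟨SmB_f A n, fun {i m} hm => ?_, fun a m => ?_, fun b m => ?_⟩, ?_, SmB_bij A n,
    SmB_perm A n⟩
  · rw [add_zero]
    exact SmB_deg A n hm
  · rw [Dg.sp_zero]
    exact SmB_l A n a m
  · exact SmB_r A n m b
  · refine LinearMap.ext (fun x => ?_)
    rw [GMap.dd_apply, sg_zero, one_smul, LinearMap.zero_apply, sub_eq_zero]
    exact SmB_d A n x

theorem symM_diag (A : DGA k) (n : ℕ) : BIso (symM (diag A) n) (diag (symP A n)) := by
  obtain ⟨φ, h0, hb, hp⟩ := exists_bxD A n
  have h1 : BIso (crM (bxE (diag A) n)) (crM (EqB.diag (pwAct A n))) := by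
    refine BIso.of_bij (crMap (bxE (diag A) n) (EqB.diag (pwAct A n)) φ hp) ?_ ?_
    · refine LinearMap.ext (fun x => ?_)
      rw [GMap.dd_apply, sg_zero, one_smul, LinearMap.zero_apply, sub_eq_zero]
      funext g
      exact GMap.d_f_zero h0 (x g)
    · constructor
      · intro x y hxy
        funext g
        exact hb.1 (congrFun hxy g)
      · intro y
        choose x hx using hb.2
        refine ⟨fun g => x (y g), ?_⟩
        funext g
        exact hx (y g)
  exact h1.trans (crM_diag (pwAct A n))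

private theorem SmB_bxMap_succ {A B : DGA k} {M N : Bim A B} (φ : GMap 0 M N) (n : ℕ) :
    bxMap φ (n + 1) = (φ.boxR (bx M n)).comp ((bxMap φ n).boxL N) (add_zero 0) := by
  refine GMap.ext (fun x => ?_)
  change TensorProduct.map φ.f (bxFam M N n fun _ => φ.f) x =
    TensorProduct.map (N.dg.sp 0) (bxFam M N n fun _ => φ.f)
      (TensorProduct.map φ.f LinearMap.id x)
  induction x using TensorProduct.induction_on with
  | zero => simp only [map_zero]
  | add x y hx hy => simp only [map_add, hx, hy]
  | tmul v x =>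
    rw [TensorProduct.map_tmul, TensorProduct.map_tmul, TensorProduct.map_tmul, Dg.sp_zero,
      LinearMap.id_apply]

private theorem SmB_id {A B : DGA k} {M N : Bim A B} (φ : GMap 0 M N) : QIso (bxMap φ 0) := by
  refine ⟨?_, ?_, ?_⟩
  · refine LinearMap.ext (fun x => ?_)
    rw [GMap.dd_apply, sg_zero, one_smul, LinearMap.zero_apply, sub_eq_zero]
    rfl
  · intro x _ h
    exact h
  · intro y hy
    exact ⟨y, hy, 0, by
      rw [map_zero]
      exact (sub_self y).symm⟩

/-- The tensor power of a quasi-isomorphism is a quasi-isomorphism. Proof. Künneth: `RQIso.boxR`,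
`RQIso.boxL`, `rqiso_iff`, and `bxMap φ (n + 1)` is the composition of `φ.boxR _` and
`(bxMap φ n).boxL _`. -/
theorem bxMap_qiso {A B : DGA k} {M N : Bim A B} (φ : GMap 0 M N) (h : QIso φ) (n : ℕ) :
    QIso (bxMap φ n) := by
  induction n with
  | zero => exact SmB_id φ
  | succ n ih =>
    rw [SmB_bxMap_succ]
    exact ((((rqiso_iff φ).2 h).boxR (bx M n)).comp (((rqiso_iff _).2 ih).boxL N)).qiso

theorem symMap_qiso {A B : DGA k} {M N : Bim A B} (φ : GMap 0 M N) (h : QIso φ) (n : ℕ) :
    QIso (symMap φ n) := by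
  have hn := bxMap_qiso φ h n
  refine ⟨symMap_dd φ h.1 n, ?_, ?_⟩
  · intro x hx hy
    obtain ⟨y, hy⟩ := hy
    have h1 : ∀ g, ∃ z, (bx M n).dg.d z = x g := fun g =>
      hn.2.1 (x g) (congrFun hx g) ⟨y g, congrFun hy g⟩
    choose z hz using h1
    refine ⟨z, ?_⟩
    funext g
    exact hz g
  · intro y hy
    have h1 : ∀ g, ∃ x, (bx M n).dg.d x = 0 ∧ ∃ z, (bx N n).dg.d z = y g - (bxMap φ n).f x :=
      fun g => hn.2.2 (y g) (congrFun hy g)
    choose x hx z hz using h1
    refine ⟨x, ?_, z, ?_⟩
    · funext g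
      exact hx g
    · funext g
      exact hz g

theorem bx_perf {A B : DGA k} {M : Bim A B} (h : Perf M) (n : ℕ) : Perf (bx M n) := by
  induction n with
  | zero =>
    have h1 : (diag (base k)).dg.FinCoh := (proper_iff (base k)).1 proper_base
    exact (perf_of_finCoh h1).1
  | succ n ih => exact h.box ih

end Pool.Agent.MP_6e5bed_ag_SY
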