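import Pool.Agent.Lib.MP_6e5bed_ag_SY.CrH
import Pool.Agent.Lib.MP_6e5bed_ag_SY.PwT
import Pool.Agent.Lib.MP_6e5bed_ag_SY.SmB

set_option autoImplicit false
set_option linter.unusedSectionVars false

/-!
# MP_6e5bed_ag (project SYM): symmetric powers of box products and of restrictions
-/

namespace Pool.Agent.MP_6e5bed_ag_SY

open Pool.Agent.MP_6e5bed_ag_NC
open Equiv
open scoped TensorProduct

universe u

variable {k : Type u} [Field k] {A A' B B' : DGA k}

section helpers

variable {C E : DGA k} {M N : Bim C E}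

private def ShN_mk (f : M.M →ₗ[k] N.M) (hdeg : ∀ {i : ℤ} {m : M.M}, M.dg.IsDeg i m →
    N.dg.IsDeg i (f m)) (hl : ∀ a m, f (M.l a m) = N.l a (f m))
    (hr : ∀ b m, f (M.r b m) = N.r b (f m)) : GMap 0 M N where
  f := f
  deg := fun {i m} hm => by
    rw [add_zero]
    exact hdeg hm
  map_l := fun a m => by
    rw [Dg.sp_zero]
    exact hl a m
  map_r := hr

private theorem ShN_dd (f : M.M →ₗ[k] N.M) (hdeg : ∀ {i : ℤ} {m : M.M}, M.dg.IsDeg i m →
    N.dg.IsDeg i (f m)) (hl : ∀ a m, f (M.l a m) = N.l a (f m))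
    (hr : ∀ b m, f (M.r b m) = N.r b (f m)) (hd : ∀ m, N.dg.d (f m) = f (M.dg.d m)) :
    (ShN_mk f hdeg hl hr).dd = 0 := by
  refine LinearMap.ext fun m => ?_
  rw [GMap.dd_apply, sg_zero, one_smul, LinearMap.zero_apply, sub_eq_zero]
  exact hd m

private theorem ShN_biso (f : M.M →ₗ[k] N.M) (hb : Function.Bijective f)
    (hdeg : ∀ {i : ℤ} {m : M.M}, M.dg.IsDeg i m → N.dg.IsDeg i (f m))
    (hl : ∀ a m, f (M.l a m) = N.l a (f m)) (hr : ∀ b m, f (M.r b m) = N.r b (f m))
    (hd : ∀ m, N.dg.d (f m) = f (M.dg.d m)) : BIso M N :=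
  BIso.of_bij (ShN_mk f hdeg hl hr) (ShN_dd f hdeg hl hr hd) hb

/-- the map on families -/
private def ShN_pi (G : Type) {V W : Type u} [AddCommGroup V] [Module k V] [AddCommGroup W]
    [Module k W] (f : V →ₗ[k] W) : (G → V) →ₗ[k] (G → W) :=
  LinearMap.pi fun g => f.comp (LinearMap.proj g)

private theorem ShN_pi_bij (G : Type) {V W : Type u} [AddCommGroup V] [Module k V]
    [AddCommGroup W] [Module k W] {f : V →ₗ[k] W} (hf : Function.Bijective f) :
    Function.Bijective (ShN_pi G f) := by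
  constructor
  · intro x y h
    funext g
    exact hf.1 (congrFun h g)
  · intro y
    choose x hx using fun g => hf.2 (y g)
    exact ⟨x, funext hx⟩

end helpers

/-- the identification of the tensor powers of the box product -/
private noncomputable def ShN_L (M : Bim A A') (N : Bim B B') (n : ℕ) :
    (box (bx M n) (bx N n)).M →ₗ[k] (bx (box M N) n).M :=
  TensorProduct.lift (bxSh M N n)

private theorem ShN_L_deg (M : Bim A A') (N : Bim B B') (n : ℕ) {i : ℤ}
    {x : (box (bx M n) (bx N n)).M} (hx : (box (bx M n) (bx N n)).dg.IsDeg i x) :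
    (bx (box M N) n).dg.IsDeg i (ShN_L M N n x) := by
  have h := Dg.tensor_degMap (X := (bx M n).dg) (Y := (bx N n).dg)
    (Z := (bx (box M N) n).dg) (n := 0) (ShN_L M N n) (fun i j v w hv hw => by
      rw [add_zero]
      exact bxBil_deg M N (box M N) (TensorProduct.mk k M.M N.M)
        (fun hm hn => Dg.tensor_deg hm hn) n hv hw) hx
  rwa [add_zero] at h

private theorem ShN_lift_d {V W U : Type u} [AddCommGroup V] [Module k V] [AddCommGroup W]
    [Module k W] [AddCommGroup U] [Module k U] {X : Dg k V} {Y : Dg k W} {Z : Dg k U}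
    (γ : V →ₗ[k] W →ₗ[k] U) (h : ∀ v w, Z.d (γ v w) = γ (X.d v) w + γ (X.s v) (Y.d w))
    (x : V ⊗[k] W) : Z.d (TensorProduct.lift γ x) =
      TensorProduct.lift γ ((X.tensor Y).d x) := by
  induction x using TensorProduct.induction_on with
  | zero => simp
  | add x y hx hy => simp only [map_add, hx, hy]
  | tmul v w =>
    rw [Dg.tensor_d, map_add, TensorProduct.lift.tmul, TensorProduct.lift.tmul,
      TensorProduct.lift.tmul, h]

private theorem ShN_L_d (M : Bim A A') (N : Bim B B') (n : ℕ)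
    (x : (box (bx M n) (bx N n)).M) :
    (bx (box M N) n).dg.d (ShN_L M N n x) = ShN_L M N n ((box (bx M n) (bx N n)).dg.d x) :=
  ShN_lift_d (X := (bx M n).dg) (Y := (bx N n).dg) (bxSh M N n)
    (fun v w => bxBil_d M N (box M N) (TensorProduct.mk k M.M N.M)
      (fun hm hn => Dg.tensor_deg hm hn) (fun m n => Dg.tensor_d m n) n v w) x

private theorem ShN_lift_map {V W U : Type u} [AddCommGroup V] [Module k V] [AddCommGroup W]
    [Module k W] [AddCommGroup U] [Module k U] (γ : V →ₗ[k] W →ₗ[k] U) (p : V →ₗ[k] V)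
    (q : W →ₗ[k] W) (r : U →ₗ[k] U) (h : ∀ v w, r (γ v w) = γ (p v) (q w)) (x : V ⊗[k] W) :
    TensorProduct.lift γ (TensorProduct.map p q x) = r (TensorProduct.lift γ x) := by
  induction x using TensorProduct.induction_on with
  | zero => simp
  | add x y hx hy => simp only [map_add, hx, hy]
  | tmul v w =>
    rw [TensorProduct.map_tmul, TensorProduct.lift.tmul, TensorProduct.lift.tmul, h]

private theorem ShN_L_perm (M : Bim A A') (N : Bim B B') (n : ℕ) (σ : Perm (Fin n))
    (x : (box (bx M n) (bx N n)).M) :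
    ShN_L M N n (((bxE M n).box (bxE N n)).b σ x) = bxP (box M N) n σ (ShN_L M N n x) :=
  ShN_lift_map (bxSh M N n) (bxP M n σ) (bxP N n σ) (bxP (box M N) n σ)
    (fun v w => bxBil_perm M N (box M N) (TensorProduct.mk k M.M N.M)
      (fun hm hn => Dg.tensor_deg hm hn) n σ v w) x

private theorem ShN_sh_perm (A B : DGA k) (n : ℕ) (σ : Perm (Fin n))
    (x : ((pw A n).tensor (pw B n)).A) :
    (shH A B n).f ((((pwAct A n).tensor (pwAct B n)).a σ).f x) =
      pwP (A.tensor B) n σ ((shH A B n).f x) :=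
  ShN_lift_map (pwSh A B n) (pwP A n σ) (pwP B n σ) (pwP (A.tensor B) n σ)
    (fun v w => shH_perm A B n σ v w) x

/-- The symmetric powers of `M ⊗ N` and `(M^{⊗n} ⊗ N^{⊗n}) ⋊ S_n`.

Proof. The map is `x ↦ (g ↦ lift (bxSh M N n) (x g))`; it is bijective by `bxSh_bij`, linear by
`bxSh_l`, `bxSh_r`, equivariant by `bxBil_perm`, closed and of degree `0` by `bxBil_deg`, `bxBil_d`
(`bxSh M N n = bxBil ..` by definition). -/
theorem sh_nat (M : Bim A A') (N : Bim B B') (n : ℕ) :
    BIso (res (DHom.id (cr ((pwAct A n).tensor (pwAct B n)))) (shS A' B' n).inv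
        (crM ((bxE M n).box (bxE N n))))
      (res (shS A B n).hom (DHom.id (symP (A'.tensor B') n)) (symM (box M N) n)) := by
  refine ShN_biso (ShN_pi (Perm (Fin n)) (ShN_L M N n)) (ShN_pi_bij _ (bxSh_bij M N n))
    (fun {i x} hx => ?_) (fun a x => ?_) (fun b x => ?_) (fun x => ?_)
  · exact dgPi_deg.2 fun g => ShN_L_deg M N n (dgPi_deg.1 hx g)
  · have h : ∀ g, ShN_L M N n (crL ((bxE M n).box (bxE N n)) a x g) =
        crL (bxE (box M N) n) ((shS A B n).hom.f a) (ShN_pi (Perm (Fin n)) (ShN_L M N n) x) g := by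
      intro g
      rw [crL_apply, crL_apply, map_sum]
      refine Finset.sum_congr rfl fun s _ => ?_
      refine (bxSh_l M N n (a s) _).trans ?_
      exact congrArg ((bx (box M N) n).l ((shH A B n).f (a s)))
        (ShN_L_perm M N n s (x (s⁻¹ * g)))
    exact funext h
  · have h0 : ∀ g, (shH A' B' n).f (((shS A' B' n).inv.f b : Perm (Fin n) → _) g) =
        (b : Perm (Fin n) → (pw (A'.tensor B') n).A) g := fun g =>
      congrFun ((shS A' B' n).inv_hom b) g
    have h : ∀ g, ShN_L M N n (crR ((bxE M n).box (bxE N n)) ((shS A' B' n).inv.f b) x g) =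
        crR (bxE (box M N) n) b (ShN_pi (Perm (Fin n)) (ShN_L M N n) x) g := by
      intro g
      rw [crR_apply, crR_apply, map_sum]
      refine Finset.sum_congr rfl fun s _ => ?_
      refine (bxSh_r M N n _ (x s)).trans ?_
      refine congrArg (fun z => (bx (box M N) n).r z (ShN_L M N n (x s))) ?_
      refine (ShN_sh_perm A' B' n s _).trans ?_
      exact congrArg (pwP (A'.tensor B') n s) (h0 (s⁻¹ * g))
    exact funext h
  · exact funext fun g => ShN_L_d M N n (x g)

/-- The symmetric power of the bimodule of an isomorphism.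

Proof. Let `M = res id φ.inv (diag A)`. The map `bxFam M (diag A) n (fun _ => id)` is bijective,
equivariant and semilinear (`bxFam_l` for `DHom.id A` and `pwMap_id`, `bxFam_r` for `φ.inv`), and
`bx (diag A) n` is isomorphic to `diag (pw A n)` by `exists_bxD`. So `symM M n` is isomorphic to
`res id (symI φ n).inv` of `crM` of the diagonal, `crM_diag`. -/
theorem symM_iso (φ : DIso A B) (n : ℕ) :
    BIso (symM (res (DHom.id A) φ.inv (diag A)) n)
      (res (DHom.id (symP A n)) (symI φ n).inv (diag (symP A n))) := by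
  obtain ⟨θ, hθ, hθb, hθp⟩ := exists_bxD A n
  set M : Bim A B := res (DHom.id A) φ.inv (diag A) with hM
  let T : Fin n → (M.M →ₗ[k] (diag A).M) := fun _ => LinearMap.id
  have hT : ∀ s {i : ℤ} {m : M.M}, M.dg.IsDeg i m → (diag A).dg.IsDeg i (T s m) :=
    fun s {i m} hm => hm
  let ψ : (bx M n).M →ₗ[k] (pw A n).A := θ.f.comp (bxFam M (diag A) n T)
  have hψb : Function.Bijective ψ :=
    hθb.comp (bxFam_bij M (diag A) n T fun _ => Function.bijective_id)
  have hψdeg : ∀ {i : ℤ} {x : (bx M n).M}, (bx M n).dg.IsDeg i x →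
      (pw A n).dg.IsDeg i (ψ x) := fun {i x} hx => by
    have h1 := θ.deg (bxFam_deg M (diag A) n T hT hx)
    rwa [add_zero] at h1
  have hθd : ∀ y, (pw A n).dg.d (θ.f y) = θ.f ((bx (diag A) n).dg.d y) := fun y => by
    have h1 := LinearMap.congr_fun hθ y
    rw [GMap.dd_apply, sg_zero, one_smul, LinearMap.zero_apply, sub_eq_zero] at h1
    exact h1
  have hψd : ∀ x, (pw A n).dg.d (ψ x) = ψ ((bx M n).dg.d x) := fun x =>
    (hθd _).trans (congrArg θ.f (bxFam_d M (diag A) n T hT (fun _ _ => rfl) x))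
  have hψl : ∀ a x, ψ ((bx M n).l a x) = (pw A n).mul a (ψ x) := fun a x => by
    have h1 := bxFam_l (DHom.id A) M (diag A) n T hT (fun _ _ _ => rfl) a x
    rw [pwMap_id] at h1
    refine (congrArg θ.f h1).trans ?_
    refine (θ.map_l a _).trans ?_
    rw [Dg.sp_zero]
    rfl
  have hψr : ∀ b x, ψ ((bx M n).r b x) = (pw A n).mul (ψ x) ((pwMap φ.inv n).f b) :=
    fun b x => by
    have h1 := bxFam_r φ.inv M (diag A) n T hT (fun _ _ _ => rfl) b x
    exact (congrArg θ.f h1).trans (θ.map_r _ _)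
  have hψp : ∀ σ x, ψ (bxP M n σ x) = pwP A n σ (ψ x) := fun σ x => by
    have h1 := bxFam_perm M (diag A) n T (fun _ _ => rfl) σ x
    exact (congrArg θ.f h1.symm).trans (hθp σ _)
  refine ShN_biso (M := symM M n) (ShN_pi (Perm (Fin n)) ψ) (ShN_pi_bij _ hψb)
    (fun {i x} hx => ?_) (fun a x => ?_) (fun b x => ?_) (fun x => ?_)
  · exact dgPi_deg.2 fun g => hψdeg (dgPi_deg.1 hx g)
  · have h : ∀ g, ψ (crL (bxE M n) a x g) =
        crMul (pwAct A n) a (ShN_pi (Perm (Fin n)) ψ x) g := by
      intro g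
      rw [crL_apply, crMul_apply, map_sum]
      refine Finset.sum_congr rfl fun s _ => ?_
      refine (hψl (a s) _).trans ?_
      exact congrArg ((pw A n).mul (a s)) (hψp s (x (s⁻¹ * g)))
    exact funext h
  · have h : ∀ g, ψ (crR (bxE M n) b x g) =
        crMul (pwAct A n) (ShN_pi (Perm (Fin n)) ψ x) ((symI φ n).inv.f b) g := by
      intro g
      rw [crR_apply, crMul_apply, map_sum]
      refine Finset.sum_congr rfl fun s _ => ?_
      refine (hψr _ (x s)).trans ?_
      exact congrArg ((pw A n).mul (ψ (x s))) (pwMap_perm φ.inv n s _)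
    exact funext h
  · exact funext fun g => hψd (x g)

end Pool.Agent.MP_6e5bed_ag_SY
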