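import Pool.Agent.Lib.MP_6e5bed_ag_SY.PsiM
import Pool.Agent.Lib.MP_6e5bed_ag_SY.ShN
import Pool.Agent.Lib.MP_6e5bed_ag_SY.Dgl
import Pool.Agent.Lib.MP_6e5bed_ag_SY.UpDn
import Pool.Agent.Lib.MP_6e5bed_ag_SY.PrT
import Pool.Agent.Lib.MP_6e5bed_ag_SY.SbT

set_option autoImplicit false
set_option linter.unusedSectionVars false

/-!
# MP_6e5bed_ag (project SYM): the lax tensor structure of the symmetric powers
-/

namespace Pool.Agent.MP_6e5bed_ag_SY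

open Pool.Agent.MP_6e5bed_ag_NC
open CategoryTheory MonoidalCategory Equiv

universe u

variable {k : Type u} [Field k] {X Y Z X' Y' : SP k} {n : ℕ}

private theorem LaxA_id (E E' : SP k) : 𝟙 E ⊗ₘ 𝟙 E' = 𝟙 (E ⊗ E') := tensorHom_one

private theorem LaxA_tc {E₁ E₂ E₃ F₁ F₂ F₃ : SP k} (f : E₁ ⟶ E₂) (g : F₁ ⟶ F₂) (f' : E₂ ⟶ E₃)
    (g' : F₂ ⟶ F₃) : (f ⊗ₘ g) ≫ (f' ⊗ₘ g') = (f ≫ f') ⊗ₘ (g ≫ g') :=
  MonoidalCategory.tensorHom_comp_tensorHom f g f' g'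

private theorem LaxA_fst {E E' : SP k} (T : E ⟶ E) (c : ℚ) :
    𝟙 (E ⊗ E') - c • (T ⊗ₘ 𝟙 E') = (𝟙 E - c • T) ⊗ₘ 𝟙 E' := by
  have h1 : (𝟙 E - c • T) ⊗ₘ 𝟙 E' = 𝟙 E ⊗ₘ 𝟙 E' - (c • T) ⊗ₘ 𝟙 E' :=
    LinearMap.congr_fun (map_sub K0Q.box (𝟙 E : E ⟶ E) (c • T)) (𝟙 E' : E' ⟶ E')
  have h2 : (c • T) ⊗ₘ 𝟙 E' = c • (T ⊗ₘ 𝟙 E') :=
    LinearMap.congr_fun (map_smul K0Q.box c T) (𝟙 E' : E' ⟶ E')
  rw [h1, h2, LaxA_id]

private theorem LaxA_snd {E E' : SP k} (T : E' ⟶ E') (c : ℚ) :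
    𝟙 (E ⊗ E') - c • (𝟙 E ⊗ₘ T) = 𝟙 E ⊗ₘ (𝟙 E' - c • T) := by
  have h1 : 𝟙 E ⊗ₘ (𝟙 E' - c • T) = 𝟙 E ⊗ₘ 𝟙 E' - 𝟙 E ⊗ₘ (c • T) :=
    map_sub (K0Q.box (𝟙 E : E ⟶ E)) (𝟙 E' : E' ⟶ E') (c • T)
  have h2 : 𝟙 E ⊗ₘ (c • T) = c • (𝟙 E ⊗ₘ T) :=
    map_smul (K0Q.box (𝟙 E : E ⟶ E)) c T
  rw [h1, h2, LaxA_id]

theorem dlp_fst {E E' : SP k} (T : E ⟶ E) (N : ℕ) :
    dlp (T ⊗ₘ 𝟙 E') N = dlp T N ⊗ₘ 𝟙 E' := by
  induction N with
  | zero => exact (LaxA_id E E').symm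
  | succ N ih =>
    change dlp (T ⊗ₘ 𝟙 E') N ≫ (𝟙 (E ⊗ E') - ((N + 1 : ℕ) : ℚ)⁻¹ • (T ⊗ₘ 𝟙 E')) =
      (dlp T N ≫ (𝟙 E - ((N + 1 : ℕ) : ℚ)⁻¹ • T)) ⊗ₘ 𝟙 E'
    rw [ih, LaxA_fst, LaxA_tc, Category.comp_id]

theorem dlp_snd {E E' : SP k} (T : E' ⟶ E') (N : ℕ) :
    dlp (𝟙 E ⊗ₘ T) N = 𝟙 E ⊗ₘ dlp T N := by
  induction N with
  | zero => exact (LaxA_id E E').symm
  | succ N ih =>
    change dlp (𝟙 E ⊗ₘ T) N ≫ (𝟙 (E ⊗ E') - ((N + 1 : ℕ) : ℚ)⁻¹ • (𝟙 E ⊗ₘ T)) =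
      𝟙 E ⊗ₘ (dlp T N ≫ (𝟙 E' - ((N + 1 : ℕ) : ℚ)⁻¹ • T))
    rw [ih, LaxA_snd, LaxA_tc, Category.comp_id]

/-- Proof. `TT_fst` and `dlp_fst`. -/
theorem td_fst {E : SP k} (Γ : GrA (Perm (Fin n)) E.alg) (E' : SP k) :
    td (E := E ⊗ E') (Γ.fst E'.alg) = td Γ ⊗ₘ 𝟙 E' := by
  have h : TT (E := E ⊗ E') (Γ.fst E'.alg) (KS n) = TT Γ (KS n) ⊗ₘ 𝟙 E' := TT_fst Γ (KS n)
  unfold td
  exact (congrArg (fun T => dlp T (2 ^ n)) h).trans (dlp_fst _ _)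

theorem td_snd {E' : SP k} (Δ : GrA (Perm (Fin n)) E'.alg) (E : SP k) :
    td (E := E ⊗ E') (GrA.snd E.alg Δ) = 𝟙 E ⊗ₘ td Δ := by
  have h : TT (E := E ⊗ E') (GrA.snd E.alg Δ) (KS n) = 𝟙 E ⊗ₘ TT Δ (KS n) := TT_snd Δ (KS n)
  unfold td
  exact (congrArg (fun T => dlp T (2 ^ n)) h).trans (dlp_snd _ _)

variable [InvG k (Perm (Fin n))]

/-- The restriction along the diagonal, `S^n X ⊗ S^n Y ⟶ S^n (X ⊗ Y)`. -/
noncomputable def mu (X Y : SP k) (n : ℕ) [InvG k (Perm (Fin n))] :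
    symS X n ⊗ symS Y n ⟶ symS (X ⊗ Y) n :=
  up (B := symS (X ⊗ Y) n) (E := symS X n ⊗ symS Y n) (dgl X.alg Y.alg n)

/-- The induction along the diagonal, divided by `n`. -/
noncomputable def nu (X Y : SP k) (n : ℕ) [InvG k (Perm (Fin n))] :
    symS (X ⊗ Y) n ⟶ symS X n ⊗ symS Y n :=
  (n : ℚ)⁻¹ • dn (B := symS (X ⊗ Y) n) (E := symS X n ⊗ symS Y n) (dgl X.alg Y.alg n)

/-- Proof. `td_fst`, and `td_comm` for the bimodule of `dgl` with the grading `dgl_fst`. -/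
theorem tdS_mu_left (X Y : SP k) (n : ℕ) [InvG k (Perm (Fin n))] :
    (tdS X n ⊗ₘ 𝟙 (symS Y n)) ≫ mu X Y n = mu X Y n ≫ tdS (X ⊗ Y) n := by
  obtain ⟨q⟩ := dgl_fst X.alg Y.alg n
  have h1 : td (E := symS X n ⊗ symS Y n) ((symG X.alg n).fst (symS Y n).alg) =
      tdS X n ⊗ₘ 𝟙 (symS Y n) := td_fst (E := symS X n) (symG X.alg n) (symS Y n)
  rw [← h1]
  exact td_comm (E := symS X n ⊗ symS Y n) (F := symS (X ⊗ Y) n) q
    (diag_finCoh (symS X n ⊗ symS Y n))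

theorem tdS_mu_right (X Y : SP k) (n : ℕ) [InvG k (Perm (Fin n))] :
    (𝟙 (symS X n) ⊗ₘ tdS Y n) ≫ mu X Y n = mu X Y n ≫ tdS (X ⊗ Y) n := by
  obtain ⟨q⟩ := dgl_snd X.alg Y.alg n
  have h1 : td (E := symS X n ⊗ symS Y n) (GrA.snd (symS X n).alg (symG Y.alg n)) =
      𝟙 (symS X n) ⊗ₘ tdS Y n := td_snd (E' := symS Y n) (symG Y.alg n) (symS X n)
  rw [← h1]
  exact td_comm (E := symS X n ⊗ symS Y n) (F := symS (X ⊗ Y) n) q
    (diag_finCoh (symS X n ⊗ symS Y n))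

theorem tdS_mu (X Y : SP k) (n : ℕ) [InvG k (Perm (Fin n))] :
    (tdS X n ⊗ₘ tdS Y n) ≫ mu X Y n = mu X Y n ≫ tdS (X ⊗ Y) n := by
  have h1 : tdS X n ⊗ₘ tdS Y n =
      (tdS X n ⊗ₘ 𝟙 (symS Y n)) ≫ (𝟙 (symS X n) ⊗ₘ tdS Y n) := by
    rw [LaxA_tc, Category.comp_id, Category.id_comp]
  rw [h1, Category.assoc, tdS_mu_right, ← Category.assoc, tdS_mu_left, Category.assoc, tdS_tdS]

private theorem LaxA_mid {A B B' C : DGA k} (φ : DIso B B') (P : Bim A B) (Q : Bim B' C) :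
    BIso (tb (res (DHom.id A) φ.inv P) Q) (tb P (res φ.hom (DHom.id C) Q)) := by
  have h1 : BIso (tb (res (DHom.id A) φ.inv P)
      (res φ.inv (DHom.id C) (res φ.hom (DHom.id C) Q))) (tb P (res φ.hom (DHom.id C) Q)) :=
    tb_res_mid φ.symm P (res φ.hom (DHom.id C) Q)
  have h2 : φ.inv.comp φ.hom = DHom.id B' := DHom.ext φ.inv_hom
  have h3 : res φ.inv (DHom.id C) (res φ.hom (DHom.id C) Q) = Q := by
    change res (φ.inv.comp φ.hom) ((DHom.id C).comp (DHom.id C)) Q = Q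
    rw [h2]
    rfl
  rwa [h3] at h1

private theorem LaxA_gen {E E' C C' D D' : DGA k} (φ : DIso C D) (φ' : DIso C' D')
    (δ : DHom C E) (δ' : DHom C' E') (T : Bim E E) (P : Bim C C') (Q : Bim D D') (R : Bim E E')
    (hs : BIso (res (DHom.id C) φ'.inv P) (res φ.hom (DHom.id D') Q))
    (hc : BIso (tb (res (DHom.id E) δ T) P) (res (DHom.id E) δ' R)) :
    BIso (tb (res (DHom.id E) (φ.inv.comp δ) T) Q) (res (DHom.id E) (φ'.inv.comp δ') R) := by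
  have h1 : BIso (tb (res (DHom.id E) (φ.inv.comp δ) T) Q)
      (tb (res (DHom.id E) δ T) (res φ.hom (DHom.id D') Q)) :=
    LaxA_mid φ (res (DHom.id E) δ T) Q
  have h2 : BIso (tb (res (DHom.id E) δ T) (res φ.hom (DHom.id D') Q))
      (tb (res (DHom.id E) δ T) (res (DHom.id C) φ'.inv P)) :=
    (tbL (res (DHom.id E) δ T) D').biso hs.symm
  have h3 : BIso (res (DHom.id E) φ'.inv (tb (res (DHom.id E) δ T) P))
      (tb (res (DHom.id E) δ T) (res (DHom.id C) φ'.inv P)) :=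
    res_tb (DHom.id E) φ'.inv (res (DHom.id E) δ T) P
  have h4 : BIso (res (DHom.id E) φ'.inv (tb (res (DHom.id E) δ T) P))
      (res (DHom.id E) (φ'.inv.comp δ') R) :=
    (resF (DHom.id E) φ'.inv).biso hc
  exact h1.trans (h2.trans (h3.symm.trans h4))

/-- The induction along the diagonal of the symmetric power of a box product. -/
theorem LaxA_biso {A A' B B' : DGA k} (M : Bim A A') (N : Bim B B') (n : ℕ) :
    BIso (tb (res (DHom.id ((symP A n).tensor (symP B n))) (dgl A B n)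
        (diag ((symP A n).tensor (symP B n)))) (symM (box M N) n))
      (res (DHom.id ((symP A n).tensor (symP B n))) (dgl A' B' n)
        (box (symM M n) (symM N n))) :=
  LaxA_gen (shS A B n) (shS A' B' n) (crDl (pwAct A n) (pwAct B n))
    (crDl (pwAct A' n) (pwAct B' n)) (diag ((symP A n).tensor (symP B n)))
    (crM ((bxE M n).box (bxE N n))) (symM (box M N) n) (box (symM M n) (symM N n))
    (sh_nat M N n) (cr_nat (bxE M n) (bxE N n))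

/-- Proof. `up (dgl ..) = up (crDl ..) ≫ ofIso (shS ..)` (`up_comp`, `up_inv`; the middle object is
`cr (pwAct ⊗ pwAct)`, smooth and proper since it is isomorphic to the symmetric power; or avoid it:
`up_cl` for `dgl_sta`, and the bimodule isomorphism `E ⊗_{S^n(X ⊗ Y)} symM (box M N) n ≅
res id (dgl ..) (box (symM M n) (symM N n))` obtained from `cr_nat` and `sh_nat`). Then `cl_box` and
`cl_up`. -/
theorem mu_clS {M : Bim X.alg X'.alg} {N : Bim Y.alg Y'.alg} (hM : M.dg.FinCoh)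
    (hN : N.dg.FinCoh) (n : ℕ) [InvG k (Perm (Fin n))] :
    mu X Y n ≫ clS (X := X ⊗ Y) (Y := X' ⊗ Y') (box M N) n =
      (clS M n ⊗ₘ clS N n) ≫ mu X' Y' n := by
  have h1 : mu X Y n ≫ clS (X := X ⊗ Y) (Y := X' ⊗ Y') (box M N) n =
      cl (X := symS X n ⊗ symS Y n) (Y := symS (X' ⊗ Y') n)
        (tb (res (DHom.id (symS X n ⊗ symS Y n).alg) (dgl X.alg Y.alg n)
          (diag (symS X n ⊗ symS Y n).alg)) (symM (box M N) n)) :=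
    up_cl (B := symS (X ⊗ Y) n) (E := symS X n ⊗ symS Y n) (X := symS (X' ⊗ Y') n)
      (dgl_sta X.alg Y.alg n) (fun x => TwG.trans x)
      (symM_finCoh (X := X ⊗ Y) (Y := X' ⊗ Y') (box_finCoh hM hN) n)
  have h2 : cl (X := symS X n ⊗ symS Y n) (Y := symS X' n ⊗ symS Y' n)
      (box (symM M n) (symM N n)) = clS M n ⊗ₘ clS N n :=
    cl_box (X := symS X n) (Y := symS X' n) (X' := symS Y n) (Y' := symS Y' n)
      (symM_finCoh hM n) (symM_finCoh hN n)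
  rw [h1, ← h2]
  refine Eq.trans ?_ (cl_up (X := symS X n ⊗ symS Y n) (E := symS X' n ⊗ symS Y' n)
    (B := symS (X' ⊗ Y') n) (M := box (symM M n) (symM N n))
    (box_finCoh (X := symS X n) (Y := symS X' n) (X' := symS Y n) (Y' := symS Y' n)
      (symM_finCoh hM n) (symM_finCoh hN n)) (dgl X'.alg Y'.alg n)).symm
  exact cl_iso (X := symS X n ⊗ symS Y n) (Y := symS (X' ⊗ Y') n) (LaxA_biso M N n)

/-- Proof. Both sides are bilinear in `f`, `g`; for the classes of perfect bimodules use `psi_cls`,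
`psi_cl`, `cl_box`, `mu_clS`, `tdS_mu`. -/
theorem mu_nat (hn : 0 < n) (f : X ⟶ X') (g : Y ⟶ Y') :
    (psi n hn f ⊗ₘ psi n hn g) ≫ mu X' Y' n = mu X Y n ≫ psi n hn (f ⊗ₘ g) := by
  have key : ∀ (M : Bim X.alg X'.alg) (hM : Perf M) (N : Bim Y.alg Y'.alg) (hN : Perf N),
      (psi n hn (X := X) (Y := X') (cls M hM) ⊗ₘ psi n hn (X := Y) (Y := Y') (cls N hN)) ≫
        mu X' Y' n = mu X Y n ≫ psi n hn (X := X ⊗ Y) (Y := X' ⊗ Y')
          (K0Q.box (cls M hM) (cls N hN)) := by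
    intro M hM N hN
    have hM' : M.dg.FinCoh := perf_finCoh hM
    have hN' : N.dg.FinCoh := perf_finCoh hN
    have h1 : (K0Q.box (cls M hM) (cls N hN) : K0Q (X.alg.tensor Y.alg) (X'.alg.tensor Y'.alg)) =
        cl (X := X ⊗ Y) (Y := X' ⊗ Y') (box M N) := by
      refine Eq.trans ?_ (cl_box hM' hN').symm
      rw [cl_perf hM, cl_perf hN]
      rfl
    have h2 : psi n hn (X := X ⊗ Y) (Y := X' ⊗ Y') (K0Q.box (cls M hM) (cls N hN)) =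
        tdS (X ⊗ Y) n ≫ clS (X := X ⊗ Y) (Y := X' ⊗ Y') (box M N) n :=
      (congrArg (psi n hn (X := X ⊗ Y) (Y := X' ⊗ Y')) h1).trans
        (psi_cl (X := X ⊗ Y) (Y := X' ⊗ Y') hn (box_finCoh hM' hN'))
    rw [psi_cls, psi_cls, h2, ← LaxA_tc, Category.assoc, ← mu_clS hM' hN', ← Category.assoc,
      tdS_mu, Category.assoc]
  have h : ((LinearMap.compr₂ (LinearMap.compl₁₂ (K0Q.box (A := (symS X n).alg)
      (B := (symS X' n).alg) (A' := (symS Y n).alg) (B' := (symS Y' n).alg))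
      (psi n hn (X := X) (Y := X')) (psi n hn (X := Y) (Y := Y')))
      (Linear.rightComp ℚ (symS X n ⊗ symS Y n) (mu X' Y' n)))) =
      ((LinearMap.compr₂ (K0Q.box (A := X.alg) (B := X'.alg) (A' := Y.alg) (B' := Y'.alg))
        ((Linear.leftComp ℚ (symS (X' ⊗ Y') n) (mu X Y n)).comp
          (psi n hn (X := X ⊗ Y) (Y := X' ⊗ Y'))))) :=
    K0Q.ind₂ fun M hM N hN => key M hM N hN
  exact LinearMap.congr_fun (LinearMap.congr_fun h f) g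

end Pool.Agent.MP_6e5bed_ag_SY
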