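import Pool.Agent.Lib.MP_6e5bed_ag_SY.LaxA
import Pool.Agent.Lib.MP_6e5bed_ag_SY.AbsB

set_option autoImplicit false
set_option linter.unusedSectionVars false

/-!
# MP_6e5bed_ag (project SYM): associativity, symmetry and splitting
-/

namespace Pool.Agent.MP_6e5bed_ag_SY

open Pool.Agent.MP_6e5bed_ag_NC
open CategoryTheory MonoidalCategory Equiv

universe u

variable {k : Type u} [Field k] {X Y Z X' Y' : SP k} {n : ℕ} [InvG k (Perm (Fin n))]

/-- Proof. `ofIso φ = cl (res id φ.inv diag)` (`up_inv`), and `symM_iso`, `up_inv`. -/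
theorem clS_iso (φ : DIso X.alg Y.alg) (n : ℕ) [InvG k (Perm (Fin n))] :
    clS (res (DHom.id X.alg) φ.inv (diag X.alg)) n =
      ofIso (A := symS X n) (B := symS Y n) (symI φ n) := by
  have h1 : clS (X := X) (Y := Y) (res (DHom.id X.alg) φ.inv (diag X.alg)) n =
      up (B := symS Y n) (E := symS X n) (symI φ n).inv :=
    cl_iso (X := symS X n) (Y := symS Y n) (symM_iso φ n)
  rw [h1]
  exact up_inv (E := symS X n) (B := symS Y n) (symI φ n)

/-- Proof. `psi_cl` and `clS_iso`. -/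
theorem psi_ofIso (hn : 0 < n) (φ : DIso X.alg Y.alg) :
    psi n hn (ofIso φ) = tdS X n ≫ ofIso (A := symS X n) (B := symS Y n) (symI φ n) := by
  rw [← up_inv φ]
  unfold up
  rw [psi_cl hn (res_finCoh _ _ (diag_finCoh X)), clS_iso]

/-- Proof. `tdS_clS` and `clS_iso`. -/
theorem tdS_ofIso (φ : DIso X.alg Y.alg) (n : ℕ) [InvG k (Perm (Fin n))] :
    tdS X n ≫ ofIso (A := symS X n) (B := symS Y n) (symI φ n) =
      ofIso (A := symS X n) (B := symS Y n) (symI φ n) ≫ tdS Y n := by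
  rw [← clS_iso φ n]
  exact tdS_clS (res_finCoh _ _ (diag_finCoh X)) n

private theorem LaxB_assoc_up (X Y Z : SP k) : (α_ X Y Z).hom =
    up (B := X ⊗ (Y ⊗ Z)) (E := (X ⊗ Y) ⊗ Z) (assocIso X.alg Y.alg Z.alg).inv :=
  (up_inv (E := (X ⊗ Y) ⊗ Z) (B := X ⊗ (Y ⊗ Z)) (assocIso X.alg Y.alg Z.alg)).symm

private theorem LaxB_swap_up (X Y : SP k) : (β_ X Y).hom =
    up (B := Y ⊗ X) (E := X ⊗ Y) (swapIso X.alg Y.alg).inv :=
  (up_inv (E := X ⊗ Y) (B := Y ⊗ X) (swapIso X.alg Y.alg)).symm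

/-- Proof. `f ▷ Z = f ⊗ₘ 𝟙 Z`; write all morphisms as `up`: `up_id`, `up_tensor`, `up_comp`, and
`ofIso φ = up φ.inv` (`up_inv`), where `(α_ X Y Z).hom = ofIso (assocIso ..)` by definition. The
identity is `dgl_assoc`, together with `psi_ofIso`, `tdS_ofIso`, `tdS_mu` and `tdS_tdS`. -/
theorem mu_assoc (hn : 0 < n) (X Y Z : SP k) :
    (mu X Y n ▷ symS Z n) ≫ mu (X ⊗ Y) Z n ≫ psi n hn (α_ X Y Z).hom =
      (α_ (symS X n) (symS Y n) (symS Z n)).hom ≫ (symS X n ◁ mu Y Z n) ≫ mu X (Y ⊗ Z) n ≫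
        tdS (X ⊗ (Y ⊗ Z)) n := by
  have e1 : psi n hn (α_ X Y Z).hom =
      ofIso (A := symS ((X ⊗ Y) ⊗ Z) n) (B := symS (X ⊗ (Y ⊗ Z)) n)
        (symI (assocIso X.alg Y.alg Z.alg) n) ≫ tdS (X ⊗ (Y ⊗ Z)) n :=
    (psi_ofIso (X := (X ⊗ Y) ⊗ Z) (Y := X ⊗ (Y ⊗ Z)) hn (assocIso X.alg Y.alg Z.alg)).trans
      (tdS_ofIso (X := (X ⊗ Y) ⊗ Z) (Y := X ⊗ (Y ⊗ Z)) (assocIso X.alg Y.alg Z.alg) n)
  have e2 : ofIso (A := symS ((X ⊗ Y) ⊗ Z) n) (B := symS (X ⊗ (Y ⊗ Z)) n)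
      (symI (assocIso X.alg Y.alg Z.alg) n) =
        up (B := symS (X ⊗ (Y ⊗ Z)) n) (E := symS ((X ⊗ Y) ⊗ Z) n)
          (symI (assocIso X.alg Y.alg Z.alg) n).inv :=
    (up_inv (E := symS ((X ⊗ Y) ⊗ Z) n) (B := symS (X ⊗ (Y ⊗ Z)) n)
      (symI (assocIso X.alg Y.alg Z.alg) n)).symm
  have e3 : mu X Y n ▷ symS Z n =
      up (B := symS (X ⊗ Y) n ⊗ symS Z n) (E := (symS X n ⊗ symS Y n) ⊗ symS Z n)
        ((dgl X.alg Y.alg n).tensor (DHom.id (symP Z.alg n))) := by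
    have h1 := up_tensor (B := symS (X ⊗ Y) n) (E := symS X n ⊗ symS Y n) (B' := symS Z n)
      (E' := symS Z n) (dgl X.alg Y.alg n) (DHom.id (symP Z.alg n))
    rw [← tensorHom_id]
    refine Eq.trans ?_ h1
    have h2 : up (B := symS Z n) (E := symS Z n) (DHom.id (symP Z.alg n)) = 𝟙 (symS Z n) :=
      up_id (E := symS Z n)
    rw [h2]
    rfl
  have e4 : symS X n ◁ mu Y Z n =
      up (B := symS X n ⊗ symS (Y ⊗ Z) n) (E := symS X n ⊗ (symS Y n ⊗ symS Z n))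
        ((DHom.id (symP X.alg n)).tensor (dgl Y.alg Z.alg n)) := by
    have h1 := up_tensor (B := symS X n) (E := symS X n) (B' := symS (Y ⊗ Z) n)
      (E' := symS Y n ⊗ symS Z n) (DHom.id (symP X.alg n)) (dgl Y.alg Z.alg n)
    rw [← id_tensorHom]
    refine Eq.trans ?_ h1
    have h2 : up (B := symS X n) (E := symS X n) (DHom.id (symP X.alg n)) = 𝟙 (symS X n) :=
      up_id (E := symS X n)
    rw [h2]
    rfl
  have e5 : ((mu X Y n ▷ symS Z n) ≫ mu (X ⊗ Y) Z n) ≫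
      ofIso (A := symS ((X ⊗ Y) ⊗ Z) n) (B := symS (X ⊗ (Y ⊗ Z)) n)
        (symI (assocIso X.alg Y.alg Z.alg) n) =
      ((α_ (symS X n) (symS Y n) (symS Z n)).hom ≫ (symS X n ◁ mu Y Z n)) ≫
        mu X (Y ⊗ Z) n := by
    rw [e2, e3, e4, LaxB_assoc_up]
    have h1 := up_comp (E := (symS X n ⊗ symS Y n) ⊗ symS Z n) (B := symS (X ⊗ Y) n ⊗ symS Z n)
      (C := symS ((X ⊗ Y) ⊗ Z) n) ((dgl X.alg Y.alg n).tensor (DHom.id (symP Z.alg n)))
      (dgl (X.alg.tensor Y.alg) Z.alg n)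
    have h2 := up_comp (E := (symS X n ⊗ symS Y n) ⊗ symS Z n) (B := symS ((X ⊗ Y) ⊗ Z) n)
      (C := symS (X ⊗ (Y ⊗ Z)) n) ((dgl (X.alg.tensor Y.alg) Z.alg n).comp
        ((dgl X.alg Y.alg n).tensor (DHom.id (symP Z.alg n))))
      (symI (assocIso X.alg Y.alg Z.alg) n).inv
    have h3 := up_comp (E := (symS X n ⊗ symS Y n) ⊗ symS Z n)
      (B := symS X n ⊗ (symS Y n ⊗ symS Z n)) (C := symS X n ⊗ symS (Y ⊗ Z) n)
      (assocIso (symP X.alg n) (symP Y.alg n) (symP Z.alg n)).inv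
      ((DHom.id (symP X.alg n)).tensor (dgl Y.alg Z.alg n))
    have h4 := up_comp (E := (symS X n ⊗ symS Y n) ⊗ symS Z n)
      (B := symS X n ⊗ symS (Y ⊗ Z) n) (C := symS (X ⊗ (Y ⊗ Z)) n)
      (((DHom.id (symP X.alg n)).tensor (dgl Y.alg Z.alg n)).comp
        (assocIso (symP X.alg n) (symP Y.alg n) (symP Z.alg n)).inv)
      (dgl X.alg (Y.alg.tensor Z.alg) n)
    refine ((congrArg (fun z => z ≫ up (B := symS (X ⊗ (Y ⊗ Z)) n)
      (E := symS ((X ⊗ Y) ⊗ Z) n) (symI (assocIso X.alg Y.alg Z.alg) n).inv) h1).trans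
        h2).trans ?_
    refine Eq.trans ?_ ((congrArg (fun z => z ≫ mu X (Y ⊗ Z) n) h3).trans h4).symm
    exact congrArg (fun z => up (B := symS (X ⊗ (Y ⊗ Z)) n)
      (E := (symS X n ⊗ symS Y n) ⊗ symS Z n) z) (dgl_assoc X.alg Y.alg Z.alg n)
  rw [e1]
  simp only [← Category.assoc]
  rw [e5]

/-- Proof. In the same way from `dgl_symm`; `(β_ X Y).hom = ofIso (swapIso ..)` by definition. -/
theorem mu_symm (hn : 0 < n) (X Y : SP k) :
    mu X Y n ≫ psi n hn (β_ X Y).hom =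
      (β_ (symS X n) (symS Y n)).hom ≫ mu Y X n ≫ tdS (Y ⊗ X) n := by
  have e1 : psi n hn (β_ X Y).hom =
      ofIso (A := symS (X ⊗ Y) n) (B := symS (Y ⊗ X) n)
        (symI (swapIso X.alg Y.alg) n) ≫ tdS (Y ⊗ X) n :=
    (psi_ofIso (X := X ⊗ Y) (Y := Y ⊗ X) hn (swapIso X.alg Y.alg)).trans
      (tdS_ofIso (X := X ⊗ Y) (Y := Y ⊗ X) (swapIso X.alg Y.alg) n)
  have e2 : ofIso (A := symS (X ⊗ Y) n) (B := symS (Y ⊗ X) n)
      (symI (swapIso X.alg Y.alg) n) =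
        up (B := symS (Y ⊗ X) n) (E := symS (X ⊗ Y) n)
          (symI (swapIso X.alg Y.alg) n).inv :=
    (up_inv (E := symS (X ⊗ Y) n) (B := symS (Y ⊗ X) n)
      (symI (swapIso X.alg Y.alg) n)).symm
  have e5 : mu X Y n ≫ ofIso (A := symS (X ⊗ Y) n) (B := symS (Y ⊗ X) n)
      (symI (swapIso X.alg Y.alg) n) = (β_ (symS X n) (symS Y n)).hom ≫ mu Y X n := by
    rw [e2, LaxB_swap_up]
    have h1 := up_comp (E := symS X n ⊗ symS Y n) (B := symS (X ⊗ Y) n)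
      (C := symS (Y ⊗ X) n) (dgl X.alg Y.alg n) (symI (swapIso X.alg Y.alg) n).inv
    have h2 := up_comp (E := symS X n ⊗ symS Y n) (B := symS Y n ⊗ symS X n)
      (C := symS (Y ⊗ X) n) (swapIso (symP X.alg n) (symP Y.alg n)).inv
      (dgl Y.alg X.alg n)
    refine h1.trans (Eq.trans ?_ h2.symm)
    exact congrArg (fun z => up (B := symS (Y ⊗ X) n) (E := symS X n ⊗ symS Y n) z)
      (dgl_symm X.alg Y.alg n)
  rw [e1]
  simp only [← Category.assoc]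
  rw [e5]

/-- Proof. `up ≫ dn = TT ((symG ..).prod (symG ..)) (TwG ..)` by `up_dn` (`dgl_sta`, `TwG.trans`).
Both sides of the claim (multiplied by `n`) are `IsVir` for the product grading: the left side by
`IsVir.prod` (`td_vir`), `IsVir.set` and `IsVir.mul`, with the character `(σ, τ) ↦ χ σ χ τ f (σ, τ)`,
where `χ σ = 1` if `fxn (KS n) σ = 0` and `0` otherwise and `f` is the number of fixed points on
`TwG`; by `card_tw` it is `n χ σ χ τ`. Use `IsVir.congr`. -/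
theorem mu_split (hn : 0 < n) (X Y : SP k) :
    (tdS X n ⊗ₘ tdS Y n) ≫ mu X Y n ≫ nu X Y n = tdS X n ⊗ₘ tdS Y n := by
  have h1 : mu X Y n ≫ nu X Y n = (n : ℚ)⁻¹ • TT (E := symS X n ⊗ symS Y n)
      ((symG X.alg n).prod (symG Y.alg n)) (TwG (Perm (Fin n))) := by
    unfold nu
    rw [Linear.comp_smul]
    refine congrArg (fun z => (n : ℚ)⁻¹ • z) ?_
    exact up_dn (B := symS (X ⊗ Y) n) (E := symS X n ⊗ symS Y n) (dgl_sta X.alg Y.alg n)
      TwG.trans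
  rw [h1]
  have v1 : IsVir (E := symS X n ⊗ symS Y n) ((symG X.alg n).prod (symG Y.alg n))
      (fun g => (if fxn (KS n) g.1 = 0 then 1 else 0) * (if fxn (KS n) g.2 = 0 then 1 else 0))
      (tdS X n ⊗ₘ tdS Y n) :=
    IsVir.prod (E := symS X n) (E' := symS Y n) (td_vir (E := symS X n) (symG X.alg n))
      (td_vir (E := symS Y n) (symG Y.alg n))
  have v2 : IsVir (E := symS X n ⊗ symS Y n) ((symG X.alg n).prod (symG Y.alg n))
      (fun g => (n : ℚ)⁻¹ * (fxn (TwG (Perm (Fin n))) g : ℚ))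
      ((n : ℚ)⁻¹ • TT (E := symS X n ⊗ symS Y n)
        ((symG X.alg n).prod (symG Y.alg n)) (TwG (Perm (Fin n)))) :=
    (IsVir.set (E := symS X n ⊗ symS Y n) ((symG X.alg n).prod (symG Y.alg n))
      (TwG (Perm (Fin n)))).smul _
  refine IsVir.congr (v1.mul v2) v1 fun g => ?_
  by_cases ha : fxn (KS n) g.1 = 0
  · by_cases hb : fxn (KS n) g.2 = 0
    · have hc : fxn (TwG (Perm (Fin n))) g = n := card_tw hn g.1 g.2 ha hb
      rw [if_pos ha, if_pos hb, hc, inv_mul_cancel₀ (Nat.cast_ne_zero.2 hn.ne')]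
      simp
    · simp [hb]
  · simp [ha]

/-- The data of the functor `X ↦ (S^n X, td)`. -/
noncomputable def kdata (k : Type u) [Field k] (n : ℕ) [InvG k (Perm (Fin n))] (hn : 0 < n) :
    KData (SP k) where
  S := fun X => symS X n
  e := fun X => tdS X n
  map := fun f => psi n hn f
  map_add := fun f g => map_add (psi n hn) f g
  map_id := fun X => psi_id hn X
  map_comp := fun f g => psi_comp hn f g
  μ := fun X Y => mu X Y n
  e_μ := fun X Y => tdS_mu X Y n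
  nat := fun f g => mu_nat hn f g
  assoc := fun X Y Z => mu_assoc hn X Y Z
  symm := fun X Y => mu_symm hn X Y
  ν := fun X Y => nu X Y n
  split := fun X Y => mu_split hn X Y

end Pool.Agent.MP_6e5bed_ag_SY
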