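import Pool.Agent.Lib.MP_6e5bed_ag_SY.CrPr
import Pool.Agent.Lib.MP_6e5bed_ag_SY.CatP
import Pool.Agent.Lib.MP_6e5bed_ag_SY.UpDn
import Pool.Agent.Lib.MP_6e5bed_ag_SY.Dl

set_option autoImplicit false
set_option linter.unusedSectionVars false

/-!
# MP_6e5bed_ag (project SYM): Young subalgebras `S^a A ⊗ S^b A` of `S^(a + b) A`
-/

namespace Pool.Agent.MP_6e5bed_ag_SY

open Pool.Agent.MP_6e5bed_ag_NC
open CategoryTheory MonoidalCategory Equiv

universe u

variable {k : Type u} [Field k]

/-- The Young homomorphism `S^a A ⊗ S^b A → S^(a + b) A`. -/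
noncomputable def youngD (A : DGA k) (a b : ℕ) :
    DHom ((symP A a).tensor (symP A b)) (symP A (a + b)) :=
  (crPr (pwAct A a) (pwAct A b)).comp
    ((crH ((pwAct A a).prod (pwAct A b)) ((pwAct A (a + b)).comap (blk a b)) (catD A a b)
      (fun g x => (catD_perm A a b g x).symm)).comp
        (crRe (pwAct A (a + b)) (blk a b) (blk_injective a b)))

private theorem Young_surj (A : DGA k) (a b : ℕ)
    (c : (cr ((pwAct A (a + b)).comap (blk a b))).A) :
    ∃ y : ((symP A a).tensor (symP A b)).A,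
      (crH ((pwAct A a).prod (pwAct A b)) ((pwAct A (a + b)).comap (blk a b)) (catD A a b)
        (fun g x => (catD_perm A a b g x).symm)).f ((crPr (pwAct A a) (pwAct A b)).f y) = c := by
  choose z hz using fun g : Perm (Fin a) × Perm (Fin b) => (catD_bij A a b).2
    ((c : Perm (Fin a) × Perm (Fin b) → (pw A (a + b)).A) g)
  obtain ⟨y, hy⟩ := (prM_bij (k := k) (G := Perm (Fin a)) (G' := Perm (Fin b)) (pw A a).A
    (pw A b).A).2 z
  refine ⟨y, ?_⟩
  have h1 : (crPr (pwAct A a) (pwAct A b)).f y = z := hy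
  rw [h1]
  funext g
  exact hz g

private theorem Young_inj (A : DGA k) (a b : ℕ) {x y : ((symP A a).tensor (symP A b)).A}
    (h : (crH ((pwAct A a).prod (pwAct A b)) ((pwAct A (a + b)).comap (blk a b)) (catD A a b)
        (fun g x => (catD_perm A a b g x).symm)).f ((crPr (pwAct A a) (pwAct A b)).f x) =
      (crH ((pwAct A a).prod (pwAct A b)) ((pwAct A (a + b)).comap (blk a b)) (catD A a b)
        (fun g x => (catD_perm A a b g x).symm)).f ((crPr (pwAct A a) (pwAct A b)).f y)) :
    x = y := by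
  refine (prM_bij (k := k) (G := Perm (Fin a)) (G' := Perm (Fin b)) (pw A a).A
    (pw A b).A).1 ?_
  funext g
  exact (catD_bij A a b).1 (congrFun h g)

/-- Proof. Injective: all three homomorphisms are. Range: the first two are bijective (`prM_bij`,
`catD_bij`); the range of the third is described by `crRe_range`, and `stabilizer_Sb0`. -/
theorem youngD_sta (A : DGA k) (a b : ℕ) :
    IsSta (symG A (a + b)) (Sb0 a b) (youngD A a b) := by
  refine ⟨fun x y h => Young_inj A a b (crRe_inj _ _ (blk_injective a b) h), fun e => ?_⟩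
  have h1 := crRe_range (pwAct A (a + b)) (blk a b) (blk_injective a b) e
  constructor
  · rintro ⟨y, hy⟩ g hg
    refine h1.1 ⟨_, hy⟩ g fun h2 => hg ((stabilizer_Sb0 a b g).2 h2)
  · intro h
    obtain ⟨c, hc⟩ := h1.2 fun g hg => h g fun h2 => hg ((stabilizer_Sb0 a b g).1 h2)
    obtain ⟨y, hy⟩ := Young_surj A a b c
    refine ⟨y, ?_⟩
    have h2 := congrArg (crRe (pwAct A (a + b)) (blk a b) (blk_injective a b)).f hy
    exact h2.trans hc

/-- The operator of the set of the subsets with `a` elements factors through `S^a X ⊗ S^b X`.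

Proof. `subst h`; `up_dn` for `youngD_sta` (with `SbI.transitive`) as a homomorphism from the dg
algebra of `symS X a ⊗ symS X b` to that of `symS X (a + b)`. -/
theorem young_TT (X : SP k) (n a b : ℕ) (h : a + b = n) [InvG k (Perm (Fin n))]
    [InvG k (Perm (Fin a))] [InvG k (Perm (Fin b))] :
    ∃ (f : symS X n ⟶ symS X a ⊗ symS X b) (g : symS X a ⊗ symS X b ⟶ symS X n),
      TT (E := symS X n) (symG X.alg n) (SbI n a) = f ≫ g := by
  subst h
  exact ⟨up (B := symS X a ⊗ symS X b) (E := symS X (a + b)) (youngD X.alg a b),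
    dn (B := symS X a ⊗ symS X b) (E := symS X (a + b)) (youngD X.alg a b),
    (up_dn (B := symS X a ⊗ symS X b) (E := symS X (a + b)) (youngD_sta X.alg a b)
      (SbI.transitive (a + b) a (Sb0 a b))).symm⟩

/-- The identity is the sum of the idempotent and of morphisms through tensor products of smaller
symmetric powers.

Proof. `td_split`: `𝟙 = td + TT (KS (n + 1)) ≫ s`; `KS_sum`, `TT_equiv`, `TT_sigma`, `young_TT`. -/
theorem exists_young (X : SP k) (n : ℕ) [InvG k (Perm (Fin (n + 1)))]
    [∀ i : Fin n, InvG k (Perm (Fin ((i : ℕ) + 1)))] [∀ i : Fin n, InvG k (Perm (Fin (n - i)))] :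
    ∃ (f : ∀ i : Fin n, symS X (n + 1) ⟶ symS X (i + 1) ⊗ symS X (n - i))
      (g : ∀ i : Fin n, symS X (i + 1) ⊗ symS X (n - i) ⟶ symS X (n + 1)),
      𝟙 (symS X (n + 1)) = td (E := symS X (n + 1)) (symG X.alg (n + 1)) +
        ∑ i, f i ≫ g i := by
  obtain ⟨s, hs⟩ := td_split (E := symS X (n + 1)) (symG X.alg (n + 1))
  obtain ⟨e, he⟩ := KS_sum n
  have h1 : TT (E := symS X (n + 1)) (symG X.alg (n + 1)) (KS (n + 1)) =
      ∑ i : Fin n, TT (E := symS X (n + 1)) (symG X.alg (n + 1)) (SbI (n + 1) (i + 1)) := by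
    rw [TT_equiv (E := symS X (n + 1)) (symG X.alg (n + 1)) _ _ e he]
    exact TT_sigma (E := symS X (n + 1)) (symG X.alg (n + 1)) fun i : Fin n =>
      SbI (n + 1) (i + 1)
  choose f g hfg using fun i : Fin n => young_TT X (n + 1) (i + 1) (n - i) (by omega)
  refine ⟨f, fun i => g i ≫ s, ?_⟩
  rw [hs, h1, Preadditive.sum_comp]
  congr 1
  refine Finset.sum_congr rfl fun i _ => ?_
  rw [hfg i, Category.assoc]

end Pool.Agent.MP_6e5bed_ag_SY
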