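import Pool.Agent.Lib.MP_6e5bed_ag_SY.LaxB
import Pool.Agent.Lib.MP_6e5bed_ag_SY.Young
import Pool.Agent.Lib.MP_6e5bed_ag_SY.ConA
import Pool.Agent.Lib.MP_6e5bed_ag_SY.ConB

set_option autoImplicit false
set_option linter.unusedSectionVars false

/-!
# MP_6e5bed_ag (project SYM): Kimura-finiteness of symmetric powers
-/

namespace Pool.Agent.MP_6e5bed_ag_SY

open Pool.Agent.MP_6e5bed_ag_NC
open CategoryTheory MonoidalCategory Idempotents Equiv Pool.Agent.MP_6e5bed_ag

universe u

variable {k : Type u} [Field k]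

private theorem MainF_aux (X : SP k) (h : OpKF X) : ∀ (n : ℕ) (_ : InvG k (Perm (Fin n)))
    (_ : 0 < n), OpKF (symS X n) := by
  intro n
  induction n using Nat.strong_induction_on with
  | _ n ih =>
    intro hI hn
    obtain ⟨m, rfl⟩ := Nat.exists_eq_succ_of_ne_zero hn.ne'
    have h1 : ∀ i : Fin m, InvG k (Perm (Fin ((i : ℕ) + 1))) := fun i =>
      InvG.perm_le (n := m + 1) (by omega)
    have h2 : ∀ i : Fin m, InvG k (Perm (Fin (m - i))) := fun i =>
      InvG.perm_le (n := m + 1) (by omega)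
    obtain ⟨f, g, hfg⟩ := exists_young X m
    exact opKF_pieces (symS X (m + 1)) (tdS X (m + 1)) (tdS_tdS X (m + 1))
      ((kdata k (m + 1) hn).opKF h) (fun i => symS X (i + 1) ⊗ symS X (m - i)) f g hfg
      fun i => (ih _ (by omega) (h1 i) (by omega)).tensor (ih _ (by omega) (h2 i) (by omega))

/-- Proof. Strong induction on `n`, `n = m + 1`. `opKF_pieces` for `T = symS X (m + 1)`,
`e = tdS X (m + 1)` (`OpKF` of `(T, e)` is `(kdata k (m + 1) _).opKF h`) and `exists_young`; the objects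
`symS X (i + 1) ⊗ symS X (m - i)`, `i : Fin m`, satisfy `OpKF` by induction and `OpKF.tensor`
(`0 < m - i < m + 1`, `0 < i + 1 < m + 1`). -/
theorem opKF_symS (X : SP k) (h : OpKF X) (n : ℕ) [hI : InvG k (Perm (Fin n))] (hn : 0 < n) :
    OpKF (symS X n) :=
  MainF_aux X h n hI hn

theorem kimuraFinite_symS (X : SP k) (n : ℕ) [InvG k (Perm (Fin n))] (hn : 0 < n) :
    KimuraFinite (U (symS X n)) ↔ KimuraFinite (U X) := by
  refine ⟨fun h => ?_, fun h => ?_⟩
  · obtain ⟨f, g, hfg⟩ := symSum_factor X n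
    exact kimuraFinite_of_factor X (symS X n) hn f g hfg h
  · rw [kimuraFinite_U_iff] at h ⊢
    exact opKF_symS X h n hn

end Pool.Agent.MP_6e5bed_ag_SY
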