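import Pool.Agent.Lib.MP_6e5bed_ag_SY.SwB

set_option autoImplicit false
set_option linter.unusedSectionVars false

/-!
# MP_6e5bed_ag (project SYM): the exchange of the middle factors of four
-/

namespace Pool.Agent.MP_6e5bed_ag_SY

open Pool.Agent.MP_6e5bed_ag_NC
open scoped TensorProduct

universe u

section mid

variable {k : Type u} [CommRing k] {V₁ V₂ V₃ W₁ W₂ W₃ V₁' V₂' V₃' W₁' W₂' W₃' : Type u}
  [AddCommGroup V₁] [Module k V₁] [AddCommGroup V₂] [Module k V₂] [AddCommGroup V₃] [Module k V₃]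
  [AddCommGroup W₁] [Module k W₁] [AddCommGroup W₂] [Module k W₂] [AddCommGroup W₃] [Module k W₃]
  [AddCommGroup V₁'] [Module k V₁'] [AddCommGroup V₂'] [Module k V₂'] [AddCommGroup V₃']
  [Module k V₃'] [AddCommGroup W₁'] [Module k W₁'] [AddCommGroup W₂'] [Module k W₂']
  [AddCommGroup W₃'] [Module k W₃']

/-- The exchange of the two middle factors, `(v ⊗ w) ⊗ (v' ⊗ w') ↦ ± (v ⊗ v') ⊗ (w ⊗ w')`, as a
bilinear map. -/
noncomputable def md (X' : Dg k V₁') (Y : Dg k W₁) :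
    V₁ ⊗[k] W₁ →ₗ[k] V₁' ⊗[k] W₁' →ₗ[k] (V₁ ⊗[k] V₁') ⊗[k] (W₁ ⊗[k] W₁') :=
  kz X' Y (TensorProduct.mk k V₁ V₁') (TensorProduct.mk k W₁ W₁')

theorem md_sg {X' : Dg k V₁'} {Y : Dg k W₁} {i j : ℤ} {w : W₁} {v' : V₁'} (hw : Y.IsDeg i w)
    (hv : X'.IsDeg j v') (v : V₁) (w' : W₁') :
    md X' Y (v ⊗ₜ w) (v' ⊗ₜ w') = sg (i * j) • ((v ⊗ₜ[k] v') ⊗ₜ[k] (w ⊗ₜ[k] w')) :=
  kz_sg hw hv v w'

private theorem Md_indR {V W : Type u} [AddCommGroup V] [Module k V] [AddCommGroup W]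
    [Module k W] (Y : Dg k W) {P : V ⊗[k] W → Prop} (h0 : P 0)
    (hadd : ∀ v w, P v → P w → P (v + w))
    (h : ∀ i v w, Y.IsDeg i w → P (v ⊗ₜ w)) (x : V ⊗[k] W) : P x := by
  induction x using TensorProduct.induction_on with
  | zero => exact h0
  | add x y hx hy => exact hadd x y hx hy
  | tmul v w =>
    refine Y.ind (P := fun w => P (v ⊗ₜ w)) (by simpa using h0) ?_ ?_ w
    · intro w w' h h'
      rw [TensorProduct.tmul_add]
      exact hadd _ _ h h'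
    · intro j w hw
      exact h j v w hw

private theorem Md_indL {V W : Type u} [AddCommGroup V] [Module k V] [AddCommGroup W]
    [Module k W] (X : Dg k V) {P : V ⊗[k] W → Prop} (h0 : P 0)
    (hadd : ∀ v w, P v → P w → P (v + w))
    (h : ∀ i v w, X.IsDeg i v → P (v ⊗ₜ w)) (x : V ⊗[k] W) : P x := by
  induction x using TensorProduct.induction_on with
  | zero => exact h0
  | add x y hx hy => exact hadd x y hx hy
  | tmul v w =>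
    refine X.ind (P := fun v => P (v ⊗ₜ w)) (by simpa using h0) ?_ ?_ v
    · intro v v' h h'
      rw [TensorProduct.add_tmul]
      exact hadd _ _ h h'
    · intro j v hv
      exact h j v w hv

private theorem Md_zz {V V' V'' : Type u} [AddCommGroup V] [Module k V] [AddCommGroup V']
    [Module k V'] [AddCommGroup V''] [Module k V''] (f : V →ₗ[k] V' →ₗ[k] V'') (n m : ℤ) (x : V)
    (y : V') : f (n • x) (m • y) = (n * m) • f x y := by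
  have h : f (n • x) (m • y) = f.flip (m • y) (n • x) := rfl
  rw [h, map_zsmul, LinearMap.flip_apply, map_zsmul, smul_smul]

private theorem Md_tt {V V' : Type u} [AddCommGroup V] [Module k V] [AddCommGroup V']
    [Module k V'] (n m : ℤ) (x : V) (y : V') :
    (n • x) ⊗ₜ[k] (m • y) = (n * m) • (x ⊗ₜ[k] y) :=
  Md_zz (TensorProduct.mk k V V') n m x y

private theorem Md_md (X' : Dg k V₁') (Y : Dg k W₁) (x : (V₁ ⊗[k] W₁) ⊗[k] (V₁' ⊗[k] W₁')) :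
    TensorProduct.lift (md (V₁ := V₁) (W₁' := W₁') Y X')
      (TensorProduct.lift (md (V₁ := V₁) (W₁' := W₁') X' Y) x) = x := by
  induction x using TensorProduct.induction_on with
  | zero => simp only [map_zero]
  | add x y hx hy => simp only [map_add, hx, hy]
  | tmul x y =>
    refine Md_indR Y (P := fun x => TensorProduct.lift (md (V₁ := V₁) (W₁' := W₁') Y X')
      (TensorProduct.lift (md (V₁ := V₁) (W₁' := W₁') X' Y) (x ⊗ₜ y)) = x ⊗ₜ y) ?_ ?_ ?_ x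
    · simp only [TensorProduct.zero_tmul, map_zero]
    · intro a b ha hb
      simp only [TensorProduct.add_tmul, map_add, ha, hb]
    · intro i v w hw
      refine Md_indL X' (P := fun y => TensorProduct.lift (md (V₁ := V₁) (W₁' := W₁') Y X')
        (TensorProduct.lift (md (V₁ := V₁) (W₁' := W₁') X' Y) ((v ⊗ₜ w) ⊗ₜ y)) =
          (v ⊗ₜ w) ⊗ₜ y) ?_ ?_ ?_ y
      · simp only [TensorProduct.tmul_zero, map_zero]
      · intro a b ha hb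
        simp only [TensorProduct.tmul_add, map_add, ha, hb]
      · intro j v' w' hv'
        rw [TensorProduct.lift.tmul, md_sg hw hv', map_zsmul, TensorProduct.lift.tmul,
          md_sg hv' hw, sg_smul_smul, sg_even ⟨i * j, by ring⟩, one_smul]

/-- The exchange of the middle factors is bijective. -/
theorem md_bij (X' : Dg k V₁') (Y : Dg k W₁) : Function.Bijective
    (TensorProduct.lift (md (V₁ := V₁) (W₁' := W₁') X' Y)) :=
  Function.bijective_iff_has_inverse.2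
    ⟨TensorProduct.lift (md (V₁ := V₁) (W₁' := W₁') Y X'), Md_md X' Y, Md_md Y X'⟩

/-- The exchange of the middle factors is compatible with products: the products of
`V₁ ⊗ W₁` and `V₂ ⊗ W₂` are given by `α`, `β`, those of `V₁' ⊗ W₁'` and `V₂' ⊗ W₂'` by `α'`, `β'`.

Proof. All sides are linear in `x`, `x'`, `y`, `y'`; take pure tensors of homogeneous elements
(`Dg.tind`), use `kz_sg` and `md_sg` and compare the signs. With lower case letters for the degrees,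
`x = v₁ ⊗ w₁`, `x' = v₁' ⊗ w₁'`, `y = v₂ ⊗ w₂`, `y' = v₂' ⊗ w₂'`: the left side has the exponent
`w₁ v₁' + w₂ v₂' + (w₁ + w₁')(v₂ + v₂') + v₁' v₂ + w₁' w₂`, the right side
`(v₁' + w₁')(v₂ + w₂) + w₁ v₂ + w₁' v₂' + (w₁ + w₂)(v₁' + v₂')`; the difference is even. -/
theorem md_kz {X₂ : Dg k V₂} {X₂' : Dg k V₂'} {X₁' : Dg k V₁'} {Y₁ : Dg k W₁} {Y₁' : Dg k W₁'}
    {Y₂ : Dg k W₂} {X₃' : Dg k V₃'} {Y₃ : Dg k W₃}
    {α : V₁ →ₗ[k] V₂ →ₗ[k] V₃} {β : W₁ →ₗ[k] W₂ →ₗ[k] W₃}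
    {α' : V₁' →ₗ[k] V₂' →ₗ[k] V₃'} {β' : W₁' →ₗ[k] W₂' →ₗ[k] W₃'}
    (hβ : ∀ {i j : ℤ} {v : W₁} {w : W₂}, Y₁.IsDeg i v → Y₂.IsDeg j w → Y₃.IsDeg (i + j) (β v w))
    (hα' : ∀ {i j : ℤ} {v : V₁'} {w : V₂'}, X₁'.IsDeg i v → X₂'.IsDeg j w →
      X₃'.IsDeg (i + j) (α' v w))
    (x : V₁ ⊗[k] W₁) (x' : V₁' ⊗[k] W₁') (y : V₂ ⊗[k] W₂) (y' : V₂' ⊗[k] W₂') :
    kz (X₂.tensor X₂') (Y₁.tensor Y₁') (kz X₂ X₁' α α') (kz Y₂ Y₁' β β')
        (md X₁' Y₁ x x') (md X₂' Y₂ y y') =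
      TensorProduct.lift (md X₃' Y₃) (kz (X₂.tensor Y₂) (X₁'.tensor Y₁') (kz X₂ Y₁ α β)
        (kz X₂' Y₁' α' β') (x ⊗ₜ x') (y ⊗ₜ y')) := by
  revert x' y y'
  refine Md_indR Y₁ (P := fun x => ∀ x' y y',
    kz (X₂.tensor X₂') (Y₁.tensor Y₁') (kz X₂ X₁' α α') (kz Y₂ Y₁' β β')
        (md X₁' Y₁ x x') (md X₂' Y₂ y y') =
      TensorProduct.lift (md X₃' Y₃) (kz (X₂.tensor Y₂) (X₁'.tensor Y₁') (kz X₂ Y₁ α β)
        (kz X₂' Y₁' α' β') (x ⊗ₜ x') (y ⊗ₜ y'))) ?_ ?_ ?_ x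
  · intro x' y y'
    simp only [map_zero, LinearMap.zero_apply, TensorProduct.zero_tmul]
  · intro a b ha hb x' y y'
    simp only [map_add, LinearMap.add_apply, TensorProduct.add_tmul, ha, hb]
  intro w1 v₁ w₁ hw₁ x'
  refine Dg.tind X₁' Y₁' (P := fun x' => ∀ y y',
    kz (X₂.tensor X₂') (Y₁.tensor Y₁') (kz X₂ X₁' α α') (kz Y₂ Y₁' β β')
        (md X₁' Y₁ (v₁ ⊗ₜ w₁) x') (md X₂' Y₂ y y') =
      TensorProduct.lift (md X₃' Y₃) (kz (X₂.tensor Y₂) (X₁'.tensor Y₁') (kz X₂ Y₁ α β)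
        (kz X₂' Y₁' α' β') ((v₁ ⊗ₜ w₁) ⊗ₜ x') (y ⊗ₜ y'))) ?_ ?_ ?_ x'
  · intro y y'
    simp only [map_zero, LinearMap.zero_apply, TensorProduct.tmul_zero]
  · intro a b ha hb y y'
    simp only [map_add, LinearMap.add_apply, TensorProduct.tmul_add, ha, hb]
  intro v1' w1' v₁' w₁' hv₁' hw₁' y
  refine Dg.tind X₂ Y₂ (P := fun y => ∀ y',
    kz (X₂.tensor X₂') (Y₁.tensor Y₁') (kz X₂ X₁' α α') (kz Y₂ Y₁' β β')
        (md X₁' Y₁ (v₁ ⊗ₜ w₁) (v₁' ⊗ₜ w₁')) (md X₂' Y₂ y y') =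
      TensorProduct.lift (md X₃' Y₃) (kz (X₂.tensor Y₂) (X₁'.tensor Y₁') (kz X₂ Y₁ α β)
        (kz X₂' Y₁' α' β') ((v₁ ⊗ₜ w₁) ⊗ₜ (v₁' ⊗ₜ w₁')) (y ⊗ₜ y'))) ?_ ?_ ?_ y
  · intro y'
    simp only [map_zero, LinearMap.zero_apply, TensorProduct.zero_tmul]
  · intro a b ha hb y'
    simp only [map_add, LinearMap.add_apply, TensorProduct.add_tmul, ha, hb]
  intro v2 w2 v₂ w₂ hv₂ hw₂ y'
  refine Md_indL X₂' (P := fun y' =>
    kz (X₂.tensor X₂') (Y₁.tensor Y₁') (kz X₂ X₁' α α') (kz Y₂ Y₁' β β')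
        (md X₁' Y₁ (v₁ ⊗ₜ w₁) (v₁' ⊗ₜ w₁')) (md X₂' Y₂ (v₂ ⊗ₜ w₂) y') =
      TensorProduct.lift (md X₃' Y₃) (kz (X₂.tensor Y₂) (X₁'.tensor Y₁') (kz X₂ Y₁ α β)
        (kz X₂' Y₁' α' β') ((v₁ ⊗ₜ w₁) ⊗ₜ (v₁' ⊗ₜ w₁')) ((v₂ ⊗ₜ w₂) ⊗ₜ y'))) ?_ ?_ ?_ y'
  · simp only [map_zero, TensorProduct.tmul_zero]
  · intro a b ha hb
    simp only [map_add, TensorProduct.tmul_add, ha, hb]
  intro v2' v₂' w₂' hv₂'
  rw [md_sg hw₁ hv₁', md_sg hw₂ hv₂', Md_zz,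
    kz_sg (Dg.tensor_deg hw₁ hw₁') (Dg.tensor_deg hv₂ hv₂'), kz_sg hv₁' hv₂, kz_sg hw₁' hw₂,
    Md_tt, kz_sg (Dg.tensor_deg hv₁' hw₁') (Dg.tensor_deg hv₂ hw₂), kz_sg hw₁ hv₂,
    kz_sg hw₁' hv₂', Md_tt, map_zsmul, map_zsmul, TensorProduct.lift.tmul,
    md_sg (hβ hw₁ hw₂) (hα' hv₁' hv₂')]
  simp only [smul_smul, sg_mul]
  congr 1
  exact sg_eq_of_even ⟨-(v1' * w2), by ring⟩

end mid

end Pool.Agent.MP_6e5bed_ag_SY
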