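import Pool.Agent.Lib.MP_6e5bed_ag_NC.GMap

set_option autoImplicit false

/-!
# MP_6e5bed_ag (project SYM): finitely many copies of a complex
-/

namespace Pool.Agent.MP_6e5bed_ag_SY

open Pool.Agent.MP_6e5bed_ag_NC

universe u

variable {k : Type u} [CommRing k] {V : Type u} [AddCommGroup V] [Module k V]

/-- The coaction of the grading on the families of elements of `V`. -/
noncomputable def piρ (X : Dg k V) (Y : Type) [Fintype Y] : (Y → V) →ₗ[k] (ℤ →₀ (Y → V)) := by
  classical
  exact ∑ y : Y, (Finsupp.mapRange.linearMap (LinearMap.single k (fun _ : Y => V) y)).comp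
    (X.ρ.comp (LinearMap.proj y))

theorem piρ_apply (X : Dg k V) (Y : Type) [Fintype Y] (f : Y → V) (n : ℤ) (y : Y) :
    piρ X Y f n y = X.ρ (f y) n := by
  classical
  rw [piρ, LinearMap.sum_apply, Finsupp.finsetSum_apply, Finset.sum_apply]
  rw [Finset.sum_eq_single y]
  · simp
  · intro b _ hb
    simp only [LinearMap.comp_apply, LinearMap.proj_apply, Finsupp.mapRange.linearMap_apply,
      Finsupp.mapRange_apply, LinearMap.single_apply]
    exact Pi.single_eq_of_ne (Ne.symm hb) _
  · intro h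
    exact absurd (Finset.mem_univ y) h

/-- The complex of the families `Y → V`. -/
noncomputable def dgPi (X : Dg k V) (Y : Type) [Fintype Y] : Dg k (Y → V) where
  ρ := piρ X Y
  sum_ρ := fun f => by
    funext y
    have h := X.sum_ρ (f y)
    rw [Finsupp.sum, Finset.sum_apply]
    rw [Finsupp.sum] at h
    refine Eq.trans ?_ h
    simp only [piρ_apply]
    refine (Finset.sum_subset (fun n hn => ?_) (fun n _ hn => ?_)).symm
    · rw [Finsupp.mem_support_iff] at hn ⊢
      intro h0
      apply hn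
      rw [← piρ_apply X Y f n y, h0]
      rfl
    · rwa [Finsupp.notMem_support_iff] at hn
  ρ_ρ := fun f n => by
    ext m y
    rw [piρ_apply, piρ_apply, X.ρ_ρ]
    by_cases h : n = m
    · subst h
      rw [Finsupp.single_eq_same, Finsupp.single_eq_same, piρ_apply]
    · rw [Finsupp.single_eq_of_ne (Ne.symm h), Finsupp.single_eq_of_ne (Ne.symm h)]
      rfl
  d := LinearMap.pi fun y => X.d.comp (LinearMap.proj y)
  d_d := fun f => by
    funext y
    exact X.d_d (f y)
  ρ_d := fun f n => by
    funext y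
    rw [piρ_apply]
    refine (X.ρ_d (f y) n).trans ?_
    change X.d (X.ρ (f y) n) = X.d (piρ X Y f n y)
    rw [piρ_apply]

variable {X : Dg k V} {Y : Type} [Fintype Y]

theorem dgPi_ρ (f : Y → V) (n : ℤ) (y : Y) : (dgPi X Y).ρ f n y = X.ρ (f y) n :=
  piρ_apply X Y f n y

theorem dgPi_d (f : Y → V) (y : Y) : (dgPi X Y).d f y = X.d (f y) := rfl

theorem dgPi_deg {n : ℤ} {f : Y → V} : (dgPi X Y).IsDeg n f ↔ ∀ y, X.IsDeg n (f y) := by
  constructor
  · intro h y
    have h' : (dgPi X Y).ρ f = Finsupp.single n f := h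
    change X.ρ (f y) = Finsupp.single n (f y)
    ext m
    rw [← dgPi_ρ, h']
    by_cases hm : n = m
    · subst hm
      rw [Finsupp.single_eq_same, Finsupp.single_eq_same]
    · rw [Finsupp.single_eq_of_ne (Ne.symm hm), Finsupp.single_eq_of_ne (Ne.symm hm)]
      rfl
  · intro h
    change (dgPi X Y).ρ f = Finsupp.single n f
    ext m y
    have h' : X.ρ (f y) = Finsupp.single n (f y) := h y
    rw [dgPi_ρ, h']
    by_cases hm : n = m
    · subst hm
      rw [Finsupp.single_eq_same, Finsupp.single_eq_same]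
    · rw [Finsupp.single_eq_of_ne (Ne.symm hm), Finsupp.single_eq_of_ne (Ne.symm hm)]
      rfl

theorem dgPi_o (f : Y → V) (y : Y) : (dgPi X Y).o f y = X.o (f y) := by
  have h := Dg.o_degMap_even (X := dgPi X Y) (Y := X) (n := 0) Even.zero (LinearMap.proj y)
    (fun {j v} hv => by
      rw [add_zero]
      exact dgPi_deg.1 hv y) f
  exact h.symm

theorem dgPi_s (f : Y → V) (y : Y) : (dgPi X Y).s f y = X.s (f y) := by
  rw [Dg.s_apply, Dg.s_apply, Pi.sub_apply, Pi.smul_apply, dgPi_o]

theorem dgPi_sp (n : ℤ) (f : Y → V) (y : Y) : (dgPi X Y).sp n f y = X.sp n (f y) := by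
  rcases Int.even_or_odd n with h | h
  · rw [Dg.sp_even h, Dg.sp_even h]
  · rw [Dg.sp_odd h, Dg.sp_odd h, dgPi_s]

end Pool.Agent.MP_6e5bed_ag_SY
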