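import Pool.Agent.Lib.MP_6e5bed_ag_SY.SplX
import Pool.Agent.Lib.MP_6e5bed_ag_SY.Dl

set_option autoImplicit false
set_option linter.unusedSectionVars false

/-!
# MP_6e5bed_ag (project SYM): the additive operation given by the symmetric powers
-/

namespace Pool.Agent.MP_6e5bed_ag_SY

open Pool.Agent.MP_6e5bed_ag_NC
open CategoryTheory MonoidalCategory Equiv

universe u

variable {k : Type u} [Field k] {X Y Z : SP k} {n : ℕ} [InvG k (Perm (Fin n))]

/-- The idempotent of `S^n X`. -/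
noncomputable def tdS (X : SP k) (n : ℕ) [InvG k (Perm (Fin n))] : symS X n ⟶ symS X n :=
  td (E := symS X n) (symG X.alg n)

theorem tdS_tdS (X : SP k) (n : ℕ) [InvG k (Perm (Fin n))] : tdS X n ≫ tdS X n = tdS X n := td_td _

/-- The morphism given by `M^{⊗n} ⋊ S_n`. -/
noncomputable def clS {X Y : SP k} (M : Bim X.alg Y.alg) (n : ℕ) [InvG k (Perm (Fin n))] :
    symS X n ⟶ symS Y n :=
  cl (X := symS X n) (Y := symS Y n) (symM M n)

theorem symM_finCoh {M : Bim X.alg Y.alg} (h : M.dg.FinCoh) (n : ℕ) [InvG k (Perm (Fin n))] :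
    (symM M n).dg.FinCoh := by
  obtain ⟨R, φ, hR, hφ⟩ := hasRes_of_finCoh h
  have h1 : (symM R n).dg.FinCoh :=
    perf_finCoh (X := symS X n) (Y := symS Y n) (symM_perf hR n)
  exact (QIso.finCoh (symMap φ n) (symMap_qiso φ hφ n)).1 h1

/-- Proof. `td_comm` with `symGB M n`. -/
theorem tdS_clS {M : Bim X.alg Y.alg} (h : M.dg.FinCoh) (n : ℕ) [InvG k (Perm (Fin n))] :
    tdS X n ≫ clS M n = clS M n ≫ tdS Y n := by
  exact td_comm (E := symS X n) (F := symS Y n) (Γ := symG X.alg n) (Δ := symG Y.alg n)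
    (symGB M n) (symM_finCoh h n)

/-- Proof. With `e : ExD M' M M''` (`exists_exD`), `clS M n` is the sum of the classes of the pieces
of `e.spl.flt n` (`Flt.cl_eq`; they are perfect by `ExD.pc_perf`, so they have finite-dimensional
cohomology, `perf_finCoh`). The pieces number `i`, `0 < i < n`, are killed by `td_kill` with
`Spl.gr`, the others are `ExD.zero` and `ExD.top`; `n > 0`, so they are different. -/
theorem psi_ext (hn : 0 < n) {M' M M'' : Bim X.alg Y.alg} (h : IsExt M' M M'') (h' : Perf M')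
    (h'' : Perf M'') :
    tdS X n ≫ clS M n = tdS X n ≫ clS M' n + tdS X n ≫ clS M'' n := by
  obtain ⟨e⟩ := exists_exD h
  have hf : ∀ i, ((e.spl.flt n).pc i).bim.dg.FinCoh := fun i =>
    perf_finCoh (X := symS X n) (Y := symS Y n) (e.pc_perf h' h'' n i)
  have h1 : clS M n = ∑ i ∈ Finset.range (n + 1),
      cl (X := symS X n) (Y := symS Y n) ((e.spl.flt n).pc i).bim :=
    Flt.cl_eq (X := symS X n) (Y := symS Y n) (e.spl.flt n) fun i _ => hf i
  have h2 : cl (X := symS X n) (Y := symS Y n) ((e.spl.flt n).pc 0).bim = clS M' n :=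
    (cl_iso (X := symS X n) (Y := symS Y n) (e.zero n)).symm
  have h3 : cl (X := symS X n) (Y := symS Y n) ((e.spl.flt n).pc n).bim = clS M'' n :=
    cl_iso (X := symS X n) (Y := symS Y n) (e.top n)
  have h4 : ∀ i, 0 < i → i < n →
      tdS X n ≫ cl (X := symS X n) (Y := symS Y n) ((e.spl.flt n).pc i).bim = 0 :=
    fun i h0 hi => td_kill (E := symS X n) (F := symS Y n) (symG X.alg n) h0 hi
      (e.spl.gr n i) (hf i)
  rw [h1, Preadditive.comp_sum, Finset.sum_range_succ, h3]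
  obtain ⟨m, rfl⟩ : ∃ m, n = m + 1 := ⟨n - 1, by omega⟩
  rw [Finset.sum_range_succ', h2, Finset.sum_eq_zero, zero_add]
  intro i hi
  exact h4 (i + 1) (Nat.succ_pos i) (Nat.succ_lt_succ (Finset.mem_range.1 hi))

/-- Proof. `symM_contr`, `cl_contr`. -/
theorem psi_contr (hn : 0 < n) {M : Bim X.alg Y.alg} (h : Contr M) : tdS X n ≫ clS M n = 0 := by
  have h1 : clS M n = 0 := cl_contr (X := symS X n) (Y := symS Y n) (symM_contr h hn)
  rw [h1, Limits.comp_zero]

/-- The additive operation `[M] ↦ td ≫ [M^{⊗n} ⋊ S_n]`. -/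
noncomputable def psi (n : ℕ) [InvG k (Perm (Fin n))] (hn : 0 < n) {X Y : SP k} :
    (X ⟶ Y) →ₗ[ℚ] (symS X n ⟶ symS Y n) :=
  K0Q.lift (A := X.alg) (B := Y.alg) (V := (symS X n ⟶ symS Y n))
    (fun M _ => tdS X n ≫ clS M n)
    (fun h' _ h'' he => psi_ext hn he h' h'')
    (fun _ hc => psi_contr hn hc)

theorem psi_cls (hn : 0 < n) {M : Bim X.alg Y.alg} (h : Perf M) :
    psi n hn (X := X) (Y := Y) (cls M h) = tdS X n ≫ clS M n :=
  K0Q.lift_cls _ _ _ M h

end Pool.Agent.MP_6e5bed_ag_SY
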