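import Pool.Agent.Lib.MP_6e5bed_ag_SY.Psi
import Pool.Agent.Lib.MP_6e5bed_ag_SY.CrTb
import Pool.Agent.Lib.MP_6e5bed_ag_SY.PwD

set_option autoImplicit false
set_option linter.unusedSectionVars false

/-!
# MP_6e5bed_ag (project SYM): the additive operation is compatible with compositions
-/

namespace Pool.Agent.MP_6e5bed_ag_SY

open Pool.Agent.MP_6e5bed_ag_NC
open CategoryTheory MonoidalCategory Equiv

universe u

variable {k : Type u} [Field k] {X Y Z : SP k} {n : ℕ} [InvG k (Perm (Fin n))]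

/-- Proof. `M` has a perfect resolution `R → M` (`hasRes_of_finCoh`); `cl M = cl R = cls R`
(`cl_qiso`, `cl_perf`), `clS M n = clS R n` (`symMap_qiso`, `cl_qiso`). -/
theorem psi_cl (hn : 0 < n) {M : Bim X.alg Y.alg} (h : M.dg.FinCoh) :
    psi n hn (cl M) = tdS X n ≫ clS M n := by
  obtain ⟨R, φ, hR, hφ⟩ := hasRes_of_finCoh h
  have h1 : cl M = (cls R hR : K0Q X.alg Y.alg) := (cl_qiso φ hφ).symm.trans (cl_perf hR)
  have h2 : clS M n = clS R n :=
    (cl_qiso (X := symS X n) (Y := symS Y n) (symMap φ n) (symMap_qiso φ hφ n)).symm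
  rw [h1, h2]
  exact psi_cls hn hR

/-- Proof. `psi_cl` for `diag`, `cl_diag` and `symM_diag`. -/
theorem psi_id (hn : 0 < n) (X : SP k) : psi n hn (𝟙 X) = tdS X n := by
  have hf : (diag X.alg).dg.FinCoh := (proper_iff X.alg).1 X.proper
  have h1 : clS (X := X) (Y := X) (diag X.alg) n = 𝟙 (symS X n) :=
    (cl_iso (X := symS X n) (Y := symS X n) (symM_diag X.alg n)).trans
      (cl_diag (X := symS X n))
  rw [← cl_diag (X := X), psi_cl hn hf, h1, Category.comp_id]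

/-- Proof. `(M^{⊗n} ⋊ S_n) ⊗ (N^{⊗n} ⋊ S_n) ≅ (M ⊗ N)^{⊗n} ⋊ S_n`: `crM_tb` and `crM_biso` for the
isomorphism `bx_tb`, which is equivariant by `bxBil_perm`; and `cl_comp` (perfect bimodules are flat,
`perf_rflat`, `symM_perf`). -/
theorem clS_comp {M : Bim X.alg Y.alg} {N : Bim Y.alg Z.alg} (hM : Perf M) (hN : Perf N)
    (n : ℕ) [InvG k (Perm (Fin n))] : clS M n ≫ clS N n = clS (tb M N) n := by
  have hc := (cl_comp (X := symS X n) (Y := symS Y n) (Z := symS Z n)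
    (symM_finCoh (perf_finCoh hM) n) (symM_finCoh (perf_finCoh hN) n)
    (perf_rflat (symM_perf hM n))).2
  obtain ⟨φ, hφ, hb, hf⟩ := bx_tb M N n
  have he : ∀ σ x, φ.f (((bxE M n).tb (bxE N n)).b σ x) = (bxE (tb M N) n).b σ (φ.f x) := by
    intro σ x
    refine LinearMap.congr_fun (f := φ.f.comp (((bxE M n).tb (bxE N n)).b σ))
      (g := ((bxE (tb M N) n).b σ).comp φ.f) (tb_hom_ext fun x y => ?_) x
    rw [LinearMap.comp_apply, LinearMap.comp_apply, EqB.tb_tm, hf, hf, bxE_b, bxE_b, bxE_b]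
    exact (bxBil_perm M N (tb M N) (tmB M N) (fun h h' => tb_deg h h') n σ x y).symm
  have hi : BIso (tb (symM M n) (symM N n)) (symM (tb M N) n) :=
    (crM_tb (bxE M n) (bxE N n)).trans
      (crM_biso ((bxE M n).tb (bxE N n)) (bxE (tb M N) n) φ hφ hb he)
  exact hc.trans (cl_iso (X := symS X n) (Y := symS Z n) hi)

/-- Proof. Both sides are bilinear; for classes of perfect bimodules use `clS_comp`, `tdS_clS`,
`tdS_tdS`, and `K0Q.comp` of classes (`cl_comp` and `cl_perf`). -/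
theorem psi_comp (hn : 0 < n) (f : X ⟶ Y) (g : Y ⟶ Z) :
    psi n hn (f ≫ g) = psi n hn f ≫ psi n hn g := by
  refine K0Q.ind (P := fun f : K0Q X.alg Y.alg => psi n hn ((f : X ⟶ Y) ≫ g) =
    psi n hn (f : X ⟶ Y) ≫ psi n hn g) ?_ ?_ ?_ ?_ f
  · intro x y hx hy
    have h1 : psi n hn (((x : X ⟶ Y) + (y : X ⟶ Y)) ≫ g) =
        psi n hn ((x : X ⟶ Y) + (y : X ⟶ Y)) ≫ psi n hn g := by
      rw [Preadditive.add_comp, map_add, map_add, Preadditive.add_comp, hx, hy]
    exact h1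
  · intro c x hx
    have h1 : psi n hn ((c • (x : X ⟶ Y)) ≫ g) =
        psi n hn (c • (x : X ⟶ Y)) ≫ psi n hn g := by
      rw [Linear.smul_comp, map_smul, map_smul, Linear.smul_comp, hx]
    exact h1
  · have h1 : psi n hn ((0 : X ⟶ Y) ≫ g) = psi n hn (0 : X ⟶ Y) ≫ psi n hn g := by
      rw [Limits.zero_comp, map_zero, map_zero, Limits.zero_comp]
    exact h1
  intro M hM
  refine K0Q.ind (P := fun g : K0Q Y.alg Z.alg => psi n hn ((cls M hM : X ⟶ Y) ≫ (g : Y ⟶ Z)) =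
    psi n hn (cls M hM : X ⟶ Y) ≫ psi n hn (g : Y ⟶ Z)) ?_ ?_ ?_ ?_ g
  · intro x y hx hy
    have h1 : psi n hn ((cls M hM : X ⟶ Y) ≫ ((x : Y ⟶ Z) + (y : Y ⟶ Z))) =
        psi n hn (cls M hM : X ⟶ Y) ≫ psi n hn ((x : Y ⟶ Z) + (y : Y ⟶ Z)) := by
      rw [Preadditive.comp_add, map_add, map_add, Preadditive.comp_add, hx, hy]
    exact h1
  · intro c x hx
    have h1 : psi n hn ((cls M hM : X ⟶ Y) ≫ (c • (x : Y ⟶ Z))) =
        psi n hn (cls M hM : X ⟶ Y) ≫ psi n hn (c • (x : Y ⟶ Z)) := by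
      rw [Linear.comp_smul, map_smul, map_smul, Linear.comp_smul, hx]
    exact h1
  · have h1 : psi n hn ((cls M hM : X ⟶ Y) ≫ (0 : Y ⟶ Z)) =
        psi n hn (cls M hM : X ⟶ Y) ≫ psi n hn (0 : Y ⟶ Z) := by
      rw [Limits.comp_zero, map_zero, map_zero, Limits.comp_zero]
    exact h1
  intro N hN
  have h1 : @CategoryStruct.comp (SP k) _ X Y Z (cls M hM) (cls N hN) =
      cls (tb M N) (Perf.tb Y.proper hM hN) := K0Q.comp_cls Y.proper hM hN
  have h2 : psi n hn (X := X) (Y := Y) (cls M hM) = tdS X n ≫ clS M n := psi_cls hn hM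
  have h3 : psi n hn (X := Y) (Y := Z) (cls N hN) = tdS Y n ≫ clS N n := psi_cls hn hN
  have h4 : psi n hn (X := X) (Y := Z) (cls (tb M N) (Perf.tb Y.proper hM hN)) =
      tdS X n ≫ clS (tb M N) n := psi_cls hn _
  have h5 : tdS X n ≫ clS (X := X) (Y := Z) (tb M N) n =
      (tdS X n ≫ clS M n) ≫ (tdS Y n ≫ clS N n) := by
    rw [← clS_comp hM hN n, Category.assoc, ← Category.assoc (clS M n),
      ← tdS_clS (perf_finCoh hM) n, Category.assoc, ← Category.assoc (tdS X n) (tdS X n),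
      tdS_tdS]
  have h6 : psi n hn (@CategoryStruct.comp (SP k) _ X Y Z (cls M hM) (cls N hN)) =
      psi n hn (X := X) (Y := Y) (cls M hM) ≫ psi n hn (X := Y) (Y := Z) (cls N hN) := by
    rw [h2, h3, ← h5]
    exact (congrArg (psi n hn (X := X) (Y := Z)) h1).trans h4
  exact h6

end Pool.Agent.MP_6e5bed_ag_SY
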