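import Pool.Agent.Lib.MP_6e5bed_ag_SY.SwB
import Pool.Agent.Lib.MP_6e5bed_ag_KC.BPow
import Pool.Agent.Lib.MP_6e5bed_ag.Perm
import Pool.Agent.Lib.MP_6e5bed_ag_SY.Act

set_option autoImplicit false
set_option linter.unusedSectionVars false

/-!
# MP_6e5bed_ag (project SYM): the symmetric group acts on tensor powers

`pw A n` (tensor powers of a dg algebra), `bx M n` (of a bimodule) and `adjD A n i` (the exchange of
the factors number `i` and `i + 1` of `pw A n`) are defined in `KC/BPow.lean`.
-/

namespace Pool.Agent.MP_6e5bed_ag_SY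

open Pool.Agent.MP_6e5bed_ag_NC
open Equiv
open scoped TensorProduct

universe u

variable {k : Type u} [CommRing k] {A B : DGA k}

/-- The exchange of the factors number `i` and `i + 1` of `bx M n`. -/
noncomputable def swM (M : Bim A B) : (n i : ℕ) → (bx M n).M →ₗ[k] (bx M n).M
  | 0, _ => LinearMap.id
  | 1, _ => LinearMap.id
  | n + 2, 0 => SW M.dg (bx M n).M
  | n + 2, i + 1 => TensorProduct.map LinearMap.id (swM M (n + 1) i)

theorem swM_zero (M : Bim A B) (n : ℕ) : swM M (n + 2) 0 = SW M.dg (bx M n).M := rfl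

theorem swM_succ (M : Bim A B) (n i : ℕ) :
    swM M (n + 2) (i + 1) = TensorProduct.map LinearMap.id (swM M (n + 1) i) := rfl

section Pw_tools

variable {V P : Type u} [AddCommGroup V] [Module k V] [AddCommGroup P] [Module k P]

/-- `f ↦ id ⊗ f` is a homomorphism of monoids. -/
private noncomputable def Pw_L (V P : Type u) [AddCommGroup V] [Module k V] [AddCommGroup P]
    [Module k P] : Module.End k P →* Module.End k (V ⊗[k] P) where
  toFun f := TensorProduct.map LinearMap.id f
  map_one' := TensorProduct.map_id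
  map_mul' f g := by
    have h := TensorProduct.map_comp (LinearMap.id : V →ₗ[k] V) f (LinearMap.id : V →ₗ[k] V) g
    exact h

private theorem Pw_sq (X : Dg k V) :
    (SW X P : Module.End k (V ⊗[k] (V ⊗[k] P))) * SW X P = 1 :=
  LinearMap.ext fun x => SW_SW X x

private theorem Pw_comm (X : Dg k V) (f : Module.End k P) :
    (SW X P : Module.End k (V ⊗[k] (V ⊗[k] P))) * Pw_L V (V ⊗[k] P) (Pw_L V P f) =
      Pw_L V (V ⊗[k] P) (Pw_L V P f) * SW X P :=
  LinearMap.ext fun x => SW_nat X X LinearMap.id LinearMap.id (fun _ => rfl) (fun _ => rfl) f x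

private theorem Pw_braid (X : Dg k V) :
    (SW X (V ⊗[k] P) : Module.End k (V ⊗[k] (V ⊗[k] (V ⊗[k] P)))) *
        Pw_L V (V ⊗[k] (V ⊗[k] P)) (SW X P) * SW X (V ⊗[k] P) =
      Pw_L V (V ⊗[k] (V ⊗[k] P)) (SW X P) * SW X (V ⊗[k] P) *
        Pw_L V (V ⊗[k] (V ⊗[k] P)) (SW X P) :=
  LinearMap.ext fun x => SW_braid X x

end Pw_tools

theorem adjD_zero_f (A : DGA k) (n : ℕ) :
    (adjD A (n + 2) 0).hom.f = SW A.dg (pw A n).A := by
  rfl

theorem adjD_succ_f (A : DGA k) (n i : ℕ) :
    (adjD A (n + 2) (i + 1)).hom.f = TensorProduct.map LinearMap.id (adjD A (n + 1) i).hom.f := by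
  rfl

private theorem Pw_swM_sq (M : Bim A B) (n i : ℕ) :
    (swM M n i : Module.End k (bx M n).M) * swM M n i = 1 := by
  induction n generalizing i with
  | zero => rfl
  | succ n ih =>
    cases n with
    | zero => rfl
    | succ n =>
      cases i with
      | zero => exact Pw_sq M.dg
      | succ i =>
        have h := congrArg (Pw_L M.M (bx M (n + 1)).M) (ih i)
        rw [map_mul, map_one] at h
        exact h

private theorem Pw_swM_comm (M : Bim A B) (n i j : ℕ) (h : i + 2 ≤ j) :
    (swM M n i : Module.End k (bx M n).M) * swM M n j = swM M n j * swM M n i := by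
  induction n generalizing i j with
  | zero => rfl
  | succ n ih =>
    cases n with
    | zero => rfl
    | succ n =>
      cases i with
      | zero =>
        obtain ⟨l, rfl⟩ : ∃ l, j = l + 2 := ⟨j - 2, by omega⟩
        cases n with
        | zero =>
          have h1 : (swM M 2 (l + 2) : Module.End k (bx M 2).M) = 1 := TensorProduct.map_id
          rw [h1, mul_one, one_mul]
        | succ n => exact Pw_comm M.dg (swM M (n + 1) l)
      | succ i =>
        obtain ⟨l, rfl⟩ : ∃ l, j = l + 1 := ⟨j - 1, by omega⟩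
        have h2 := congrArg (Pw_L M.M (bx M (n + 1)).M) (ih i l (by omega))
        rw [map_mul, map_mul] at h2
        exact h2

private theorem Pw_swM_braid (M : Bim A B) (n i : ℕ) (h : i + 2 < n) :
    (swM M n i : Module.End k (bx M n).M) * swM M n (i + 1) * swM M n i =
      swM M n (i + 1) * swM M n i * swM M n (i + 1) := by
  induction n generalizing i with
  | zero => omega
  | succ n ih =>
    cases n with
    | zero => omega
    | succ n =>
      cases i with
      | zero =>
        obtain ⟨l, rfl⟩ : ∃ l, n = l + 1 := ⟨n - 1, by omega⟩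
        exact Pw_braid (P := (bx M l).M) M.dg
      | succ i =>
        have h2 := congrArg (Pw_L M.M (bx M (n + 1)).M) (ih i (by omega))
        rw [map_mul, map_mul, map_mul, map_mul] at h2
        exact h2

private theorem Pw_adj_sq (A : DGA k) (n i : ℕ) :
    ((adjD A n i).hom.f : Module.End k (pw A n).A) * (adjD A n i).hom.f = 1 :=
  LinearMap.ext fun x => adjD_adjD A n i x

private theorem Pw_adj_comm (A : DGA k) (n i j : ℕ) (h : i + 2 ≤ j) :
    ((adjD A n i).hom.f : Module.End k (pw A n).A) * (adjD A n j).hom.f =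
      (adjD A n j).hom.f * (adjD A n i).hom.f := by
  induction n generalizing i j with
  | zero => rfl
  | succ n ih =>
    cases n with
    | zero => rfl
    | succ n =>
      cases i with
      | zero =>
        obtain ⟨l, rfl⟩ : ∃ l, j = l + 2 := ⟨j - 2, by omega⟩
        cases n with
        | zero =>
          have h1 : ((adjD A 2 (l + 2)).hom.f : Module.End k (pw A 2).A) = 1 :=
            TensorProduct.map_id
          rw [h1, mul_one, one_mul]
        | succ n => exact Pw_comm A.dg (adjD A (n + 1) l).hom.f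
      | succ i =>
        obtain ⟨l, rfl⟩ : ∃ l, j = l + 1 := ⟨j - 1, by omega⟩
        have h2 := congrArg (Pw_L A.A (pw A (n + 1)).A) (ih i l (by omega))
        rw [map_mul, map_mul] at h2
        exact h2

private theorem Pw_adj_braid (A : DGA k) (n i : ℕ) (h : i + 2 < n) :
    ((adjD A n i).hom.f : Module.End k (pw A n).A) * (adjD A n (i + 1)).hom.f *
        (adjD A n i).hom.f =
      (adjD A n (i + 1)).hom.f * (adjD A n i).hom.f * (adjD A n (i + 1)).hom.f := by
  induction n generalizing i with
  | zero => omega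
  | succ n ih =>
    cases n with
    | zero => omega
    | succ n =>
      cases i with
      | zero =>
        obtain ⟨l, rfl⟩ : ∃ l, n = l + 1 := ⟨n - 1, by omega⟩
        exact Pw_braid (P := (pw A l).A) A.dg
      | succ i =>
        have h2 := congrArg (Pw_L A.A (pw A (n + 1)).A) (ih i (by omega))
        rw [map_mul, map_mul, map_mul, map_mul] at h2
        exact h2

/-- Proof. For `n = 0` take the trivial homomorphism. For `n + 1` use `exists_perm_hom`
(`Lib/MP_6e5bed_ag/Cox.lean`) with `t i = swM M (n + 1) i`: the relations follow by induction from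
`SW_SW`, `SW_braid` and `SW_nat` (with `φ = ψ = id`). The multiplication of `Module.End` is the
composition. -/
theorem exists_bxP (M : Bim A B) (n : ℕ) : ∃ φ : Perm (Fin n) →* Module.End k (bx M n).M,
    ∀ (i : ℕ) (h : i + 1 < n),
      φ (swap ⟨i, (Nat.lt_succ_self i).trans h⟩ ⟨i + 1, h⟩) = swM M n i := by
  cases n with
  | zero => exact ⟨1, fun i h => absurd h (by omega)⟩
  | succ n =>
    obtain ⟨φ, hφ⟩ := MP_6e5bed_ag.exists_perm_hom (G := Module.End k (bx M (n + 1)).M) n
      (fun i => swM M (n + 1) i)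
      (fun i _ => Pw_swM_sq M (n + 1) i)
      (fun i hi => Pw_swM_braid M (n + 1) i (by omega))
      (fun i j hij _ => Pw_swM_comm M (n + 1) i j hij)
    exact ⟨φ, fun i h => hφ ⟨i, by omega⟩⟩

/-- The action of the symmetric group on the tensor power of a bimodule. -/
noncomputable def bxP (M : Bim A B) (n : ℕ) : Perm (Fin n) →* Module.End k (bx M n).M :=
  (exists_bxP M n).choose

theorem bxP_swap (M : Bim A B) (n i : ℕ) (h : i + 1 < n) :
    bxP M n (swap ⟨i, (Nat.lt_succ_self i).trans h⟩ ⟨i + 1, h⟩) = swM M n i :=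
  (exists_bxP M n).choose_spec i h

/-- Proof. As `exists_bxP`, with `adjD_zero_f` and `adjD_succ_f`. -/
theorem exists_pwP (A : DGA k) (n : ℕ) : ∃ φ : Perm (Fin n) →* Module.End k (pw A n).A,
    ∀ (i : ℕ) (h : i + 1 < n),
      φ (swap ⟨i, (Nat.lt_succ_self i).trans h⟩ ⟨i + 1, h⟩) = (adjD A n i).hom.f := by
  cases n with
  | zero => exact ⟨1, fun i h => absurd h (by omega)⟩
  | succ n =>
    obtain ⟨φ, hφ⟩ := MP_6e5bed_ag.exists_perm_hom (G := Module.End k (pw A (n + 1)).A) n
      (fun i => (adjD A (n + 1) i).hom.f)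
      (fun i _ => Pw_adj_sq A (n + 1) i)
      (fun i hi => Pw_adj_braid A (n + 1) i (by omega))
      (fun i j hij _ => Pw_adj_comm A (n + 1) i j hij)
    exact ⟨φ, fun i h => hφ ⟨i, by omega⟩⟩

/-- The action of the symmetric group on the tensor power of a dg algebra. -/
noncomputable def pwP (A : DGA k) (n : ℕ) : Perm (Fin n) →* Module.End k (pw A n).A :=
  (exists_pwP A n).choose

theorem pwP_swap (A : DGA k) (n i : ℕ) (h : i + 1 < n) :
    pwP A n (swap ⟨i, (Nat.lt_succ_self i).trans h⟩ ⟨i + 1, h⟩) = (adjD A n i).hom.f :=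
  (exists_pwP A n).choose_spec i h

private theorem Pw_deg (A : DGA k) (n : ℕ) (σ : Perm (Fin n)) : ∀ {i : ℤ} {a : (pw A n).A},
    (pw A n).dg.IsDeg i a → (pw A n).dg.IsDeg i (pwP A n σ a) := by
  refine MP_6e5bed_ag.perm_induction (P := fun σ => ∀ {i : ℤ} {a : (pw A n).A},
    (pw A n).dg.IsDeg i a → (pw A n).dg.IsDeg i (pwP A n σ a)) ?_ ?_ ?_ σ
  · intro i a ha
    rw [map_one]
    exact ha
  · intro i h j a ha
    rw [pwP_swap]
    exact (adjD A n i).hom.deg ha
  · intro σ τ h1 h2 i a ha
    rw [map_mul]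
    exact h1 (h2 ha)

private theorem Pw_d (A : DGA k) (n : ℕ) (σ : Perm (Fin n)) : ∀ a,
    (pw A n).dg.d (pwP A n σ a) = pwP A n σ ((pw A n).dg.d a) := by
  refine MP_6e5bed_ag.perm_induction (P := fun σ => ∀ a,
    (pw A n).dg.d (pwP A n σ a) = pwP A n σ ((pw A n).dg.d a)) ?_ ?_ ?_ σ
  · intro a
    rw [map_one]
    rfl
  · intro i h a
    rw [pwP_swap]
    exact (adjD A n i).hom.d a
  · intro σ τ h1 h2 a
    rw [map_mul]
    exact (h1 _).trans (congrArg (pwP A n σ) (h2 a))

private theorem Pw_one (A : DGA k) (n : ℕ) (σ : Perm (Fin n)) :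
    pwP A n σ (pw A n).one = (pw A n).one := by
  refine MP_6e5bed_ag.perm_induction (P := fun σ =>
    pwP A n σ (pw A n).one = (pw A n).one) ?_ ?_ ?_ σ
  · rw [map_one]
    rfl
  · intro i h
    rw [pwP_swap]
    exact (adjD A n i).hom.one
  · intro σ τ h1 h2
    rw [map_mul]
    exact (congrArg (pwP A n σ) h2).trans h1

private theorem Pw_mul (A : DGA k) (n : ℕ) (σ : Perm (Fin n)) : ∀ a b,
    pwP A n σ ((pw A n).mul a b) = (pw A n).mul (pwP A n σ a) (pwP A n σ b) := by
  refine MP_6e5bed_ag.perm_induction (P := fun σ => ∀ a b,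
    pwP A n σ ((pw A n).mul a b) = (pw A n).mul (pwP A n σ a) (pwP A n σ b)) ?_ ?_ ?_ σ
  · intro a b
    rw [map_one]
    rfl
  · intro i h a b
    rw [pwP_swap]
    exact (adjD A n i).hom.mul a b
  · intro σ τ h1 h2 a b
    rw [map_mul]
    exact (congrArg (pwP A n σ) (h2 a b)).trans (h1 _ _)

/-- The action of the symmetric group on `pw A n` by automorphisms of the dg algebra.

Proof of the fields. `perm_induction` (`Lib/MP_6e5bed_ag/Perm.lean`): for neighbouring
transpositions these are properties of the isomorphism `adjD A n i`. -/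
noncomputable def pwAct (A : DGA k) (n : ℕ) : Act (Perm (Fin n)) (pw A n) where
  a := fun σ => {
    f := pwP A n σ
    deg := fun {i a} ha => by
      exact Pw_deg A n σ ha
    d := fun a => by
      exact Pw_d A n σ a
    one := by
      exact Pw_one A n σ
    mul := fun a b => by
      exact Pw_mul A n σ a b }
  a_one := fun x => by
    change pwP A n 1 x = x
    rw [map_one]
    rfl
  a_mul := fun g h x => by
    change pwP A n (g * h) x = pwP A n g (pwP A n h x)
    rw [map_mul]
    rfl

theorem pwAct_f (A : DGA k) (n : ℕ) (σ : Perm (Fin n)) : ((pwAct A n).a σ).f = pwP A n σ := rfl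

end Pool.Agent.MP_6e5bed_ag_SY
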