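import Pool.Agent.Lib.MP_6e5bed_ag_SY.PwF
import Pool.Agent.Lib.MP_6e5bed_ag_NC.BoxTb

set_option autoImplicit false
set_option linter.unusedSectionVars false

/-!
# MP_6e5bed_ag (project SYM): bilinear maps of tensor powers; tensor powers of `M ⊗_B N`
-/

namespace Pool.Agent.MP_6e5bed_ag_SY

open Pool.Agent.MP_6e5bed_ag_NC
open Equiv
open scoped TensorProduct

universe u

variable {k : Type u} [CommRing k] {A B C A' B' A'' B'' : DGA k}

/-- The bilinear map of tensor powers given by a bilinear map `β`, with the Koszul signs: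
`(m₁ ⊗ m₂ ⊗ ⋯)(n₁ ⊗ n₂ ⊗ ⋯) = ± β(m₁, n₁) ⊗ β(m₂, n₂) ⊗ ⋯`. -/
noncomputable def bxBil (M : Bim A B) (N : Bim A' B') (P : Bim A'' B'')
    (β : M.M →ₗ[k] N.M →ₗ[k] P.M) : (n : ℕ) → (bx M n).M →ₗ[k] (bx N n).M →ₗ[k] (bx P n).M
  | 0 => LinearMap.mul k k
  | n + 1 => kz N.dg (bx M n).dg β (bxBil M N P β n)

theorem bxBil_succ (M : Bim A B) (N : Bim A' B') (P : Bim A'' B'')
    (β : M.M →ₗ[k] N.M →ₗ[k] P.M) (n : ℕ) :
    bxBil M N P β (n + 1) = kz N.dg (bx M n).dg β (bxBil M N P β n) := rfl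

theorem bxBil_deg (M : Bim A B) (N : Bim A' B') (P : Bim A'' B'')
    (β : M.M →ₗ[k] N.M →ₗ[k] P.M) (hβ : ∀ {i j : ℤ} {m : M.M} {n : N.M}, M.dg.IsDeg i m →
      N.dg.IsDeg j n → P.dg.IsDeg (i + j) (β m n)) (n : ℕ) {i j : ℤ} {x : (bx M n).M}
    {y : (bx N n).M} (hx : (bx M n).dg.IsDeg i x) (hy : (bx N n).dg.IsDeg j y) :
    (bx P n).dg.IsDeg (i + j) (bxBil M N P β n x y) := by
  induction n generalizing i j with
  | zero => exact (base k).mul_deg hx hy
  | succ n ih =>
    exact kz_deg (X := N.dg) (Y := (bx M n).dg) (XV := M.dg) (YW' := (bx N n).dg) (Z := P.dg)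
      (Z' := (bx P n).dg) hβ (fun h h' => ih h h') hx hy

/-- Proof. Induction on `n` with `kz_d`. -/
theorem bxBil_d (M : Bim A B) (N : Bim A' B') (P : Bim A'' B'')
    (β : M.M →ₗ[k] N.M →ₗ[k] P.M) (hβ : ∀ {i j : ℤ} {m : M.M} {n : N.M}, M.dg.IsDeg i m →
      N.dg.IsDeg j n → P.dg.IsDeg (i + j) (β m n))
    (hd : ∀ m n, P.dg.d (β m n) = β (M.dg.d m) n + β (M.dg.s m) (N.dg.d n)) (n : ℕ)
    (x : (bx M n).M) (y : (bx N n).M) :
    (bx P n).dg.d (bxBil M N P β n x y) =
      bxBil M N P β n ((bx M n).dg.d x) y + bxBil M N P β n ((bx M n).dg.s x) ((bx N n).dg.d y) := by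
  induction n with
  | zero => exact (base k).leibniz x y
  | succ n ih =>
    exact kz_d (X := N.dg) (Y := (bx M n).dg) (XV := M.dg) (YW' := (bx N n).dg) (Z := P.dg)
      (Z' := (bx P n).dg) hd (Dg.s_bilin β hβ) ih x y

private theorem PwC_kz {V V' V'' W W' W'' : Type u} [AddCommGroup V] [Module k V]
    [AddCommGroup V'] [Module k V'] [AddCommGroup V''] [Module k V''] [AddCommGroup W]
    [Module k W] [AddCommGroup W'] [Module k W'] [AddCommGroup W''] [Module k W'']
    {X : Dg k V'} {Y : Dg k W} {α : V →ₗ[k] V' →ₗ[k] V''} {β : W →ₗ[k] W' →ₗ[k] W''}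
    (q : W →ₗ[k] W) (q' : W' →ₗ[k] W') (q'' : W'' →ₗ[k] W'') (hq : ∀ w, Y.o (q w) = q (Y.o w))
    (hβ : ∀ w w', q'' (β w w') = β (q w) (q' w')) (x : V ⊗[k] W) (y : V' ⊗[k] W') :
    TensorProduct.map LinearMap.id q'' (kz X Y α β x y) =
      kz X Y α β (TensorProduct.map LinearMap.id q x) (TensorProduct.map LinearMap.id q' y) := by
  induction x using TensorProduct.induction_on with
  | zero => simp
  | add x x' hx hx' => simp only [map_add, LinearMap.add_apply, hx, hx']
  | tmul a a' =>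
    induction y using TensorProduct.induction_on with
    | zero => simp
    | add y y' hy hy' => simp only [map_add, hy, hy']
    | tmul b b' =>
      rw [kz_tmul, TensorProduct.map_tmul, TensorProduct.map_tmul, kz_tmul, map_sub, map_smul,
        TensorProduct.map_tmul, TensorProduct.map_tmul, hβ, hβ, hq]
      rfl

private theorem PwC_nbr (M : Bim A B) (N : Bim A' B') (P : Bim A'' B'')
    (β : M.M →ₗ[k] N.M →ₗ[k] P.M) (hβ : ∀ {i j : ℤ} {m : M.M} {n : N.M}, M.dg.IsDeg i m →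
      N.dg.IsDeg j n → P.dg.IsDeg (i + j) (β m n)) (n i : ℕ)
    (x : (bx M n).M) (y : (bx N n).M) :
    swM P n i (bxBil M N P β n x y) = bxBil M N P β n (swM M n i x) (swM N n i y) := by
  induction n generalizing i with
  | zero => rfl
  | succ n ih =>
    cases n with
    | zero => rfl
    | succ n =>
      cases i with
      | zero =>
        exact SW_kz (X := M.dg) (X' := N.dg) (X'' := P.dg) (Z := (bx M n).dg) (α := β)
          (γ := bxBil M N P β n) hβ x y
      | succ i =>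
        have ho : ∀ w, (bx M (n + 1)).dg.o (swM M (n + 1) i w) =
            swM M (n + 1) i ((bx M (n + 1)).dg.o w) := fun w =>
          Dg.o_degMap_even (n := 0) (by simp) (swM M (n + 1) i) (fun {j v} hv => by
            rw [add_zero]
            exact swM_deg M (n + 1) i hv) w
        exact PwC_kz (X := N.dg) (Y := (bx M (n + 1)).dg) (α := β)
          (β := bxBil M N P β (n + 1)) (swM M (n + 1) i) (swM N (n + 1) i) (swM P (n + 1) i)
          ho (fun w w' => ih i w w') x y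

/-- Proof. `perm_induction`; for the exchange of the factors `i` and `i + 1` by induction on `n` and
`i`: for `i = 0` this is `SW_kz`. -/
theorem bxBil_perm (M : Bim A B) (N : Bim A' B') (P : Bim A'' B'')
    (β : M.M →ₗ[k] N.M →ₗ[k] P.M) (hβ : ∀ {i j : ℤ} {m : M.M} {n : N.M}, M.dg.IsDeg i m →
      N.dg.IsDeg j n → P.dg.IsDeg (i + j) (β m n)) (n : ℕ) (σ : Perm (Fin n))
    (x : (bx M n).M) (y : (bx N n).M) :
    bxP P n σ (bxBil M N P β n x y) = bxBil M N P β n (bxP M n σ x) (bxP N n σ y) := by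
  refine MP_6e5bed_ag.perm_induction (P := fun σ => ∀ (x : (bx M n).M) (y : (bx N n).M),
    bxP P n σ (bxBil M N P β n x y) = bxBil M N P β n (bxP M n σ x) (bxP N n σ y)) ?_ ?_ ?_ σ x y
  · intro x y
    rw [map_one, map_one, map_one]
    rfl
  · intro i h x y
    rw [bxP_swap, bxP_swap, bxP_swap]
    exact PwC_nbr M N P β hβ n i x y
  · intro a b ha hb x y
    rw [map_mul, map_mul, map_mul]
    change bxP P n a (bxP P n b (bxBil M N P β n x y)) =
      bxBil M N P β n (bxP M n a (bxP M n b x)) (bxP N n a (bxP N n b y))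
    rw [hb x y, ha]

end Pool.Agent.MP_6e5bed_ag_SY
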