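import Pool.Agent.Lib.MP_6e5bed_ag_SY.Pw

set_option autoImplicit false
set_option linter.unusedSectionVars false

/-!
# MP_6e5bed_ag (project SYM): the inclusions of the factors of a tensor power
-/

namespace Pool.Agent.MP_6e5bed_ag_SY

open Pool.Agent.MP_6e5bed_ag_NC
open Equiv
open scoped TensorProduct

universe u

variable {k : Type u} [CommRing k]

/-- The morphism `a ↦ a ⊗ 1`. -/
noncomputable def tinl (A B : DGA k) : DHom A (A.tensor B) where
  f := (TensorProduct.mk k A.A B.A).flip B.one
  deg := fun {i a} ha => by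
    have h := Dg.tensor_deg ha B.one_deg
    rwa [add_zero] at h
  d := fun a => by
    change (A.dg.tensor B.dg).d (a ⊗ₜ B.one) = A.dg.d a ⊗ₜ B.one
    rw [Dg.tensor_d, B.d_one, TensorProduct.tmul_zero, add_zero]
  one := rfl
  mul := fun a b => by
    change A.mul a b ⊗ₜ B.one = kz A.dg B.dg A.mul B.mul (a ⊗ₜ B.one) (b ⊗ₜ B.one)
    rw [kz_even B.o_one, B.one_mul]

/-- The morphism `b ↦ 1 ⊗ b`. -/
noncomputable def tinr (A B : DGA k) : DHom B (A.tensor B) where
  f := TensorProduct.mk k A.A B.A A.one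
  deg := fun {i a} ha => by
    have h := Dg.tensor_deg A.one_deg ha
    rwa [zero_add] at h
  d := fun a => by
    change (A.dg.tensor B.dg).d (A.one ⊗ₜ a) = A.one ⊗ₜ B.dg.d a
    rw [Dg.tensor_d, A.d_one, TensorProduct.zero_tmul, zero_add, A.s_one]
  one := rfl
  mul := fun a b => by
    change A.one ⊗ₜ B.mul a b = kz A.dg B.dg A.mul B.mul (A.one ⊗ₜ a) (A.one ⊗ₜ b)
    rw [kz_even' A.o_one, A.one_mul]

theorem tinl_f (A B : DGA k) (a : A.A) : (tinl A B).f a = a ⊗ₜ[k] B.one := rfl

theorem tinr_f (A B : DGA k) (b : B.A) : (tinr A B).f b = A.one ⊗ₜ[k] b := rfl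

theorem tinl_mul_tinr (A B : DGA k) (a : A.A) (b : B.A) :
    (A.tensor B).mul ((tinl A B).f a) ((tinr A B).f b) = a ⊗ₜ[k] b := by
  change kz A.dg B.dg A.mul B.mul (a ⊗ₜ B.one) (A.one ⊗ₜ b) = a ⊗ₜ[k] b
  rw [kz_even B.o_one, A.mul_one, B.one_mul]

/-- `(1 ⊗ b)(a ⊗ 1) = (-1)^(|a||b|) a ⊗ b`. -/
theorem tinr_mul_tinl (A B : DGA k) {i j : ℤ} {a : A.A} {b : B.A} (ha : A.dg.IsDeg i a)
    (hb : B.dg.IsDeg j b) :
    (A.tensor B).mul ((tinr A B).f b) ((tinl A B).f a) = sg (j * i) • (a ⊗ₜ[k] b) := by
  change kz A.dg B.dg A.mul B.mul (A.one ⊗ₜ b) (a ⊗ₜ B.one) = sg (j * i) • (a ⊗ₜ[k] b)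
  rw [kz_sg hb ha, A.one_mul, B.mul_one]

/-- Two multiplicative linear maps on `A ⊗ B` which agree on `A` and on `B` are equal. -/
theorem tensor_ext {A B C : DGA k} {f g : (A.tensor B).A →ₗ[k] C.A}
    (hf : ∀ x y, f ((A.tensor B).mul x y) = C.mul (f x) (f y))
    (hg : ∀ x y, g ((A.tensor B).mul x y) = C.mul (g x) (g y))
    (hl : ∀ a, f ((tinl A B).f a) = g ((tinl A B).f a))
    (hr : ∀ b, f ((tinr A B).f b) = g ((tinr A B).f b)) : f = g := by
  refine LinearMap.ext fun x => ?_
  induction x using TensorProduct.induction_on with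
  | zero => exact (map_zero f).trans (map_zero g).symm
  | add x y hx hy => exact (map_add f x y).trans ((congrArg₂ (· + ·) hx hy).trans
      (map_add g x y).symm)
  | tmul a b => rw [← tinl_mul_tinr, hf, hg, hl, hr]

/-- The inclusion of the factor number `s` of `pw A n`. -/
noncomputable def inj (A : DGA k) : (n : ℕ) → Fin n → DHom A (pw A n)
  | 0, s => s.elim0
  | n + 1, s => Fin.cases (tinl A (pw A n)) (fun t => (inj A n t).comp (tinr A (pw A n))) s

theorem inj_zero (A : DGA k) (n : ℕ) : inj A (n + 1) 0 = tinl A (pw A n) := rfl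

theorem inj_succ (A : DGA k) (n : ℕ) (s : Fin n) :
    inj A (n + 1) s.succ = (inj A n s).comp (tinr A (pw A n)) := rfl

/-- The inclusions of different factors commute up to the Koszul sign. -/
theorem inj_comm (A : DGA k) (n : ℕ) {s t : Fin n} (hst : s ≠ t) {i j : ℤ} {a b : A.A}
    (ha : A.dg.IsDeg i a) (hb : A.dg.IsDeg j b) :
    (pw A n).mul ((inj A n s).f a) ((inj A n t).f b) =
      sg (i * j) • (pw A n).mul ((inj A n t).f b) ((inj A n s).f a) := by
  induction n with
  | zero => exact s.elim0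
  | succ n ih =>
    induction s using Fin.cases with
    | zero =>
      induction t using Fin.cases with
      | zero => exact absurd rfl hst
      | succ t =>
        have hb' : (pw A n).dg.IsDeg j ((inj A n t).f b) := (inj A n t).deg hb
        have e1 := tinl_mul_tinr A (pw A n) a ((inj A n t).f b)
        have e2 := tinr_mul_tinl A (pw A n) ha hb'
        change (A.tensor (pw A n)).mul ((tinl A (pw A n)).f a)
            ((tinr A (pw A n)).f ((inj A n t).f b)) =
          sg (i * j) • (A.tensor (pw A n)).mul ((tinr A (pw A n)).f ((inj A n t).f b))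
            ((tinl A (pw A n)).f a)
        have e3 : sg (i * j) • sg (j * i) • (a ⊗ₜ[k] (inj A n t).f b) =
            a ⊗ₜ[k] (inj A n t).f b := by
          rw [sg_smul_smul, sg_eq_of_even (b := 0) (by
            rw [sub_zero, mul_comm j i]
            exact ⟨i * j, rfl⟩)]
          exact one_smul ℤ _
        exact e1.trans (e3.symm.trans (congrArg (fun z => sg (i * j) • z) e2).symm)
    | succ s =>
      induction t using Fin.cases with
      | zero =>
        have ha' : (pw A n).dg.IsDeg i ((inj A n s).f a) := (inj A n s).deg ha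
        have e1 := tinl_mul_tinr A (pw A n) b ((inj A n s).f a)
        have e2 := tinr_mul_tinl A (pw A n) hb ha'
        change (A.tensor (pw A n)).mul ((tinr A (pw A n)).f ((inj A n s).f a))
            ((tinl A (pw A n)).f b) =
          sg (i * j) • (A.tensor (pw A n)).mul ((tinl A (pw A n)).f b)
            ((tinr A (pw A n)).f ((inj A n s).f a))
        exact e2.trans (congrArg (fun z => sg (i * j) • z) e1).symm
      | succ t =>
        have h1 := ih (s := s) (t := t) (fun h => hst (congrArg Fin.succ h))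
        change (A.tensor (pw A n)).mul ((tinr A (pw A n)).f ((inj A n s).f a))
            ((tinr A (pw A n)).f ((inj A n t).f b)) =
          sg (i * j) • (A.tensor (pw A n)).mul ((tinr A (pw A n)).f ((inj A n t).f b))
            ((tinr A (pw A n)).f ((inj A n s).f a))
        rw [← (tinr A (pw A n)).mul, ← (tinr A (pw A n)).mul, h1]
        exact map_zsmul (tinr A (pw A n)).f _ _

/-- Two multiplicative linear maps on `pw A n` which agree at `1` and on the images of all `inj s`
are equal. Proof. Induction on `n` with `tensor_ext`. -/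
theorem pw_ext {A C : DGA k} {n : ℕ} {f g : (pw A n).A →ₗ[k] C.A}
    (hf : ∀ x y, f ((pw A n).mul x y) = C.mul (f x) (f y))
    (hg : ∀ x y, g ((pw A n).mul x y) = C.mul (g x) (g y))
    (h1 : f (pw A n).one = g (pw A n).one)
    (h : ∀ s a, f ((inj A n s).f a) = g ((inj A n s).f a)) : f = g := by
  induction n with
  | zero =>
    refine LinearMap.ext fun (c : k) => ?_
    have h2 : ∀ F : (pw A 0).A →ₗ[k] C.A, F c = c • F (pw A 0).one := by
      intro F
      rw [← map_smul]
      exact congrArg F (base_smul c).symm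
    rw [h2 f, h2 g, h1]
  | succ n ih =>
    refine tensor_ext hf hg (fun a => h 0 a) ?_
    have h3 : f ∘ₗ (tinr A (pw A n)).f = g ∘ₗ (tinr A (pw A n)).f := by
      refine ih (f := f ∘ₗ (tinr A (pw A n)).f) (g := g ∘ₗ (tinr A (pw A n)).f) ?_ ?_ ?_ ?_
      · intro x y
        exact (congrArg f ((tinr A (pw A n)).mul x y)).trans (hf _ _)
      · intro x y
        exact (congrArg g ((tinr A (pw A n)).mul x y)).trans (hg _ _)
      · exact (congrArg f (tinr A (pw A n)).one).trans
          (h1.trans (congrArg g (tinr A (pw A n)).one).symm)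
      · intro s a
        exact h s.succ a
    exact fun b => LinearMap.congr_fun h3 b

private theorem PwE_adj (A : DGA k) : ∀ (n i : ℕ) (h : i + 1 < n) (s : Fin n) (a : A.A),
    (adjD A n i).hom.f ((inj A n s).f a) =
      (inj A n (swap ⟨i, (Nat.lt_succ_self i).trans h⟩ ⟨i + 1, h⟩ s)).f a
  | 0, _, h, _, _ => absurd h (by omega)
  | 1, _, h, _, _ => absurd h (by omega)
  | n + 2, 0, h, s, a => by
    rw [adjD_zero_f]
    have ho : ∀ (v : A.A) (p : (pw A n).A), SW A.dg (pw A n).A (v ⊗ₜ (A.one ⊗ₜ p)) =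
        A.one ⊗ₜ (v ⊗ₜ p) := by
      intro v p
      rw [SW_tmul, A.o_one, TensorProduct.zero_tmul, smul_zero, sub_zero]
    have ho' : ∀ (w : A.A) (p : (pw A n).A), SW A.dg (pw A n).A (A.one ⊗ₜ (w ⊗ₜ p)) =
        w ⊗ₜ (A.one ⊗ₜ p) := by
      intro w p
      rw [SW_tmul, A.o_one, TensorProduct.zero_tmul, TensorProduct.tmul_zero, smul_zero,
        sub_zero]
    induction s using Fin.cases with
    | zero =>
      have e : swap (⟨0, (Nat.lt_succ_self 0).trans h⟩ : Fin (n + 2)) ⟨0 + 1, h⟩ 0 =
          Fin.succ 0 := swap_apply_left _ _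
      rw [e]
      exact ho a (pw A n).one
    | succ s =>
      induction s using Fin.cases with
      | zero =>
        have e : swap (⟨0, (Nat.lt_succ_self 0).trans h⟩ : Fin (n + 2)) ⟨0 + 1, h⟩
            (Fin.succ 0) = 0 := swap_apply_right _ _
        rw [e]
        exact ho' a (pw A n).one
      | succ s =>
        have e : swap (⟨0, (Nat.lt_succ_self 0).trans h⟩ : Fin (n + 2)) ⟨0 + 1, h⟩
            (Fin.succ (Fin.succ s)) = Fin.succ (Fin.succ s) := by
          refine swap_apply_of_ne_of_ne ?_ ?_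
          · intro h1
            have := congrArg Fin.val h1
            simp at this
          · intro h1
            have := congrArg Fin.val h1
            simp at this
        rw [e]
        exact ho A.one ((inj A n s).f a)
  | n + 2, i + 1, h, s, a => by
    rw [adjD_succ_f]
    have hi : i + 1 < n + 1 := Nat.lt_of_succ_lt_succ h
    induction s using Fin.cases with
    | zero =>
      have e : swap (⟨i + 1, (Nat.lt_succ_self (i + 1)).trans h⟩ : Fin (n + 2))
          ⟨i + 1 + 1, h⟩ 0 = 0 := by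
        refine swap_apply_of_ne_of_ne ?_ ?_
        · intro h1
          have := congrArg Fin.val h1
          simp at this
        · intro h1
          have := congrArg Fin.val h1
          simp at this
      rw [e]
      change TensorProduct.map LinearMap.id (adjD A (n + 1) i).hom.f
        (a ⊗ₜ (pw A (n + 1)).one) = a ⊗ₜ (pw A (n + 1)).one
      rw [TensorProduct.map_tmul, (adjD A (n + 1) i).hom.one]
      rfl
    | succ s =>
      have e : swap (⟨i + 1, (Nat.lt_succ_self (i + 1)).trans h⟩ : Fin (n + 2))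
          ⟨i + 1 + 1, h⟩ s.succ =
          Fin.succ (swap ⟨i, (Nat.lt_succ_self i).trans hi⟩ ⟨i + 1, hi⟩ s) :=
        (Fin.succ_injective (n + 1)).swap_apply ⟨i, (Nat.lt_succ_self i).trans hi⟩
          ⟨i + 1, hi⟩ s
      rw [e]
      change TensorProduct.map LinearMap.id (adjD A (n + 1) i).hom.f
        (A.one ⊗ₜ (inj A (n + 1) s).f a) = A.one ⊗ₜ (inj A (n + 1)
          (swap ⟨i, (Nat.lt_succ_self i).trans hi⟩ ⟨i + 1, hi⟩ s)).f a
      rw [TensorProduct.map_tmul, PwE_adj A (n + 1) i hi s a]
      rfl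

/-- Proof. `perm_induction`; for neighbouring transpositions by induction on `n` and `i`
(`adjD_zero_f`, `adjD_succ_f`, `SW_tmul`; note `A.o_one`). -/
theorem pwP_inj (A : DGA k) (n : ℕ) (σ : Perm (Fin n)) (s : Fin n) (a : A.A) :
    pwP A n σ ((inj A n s).f a) = (inj A n (σ s)).f a := by
  revert s a
  refine Pool.Agent.MP_6e5bed_ag.perm_induction
    (P := fun σ => ∀ (s : Fin n) (a : A.A),
      pwP A n σ ((inj A n s).f a) = (inj A n (σ s)).f a) ?_ ?_ ?_ σ
  · intro s a
    rw [map_one]
    rfl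
  · intro i h s a
    rw [pwP_swap]
    exact PwE_adj A n i h s a
  · intro σ τ h1 h2 s a
    rw [map_mul, Module.End.mul_apply, h2, h1]
    rfl

/-- The tensor power of a morphism of dg algebras. -/
noncomputable def pwMap {A B : DGA k} (φ : DHom A B) : (n : ℕ) → DHom (pw A n) (pw B n)
  | 0 => DHom.id (base k)
  | n + 1 => φ.tensor (pwMap φ n)

theorem pwMap_inj {A B : DGA k} (φ : DHom A B) (n : ℕ) (s : Fin n) (a : A.A) :
    (pwMap φ n).f ((inj A n s).f a) = (inj B n s).f (φ.f a) := by
  induction n with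
  | zero => exact s.elim0
  | succ n ih =>
    induction s using Fin.cases with
    | zero =>
      change TensorProduct.map φ.f (pwMap φ n).f (a ⊗ₜ (pw A n).one) =
        φ.f a ⊗ₜ (pw B n).one
      rw [TensorProduct.map_tmul, (pwMap φ n).one]
    | succ s =>
      change TensorProduct.map φ.f (pwMap φ n).f (A.one ⊗ₜ (inj A n s).f a) =
        B.one ⊗ₜ (inj B n s).f (φ.f a)
      rw [TensorProduct.map_tmul, φ.one, ih]

theorem pwMap_perm {A B : DGA k} (φ : DHom A B) (n : ℕ) (σ : Perm (Fin n)) (x : (pw A n).A) :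
    (pwMap φ n).f (pwP A n σ x) = pwP B n σ ((pwMap φ n).f x) := by
  have hm : ∀ (A : DGA k) (x y : (pw A n).A),
      pwP A n σ ((pw A n).mul x y) = (pw A n).mul (pwP A n σ x) (pwP A n σ y) :=
    fun A x y => ((pwAct A n).a σ).mul x y
  have h1 : ∀ A : DGA k, pwP A n σ (pw A n).one = (pw A n).one :=
    fun A => ((pwAct A n).a σ).one
  have h2 : (pwMap φ n).f ∘ₗ pwP A n σ = pwP B n σ ∘ₗ (pwMap φ n).f := by
    refine pw_ext ?_ ?_ ?_ ?_
    · intro x y
      rw [LinearMap.comp_apply, LinearMap.comp_apply, LinearMap.comp_apply, hm,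
        (pwMap φ n).mul]
    · intro x y
      rw [LinearMap.comp_apply, LinearMap.comp_apply, LinearMap.comp_apply,
        (pwMap φ n).mul, hm]
    · rw [LinearMap.comp_apply, LinearMap.comp_apply, h1, (pwMap φ n).one, h1]
    · intro s a
      rw [LinearMap.comp_apply, LinearMap.comp_apply, pwP_inj, pwMap_inj, pwMap_inj, pwP_inj]
  exact LinearMap.congr_fun h2 x

theorem pwMap_id (A : DGA k) (n : ℕ) : pwMap (DHom.id A) n = DHom.id (pw A n) := by
  have h : (pwMap (DHom.id A) n).f = (DHom.id (pw A n)).f :=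
    pw_ext (pwMap (DHom.id A) n).mul (DHom.id (pw A n)).mul
      ((pwMap (DHom.id A) n).one.trans (DHom.id (pw A n)).one.symm)
      fun s a => pwMap_inj (DHom.id A) n s a
  exact DHom.ext fun x => LinearMap.congr_fun h x

theorem pwMap_comp {A B C : DGA k} (φ : DHom A B) (ψ : DHom B C) (n : ℕ) :
    pwMap (φ.comp ψ) n = (pwMap φ n).comp (pwMap ψ n) := by
  have h : (pwMap (φ.comp ψ) n).f = ((pwMap φ n).comp (pwMap ψ n)).f := by
    refine pw_ext (pwMap (φ.comp ψ) n).mul ((pwMap φ n).comp (pwMap ψ n)).mul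
      ((pwMap (φ.comp ψ) n).one.trans ((pwMap φ n).comp (pwMap ψ n)).one.symm) ?_
    intro s a
    rw [pwMap_inj]
    change (inj C n s).f (ψ.f (φ.f a)) = (pwMap ψ n).f ((pwMap φ n).f ((inj A n s).f a))
    rw [pwMap_inj, pwMap_inj]
  exact DHom.ext fun x => LinearMap.congr_fun h x

end Pool.Agent.MP_6e5bed_ag_SY
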