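import Pool.Agent.Lib.MP_6e5bed_ag_SY.PwM
import Pool.Agent.Lib.MP_6e5bed_ag_SY.PwE

set_option autoImplicit false
set_option linter.unusedSectionVars false

/-!
# MP_6e5bed_ag (project SYM): tensor products of families of maps
-/

namespace Pool.Agent.MP_6e5bed_ag_SY

open Pool.Agent.MP_6e5bed_ag_NC
open Equiv
open scoped TensorProduct

universe u

variable {k : Type u} [CommRing k] {A B A' B' A'' B'' : DGA k}

/-- The tensor product of the maps `f 0, …, f (n - 1)`. -/
noncomputable def bxFam (M : Bim A B) (N : Bim A' B') :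
    (n : ℕ) → (Fin n → (M.M →ₗ[k] N.M)) → (bx M n).M →ₗ[k] (bx N n).M
  | 0, _ => LinearMap.id
  | n + 1, f => TensorProduct.map (f 0) (bxFam M N n fun s => f s.succ)

theorem bxFam_succ (M : Bim A B) (N : Bim A' B') (n : ℕ) (f : Fin (n + 1) → (M.M →ₗ[k] N.M)) :
    bxFam M N (n + 1) f = TensorProduct.map (f 0) (bxFam M N n fun s => f s.succ) := rfl

theorem bxFam_id (M : Bim A B) (n : ℕ) : bxFam M M n (fun _ => LinearMap.id) = LinearMap.id := by
  induction n with
  | zero => rfl
  | succ n ih =>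
    change TensorProduct.map LinearMap.id (bxFam M M n fun _ => LinearMap.id) = LinearMap.id
    rw [ih]
    exact TensorProduct.map_id

theorem bxFam_comp (M : Bim A B) (N : Bim A' B') (P : Bim A'' B'') (n : ℕ)
    (f : Fin n → (M.M →ₗ[k] N.M)) (g : Fin n → (N.M →ₗ[k] P.M)) (x : (bx M n).M) :
    bxFam N P n g (bxFam M N n f x) = bxFam M P n (fun s => g s ∘ₗ f s) x := by
  induction n with
  | zero => rfl
  | succ n ih =>
    change TensorProduct.map (g 0) (bxFam N P n fun s => g s.succ)
      (TensorProduct.map (f 0) (bxFam M N n fun s => f s.succ) x) =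
      TensorProduct.map (g 0 ∘ₗ f 0) (bxFam M P n fun s => g s.succ ∘ₗ f s.succ) x
    induction x using TensorProduct.induction_on with
    | zero => simp only [map_zero]
    | add x y hx hy => simp only [map_add, hx, hy]
    | tmul a b =>
      rw [TensorProduct.map_tmul, TensorProduct.map_tmul, TensorProduct.map_tmul,
        ih (fun s => f s.succ) (fun s => g s.succ) b]
      rfl

private theorem PwF_nbr (M : Bim A B) (N : Bim A' B') (n i : ℕ) (h : i + 1 < n)
    (f : Fin n → (M.M →ₗ[k] N.M)) (hf : ∀ s m, N.dg.o (f s m) = f s (M.dg.o m))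
    (x : (bx M n).M) :
    swM N n i (bxFam M N n f x) = bxFam M N n
      (fun s => f (swap ⟨i, (Nat.lt_succ_self i).trans h⟩ ⟨i + 1, h⟩ s)) (swM M n i x) := by
  induction n generalizing i with
  | zero => omega
  | succ n ih =>
    obtain ⟨m, rfl⟩ : ∃ m, n = m + 1 := ⟨n - 1, by omega⟩
    cases i with
    | zero =>
      have e : (fun s : Fin (m + 2) => f (swap ⟨0, (Nat.lt_succ_self 0).trans h⟩ ⟨0 + 1, h⟩ s)) =
          fun s : Fin (m + 2) => f (swap 0 1 s) := rfl
      rw [e]
      have e0 : f (swap 0 1 0) = f 1 := by rw [swap_apply_left]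
      have e1 : f (swap 0 1 (Fin.succ (0 : Fin (m + 1)))) = f 0 := by
        rw [show Fin.succ (0 : Fin (m + 1)) = 1 from rfl, swap_apply_right]
      have e2 : (fun s : Fin m => f (swap 0 1 s.succ.succ)) = fun s => f s.succ.succ := by
        funext s
        have hne : (s.succ.succ : Fin (m + 2)) ≠ 1 := fun hs =>
          Fin.succ_ne_zero s (Fin.succ_injective _ hs)
        rw [swap_apply_of_ne_of_ne (Fin.succ_ne_zero _) hne]
      change SW N.dg (bx N m).M (TensorProduct.map (f 0)
        (TensorProduct.map (f 1) (bxFam M N m fun s => f s.succ.succ)) x) =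
        TensorProduct.map (f (swap 0 1 0)) (TensorProduct.map
          (f (swap 0 1 (Fin.succ (0 : Fin (m + 1)))))
          (bxFam M N m fun s => f (swap 0 1 s.succ.succ))) (SW M.dg (bx M m).M x)
      rw [e0, e1, e2]
      exact SW_nat M.dg N.dg (f 0) (f 1) (hf 0) (hf 1) _ x
    | succ i =>
      have h' : i + 1 < m + 1 := by omega
      have e0 : f (swap ⟨i + 1, (Nat.lt_succ_self (i + 1)).trans h⟩ ⟨i + 1 + 1, h⟩ 0) = f 0 := by
        rw [swap_apply_of_ne_of_ne]
        · intro hh
          exact absurd (congrArg Fin.val hh) (by simp)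
        · intro hh
          exact absurd (congrArg Fin.val hh) (by simp)
      have e1 : (fun s : Fin (m + 1) =>
          f (swap ⟨i + 1, (Nat.lt_succ_self (i + 1)).trans h⟩ ⟨i + 1 + 1, h⟩ s.succ)) =
          fun s => f (swap ⟨i, (Nat.lt_succ_self i).trans h'⟩ ⟨i + 1, h'⟩ s).succ := by
        funext s
        congr 1
        exact ((Fin.succ_injective (m + 1)).swap_apply
          (⟨i, (Nat.lt_succ_self i).trans h'⟩ : Fin (m + 1)) ⟨i + 1, h'⟩ s)
      change TensorProduct.map LinearMap.id (swM N (m + 1) i)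
        (TensorProduct.map (f 0) (bxFam M N (m + 1) fun s => f s.succ) x) =
        TensorProduct.map
          (f (swap ⟨i + 1, (Nat.lt_succ_self (i + 1)).trans h⟩ ⟨i + 1 + 1, h⟩ 0))
          (bxFam M N (m + 1) fun s =>
            f (swap ⟨i + 1, (Nat.lt_succ_self (i + 1)).trans h⟩ ⟨i + 1 + 1, h⟩ s.succ))
          (TensorProduct.map LinearMap.id (swM M (m + 1) i) x)
      rw [e0, e1]
      induction x using TensorProduct.induction_on with
      | zero => simp only [map_zero]
      | add x y hx hy => simp only [map_add, hx, hy]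
      | tmul a b =>
        rw [TensorProduct.map_tmul, TensorProduct.map_tmul, TensorProduct.map_tmul,
          TensorProduct.map_tmul, ih i h' (fun s => f s.succ) (fun s => hf s.succ) b]
        rfl

/-- Proof. `perm_induction` (for all families at once); for the transposition of `i` and `i + 1` by
induction on `n` and `i`, with `SW_nat`. -/
theorem bxFam_perm (M : Bim A B) (N : Bim A' B') (n : ℕ) (f : Fin n → (M.M →ₗ[k] N.M))
    (hf : ∀ s m, N.dg.o (f s m) = f s (M.dg.o m)) (σ : Perm (Fin n)) (x : (bx M n).M) :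
    bxP N n σ (bxFam M N n f x) = bxFam M N n (fun s => f (σ⁻¹ s)) (bxP M n σ x) := by
  have key : ∀ (f : Fin n → (M.M →ₗ[k] N.M)), (∀ s m, N.dg.o (f s m) = f s (M.dg.o m)) →
      ∀ x : (bx M n).M,
        bxP N n σ (bxFam M N n f x) = bxFam M N n (fun s => f (σ⁻¹ s)) (bxP M n σ x) := by
    refine MP_6e5bed_ag.perm_induction (P := fun σ => ∀ (f : Fin n → (M.M →ₗ[k] N.M)),
      (∀ s m, N.dg.o (f s m) = f s (M.dg.o m)) → ∀ x : (bx M n).M,
        bxP N n σ (bxFam M N n f x) = bxFam M N n (fun s => f (σ⁻¹ s)) (bxP M n σ x))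
      ?_ ?_ ?_ σ
    · intro f hf x
      rw [map_one, map_one]
      rfl
    · intro i h f hf x
      rw [bxP_swap, bxP_swap, swap_inv]
      exact PwF_nbr M N n i h f hf x
    · intro a b ha hb f hf x
      rw [map_mul, map_mul]
      change bxP N n a (bxP N n b (bxFam M N n f x)) =
        bxFam M N n (fun s => f ((a * b)⁻¹ s)) (bxP M n a (bxP M n b x))
      rw [hb f hf x, ha (fun s => f (b⁻¹ s)) (fun s => hf _) (bxP M n b x), mul_inv_rev]
      rfl
  exact key f hf x

theorem bxFam_deg (M : Bim A B) (N : Bim A' B') (n : ℕ) (f : Fin n → (M.M →ₗ[k] N.M))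
    (hf : ∀ s {i : ℤ} {m : M.M}, M.dg.IsDeg i m → N.dg.IsDeg i (f s m)) {i : ℤ}
    {x : (bx M n).M} (hx : (bx M n).dg.IsDeg i x) : (bx N n).dg.IsDeg i (bxFam M N n f x) := by
  induction n generalizing i with
  | zero => exact hx
  | succ n ih =>
    have h := Dg.tensor_degMap (X := M.dg) (Y := (bx M n).dg) (Z := N.dg.tensor (bx N n).dg)
      (n := 0) (TensorProduct.map (f 0) (bxFam M N n fun s => f s.succ))
      (fun i j v w hv hw => by
        rw [add_zero, TensorProduct.map_tmul]
        exact Dg.tensor_deg (hf 0 hv) (ih (fun s => f s.succ) (fun s => hf s.succ) hw)) hx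
    rwa [add_zero] at h

private theorem PwF_s (M : Bim A B) (N : Bim A' B') (f : M.M →ₗ[k] N.M)
    (hf : ∀ {i : ℤ} {m : M.M}, M.dg.IsDeg i m → N.dg.IsDeg i (f m)) (m : M.M) :
    N.dg.s (f m) = f (M.dg.s m) :=
  Dg.s_degMap_even (n := 0) Even.zero f (fun h => by rw [add_zero]; exact hf h) m

private theorem PwF_o (M : Bim A B) (N : Bim A' B') (f : M.M →ₗ[k] N.M)
    (hf : ∀ {i : ℤ} {m : M.M}, M.dg.IsDeg i m → N.dg.IsDeg i (f m)) (m : M.M) :
    N.dg.o (f m) = f (M.dg.o m) :=
  Dg.o_degMap_even (n := 0) Even.zero f (fun h => by rw [add_zero]; exact hf h) m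

private theorem PwF_kz {V V' V'' W W' W'' P P' P'' Q Q' Q'' : Type u}
    [AddCommGroup V] [Module k V] [AddCommGroup V'] [Module k V'] [AddCommGroup V'']
    [Module k V''] [AddCommGroup W] [Module k W] [AddCommGroup W'] [Module k W']
    [AddCommGroup W''] [Module k W''] [AddCommGroup P] [Module k P] [AddCommGroup P']
    [Module k P'] [AddCommGroup P''] [Module k P''] [AddCommGroup Q] [Module k Q]
    [AddCommGroup Q'] [Module k Q'] [AddCommGroup Q''] [Module k Q'']
    {X : Dg k V'} {Y : Dg k W} {X' : Dg k P'} {Y' : Dg k Q}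
    {α : V →ₗ[k] V' →ₗ[k] V''} {β : W →ₗ[k] W' →ₗ[k] W''}
    {α' : P →ₗ[k] P' →ₗ[k] P''} {β' : Q →ₗ[k] Q' →ₗ[k] Q''}
    (p : V →ₗ[k] P) (p' : V' →ₗ[k] P') (p'' : V'' →ₗ[k] P'')
    (q : W →ₗ[k] Q) (q' : W' →ₗ[k] Q') (q'' : W'' →ₗ[k] Q'')
    (hp' : ∀ v, X'.o (p' v) = p' (X.o v)) (hq : ∀ w, Y'.o (q w) = q (Y.o w))
    (hα : ∀ v v', p'' (α v v') = α' (p v) (p' v'))
    (hβ : ∀ w w', q'' (β w w') = β' (q w) (q' w'))
    (x : V ⊗[k] W) (y : V' ⊗[k] W') :
    TensorProduct.map p'' q'' (kz X Y α β x y) =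
      kz X' Y' α' β' (TensorProduct.map p q x) (TensorProduct.map p' q' y) := by
  induction x using TensorProduct.induction_on with
  | zero => simp
  | add x x' hx hx' => simp only [map_add, LinearMap.add_apply, hx, hx']
  | tmul a a' =>
    induction y using TensorProduct.induction_on with
    | zero => simp
    | add y y' hy hy' => simp only [map_add, hy, hy']
    | tmul b b' =>
      rw [kz_tmul, TensorProduct.map_tmul, TensorProduct.map_tmul, kz_tmul, map_sub, map_smul,
        TensorProduct.map_tmul, TensorProduct.map_tmul, hα, hβ, hα, hβ, hp', hq]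

theorem bxFam_d (M : Bim A B) (N : Bim A' B') (n : ℕ) (f : Fin n → (M.M →ₗ[k] N.M))
    (hf : ∀ s {i : ℤ} {m : M.M}, M.dg.IsDeg i m → N.dg.IsDeg i (f s m))
    (hd : ∀ s m, N.dg.d (f s m) = f s (M.dg.d m)) (x : (bx M n).M) :
    (bx N n).dg.d (bxFam M N n f x) = bxFam M N n f ((bx M n).dg.d x) := by
  induction n with
  | zero => rfl
  | succ n ih =>
    change (N.dg.tensor (bx N n).dg).d
      (TensorProduct.map (f 0) (bxFam M N n fun s => f s.succ) x) =
      TensorProduct.map (f 0) (bxFam M N n fun s => f s.succ) ((M.dg.tensor (bx M n).dg).d x)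
    induction x using TensorProduct.induction_on with
    | zero => simp only [map_zero]
    | add x y hx hy => simp only [map_add, hx, hy]
    | tmul a b =>
      have h1 := ih (fun s => f s.succ) (fun s => hf s.succ) (fun s => hd s.succ) b
      have h2 := PwF_s M N (f 0) (hf 0) a
      simp only [TensorProduct.map_tmul, Dg.tensor_d, map_add, hd, h1, h2]

/-- Semilinear families are compatible with the left actions. -/
theorem bxFam_l (φ : DHom A A') (M : Bim A B) (N : Bim A' B') (n : ℕ)
    (f : Fin n → (M.M →ₗ[k] N.M))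
    (hf : ∀ s {i : ℤ} {m : M.M}, M.dg.IsDeg i m → N.dg.IsDeg i (f s m))
    (hl : ∀ s a m, f s (M.l a m) = N.l (φ.f a) (f s m)) (a : (pw A n).A) (x : (bx M n).M) :
    bxFam M N n f ((bx M n).l a x) = (bx N n).l ((pwMap φ n).f a) (bxFam M N n f x) := by
  induction n with
  | zero => rfl
  | succ n ih =>
    exact PwF_kz (X := M.dg) (Y := (pw A n).dg) (X' := N.dg) (Y' := (pw A' n).dg) (α := M.l)
      (β := (bx M n).l) (α' := N.l) (β' := (bx N n).l) φ.f (f 0) (f 0) (pwMap φ n).f
      (bxFam M N n fun s => f s.succ) (bxFam M N n fun s => f s.succ)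
      (PwF_o M N (f 0) (hf 0)) (pwMap φ n).o (hl 0)
      (ih (fun s => f s.succ) (fun s => hf s.succ) (fun s => hl s.succ)) a x

/-- Semilinear families are compatible with the right actions. -/
theorem bxFam_r (ψ : DHom B B') (M : Bim A B) (N : Bim A' B') (n : ℕ)
    (f : Fin n → (M.M →ₗ[k] N.M))
    (hf : ∀ s {i : ℤ} {m : M.M}, M.dg.IsDeg i m → N.dg.IsDeg i (f s m))
    (hr : ∀ s b m, f s (M.r b m) = N.r (ψ.f b) (f s m)) (b : (pw B n).A) (x : (bx M n).M) :
    bxFam M N n f ((bx M n).r b x) = (bx N n).r ((pwMap ψ n).f b) (bxFam M N n f x) := by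
  induction n with
  | zero => rfl
  | succ n ih =>
    have ho : ∀ w : (bx M n).M, (bx N n).dg.o (bxFam M N n (fun s => f s.succ) w) =
        bxFam M N n (fun s => f s.succ) ((bx M n).dg.o w) := fun w =>
      Dg.o_degMap_even (n := 0) Even.zero _
        (fun h => by rw [add_zero]; exact bxFam_deg M N n _ (fun s => hf s.succ) h) w
    exact PwF_kz (X := B.dg) (Y := (bx M n).dg) (X' := B'.dg) (Y' := (bx N n).dg) (α := M.rr)
      (β := (bx M n).rr) (α' := N.rr) (β' := (bx N n).rr) (f 0) ψ.f (f 0)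
      (bxFam M N n fun s => f s.succ) (pwMap ψ n).f (bxFam M N n fun s => f s.succ)
      ψ.o ho (fun m b => hr 0 b m)
      (fun w b => ih (fun s => f s.succ) (fun s => hf s.succ) (fun s => hr s.succ) b w) x b

theorem bxFam_bij (M : Bim A B) (N : Bim A' B') (n : ℕ) (f : Fin n → (M.M →ₗ[k] N.M))
    (hf : ∀ s, Function.Bijective (f s)) : Function.Bijective (bxFam M N n f) := by
  induction n with
  | zero => exact Function.bijective_id
  | succ n ih =>
    have h := ih (fun s => f s.succ) (fun s => hf s.succ)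
    exact (TensorProduct.congr (LinearEquiv.ofBijective (f 0) (hf 0))
      (LinearEquiv.ofBijective _ h)).bijective

end Pool.Agent.MP_6e5bed_ag_SY
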