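import Pool.Agent.Lib.MP_6e5bed_ag_SY.PwC
import Pool.Agent.Lib.MP_6e5bed_ag_SY.Md

set_option autoImplicit false
set_option linter.unusedSectionVars false

/-!
# MP_6e5bed_ag (project SYM): `A^{⊗n} ⊗ B^{⊗n} ≅ (A ⊗ B)^{⊗n}`
-/

namespace Pool.Agent.MP_6e5bed_ag_SY

open Pool.Agent.MP_6e5bed_ag_NC
open Equiv
open scoped TensorProduct

universe u

variable {k : Type u} [CommRing k] {A B A' B' : DGA k}

/-- The bilinear map `A^{⊗n} × B^{⊗n} → (A ⊗ B)^{⊗n}`. -/
noncomputable def pwSh (A B : DGA k) :
    (n : ℕ) → (pw A n).A →ₗ[k] (pw B n).A →ₗ[k] (pw (A.tensor B) n).A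
  | 0 => LinearMap.mul k k
  | n + 1 => kz B.dg (pw A n).dg (TensorProduct.mk k A.A B.A) (pwSh A B n)

theorem pwSh_succ (A B : DGA k) (n : ℕ) :
    pwSh A B (n + 1) = kz B.dg (pw A n).dg (TensorProduct.mk k A.A B.A) (pwSh A B n) := rfl

section PwS_tools

variable {V V' V'' W W' W'' U U' U'' : Type u} [AddCommGroup V] [Module k V]
  [AddCommGroup V'] [Module k V'] [AddCommGroup V''] [Module k V''] [AddCommGroup W]
  [Module k W] [AddCommGroup W'] [Module k W'] [AddCommGroup W''] [Module k W'']
  [AddCommGroup U] [Module k U] [AddCommGroup U'] [Module k U'] [AddCommGroup U''] [Module k U'']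

private theorem PwS_kz {X : Dg k V'} {Y : Dg k W} {Y1 : Dg k U} {α : V →ₗ[k] V' →ₗ[k] V''}
    {β : W →ₗ[k] W' →ₗ[k] W''} {β1 : U →ₗ[k] U' →ₗ[k] U''}
    (q : W →ₗ[k] U) (q' : W' →ₗ[k] U') (q'' : W'' →ₗ[k] U'') (hq : ∀ w, Y1.o (q w) = q (Y.o w))
    (hβ : ∀ w w', q'' (β w w') = β1 (q w) (q' w')) (x : V ⊗[k] W) (y : V' ⊗[k] W') :
    TensorProduct.map LinearMap.id q'' (kz X Y α β x y) =
      kz X Y1 α β1 (TensorProduct.map LinearMap.id q x) (TensorProduct.map LinearMap.id q' y) := by
  induction x using TensorProduct.induction_on with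
  | zero => simp
  | add x x' hx hx' => simp only [map_add, LinearMap.add_apply, hx, hx']
  | tmul a a' =>
    induction y using TensorProduct.induction_on with
    | zero => simp
    | add y y' hy hy' => simp only [map_add, hy, hy']
    | tmul b b' =>
      rw [kz_tmul, TensorProduct.map_tmul, TensorProduct.map_tmul, kz_tmul, map_sub, map_smul,
        TensorProduct.map_tmul, TensorProduct.map_tmul, hβ, hβ, hq]
      rfl

private theorem PwS_lift {X : Dg k V'} {Y : Dg k W} (β : W →ₗ[k] W' →ₗ[k] W'')
    (x : (V ⊗[k] W) ⊗[k] (V' ⊗[k] W')) :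
    TensorProduct.lift (kz X Y (TensorProduct.mk k V V') β) x =
      TensorProduct.map LinearMap.id (TensorProduct.lift β) (TensorProduct.lift (md X Y) x) := by
  induction x using TensorProduct.induction_on with
  | zero => simp only [map_zero]
  | add x x' hx hx' => simp only [map_add, hx, hx']
  | tmul x y =>
    rw [TensorProduct.lift.tmul, TensorProduct.lift.tmul]
    induction x using TensorProduct.induction_on with
    | zero => simp only [map_zero, LinearMap.zero_apply]
    | add x x' hx hx' => simp only [map_add, LinearMap.add_apply, hx, hx']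
    | tmul a a' =>
      induction y using TensorProduct.induction_on with
      | zero => simp only [map_zero]
      | add y y' hy hy' => simp only [map_add, hy, hy']
      | tmul b b' =>
        unfold md
        rw [kz_tmul, kz_tmul, map_sub, map_smul, TensorProduct.map_tmul, TensorProduct.map_tmul]
        rfl

private theorem PwS_map_bij {f : W →ₗ[k] W'} (hf : Function.Bijective f) :
    Function.Bijective (TensorProduct.map (LinearMap.id : V →ₗ[k] V) f) := by
  have h := (TensorProduct.congr (LinearEquiv.refl k V) (LinearEquiv.ofBijective f hf)).bijective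
  exact h

private theorem PwS_bijG {X : Dg k V'} {Y : Dg k W} (β : W →ₗ[k] W' →ₗ[k] W'')
    (h : Function.Bijective (TensorProduct.lift β)) : Function.Bijective
      (TensorProduct.lift (kz X Y (TensorProduct.mk k V V') β)) := by
  have h1 : (TensorProduct.lift (kz X Y (TensorProduct.mk k V V') β) : _ → _) =
      (TensorProduct.map LinearMap.id (TensorProduct.lift β) : _ → _) ∘
      (TensorProduct.lift (md (V₁ := V) (W₁' := W') X Y)) :=
    funext fun x => PwS_lift β x
  rw [h1]
  exact (PwS_map_bij h).comp (md_bij X Y)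

private theorem PwS_lift_mul : Function.Bijective
    (TensorProduct.lift (LinearMap.mul k k) : k ⊗[k] k →ₗ[k] k) := by
  have h : (TensorProduct.lift (LinearMap.mul k k) : k ⊗[k] k →ₗ[k] k) =
      (TensorProduct.lid k k).toLinearMap := by
    ext
    simp
  rw [h]
  exact (TensorProduct.lid k k).bijective

end PwS_tools

private theorem PwS_degG {A B C D E : DGA k} {β : C.A →ₗ[k] D.A →ₗ[k] E.A}
    (hβ : ∀ {i j : ℤ} {w : C.A} {w' : D.A}, C.dg.IsDeg i w → D.dg.IsDeg j w' →
      E.dg.IsDeg (i + j) (β w w')) {i j : ℤ} {x : A.A ⊗[k] C.A} {y : B.A ⊗[k] D.A}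
    (hx : (A.dg.tensor C.dg).IsDeg i x) (hy : (B.dg.tensor D.dg).IsDeg j y) :
    ((A.dg.tensor B.dg).tensor E.dg).IsDeg (i + j)
      (kz B.dg C.dg (TensorProduct.mk k A.A B.A) β x y) :=
  kz_deg (fun h h' => Dg.tensor_deg h h') hβ hx hy

private theorem PwS_dG {A B C D E : DGA k} {β : C.A →ₗ[k] D.A →ₗ[k] E.A}
    (hβ : ∀ w w', E.dg.d (β w w') = β (C.dg.d w) w' + β (C.dg.s w) (D.dg.d w'))
    (x : A.A ⊗[k] C.A) (y : B.A ⊗[k] D.A) :
    ((A.dg.tensor B.dg).tensor E.dg).d (kz B.dg C.dg (TensorProduct.mk k A.A B.A) β x y) =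
      kz B.dg C.dg (TensorProduct.mk k A.A B.A) β ((A.dg.tensor C.dg).d x) y +
      kz B.dg C.dg (TensorProduct.mk k A.A B.A) β ((A.dg.tensor C.dg).s x)
        ((B.dg.tensor D.dg).d y) :=
  kz_d (fun v v' => Dg.tensor_d v v') (fun v v' => Dg.tensor_s v v') hβ x y

private theorem PwS_dL {C D E : DGA k} {β : C.A →ₗ[k] D.A →ₗ[k] E.A}
    (hβ : ∀ w w', E.dg.d (β w w') = β (C.dg.d w) w' + β (C.dg.s w) (D.dg.d w'))
    (a : C.A ⊗[k] D.A) :
    E.dg.d (TensorProduct.lift β a) = TensorProduct.lift β ((C.dg.tensor D.dg).d a) := by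
  induction a using TensorProduct.induction_on with
  | zero => simp only [map_zero]
  | add x y hx hy => simp only [map_add, hx, hy]
  | tmul x y =>
    rw [TensorProduct.lift.tmul, hβ, Dg.tensor_d, map_add, TensorProduct.lift.tmul,
      TensorProduct.lift.tmul]

private theorem PwS_deg (A B : DGA k) (n : ℕ) {i j : ℤ} {x : (pw A n).A} {y : (pw B n).A}
    (hx : (pw A n).dg.IsDeg i x) (hy : (pw B n).dg.IsDeg j y) :
    (pw (A.tensor B) n).dg.IsDeg (i + j) (pwSh A B n x y) := by
  induction n generalizing i j with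
  | zero => exact (base k).mul_deg hx hy
  | succ n ih =>
    exact PwS_degG (A := A) (B := B) (C := pw A n) (D := pw B n) (E := pw (A.tensor B) n)
      (β := pwSh A B n) (fun h h' => ih h h') hx hy

private theorem PwS_d (A B : DGA k) (n : ℕ) (x : (pw A n).A) (y : (pw B n).A) :
    (pw (A.tensor B) n).dg.d (pwSh A B n x y) =
      pwSh A B n ((pw A n).dg.d x) y + pwSh A B n ((pw A n).dg.s x) ((pw B n).dg.d y) := by
  induction n with
  | zero => exact (base k).leibniz x y
  | succ n ih =>
    exact PwS_dG (A := A) (B := B) (C := pw A n) (D := pw B n) (E := pw (A.tensor B) n)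
      (β := pwSh A B n) ih x y

private theorem PwS_one (A B : DGA k) (n : ℕ) :
    pwSh A B n (pw A n).one (pw B n).one = (pw (A.tensor B) n).one := by
  induction n with
  | zero => exact (base k).one_mul (base k).one
  | succ n ih =>
    refine (kz_even (X := B.dg) (Y := (pw A n).dg) (α := TensorProduct.mk k A.A B.A)
      (β := pwSh A B n) (pw A n).o_one A.one B.one (pw B n).one).trans ?_
    exact congrArg (fun w => (A.one ⊗ₜ[k] B.one) ⊗ₜ[k] w) ih

private theorem PwS_lift_deg (A B : DGA k) (n : ℕ) {i : ℤ} {a : ((pw A n).tensor (pw B n)).A}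
    (ha : ((pw A n).tensor (pw B n)).dg.IsDeg i a) :
    (pw (A.tensor B) n).dg.IsDeg i (TensorProduct.lift (pwSh A B n) a) := by
  have h := Dg.tensor_degMap (X := (pw A n).dg) (Y := (pw B n).dg)
    (Z := (pw (A.tensor B) n).dg) (n := 0) (TensorProduct.lift (pwSh A B n))
    (fun i j v w hv hw => by
      rw [add_zero]
      exact PwS_deg A B n hv hw) ha
  rwa [add_zero] at h

private theorem PwS_mulG {A B C D E : DGA k} (β : C.A →ₗ[k] D.A →ₗ[k] E.A)
    (ho : ∀ w : C.A ⊗[k] D.A, E.dg.o (TensorProduct.lift β w) =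
      TensorProduct.lift β ((C.dg.tensor D.dg).o w))
    (h : ∀ a b : C.A ⊗[k] D.A, TensorProduct.lift β (kz C.dg D.dg C.mul D.mul a b) =
      E.mul (TensorProduct.lift β a) (TensorProduct.lift β b))
    (a b : (A.A ⊗[k] C.A) ⊗[k] (B.A ⊗[k] D.A)) :
    TensorProduct.lift (kz B.dg C.dg (TensorProduct.mk k A.A B.A) β)
        (kz (A.dg.tensor C.dg) (B.dg.tensor D.dg) (kz A.dg C.dg A.mul C.mul)
          (kz B.dg D.dg B.mul D.mul) a b) =
      kz (A.dg.tensor B.dg) E.dg (kz A.dg B.dg A.mul B.mul) E.mul
        (TensorProduct.lift (kz B.dg C.dg (TensorProduct.mk k A.A B.A) β) a)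
        (TensorProduct.lift (kz B.dg C.dg (TensorProduct.mk k A.A B.A) β) b) := by
  rw [PwS_lift, PwS_lift, PwS_lift,
    ← PwS_kz (Y := C.dg.tensor D.dg) (β := kz C.dg D.dg C.mul D.mul) (TensorProduct.lift β)
      (TensorProduct.lift β) (TensorProduct.lift β) ho h]
  congr 1
  induction a using TensorProduct.induction_on with
  | zero => simp only [map_zero, LinearMap.zero_apply]
  | add x y hx hy => simp only [map_add, LinearMap.add_apply, hx, hy]
  | tmul x x' =>
    induction b using TensorProduct.induction_on with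
    | zero => simp only [map_zero]
    | add x y hx hy => simp only [map_add, hx, hy]
    | tmul y y' =>
      exact (md_kz (X₂ := A.dg) (X₂' := B.dg) (X₁' := B.dg) (Y₁ := C.dg)
        (Y₁' := D.dg) (Y₂ := C.dg) (X₃' := B.dg) (Y₃ := C.dg)
        (α := A.mul) (β := C.mul) (α' := B.mul) (β' := D.mul)
        (fun h h' => C.mul_deg h h') (fun h h' => B.mul_deg h h') x x' y y').symm

private theorem PwS_mul_even {C : DGA k} (ho : ∀ x, C.dg.o x = 0)
    (hc : ∀ x y, C.mul x y = C.mul y x) (a b : C.A ⊗[k] C.A) :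
    TensorProduct.lift C.mul (kz C.dg C.dg C.mul C.mul a b) =
      C.mul (TensorProduct.lift C.mul a) (TensorProduct.lift C.mul b) := by
  induction a using TensorProduct.induction_on with
  | zero => simp only [map_zero, LinearMap.zero_apply]
  | add x y hx hy => simp only [map_add, LinearMap.add_apply, hx, hy]
  | tmul x x' =>
    induction b using TensorProduct.induction_on with
    | zero => simp only [map_zero]
    | add x y hx hy => simp only [map_add, hx, hy]
    | tmul y y' =>
      rw [kz_even (ho x'), TensorProduct.lift.tmul, TensorProduct.lift.tmul,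
        TensorProduct.lift.tmul, C.mul_assoc, C.mul_assoc, ← C.mul_assoc y x' y', hc y x',
        C.mul_assoc]

private theorem PwS_o_base (x : (base k).A) : (base k).dg.o x = 0 :=
  Dg.o_of_even (n := 0) (show (base k).dg.IsDeg 0 x from rfl) (by simp)

private theorem PwS_comm_base (x y : (base k).A) : (base k).mul x y = (base k).mul y x :=
  mul_comm (G := k) x y

private theorem PwS_mul (A B : DGA k) (n : ℕ) (a b : ((pw A n).tensor (pw B n)).A) :
    TensorProduct.lift (pwSh A B n) (((pw A n).tensor (pw B n)).mul a b) =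
      (pw (A.tensor B) n).mul (TensorProduct.lift (pwSh A B n) a)
        (TensorProduct.lift (pwSh A B n) b) := by
  induction n with
  | zero => exact PwS_mul_even (C := base k) PwS_o_base PwS_comm_base a b
  | succ n ih =>
    exact PwS_mulG (A := A) (B := B) (C := pw A n) (D := pw B n) (E := pw (A.tensor B) n)
      (pwSh A B n)
      (fun w => Dg.o_degMap_even (X := (pw A n).dg.tensor (pw B n).dg) (n := 0) (by simp)
        (TensorProduct.lift (pwSh A B n)) (fun {j v} hv => by
          rw [add_zero]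
          exact PwS_lift_deg A B n hv) w) ih a b

/-- The homomorphism `A^{⊗n} ⊗ B^{⊗n} → (A ⊗ B)^{⊗n}`.

Proof of the fields. `f` for `n + 1` is `x ⊗ y ↦ (id ⊗ f_n) (md x y)`; multiplicativity follows by
induction from `md_kz` with all products the multiplications. -/
noncomputable def shH (A B : DGA k) (n : ℕ) :
    DHom ((pw A n).tensor (pw B n)) (pw (A.tensor B) n) where
  f := TensorProduct.lift (pwSh A B n)
  deg := fun {i a} ha => by
    exact PwS_lift_deg A B n ha
  d := fun a => by
    exact PwS_dL (PwS_d A B n) a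
  one := by
    exact PwS_one A B n
  mul := fun a b => by
    exact PwS_mul A B n a b

theorem shH_f (A B : DGA k) (n : ℕ) (a : (pw A n).A) (b : (pw B n).A) :
    (shH A B n).f (a ⊗ₜ b) = pwSh A B n a b := rfl

theorem shH_bij (A B : DGA k) (n : ℕ) : Function.Bijective (shH A B n).f := by
  change Function.Bijective (TensorProduct.lift (pwSh A B n))
  induction n with
  | zero => exact PwS_lift_mul (k := k)
  | succ n ih =>
    exact PwS_bijG (V := A.A) (X := B.dg) (Y := (pw A n).dg) (pwSh A B n) ih

private theorem PwS_nbr (A B : DGA k) (n i : ℕ) (x : (pw A n).A) (y : (pw B n).A) :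
    (adjD (A.tensor B) n i).hom.f (pwSh A B n x y) =
      pwSh A B n ((adjD A n i).hom.f x) ((adjD B n i).hom.f y) := by
  induction n generalizing i with
  | zero => rfl
  | succ n ih =>
    cases n with
    | zero => rfl
    | succ n =>
      cases i with
      | zero =>
        exact SW_kz (X := A.dg) (X' := B.dg) (X'' := (A.tensor B).dg) (Z := (pw A n).dg)
          (α := TensorProduct.mk k A.A B.A) (γ := pwSh A B n)
          (fun h h' => Dg.tensor_deg h h') x y
      | succ i =>
        have ho : ∀ w, (pw A (n + 1)).dg.o ((adjD A (n + 1) i).hom.f w) =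
            (adjD A (n + 1) i).hom.f ((pw A (n + 1)).dg.o w) := fun w =>
          Dg.o_degMap_even (n := 0) (by simp) (adjD A (n + 1) i).hom.f (fun {j v} hv => by
            rw [add_zero]
            exact (adjD A (n + 1) i).hom.deg hv) w
        exact PwS_kz (X := B.dg) (Y := (pw A (n + 1)).dg) (Y1 := (pw A (n + 1)).dg)
          (α := TensorProduct.mk k A.A B.A)
          (β := pwSh A B (n + 1)) (β1 := pwSh A B (n + 1)) (adjD A (n + 1) i).hom.f
          (adjD B (n + 1) i).hom.f (adjD (A.tensor B) (n + 1) i).hom.f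
          ho (fun w w' => ih i w w') x y

/-- Proof. As `bxBil_perm`, with `adjD_zero_f`, `adjD_succ_f` and `SW_kz`. -/
theorem shH_perm (A B : DGA k) (n : ℕ) (σ : Perm (Fin n)) (a : (pw A n).A) (b : (pw B n).A) :
    pwP (A.tensor B) n σ (pwSh A B n a b) = pwSh A B n (pwP A n σ a) (pwP B n σ b) := by
  refine MP_6e5bed_ag.perm_induction (P := fun σ => ∀ (x : (pw A n).A) (y : (pw B n).A),
    pwP (A.tensor B) n σ (pwSh A B n x y) = pwSh A B n (pwP A n σ x) (pwP B n σ y))
    ?_ ?_ ?_ σ a b
  · intro x y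
    rw [map_one, map_one, map_one]
    rfl
  · intro i h x y
    rw [pwP_swap, pwP_swap, pwP_swap]
    exact PwS_nbr A B n i x y
  · intro a b ha hb x y
    rw [map_mul, map_mul, map_mul]
    change pwP (A.tensor B) n a (pwP (A.tensor B) n b (pwSh A B n x y)) =
      pwSh A B n (pwP A n a (pwP A n b x)) (pwP B n a (pwP B n b y))
    rw [hb x y, ha]

theorem shH_inj (A B : DGA k) (n : ℕ) (s : Fin n) (a : A.A) (b : B.A) :
    pwSh A B n ((inj A n s).f a) ((inj B n s).f b) = (inj (A.tensor B) n s).f (a ⊗ₜ b) := by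
  induction n with
  | zero => exact s.elim0
  | succ n ih =>
    refine Fin.cases ?_ (fun t => ?_) s
    · refine (kz_even (X := B.dg) (Y := (pw A n).dg) (α := TensorProduct.mk k A.A B.A)
        (β := pwSh A B n) (pw A n).o_one a b (pw B n).one).trans ?_
      exact congrArg (fun w => (a ⊗ₜ[k] b) ⊗ₜ[k] w) (PwS_one A B n)
    · refine (kz_even' (X := B.dg) (Y := (pw A n).dg) (α := TensorProduct.mk k A.A B.A)
        (β := pwSh A B n) B.o_one A.one ((inj A n t).f a) ((inj B n t).f b)).trans ?_
      exact congrArg (fun w => (A.one ⊗ₜ[k] B.one) ⊗ₜ[k] w) (ih t)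

end Pool.Agent.MP_6e5bed_ag_SY
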