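import Pool.Agent.Lib.MP_6e5bed_ag_SY.IndS
import Pool.Agent.Lib.MP_6e5bed_ag_SY.Cl

set_option autoImplicit false
set_option linter.unusedSectionVars false

/-!
# MP_6e5bed_ag (project SYM): crossed products which are smooth and proper
-/

namespace Pool.Agent.MP_6e5bed_ag_SY

open Pool.Agent.MP_6e5bed_ag_NC
open CategoryTheory MonoidalCategory Equiv
open scoped TensorProduct

universe u

variable {k : Type u} [Field k]

theorem dgPi_finCoh {V : Type u} [AddCommGroup V] [Module k V] (X : Dg k V) (Y : Type)
    [Fintype Y] (h : X.FinCoh) : (dgPi X Y).FinCoh := by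
  classical
  have hfin : Module.Finite k (LinearMap.ker X.d ⧸
      (LinearMap.range X.d).comap (LinearMap.ker X.d).subtype) := h
  let ev : ∀ y : Y, LinearMap.ker (dgPi X Y).d →ₗ[k] LinearMap.ker X.d := fun y =>
    LinearMap.codRestrict (LinearMap.ker X.d)
      ((LinearMap.proj y : (Y → V) →ₗ[k] V).comp (LinearMap.ker (dgPi X Y).d).subtype)
      (fun f => by
        have hf : (dgPi X Y).d f.1 = 0 := LinearMap.mem_ker.1 f.2
        exact LinearMap.mem_ker.2 (congrFun hf y))
  let φ : LinearMap.ker (dgPi X Y).d →ₗ[k] (Y → (LinearMap.ker X.d ⧸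
      (LinearMap.range X.d).comap (LinearMap.ker X.d).subtype)) :=
    LinearMap.pi fun y => (Submodule.mkQ _).comp (ev y)
  have hφ : LinearMap.ker φ = (LinearMap.range (dgPi X Y).d).comap
      (LinearMap.ker (dgPi X Y).d).subtype := by
    ext f
    rw [LinearMap.mem_ker, Submodule.mem_comap, LinearMap.mem_range]
    constructor
    · intro hf
      have h1 : ∀ y, ∃ v, X.d v = f.1 y := by
        intro y
        have h2 : Submodule.Quotient.mk (ev y f) = (0 : LinearMap.ker X.d ⧸
            (LinearMap.range X.d).comap (LinearMap.ker X.d).subtype) := congrFun hf y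
        rw [Submodule.Quotient.mk_eq_zero, Submodule.mem_comap, LinearMap.mem_range] at h2
        exact h2
      choose v hv using h1
      exact ⟨v, funext hv⟩
    · rintro ⟨v, hv⟩
      funext y
      have h2 : (Submodule.Quotient.mk (ev y f) : LinearMap.ker X.d ⧸
          (LinearMap.range X.d).comap (LinearMap.ker X.d).subtype) = 0 := by
        rw [Submodule.Quotient.mk_eq_zero, Submodule.mem_comap, LinearMap.mem_range]
        exact ⟨v y, congrFun hv y⟩
      exact h2
  have hinj : Function.Injective (Submodule.liftQ ((LinearMap.range (dgPi X Y).d).comap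
      (LinearMap.ker (dgPi X Y).d).subtype) φ hφ.ge) := by
    rw [← LinearMap.ker_eq_bot, Submodule.ker_liftQ_eq_bot _ _ _ hφ.le]
  exact Module.Finite.of_injective _ hinj

/-- Proof. `proper_iff` and `dgPi_finCoh`. -/
theorem proper_cr {G : Type} [Group G] [Fintype G] {D : DGA k} (α : Act G D) (h : Proper D) :
    Proper (cr α) := by
  rw [proper_iff] at h ⊢
  exact dgPi_finCoh D.dg G h

/-- Proof. `crMap` of the equivariant resolution `φ` is a quasi-isomorphism from the perfect
bimodule `crM β` (`crM_perf`) to `crM (EqB.diag α)`, which is isomorphic to the diagonal bimodule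
(`crM_diag`). Use `smooth_iff` or `smooth_of_hasRes`. -/
theorem smooth_cr {G : Type} [Group G] [Fintype G] {D : DGA k} (α : Act G D) {R : Bim D D}
    (β : EqB α α R) (hR : Perf R) (φ : GMap 0 R (diag D)) (hφ : QIso φ)
    (he : ∀ g x, φ.f (β.b g x) = (α.a g).f (φ.f x))
    (hG : ((Fintype.card G : ℕ) : k) ≠ 0) : Smooth (cr α) := by
  have h1 : QIso (crMap β (EqB.diag α) φ he) := by
    obtain ⟨h1, h2, h3⟩ := hφ
    have hd : ∀ x, (diag D).dg.d (φ.f x) = φ.f (R.dg.d x) := by
      intro x
      have h4 := LinearMap.congr_fun h1 x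
      rw [GMap.dd_apply, sg_zero, one_smul, LinearMap.zero_apply, sub_eq_zero] at h4
      exact h4
    refine ⟨?_, ?_, ?_⟩
    · refine LinearMap.ext fun x => ?_
      rw [GMap.dd_apply, sg_zero, one_smul, LinearMap.zero_apply, sub_eq_zero]
      funext g
      exact hd (x g)
    · intro x hx hy
      obtain ⟨y, hy⟩ := hy
      have h4 : ∀ g, ∃ z, R.dg.d z = x g := fun g =>
        h2 (x g) (congrFun hx g) ⟨y g, congrFun hy g⟩
      choose z hz using h4
      exact ⟨z, funext hz⟩
    · intro y hy
      have h4 : ∀ g, ∃ x, R.dg.d x = 0 ∧ ∃ z, (diag D).dg.d z = y g - φ.f x := fun g =>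
        h3 (y g) (congrFun hy g)
      choose x hx z hz using h4
      exact ⟨x, funext hx, z, funext hz⟩
  have h2 : HasRes (diag (cr α)) :=
    HasRes.iso ⟨crM β, crMap β (EqB.diag α) φ he, crM_perf β hG hR, h1⟩ (crM_diag α)
  exact smooth_of_hasRes h2

end Pool.Agent.MP_6e5bed_ag_SY
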