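import Pool.Agent.Lib.MP_6e5bed_ag_SY.SmA
import Pool.Agent.Lib.MP_6e5bed_ag_SY.SmB
import Pool.Agent.Lib.MP_6e5bed_ag_SY.InvG

set_option autoImplicit false
set_option linter.unusedSectionVars false

/-!
# MP_6e5bed_ag (project SYM): `S^n A` is smooth and proper
-/

namespace Pool.Agent.MP_6e5bed_ag_SY

open Pool.Agent.MP_6e5bed_ag_NC
open CategoryTheory MonoidalCategory Equiv
open scoped TensorProduct

universe u

variable {k : Type u} [Field k]

/-- A closed bijective morphism of degree `0` is a quasi-isomorphism. -/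
private theorem smCr_qiso_of_bij {A B : DGA k} {M N : Bim A B} (φ : GMap 0 M N) (h0 : φ.dd = 0)
    (h : Function.Bijective φ.f) : QIso φ := by
  have hd : ∀ x, N.dg.d (φ.f x) = φ.f (M.dg.d x) := fun x => by
    have h1 := LinearMap.congr_fun h0 x
    have h2 : sg 0 = 1 := by simp [sg]
    simp only [GMap.dd, h2, one_smul, LinearMap.sub_apply, LinearMap.comp_apply,
      LinearMap.zero_apply] at h1
    exact sub_eq_zero.1 h1
  refine ⟨h0, ?_, ?_⟩
  · rintro x - ⟨y, hy⟩
    obtain ⟨z, rfl⟩ := h.2 y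
    rw [hd] at hy
    exact ⟨z, h.1 hy⟩
  · intro y hy
    obtain ⟨x, rfl⟩ := h.2 y
    rw [hd] at hy
    refine ⟨x, h.1 (by rw [hy, map_zero]), 0, ?_⟩
    rw [map_zero, sub_self]

theorem card_perm_ne (n : ℕ) [InvG k (Perm (Fin n))] :
    ((Fintype.card (Perm (Fin n)) : ℕ) : k) ≠ 0 := InvG.out

theorem symM_perf {A B : DGA k} {M : Bim A B} (h : Perf M) (n : ℕ) [InvG k (Perm (Fin n))] :
    Perf (symM M n) :=
  crM_perf (bxE M n) (card_perm_ne n) (bx_perf h n)

theorem symM_contr {A B : DGA k} {M : Bim A B} (h : Contr M) {n : ℕ} (hn : 0 < n)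
    [InvG k (Perm (Fin n))] : Contr (symM M n) := by
  obtain ⟨m, rfl⟩ : ∃ m, n = m + 1 := ⟨n - 1, by omega⟩
  have h1 : Contr (bx M (m + 1)) := (boxR A B (bx M m)).contr h
  exact crM_contr (bxE M (m + 1)) (card_perm_ne (m + 1)) h1

/-- Proof. `smooth_cr` for `R^{⊗n}`, where `R → diag A` is a perfect resolution. -/
theorem smooth_symP {A : DGA k} (h : Smooth A) (n : ℕ) [InvG k (Perm (Fin n))] :
    Smooth (symP A n) := by
  obtain ⟨P, φ, hP, hφ⟩ := (smooth_iff A).1 h
  obtain ⟨ψ, h0, h1, h2⟩ := exists_bxD A n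
  refine smooth_cr (pwAct A n) (bxE P n) (bx_perf hP n) ((bxMap φ n).comp ψ (add_zero 0)) ?_ ?_
    (card_perm_ne n)
  · exact (bxMap_qiso φ hφ n).comp (smCr_qiso_of_bij ψ h0 h1)
  · intro g x
    change ψ.f ((bxMap φ n).f ((bxE P n).b g x)) = pwP A n g (ψ.f ((bxMap φ n).f x))
    rw [bxMap_perm, bxE_b, h2]

theorem proper_symP {A : DGA k} (h : Proper A) (n : ℕ) : Proper (symP A n) :=
  proper_cr _ (proper_pw h n)

/-- The symmetric power as an object of `SP k`. -/
noncomputable def symS (X : SP k) (n : ℕ) [InvG k (Perm (Fin n))] : SP k where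
  alg := symP X.alg n
  smooth := smooth_symP X.smooth n
  proper := proper_symP X.proper n

end Pool.Agent.MP_6e5bed_ag_SY
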