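import Pool.Agent.Lib.MP_6e5bed_ag_SY.PwG
import Pool.Agent.Lib.MP_6e5bed_ag_SY.Sb

set_option autoImplicit false
set_option linter.unusedSectionVars false

/-!
# MP_6e5bed_ag (project SYM): the decomposition of the tensor powers of an extension
-/

namespace Pool.Agent.MP_6e5bed_ag_SY

open Pool.Agent.MP_6e5bed_ag_NC
open Equiv
open scoped TensorProduct

universe u

variable {k : Type u} [CommRing k] {A B : DGA k} {W : Bim A B}

/-- A decomposition of `W` as a graded bimodule into a subcomplex (the image of `z`) and a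
complement (the image of `v`). -/
structure Spl (W : Bim A B) where
  v : GMap 0 W W
  z : GMap 0 W W
  v_v : ∀ x, v.f (v.f x) = v.f x
  z_z : ∀ x, z.f (z.f x) = z.f x
  v_z : ∀ x, v.f (z.f x) = 0
  z_v : ∀ x, z.f (v.f x) = 0
  sum : ∀ x, v.f x + z.f x = x
  sub : ∀ x, v.f (W.dg.d (z.f x)) = 0

/-- The factor of the subset `S` in position `s`. -/
def Spl.m (a : Spl W) {n : ℕ} (S : Sb n) (s : Fin n) : W.M →ₗ[k] W.M :=
  if S.m s = true then a.v.f else a.z.f

/-- The projection to the part of `W^{⊗n}` of the subset `S`: the factors in `S` are in the image of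
`v`, the others in the image of `z`. -/
noncomputable def Spl.pr (a : Spl W) (n : ℕ) (S : Sb n) : (bx W n).M →ₗ[k] (bx W n).M :=
  bxFam W W n (a.m S)

variable (a : Spl W) (n : ℕ)

theorem Spl.m_deg (S : Sb n) (s : Fin n) {i : ℤ} {x : W.M} (hx : W.dg.IsDeg i x) :
    W.dg.IsDeg i (a.m S s x) := by
  unfold Spl.m
  split_ifs
  · have h := a.v.deg hx
    rwa [add_zero] at h
  · have h := a.z.deg hx
    rwa [add_zero] at h

private theorem Spl_o (S : Sb n) (s : Fin n) (x : W.M) :
    W.dg.o (a.m S s x) = a.m S s (W.dg.o x) :=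
  Dg.o_degMap_even (n := 0) Even.zero (a.m S s)
    (fun h => by rw [add_zero]; exact a.m_deg n S s h) x

private theorem Spl_s (S : Sb n) (s : Fin n) (x : W.M) :
    W.dg.s (a.m S s x) = a.m S s (W.dg.s x) :=
  Dg.s_degMap_even (n := 0) Even.zero (a.m S s)
    (fun h => by rw [add_zero]; exact a.m_deg n S s h) x

private theorem Spl_m_true {S : Sb n} {s : Fin n} (h : S.m s = true) : a.m S s = a.v.f := by
  unfold Spl.m
  rw [if_pos h]

private theorem Spl_m_false {S : Sb n} {s : Fin n} (h : S.m s = false) : a.m S s = a.z.f := by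
  unfold Spl.m
  rw [if_neg (by rw [h]; exact Bool.false_ne_true)]

private theorem Spl_fam_zero (n : ℕ) (f : Fin n → (W.M →ₗ[k] W.M)) (s : Fin n) (h : f s = 0) :
    bxFam W W n f = 0 := by
  induction n with
  | zero => exact s.elim0
  | succ n ih =>
    rw [bxFam_succ]
    refine Fin.cases (motive := fun s => f s = 0 →
      TensorProduct.map (f 0) (bxFam W W n fun s => f s.succ) = 0) ?_ ?_ s h
    · intro h0
      rw [h0]
      exact TensorProduct.map_zero_left _
    · intro t ht
      rw [ih (fun s => f s.succ) t ht]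
      exact TensorProduct.map_zero_right _

theorem Spl.pr_idem (S : Sb n) (x : (bx W n).M) : a.pr n S (a.pr n S x) = a.pr n S x := by
  have h : (fun s => a.m S s ∘ₗ a.m S s) = a.m S := by
    funext s
    refine LinearMap.ext fun y => ?_
    change a.m S s (a.m S s y) = a.m S s y
    unfold Spl.m
    split_ifs
    · exact a.v_v y
    · exact a.z_z y
  change bxFam W W n (a.m S) (bxFam W W n (a.m S) x) = bxFam W W n (a.m S) x
  rw [bxFam_comp W W W n (a.m S) (a.m S) x, h]

/-- Proof. `bxFam_comp`; a tensor product of maps one of which is zero is zero. -/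
theorem Spl.pr_orth {S T : Sb n} (h : S ≠ T) (x : (bx W n).M) : a.pr n S (a.pr n T x) = 0 := by
  obtain ⟨s, hs⟩ : ∃ s, S.m s ≠ T.m s := by
    by_contra hc
    push Not at hc
    exact h (Sb.ext hc)
  have h0 : a.m S s ∘ₗ a.m T s = 0 := by
    refine LinearMap.ext fun y => ?_
    change a.m S s (a.m T s y) = 0
    rcases hS : S.m s with _ | _
    · have hT : T.m s = true := by
        rcases hT : T.m s with _ | _
        · exact absurd (hS.trans hT.symm) hs
        · rfl
      rw [Spl_m_false a n hS, Spl_m_true a n hT]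
      exact a.z_v y
    · have hT : T.m s = false := by
        rcases hT : T.m s with _ | _
        · rfl
        · exact absurd (hS.trans hT.symm) hs
      rw [Spl_m_true a n hS, Spl_m_false a n hT]
      exact a.v_z y
  change bxFam W W n (a.m S) (bxFam W W n (a.m T) x) = 0
  rw [bxFam_comp W W W n (a.m T) (a.m S) x,
    Spl_fam_zero n (fun s => a.m S s ∘ₗ a.m T s) s h0]
  rfl

private def Spl_tl {n : ℕ} (S : Sb (n + 1)) : Sb n := fun s => S s.succ

private def Spl_cs {n : ℕ} (b : Bool) (S : Sb n) : Sb (n + 1) :=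
  (Fin.cons b S : Fin (n + 1) → Bool)

private theorem Spl_cs_m (b : Bool) (S : Sb n) :
    a.m (Spl_cs b S) 0 = if b = true then a.v.f else a.z.f := rfl

private theorem Spl_cs_tl (b : Bool) (S : Sb n) : Spl_tl (Spl_cs b S) = S := rfl

private theorem Spl_sum_cs {M : Type u} [AddCommGroup M] (f : Sb (n + 1) → M) :
    ∑ S : Sb (n + 1), f S = ∑ S : Sb n, f (Spl_cs true S) + ∑ S : Sb n, f (Spl_cs false S) := by
  have h : ∑ S : Sb (n + 1), f S = ∑ c : Bool × Sb n, f (Spl_cs c.1 c.2) :=
    (Fintype.sum_equiv (Fin.consEquiv fun _ : Fin (n + 1) => Bool)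
      (fun c : Bool × Sb n => f (Spl_cs c.1 c.2)) f (fun c => rfl)).symm
  rw [h, Fintype.sum_prod_type, Fintype.sum_bool]

private theorem Spl_sum_succ (ih : ∀ y : (bx W n).M, ∑ S : Sb n, a.pr n S y = y)
    (x : W.M ⊗[k] (bx W n).M) :
    ∑ S : Sb (n + 1), TensorProduct.map (a.m S 0) (a.pr n (Spl_tl S)) x = x := by
  induction x using TensorProduct.induction_on with
  | zero => simp only [map_zero, Finset.sum_const_zero]
  | add x y hx hy =>
    simp only [map_add, Finset.sum_add_distrib]
    rw [hx, hy]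
  | tmul w y =>
    simp only [TensorProduct.map_tmul]
    rw [Spl_sum_cs n fun S => a.m S 0 w ⊗ₜ[k] a.pr n (Spl_tl S) y]
    simp only [Spl_cs_m, Spl_cs_tl, if_true, Bool.false_eq_true, if_false]
    rw [← TensorProduct.tmul_sum, ← TensorProduct.tmul_sum, ih y, ← TensorProduct.add_tmul,
      a.sum w]

/-- Proof. Induction on `n`: `Sb (n + 1) ≃ Bool × Sb n` (`Fin.consEquiv` or
`Fintype.sum_equiv` with `Fin.cons`), and `v + z = 1`. -/
theorem Spl.pr_sum (x : (bx W n).M) : ∑ S : Sb n, a.pr n S x = x := by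
  induction n with
  | zero => exact Fintype.sum_unique (ι := Fin 0 → Bool) fun S => a.pr 0 S x
  | succ n ih => exact Spl_sum_succ a n ih x

/-- Proof. `bxFam_perm` (the maps `v`, `z` commute with `W.dg.o`, being of degree `0`), and
`(σ • S).m s = S.m (σ⁻¹ s)`. -/
theorem Spl.pr_perm (S : Sb n) (σ : Perm (Fin n)) (x : (bx W n).M) :
    bxP W n σ (a.pr n S x) = a.pr n (σ • S) (bxP W n σ x) :=
  bxFam_perm W W n (a.m S) (fun s m => Spl_o a n S s m) σ x

theorem Spl.pr_deg (S : Sb n) {i : ℤ} {x : (bx W n).M} (hx : (bx W n).dg.IsDeg i x) :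
    (bx W n).dg.IsDeg i (a.pr n S x) :=
  bxFam_deg W W n (a.m S) (fun s _ _ h => a.m_deg n S s h) hx

/-- Proof. `bxFam_l` for the identity of `A` and `pwMap_id`. -/
theorem Spl.pr_l (S : Sb n) (e : (pw A n).A) (x : (bx W n).M) :
    a.pr n S ((bx W n).l e x) = (bx W n).l e (a.pr n S x) := by
  have h := bxFam_l (DHom.id A) W W n (a.m S) (fun s _ _ h => a.m_deg n S s h)
    (fun s c m => by
      unfold Spl.m
      split_ifs
      · rw [a.v.map_l, Dg.sp_zero]
        rfl
      · rw [a.z.map_l, Dg.sp_zero]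
        rfl) e x
  rw [pwMap_id] at h
  exact h

theorem Spl.pr_r (S : Sb n) (b : (pw B n).A) (x : (bx W n).M) :
    a.pr n S ((bx W n).r b x) = (bx W n).r b (a.pr n S x) := by
  have h := bxFam_r (DHom.id B) W W n (a.m S) (fun s _ _ h => a.m_deg n S s h)
    (fun s c m => by
      unfold Spl.m
      split_ifs
      · rw [a.v.map_r]
        rfl
      · rw [a.z.map_r]
        rfl) b x
  rw [pwMap_id] at h
  exact h

private theorem Spl_pr_d_succ (S T : Sb (n + 1)) (h : ∃ s, T.m s = true ∧ S.m s = false)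
    (ih : ∀ (S T : Sb n), (∃ s, T.m s = true ∧ S.m s = false) → ∀ y : (bx W n).M,
      a.pr n T ((bx W n).dg.d (a.pr n S y)) = 0) (x : W.M ⊗[k] (bx W n).M) :
    TensorProduct.map (a.m T 0) (a.pr n (Spl_tl T)) ((W.dg.tensor (bx W n).dg).d
      (TensorProduct.map (a.m S 0) (a.pr n (Spl_tl S)) x)) = 0 := by
  induction x using TensorProduct.induction_on with
  | zero => simp only [map_zero]
  | add x y hx hy =>
    simp only [map_add]
    rw [hx, hy, add_zero]
  | tmul w y =>
    rw [TensorProduct.map_tmul, Dg.tensor_d, map_add, TensorProduct.map_tmul,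
      TensorProduct.map_tmul]
    obtain ⟨s, hsT, hsS⟩ := h
    refine Fin.cases (motive := fun s => T.m s = true → S.m s = false →
      (a.m T 0 (W.dg.d (a.m S 0 w))) ⊗ₜ[k] a.pr n (Spl_tl T) (a.pr n (Spl_tl S) y) +
      (a.m T 0 (W.dg.s (a.m S 0 w))) ⊗ₜ[k] a.pr n (Spl_tl T)
        ((bx W n).dg.d (a.pr n (Spl_tl S) y)) = 0) ?_ ?_ s hsT hsS
    · intro hT0 hS0
      have h1 : a.m T 0 (W.dg.d (a.m S 0 w)) = 0 := by
        rw [Spl_m_true a (n + 1) hT0, Spl_m_false a (n + 1) hS0]
        exact a.sub w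
      have h2 : a.m T 0 (W.dg.s (a.m S 0 w)) = 0 := by
        rw [Spl_s a (n + 1) S 0 w, Spl_m_true a (n + 1) hT0, Spl_m_false a (n + 1) hS0]
        exact a.v_z _
      rw [h1, h2, TensorProduct.zero_tmul, TensorProduct.zero_tmul, add_zero]
    · intro t hTt hSt
      have h1 : a.pr n (Spl_tl T) ((bx W n).dg.d (a.pr n (Spl_tl S) y)) = 0 :=
        ih (Spl_tl S) (Spl_tl T) ⟨t, hTt, hSt⟩ y
      have hne : Spl_tl T ≠ Spl_tl S := by
        intro he
        have h2 : (Spl_tl T).m t = (Spl_tl S).m t := by rw [he]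
        change T.m t.succ = S.m t.succ at h2
        rw [hTt, hSt] at h2
        exact Bool.false_ne_true h2.symm
      rw [h1, a.pr_orth n hne y, TensorProduct.tmul_zero, TensorProduct.tmul_zero, add_zero]

/-- The differential does not map the part of `S` to the part of `T` if `T` is not contained in
`S`.

Proof. Induction on `n`, with `pr (n + 1) S (w ⊗ y) = (a.m S 0 w) ⊗ pr n S' y`, `S' s = S s.succ`,
and `d (w ⊗ y) = d w ⊗ y + s w ⊗ d y`. If `T.m 0 = true`, `S.m 0 = false` use `v d z = 0` and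
`v s z = 0` (`s` commutes with `z`, `v z = 0`). Otherwise the position is in the second factor: use
the induction hypothesis and, for the first summand, `pr n T' (pr n S' y) = 0` (`pr_orth`). -/
theorem Spl.pr_d (S T : Sb n) (h : ∃ s, T.m s = true ∧ S.m s = false) (x : (bx W n).M) :
    a.pr n T ((bx W n).dg.d (a.pr n S x)) = 0 := by
  induction n with
  | zero =>
    obtain ⟨s, _⟩ := h
    exact s.elim0
  | succ n ih => exact Spl_pr_d_succ a n S T h (fun S T h y => ih S T h y) x

theorem exists_not_mem {S T : Sb n} (h : S ≠ T) (hc : S.card ≤ T.card) :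
    ∃ s, T.m s = true ∧ S.m s = false := by
  by_contra hn
  push Not at hn
  have hsub : (Finset.univ.filter fun s => T.m s = true) ⊆
      Finset.univ.filter fun s => S.m s = true := by
    intro s hs
    rw [Finset.mem_filter] at hs ⊢
    refine ⟨hs.1, ?_⟩
    have := hn s hs.2
    rwa [ne_eq, Bool.not_eq_false] at this
  have heq := Finset.eq_of_subset_of_card_le hsub hc
  refine h (Sb.ext fun s => ?_)
  have hiff : T.m s = true ↔ S.m s = true := by
    have h1 := Finset.ext_iff.mp heq s
    simpa only [Finset.mem_filter, Finset.mem_univ, true_and] using h1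
  exact Bool.eq_iff_iff.mpr hiff.symm

end Pool.Agent.MP_6e5bed_ag_SY
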