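import Pool.Agent.Lib.MP_6e5bed_ag_SY.SplF

set_option autoImplicit false
set_option linter.unusedSectionVars false

/-!
# MP_6e5bed_ag (project SYM): the extreme pieces of the symmetric powers of an extension
-/

namespace Pool.Agent.MP_6e5bed_ag_SY

open Pool.Agent.MP_6e5bed_ag_NC
open Equiv
open scoped TensorProduct

universe u

variable {k : Type u} [CommRing k] {A B : DGA k} {Z W V : Bim A B}

/-- The data of an extension `0 → Z → W → V → 0` which is split as graded bimodules. -/
structure ExD (Z W V : Bim A B) where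
  i : GMap 0 Z W
  p : GMap 0 W V
  r : GMap 0 W Z
  σ : GMap 0 V W
  i_dd : i.dd = 0
  p_dd : p.dd = 0
  r_i : ∀ x, r.f (i.f x) = x
  p_σ : ∀ x, p.f (σ.f x) = x
  p_i : ∀ x, p.f (i.f x) = 0
  r_σ : ∀ x, r.f (σ.f x) = 0
  sum : ∀ x, i.f (r.f x) + σ.f (p.f x) = x

theorem exists_exD (h : IsExt Z W V) : Nonempty (ExD Z W V) := by
  obtain ⟨i, p, r, σ, h1, h2, h3, h4, h5, h6, h7⟩ := h
  exact ⟨⟨i, p, r, σ, h1, h2, h3, h4, h5, h6, h7⟩⟩

private theorem SplE_closed {C D : DGA k} {P Q : Bim C D} (φ : GMap 0 P Q) (h : φ.dd = 0)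
    (m : P.M) : Q.dg.d (φ.f m) = φ.f (P.dg.d m) := by
  have h1 := congrArg (fun g : P.M →ₗ[k] Q.M => g m) h
  simpa [GMap.dd, sub_eq_zero, sg] using h1

private theorem SplE_none {n : ℕ} (S : SbI n 0) (s : Fin n) : S.1.m s = false := by
  have h1 : (Finset.univ.filter fun s => S.1.m s = true) = ∅ := Finset.card_eq_zero.1 S.2
  have h2 : s ∉ (Finset.univ.filter fun s => S.1.m s = true) := by
    rw [h1]
    exact Finset.notMem_empty s
  simpa using h2

private theorem SplE_all {n : ℕ} (S : SbI n n) (s : Fin n) : S.1.m s = true := by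
  have h0 : (Finset.univ.filter fun s => S.1.m s = true).card = n := S.2
  have h1 : (Finset.univ.filter fun s => S.1.m s = true) = Finset.univ := by
    rw [← Finset.card_eq_iff_eq_univ, Fintype.card_fin]
    exact h0
  have h2 : s ∈ (Finset.univ.filter fun s => S.1.m s = true) := by
    rw [h1]
    exact Finset.mem_univ s
  simpa using h2

private theorem SplE_sum_none (a : Spl W) (n : ℕ) (y : (bx W n).M) :
    ∑ S : SbI n 0, a.pr n S.1 y = bxFam W W n (fun _ => a.z.f) y := by
  have h0 : Sb.card (n := n) (fun _ => false) = 0 := by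
    unfold Sb.card Sb.m
    simp
  refine (Finset.sum_eq_single (⟨fun _ => false, h0⟩ : SbI n 0) ?_ ?_).trans ?_
  · intro S _ hS
    exact absurd (Subtype.ext (Sb.ext fun s => SplE_none S s)) hS
  · intro h
    exact absurd (Finset.mem_univ _) h
  · have h1 : a.m (n := n) (fun _ => false) = fun _ => a.z.f := by
      funext s
      unfold Spl.m
      exact if_neg (by simp [Sb.m])
    change bxFam W W n (a.m (n := n) (fun _ => false)) y = _
    rw [h1]

private theorem SplE_sum_all (a : Spl W) (n : ℕ) (y : (bx W n).M) :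
    ∑ S : SbI n n, a.pr n S.1 y = bxFam W W n (fun _ => a.v.f) y := by
  have h0 : Sb.card (n := n) (fun _ => true) = n := by
    unfold Sb.card Sb.m
    simp
  refine (Finset.sum_eq_single (⟨fun _ => true, h0⟩ : SbI n n) ?_ ?_).trans ?_
  · intro S _ hS
    exact absurd (Subtype.ext (Sb.ext fun s => SplE_all S s)) hS
  · intro h
    exact absurd (Finset.mem_univ _) h
  · have h1 : a.m (n := n) (fun _ => true) = fun _ => a.v.f := by
      funext s
      unfold Spl.m
      exact if_pos (by simp [Sb.m])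
    change bxFam W W n (a.m (n := n) (fun _ => true)) y = _
    rw [h1]

variable (e : ExD Z W V)

/-- The decomposition of `W` given by an extension: `v = σ p`, `z = i r`. -/
def ExD.spl : Spl W where
  v := e.p.comp e.σ (add_zero 0)
  z := e.r.comp e.i (add_zero 0)
  v_v := fun x => by
    rw [GMap.comp_f, GMap.comp_f, e.p_σ]
  z_z := fun x => by
    rw [GMap.comp_f, GMap.comp_f, e.r_i]
  v_z := fun x => by
    rw [GMap.comp_f, GMap.comp_f, e.p_i, map_zero]
  z_v := fun x => by
    rw [GMap.comp_f, GMap.comp_f, e.r_σ, map_zero]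
  sum := fun x => by
    rw [GMap.comp_f, GMap.comp_f, add_comm]
    exact e.sum x
  sub := fun x => by
    rw [GMap.comp_f, GMap.comp_f, SplE_closed e.i e.i_dd, e.p_i, map_zero]

theorem ExD.spl_v (x : W.M) : e.spl.v.f x = e.σ.f (e.p.f x) := rfl

theorem ExD.spl_z (x : W.M) : e.spl.z.f x = e.i.f (e.r.f x) := rfl

/-- The piece number `0` is `Z^{⊗n} ⋊ S_n`.

Proof. `Cnr.from_biso` for `symMap e.i n`: it is injective (`bxFam e.r` is a left inverse,
`bxFam_comp`), closed (`symMap_dd`), and its image is that of the projection of the empty subset,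
`bxFam z = bxFam e.i ∘ bxFam e.r`. -/
theorem ExD.zero (n : ℕ) : BIso (symM Z n) ((e.spl.flt n).pc 0).bim := by
  have hπ : ∀ (x : Perm (Fin n) → (bx W n).M) (g : Perm (Fin n)),
      ((e.spl.flt n).pc 0).π.f x g = bxFam Z W n (fun _ => e.i.f)
        (bxFam W Z n (fun _ => e.r.f) (x g)) := by
    intro x g
    rw [Flt.pc_π, Spl.flt_P, SplE_sum_none, bxFam_comp]
    rfl
  have hri : ∀ y : (bx Z n).M, bxFam W Z n (fun _ => e.r.f) (bxFam Z W n (fun _ => e.i.f) y) =
      y := by
    intro y
    rw [bxFam_comp]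
    have h1 : (fun _ : Fin n => e.r.f ∘ₗ e.i.f) = fun _ => LinearMap.id := by
      funext s
      exact LinearMap.ext e.r_i
    rw [h1, bxFam_id]
    rfl
  have hφ : ∀ y : (symM Z n).M, ((e.spl.flt n).pc 0).π.f ((symMap e.i n).f y) =
      (symMap e.i n).f y := by
    intro y
    funext g
    rw [hπ, symMap_f, hri]
  refine Cnr.from_biso _ (symMap e.i n) ?_ ?_ ?_
  · intro x y hxy
    funext g
    have h1 := congrFun hxy g
    rw [symMap_f, symMap_f] at h1
    rw [← hri (x g), h1, hri]
  · intro x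
    constructor
    · rintro ⟨y, rfl⟩
      exact hφ y
    · intro hx
      refine ⟨fun g => bxFam W Z n (fun _ => e.r.f) (x g), ?_⟩
      refine Eq.trans ?_ hx
      funext g
      rw [hπ, symMap_f]
  · intro y
    rw [SplE_closed _ (symMap_dd e.i e.i_dd n), hφ]

/-- The piece number `n` is `V^{⊗n} ⋊ S_n`.

Proof. `Cnr.to_biso` for `symMap e.p n`, in the same way; the projection of the full subset is
`bxFam v = bxFam e.σ ∘ bxFam e.p`, and `bxFam e.p ∘ bxFam v = bxFam e.p`. -/
theorem ExD.top (n : ℕ) : BIso ((e.spl.flt n).pc n).bim (symM V n) := by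
  have hπ : ∀ (x : Perm (Fin n) → (bx W n).M) (g : Perm (Fin n)),
      ((e.spl.flt n).pc n).π.f x g = bxFam V W n (fun _ => e.σ.f)
        (bxFam W V n (fun _ => e.p.f) (x g)) := by
    intro x g
    rw [Flt.pc_π, Spl.flt_P, SplE_sum_all, bxFam_comp]
    rfl
  have hpσ : ∀ y : (bx V n).M, bxFam W V n (fun _ => e.p.f) (bxFam V W n (fun _ => e.σ.f) y) =
      y := by
    intro y
    rw [bxFam_comp]
    have h1 : (fun _ : Fin n => e.p.f ∘ₗ e.σ.f) = fun _ => LinearMap.id := by
      funext s
      exact LinearMap.ext e.p_σ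
    rw [h1, bxFam_id]
    rfl
  have hφ : ∀ x : (symM W n).M, (symMap e.p n).f (((e.spl.flt n).pc n).π.f x) =
      (symMap e.p n).f x := by
    intro x
    funext g
    rw [symMap_f, symMap_f, hπ, hpσ]
  refine Cnr.to_biso _ (symMap e.p n) ?_ ?_ ?_
  · intro x hx h0
    rw [← hx]
    funext g
    rw [hπ]
    have h1 := congrFun h0 g
    rw [symMap_f] at h1
    rw [h1]
    exact map_zero _
  · intro y
    refine ⟨fun g => bxFam V W n (fun _ => e.σ.f) (y g), ?_, ?_⟩
    · funext g
      rw [hπ, hpσ]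
    · funext g
      rw [symMap_f, hpσ]
  · intro x _
    rw [hφ, SplE_closed _ (symMap_dd e.p e.p_dd n)]

end Pool.Agent.MP_6e5bed_ag_SY
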