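import Pool.Agent.Lib.MP_6e5bed_ag_SY.Spl
import Pool.Agent.Lib.MP_6e5bed_ag_SY.Flt

set_option autoImplicit false
set_option linter.unusedSectionVars false

/-!
# MP_6e5bed_ag (project SYM): the filtration of the symmetric powers of an extension
-/

namespace Pool.Agent.MP_6e5bed_ag_SY

open Pool.Agent.MP_6e5bed_ag_NC
open Equiv
open scoped TensorProduct

universe u

variable {k : Type u} [CommRing k] {A B : DGA k} {W : Bim A B} (a : Spl W) (n : ℕ)

private theorem SplF_sum_deg {V : Type u} [AddCommGroup V] [Module k V] {X : Dg k V} {ι : Type}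
    (s : Finset ι) (f : ι → V) {j : ℤ} (h : ∀ i, X.IsDeg j (f i)) : X.IsDeg j (∑ i ∈ s, f i) := by
  classical
  induction s using Finset.induction_on with
  | empty =>
    rw [Finset.sum_empty]
    exact Dg.IsDeg.zero j
  | insert a s ha ih =>
    rw [Finset.sum_insert ha]
    exact (h a).add ih

private theorem SplF_ne {i : ℕ} {S T : SbI n i} (h : S ≠ T) : S.1 ≠ T.1 := fun e =>
  h (Subtype.ext e)

private theorem SplF_pr {i : ℕ} (S : SbI n i) (y : (bx W n).M) :
    a.pr n S.1 (∑ T : SbI n i, a.pr n T.1 y) = a.pr n S.1 y := by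
  rw [map_sum, Finset.sum_eq_single S]
  · exact a.pr_idem n S.1 y
  · intro T _ hT
    exact a.pr_orth n (SplF_ne n (Ne.symm hT)) y
  · intro h
    exact absurd (Finset.mem_univ _) h

private theorem SplF_prb {i : ℕ} (S : SbI n i) (y : (bx W n).M) :
    ∑ T : SbI n i, a.pr n T.1 (a.pr n S.1 y) = a.pr n S.1 y := by
  rw [Finset.sum_eq_single S]
  · exact a.pr_idem n S.1 y
  · intro T _ hT
    exact a.pr_orth n (SplF_ne n hT) y
  · intro h
    exact absurd (Finset.mem_univ _) h

private theorem SplF_idem (i : ℕ) (y : (bx W n).M) :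
    ∑ S : SbI n i, a.pr n S.1 (∑ T : SbI n i, a.pr n T.1 y) = ∑ S : SbI n i, a.pr n S.1 y :=
  Finset.sum_congr rfl fun S _ => SplF_pr a n S y

private theorem SplF_orth {i j : ℕ} (h : i ≠ j) (y : (bx W n).M) :
    ∑ S : SbI n i, a.pr n S.1 (∑ T : SbI n j, a.pr n T.1 y) = 0 := by
  refine Finset.sum_eq_zero fun S _ => ?_
  rw [map_sum]
  refine Finset.sum_eq_zero fun T _ => ?_
  refine a.pr_orth n (fun e => h ?_) y
  rw [← S.2, ← T.2, e]

private theorem SplF_card (S : Sb n) : S.card ≤ n := by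
  unfold Sb.card
  refine (Finset.card_filter_le _ _).trans ?_
  rw [Finset.card_univ, Fintype.card_fin]

private theorem SplF_all (y : (bx W n).M) :
    ∑ i ∈ Finset.range (n + 1), ∑ S : SbI n i, a.pr n S.1 y = y := by
  have h1 : ∀ i : ℕ, ∑ S : SbI n i, a.pr n S.1 y =
      ∑ S ∈ Finset.univ.filter (fun S : Sb n => S.card = i), a.pr n S y := by
    intro i
    refine (Finset.sum_subtype (p := fun S : Sb n => S.card = i)
      (Finset.univ.filter (fun S : Sb n => S.card = i)) (fun S => ?_)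
      (fun S => a.pr n S y)).symm
    rw [Finset.mem_filter]
    exact ⟨fun h => h.2, fun h => ⟨Finset.mem_univ _, h⟩⟩
  rw [Finset.sum_congr rfl fun i _ => h1 i]
  rw [Finset.sum_fiberwise_of_maps_to (s := (Finset.univ : Finset (Sb n)))
    (t := Finset.range (n + 1)) (g := fun S : Sb n => S.card)
    (fun S _ => Finset.mem_range.2 (Nat.lt_succ_of_le (SplF_card n S))) (fun S => a.pr n S y)]
  exact a.pr_sum n y

private theorem SplF_zero {S T : Sb n} (h : S ≠ T) (hc : S.card ≤ T.card) (y : (bx W n).M) :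
    a.pr n T ((bx W n).dg.d (a.pr n S y)) = 0 :=
  a.pr_d n S T (exists_not_mem n h hc) y

private theorem SplF_low {i j : ℕ} (h : i < j) (y : (bx W n).M) :
    ∑ T : SbI n j, a.pr n T.1 ((bx W n).dg.d (∑ S : SbI n i, a.pr n S.1 y)) = 0 := by
  refine Finset.sum_eq_zero fun T _ => ?_
  rw [map_sum, map_sum]
  refine Finset.sum_eq_zero fun S _ => ?_
  refine SplF_zero a n (fun e => ?_) ?_ y
  · have h1 : S.1.card = T.1.card := by rw [e]
    rw [S.2, T.2] at h1
    omega
  · rw [S.2, T.2]
    exact h.le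

private theorem SplF_d {i : ℕ} (S : SbI n i) (y : (bx W n).M) :
    ∑ T : SbI n i, a.pr n T.1 ((bx W n).dg.d (a.pr n S.1 y)) =
      a.pr n S.1 ((bx W n).dg.d (a.pr n S.1 y)) := by
  rw [Finset.sum_eq_single S]
  · intro T _ hT
    exact SplF_zero a n (SplF_ne n (Ne.symm hT)) (by rw [S.2, T.2]) y
  · intro h
    exact absurd (Finset.mem_univ _) h

private theorem SplF_db {i : ℕ} (S : SbI n i) (y : (bx W n).M)
    (hy : ∑ T : SbI n i, a.pr n T.1 y = y) :
    a.pr n S.1 ((bx W n).dg.d y) = a.pr n S.1 ((bx W n).dg.d (a.pr n S.1 y)) := by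
  conv_lhs => rw [← hy, map_sum, map_sum]
  rw [Finset.sum_eq_single S]
  · intro T _ hT
    exact SplF_zero a n (SplF_ne n hT) (by rw [S.2, T.2]) y
  · intro h
    exact absurd (Finset.mem_univ _) h

/-- The projection to the parts of the subsets with `i` elements, on `W^{⊗n}`. -/
noncomputable def Spl.Pb (i : ℕ) : GMap 0 (bx W n) (bx W n) where
  f := ∑ S : SbI n i, a.pr n S.1
  deg := fun {j m} hm => by
    rw [add_zero, LinearMap.sum_apply]
    exact SplF_sum_deg _ _ fun S => a.pr_deg n S.1 hm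
  map_l := fun e m => by
    rw [Dg.sp_zero, LinearMap.sum_apply, LinearMap.sum_apply, map_sum]
    exact Finset.sum_congr rfl fun S _ => a.pr_l n S.1 e m
  map_r := fun b m => by
    rw [LinearMap.sum_apply, LinearMap.sum_apply, map_sum]
    exact Finset.sum_congr rfl fun S _ => a.pr_r n S.1 b m

theorem Spl.Pb_f (i : ℕ) (x : (bx W n).M) : (a.Pb n i).f x = ∑ S : SbI n i, a.pr n S.1 x := by
  change (∑ S : SbI n i, a.pr n S.1) x = _
  rw [LinearMap.sum_apply]

theorem Spl.Pb_perm (i : ℕ) (σ : Perm (Fin n)) (x : (bx W n).M) :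
    (a.Pb n i).f ((bxE W n).b σ x) = (bxE W n).b σ ((a.Pb n i).f x) := by
  rw [a.Pb_f, a.Pb_f, bxE_b, map_sum]
  have h1 : ∀ S : SbI n i, bxP W n σ (a.pr n S.1 x) = a.pr n (σ • S).1 (bxP W n σ x) :=
    fun S => a.pr_perm n S.1 σ x
  rw [Finset.sum_congr rfl fun S _ => h1 S]
  exact (Equiv.sum_comp (MulAction.toPerm σ : Perm (SbI n i))
    (fun S : SbI n i => a.pr n S.1 (bxP W n σ x))).symm

/-- The filtration of `W^{⊗n} ⋊ S_n`.

Proof of the fields: with `Spl.pr_idem`, `Spl.pr_orth`, `Spl.pr_sum` (every subset has `i` elements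
for exactly one `i < n + 1`), `Spl.pr_d` and `exists_not_mem`. -/
noncomputable def Spl.flt : Flt (symM W n) (n + 1) where
  P := fun i => crMap (bxE W n) (bxE W n) (a.Pb n i) (a.Pb_perm n i)
  idem := fun i x => by
    refine funext fun g => ?_
    change (a.Pb n i).f ((a.Pb n i).f (x g)) = (a.Pb n i).f (x g)
    rw [a.Pb_f n i (x g), a.Pb_f n i]
    exact SplF_idem a n i (x g)
  orth := fun i j x hij => by
    refine funext fun g => ?_
    change (a.Pb n i).f ((a.Pb n j).f (x g)) = 0
    rw [a.Pb_f n j (x g), a.Pb_f n i]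
    exact SplF_orth a n hij (x g)
  sum := fun x => by
    refine funext fun g => ?_
    refine (Finset.sum_apply (M := fun _ : Perm (Fin n) => (bx W n).M) g _ _).trans ?_
    refine Eq.trans (Finset.sum_congr rfl fun i _ => ?_) (SplF_all a n (x g))
    exact a.Pb_f n i (x g)
  low := fun i j x hij => by
    refine funext fun g => ?_
    change (a.Pb n j).f ((bx W n).dg.d ((a.Pb n i).f (x g))) = 0
    rw [a.Pb_f n i (x g), a.Pb_f n j]
    exact SplF_low a n hij (x g)

theorem Spl.flt_P (i : ℕ) (x : Perm (Fin n) → (bx W n).M) (g : Perm (Fin n)) :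
    ((a.flt n).P i).f x g = ∑ S : SbI n i, a.pr n S.1 (x g) := a.Pb_f n i (x g)

/-- the elements of the piece -/
private theorem SplF_mem {i : ℕ} (x : Perm (Fin n) → (bx W n).M) :
    x ∈ ((a.flt n).pc i).S ↔ ∀ g, ∑ S : SbI n i, a.pr n S.1 (x g) = x g := by
  refine (Cnr.mem ((a.flt n).pc i) x).trans ?_
  constructor
  · intro h g
    exact (a.flt_P n i x g).symm.trans (congrFun h g)
  · intro h
    exact funext fun g => (a.flt_P n i x g).trans (h g)

private theorem SplF_coe_sum {i : ℕ} {ι : Type} (s : Finset ι) (f : ι → ((a.flt n).pc i).S)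
    (g : Perm (Fin n)) : (∑ j ∈ s, f j).1 g = ∑ j ∈ s, (f j).1 g := by
  classical
  induction s using Finset.induction_on with
  | empty =>
    rw [Finset.sum_empty, Finset.sum_empty]
    rfl
  | insert b s hb ih =>
    rw [Finset.sum_insert hb, Finset.sum_insert hb, ← ih]
    rfl

/-- The grading of the piece number `i` by the subsets with `i` elements.

Proof of the fields: `q S x = (g ↦ pr S (x g))`. For `q_l`: `(single g d) x = (h ↦ d g(x(g⁻¹ h)))` and
`pr_perm`, `pr_l`. For `q_d`: `d` of the piece is `x ↦ (g ↦ ∑ T, pr T (d (x g)))`, where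
`x g = ∑ S, pr S (x g)`, and `pr T (d (pr S y)) = 0` for `S ≠ T` by `pr_d`, `exists_not_mem`, so both
sides are `pr S (d (pr S (x g)))`. -/
noncomputable def Spl.gr (i : ℕ) : GrM (symG A n) (SbI n i) ((a.flt n).pc i).bim where
  q := fun S =>
    { toFun := fun x => ⟨fun g => a.pr n S.1 (x.1 g), by
        exact (SplF_mem a n _).2 fun g => SplF_prb a n S (x.1 g)⟩
      map_add' := fun x y => by
        refine Subtype.ext (funext fun g => ?_)
        exact map_add (a.pr n S.1) (x.1 g) (y.1 g)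
      map_smul' := fun c x => by
        refine Subtype.ext (funext fun g => ?_)
        exact map_smul (a.pr n S.1) c (x.1 g) }
  q_same := fun x m => by
    refine Subtype.ext (funext fun g => ?_)
    exact a.pr_idem n x.1 (m.1 g)
  q_ne := fun x y m hxy => by
    refine Subtype.ext (funext fun g => ?_)
    exact a.pr_orth n (SplF_ne n hxy) (m.1 g)
  sum_q := fun m => by
    refine Subtype.ext (funext fun g => ?_)
    exact (SplF_coe_sum a n _ _ g).trans ((SplF_mem a n m.1).1 m.2 g)
  q_deg := fun x {j m} hm => by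
    refine (Cnr.dg_deg ((a.flt n).pc i)).2 (dgPi_deg.2 fun g => ?_)
    have h1 := (Cnr.dg_deg ((a.flt n).pc i)).1 hm
    exact a.pr_deg n x.1 (dgPi_deg.1 h1 g)
  q_d := fun x m => by
    refine Subtype.ext (funext fun g => ?_)
    have h1 : ∑ T : SbI n i, a.pr n T.1 (m.1 g) = m.1 g := (SplF_mem a n m.1).1 m.2 g
    refine (a.flt_P n i _ g).trans ?_
    refine (SplF_d a n x (m.1 g)).trans ?_
    rw [← SplF_db a n x (m.1 g) h1, ← SplF_pr a n x ((bx W n).dg.d (m.1 g))]
    exact congrArg (a.pr n x.1) (a.flt_P n i ((symM W n).dg.d m.1) g).symm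
  q_l := fun g x e m => by
    refine Subtype.ext (funext fun t => ?_)
    have e1 : ∀ y : Perm (Fin n) → (bx W n).M,
        ((symM W n).l ((symG A n).p g e) y : Perm (Fin n) → (bx W n).M) t =
        ∑ h, (bx W n).l (((symG A n).p g e : Perm (Fin n) → (pw A n).A) h)
          ((bxE W n).b h (y (h⁻¹ * t))) := fun y => crM_l (bxE W n) _ y t
    refine (congrArg (a.pr n (g • x).1) (e1 m.1)).trans ?_
    refine Eq.trans ?_ (e1 fun g => a.pr n x.1 (m.1 g)).symm
    rw [map_sum]
    refine Finset.sum_congr rfl fun h _ => ?_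
    rw [a.pr_l, bxE_b]
    by_cases hg : h = g
    · subst hg
      exact congrArg _ (a.pr_perm n x.1 h (m.1 (h⁻¹ * t))).symm
    · have h2 : ((symG A n).p g e : Perm (Fin n) → (pw A n).A) h = 0 := by
        classical
        exact (crGr_p (pwAct A n) g e h).trans (if_neg hg)
      rw [h2, map_zero, LinearMap.zero_apply, LinearMap.zero_apply]
  q_r := fun x b m => by
    refine Subtype.ext (funext fun t => ?_)
    have e1 : ∀ y : Perm (Fin n) → (bx W n).M,
        ((symM W n).r b y : Perm (Fin n) → (bx W n).M) t =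
        ∑ h, (bx W n).r (((pwAct B n).a h).f ((b : Perm (Fin n) → (pw B n).A) (h⁻¹ * t)))
          (y h) := fun y => crM_r (bxE W n) b y t
    refine (congrArg (a.pr n x.1) (e1 m.1)).trans ?_
    refine Eq.trans ?_ (e1 fun g => a.pr n x.1 (m.1 g)).symm
    rw [map_sum]
    exact Finset.sum_congr rfl fun h _ => a.pr_r n x.1 _ _

end Pool.Agent.MP_6e5bed_ag_SY
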