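import Pool.Agent.Lib.MP_6e5bed_ag_SY.SplE

set_option autoImplicit false
set_option linter.unusedSectionVars false

/-!
# MP_6e5bed_ag (project SYM): the split extension with the same pieces
-/

namespace Pool.Agent.MP_6e5bed_ag_SY

open Pool.Agent.MP_6e5bed_ag_NC
open Equiv
open scoped TensorProduct

universe u

section alg

variable {k : Type u} [CommRing k] {A B : DGA k} {Z W V : Bim A B} (a : Spl W) (n : ℕ)

private theorem SplW_vdvdv (x : W.M) :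
    a.v.f (W.dg.d (a.v.f (W.dg.d (a.v.f x)))) = 0 := by
  have h1 := a.sub (W.dg.d (a.v.f x))
  have h2 := congrArg (fun y => a.v.f (W.dg.d y)) (a.sum (W.dg.d (a.v.f x)))
  simp only [map_add, W.dg.d_d, map_zero, h1, add_zero] at h2
  exact h2

private theorem SplW_zdzdz (x : W.M) :
    a.z.f (W.dg.d (a.z.f (W.dg.d (a.z.f x)))) = 0 := by
  have h1 := a.sub x
  have h2 := a.sum (W.dg.d (a.z.f x))
  rw [h1, zero_add] at h2
  rw [h2, W.dg.d_d, map_zero]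

private theorem SplW_dd (x : W.M) :
    a.v.f (W.dg.d (a.v.f (a.v.f (W.dg.d (a.v.f x)) + a.z.f (W.dg.d (a.z.f x))))) +
      a.z.f (W.dg.d (a.z.f (a.v.f (W.dg.d (a.v.f x)) + a.z.f (W.dg.d (a.z.f x))))) = 0 := by
  simp only [map_add, a.v_v, a.z_z, a.v_z, a.z_v, add_zero, zero_add, SplW_vdvdv, SplW_zdzdz]

private theorem SplW_rho (φ : GMap 0 W W) (x : W.M) (n : ℤ) :
    W.dg.ρ (φ.f x) n = φ.f (W.dg.ρ x n) := by
  have h := (Dg.degMap_iff (X := W.dg) (Y := W.dg) (n := 0) φ.f).1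
    (fun j v hv => φ.deg hv) x n
  rwa [add_zero] at h

private theorem SplW_rhod (x : W.M) (n : ℤ) :
    W.dg.ρ (a.v.f (W.dg.d (a.v.f x)) + a.z.f (W.dg.d (a.z.f x))) (n + 1) =
      a.v.f (W.dg.d (a.v.f (W.dg.ρ x n))) + a.z.f (W.dg.d (a.z.f (W.dg.ρ x n))) := by
  rw [LinearMap.map_add, Finsupp.add_apply, SplW_rho, SplW_rho, W.dg.ρ_d, W.dg.ρ_d, SplW_rho, SplW_rho]

private theorem SplW_l (φ : GMap 0 W W) (e : A.A) (m : W.M) :
    φ.f (W.l e m) = W.l e (φ.f m) := by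
  rw [φ.map_l, Dg.sp_zero]

private theorem SplW_s (φ : GMap 0 W W) (m : W.M) : φ.f (W.dg.s m) = W.dg.s (φ.f m) := by
  rw [φ.s_f, sg_zero, one_smul]

private theorem SplW_dl (e : A.A) (m : W.M) :
    a.v.f (W.dg.d (a.v.f (W.l e m))) + a.z.f (W.dg.d (a.z.f (W.l e m))) =
      W.l (A.dg.d e) m +
        W.l (A.dg.s e) (a.v.f (W.dg.d (a.v.f m)) + a.z.f (W.dg.d (a.z.f m))) := by
  simp only [SplW_l, W.d_l, map_add, a.v_v, a.z_z]
  have h : W.l (A.dg.d e) m = W.l (A.dg.d e) (a.v.f m) + W.l (A.dg.d e) (a.z.f m) := by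
    rw [← map_add, a.sum]
  rw [h]
  abel

private theorem SplW_sub (x : W.M) :
    a.v.f (a.v.f (W.dg.d (a.v.f (a.z.f x))) + a.z.f (W.dg.d (a.z.f (a.z.f x)))) = 0 := by
  rw [a.v_z, map_zero, map_zero, zero_add, a.v_z]

private theorem SplW_dr (b : B.A) (m : W.M) :
    a.v.f (W.dg.d (a.v.f (W.r b m))) + a.z.f (W.dg.d (a.z.f (W.r b m))) =
      W.r b (a.v.f (W.dg.d (a.v.f m)) + a.z.f (W.dg.d (a.z.f m))) +
        W.r (B.dg.d b) (W.dg.s m) := by
  simp only [a.v.map_r, a.z.map_r, W.d_r, map_add, SplW_s, a.v_v, a.z_z]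
  have h : W.r (B.dg.d b) (W.dg.s m) =
      W.r (B.dg.d b) (W.dg.s (a.v.f m)) + W.r (B.dg.d b) (W.dg.s (a.z.f m)) := by
    rw [← map_add, ← map_add, a.sum]
  rw [h]
  abel

/-- The bimodule `W` with the differential `v d v + z d z`. -/
noncomputable def Spl.W0 : Bim A B where
  M := W.M
  dg :=
    { ρ := W.dg.ρ
      sum_ρ := W.dg.sum_ρ
      ρ_ρ := W.dg.ρ_ρ
      d := a.v.f ∘ₗ W.dg.d ∘ₗ a.v.f + a.z.f ∘ₗ W.dg.d ∘ₗ a.z.f
      d_d := fun x => by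
        exact SplW_dd a x
      ρ_d := fun x m => by
        exact SplW_rhod a x m }
  l := W.l
  r := W.r
  l_one := W.l_one
  r_one := W.r_one
  l_mul := W.l_mul
  r_mul := W.r_mul
  l_r := W.l_r
  l_deg := W.l_deg
  r_deg := W.r_deg
  d_l := fun e m => by
    exact SplW_dl a e m
  d_r := fun b m => by
    exact SplW_dr a b m

theorem Spl.W0_d (x : W.M) :
    a.W0.dg.d x = a.v.f (W.dg.d (a.v.f x)) + a.z.f (W.dg.d (a.z.f x)) := rfl

/-- The decomposition of `W0`. -/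
def Spl.s0 : Spl a.W0 where
  v := ⟨a.v.f, a.v.deg, a.v.map_l, a.v.map_r⟩
  z := ⟨a.z.f, a.z.deg, a.z.map_l, a.z.map_r⟩
  v_v := a.v_v
  z_z := a.z_z
  v_z := a.v_z
  z_v := a.z_v
  sum := a.sum
  sub := fun x => by
    exact SplW_sub a x

/-- The identity map, not compatible with the differentials. -/
def Spl.id0 : GMap 0 W a.W0 where
  f := LinearMap.id
  deg := fun {i m} hm => by
    rw [add_zero]
    exact hm
  map_l := fun e m => by
    rw [Dg.sp_zero]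
    rfl
  map_r := fun b m => by
    rfl

/-- Proof. `bxFam_d`: the differential of `W0` commutes with `v` and `z`. -/
theorem Spl.s0_closed (i : ℕ) : ((a.s0.flt n).P i).dd = 0 := by
  have hv : ∀ x : W.M, a.W0.dg.d (a.v.f x) = a.v.f (a.W0.dg.d x) := fun x => by
    rw [Spl.W0_d, Spl.W0_d, a.z_v, map_zero, map_zero, add_zero, a.v_v, map_add, a.v_v, a.v_z,
      add_zero]
  have hz : ∀ x : W.M, a.W0.dg.d (a.z.f x) = a.z.f (a.W0.dg.d x) := fun x => by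
    rw [Spl.W0_d, Spl.W0_d, a.v_z, map_zero, map_zero, zero_add, a.z_z, map_add, a.z_v, a.z_z,
      zero_add]
  have hm : ∀ (S : Sb n) (s : Fin n) (x : a.W0.M),
      a.W0.dg.d (a.s0.m S s x) = a.s0.m S s (a.W0.dg.d x) := by
    intro S s x
    unfold Spl.m
    split_ifs
    · exact hv x
    · exact hz x
  have hpr : ∀ (S : Sb n) (x : (bx a.W0 n).M),
      (bx a.W0 n).dg.d (a.s0.pr n S x) = a.s0.pr n S ((bx a.W0 n).dg.d x) := fun S x =>
    bxFam_d a.W0 a.W0 n (a.s0.m S) (fun s _ _ h => a.s0.m_deg n S s h) (hm S) x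
  refine LinearMap.ext fun x => ?_
  rw [GMap.dd_apply, sg_zero, one_smul, LinearMap.zero_apply, sub_eq_zero]
  funext g
  exact (congrArg (bx a.W0 n).dg.d (Spl.flt_P a.s0 n i x g)).trans (((map_sum _ _ _).trans
    (Finset.sum_congr rfl fun S _ => hpr S.1 _)).trans
      (Spl.flt_P a.s0 n i ((symM a.W0 n).dg.d x) g).symm)

theorem ExD.W0_ext (e : ExD Z W V) : IsExt Z e.spl.W0 V := by
  refine ⟨⟨e.i.f, e.i.deg, e.i.map_l, e.i.map_r⟩, ⟨e.p.f, e.p.deg, e.p.map_l, e.p.map_r⟩,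
    ⟨e.r.f, e.r.deg, e.r.map_l, e.r.map_r⟩, ⟨e.σ.f, e.σ.deg, e.σ.map_l, e.σ.map_r⟩, ?_, ?_,
    e.r_i, e.p_σ, e.p_i, e.r_σ, e.sum⟩
  · refine LinearMap.ext fun x => ?_
    rw [GMap.dd_apply, sg_zero, one_smul, LinearMap.zero_apply, sub_eq_zero]
    change e.σ.f (e.p.f (W.dg.d (e.σ.f (e.p.f (e.i.f x))))) +
      e.i.f (e.r.f (W.dg.d (e.i.f (e.r.f (e.i.f x))))) = e.i.f (Z.dg.d x)
    rw [e.p_i, e.r_i, map_zero, map_zero, map_zero, map_zero, zero_add,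
      GMap.d_f_zero e.i_dd, e.r_i]
  · refine LinearMap.ext fun x => ?_
    rw [GMap.dd_apply, sg_zero, one_smul, LinearMap.zero_apply, sub_eq_zero]
    change V.dg.d (e.p.f x) = e.p.f (e.σ.f (e.p.f (W.dg.d (e.σ.f (e.p.f x)))) +
      e.i.f (e.r.f (W.dg.d (e.i.f (e.r.f x)))))
    rw [map_add, e.p_i, add_zero, e.p_σ, ← GMap.d_f_zero e.p_dd, e.p_σ]

end alg

end Pool.Agent.MP_6e5bed_ag_SY
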