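import Pool.Agent.Lib.MP_6e5bed_ag_SY.SplW
import Pool.Agent.Lib.MP_6e5bed_ag_SY.SmCr

set_option autoImplicit false
set_option linter.unusedSectionVars false

/-!
# MP_6e5bed_ag (project SYM): the pieces of the symmetric powers of an extension are perfect
-/

namespace Pool.Agent.MP_6e5bed_ag_SY

open Pool.Agent.MP_6e5bed_ag_NC
open Equiv
open scoped TensorProduct

universe u

section alg

variable {k : Type u} [CommRing k] {A B : DGA k} {Z W V : Bim A B} (a : Spl W) (n : ℕ)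

private theorem SplX_m (S : Sb n) (s : Fin n) (x : W.M) :
    (a.s0.m S s x : a.W0.M) = a.m S s x := by
  unfold Spl.m
  split_ifs <;> rfl

private theorem SplX_dm (S : Sb n) (s : Fin n) (w : W.M) :
    (a.s0.m S s (a.W0.dg.d (a.s0.m S s w)) : a.W0.M) = a.m S s (W.dg.d (a.m S s w)) := by
  unfold Spl.m
  split_ifs
  · change a.v.f (a.v.f (W.dg.d (a.v.f (a.v.f w))) + a.z.f (W.dg.d (a.z.f (a.v.f w)))) =
      a.v.f (W.dg.d (a.v.f w))
    rw [map_add, a.v_v, a.v_v, a.v_z, add_zero]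
  · change a.z.f (a.v.f (W.dg.d (a.v.f (a.z.f w))) + a.z.f (W.dg.d (a.z.f (a.z.f w)))) =
      a.z.f (W.dg.d (a.z.f w))
    rw [map_add, a.z_v, a.z_z, a.z_z, zero_add]

private theorem SplX_tens {V₁ V₂ P₁ P₂ : Type u} [AddCommGroup V₁] [Module k V₁]
    [AddCommGroup V₂] [Module k V₂] [AddCommGroup P₁] [Module k P₁] [AddCommGroup P₂]
    [Module k P₂] (X₁ : Dg k V₁) (X₂ : Dg k V₂) (Y₁ : Dg k P₁) (Y₂ : Dg k P₂)
    (j : V₁ →ₗ[k] V₂) (m₁ : V₁ →ₗ[k] V₁) (m₂ : V₂ →ₗ[k] V₂) (I : P₁ →ₗ[k] P₂)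
    (p₁ : P₁ →ₗ[k] P₁) (p₂ : P₂ →ₗ[k] P₂)
    (h1 : ∀ v, j (m₁ (X₁.d (m₁ v))) = m₂ (X₂.d (m₂ (j v))))
    (h2 : ∀ v, j (m₁ (X₁.s (m₁ v))) = m₂ (X₂.s (m₂ (j v))))
    (h3 : ∀ p, I (p₁ p) = p₂ (I p))
    (h4 : ∀ p, I (p₁ (Y₁.d (p₁ p))) = p₂ (Y₂.d (p₂ (I p)))) (x : V₁ ⊗[k] P₁) :
    TensorProduct.map j I (TensorProduct.map m₁ p₁ ((X₁.tensor Y₁).d
      (TensorProduct.map m₁ p₁ x))) = TensorProduct.map m₂ p₂ ((X₂.tensor Y₂).d
        (TensorProduct.map m₂ p₂ (TensorProduct.map j I x))) := by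
  induction x using TensorProduct.induction_on with
  | zero => simp only [map_zero]
  | add x y hx hy => simp only [map_add, hx, hy]
  | tmul w y =>
    have h5 := h4 y
    rw [h3] at h5
    simp only [TensorProduct.map_tmul, Dg.tensor_d, map_add, h1, h2, h3, h5]

theorem Spl.id0_pr (S : Sb n) (x : (bx W n).M) :
    (bxMap a.id0 n).f (a.pr n S x) = a.s0.pr n S ((bxMap a.id0 n).f x) := by
  rw [bxMap_f]
  unfold Spl.pr
  rw [bxFam_comp, bxFam_comp]
  congr 1

/-- On the part of one subset the two differentials have the same diagonal parts.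

Proof. Induction on `n`: `pr S (d (pr S (w ⊗ y))) = m d m w ⊗ pr S' y + s m w ⊗ pr S' (d (pr S' y))`,
where `m` is `v` or `z`, and `v d v = v d₀ v`, `z d z = z d₀ z`. -/
theorem Spl.id0_d (S : Sb n) (x : (bx W n).M) :
    (bxMap a.id0 n).f (a.pr n S ((bx W n).dg.d (a.pr n S x))) =
      a.s0.pr n S ((bx a.W0 n).dg.d (a.s0.pr n S ((bxMap a.id0 n).f x))) := by
  induction n with
  | zero => rfl
  | succ n ih =>
    have hs : ∀ w : W.M, (a.s0.m S 0 (a.W0.dg.s (a.s0.m S 0 w)) : a.W0.M) =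
        a.m S 0 (W.dg.s (a.m S 0 w)) := by
      intro w
      rw [SplX_m]
      exact SplX_m a (n + 1) S 0 _
    exact SplX_tens W.dg a.W0.dg (bx W n).dg (bx a.W0 n).dg a.id0.f (a.m S 0) (a.s0.m S 0)
      (bxMap a.id0 n).f (a.pr n fun s => S s.succ) (a.s0.pr n fun s => S s.succ)
      (fun w => (SplX_dm a (n + 1) S 0 w).symm) (fun w => (hs w).symm)
      (a.id0_pr n fun s => S s.succ) (ih fun s => S s.succ) x

private theorem SplX_PdP (i : ℕ) (x : Perm (Fin n) → (bx W n).M) (g : Perm (Fin n)) :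
    ((a.flt n).P i).f ((symM W n).dg.d (((a.flt n).P i).f x)) g =
      ∑ S : SbI n i, a.pr n S.1 ((bx W n).dg.d (a.pr n S.1 (x g))) := by
  have h1 : (symM W n).dg.d (((a.flt n).P i).f x) g =
      (bx W n).dg.d (∑ T : SbI n i, a.pr n T.1 (x g)) :=
    (crM_d (bxE W n) (((a.flt n).P i).f x) g).trans (congrArg _ (a.flt_P n i x g))
  refine (a.flt_P n i ((symM W n).dg.d (((a.flt n).P i).f x)) g).trans ?_
  rw [h1, map_sum]
  refine Finset.sum_congr rfl fun S _ => ?_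
  rw [map_sum]
  refine Finset.sum_eq_single S (fun T _ hT => ?_) fun h => absurd (Finset.mem_univ S) h
  have h2 : T.1 ≠ S.1 := fun h => hT (Subtype.ext h)
  exact a.pr_d n T.1 S.1 (exists_not_mem n h2 (by rw [T.2, S.2])) (x g)

/-- Proof. `Cnr.biso_biso` for `symMap a.id0 n`; in the piece number `i` one has
`P d P = ∑ S, pr S d pr S` by `Spl.pr_d` and `exists_not_mem`. -/
theorem Spl.pc_biso (i : ℕ) : BIso ((a.flt n).pc i).bim ((a.s0.flt n).pc i).bim := by
  have hf : ∀ (x : (symM W n).M) (g : Perm (Fin n)), (symMap a.id0 n).f x g =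
      (bxMap a.id0 n).f (x g) := fun x g => rfl
  have hb : Function.Bijective (bxMap a.id0 n).f :=
    bxFam_bij W a.W0 n (fun _ => a.id0.f) fun _ => Function.bijective_id
  refine Cnr.biso_biso _ _ (symMap a.id0 n) ⟨?_, ?_⟩ ?_ ?_
  · intro x y hxy
    funext g
    exact hb.1 (congrFun hxy g)
  · intro y
    choose x hx using hb.2
    exact ⟨fun g => x (y g), funext fun g => hx (y g)⟩
  · intro x
    refine funext fun g => ?_
    refine (congrArg (bxMap a.id0 n).f (a.flt_P n i x g)).trans ?_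
    refine Eq.trans ?_ (a.s0.flt_P n i ((symMap a.id0 n).f x) g).symm
    rw [map_sum]
    exact Finset.sum_congr rfl fun S _ => a.id0_pr n S.1 (x g)
  · intro x
    refine funext fun g => ?_
    refine (congrArg (bxMap a.id0 n).f (SplX_PdP a n i x g)).trans ?_
    refine Eq.trans ?_ (SplX_PdP a.s0 n i ((symMap a.id0 n).f x) g).symm
    rw [map_sum]
    exact Finset.sum_congr rfl fun S _ => a.id0_d n S.1 (x g)

end alg

/-- Proof. `W0` is perfect (`ExD.W0_ext`, `Perf.mid`), hence `symM W0 n` is (`symM_perf`), hence its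
direct summand (`Cnr.summand`, `Spl.s0_closed`); and `Spl.pc_biso`. -/
theorem ExD.pc_perf {k : Type u} [Field k] {A B : DGA k} {Z W V : Bim A B}
    (e : ExD Z W V) (hZ : Perf Z) (hV : Perf V) (n : ℕ) [InvG k (Perm (Fin n))] (i : ℕ) :
    Perf ((e.spl.flt n).pc i).bim := by
  have h1 : Perf e.spl.W0 := Perf.mid e.W0_ext hZ hV
  have h2 : Perf ((e.spl.s0.flt n).pc i).bim :=
    Perf.summand (Cnr.summand _ (e.spl.s0_closed n i)) (symM_perf h1 n)
  exact (e.spl.pc_biso n i).symm.perf h2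

end Pool.Agent.MP_6e5bed_ag_SY
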