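import Pool.Agent.Lib.MP_6e5bed_ag_SY.PwE

set_option autoImplicit false
set_option linter.unusedSectionVars false

/-!
# MP_6e5bed_ag (project SYM): homomorphisms from tensor powers
-/

namespace Pool.Agent.MP_6e5bed_ag_SY

open Pool.Agent.MP_6e5bed_ag_NC
open Equiv
open scoped TensorProduct

universe u

variable {k : Type u} [CommRing k] {A B C A' B' : DGA k}

/-- The images of the homomorphisms `φ` and `ψ` commute in the graded sense. -/
def SC (φ : DHom A C) (ψ : DHom B C) : Prop :=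
  ∀ a b, C.mul (ψ.f b) (φ.f a) =
    C.mul (φ.f a) (ψ.f b) - (2 : k) • C.mul (φ.f (A.dg.o a)) (ψ.f (B.dg.o b))

theorem SC.of_hom {φ : DHom A C} {ψ : DHom B C}
    (h : ∀ p q a b, A.dg.IsDeg p a → B.dg.IsDeg q b →
      C.mul (ψ.f b) (φ.f a) = sg (p * q) • C.mul (φ.f a) (ψ.f b)) : SC φ ψ := by
  intro a b
  refine A.dg.ind (P := fun a => C.mul (ψ.f b) (φ.f a) =
    C.mul (φ.f a) (ψ.f b) - (2 : k) • C.mul (φ.f (A.dg.o a)) (ψ.f (B.dg.o b))) ?_ ?_ ?_ a
  · simp
  · intro v w hv hw
    simp only [map_add, LinearMap.add_apply, hv, hw, smul_add]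
    abel
  · intro p v hv
    refine B.dg.ind (P := fun b => C.mul (ψ.f b) (φ.f v) =
      C.mul (φ.f v) (ψ.f b) - (2 : k) • C.mul (φ.f (A.dg.o v)) (ψ.f (B.dg.o b))) ?_ ?_ ?_ b
    · simp
    · intro b b' hb hb'
      simp only [map_add, LinearMap.add_apply, hb, hb', smul_add]
      abel
    · intro q w hw
      rw [h p q v w hv hw]
      rcases Dg.o_of_parity hv with ⟨hp, h1⟩ | ⟨hp, h1⟩
      · rw [h1, sg_even (hp.mul_right q)]
        simp
      · rcases Dg.o_of_parity hw with ⟨hq, h2⟩ | ⟨hq, h2⟩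
        · rw [h2, sg_even (hq.mul_left p)]
          simp
        · rw [h1, h2, sg_odd (hp.mul hq), two_smul]
          simp

/-- The linear map `A ⊗ B → C`, `a ⊗ b ↦ φ(a) ψ(b)`. -/
noncomputable def tliftF (φ : DHom A C) (ψ : DHom B C) : (A.A ⊗[k] B.A) →ₗ[k] C.A :=
  TensorProduct.lift ((C.mul.compl₂ ψ.f).comp φ.f)

theorem tliftF_tmul (φ : DHom A C) (ψ : DHom B C) (a : A.A) (b : B.A) :
    tliftF φ ψ (a ⊗ₜ b) = C.mul (φ.f a) (ψ.f b) := rfl

private theorem StA_mul {φ : DHom A C} {ψ : DHom B C} (h : SC φ ψ) (x y : A.A ⊗[k] B.A) :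
    tliftF φ ψ (kz A.dg B.dg A.mul B.mul x y) = C.mul (tliftF φ ψ x) (tliftF φ ψ y) := by
  induction x using TensorProduct.induction_on with
  | zero => simp
  | add x x' hx hx' => simp only [map_add, LinearMap.add_apply, hx, hx']
  | tmul a b =>
    induction y using TensorProduct.induction_on with
    | zero => simp
    | add y y' hy hy' => simp only [map_add, hy, hy']
    | tmul a' b' =>
      rw [kz_tmul, map_sub, map_smul, tliftF_tmul, tliftF_tmul, tliftF_tmul, tliftF_tmul,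
        φ.mul, ψ.mul, φ.mul, ψ.mul]
      have e1 : C.mul (C.mul (φ.f a) (ψ.f b)) (C.mul (φ.f a') (ψ.f b')) =
          C.mul (C.mul (φ.f a) (C.mul (ψ.f b) (φ.f a'))) (ψ.f b') := by
        simp only [C.mul_assoc]
      rw [e1, h a' b]
      simp only [map_sub, map_smul, LinearMap.sub_apply, LinearMap.smul_apply, C.mul_assoc]

/-- The homomorphism `A ⊗ B → C`, `a ⊗ b ↦ φ(a) ψ(b)`. -/
noncomputable def tlift (φ : DHom A C) (ψ : DHom B C) (h : SC φ ψ) : DHom (A.tensor B) C where
  f := tliftF φ ψ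
  deg := fun {i x} hx => by
    have h := Dg.tensor_degMap (X := A.dg) (Y := B.dg) (Z := C.dg) (n := 0) (tliftF φ ψ)
      (fun p q a b ha hb => by
        rw [add_zero]
        exact C.mul_deg (φ.deg ha) (ψ.deg hb)) hx
    rwa [add_zero] at h
  d := fun x => by
    change C.dg.d (tliftF φ ψ x) = tliftF φ ψ ((A.dg.tensor B.dg).d x)
    induction x using TensorProduct.induction_on with
    | zero => simp
    | add x y hx hy => simp only [map_add, hx, hy]
    | tmul a b =>
      rw [Dg.tensor_d, map_add, tliftF_tmul, tliftF_tmul, tliftF_tmul, C.leibniz, φ.d, ψ.d, φ.s]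
  one := by
    change C.mul (φ.f A.one) (ψ.f B.one) = C.one
    rw [φ.one, ψ.one, C.one_mul]
  mul := fun x y => StA_mul h x y

theorem tlift_tinl (φ : DHom A C) (ψ : DHom B C) (h : SC φ ψ) (a : A.A) :
    (tlift φ ψ h).f ((tinl A B).f a) = φ.f a := by
  change C.mul (φ.f a) (ψ.f B.one) = φ.f a
  rw [ψ.one, C.mul_one]

theorem tlift_tinr (φ : DHom A C) (ψ : DHom B C) (h : SC φ ψ) (b : B.A) :
    (tlift φ ψ h).f ((tinr A B).f b) = ψ.f b := by
  change C.mul (φ.f A.one) (ψ.f b) = ψ.f b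
  rw [φ.one, C.one_mul]

/-- A homomorphism commutes with `tlift φ ψ` if it commutes with `φ` and with `ψ`. -/
theorem SC.tlift {φ : DHom A C} {ψ : DHom B C} (h : SC φ ψ) {κ : DHom A' C} (h1 : SC κ φ)
    (h2 : SC κ ψ) : SC κ (tlift φ ψ h) := by
  intro c x
  change C.mul (tliftF φ ψ x) (κ.f c) = C.mul (κ.f c) (tliftF φ ψ x) -
    (2 : k) • C.mul (κ.f (A'.dg.o c)) (tliftF φ ψ ((A.dg.tensor B.dg).o x))
  induction x using TensorProduct.induction_on with
  | zero => simp
  | add x y hx hy =>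
    simp only [map_add, LinearMap.add_apply, hx, hy, smul_add]
    abel
  | tmul a b =>
    have e1 : C.mul (C.mul (φ.f a) (ψ.f b)) (κ.f c) =
        C.mul (φ.f a) (C.mul (κ.f c) (ψ.f b) -
          (2 : k) • C.mul (κ.f (A'.dg.o c)) (ψ.f (B.dg.o b))) := by
      rw [C.mul_assoc, h2]
    have e2 : ∀ c' y, C.mul (φ.f a) (C.mul (κ.f c') y) = C.mul (C.mul (κ.f c') (φ.f a) -
          (2 : k) • C.mul (κ.f (A'.dg.o c')) (φ.f (A.dg.o a))) y := by
      intro c' y
      rw [← C.mul_assoc, h1]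
    rw [Dg.tensor_o, tliftF_tmul, e1, map_sub, map_smul, e2, e2, Dg.o_o]
    simp only [map_sub, map_add, map_smul, LinearMap.sub_apply, LinearMap.smul_apply,
      tliftF_tmul, C.mul_assoc, smul_sub, smul_add]
    simp only [two_smul]
    abel

/-- A family of homomorphisms which commute in the graded sense gives a homomorphism from the
tensor power. -/
theorem exists_pwLift {n : ℕ} (J : Fin n → DHom B C) (hJ : ∀ s t, s ≠ t → SC (J s) (J t)) :
    ∃ F : DHom (pw B n) C, (∀ s b, F.f ((inj B n s).f b) = (J s).f b) ∧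
      ∀ (A' : DGA k) (κ : DHom A' C), (∀ s, SC κ (J s)) → SC κ F := by
  induction n with
  | zero =>
    refine ⟨DHom.unit C, fun s => s.elim0, fun A' κ _ a (c : k) => ?_⟩
    have ho : (pw B 0).dg.o c = 0 := base_o c
    rw [ho, map_zero, map_zero, smul_zero, sub_zero]
    change C.mul (c • C.one) (κ.f a) = C.mul (κ.f a) (c • C.one)
    rw [map_smul, map_smul, LinearMap.smul_apply, C.one_mul, C.mul_one]
  | succ n ih =>
    obtain ⟨F, hF, hF'⟩ := ih (fun s => J s.succ) (fun s t hst => hJ s.succ t.succ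
      (fun e => hst (Fin.succ_injective n e)))
    have h0 : SC (J 0) F := hF' B (J 0) (fun s => hJ 0 s.succ (Fin.succ_ne_zero s).symm)
    refine ⟨tlift (J 0) F h0, ?_, ?_⟩
    · intro s b
      induction s using Fin.cases with
      | zero => exact tlift_tinl (J 0) F h0 b
      | succ s => exact (tlift_tinr (J 0) F h0 _).trans (hF s b)
    · intro A' κ hκ
      exact SC.tlift h0 (hκ 0) (hF' A' κ fun s => hκ s.succ)

end Pool.Agent.MP_6e5bed_ag_SY
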