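import Pool.Agent.Lib.MP_6e5bed_ag_SY.StDef
import Pool.Agent.Lib.MP_6e5bed_ag_SY.PwE

set_option autoImplicit false
set_option linter.unusedSectionVars false

/-!
# MP_6e5bed_ag (project SYM): comparison of tensor powers
-/

namespace Pool.Agent.MP_6e5bed_ag_SY

open Pool.Agent.MP_6e5bed_ag_NC
open Equiv
open scoped TensorProduct

universe u

variable {k : Type u} [CommRing k] {V : Type u} [AddCommGroup V] [Module k V] {B : DGA k}

/-- The multilinear map `x ↦ x₀ ⊗ (x₁ ⊗ ⋯)`. -/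
noncomputable def ptM (e : V ≃ₗ[k] B.A) :
    (n : ℕ) → MultilinearMap k (fun _ : Fin n => V) (pw B n).A
  | 0 => MultilinearMap.constOfIsEmpty k _ (pw B 0).one
  | n + 1 => LinearMap.uncurryLeft (M := fun _ : Fin (n + 1) => V)
      { toFun := fun v => (TensorProduct.mk k B.A (pw B n).A (e v)).compMultilinearMap (ptM e n)
        map_add' := fun v w => MultilinearMap.ext fun x => by
          change e (v + w) ⊗ₜ[k] ptM e n x = e v ⊗ₜ[k] ptM e n x + e w ⊗ₜ[k] ptM e n x
          rw [map_add, TensorProduct.add_tmul]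
        map_smul' := fun c v => MultilinearMap.ext fun x => by
          change e (c • v) ⊗ₜ[k] ptM e n x = c • e v ⊗ₜ[k] ptM e n x
          rw [map_smul, TensorProduct.smul_tmul'] }

theorem ptM_succ (e : V ≃ₗ[k] B.A) (n : ℕ) (x : Fin (n + 1) → V) :
    ptM e (n + 1) x = (e (x 0) ⊗ₜ[k] ptM e n (fun s => x s.succ) : B.A ⊗[k] (pw B n).A) := rfl

/-- The linear map `⨂ x_s ↦ x₀ ⊗ (x₁ ⊗ ⋯)`. -/
noncomputable def ptT (e : V ≃ₗ[k] B.A) (n : ℕ) : (⨂[k] _ : Fin n, V) →ₗ[k] (pw B n).A :=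
  PiTensorProduct.lift (ptM e n)

theorem ptT_tprod (e : V ≃ₗ[k] B.A) (n : ℕ) (x : Fin n → V) :
    ptT e n (PiTensorProduct.tprod k x) = ptM e n x := PiTensorProduct.lift.tprod x

/-- The bilinear map `(v, ⨂ x_s) ↦ v ⊗ ⨂ x_s`. -/
noncomputable def ptCons (k V : Type u) [CommRing k] [AddCommGroup V] [Module k V] (n : ℕ) :
    V →ₗ[k] (⨂[k] _ : Fin n, V) →ₗ[k] ⨂[k] _ : Fin (n + 1), V :=
  (PiTensorProduct.lift (R := k) (s := fun _ : Fin n => V)).toLinearMap ∘ₗ
    (PiTensorProduct.tprod k (s := fun _ : Fin (n + 1) => V)).curryLeft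

theorem ptCons_tprod (n : ℕ) (v : V) (x : Fin n → V) :
    ptCons k V n v (PiTensorProduct.tprod k x) =
      PiTensorProduct.tprod k (s := fun _ : Fin (n + 1) => V) (Fin.cons v x) := by
  change PiTensorProduct.lift _ (PiTensorProduct.tprod k x) = _
  rw [PiTensorProduct.lift.tprod]
  rfl

/-- The inverse of `ptT`. -/
noncomputable def ptS (e : V ≃ₗ[k] B.A) : (n : ℕ) → (pw B n).A →ₗ[k] ⨂[k] _ : Fin n, V
  | 0 => LinearMap.toSpanSingleton k _ (PiTensorProduct.tprod k fun s => s.elim0)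
  | n + 1 => TensorProduct.lift (((ptCons k V n).compl₂ (ptS e n)).comp e.symm.toLinearMap)

theorem ptS_zero (e : V ≃ₗ[k] B.A) (c : k) :
    ptS e 0 c = c • PiTensorProduct.tprod k (s := fun _ : Fin 0 => V) fun s => s.elim0 := rfl

theorem ptS_succ (e : V ≃ₗ[k] B.A) (n : ℕ) (b : B.A) (y : (pw B n).A) :
    ptS e (n + 1) (b ⊗ₜ[k] y : B.A ⊗[k] (pw B n).A) = ptCons k V n (e.symm b) (ptS e n y) := rfl

theorem ptT_cons (e : V ≃ₗ[k] B.A) (n : ℕ) (v : V) (z : ⨂[k] _ : Fin n, V) :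
    ptT e (n + 1) (ptCons k V n v z) = (e v ⊗ₜ[k] ptT e n z : B.A ⊗[k] (pw B n).A) := by
  have h : ptT e (n + 1) ∘ₗ ptCons k V n v =
      TensorProduct.mk k B.A (pw B n).A (e v) ∘ₗ ptT e n := by
    refine PiTensorProduct.ext ?_
    refine MultilinearMap.ext fun x => ?_
    change ptT e (n + 1) (ptCons k V n v (PiTensorProduct.tprod k x)) =
      (e v ⊗ₜ[k] ptT e n (PiTensorProduct.tprod k x) : B.A ⊗[k] (pw B n).A)
    rw [ptCons_tprod, ptT_tprod, ptT_tprod, ptM_succ]
    rfl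
  exact LinearMap.congr_fun h z

theorem ptS_ptT (e : V ≃ₗ[k] B.A) (n : ℕ) (z : ⨂[k] _ : Fin n, V) :
    ptS e n (ptT e n z) = z := by
  induction n with
  | zero =>
    have h : ptS e 0 ∘ₗ ptT e 0 = LinearMap.id := by
      refine PiTensorProduct.ext ?_
      refine MultilinearMap.ext fun x => ?_
      change ptS e 0 (ptT e 0 (PiTensorProduct.tprod k x)) = PiTensorProduct.tprod k x
      rw [ptT_tprod]
      change (1 : k) • PiTensorProduct.tprod k (s := fun _ : Fin 0 => V) (fun s => s.elim0) = _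
      rw [one_smul]
      congr 1
      exact Subsingleton.elim _ _
    exact LinearMap.congr_fun h z
  | succ n ih =>
    have h : ptS e (n + 1) ∘ₗ ptT e (n + 1) = LinearMap.id := by
      refine PiTensorProduct.ext ?_
      refine MultilinearMap.ext fun x => ?_
      change ptS e (n + 1) (ptT e (n + 1) (PiTensorProduct.tprod k x)) =
        PiTensorProduct.tprod k x
      rw [ptT_tprod, ptM_succ, ptS_succ, e.symm_apply_apply, ← ptT_tprod, ih, ptCons_tprod]
      congr 1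
      exact Fin.cons_self_tail x
    exact LinearMap.congr_fun h z

theorem ptT_ptS (e : V ≃ₗ[k] B.A) (n : ℕ) (y : (pw B n).A) : ptT e n (ptS e n y) = y := by
  induction n with
  | zero =>
    have h : ∀ c : k, ptT e 0 (ptS e 0 c) = c := fun c => by
      rw [ptS_zero, map_smul, ptT_tprod]
      exact base_smul c
    exact h y
  | succ n ih =>
    have h : ptT e (n + 1) ∘ₗ ptS e (n + 1) = LinearMap.id := by
      refine TensorProduct.ext' fun b z => ?_
      change ptT e (n + 1) (ptS e (n + 1) (b ⊗ₜ[k] z : B.A ⊗[k] (pw B n).A)) =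
        (b ⊗ₜ[k] z : B.A ⊗[k] (pw B n).A)
      rw [ptS_succ, ptT_cons, ih, e.apply_symm_apply]
    exact LinearMap.congr_fun h y

theorem ptT_bij (e : V ≃ₗ[k] B.A) (n : ℕ) : Function.Bijective (ptT e n) :=
  ⟨Function.LeftInverse.injective (g := ptS e n) (ptS_ptT e n),
    Function.RightInverse.surjective (g := ptS e n) (ptT_ptS e n)⟩

end Pool.Agent.MP_6e5bed_ag_SY
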