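import Pool.Agent.Lib.MP_6e5bed_ag_SY.StA
import Pool.Agent.Lib.MP_6e5bed_ag_SY.StB
import Pool.Agent.Lib.MP_6e5bed_ag_SY.PwM
import Pool.Agent.Lib.MP_6e5bed_ag_SP.RepTens
import Pool.Agent.Lib.MP_6e5bed_ag_SP.RepA

set_option autoImplicit false
set_option linter.unusedSectionVars false

/-!
# MP_6e5bed_ag (project SYM): symmetric powers are represented by `symP`
-/

namespace Pool.Agent.MP_6e5bed_ag_SY

open Pool.Agent.MP_6e5bed_ag_NC Pool.Agent.MP_6e5bed_ag_SP
open Equiv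
open scoped TensorProduct

universe u

variable {k : Type u} [CommRing k] {A AA : Type u} [Ring A] [Algebra k A] [Ring AA]
  [Algebra k AA] {X : DG k A} {E : DG k AA} {B C : DGA k}

theorem mulMap_tprod {n : ℕ} (j : Fin n → A →ₐ[k] AA) (x : Fin n → A) :
    mulMap j (PiTensorProduct.tprod k x) = (List.ofFn fun s => j s (x s)).prod := by
  rw [mulMap, PiTensorProduct.lift.tprod]
  rfl

private theorem StC_prod (R : Rep E C) (e : A ≃ₗ[k] B.A) (n : ℕ) (F : DHom (pw B n) C)
    (j : Fin n → A → AA) (hj : ∀ s a, R.e (j s a) = F.f ((inj B n s).f (e a)))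
    (x : Fin n → A) : R.e (List.ofFn fun s => j s (x s)).prod = F.f (ptM e n x) := by
  induction n with
  | zero =>
    rw [List.ofFn_zero, List.prod_nil, R.one]
    exact F.one.symm
  | succ n ih =>
    have h1 := ih ((tinr B (pw B n)).comp F) (fun s => j s.succ) (fun s a => hj s.succ a)
      (fun s => x s.succ)
    have h2 : ((tinr B (pw B n)).comp F).f (ptM e n fun s => x s.succ) =
      F.f ((tinr B (pw B n)).f (ptM e n fun s => x s.succ)) := rfl
    have h3 : R.e (j 0 (x 0)) = F.f ((tinl B (pw B n)).f (e (x 0))) := hj 0 (x 0)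
    rw [List.ofFn_succ, List.prod_cons, R.mul, h1, h2, h3, ← F.mul]
    congr 1
    exact tinl_mul_tinr B (pw B n) (e (x 0)) (ptM e n fun s => x s.succ)

theorem mulMap_ptT (R : Rep E C) (e : A ≃ₗ[k] B.A) {n : ℕ} (F : DHom (pw B n) C)
    (j : Fin n → A →ₐ[k] AA) (hj : ∀ s a, R.e (j s a) = F.f ((inj B n s).f (e a)))
    (z : ⨂[k] _ : Fin n, A) : R.e (mulMap j z) = F.f (ptT e n z) := by
  have h : R.e.toLinearMap ∘ₗ mulMap j = F.f ∘ₗ ptT e n := by
    refine PiTensorProduct.ext (MultilinearMap.ext fun x => ?_)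
    change R.e (mulMap j (PiTensorProduct.tprod k x)) =
      F.f (ptT e n (PiTensorProduct.tprod k x))
    rw [mulMap_tprod, ptT_tprod]
    exact StC_prod R e n F (fun s => j s) hj x
  exact LinearMap.congr_fun h z

theorem ptTs_bij (e : A ≃ₗ[k] B.A) (n : ℕ) :
    Function.Bijective (fun (x : Perm (Fin n) → ⨂[k] _ : Fin n, A) σ => ptT e n (x σ)) :=
  (Equiv.piCongrRight fun _ : Perm (Fin n) => Equiv.ofBijective _ (ptT_bij e n)).bijective

section hom

variable {n : ℕ} {j : Fin n → A →ₐ[k] AA} {u : Perm (Fin n) →* AA}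

/-- The homomorphism `j s` in terms of the representations. -/
private noncomputable def StC_J (h : IsSym X E n j u) (r : Rep X B) (R : Rep E C) (s : Fin n) :
    DHom B C where
  f := R.e.toLinearMap ∘ₗ (j s).toLinearMap ∘ₗ r.e.symm.toLinearMap
  deg := fun {i b} hb => by
    obtain ⟨a, rfl⟩ := r.e.surjective b
    change C.dg.IsDeg i (R.e (j s (r.e.symm (r.e a))))
    rw [r.e.symm_apply_apply]
    exact (R.rep.mem i _).1 (h.mem s i a ((r.rep.mem i a).2 hb))
  d := fun b => by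
    obtain ⟨a, rfl⟩ := r.e.surjective b
    change C.dg.d (R.e (j s (r.e.symm (r.e a)))) = R.e (j s (r.e.symm (B.dg.d (r.e a))))
    rw [← r.rep.d, r.e.symm_apply_apply, r.e.symm_apply_apply, ← h.d, R.rep.d]
  one := by
    change R.e (j s (r.e.symm B.one)) = C.one
    rw [← r.one, r.e.symm_apply_apply, map_one, R.one]
  mul := fun b b' => by
    obtain ⟨a, rfl⟩ := r.e.surjective b
    obtain ⟨a', rfl⟩ := r.e.surjective b'
    change R.e (j s (r.e.symm (B.mul (r.e a) (r.e a')))) =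
      C.mul (R.e (j s (r.e.symm (r.e a)))) (R.e (j s (r.e.symm (r.e a'))))
    rw [← r.mul, r.e.symm_apply_apply, r.e.symm_apply_apply, r.e.symm_apply_apply, map_mul,
      R.mul]

private theorem StC_J_e (h : IsSym X E n j u) (r : Rep X B) (R : Rep E C) (s : Fin n) (a : A) :
    (StC_J h r R s).f (r.e a) = R.e (j s a) := by
  change R.e (j s (r.e.symm (r.e a))) = R.e (j s a)
  rw [r.e.symm_apply_apply]

private theorem StC_SC (h : IsSym X E n j u) (r : Rep X B) (R : Rep E C) {s t : Fin n}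
    (hst : s ≠ t) : SC (StC_J h r R s) (StC_J h r R t) := by
  refine SC.of_hom fun p q b b' hb hb' => ?_
  obtain ⟨a, rfl⟩ := r.e.surjective b
  obtain ⟨a', rfl⟩ := r.e.surjective b'
  rw [StC_J_e, StC_J_e, ← R.mul, h.comm s t hst p q a a' ((r.rep.mem p a).2 hb)
    ((r.rep.mem q a').2 hb'), repTens_map_smul, negOnePow_smul, R.mul]

end hom

/-- The homomorphism from the tensor power. -/
private theorem StC_F {n : ℕ} {j : Fin n → A →ₐ[k] AA} {u : Perm (Fin n) →* AA}
    (h : IsSym X E n j u) (r : Rep X B) (R : Rep E C) : ∃ F : DHom (pw B n) C,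
      (∀ s a, R.e (j s a) = F.f ((inj B n s).f (r.e a))) ∧
      ∀ σ y, C.mul (R.e (u σ)) (F.f y) = C.mul (F.f (pwP B n σ y)) (R.e (u σ)) := by
  obtain ⟨F, hF, -⟩ := exists_pwLift (StC_J h r R) (fun s t hst => StC_SC h r R hst)
  have hj : ∀ s a, R.e (j s a) = F.f ((inj B n s).f (r.e a)) := fun s a => by
    rw [hF, StC_J_e]
  have hu : ∀ σ τ, C.mul (R.e (u σ)) (R.e (u τ)) = R.e (u (σ * τ)) := fun σ τ => by
    rw [← R.mul, map_mul u]
  have hu1 : R.e (u 1) = C.one := by rw [map_one, R.one]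
  refine ⟨F, hj, fun σ y => ?_⟩
  have key : F.f ∘ₗ pwP B n σ =
      C.mul.flip (R.e (u σ⁻¹)) ∘ₗ C.mul (R.e (u σ)) ∘ₗ F.f := by
    refine pw_ext ?_ ?_ ?_ ?_
    · intro x y
      exact (congrArg F.f (((pwAct B n).a σ).mul x y)).trans (F.mul _ _)
    · intro x y
      change C.mul (C.mul (R.e (u σ)) (F.f ((pw B n).mul x y))) (R.e (u σ⁻¹)) =
        C.mul (C.mul (C.mul (R.e (u σ)) (F.f x)) (R.e (u σ⁻¹)))
          (C.mul (C.mul (R.e (u σ)) (F.f y)) (R.e (u σ⁻¹)))
      rw [F.mul]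
      simp only [C.mul_assoc]
      rw [← C.mul_assoc (R.e (u σ⁻¹)) (R.e (u σ)), hu, inv_mul_cancel, hu1, C.one_mul]
    · change F.f (pwP B n σ (pw B n).one) =
        C.mul (C.mul (R.e (u σ)) (F.f (pw B n).one)) (R.e (u σ⁻¹))
      have h1 : pwP B n σ (pw B n).one = (pw B n).one := ((pwAct B n).a σ).one
      rw [h1, F.one, C.mul_one, hu, mul_inv_cancel, hu1]
    · intro s b
      obtain ⟨a, rfl⟩ := r.e.surjective b
      change F.f (pwP B n σ ((inj B n s).f (r.e a))) =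
        C.mul (C.mul (R.e (u σ)) (F.f ((inj B n s).f (r.e a)))) (R.e (u σ⁻¹))
      rw [pwP_inj, ← hj, ← hj, ← R.mul, h.conj, R.mul, C.mul_assoc, hu, mul_inv_cancel, hu1,
        C.mul_one]
  have h2 : F.f (pwP B n σ y) = C.mul (C.mul (R.e (u σ)) (F.f y)) (R.e (u σ⁻¹)) :=
    LinearMap.congr_fun key y
  rw [h2, C.mul_assoc, hu, inv_mul_cancel, hu1, C.mul_one]

private theorem StC_sum_deg {ι : Type*} {C : DGA k} {m : ℤ} (s : Finset ι) (f : ι → C.A)
    (h : ∀ i, C.dg.IsDeg m (f i)) : C.dg.IsDeg m (∑ i ∈ s, f i) := by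
  classical
  induction s using Finset.induction_on with
  | empty =>
    rw [Finset.sum_empty]
    exact Dg.IsDeg.zero m
  | insert a s ha ih =>
    rw [Finset.sum_insert ha]
    exact (h a).add ih

/-- Any symmetric power of `X` is represented by the symmetric power of a representation. -/
theorem IsSym.exists_rep {n : ℕ} {j : Fin n → A →ₐ[k] AA} {u : Perm (Fin n) →* AA}
    (h : IsSym X E n j u) (r : Rep X B) : Nonempty (Rep E (symP B n)) := by
  obtain ⟨C, ⟨R⟩⟩ : ∃ C : DGA k, Nonempty (Rep E C) := ⟨E.toDGA, ⟨E.toRep⟩⟩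
  obtain ⟨F, hj, hF⟩ := StC_F h r R
  have hu : ∀ σ τ, C.mul (R.e (u σ)) (R.e (u τ)) = R.e (u (σ * τ)) := fun σ τ => by
    rw [← R.mul, map_mul u]
  have hu1 : R.e (u 1) = C.one := by rw [map_one, R.one]
  let G : (Perm (Fin n) → (pw B n).A) →ₗ[k] C.A :=
    ∑ σ, C.mul.flip (R.e (u σ)) ∘ₗ F.f ∘ₗ LinearMap.proj σ
  have hG : ∀ x, G x = ∑ σ, C.mul (F.f (x σ)) (R.e (u σ)) := fun x => by
    simp [G, LinearMap.sum_apply]
  have hGT : ∀ x : Perm (Fin n) → ⨂[k] _ : Fin n, A,
      G (fun σ => ptT r.e n (x σ)) = R.e (∑ σ, mulMap j (x σ) * u σ) := fun x => by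
    rw [hG, map_sum]
    refine Finset.sum_congr rfl fun σ _ => ?_
    rw [R.mul, mulMap_ptT R r.e F j hj]
  have hGb : Function.Bijective G := by
    have h1 : Function.Bijective
        (G ∘ fun (x : Perm (Fin n) → ⨂[k] _ : Fin n, A) σ => ptT r.e n (x σ)) := by
      have h2 : (G ∘ fun (x : Perm (Fin n) → ⨂[k] _ : Fin n, A) σ => ptT r.e n (x σ)) =
          R.e ∘ fun x : Perm (Fin n) → ⨂[k] _ : Fin n, A => ∑ σ, mulMap j (x σ) * u σ :=
        funext hGT
      rw [h2]
      exact R.e.bijective.comp h.bij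
    exact (Function.Bijective.of_comp_iff _ (ptTs_bij r.e n)).1 h1
  have hGd : ∀ x : (symP B n).A, G ((symP B n).dg.d x) = C.dg.d (G x) := fun x => by
    have hd : ∀ σ, C.dg.d (R.e (u σ)) = 0 := fun σ => by rw [← R.rep.d, h.u_d, map_zero]
    rw [hG, hG, map_sum]
    refine Finset.sum_congr rfl fun σ _ => ?_
    rw [C.leibniz, hd, map_zero, add_zero, F.d]
    rfl
  have hGm : ∀ x y : (symP B n).A, G ((symP B n).mul x y) = C.mul (G x) (G y) := fun x y => by
    have e1 : ∀ σ, C.mul (F.f ((symP B n).mul x y σ)) (R.e (u σ)) =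
        ∑ τ, C.mul (C.mul (F.f (x τ)) (R.e (u τ)))
          (C.mul (F.f (y (τ⁻¹ * σ))) (R.e (u (τ⁻¹ * σ)))) := fun σ => by
      have e2 : (symP B n).mul x y σ =
          ∑ τ, (pw B n).mul (x τ) (pwP B n τ (y (τ⁻¹ * σ))) := cr_mul (pwAct B n) x y σ
      rw [e2, map_sum, map_sum, LinearMap.sum_apply]
      refine Finset.sum_congr rfl fun τ _ => ?_
      rw [F.mul, C.mul_assoc, C.mul_assoc, ← C.mul_assoc (R.e (u τ)), hF, C.mul_assoc, hu,
        mul_inv_cancel_left]
    have e3 : C.mul (G x) (G y) =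
        ∑ τ, C.mul (C.mul (F.f (x τ)) (R.e (u τ))) (G y) := by
      rw [hG x, map_sum, LinearMap.sum_apply]
    refine (hG _).trans ((Finset.sum_congr rfl fun σ _ => e1 σ).trans ?_)
    rw [e3, Finset.sum_comm]
    refine Finset.sum_congr rfl fun τ _ => ?_
    rw [hG y, map_sum]
    exact Fintype.sum_equiv (Equiv.mulLeft τ⁻¹) _ _ fun σ => rfl
  have hG1 : G (symP B n).one = C.one := by
    refine (hG _).trans ?_
    rw [Finset.sum_eq_single (1 : Perm (Fin n))]
    · have h1 : ((symP B n).one : Perm (Fin n) → (pw B n).A) 1 = (pw B n).one := by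
        have h2 := crGr_u (pwAct B n) 1 1
        rw [(crGr (pwAct B n)).u_one, if_pos rfl] at h2
        exact h2
      rw [h1, F.one, hu1, C.one_mul]
    · intro σ _ hσ
      have h1 : ((symP B n).one : Perm (Fin n) → (pw B n).A) σ = 0 := by
        have h2 := crGr_u (pwAct B n) 1 σ
        rw [(crGr (pwAct B n)).u_one, if_neg hσ] at h2
        exact h2
      rw [h1, map_zero, map_zero, LinearMap.zero_apply]
    · intro h1
      exact absurd (Finset.mem_univ _) h1
  have hGdeg : ∀ m (x : (symP B n).A), (symP B n).dg.IsDeg m x → C.dg.IsDeg m (G x) := by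
    intro m x hx
    have hx' : ∀ σ, (pw B n).dg.IsDeg m (x σ) := dgPi_deg.1 hx
    rw [hG]
    refine StC_sum_deg _ _ fun σ => ?_
    have h1 := C.mul_deg (F.deg (hx' σ)) ((R.rep.mem 0 _).1 (h.u_mem σ))
    rwa [add_zero] at h1
  let e : AA ≃ₗ[k] (symP B n).A := R.e ≪≫ₗ (LinearEquiv.ofBijective G hGb).symm
  have he : ∀ x, G (e x) = R.e x := fun x =>
    (LinearEquiv.ofBijective G hGb).apply_symm_apply (R.e x)
  refine ⟨{ e := e, one := ?_, mul := ?_, rep := ⟨?_, ?_⟩ }⟩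
  · apply hGb.1
    rw [he, R.one, hG1]
  · intro a b
    apply hGb.1
    rw [he, R.mul, hGm, he, he]
  · refine repTens_mem_iff' E.toCx (symP B n).dg e fun m v hv => ?_
    obtain ⟨w, rfl⟩ := e.surjective v
    rw [e.symm_apply_apply]
    refine (R.rep.mem m w).2 ?_
    rw [← he]
    exact hGdeg m _ hv
  · intro v
    apply hGb.1
    rw [he, R.rep.d, hGd, he]

end Pool.Agent.MP_6e5bed_ag_SY
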