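import Pool.Agent.Lib.MP_6e5bed_ag_SP.DG

set_option autoImplicit false

/-!
# Symmetric powers of dg algebras
-/

namespace Pool.Agent.MP_6e5bed_ag_SY

open Pool.Agent.MP_6e5bed_ag_SP
open scoped TensorProduct

universe u

variable {k : Type u} [CommRing k] {A AA : Type u} [Ring A] [Algebra k A] [Ring AA] [Algebra k AA]

/-- The linear map `A^{⊗n} → AA`, `a₀ ⊗ ⋯ ⊗ aₙ₋₁ ↦ j₀(a₀) ⋯ jₙ₋₁(aₙ₋₁)`. -/
noncomputable def mulMap {n : ℕ} (j : Fin n → A →ₐ[k] AA) : (⨂[k] _ : Fin n, A) →ₗ[k] AA :=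
  PiTensorProduct.lift ((MultilinearMap.mkPiAlgebraFin k n AA).compLinearMap
    fun s => (j s).toLinearMap)

/-- The dg algebra `AA` is the symmetric power `S^n A`: the crossed product of the dg algebra
`A^{⊗n}` with the symmetric group. The homomorphisms `j s : A → AA` are the factors of `A^{⊗n}`,
the elements `u σ` of `AA` are the permutations: the maps `j s` are maps of dg algebras whose
images commute in the graded sense, the `u σ` are closed of degree `0` and permute the `j s`, and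
every element of `AA` is a sum of products `t u σ` with unique `t` in `A^{⊗n}`. -/
structure IsSym (X : DG k A) (E : DG k AA) (n : ℕ) (j : Fin n → A →ₐ[k] AA)
    (u : Equiv.Perm (Fin n) →* AA) : Prop where
  mem : ∀ s m a, a ∈ X.gr m → j s a ∈ E.gr m
  d : ∀ s a, E.d (j s a) = j s (X.d a)
  comm : ∀ s t, s ≠ t → ∀ p q a b, a ∈ X.gr p → b ∈ X.gr q →
    j t b * j s a = (p * q).negOnePow • (j s a * j t b)
  u_mem : ∀ σ, u σ ∈ E.gr 0
  u_d : ∀ σ, E.d (u σ) = 0
  conj : ∀ σ s a, u σ * j s a = j (σ s) a * u σ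
  bij : Function.Bijective fun x : Equiv.Perm (Fin n) → ⨂[k] _ : Fin n, A =>
    ∑ σ, mulMap j (x σ) * u σ

end Pool.Agent.MP_6e5bed_ag_SY
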