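import Pool.Agent.Lib.MP_6e5bed_ag_SY.StC
import Pool.Agent.Lib.MP_6e5bed_ag_SY.CrH

set_option autoImplicit false
set_option linter.unusedSectionVars false

/-!
# MP_6e5bed_ag (project SYM): existence of symmetric powers
-/

namespace Pool.Agent.MP_6e5bed_ag_SY

open Pool.Agent.MP_6e5bed_ag_NC Pool.Agent.MP_6e5bed_ag_SP
open Equiv
open scoped TensorProduct

universe u

variable {k : Type u} [Field k] {A AA : Type u} [Ring A] [Algebra k A] [Ring AA]
  [Algebra k AA] {X : DG k A} {E : DG k AA} {B C : DGA k}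

/-- A dg algebra which is represented by `symP B n` is a symmetric power of `X`. -/
theorem exists_isSym_of_rep {n : ℕ} (r : Rep X B) (R : Rep E (symP B n)) :
    ∃ (j : Fin n → A →ₐ[k] AA) (u : Perm (Fin n) →* AA), IsSym X E n j u := by
  choose j hj using fun s : Fin n => Rep.exists_algHom r R (iota B n s)
  have hi : ∀ s b, (iota B n s).f b = (crI (pwAct B n)).f ((inj B n s).f b) := fun _ _ => rfl
  let u : Perm (Fin n) →* AA :=
    { toFun := fun σ => R.e.symm ((symG B n).u σ)
      map_one' := by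
        rw [(symG B n).u_one, ← R.one, R.e.symm_apply_apply]
      map_mul' := fun σ τ => by
        apply R.e.injective
        rw [R.mul, R.e.apply_symm_apply, R.e.apply_symm_apply, R.e.apply_symm_apply,
          (symG B n).u_mul] }
  have hu : ∀ σ, R.e (u σ) = (symG B n).u σ := fun σ => R.e.apply_symm_apply _
  refine ⟨j, u, ⟨?_, ?_, ?_, ?_, ?_, ?_, ?_⟩⟩
  · intro s m a ha
    refine (R.rep.mem m _).2 ?_
    rw [hj]
    exact (iota B n s).deg ((r.rep.mem m a).1 ha)
  · intro s a
    apply R.e.injective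
    rw [R.rep.d, hj, hj, (iota B n s).d, r.rep.d]
  · intro s t hst p q a b ha hb
    apply R.e.injective
    rw [repTens_map_smul, negOnePow_smul, R.mul, R.mul, hj, hj, hi, hi]
    have h1 := inj_comm B n (s := t) (t := s) hst.symm ((r.rep.mem q b).1 hb)
      ((r.rep.mem p a).1 ha)
    have h2 := congrArg (crI (pwAct B n)).f h1
    rw [map_zsmul, (crI (pwAct B n)).mul, (crI (pwAct B n)).mul, mul_comm q p] at h2
    exact h2
  · intro σ
    refine (R.rep.mem 0 _).2 ?_
    rw [hu]
    exact (symG B n).u_deg σ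
  · intro σ
    apply R.e.injective
    rw [R.rep.d, hu, (symG B n).u_d, map_zero]
  · intro σ s a
    apply R.e.injective
    rw [R.mul, R.mul, hu, hj, hj]
    exact u_iota σ s (r.e a)
  · have h1 : ∀ x : Perm (Fin n) → ⨂[k] _ : Fin n, A,
        R.e (∑ σ, mulMap j (x σ) * u σ) = fun σ => ptT r.e n (x σ) := fun x => by
      rw [map_sum]
      refine Eq.trans (Finset.sum_congr rfl fun σ _ => ?_)
        (sym_sum (A := B) (n := n) fun σ => ptT r.e n (x σ)).symm
      rw [R.mul, hu, mulMap_ptT R r.e (crI (pwAct B n)) j (fun s a => (hj s a).trans (hi s _))]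
      rfl
    have h2 : (fun x : Perm (Fin n) → ⨂[k] _ : Fin n, A => ∑ σ, mulMap j (x σ) * u σ) =
        R.e.symm ∘ fun (x : Perm (Fin n) → ⨂[k] _ : Fin n, A) σ => ptT r.e n (x σ) := by
      funext x
      apply R.e.injective
      rw [h1]
      exact (R.e.apply_symm_apply _).symm
    rw [h2]
    exact R.e.symm.bijective.comp (ptTs_bij r.e n)

/-- Every dg algebra has symmetric powers. -/
theorem exists_isSym (X : DG k A) (n : ℕ) : ∃ (AA : Type u) (_ : Ring AA) (_ : Algebra k AA)
    (E : DG k AA) (j : Fin n → A →ₐ[k] AA) (u : Perm (Fin n) →* AA), IsSym X E n j u := by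
  obtain ⟨B, ⟨r⟩⟩ : ∃ B : DGA k, Nonempty (Rep X B) := ⟨X.toDGA, ⟨X.toRep⟩⟩
  exact ⟨RA (symP B n), inferInstance, inferInstance, DG.of (symP B n),
    exists_isSym_of_rep r (repOf (symP B n))⟩

end Pool.Agent.MP_6e5bed_ag_SY
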