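import Pool.Agent.Lib.MP_6e5bed_ag_SY.StE
import Pool.Agent.Lib.MP_6e5bed_ag_SY.SmCr
import Pool.Agent.Lib.MP_6e5bed_ag_SY.MainF
import Pool.Agent.Lib.MP_6e5bed_ag_SP.Final

set_option autoImplicit false

/-!
# MP_6e5bed_ag (project SYM): Kimura-finiteness of symmetric powers in a model
-/

namespace Pool.Agent.MP_6e5bed_ag_SY

open CategoryTheory MonoidalCategory Pool.Agent.MP_6e5bed_ag Pool.Agent.MP_6e5bed_ag_NC
open Pool.Agent.MP_6e5bed_ag_SP

universe u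

variable {k : Type u} [Field k] {A AA : Type u} [Ring A] [Algebra k A] [Ring AA]
  [Algebra k AA] {X : DG k A} {E : DG k AA} {n : ℕ} {j : Fin n → A →ₐ[k] AA}
  {u : Equiv.Perm (Fin n) →* AA}

/-- A symmetric power of a smooth proper dg algebra is smooth and proper. -/
theorem IsSym.smPr (h : IsSym X E n j u) (hn : ((n.factorial : ℕ) : k) ≠ 0) (hX : SmPr X) :
    SmPr E := by
  have _ := InvG.of_factorial hn
  obtain ⟨S, ⟨r⟩⟩ : ∃ S : SP k, Nonempty (Rep X S.alg) := ⟨toSP X hX, ⟨X.toRep⟩⟩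
  obtain ⟨r'⟩ := h.exists_rep r
  exact SmPr.of r' (symS S n).smooth (symS S n).proper

theorem IsSym.kimuraFinite_iff (h : IsSym X E n j u) (h0 : 0 < n)
    (hn : ((n.factorial : ℕ) : k) ≠ 0) (hX : SmPr X) (hE : SmPr E)
    {C : Type (u + 1)} [Category.{u + 1} C] [MonoidalCategory C] [SymmetricCategory C]
    [Preadditive C] [MonoidalPreadditive C] [Linear ℚ C] (H : NCMot k C) :
    KimuraFinite (H.U E hE) ↔ KimuraFinite (H.U X hX) := by
  have _ := InvG.of_factorial hn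
  obtain ⟨S, ⟨r⟩⟩ : ∃ S : SP k, Nonempty (Rep X S.alg) := ⟨toSP X hX, ⟨X.toRep⟩⟩
  obtain ⟨r'⟩ := h.exists_rep r
  rw [H.kimuraFinite_iff hX S r, ← kimuraFinite_symS S n h0]
  exact H.kimuraFinite_iff hE (symS S n) r'

end Pool.Agent.MP_6e5bed_ag_SY
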