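import Pool.Agent.Lib.MP_6e5bed_ag_NC.CAssoc
import Pool.Agent.Lib.MP_6e5bed_ag_NC.CSwap

set_option autoImplicit false
set_option linter.unusedSectionVars false

/-!
# MP_6e5bed_ag (project SYM): the exchange of the first two factors of `V ⊗ (V ⊗ P)`

The file contains sign lemmas with degrees (`kz_sg`, `ksw_sg`, `SW_sg`): for homogeneous elements
`kz`, `ksw` and `SW` are given by `sg (i * j)`, `sg n = (-1)^n`. With them the identities of signs
become identities of the form `sg a = sg b` with `a - b` even.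
-/

namespace Pool.Agent.MP_6e5bed_ag_SY

open Pool.Agent.MP_6e5bed_ag_NC
open scoped TensorProduct

universe u

section tools

variable {k : Type u} [CommRing k] {V V' V'' W W' W'' : Type u}
  [AddCommGroup V] [Module k V] [AddCommGroup V'] [Module k V']
  [AddCommGroup V''] [Module k V''] [AddCommGroup W] [Module k W] [AddCommGroup W']
  [Module k W'] [AddCommGroup W''] [Module k W'']

theorem sg_eq_of_even {a b : ℤ} (h : Even (a - b)) : sg a = sg b := by
  rcases Int.even_or_odd b with hb | hb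
  · have ha : Even a := by
      have := h.add hb
      rwa [sub_add_cancel] at this
    rw [sg_even ha, sg_even hb]
  · have ha : Odd a := by
      have := h.add_odd hb
      rwa [sub_add_cancel] at this
    rw [sg_odd ha, sg_odd hb]

theorem sg_mul (a b : ℤ) : sg a * sg b = sg (a + b) := (sg_add a b).symm

theorem sg_smul_smul {M : Type*} [AddCommGroup M] (a b : ℤ) (x : M) :
    sg a • sg b • x = sg (a + b) • x := by
  rw [smul_smul, sg_mul]

/-- Proof. `kz_even` or `kz_odd'`, and `Dg.o_of_even`, `Dg.o_of_odd`; or `kz_tmul`. -/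
theorem kz_sg {X : Dg k V'} {Y : Dg k W} {α : V →ₗ[k] V' →ₗ[k] V''} {β : W →ₗ[k] W' →ₗ[k] W''}
    {i j : ℤ} {w : W} {v' : V'} (hw : Y.IsDeg i w) (hv : X.IsDeg j v') (v : V) (w' : W') :
    kz X Y α β (v ⊗ₜ w) (v' ⊗ₜ w') = sg (i * j) • (α v v' ⊗ₜ[k] β w w') := by
  rcases Dg.o_of_parity hw with ⟨hi, h1⟩ | ⟨hi, h1⟩
  · rw [kz_even h1, sg_even (hi.mul_right j), one_smul]
  · rcases Dg.o_of_parity hv with ⟨hj, h2⟩ | ⟨hj, h2⟩
    · rw [kz_even' h2, sg_even (hj.mul_left i), one_smul]
    · rw [kz_odd h1, Dg.s_of_odd h2, sg_odd (hi.mul hj), map_neg, TensorProduct.neg_tmul,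
        neg_smul, one_smul]

theorem ksw_sg {X : Dg k V} {Y : Dg k W} {i j : ℤ} {v : V} {w : W} (hv : X.IsDeg i v)
    (hw : Y.IsDeg j w) : ksw X Y (v ⊗ₜ w) = sg (i * j) • (w ⊗ₜ[k] v) := by
  rcases Dg.o_of_parity hv with ⟨hi, h1⟩ | ⟨hi, h1⟩
  · rw [ksw_tmul, h1, sg_even (hi.mul_right j), one_smul, TensorProduct.tmul_zero, smul_zero,
      sub_zero]
  · rcases Dg.o_of_parity hw with ⟨hj, h2⟩ | ⟨hj, h2⟩
    · rw [ksw_tmul, h2, sg_even (hj.mul_left i), one_smul, TensorProduct.zero_tmul, smul_zero,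
        sub_zero]
    · rw [ksw_tmul, h1, h2, sg_odd (hi.mul hj), two_smul, neg_smul, one_smul]
      abel

end tools

variable {k : Type u} [CommRing k] {V W P Q : Type u} [AddCommGroup V] [Module k V]
  [AddCommGroup W] [Module k W] [AddCommGroup P] [Module k P] [AddCommGroup Q] [Module k Q]

/-- The exchange of the first two factors, with the Koszul sign. -/
noncomputable def SW (X : Dg k V) (P : Type u) [AddCommGroup P] [Module k P] :
    V ⊗[k] (V ⊗[k] P) →ₗ[k] V ⊗[k] (V ⊗[k] P) :=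
  (TensorProduct.assoc k V V P).toLinearMap ∘ₗ TensorProduct.map (ksw X X) LinearMap.id ∘ₗ
    (TensorProduct.assoc k V V P).symm.toLinearMap

theorem SW_tmul (X : Dg k V) (v w : V) (p : P) :
    SW X P (v ⊗ₜ (w ⊗ₜ p)) = w ⊗ₜ (v ⊗ₜ p) - (2 : k) • X.o w ⊗ₜ (X.o v ⊗ₜ p) := by
  simp [SW, ksw_tmul, TensorProduct.sub_tmul, TensorProduct.smul_tmul']

theorem SW_sg {X : Dg k V} {i j : ℤ} {v w : V} (hv : X.IsDeg i v) (hw : X.IsDeg j w) (p : P) :
    SW X P (v ⊗ₜ (w ⊗ₜ p)) = sg (i * j) • (w ⊗ₜ[k] (v ⊗ₜ[k] p)) := by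
  rcases Dg.o_of_parity hv with ⟨hi, h1⟩ | ⟨hi, h1⟩
  · rw [SW_tmul, h1, sg_even (hi.mul_right j), one_smul, TensorProduct.zero_tmul,
      TensorProduct.tmul_zero, smul_zero, sub_zero]
  · rcases Dg.o_of_parity hw with ⟨hj, h2⟩ | ⟨hj, h2⟩
    · rw [SW_tmul, h2, sg_even (hj.mul_left i), one_smul, TensorProduct.zero_tmul, smul_zero,
        sub_zero]
    · rw [SW_tmul, h1, h2, sg_odd (hi.mul hj), two_smul, neg_smul, one_smul]
      abel

private theorem SwA_tmul_zsmul {M N : Type u} [AddCommGroup M] [Module k M] [AddCommGroup N]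
    [Module k N] (n : ℤ) (x : M) (y : N) : x ⊗ₜ[k] (n • y) = n • (x ⊗ₜ[k] y) :=
  map_zsmul (TensorProduct.mk k M N x) n y

private theorem SwA_ind (X : Dg k V) {F : V ⊗[k] (V ⊗[k] P) → Prop} (h0 : F 0)
    (hadd : ∀ a b, F a → F b → F (a + b))
    (hdeg : ∀ i j v w p, X.IsDeg i v → X.IsDeg j w → F (v ⊗ₜ (w ⊗ₜ p)))
    (x : V ⊗[k] (V ⊗[k] P)) : F x := by
  induction x using TensorProduct.induction_on with
  | zero => exact h0
  | add a b ha hb => exact hadd a b ha hb
  | tmul v y =>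
    induction y using TensorProduct.induction_on with
    | zero => simpa using h0
    | add a b ha hb =>
      rw [TensorProduct.tmul_add]
      exact hadd _ _ ha hb
    | tmul w p =>
      refine X.ind (P := fun v => F (v ⊗ₜ (w ⊗ₜ p))) (by simpa using h0) ?_ ?_ v
      · intro v v' h h'
        rw [TensorProduct.add_tmul]
        exact hadd _ _ h h'
      · intro i v hv
        refine X.ind (P := fun w => F (v ⊗ₜ (w ⊗ₜ p))) (by simpa using h0) ?_ ?_ w
        · intro w w' h h'
          rw [TensorProduct.add_tmul, TensorProduct.tmul_add]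
          exact hadd _ _ h h'
        · intro j w hw
          exact hdeg i j v w p hv hw

theorem SW_SW (X : Dg k V) (x : V ⊗[k] (V ⊗[k] P)) : SW X P (SW X P x) = x := by
  refine SwA_ind X (F := fun x => SW X P (SW X P x) = x) (by simp) (fun a b ha hb => ?_)
    (fun i j v w p hv hw => ?_) x
  · rw [map_add, map_add, ha, hb]
  · rw [SW_sg hv hw, map_zsmul, SW_sg hw hv, sg_smul_smul, sg_even, one_smul]
    rw [mul_comm j i]
    exact Even.add_self _

/-- The braid relation. -/
theorem SW_braid (X : Dg k V) (x : V ⊗[k] (V ⊗[k] (V ⊗[k] P))) :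
    SW X (V ⊗[k] P) (TensorProduct.map LinearMap.id (SW X P) (SW X (V ⊗[k] P) x)) =
      TensorProduct.map LinearMap.id (SW X P) (SW X (V ⊗[k] P)
        (TensorProduct.map LinearMap.id (SW X P) x)) := by
  induction x using TensorProduct.induction_on with
  | zero => simp
  | add a b ha hb => simp only [map_add, ha, hb]
  | tmul v y =>
    refine X.ind (P := fun v => SW X (V ⊗[k] P) (TensorProduct.map LinearMap.id (SW X P)
        (SW X (V ⊗[k] P) (v ⊗ₜ y))) = TensorProduct.map LinearMap.id (SW X P)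
        (SW X (V ⊗[k] P) (TensorProduct.map LinearMap.id (SW X P) (v ⊗ₜ y)))) (by simp)
      (fun a b ha hb => by simp only [TensorProduct.add_tmul, map_add, ha, hb]) ?_ v
    intro i v hv
    refine SwA_ind X (F := fun y => SW X (V ⊗[k] P) (TensorProduct.map LinearMap.id (SW X P)
        (SW X (V ⊗[k] P) (v ⊗ₜ y))) = TensorProduct.map LinearMap.id (SW X P)
        (SW X (V ⊗[k] P) (TensorProduct.map LinearMap.id (SW X P) (v ⊗ₜ y)))) (by simp)
      (fun a b ha hb => by simp only [TensorProduct.tmul_add, map_add, ha, hb]) ?_ y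
    intro j l w u p hw hu
    have h1 : SW X P (v ⊗ₜ (u ⊗ₜ p)) = sg (i * l) • (u ⊗ₜ[k] (v ⊗ₜ[k] p)) := SW_sg hv hu p
    have h2 : SW X P (w ⊗ₜ (u ⊗ₜ p)) = sg (j * l) • (u ⊗ₜ[k] (w ⊗ₜ[k] p)) := SW_sg hw hu p
    have h3 : SW X P (v ⊗ₜ (w ⊗ₜ p)) = sg (i * j) • (w ⊗ₜ[k] (v ⊗ₜ[k] p)) := SW_sg hv hw p
    rw [SW_sg hv hw, map_zsmul, TensorProduct.map_tmul, LinearMap.id_apply, h1,
      SwA_tmul_zsmul, map_zsmul, map_zsmul, SW_sg hw hu, TensorProduct.map_tmul,
      LinearMap.id_apply, h2, SwA_tmul_zsmul, map_zsmul, map_zsmul, SW_sg hv hu,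
      map_zsmul, TensorProduct.map_tmul, LinearMap.id_apply, h3, SwA_tmul_zsmul,
      sg_smul_smul, sg_smul_smul, sg_smul_smul, sg_smul_smul]
    congr 1
    ring_nf

/-- Naturality, for maps of degree zero of complexes which need not commute with `d`. -/
theorem SW_nat (X : Dg k V) (Y : Dg k W) (φ : V →ₗ[k] W) (ψ : V →ₗ[k] W)
    (hφ : ∀ v, Y.o (φ v) = φ (X.o v)) (hψ : ∀ v, Y.o (ψ v) = ψ (X.o v)) (f : P →ₗ[k] Q)
    (x : V ⊗[k] (V ⊗[k] P)) :
    SW Y Q (TensorProduct.map φ (TensorProduct.map ψ f) x) =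
      TensorProduct.map ψ (TensorProduct.map φ f) (SW X P x) := by
  induction x using TensorProduct.induction_on with
  | zero => simp
  | add a b ha hb => simp only [map_add, ha, hb]
  | tmul v y =>
    induction y using TensorProduct.induction_on with
    | zero => simp
    | add a b ha hb => simp only [TensorProduct.tmul_add, map_add, ha, hb]
    | tmul w p =>
      simp only [TensorProduct.map_tmul, SW_tmul, map_sub, map_smul, hφ, hψ]

theorem SW_deg (X : Dg k V) (Z : Dg k P) {i : ℤ} {x : V ⊗[k] (V ⊗[k] P)}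
    (hx : (X.tensor (X.tensor Z)).IsDeg i x) : (X.tensor (X.tensor Z)).IsDeg i (SW X P x) := by
  have h := Dg.tensor_degMap (X := X) (Y := X.tensor Z) (Z := X.tensor (X.tensor Z)) (n := 0)
    (SW X P) (fun i j v y hv hy => by
      have h1 := Dg.tensor_degMap (X := X) (Y := Z) (Z := X.tensor (X.tensor Z)) (n := i)
        ((SW X P).comp (TensorProduct.mk k V (V ⊗[k] P) v)) (fun j l w p hw hp => by
          have h2 : ((SW X P).comp (TensorProduct.mk k V (V ⊗[k] P) v)) (w ⊗ₜ p) =
            SW X P (v ⊗ₜ (w ⊗ₜ p)) := rfl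
          rw [h2, SW_tmul, show j + l + i = j + (i + l) by ring]
          exact (Dg.tensor_deg hw (Dg.tensor_deg hv hp)).sub
            ((Dg.tensor_deg hw.o (Dg.tensor_deg hv.o hp)).smul _)) hy
      rw [add_zero, add_comm i j]
      exact h1) hx
  rwa [add_zero] at h

theorem SW_d (X : Dg k V) (Z : Dg k P) (x : V ⊗[k] (V ⊗[k] P)) :
    (X.tensor (X.tensor Z)).d (SW X P x) = SW X P ((X.tensor (X.tensor Z)).d x) := by
  induction x using TensorProduct.induction_on with
  | zero => simp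
  | add a b ha hb => simp only [map_add, ha, hb]
  | tmul v y =>
    induction y using TensorProduct.induction_on with
    | zero => simp
    | add a b ha hb => simp only [TensorProduct.tmul_add, map_add, ha, hb]
    | tmul w p =>
      simp only [SW_tmul, Dg.tensor_d, map_sub, map_smul, map_add, Dg.s_apply, Dg.o_d, Dg.o_o,
        TensorProduct.tmul_sub, TensorProduct.sub_tmul, smul_sub, two_smul,
        TensorProduct.add_tmul, TensorProduct.tmul_add]
      abel

end Pool.Agent.MP_6e5bed_ag_SY
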