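import Pool.Agent.Lib.MP_6e5bed_ag_SY.SwA

set_option autoImplicit false
set_option linter.unusedSectionVars false

/-!
# MP_6e5bed_ag (project SYM): the exchange of two factors and Koszul products
-/

namespace Pool.Agent.MP_6e5bed_ag_SY

open Pool.Agent.MP_6e5bed_ag_NC
open scoped TensorProduct

universe u

variable {k : Type u} [CommRing k] {V V' V'' P P' P'' : Type u}
  [AddCommGroup V] [Module k V] [AddCommGroup V'] [Module k V']
  [AddCommGroup V''] [Module k V''] [AddCommGroup P] [Module k P] [AddCommGroup P']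
  [Module k P'] [AddCommGroup P''] [Module k P'']

/-- The Koszul product of two copies of `α` and of `γ` is compatible with the exchange of the
first two factors.

Proof. Both sides are bilinear in `(x, y)`, so let `x = v₁ ⊗ (v₂ ⊗ p)` and `y = w₁ ⊗ (w₂ ⊗ q)` with
homogeneous elements (`Dg.tind` twice for `x`, and for `y`; on `P'` no degree is needed). By
`kz_sg` and `SW_sg` the left side is `(-1)^((|v₂| + |p|)|w₁| + |p||w₂| + (|v₁| + |w₁|)(|v₂| + |w₂|))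
α(v₂, w₂) ⊗ (α(v₁, w₁) ⊗ γ(p, q))` and the right side is `(-1)^(|v₁||v₂| + |w₁||w₂| + (|v₁| +
|p|)|w₂| + |p||w₁|)` times the same element. The difference of the exponents is even
(`sg_eq_of_even`, `ring_nf`). -/
theorem SW_kz {X : Dg k V} {X' : Dg k V'} {X'' : Dg k V''} {Z : Dg k P}
    {α : V →ₗ[k] V' →ₗ[k] V''} {γ : P →ₗ[k] P' →ₗ[k] P''}
    (hα : ∀ {i j : ℤ} {v : V} {w : V'}, X.IsDeg i v → X'.IsDeg j w → X''.IsDeg (i + j) (α v w))
    (x : V ⊗[k] (V ⊗[k] P)) (y : V' ⊗[k] (V' ⊗[k] P')) :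
    SW X'' P'' (kz X' (X.tensor Z) α (kz X' Z α γ) x y) =
      kz X' (X.tensor Z) α (kz X' Z α γ) (SW X P x) (SW X' P' y) := by
  -- homogeneous elements
  have key : ∀ (i j l i' j' : ℤ) (v₁ v₂ : V) (p : P) (w₁ w₂ : V') (q : P'), X.IsDeg i v₁ →
      X.IsDeg j v₂ → Z.IsDeg l p → X'.IsDeg i' w₁ → X'.IsDeg j' w₂ →
      SW X'' P'' (kz X' (X.tensor Z) α (kz X' Z α γ) (v₁ ⊗ₜ (v₂ ⊗ₜ p)) (w₁ ⊗ₜ (w₂ ⊗ₜ q))) =
        kz X' (X.tensor Z) α (kz X' Z α γ) (SW X P (v₁ ⊗ₜ (v₂ ⊗ₜ p)))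
          (SW X' P' (w₁ ⊗ₜ (w₂ ⊗ₜ q))) := by
    intro i j l i' j' v₁ v₂ p w₁ w₂ q hv₁ hv₂ hp hw₁ hw₂
    rw [kz_sg (Dg.tensor_deg hv₂ hp) hw₁, kz_sg hp hw₂, SW_sg hv₁ hv₂, SW_sg hw₁ hw₂,
      map_zsmul, TensorProduct.tmul_smul, map_zsmul, SW_sg (hα hv₁ hw₁) (hα hv₂ hw₂), map_zsmul,
      map_zsmul, LinearMap.smul_apply, kz_sg (Dg.tensor_deg hv₁ hp) hw₂, kz_sg hp hw₁,
      TensorProduct.tmul_smul, sg_smul_smul, sg_smul_smul, sg_smul_smul, sg_smul_smul,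
      sg_smul_smul]
    congr 1
    refine sg_eq_of_even ⟨i' * j, ?_⟩
    ring
  have key2 : ∀ (i j l : ℤ) (v₁ v₂ : V) (p : P), X.IsDeg i v₁ → X.IsDeg j v₂ → Z.IsDeg l p →
      SW X'' P'' (kz X' (X.tensor Z) α (kz X' Z α γ) (v₁ ⊗ₜ (v₂ ⊗ₜ p)) y) =
        kz X' (X.tensor Z) α (kz X' Z α γ) (SW X P (v₁ ⊗ₜ (v₂ ⊗ₜ p))) (SW X' P' y) := by
    intro i j l v₁ v₂ p hv₁ hv₂ hp
    induction y using TensorProduct.induction_on with
    | zero => simp only [map_zero]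
    | add y y' hy hy' => simp only [map_add, hy, hy']
    | tmul w₁ s =>
      induction s using TensorProduct.induction_on with
      | zero => simp only [TensorProduct.tmul_zero, map_zero]
      | add y y' hy hy' => simp only [TensorProduct.tmul_add, map_add, hy, hy']
      | tmul w₂ q =>
        refine X'.ind (P := fun w₁ =>
          SW X'' P'' (kz X' (X.tensor Z) α (kz X' Z α γ) (v₁ ⊗ₜ (v₂ ⊗ₜ p)) (w₁ ⊗ₜ (w₂ ⊗ₜ q))) =
          kz X' (X.tensor Z) α (kz X' Z α γ) (SW X P (v₁ ⊗ₜ (v₂ ⊗ₜ p)))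
            (SW X' P' (w₁ ⊗ₜ (w₂ ⊗ₜ q)))) ?_ ?_ ?_ w₁
        · simp only [TensorProduct.zero_tmul, map_zero]
        · intro a b ha hb
          simp only [TensorProduct.add_tmul, map_add, ha, hb]
        · intro i' w₁ hw₁
          refine X'.ind (P := fun w₂ =>
            SW X'' P'' (kz X' (X.tensor Z) α (kz X' Z α γ) (v₁ ⊗ₜ (v₂ ⊗ₜ p))
              (w₁ ⊗ₜ (w₂ ⊗ₜ q))) =
            kz X' (X.tensor Z) α (kz X' Z α γ) (SW X P (v₁ ⊗ₜ (v₂ ⊗ₜ p)))
              (SW X' P' (w₁ ⊗ₜ (w₂ ⊗ₜ q)))) ?_ ?_ ?_ w₂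
          · simp only [TensorProduct.zero_tmul, TensorProduct.tmul_zero, map_zero]
          · intro a b ha hb
            simp only [TensorProduct.add_tmul, TensorProduct.tmul_add, map_add, ha, hb]
          · intro j' w₂ hw₂
            exact key i j l i' j' v₁ v₂ p w₁ w₂ q hv₁ hv₂ hp hw₁ hw₂
  refine X.tind (X.tensor Z) (P := fun x =>
    SW X'' P'' (kz X' (X.tensor Z) α (kz X' Z α γ) x y) =
      kz X' (X.tensor Z) α (kz X' Z α γ) (SW X P x) (SW X' P' y)) ?_ ?_ ?_ x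
  · simp only [map_zero, LinearMap.zero_apply]
  · intro a b ha hb
    simp only [map_add, LinearMap.add_apply, ha, hb]
  · intro i m v₁ r hv₁ _
    refine X.tind Z (P := fun r =>
      SW X'' P'' (kz X' (X.tensor Z) α (kz X' Z α γ) (v₁ ⊗ₜ r) y) =
        kz X' (X.tensor Z) α (kz X' Z α γ) (SW X P (v₁ ⊗ₜ r)) (SW X' P' y)) ?_ ?_ ?_ r
    · simp only [TensorProduct.tmul_zero, map_zero, LinearMap.zero_apply]
    · intro a b ha hb
      simp only [TensorProduct.tmul_add, map_add, LinearMap.add_apply, ha, hb]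
    · intro j l v₂ p hv₂ hp
      exact key2 i j l v₁ v₂ p hv₁ hv₂ hp

end Pool.Agent.MP_6e5bed_ag_SY
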