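import Pool.Agent.Lib.MP_6e5bed_ag_SY.CharQ
import Pool.Agent.Lib.MP_6e5bed_ag_SY.InvG
import Pool.Agent.Lib.MP_6e5bed_ag_SY.Gr

set_option autoImplicit false
set_option linter.unusedSectionVars false

/-!
# MP_6e5bed_ag (project SYM): twists by sets with the same local characters
-/

namespace Pool.Agent.MP_6e5bed_ag_SY

open Pool.Agent.MP_6e5bed_ag_NC

universe u

variable {k : Type u} [Field k] {G : Type} [Group G] [Fintype G] [InvG k G] {E F : DGA k}

/-- the invariant matrices for one point -/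
private theorem Theta_one (X Y Y' : Type) [Fintype X] [MulAction G X] [Fintype Y] [MulAction G Y]
    [Fintype Y'] [MulAction G Y']
    (h : ∀ (g : G) (x : X), g • x = x → fxn Y g = fxn Y' g) (x : X) :
    ∃ (T : Y' → Y → k) (S : Y → Y' → k),
      (∀ g : G, g • x = x → ∀ y' y, T (g • y') (g • y) = T y' y) ∧
      (∀ g : G, g • x = x → ∀ y y', S (g • y) (g • y') = S y y') ∧
      (∀ y' z', ∑ y, T y' y * S y z' = open Classical in if y' = z' then 1 else 0) ∧
      ∀ y z, ∑ y', S y y' * T y' z = open Classical in if y = z then 1 else 0 := by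
  classical
  have hfin : Fintype (MulAction.stabilizer G x) := Fintype.ofFinite _
  obtain ⟨T, S, h1, h2, h3, h4⟩ := perm_matrix' (k := k)
    (H := MulAction.stabilizer G x) (InvG.subgroup _) Y Y'
    (fun g => h (g : G) x (MulAction.mem_stabilizer_iff.1 g.2))
  refine ⟨T, S, ?_, ?_, h3, h4⟩
  · intro g hg y' y
    exact h1 ⟨g, MulAction.mem_stabilizer_iff.2 hg⟩ y' y
  · intro g hg y y'
    exact h2 ⟨g, MulAction.mem_stabilizer_iff.2 hg⟩ y y'

/-- representatives of the orbits -/
private theorem Theta_rep (X : Type) [MulAction G X] :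
    ∃ (r : X → X) (c : X → G), (∀ x, c x • r x = x) ∧ ∀ (g : G) x, r (g • x) = r x := by
  have h1 : ∀ x : X, ∃ g : G,
      g • (Quotient.mk (MulAction.orbitRel G X) x).out = x := by
    intro x
    have h2 : (MulAction.orbitRel G X) (Quotient.mk (MulAction.orbitRel G X) x).out x :=
      Quotient.mk_out (s := MulAction.orbitRel G X) x
    rw [MulAction.orbitRel_apply] at h2
    obtain ⟨g, hg⟩ := h2
    refine ⟨g⁻¹, ?_⟩
    rw [← hg]
    exact inv_smul_smul g x
  choose c hc using h1
  refine ⟨fun x => (Quotient.mk (MulAction.orbitRel G X) x).out, c, hc, ?_⟩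
  intro g x
  have h2 : Quotient.mk (MulAction.orbitRel G X) (g • x) =
      Quotient.mk (MulAction.orbitRel G X) x := by
    apply Quotient.sound
    change (MulAction.orbitRel G X) (g • x) x
    rw [MulAction.orbitRel_apply]
    exact ⟨g, rfl⟩
  change (Quotient.mk (MulAction.orbitRel G X) (g • x)).out = _
  rw [h2]

/-- An equivariant family of isomorphisms `k^Y → k^Y'`, indexed by the `G`-set `X`.

Proof. Let `r x` be a chosen representative of the orbit of `x` and choose `c x` with
`c x • r x = x`. Apply `perm_matrix` to the stabilizer of `r x` (a finite group, acting on `Y` and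
`Y'`; if `h` fixes `r x` then `fxn Y h = fxn Y' h` by the hypothesis), giving `T₀ (r x)`, `S₀ (r
x)`,
and put `T x y' y = T₀ (r x) ((c x)⁻¹ • y') ((c x)⁻¹ • y)`, and the same for `S`. For `g • x` one
has
`r (g • x) = r x` and `c (g • x) = g (c x) h` with `h` in the stabilizer. -/
theorem exists_theta (X Y Y' : Type) [Fintype X] [MulAction G X] [Fintype Y] [MulAction G Y]
    [Fintype Y'] [MulAction G Y']
    (h : ∀ (g : G) (x : X), g • x = x → fxn Y g = fxn Y' g) :
    ∃ (T : X → Y' → Y → k) (S : X → Y → Y' → k),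
      (∀ (g : G) x y' y, T (g • x) (g • y') (g • y) = T x y' y) ∧
      (∀ (g : G) x y y', S (g • x) (g • y) (g • y') = S x y y') ∧
      (∀ x y' z', ∑ y, T x y' y * S x y z' = open Classical in if y' = z' then 1 else 0) ∧
      ∀ x y z, ∑ y', S x y y' * T x y' z = open Classical in if y = z then 1 else 0 := by
  classical
  obtain ⟨r, c, hc, hr⟩ := Theta_rep (G := G) X
  have h1 := Theta_one (k := k) (G := G) X Y Y' h
  choose T₀ S₀ h2 h3 h4 h5 using h1
  have hst : ∀ (g : G) (x : X), ((c (g • x))⁻¹ * g * c x) • r x = r x := by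
    intro g x
    rw [mul_smul, mul_smul, hc, inv_smul_eq_iff]
    have h6 := hc (g • x)
    rw [hr] at h6
    exact h6.symm
  have hst' : ∀ (g : G) (x : X) (Z : Type) [MulAction G Z] (z : Z),
      (c (g • x))⁻¹ • g • z = ((c (g • x))⁻¹ * g * c x) • (c x)⁻¹ • z := by
    intro g x Z _ z
    rw [mul_smul, mul_smul, smul_inv_smul]
  refine ⟨fun x y' y => T₀ (r x) ((c x)⁻¹ • y') ((c x)⁻¹ • y),
    fun x y y' => S₀ (r x) ((c x)⁻¹ • y) ((c x)⁻¹ • y'), ?_, ?_, ?_, ?_⟩
  · intro g x y' y
    change T₀ (r (g • x)) ((c (g • x))⁻¹ • g • y') ((c (g • x))⁻¹ • g • y) = _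
    rw [hr, hst' g x Y' y', hst' g x Y y, h2 (r x) _ (hst g x)]
  · intro g x y y'
    change S₀ (r (g • x)) ((c (g • x))⁻¹ • g • y) ((c (g • x))⁻¹ • g • y') = _
    rw [hr, hst' g x Y' y', hst' g x Y y, h3 (r x) _ (hst g x)]
  · intro x y' z'
    have h6 := h4 (r x) ((c x)⁻¹ • y') ((c x)⁻¹ • z')
    rw [← Fintype.sum_equiv (MulAction.toPerm (c x)⁻¹) (fun y =>
      T₀ (r x) ((c x)⁻¹ • y') ((c x)⁻¹ • y) * S₀ (r x) ((c x)⁻¹ • y) ((c x)⁻¹ • z'))
      (fun y => T₀ (r x) ((c x)⁻¹ • y') y * S₀ (r x) y ((c x)⁻¹ • z')) (fun y => rfl)] at h6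
    rw [h6]
    by_cases h7 : y' = z'
    · rw [if_pos h7, if_pos (by rw [h7])]
    · rw [if_neg h7, if_neg (fun h8 => h7 (smul_left_cancel _ h8))]
  · intro x y z
    have h6 := h5 (r x) ((c x)⁻¹ • y) ((c x)⁻¹ • z)
    rw [← Fintype.sum_equiv (MulAction.toPerm (c x)⁻¹) (fun y' =>
      S₀ (r x) ((c x)⁻¹ • y) ((c x)⁻¹ • y') * T₀ (r x) ((c x)⁻¹ • y') ((c x)⁻¹ • z))
      (fun y' => S₀ (r x) ((c x)⁻¹ • y) y' * T₀ (r x) y' ((c x)⁻¹ • z)) (fun y => rfl)] at h6
    rw [h6]
    by_cases h7 : y = z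
    · rw [if_pos h7, if_pos (by rw [h7])]
    · rw [if_neg h7, if_neg (fun h8 => h7 (smul_left_cancel _ h8))]

section maps

private theorem Theta_sum {V : Type u} [AddCommGroup V] [Module k V] {Z : Dg k V} {n : ℤ}
    {ι : Type} (t : Finset ι) (f : ι → V) (h : ∀ i, Z.IsDeg n (f i)) :
    Z.IsDeg n (∑ i ∈ t, f i) := by
  classical
  induction t using Finset.induction_on with
  | empty =>
    rw [Finset.sum_empty]
    exact Dg.IsDeg.zero n
  | insert a s ha ih =>
    rw [Finset.sum_insert ha]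
    exact (h a).add ih

variable {Γ : GrA G E} {X : Type} [Fintype X] [MulAction G X] {M : Bim E F} (q : GrM Γ X M)
  {Y Y' : Type} [Fintype Y] [MulAction G Y] [Fintype Y'] [MulAction G Y']

/-- the linear map given by a family of matrices -/
private noncomputable def Theta_lin (T : X → Y' → Y → k) : (Y → M.M) →ₗ[k] (Y' → M.M) :=
  LinearMap.pi fun y' => ∑ x, ∑ y, T x y' y • ((q.q x).comp (LinearMap.proj y))

private theorem Theta_lin_apply (T : X → Y' → Y → k) (f : Y → M.M) (y' : Y') :
    Theta_lin q T f y' = ∑ x, ∑ y, T x y' y • q.q x (f y) := by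
  simp [Theta_lin]

/-- the projections of the image -/
private theorem Theta_lin_q (T : X → Y' → Y → k) (f : Y → M.M) (x : X) (y' : Y') :
    q.q x (Theta_lin q T f y') = ∑ y, T x y' y • q.q x (f y) := by
  classical
  rw [Theta_lin_apply, map_sum, Finset.sum_eq_single x]
  · rw [map_sum]
    refine Finset.sum_congr rfl fun y _ => ?_
    rw [map_smul, q.q_same]
  · intro x' _ hx'
    rw [map_sum]
    refine Finset.sum_eq_zero fun y _ => ?_
    rw [map_smul, q.q_ne x x' _ (Ne.symm hx'), smul_zero]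
  · intro h
    exact absurd (Finset.mem_univ _) h

private theorem Theta_lin_inv (T : X → Y' → Y → k) (S : X → Y → Y' → k)
    (h : ∀ x y z, ∑ y', S x y y' * T x y' z = open Classical in if y = z then 1 else 0)
    (f : Y → M.M) : Theta_lin q S (Theta_lin q T f) = f := by
  classical
  funext y
  rw [Theta_lin_apply]
  have h1 : ∀ x, ∑ y', S x y y' • q.q x (Theta_lin q T f y') = q.q x (f y) := by
    intro x
    have h2 : ∀ y', S x y y' • q.q x (Theta_lin q T f y') =
        ∑ z, (S x y y' * T x y' z) • q.q x (f z) := by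
      intro y'
      rw [Theta_lin_q, Finset.smul_sum]
      exact Finset.sum_congr rfl fun z _ => by rw [smul_smul]
    rw [Finset.sum_congr rfl fun y' _ => h2 y', Finset.sum_comm]
    have h3 : ∀ z, ∑ y', (S x y y' * T x y' z) • q.q x (f z) =
        if y = z then q.q x (f z) else 0 := by
      intro z
      rw [← Finset.sum_smul, h]
      by_cases h4 : y = z
      · rw [if_pos h4, if_pos h4, one_smul]
      · rw [if_neg h4, if_neg h4, zero_smul]
    rw [Finset.sum_congr rfl fun z _ => h3 z, Finset.sum_ite_eq, if_pos (Finset.mem_univ _)]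
  rw [Finset.sum_congr rfl fun x _ => h1 x, q.sum_q]

private theorem Theta_lin_l (T : X → Y' → Y → k)
    (h : ∀ (g : G) x y' y, T (g • x) (g • y') (g • y) = T x y' y) (e : E.A) (f : Y → M.M)
    (y' : Y') :
    Theta_lin q T ((tws Γ Y M).l e f) y' =
      ∑ g, M.l (Γ.p g e) (Theta_lin q T f (g⁻¹ • y')) := by
  classical
  rw [Theta_lin_apply]
  have h1 : ∀ x y, T x y' y • q.q x ((tws Γ Y M).l e f y) =
      ∑ g, T x y' y • M.l (Γ.p g e) (q.q (g⁻¹ • x) (f (g⁻¹ • y))) := by
    intro x y
    rw [tws_l, map_sum, Finset.smul_sum]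
    refine Finset.sum_congr rfl fun g _ => ?_
    have h2 := q.q_l g (g⁻¹ • x) e (f (g⁻¹ • y))
    rw [smul_inv_smul] at h2
    rw [h2]
  rw [Finset.sum_congr rfl fun x _ => Finset.sum_congr rfl fun y _ => h1 x y]
  rw [Finset.sum_congr rfl fun x _ => Finset.sum_comm, Finset.sum_comm]
  refine Finset.sum_congr rfl fun g _ => ?_
  rw [Theta_lin_apply, map_sum]
  refine (Fintype.sum_equiv (MulAction.toPerm g) _ _ fun x => ?_).symm
  rw [map_sum]
  refine Fintype.sum_equiv (MulAction.toPerm g) _ _ fun y => ?_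
  rw [MulAction.toPerm_apply, MulAction.toPerm_apply, inv_smul_smul, inv_smul_smul, map_smul]
  have h3 := h g x (g⁻¹ • y') y
  rw [smul_inv_smul] at h3
  rw [h3]

private theorem Theta_lin_deg (T : X → Y' → Y → k) {i : ℤ} (f : Y → M.M)
    (hf : ∀ y, M.dg.IsDeg i (f y)) (y' : Y') : M.dg.IsDeg i (Theta_lin q T f y') := by
  rw [Theta_lin_apply]
  refine Theta_sum _ _ fun x => Theta_sum _ _ fun y => ?_
  exact (q.q_deg x (hf y)).smul _

/-- the morphism given by a family of matrices -/
private noncomputable def Theta_map (T : X → Y' → Y → k)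
    (h : ∀ (g : G) x y' y, T (g • x) (g • y') (g • y) = T x y' y) :
    GMap 0 (tws Γ Y M) (tws Γ Y' M) where
  f := Theta_lin q T
  deg := fun {i f} hf => by
    rw [add_zero]
    exact dgPi_deg.2 fun y' => Theta_lin_deg q T f (dgPi_deg.1 hf) y'
  map_l := fun e f => by
    rw [Dg.sp_zero]
    funext y'
    refine (Theta_lin_l q T h e f y').trans ?_
    exact (tws_l Γ Y' M e (Theta_lin q T f) y').symm
  map_r := fun b f => by
    funext y'
    refine (Theta_lin_apply q T ((tws Γ Y M).r b f) y').trans ?_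
    refine Eq.trans ?_ (tws_r Γ Y' M b (Theta_lin q T f) y').symm
    rw [Theta_lin_apply, map_sum]
    refine Finset.sum_congr rfl fun x _ => ?_
    rw [map_sum]
    refine Finset.sum_congr rfl fun y _ => ?_
    rw [map_smul, ← q.q_r]
    rfl

private theorem Theta_map_dd (T : X → Y' → Y → k)
    (h : ∀ (g : G) x y' y, T (g • x) (g • y') (g • y) = T x y' y) :
    (Theta_map q T h).dd = 0 := by
  refine LinearMap.ext fun f => ?_
  rw [GMap.dd_apply, sg_zero, one_smul, LinearMap.zero_apply, sub_eq_zero]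
  funext y'
  refine (tws_d Γ Y' M (Theta_lin q T f) y').trans ?_
  refine Eq.trans ?_ (Theta_lin_apply q T ((tws Γ Y M).dg.d f) y').symm
  rw [Theta_lin_apply, map_sum]
  refine Finset.sum_congr rfl fun x _ => ?_
  rw [map_sum]
  refine Finset.sum_congr rfl fun y _ => ?_
  rw [map_smul, q.q_d]
  rfl

end maps

/-- If `M` is `X`-graded and each element of `G` with a fixed point on `X` has the same number of
fixed points on `Y` and on `Y'`, then the twists of `M` by `Y` and by `Y'` are isomorphic.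

Proof. With `T`, `S` of `exists_theta` the map is `f ↦ (y' ↦ ∑ x, ∑ y, T x y' y • q x (f y))`, the
inverse is `f ↦ (y ↦ ∑ x, ∑ y', S x y y' • q x (f y'))`. Linearity for `e` of degree `g`:
`q x (e f(g⁻¹ y)) = e q (g⁻¹ x) (f (g⁻¹ y))`; substitute `x = g x₁`, `y = g y₁`. -/
theorem tws_theta (Γ : GrA G E) {X : Type} [Fintype X] [MulAction G X] {M : Bim E F}
    (q : GrM Γ X M) (Y Y' : Type) [Fintype Y] [MulAction G Y] [Fintype Y'] [MulAction G Y']
    (h : ∀ (g : G) (x : X), g • x = x → fxn Y g = fxn Y' g) :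
    BIso (tws Γ Y M) (tws Γ Y' M) := by
  obtain ⟨T, S, h1, h2, h3, h4⟩ := exists_theta (k := k) (G := G) X Y Y' h
  refine ⟨Theta_map q T h1, Theta_map q S h2, Theta_map_dd q T h1, ?_, ?_⟩
  · intro f
    exact Theta_lin_inv q T S h4 f
  · intro f
    exact Theta_lin_inv q S T h3 f

end Pool.Agent.MP_6e5bed_ag_SY
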